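import Mathlib

set_option autoImplicit false

namespace Pool.Agent.H.MP_711652_nt

open Finset

/-- `2 ^ Ω(n) / n` on integers coprime to `h`. -/
noncomputable def fm (h : ℕ) (n : ℕ) : ℝ :=
  if n.Coprime h then (2 : ℝ) ^ (ArithmeticFunction.cardFactors n) / n else 0

lemma fm_nonneg (h n : ℕ) : 0 ≤ fm h n := by
  unfold fm; split_ifs <;> positivity

lemma fm_one (h : ℕ) : fm h 1 = 1 := by
  unfold fm; simp

lemma fm_mul (h : ℕ) (hh : h ≠ 1) (m n : ℕ) : fm h (m * n) = fm h m * fm h n := by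
  have h0 : fm h 0 = 0 := by
    unfold fm
    rw [if_neg]
    rw [Nat.coprime_zero_left]
    exact hh
  rcases eq_or_ne m 0 with rfl | hm
  · rw [zero_mul, h0, zero_mul]
  rcases eq_or_ne n 0 with rfl | hn
  · rw [mul_zero, h0, mul_zero]
  unfold fm
  by_cases h1 : m.Coprime h
  · by_cases h2 : n.Coprime h
    · rw [if_pos h1, if_pos h2, if_pos (Nat.Coprime.mul_left h1 h2),
        ArithmeticFunction.cardFactors_mul hm hn, pow_add]
      push_cast
      field_simp
    · rw [if_neg h2, if_neg, mul_zero]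
      intro h3
      exact h2 (Nat.Coprime.coprime_dvd_left (dvd_mul_left _ _) h3)
  · rw [if_neg h1, if_neg, zero_mul]
    intro h3
    exact h1 (Nat.Coprime.coprime_dvd_left (dvd_mul_right _ _) h3)

/-- `fm` as a monoid homomorphism. -/
noncomputable def fmHom (h : ℕ) (hh : h ≠ 1) : ℕ →* ℝ where
  toFun := fm h
  map_one' := fm_one h
  map_mul' := fm_mul h hh

lemma fm_prime (h p : ℕ) (hp : p.Prime) (hph : ¬ p ∣ h) : fm h p = 2 / p := by
  unfold fm
  rw [if_pos ((Nat.Prime.coprime_iff_not_dvd hp).2 hph), ArithmeticFunction.cardFactors_apply_prime hp]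
  simp

lemma fm_prime_lt (h p : ℕ) (hh : 2 ∣ h) (hp : p.Prime) : fm h p < 1 := by
  by_cases hph : p ∣ h
  · unfold fm
    rw [if_neg]
    · norm_num
    · intro hc
      exact ((Nat.Prime.coprime_iff_not_dvd hp).1 hc) hph
  · rw [fm_prime h p hp hph]
    have h2 : 2 < p := by
      rcases hp.two_le.lt_or_eq with h | h
      · exact h
      · subst h; exact absurd hh hph
    have h2' : (2 : ℝ) < p := by exact_mod_cast h2
    rw [div_lt_one (by linarith)]
    exact h2'

lemma card_divisors_le (n : ℕ) : n.divisors.card ≤ 2 ^ (ArithmeticFunction.cardFactors n) := by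
  induction n using Nat.recOnPosPrimePosCoprime with
  | prime_pow p n hp hn =>
    rw [ArithmeticFunction.cardFactors_apply_prime_pow hp, Nat.divisors_prime_pow hp]
    simp only [card_map, card_range]
    exact Nat.lt_two_pow_self
  | zero => simp
  | one => simp
  | coprime a b ha hb hab iha ihb =>
    rw [Nat.Coprime.card_divisors_mul hab, ArithmeticFunction.cardFactors_mul (by omega) (by omega),
      pow_add]
    exact Nat.mul_le_mul iha ihb

/-- `∑_{rad n = l} f(n) ≤ f(l) ∏ (1 - f(p))⁻¹`. -/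
lemma sum_rad_le (h z l : ℕ) (hh : 2 ∣ h) (hl : Squarefree l) :
    ∑ n ∈ (Icc 1 z).filter (fun n => n.primeFactors = l.primeFactors), fm h n ≤
      fm h l * ∏ p ∈ l.primeFactors, (1 - fm h p)⁻¹ := by
  have hh1 : h ≠ 1 := by rintro rfl; omega
  have hl0 : l ≠ 0 := hl.ne_zero
  have hlt : ∀ {p : ℕ}, p.Prime → ‖fmHom h hh1 p‖ < 1 := by
    intro p hp
    change ‖fm h p‖ < 1
    rw [Real.norm_of_nonneg (fm_nonneg h p)]
    exact fm_prime_lt h p hh hp
  have hs := (EulerProduct.summable_and_hasSum_factoredNumbers_prod_filter_prime_geometric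
    (f := fmHom h hh1) hlt l.primeFactors).2
  have hfilter : l.primeFactors.filter (fun p => p.Prime) = l.primeFactors := by
    apply filter_true_of_mem
    intro p hp
    exact Nat.prime_of_mem_primeFactors hp
  rw [hfilter] at hs
  have hs2 : HasSum ((Nat.factoredNumbers l.primeFactors).indicator (fm h))
      (∏ p ∈ l.primeFactors, (1 - fm h p)⁻¹) := by
    rw [← hasSum_subtype_iff_indicator]
    exact hs
  set T := (Icc 1 z).filter (fun n => n.primeFactors = l.primeFactors) with hT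
  have hmem : ∀ n ∈ T, n ≠ 0 ∧ n.primeFactors = l.primeFactors := by
    intro n hn
    rw [hT, mem_filter, mem_Icc] at hn
    exact ⟨by omega, hn.2⟩
  have hldvd : ∀ n ∈ T, l ∣ n := by
    intro n hn
    obtain ⟨-, h2⟩ := hmem n hn
    rw [← Nat.prod_primeFactors_of_squarefree hl, ← h2]
    exact Nat.prod_primeFactors_dvd n
  have h1 : ∑ n ∈ T, fm h n = fm h l * ∑ m ∈ T.image (fun n => n / l), fm h m := by
    rw [sum_image, mul_sum]
    · apply sum_congr rfl
      intro n hn
      obtain ⟨k, hk⟩ := hldvd n hn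
      rw [hk, Nat.mul_div_cancel_left _ (Nat.pos_of_ne_zero hl0), fm_mul h hh1]
    · intro a ha b hb hab
      obtain ⟨k, hk⟩ := hldvd a ha
      obtain ⟨j, hj⟩ := hldvd b hb
      simp only [hk, hj, Nat.mul_div_cancel_left _ (Nat.pos_of_ne_zero hl0)] at hab
      rw [hk, hj, hab]
  rw [h1]
  apply mul_le_mul_of_nonneg_left _ (fm_nonneg h l)
  have h2 : ∑ m ∈ T.image (fun n => n / l), fm h m =
      ∑ m ∈ T.image (fun n => n / l), (Nat.factoredNumbers l.primeFactors).indicator (fm h) m := by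
    apply sum_congr rfl
    intro m hm
    rw [mem_image] at hm
    obtain ⟨n, hn, rfl⟩ := hm
    obtain ⟨hn0, hn2⟩ := hmem n hn
    obtain ⟨k, hk⟩ := hldvd n hn
    rw [hk, Nat.mul_div_cancel_left _ (Nat.pos_of_ne_zero hl0)]
    rw [Set.indicator_of_mem]
    rw [Nat.mem_factoredNumbers_iff_primeFactors_subset]
    have hk0 : k ≠ 0 := by rintro rfl; apply hn0; rw [hk, mul_zero]
    refine ⟨hk0, ?_⟩
    rw [← hn2, hk]
    exact Nat.primeFactors_mono (dvd_mul_left _ _) (mul_ne_zero hl0 hk0)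
  rw [h2]
  exact sum_le_hasSum _ (fun i _ => Set.indicator_nonneg (fun x _ => fm_nonneg h x) i) hs2

/-- Product of the primes `p ≤ z` not dividing `h`. -/
noncomputable def Pz (h z : ℕ) : ℕ :=
  ∏ p ∈ (range (z + 1)).filter (fun p => p.Prime ∧ ¬ p ∣ h), p

lemma Pz_squarefree (h z : ℕ) : Squarefree (Pz h z) := by
  unfold Pz
  apply Finset.squarefree_prod_of_pairwise_isCoprime
  · intro p hp q hq hpq
    rw [Finset.mem_coe, mem_filter] at hp hq
    exact Nat.coprime_iff_isRelPrime.1 ((Nat.coprime_primes hp.2.1 hq.2.1).2 hpq)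
  · intro p hp
    rw [mem_filter] at hp
    exact hp.2.1.prime.squarefree

lemma prime_dvd_Pz {h z p : ℕ} (hp : p.Prime) : p ∣ Pz h z ↔ p ≤ z ∧ ¬ p ∣ h := by
  unfold Pz
  rw [Prime.dvd_finsetProd_iff hp.prime]
  constructor
  · rintro ⟨q, hq, hpq⟩
    rw [mem_filter, mem_range] at hq
    have : p = q := (Nat.prime_dvd_prime_iff_eq hp hq.2.1).1 hpq
    subst this
    exact ⟨by omega, hq.2.2⟩
  · rintro ⟨h1, h2⟩
    exact ⟨p, by rw [mem_filter, mem_range]; exact ⟨by omega, hp, h2⟩, dvd_rfl⟩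

/-- The multiplicative function `∏_{p ∣ d} 2 / p`. -/
noncomputable def nu2 : ArithmeticFunction ℝ := ArithmeticFunction.prodPrimeFactors (fun p => 2 / p)

lemma nu2_apply {d : ℕ} (hd : d ≠ 0) : nu2 d = ∏ p ∈ d.primeFactors, (2 / (p : ℝ)) := by
  unfold nu2
  rw [ArithmeticFunction.prodPrimeFactors_apply hd]

lemma nu2_mult : nu2.IsMultiplicative := by
  unfold nu2
  exact ArithmeticFunction.IsMultiplicative.prodPrimeFactors _

lemma nu2_prime {p : ℕ} (hp : p.Prime) : nu2 p = 2 / p := by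
  rw [nu2_apply hp.ne_zero, hp.primeFactors, prod_singleton]

lemma nu2_eq_fm (h l : ℕ) (hh : h ≠ 1) (hl : Squarefree l) (hc : ∀ p, p.Prime → p ∣ l → ¬ p ∣ h) :
    nu2 l = fm h l := by
  rw [nu2_apply hl.ne_zero]
  have h1 : fm h l = fmHom h hh (∏ p ∈ l.primeFactors, p) := by
    rw [Nat.prod_primeFactors_of_squarefree hl]
    rfl
  rw [h1, map_prod]
  apply prod_congr rfl
  intro p hp
  change _ = fm h p
  rw [fm_prime h p (Nat.prime_of_mem_primeFactors hp)
    (hc p (Nat.prime_of_mem_primeFactors hp) (Nat.dvd_of_mem_primeFactors hp))]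

/-- lower bound for the Selberg sum, in terms of `∑_{n ≤ z} f(n)`. -/
lemma sum_fm_le (h z : ℕ) (hh : 2 ∣ h) :
    ∑ n ∈ Icc 1 z, fm h n ≤ ∑ l ∈ (Pz h z).divisors with l ≤ z,
      fm h l * ∏ p ∈ l.primeFactors, (1 - fm h p)⁻¹ := by
  have h1 : ∑ n ∈ Icc 1 z, fm h n = ∑ n ∈ (Icc 1 z).filter (fun n => n.Coprime h), fm h n := by
    rw [sum_filter]
    apply sum_congr rfl
    intro n _
    unfold fm
    split_ifs <;> rfl
  rw [h1]
  have hmaps : ∀ n ∈ (Icc 1 z).filter (fun n => n.Coprime h),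
      (∏ p ∈ n.primeFactors, p) ∈ (Pz h z).divisors.filter (fun l => l ≤ z) := by
    intro n hn
    rw [mem_filter, mem_Icc] at hn
    rw [mem_filter, Nat.mem_divisors]
    refine ⟨⟨?_, (Pz_squarefree h z).ne_zero⟩, ?_⟩
    · unfold Pz
      apply prod_dvd_prod_of_subset
      intro p hp
      have hpp := Nat.prime_of_mem_primeFactors hp
      have hpd := Nat.dvd_of_mem_primeFactors hp
      rw [mem_filter, mem_range]
      have := Nat.le_of_dvd (by omega) hpd
      refine ⟨by omega, hpp, ?_⟩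
      intro hph
      have := Nat.dvd_gcd hpd hph
      rw [hn.2] at this
      exact hpp.one_lt.ne' (Nat.dvd_one.1 this)
    · exact (Nat.le_of_dvd (by omega) (Nat.prod_primeFactors_dvd n)).trans hn.1.2
  rw [← sum_fiberwise_of_maps_to hmaps]
  apply sum_le_sum
  intro l hl
  rw [mem_filter, Nat.mem_divisors] at hl
  have hlsq : Squarefree l := (Pz_squarefree h z).squarefree_of_dvd hl.1.1
  refine le_trans ?_ (sum_rad_le h z l hh hlsq)
  apply sum_le_sum_of_subset_of_nonneg
  · intro n hn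
    rw [mem_filter, mem_filter] at hn
    rw [mem_filter]
    refine ⟨hn.1.1, ?_⟩
    rw [← hn.2]
    symm
    apply Nat.primeFactors_prod
    intro p hp
    exact Nat.prime_of_mem_primeFactors hp
  · intro n _ _
    exact fm_nonneg h n

lemma sq_sum_le (h y : ℕ) :
    (∑ m ∈ (Icc 1 y).filter (fun m => m.Coprime h), (1 : ℝ) / m) ^ 2 ≤
      ∑ n ∈ Icc 1 (y ^ 2), fm h n := by
  set A := (Icc 1 y).filter (fun m => m.Coprime h) with hA
  rw [sq, sum_mul_sum, ← sum_product']
  have hmaps : ∀ q ∈ A ×ˢ A, q.1 * q.2 ∈ (Icc 1 (y ^ 2)).filter (fun n => n.Coprime h) := by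
    intro q hq
    rw [mem_product, hA, mem_filter, mem_filter, mem_Icc, mem_Icc] at hq
    rw [mem_filter, mem_Icc]
    refine ⟨⟨Nat.mul_pos hq.1.1.1 hq.2.1.1, ?_⟩, Nat.Coprime.mul_left hq.1.2 hq.2.2⟩
    rw [sq]
    exact Nat.mul_le_mul hq.1.1.2 hq.2.1.2
  rw [← sum_fiberwise_of_maps_to hmaps]
  have h1 : ∑ n ∈ (Icc 1 (y ^ 2)).filter (fun n => n.Coprime h), fm h n ≤
      ∑ n ∈ Icc 1 (y ^ 2), fm h n :=
    sum_le_sum_of_subset_of_nonneg (filter_subset _ _) (fun n _ _ => fm_nonneg h n)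
  refine le_trans (sum_le_sum ?_) h1
  intro n hn
  rw [mem_filter, mem_Icc] at hn
  have h2 : ∀ q ∈ (A ×ˢ A).filter (fun q => q.1 * q.2 = n),
      (1 : ℝ) / (q.1 : ℝ) * (1 / (q.2 : ℝ)) = 1 / n := by
    intro q hq
    rw [mem_filter] at hq
    rw [← hq.2]
    push_cast
    rw [one_div_mul_one_div]
  rw [sum_congr rfl h2, sum_const, nsmul_eq_mul]
  unfold fm
  rw [if_pos hn.2]
  have hn0 : (0 : ℝ) < n := by exact_mod_cast (show 0 < n by omega)
  rw [mul_one_div, div_le_div_iff_of_pos_right hn0]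
  have h3 : ((A ×ˢ A).filter (fun q => q.1 * q.2 = n)).card ≤ n.divisors.card := by
    apply card_le_card_of_injOn (fun q => q.1)
    · intro q hq
      rw [Finset.mem_coe, mem_filter] at hq
      rw [Finset.mem_coe, Nat.mem_divisors]
      exact ⟨⟨q.2, hq.2.symm⟩, by omega⟩
    · intro q hq r hr hqr
      rw [Finset.mem_coe, mem_filter] at hq hr
      simp only at hqr
      have hr0 : 0 < r.1 := by
        rcases Nat.eq_zero_or_pos r.1 with h0 | h0
        · rw [h0, zero_mul] at hr; omega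
        · exact h0
      apply Prod.ext hqr
      have : r.1 * q.2 = r.1 * r.2 := by rw [hr.2, ← hqr, hq.2]
      exact Nat.eq_of_mul_eq_mul_left hr0 this
  calc ((((A ×ˢ A).filter (fun q => q.1 * q.2 = n)).card : ℕ) : ℝ) ≤ (n.divisors.card : ℝ) := by
        exact_mod_cast h3
    _ ≤ (2 : ℝ) ^ (ArithmeticFunction.cardFactors n) := by
        exact_mod_cast card_divisors_le n

/-- Harmonic sums over integers free of the primes in `s`. -/
lemma harm_free (y : ℕ) (s : Finset ℕ) (hs : ∀ p ∈ s, p.Prime) :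
    (∏ p ∈ s, (1 - 1 / (p : ℝ))) * (∑ m ∈ Icc 1 y, (1 : ℝ) / m) ≤
      ∑ m ∈ (Icc 1 y).filter (fun m => ∀ p ∈ s, ¬ p ∣ m), (1 : ℝ) / m := by
  induction s using Finset.induction_on with
  | empty => simp
  | insert p s hps ih =>
    have ih' := ih (fun q hq => hs q (mem_insert_of_mem hq))
    have hp : p.Prime := hs p (mem_insert_self _ _)
    have hp0 : (0 : ℝ) < p := by exact_mod_cast hp.pos
    have hp1 : (1 : ℝ) ≤ p := by exact_mod_cast hp.one_lt.le
    rw [prod_insert hps]
    set B := (Icc 1 y).filter (fun m => ∀ q ∈ s, ¬ q ∣ m) with hB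
    have hsplit : (∑ m ∈ B.filter (fun m => p ∣ m), (1 : ℝ) / m) +
        (∑ m ∈ B.filter (fun m => ¬ p ∣ m), (1 : ℝ) / m) = ∑ m ∈ B, (1 : ℝ) / m :=
      sum_filter_add_sum_filter_not B _ _
    have heq : (Icc 1 y).filter (fun m => ∀ q ∈ insert p s, ¬ q ∣ m) = B.filter (fun m => ¬ p ∣ m) := by
      ext m
      rw [mem_filter, mem_filter, hB, mem_filter]
      constructor
      · rintro ⟨h1, h2⟩
        exact ⟨⟨h1, fun q hq => h2 q (mem_insert_of_mem hq)⟩, h2 p (mem_insert_self _ _)⟩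
      · rintro ⟨⟨h1, h2⟩, h3⟩
        refine ⟨h1, fun q hq => ?_⟩
        rcases mem_insert.1 hq with rfl | hq
        · exact h3
        · exact h2 q hq
    have hmul : (∑ m ∈ B.filter (fun m => p ∣ m), (1 : ℝ) / m) ≤ 1 / p * ∑ m ∈ B, (1 : ℝ) / m := by
      have h1 : (∑ m ∈ B.filter (fun m => p ∣ m), (1 : ℝ) / m) =
          1 / p * ∑ k ∈ (B.filter (fun m => p ∣ m)).image (fun m => m / p), (1 : ℝ) / k := by
        rw [sum_image, mul_sum]
        · apply sum_congr rfl
          intro m hm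
          rw [mem_filter] at hm
          obtain ⟨k, rfl⟩ := hm.2
          rw [Nat.mul_div_cancel_left _ hp.pos]
          push_cast
          rw [one_div_mul_one_div]
        · intro a ha b hb hab
          rw [Finset.mem_coe, mem_filter] at ha hb
          obtain ⟨k, rfl⟩ := ha.2
          obtain ⟨j, rfl⟩ := hb.2
          simp only [Nat.mul_div_cancel_left _ hp.pos] at hab
          rw [hab]
      rw [h1]
      apply mul_le_mul_of_nonneg_left _ (by positivity)
      apply sum_le_sum_of_subset_of_nonneg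
      · intro k hk
        rw [mem_image] at hk
        obtain ⟨m, hm, rfl⟩ := hk
        rw [mem_filter, hB, mem_filter, mem_Icc] at hm
        obtain ⟨⟨⟨h1, h2⟩, h3⟩, k, rfl⟩ := hm
        rw [Nat.mul_div_cancel_left _ hp.pos, mem_filter, mem_Icc]
        refine ⟨⟨?_, ?_⟩, ?_⟩
        · rcases Nat.eq_zero_or_pos k with h0 | h0
          · subst h0; omega
          · exact h0
        · exact (Nat.le_mul_of_pos_left k hp.pos).trans h2
        · intro q hq hqk
          exact h3 q hq (hqk.trans (dvd_mul_left _ _))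
      · intro k _ _
        positivity
    rw [heq]
    have h1p : 0 ≤ 1 - 1 / (p : ℝ) := by
      rw [sub_nonneg, div_le_one hp0]
      exact hp1
    calc (1 - 1 / (p : ℝ)) * (∏ q ∈ s, (1 - 1 / (q : ℝ))) * (∑ m ∈ Icc 1 y, (1 : ℝ) / m)
        = (1 - 1 / (p : ℝ)) * ((∏ q ∈ s, (1 - 1 / (q : ℝ))) * (∑ m ∈ Icc 1 y, (1 : ℝ) / m)) := by ring
      _ ≤ (1 - 1 / (p : ℝ)) * ∑ m ∈ B, (1 : ℝ) / m := mul_le_mul_of_nonneg_left ih' h1p
      _ ≤ _ := by linarith

lemma harm_ge (y : ℕ) (hy : 1 ≤ y) : Real.log y ≤ ∑ m ∈ Icc 1 y, (1 : ℝ) / m := by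
  have h1 := log_add_one_le_harmonic y
  rw [harmonic_eq_sum_Icc] at h1
  push_cast at h1
  have h2 : Real.log y ≤ Real.log (y + 1) := by
    apply Real.log_le_log
    · exact_mod_cast hy
    · linarith
  simp only [one_div]
  linarith

lemma coprime_sum_ge (h y : ℕ) (hh : h ≠ 0) (hy : 1 ≤ y) :
    (∏ p ∈ h.primeFactors, (1 - 1 / (p : ℝ))) * Real.log y ≤
      ∑ m ∈ (Icc 1 y).filter (fun m => m.Coprime h), (1 : ℝ) / m := by
  have h1 := harm_free y h.primeFactors (fun p hp => Nat.prime_of_mem_primeFactors hp)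
  have heq : (Icc 1 y).filter (fun m => ∀ p ∈ h.primeFactors, ¬ p ∣ m) =
      (Icc 1 y).filter (fun m => m.Coprime h) := by
    apply filter_congr
    intro m hm
    constructor
    · intro h2
      apply Nat.coprime_of_dvd
      intro p hp hpm hph
      exact h2 p (Nat.mem_primeFactors.2 ⟨hp, hph, hh⟩) hpm
    · intro h2 p hp hpm
      have hpp := Nat.prime_of_mem_primeFactors hp
      have := Nat.dvd_gcd hpm (Nat.dvd_of_mem_primeFactors hp)
      rw [h2] at this
      exact hpp.one_lt.ne' (Nat.dvd_one.1 this)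
  rw [heq] at h1
  refine le_trans ?_ h1
  apply mul_le_mul_of_nonneg_left (harm_ge y hy)
  apply prod_nonneg
  intro p hp
  have hp' := Nat.prime_of_mem_primeFactors hp
  have hp0 : (0 : ℝ) < p := by exact_mod_cast hp'.pos
  rw [sub_nonneg, div_le_one hp0]
  exact_mod_cast hp'.one_lt.le

end Pool.Agent.H.MP_711652_nt
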