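import Mathlib

set_option autoImplicit false

namespace Pool.Agent.H.MP_711652_nt

open Finset

/-- Number of roots of `x (x + h)` modulo `d`. -/
noncomputable def rc (h d : ℕ) : ℕ := Nat.card {x : ZMod d // x * (x + (h : ZMod d)) = 0}

lemma rc_one (h : ℕ) : rc h 1 = 1 := by
  unfold rc
  have : Subsingleton (ZMod 1) := inferInstance
  have hu : Nonempty {x : ZMod 1 // x * (x + (h : ZMod 1)) = 0} := ⟨⟨0, Subsingleton.elim _ _⟩⟩
  have hs : Subsingleton {x : ZMod 1 // x * (x + (h : ZMod 1)) = 0} := inferInstance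
  rw [Nat.card_eq_one_iff_unique]
  exact ⟨hs, hu⟩

lemma rc_mul (h a b : ℕ) (hab : a.Coprime b) : rc h (a * b) = rc h a * rc h b := by
  unfold rc
  rw [← Nat.card_prod]
  let e := ZMod.chineseRemainder hab
  refine Nat.card_congr ?_
  refine Equiv.trans (Equiv.subtypeEquiv (p := fun x : ZMod (a * b) => x * (x + (h : ZMod (a * b))) = 0)
    (q := fun y : ZMod a × ZMod b => (y.1 * (y.1 + (h : ZMod a)) = 0) ∧
      (y.2 * (y.2 + (h : ZMod b)) = 0)) e.toEquiv ?_) ?_
  · intro x
    have h1 : (x * (x + (h : ZMod (a * b))) = 0) ↔ e (x * (x + (h : ZMod (a * b)))) = 0 :=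
      (map_eq_zero_iff e e.injective).symm
    rw [h1, map_mul, map_add, map_natCast, Prod.ext_iff]
    simp
  · exact Equiv.subtypeProdEquivProd (p := fun y : ZMod a => y * (y + (h : ZMod a)) = 0)
      (q := fun y : ZMod b => y * (y + (h : ZMod b)) = 0)

lemma rc_prime (h p : ℕ) (hp : p.Prime) (hh : ¬ p ∣ h) : rc h p = 2 := by
  unfold rc
  have := Fact.mk hp
  rw [Nat.card_eq_fintype_card, Fintype.card_subtype]
  have : (univ.filter fun x : ZMod p => x * (x + (h : ZMod p)) = 0) = {0, -(h : ZMod p)} := by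
    ext x
    simp only [mem_filter, mem_univ, true_and, mul_eq_zero, mem_insert, mem_singleton]
    rw [add_eq_zero_iff_eq_neg]
  rw [this, card_pair]
  intro h0
  apply hh
  rw [← ZMod.natCast_eq_zero_iff]
  rw [eq_comm, neg_eq_zero] at h0
  exact h0

lemma rc_squarefree (h d : ℕ) (hd : Squarefree d) (hc : d.Coprime h) :
    rc h d = 2 ^ d.primeFactors.card := by
  induction d using Nat.recOnPosPrimePosCoprime with
  | prime_pow p n hp hn =>
    have hn1 : n = 1 := by
      have := (Nat.squarefree_pow_iff hp.ne_one hn.ne').1 hd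
      exact this.2
    subst hn1
    rw [pow_one] at *
    rw [rc_prime h p hp, hp.primeFactors]
    · simp
    · intro hdvd
      exact hp.one_lt.ne' (Nat.dvd_one.1 (hc ▸ Nat.dvd_gcd dvd_rfl hdvd))
  | zero => exact absurd hd not_squarefree_zero
  | one => simp [rc_one]
  | coprime a b ha hb hab iha ihb =>
    rw [rc_mul h a b hab, iha (hd.squarefree_of_dvd (dvd_mul_right _ _))
      (Nat.Coprime.coprime_dvd_left (dvd_mul_right _ _) hc),
      ihb (hd.squarefree_of_dvd (dvd_mul_left _ _))
      (Nat.Coprime.coprime_dvd_left (dvd_mul_left _ _) hc), hab.primeFactors_mul,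
      card_union_of_disjoint hab.disjoint_primeFactors, pow_add]

/-- Counting `n < N` with `d ∣ n (n + h)`. -/
lemma count_dvd (h d N : ℕ) (hd : 0 < d) :
    |(((range N).filter (fun n => d ∣ n * (n + h))).card : ℝ) - (rc h d : ℝ) * (N : ℝ) / d|
      ≤ rc h d := by
  have : NeZero d := ⟨hd.ne'⟩
  set S : Finset (ZMod d) := univ.filter (fun x : ZMod d => x * (x + (h : ZMod d)) = 0) with hS
  have hrc : rc h d = S.card := by
    unfold rc
    rw [Nat.card_eq_fintype_card, Fintype.card_subtype]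
  have hmaps : ∀ n ∈ (range N).filter (fun n => d ∣ n * (n + h)), (n : ZMod d) ∈ S := by
    intro n hn
    rw [mem_filter] at hn
    rw [hS, mem_filter]
    refine ⟨mem_univ _, ?_⟩
    have := (ZMod.natCast_eq_zero_iff (n * (n + h)) d).2 hn.2
    push_cast at this
    exact this
  rw [card_eq_sum_card_fiberwise hmaps]
  have hfib : ∀ x ∈ S, (((range N).filter (fun n => d ∣ n * (n + h))).filter
      (fun n : ℕ => (n : ZMod d) = x)) = (range N).filter (fun n : ℕ => n ≡ x.val [MOD d]) := by
    intro x hx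
    ext n
    rw [mem_filter, mem_filter, mem_filter]
    constructor
    · rintro ⟨⟨hn, -⟩, hx'⟩
      refine ⟨hn, ?_⟩
      rw [← ZMod.natCast_eq_natCast_iff, ZMod.natCast_zmod_val]
      exact hx'
    · rintro ⟨hn, hx'⟩
      rw [← ZMod.natCast_eq_natCast_iff, ZMod.natCast_zmod_val] at hx'
      refine ⟨⟨hn, ?_⟩, hx'⟩
      rw [← ZMod.natCast_eq_zero_iff]
      push_cast
      rw [hx']
      exact (mem_filter.1 hx).2
  have hcard : ∀ x ∈ S, |((((range N).filter (fun n => d ∣ n * (n + h))).filter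
      (fun n : ℕ => (n : ZMod d) = x)).card : ℝ) - (N : ℝ) / d| ≤ 1 := by
    intro x hx
    rw [hfib x hx, ← Nat.count_eq_card_filter_range, Nat.count_modEq_card N hd x.val]
    have h1 : ((N / d : ℕ) : ℝ) ≤ (N : ℝ) / d := Nat.cast_div_le
    have h2 : (N : ℝ) / d < ((N / d : ℕ) : ℝ) + 1 := by
      rw [div_lt_iff₀ (by exact_mod_cast hd)]
      have := Nat.lt_div_mul_add (a := N) (b := d) hd
      have h3 : N < (N / d) * d + d := this
      have h4 : (N : ℝ) < ((N / d : ℕ) : ℝ) * d + d := by exact_mod_cast h3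
      linarith
    rw [abs_le]
    split_ifs <;> push_cast <;> constructor <;> linarith
  push_cast
  rw [hrc]
  have : (∑ x ∈ S, ((((range N).filter (fun n => d ∣ n * (n + h))).filter
      (fun n : ℕ => (n : ZMod d) = x)).card : ℝ)) - (S.card : ℝ) * N / d =
      ∑ x ∈ S, (((((range N).filter (fun n => d ∣ n * (n + h))).filter
      (fun n : ℕ => (n : ZMod d) = x)).card : ℝ) - (N : ℝ) / d) := by
    rw [sum_sub_distrib, sum_const, nsmul_eq_mul]
    ring
  rw [this]
  calc _ ≤ ∑ x ∈ S, |((((range N).filter (fun n => d ∣ n * (n + h))).filter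
      (fun n : ℕ => (n : ZMod d) = x)).card : ℝ) - (N : ℝ) / d| := abs_sum_le_sum_abs _ _
    _ ≤ ∑ x ∈ S, (1 : ℝ) := sum_le_sum hcard
    _ = S.card := by simp

end Pool.Agent.H.MP_711652_nt
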