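import Mathlib

set_option autoImplicit false

namespace Pool.Agent.H.MP_711652_nt

open Finset BoundingSieve
open scoped ArithmeticFunction.Moebius

variable (s : BoundingSieve) (z : ℕ)

/-- The Selberg sum `G(z) = ∑_{l ∣ P, l ≤ z} g(l)`. -/
noncomputable def Gsum : ℝ := ∑ l ∈ s.prodPrimes.divisors with l ≤ z, s.selbergTerms l

/-- The optimal Selberg weights. -/
noncomputable def selW (d : ℕ) : ℝ :=
  if d ∣ s.prodPrimes then
    (μ d : ℝ) * (s.nu d)⁻¹ * (Gsum s z)⁻¹ *
      ∑ l ∈ s.prodPrimes.divisors with l ≤ z, (if d ∣ l then s.selbergTerms l else 0)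
  else 0

variable {s z}

lemma mem_div {l : ℕ} : l ∈ s.prodPrimes.divisors ↔ l ∣ s.prodPrimes := by
  rw [Nat.mem_divisors]
  exact ⟨fun h => h.1, fun h => ⟨h, prodPrimes_ne_zero⟩⟩

lemma Gsum_pos (hz : 1 ≤ z) : 0 < Gsum s z := by
  unfold Gsum
  apply sum_pos'
  · intro l hl
    rw [mem_filter, mem_div] at hl
    exact (selbergTerms_pos hl.1).le
  · refine ⟨1, ?_, selbergTerms_pos (one_dvd _)⟩
    rw [mem_filter, mem_div]
    exact ⟨one_dvd _, hz⟩

lemma selW_one (hz : 1 ≤ z) : selW s z 1 = 1 := by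
  unfold selW
  rw [if_pos (one_dvd _)]
  simp only [ArithmeticFunction.moebius_apply_one, Int.cast_one, one_dvd, if_true,
    s.nu_mult.map_one, inv_one, one_mul]
  exact inv_mul_cancel₀ (Gsum_pos hz).ne'

lemma sum_moebius (l m : ℕ) (hm : Squarefree m) (P : ℕ) (hP : P ≠ 0) (hmP : m ∣ P) :
    (∑ d ∈ P.divisors, if l ∣ d ∧ d ∣ m then (μ d : ℤ) else 0) = if l = m then μ l else 0 := by
  have hm0 : m ≠ 0 := hm.ne_zero
  by_cases hlm : l ∣ m
  · obtain ⟨k, rfl⟩ := hlm
    have hl0 : l ≠ 0 := left_ne_zero_of_mul hm0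
    have hk0 : k ≠ 0 := right_ne_zero_of_mul hm0
    have hcop : l.Coprime k := Nat.coprime_of_squarefree_mul hm
    rw [← sum_filter]
    have himg : (P.divisors.filter fun d => l ∣ d ∧ d ∣ l * k) = k.divisors.image (fun e => l * e) := by
      ext d
      simp only [mem_filter, Nat.mem_divisors, mem_image]
      constructor
      · rintro ⟨-, ⟨e, rfl⟩, h2⟩
        exact ⟨e, ⟨Nat.dvd_of_mul_dvd_mul_left (Nat.pos_of_ne_zero hl0) h2, hk0⟩, rfl⟩
      · rintro ⟨e, ⟨he, -⟩, rfl⟩
        exact ⟨⟨(mul_dvd_mul_left l he).trans hmP, hP⟩, dvd_mul_right _ _, mul_dvd_mul_left l he⟩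
    rw [himg, sum_image]
    · have h1 : ∀ e ∈ k.divisors, (μ (l * e) : ℤ) = μ l * μ e := by
        intro e he
        apply ArithmeticFunction.isMultiplicative_moebius.map_mul_of_coprime
        exact Nat.Coprime.coprime_dvd_right (Nat.dvd_of_mem_divisors he) hcop
      rw [sum_congr rfl h1, ← mul_sum]
      have h2 : (∑ e ∈ k.divisors, (μ e : ℤ)) = if k = 1 then 1 else 0 := by
        have := ArithmeticFunction.coe_mul_zeta_apply (f := ArithmeticFunction.moebius) (x := k)
        rw [← this, ArithmeticFunction.moebius_mul_coe_zeta, ArithmeticFunction.one_apply]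
      rw [h2]
      by_cases hk : k = 1
      · subst hk; simp
      · rw [if_neg hk, if_neg, mul_zero]
        intro h
        apply hk
        have : l * 1 = l * k := by rw [mul_one]; exact h
        exact (Nat.eq_of_mul_eq_mul_left (Nat.pos_of_ne_zero hl0) this).symm
    · intro a _ b _ hab
      exact Nat.eq_of_mul_eq_mul_left (Nat.pos_of_ne_zero hl0) hab
  · have hne : ¬ (l = m) := by
      rintro rfl
      exact hlm dvd_rfl
    rw [if_neg hne]
    apply sum_eq_zero
    intro d _
    rw [if_neg]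
    rintro ⟨h1, h2⟩
    exact hlm (h1.trans h2)

lemma selW_diag {l : ℕ} (hl : l ∣ s.prodPrimes) :
    (∑ d ∈ s.prodPrimes.divisors, if l ∣ d then s.nu d * selW s z d else 0) =
      if l ≤ z then (μ l : ℝ) * s.selbergTerms l * (Gsum s z)⁻¹ else 0 := by
  have h1 : ∀ d ∈ s.prodPrimes.divisors, (if l ∣ d then s.nu d * selW s z d else 0) =
      ∑ m ∈ s.prodPrimes.divisors with m ≤ z,
        (Gsum s z)⁻¹ * s.selbergTerms m * (if l ∣ d ∧ d ∣ m then (μ d : ℝ) else 0) := by
    intro d hd
    rw [mem_div] at hd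
    by_cases hld : l ∣ d
    · rw [if_pos hld]
      unfold selW
      rw [if_pos hd]
      have hnu : s.nu d ≠ 0 := nu_ne_zero hd
      rw [mul_sum, mul_sum]
      apply sum_congr rfl
      intro m _
      by_cases hdm : d ∣ m
      · rw [if_pos hdm, if_pos ⟨hld, hdm⟩]
        field_simp
      · rw [if_neg hdm, if_neg (fun h => hdm h.2)]
        ring
    · rw [if_neg hld]
      symm
      apply sum_eq_zero
      intro m _
      rw [if_neg (fun h => hld h.1), mul_zero]
  rw [sum_congr rfl h1, sum_comm]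
  have h2 : ∀ m ∈ s.prodPrimes.divisors.filter (fun m => m ≤ z),
      (∑ d ∈ s.prodPrimes.divisors,
        (Gsum s z)⁻¹ * s.selbergTerms m * (if l ∣ d ∧ d ∣ m then (μ d : ℝ) else 0)) =
      if l = m then (Gsum s z)⁻¹ * s.selbergTerms m * (μ l : ℝ) else 0 := by
    intro m hm
    rw [mem_filter, mem_div] at hm
    rw [← mul_sum]
    have := sum_moebius l m (squarefree_of_dvd_prodPrimes hm.1) s.prodPrimes prodPrimes_ne_zero hm.1
    have h3 : (∑ d ∈ s.prodPrimes.divisors, (if l ∣ d ∧ d ∣ m then (μ d : ℝ) else 0)) =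
        ((∑ d ∈ s.prodPrimes.divisors, if l ∣ d ∧ d ∣ m then (μ d : ℤ) else 0 : ℤ) : ℝ) := by
      push_cast
      rfl
    rw [h3, this]
    split_ifs <;> simp
  rw [sum_congr rfl h2, sum_ite_eq]
  by_cases hlz : l ≤ z
  · rw [if_pos, if_pos hlz]
    · ring
    · rw [mem_filter, mem_div]; exact ⟨hl, hlz⟩
  · rw [if_neg, if_neg hlz]
    rw [mem_filter]
    exact fun h => hlz h.2

lemma mainSum_selW (hz : 1 ≤ z) :
    s.mainSum (lambdaSquared (selW s z)) = (Gsum s z)⁻¹ := by
  rw [mainSum_lambdaSquared_eq_sum_mul_sum_sq]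
  have h1 : ∀ l ∈ s.prodPrimes.divisors, (s.selbergTerms l)⁻¹ *
      (∑ d ∈ s.prodPrimes.divisors, if l ∣ d then s.nu d * selW s z d else 0) ^ 2 =
      if l ≤ z then s.selbergTerms l * ((Gsum s z)⁻¹) ^ 2 else 0 := by
    intro l hl
    rw [mem_div] at hl
    rw [selW_diag hl]
    split_ifs with hlz
    · have hg : s.selbergTerms l ≠ 0 := (selbergTerms_pos hl).ne'
      have hmu : ((μ l : ℤ) : ℝ) ^ 2 = 1 := by
        have := ArithmeticFunction.moebius_sq_eq_one_of_squarefree (squarefree_of_dvd_prodPrimes hl)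
        exact_mod_cast this
      rw [mul_pow, mul_pow, hmu]
      field_simp
    · simp
  rw [sum_congr rfl h1, ← sum_filter, ← sum_mul]
  change Gsum s z * ((Gsum s z)⁻¹) ^ 2 = _
  have := (Gsum_pos (s := s) hz).ne'
  field_simp

lemma abs_selW_le (hz : 1 ≤ z) (hnu : ∀ d, d ∣ s.prodPrimes → (s.nu d)⁻¹ ≤ d) (d : ℕ) :
    |selW s z d| ≤ if d ∣ s.prodPrimes ∧ d ≤ z then (d : ℝ) else 0 := by
  unfold selW
  by_cases hd : d ∣ s.prodPrimes
  · rw [if_pos hd]
    by_cases hdz : d ≤ z
    · rw [if_pos ⟨hd, hdz⟩]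
      have hG := Gsum_pos (s := s) hz
      have hsum0 : 0 ≤ ∑ l ∈ s.prodPrimes.divisors with l ≤ z,
          (if d ∣ l then s.selbergTerms l else 0) := by
        apply sum_nonneg
        intro l hl
        rw [mem_filter, mem_div] at hl
        split_ifs
        · exact (selbergTerms_pos hl.1).le
        · exact le_rfl
      have hsum1 : (∑ l ∈ s.prodPrimes.divisors with l ≤ z,
          (if d ∣ l then s.selbergTerms l else 0)) ≤ Gsum s z := by
        unfold Gsum
        apply sum_le_sum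
        intro l hl
        rw [mem_filter, mem_div] at hl
        split_ifs
        · exact le_rfl
        · exact (selbergTerms_pos hl.1).le
      have hmu : |((μ d : ℤ) : ℝ)| ≤ 1 := by
        have := ArithmeticFunction.abs_moebius_le_one (n := d)
        exact_mod_cast this
      have hnupos : 0 < (s.nu d)⁻¹ := inv_pos.2 (nu_pos_of_dvd_prodPrimes hd)
      rw [abs_mul, abs_mul, abs_mul, abs_of_pos hnupos, abs_of_pos (inv_pos.2 hG),
        abs_of_nonneg hsum0]
      have h3 : (Gsum s z)⁻¹ * (∑ l ∈ s.prodPrimes.divisors with l ≤ z,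
          (if d ∣ l then s.selbergTerms l else 0)) ≤ 1 := by
        rw [inv_mul_le_iff₀ hG, mul_one]
        exact hsum1
      have h30 : 0 ≤ (Gsum s z)⁻¹ * (∑ l ∈ s.prodPrimes.divisors with l ≤ z,
          (if d ∣ l then s.selbergTerms l else 0)) := by positivity
      calc _ = |((μ d : ℤ) : ℝ)| * (s.nu d)⁻¹ * ((Gsum s z)⁻¹ *
          (∑ l ∈ s.prodPrimes.divisors with l ≤ z,
          (if d ∣ l then s.selbergTerms l else 0))) := by ring
        _ ≤ 1 * (d : ℝ) * 1 := by
          apply mul_le_mul _ h3 h30 (by positivity)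
          exact mul_le_mul hmu (hnu d hd) hnupos.le (by norm_num)
        _ = d := by ring
    · rw [if_neg (fun h => hdz h.2)]
      have : (∑ l ∈ s.prodPrimes.divisors with l ≤ z,
          (if d ∣ l then s.selbergTerms l else 0)) = 0 := by
        apply sum_eq_zero
        intro l hl
        rw [mem_filter, mem_div] at hl
        rw [if_neg]
        intro hdl
        have hl0 : 0 < l := Nat.pos_of_ne_zero (ne_zero_of_dvd_ne_zero prodPrimes_ne_zero hl.1)
        exact hdz ((Nat.le_of_dvd hl0 hdl).trans hl.2)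
      rw [this]
      simp
  · rw [if_neg hd, if_neg (fun h => hd h.1)]
    simp

lemma errSum_selW (hz : 1 ≤ z) (hnu : ∀ d, d ∣ s.prodPrimes → (s.nu d)⁻¹ ≤ d)
    (hrem : ∀ d, d ∣ s.prodPrimes → |s.rem d| ≤ d) :
    s.errSum (lambdaSquared (selW s z)) ≤ (z : ℝ) ^ 6 := by
  set W : ℕ → ℝ := fun d => |selW s z d| with hW
  have hW0 : ∀ d, 0 ≤ W d := fun d => abs_nonneg _
  unfold errSum
  have h1 : ∀ d ∈ s.prodPrimes.divisors, |lambdaSquared (selW s z) d| * |s.rem d| ≤
      ∑ d1 ∈ s.prodPrimes.divisors, ∑ d2 ∈ s.prodPrimes.divisors,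
        if d = Nat.lcm d1 d2 then (W d1 * d1) * (W d2 * d2) else 0 := by
    intro d hd
    rw [mem_div] at hd
    have hdpos : 0 < d := Nat.pos_of_ne_zero (ne_zero_of_dvd_ne_zero prodPrimes_ne_zero hd)
    have h2 : |lambdaSquared (selW s z) d| ≤
        ∑ d1 ∈ d.divisors, ∑ d2 ∈ d.divisors, if d = Nat.lcm d1 d2 then W d1 * W d2 else 0 := by
      unfold lambdaSquared
      refine (abs_sum_le_sum_abs _ _).trans (sum_le_sum fun d1 _ => ?_)
      refine (abs_sum_le_sum_abs _ _).trans (sum_le_sum fun d2 _ => ?_)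
      split_ifs
      · rw [abs_mul]
      · simp
    have h3 : |lambdaSquared (selW s z) d| * |s.rem d| ≤
        (∑ d1 ∈ d.divisors, ∑ d2 ∈ d.divisors, if d = Nat.lcm d1 d2 then W d1 * W d2 else 0) * d := by
      apply mul_le_mul h2 (hrem d hd) (abs_nonneg _)
      apply sum_nonneg
      intro d1 _
      apply sum_nonneg
      intro d2 _
      split_ifs
      · exact mul_nonneg (hW0 _) (hW0 _)
      · exact le_rfl
    refine h3.trans ?_
    rw [sum_mul]
    have hsub : d.divisors ⊆ s.prodPrimes.divisors := Nat.divisors_subset_of_dvd prodPrimes_ne_zero hd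
    have hterm0 : ∀ d1 d2 : ℕ, 0 ≤ (if d = Nat.lcm d1 d2 then (W d1 * d1) * (W d2 * d2) else 0) := by
      intro d1 d2
      split_ifs
      · have := hW0 d1; have := hW0 d2; positivity
      · exact le_rfl
    calc _ ≤ ∑ d1 ∈ d.divisors, ∑ d2 ∈ d.divisors,
        (if d = Nat.lcm d1 d2 then (W d1 * d1) * (W d2 * d2) else 0) := by
          apply sum_le_sum
          intro d1 hd1
          rw [sum_mul]
          apply sum_le_sum
          intro d2 hd2
          split_ifs with h
          · have hle : (d : ℝ) ≤ d1 * d2 := by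
              have : d ≤ d1 * d2 := by
                rw [h]
                apply Nat.le_of_dvd
                · exact Nat.mul_pos (Nat.pos_of_mem_divisors hd1) (Nat.pos_of_mem_divisors hd2)
                · exact Nat.lcm_dvd_mul d1 d2
              exact_mod_cast this
            have h0 : 0 ≤ W d1 * W d2 := mul_nonneg (hW0 _) (hW0 _)
            calc W d1 * W d2 * d ≤ W d1 * W d2 * (d1 * d2) := by gcongr
              _ = (W d1 * d1) * (W d2 * d2) := by ring
          · simp
      _ ≤ ∑ d1 ∈ d.divisors, ∑ d2 ∈ s.prodPrimes.divisors,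
        (if d = Nat.lcm d1 d2 then (W d1 * d1) * (W d2 * d2) else 0) := by
          apply sum_le_sum
          intro d1 _
          exact sum_le_sum_of_subset_of_nonneg hsub (fun d2 _ _ => hterm0 d1 d2)
      _ ≤ _ := by
          apply sum_le_sum_of_subset_of_nonneg hsub
          intro d1 _ _
          exact sum_nonneg (fun d2 _ => hterm0 d1 d2)
  refine (sum_le_sum h1).trans ?_
  rw [sum_comm]
  have h4 : ∀ d1 ∈ s.prodPrimes.divisors, (∑ d ∈ s.prodPrimes.divisors,
      ∑ d2 ∈ s.prodPrimes.divisors, if d = Nat.lcm d1 d2 then (W d1 * d1) * (W d2 * d2) else 0) ≤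
      ∑ d2 ∈ s.prodPrimes.divisors, (W d1 * d1) * (W d2 * d2) := by
    intro d1 _
    rw [sum_comm]
    apply sum_le_sum
    intro d2 _
    rw [sum_ite_eq']
    split_ifs
    · exact le_rfl
    · have := hW0 d1; have := hW0 d2; positivity
  refine (sum_le_sum h4).trans ?_
  have h5 : (∑ d1 ∈ s.prodPrimes.divisors, ∑ d2 ∈ s.prodPrimes.divisors, (W d1 * d1) * (W d2 * d2))
      = (∑ d ∈ s.prodPrimes.divisors, W d * d) ^ 2 := by
    rw [sq, sum_mul_sum]
  rw [h5]
  have h6 : (∑ d ∈ s.prodPrimes.divisors, W d * d) ≤ (z : ℝ) ^ 3 := by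
    calc (∑ d ∈ s.prodPrimes.divisors, W d * d)
        ≤ ∑ d ∈ s.prodPrimes.divisors, (if d ≤ z then (z : ℝ) ^ 2 else 0) := by
          apply sum_le_sum
          intro d hd
          rw [mem_div] at hd
          have := abs_selW_le hz hnu d
          by_cases hdz : d ≤ z
          · rw [if_pos ⟨hd, hdz⟩] at this
            rw [if_pos hdz]
            have hdz' : (d : ℝ) ≤ z := by exact_mod_cast hdz
            calc W d * d ≤ d * d := by gcongr
              _ ≤ z * z := by gcongr
              _ = (z : ℝ) ^ 2 := by ring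
          · rw [if_neg (fun h => hdz h.2)] at this
            rw [if_neg hdz]
            have h0 : W d = 0 := le_antisymm this (hW0 d)
            rw [h0, zero_mul]
      _ = ((s.prodPrimes.divisors.filter (fun d => d ≤ z)).card : ℝ) * (z : ℝ) ^ 2 := by
          rw [← sum_filter, sum_const, nsmul_eq_mul]
      _ ≤ (z : ℝ) * (z : ℝ) ^ 2 := by
          gcongr
          have : s.prodPrimes.divisors.filter (fun d => d ≤ z) ⊆ Icc 1 z := by
            intro d hd
            rw [mem_filter] at hd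
            rw [mem_Icc]
            exact ⟨Nat.pos_of_mem_divisors hd.1, hd.2⟩
          calc (s.prodPrimes.divisors.filter (fun d => d ≤ z)).card ≤ (Icc 1 z).card := card_le_card this
            _ = z := by simp
      _ = (z : ℝ) ^ 3 := by ring
  have h7 : 0 ≤ ∑ d ∈ s.prodPrimes.divisors, W d * d :=
    sum_nonneg (fun d _ => mul_nonneg (hW0 d) (Nat.cast_nonneg d))
  calc (∑ d ∈ s.prodPrimes.divisors, W d * d) ^ 2 ≤ ((z : ℝ) ^ 3) ^ 2 := by gcongr
    _ = (z : ℝ) ^ 6 := by ring

/-- Selberg's upper bound (with a crude error term). -/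
theorem selberg_bound (hz : 1 ≤ z) (hnu : ∀ d, d ∣ s.prodPrimes → (s.nu d)⁻¹ ≤ d)
    (hrem : ∀ d, d ∣ s.prodPrimes → |s.rem d| ≤ d) :
    s.siftedSum ≤ s.totalMass * (Gsum s z)⁻¹ + (z : ℝ) ^ 6 := by
  have h1 := siftedSum_le_mainSum_errSum_of_upperMoebius (s := s) (lambdaSquared (selW s z))
    (upperMoebius_lambdaSquared _ (selW_one hz))
  rw [mainSum_selW hz] at h1
  have h2 := errSum_selW (s := s) hz hnu hrem
  linarith

end Pool.Agent.H.MP_711652_nt
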