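import Mathlib
import Pool.Agent.H.MP_711652_nt.Count
import Pool.Agent.H.MP_711652_nt.Selberg
import Pool.Agent.H.MP_711652_nt.GLower

set_option autoImplicit false

namespace Pool.Agent.H.MP_711652_nt

open Finset BoundingSieve

lemma inj_quad (h : ℕ) : Function.Injective (fun n : ℕ => n * (n + h)) := by
  intro a b hab
  simp only at hab
  rcases lt_trichotomy a b with hlt | heq | hgt
  · exfalso
    nlinarith [Nat.mul_le_mul_right h hlt.le]
  · exact heq
  · exfalso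
    nlinarith [Nat.mul_le_mul_right h hgt.le]

/-- The sieve problem for pairs `n, n + h`. -/
noncomputable def pairSieve (N h z : ℕ) (hh : 2 ∣ h) : BoundingSieve where
  support := (range N).image (fun n => n * (n + h))
  prodPrimes := Pz h z
  prodPrimes_squarefree := Pz_squarefree h z
  weights := fun _ => 1
  weights_nonneg := fun _ => zero_le_one
  totalMass := N
  nu := nu2
  nu_mult := nu2_mult
  nu_pos_of_prime := by
    intro p hp _
    rw [nu2_prime hp]
    have : (0 : ℝ) < p := by exact_mod_cast hp.pos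
    positivity
  nu_lt_one_of_prime := by
    intro p hp hpP
    have h1 := (prime_dvd_Pz hp).1 hpP
    rw [nu2_prime hp, ← fm_prime h p hp h1.2]
    exact fm_prime_lt h p hh hp

lemma nu2_squarefree {d : ℕ} (hd : Squarefree d) :
    nu2 d = (2 : ℝ) ^ d.primeFactors.card / d := by
  rw [nu2_apply hd.ne_zero, prod_div_distrib, prod_const]
  congr 1
  rw [← Nat.cast_prod, Nat.prod_primeFactors_of_squarefree hd]

lemma two_pow_card_le {d : ℕ} (hd : Squarefree d) : 2 ^ d.primeFactors.card ≤ d := by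
  calc 2 ^ d.primeFactors.card = ∏ p ∈ d.primeFactors, 2 := by rw [prod_const]
    _ ≤ ∏ p ∈ d.primeFactors, p := prod_le_prod' (fun p hp => (Nat.prime_of_mem_primeFactors hp).two_le)
    _ = d := Nat.prod_primeFactors_of_squarefree hd

lemma dvd_Pz_coprime {h z d : ℕ} (hd : d ∣ Pz h z) (hh : h ≠ 0) : d.Coprime h := by
  apply Nat.coprime_of_dvd
  intro p hp hpd hph
  exact ((prime_dvd_Pz hp).1 (hpd.trans hd)).2 hph

lemma pairSieve_rem (N h z : ℕ) (hh : 2 ∣ h) (h0 : h ≠ 0) (d : ℕ)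
    (hd : d ∣ (pairSieve N h z hh).prodPrimes) :
    |(pairSieve N h z hh).rem d| ≤ d := by
  change d ∣ Pz h z at hd
  have hsq : Squarefree d := (Pz_squarefree h z).squarefree_of_dvd hd
  have hd0 : 0 < d := Nat.pos_of_ne_zero hsq.ne_zero
  have hcount := count_dvd h d N hd0
  rw [rc_squarefree h d hsq (dvd_Pz_coprime hd h0)] at hcount
  have h1 : (pairSieve N h z hh).multSum d =
      (((range N).filter (fun n => d ∣ n * (n + h))).card : ℝ) := by
    change (∑ n ∈ (range N).image (fun n => n * (n + h)), if d ∣ n then (1 : ℝ) else 0) = _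
    rw [sum_image (fun a _ b _ hab => inj_quad h hab), ← sum_filter, sum_const, nsmul_eq_mul, mul_one]
  have h2 : (pairSieve N h z hh).rem d =
      (((range N).filter (fun n => d ∣ n * (n + h))).card : ℝ) -
        ((2 ^ d.primeFactors.card : ℕ) : ℝ) * N / d := by
    change (pairSieve N h z hh).multSum d - nu2 d * (N : ℝ) = _
    rw [h1, nu2_squarefree hsq]
    push_cast
    ring
  rw [h2]
  refine hcount.trans ?_
  exact_mod_cast two_pow_card_le hsq

lemma pairSieve_nu (N h z : ℕ) (hh : 2 ∣ h) (d : ℕ)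
    (hd : d ∣ (pairSieve N h z hh).prodPrimes) :
    ((pairSieve N h z hh).nu d)⁻¹ ≤ d := by
  change d ∣ Pz h z at hd
  change (nu2 d)⁻¹ ≤ d
  have hsq : Squarefree d := (Pz_squarefree h z).squarefree_of_dvd hd
  rw [nu2_squarefree hsq, inv_div]
  apply div_le_self (Nat.cast_nonneg d)
  exact one_le_pow₀ (by norm_num)

/-- `D_h⁻¹ = ∏_{p ∣ h} (1 - 1/p)`. -/
noncomputable def Dh (h : ℕ) : ℝ := ∏ p ∈ h.primeFactors, (1 - 1 / (p : ℝ))

lemma Dh_pos (h : ℕ) : 0 < Dh h := by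
  unfold Dh
  apply prod_pos
  intro p hp
  have hp' := Nat.prime_of_mem_primeFactors hp
  have hp0 : (0 : ℝ) < p := by exact_mod_cast hp'.pos
  rw [sub_pos, div_lt_one hp0]
  exact_mod_cast hp'.one_lt

lemma Gsum_ge (N h y : ℕ) (hh : 2 ∣ h) (h0 : h ≠ 0) (hy : 1 ≤ y) :
    (Dh h * Real.log y) ^ 2 ≤ Gsum (pairSieve N h (y ^ 2) hh) (y ^ 2) := by
  have hh1 : h ≠ 1 := by rintro rfl; omega
  have h1 := coprime_sum_ge h y h0 hy
  have h2 := sq_sum_le h y
  have h3 := sum_fm_le h (y ^ 2) hh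
  have h4 : Gsum (pairSieve N h (y ^ 2) hh) (y ^ 2) = ∑ l ∈ (Pz h (y ^ 2)).divisors with l ≤ y ^ 2,
      fm h l * ∏ p ∈ l.primeFactors, (1 - fm h p)⁻¹ := by
    unfold Gsum
    apply sum_congr rfl
    intro l hl
    rw [mem_filter, Nat.mem_divisors] at hl
    have hlP : l ∣ Pz h (y ^ 2) := hl.1.1
    rw [selbergTerms_apply]
    change nu2 l * ∏ p ∈ l.primeFactors, (1 - nu2 p)⁻¹ = _
    have hsq : Squarefree l := (Pz_squarefree h _).squarefree_of_dvd hlP
    rw [nu2_eq_fm h l hh1 hsq (fun p hp hpl => ((prime_dvd_Pz hp).1 (hpl.trans hlP)).2)]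
    congr 1
    apply prod_congr rfl
    intro p hp
    have hpp := Nat.prime_of_mem_primeFactors hp
    have hpl := Nat.dvd_of_mem_primeFactors hp
    rw [nu2_prime hpp, fm_prime h p hpp ((prime_dvd_Pz hpp).1 (hpl.trans hlP)).2]
  rw [h4]
  have hlog : 0 ≤ Real.log y := Real.log_nonneg (by exact_mod_cast hy)
  have h5 : 0 ≤ Dh h * Real.log y := mul_nonneg (Dh_pos h).le hlog
  calc (Dh h * Real.log y) ^ 2 ≤
      (∑ m ∈ (Icc 1 y).filter (fun m => m.Coprime h), (1 : ℝ) / m) ^ 2 := by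
        apply pow_le_pow_left₀ h5
        exact h1
    _ ≤ _ := h2
    _ ≤ _ := h3

/-- Number of `n < N` with `n` and `n + h` prime. -/
noncomputable def pairs (N h : ℕ) : ℕ :=
  ((range N).filter (fun n => n.Prime ∧ (n + h).Prime)).card

lemma pairs_even (N h y : ℕ) (hh : 2 ∣ h) (h0 : h ≠ 0) (hy : 2 ≤ y) :
    (pairs N h : ℝ) ≤ N * ((Dh h)⁻¹ ^ 2) / (Real.log y) ^ 2 + 3 * (y : ℝ) ^ 12 := by
  set z := y ^ 2 with hz
  have hz1 : 1 ≤ z := Nat.one_le_pow _ _ (by omega)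
  have hs := selberg_bound (s := pairSieve N h z hh) (z := z) hz1
    (pairSieve_nu N h z hh) (pairSieve_rem N h z hh h0)
  have hG := Gsum_ge N h y hh h0 (by omega)
  have hlog : 0 < Real.log y := Real.log_pos (by exact_mod_cast hy)
  have hD := Dh_pos h
  have h1 : ((pairSieve N h z hh).totalMass) * (Gsum (pairSieve N h z hh) z)⁻¹ ≤
      N * ((Dh h)⁻¹ ^ 2) / (Real.log y) ^ 2 := by
    change (N : ℝ) * _ ≤ _
    have h2 : (Gsum (pairSieve N h z hh) z)⁻¹ ≤ ((Dh h * Real.log y) ^ 2)⁻¹ := by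
      apply inv_anti₀ (by positivity) hG
    calc (N : ℝ) * (Gsum (pairSieve N h z hh) z)⁻¹ ≤ N * ((Dh h * Real.log y) ^ 2)⁻¹ := by gcongr
      _ = _ := by
        rw [mul_pow, mul_inv, inv_pow]
        ring
  have h2 : (pairSieve N h z hh).siftedSum =
      (((range N).filter (fun n => Nat.Coprime (Pz h z) (n * (n + h)))).card : ℝ) := by
    unfold siftedSum
    change (∑ n ∈ (range N).image (fun n => n * (n + h)),
      if Nat.Coprime (Pz h z) n then (1 : ℝ) else 0) = _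
    rw [sum_image (fun a _ b _ hab => inj_quad h hab), ← sum_filter, sum_const, nsmul_eq_mul, mul_one]
  have h3 : (range N).filter (fun n => n.Prime ∧ (n + h).Prime) ⊆
      range (z + 1) ∪ (range N).filter (fun n => Nat.Coprime (Pz h z) (n * (n + h))) := by
    intro n hn
    rw [mem_filter] at hn
    rw [mem_union, mem_range, mem_filter]
    by_cases hnz : n ≤ z
    · left; omega
    · right
      refine ⟨hn.1, ?_⟩
      apply Nat.coprime_of_dvd
      intro q hq hqP hqn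
      have hqz := ((prime_dvd_Pz hq).1 hqP).1
      rcases (Nat.Prime.dvd_mul hq).1 hqn with h4 | h4
      · have := (Nat.prime_dvd_prime_iff_eq hq hn.2.1).1 h4
        omega
      · have := (Nat.prime_dvd_prime_iff_eq hq hn.2.2).1 h4
        omega
  have h4 : (pairs N h : ℝ) ≤ (z + 1 : ℝ) + (pairSieve N h z hh).siftedSum := by
    rw [h2]
    unfold pairs
    have := (card_le_card h3).trans (card_union_le _ _)
    rw [card_range] at this
    exact_mod_cast this
  have hy1 : (1 : ℝ) ≤ y := by exact_mod_cast (by omega : 1 ≤ y)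
  have h5 : ((z : ℕ) : ℝ) ^ 6 = (y : ℝ) ^ 12 := by
    rw [hz]; push_cast; rw [← pow_mul]
  have h6 : ((z : ℕ) : ℝ) ≤ (y : ℝ) ^ 12 := by
    rw [hz]; push_cast
    exact pow_le_pow_right₀ hy1 (by norm_num)
  have h7 : (1 : ℝ) ≤ (y : ℝ) ^ 12 := one_le_pow₀ hy1
  rw [h5] at hs
  linarith

lemma pairs_odd (N h : ℕ) (hh : ¬ 2 ∣ h) : pairs N h ≤ 1 := by
  unfold pairs
  have : (range N).filter (fun n => n.Prime ∧ (n + h).Prime) ⊆ {2} := by
    intro n hn
    rw [mem_filter] at hn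
    rw [mem_singleton]
    rcases hn.2.1.eq_two_or_odd' with h2 | h2
    · exact h2
    · exfalso
      have hodd : Odd h := by
        rw [← Nat.not_even_iff_odd, even_iff_two_dvd]; exact hh
      have heven : Even (n + h) := h2.add_odd hodd
      have h3 := (Nat.Prime.even_iff hn.2.2).1 heven
      have h4 := hn.2.1.two_le
      have h5 : 0 < h := hodd.pos
      omega
  calc _ ≤ ({2} : Finset ℕ).card := card_le_card this
    _ = 1 := by simp

lemma Dh_inv_sq_le (h : ℕ) : (Dh h)⁻¹ ^ 2 ≤ ∏ p ∈ h.primeFactors, (1 + 6 / (p : ℝ)) := by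
  unfold Dh
  rw [← prod_inv_distrib, ← prod_pow]
  apply prod_le_prod
  · intro p _
    positivity
  · intro p hp
    have hp' := Nat.prime_of_mem_primeFactors hp
    have hp2 : (2 : ℝ) ≤ p := by exact_mod_cast hp'.two_le
    have hp0 : (0 : ℝ) < p := by linarith
    have h1 : (1 - 1 / (p : ℝ))⁻¹ = p / (p - 1) := by
      field_simp
    rw [h1, div_pow, div_le_iff₀ (by nlinarith)]
    have h2 : (1 + 6 / (p : ℝ)) * (p - 1) ^ 2 = (p + 6) * (p - 1) ^ 2 / p := by
      field_simp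
    rw [h2, le_div_iff₀ hp0]
    nlinarith [mul_nonneg (sub_nonneg.2 hp2) (sub_nonneg.2 hp2), mul_pos hp0 hp0]

lemma sum_prod_le (b : ℕ) :
    ∑ h ∈ Icc 1 b, ∏ p ∈ h.primeFactors, (1 + 6 / (p : ℝ)) ≤ b * Real.exp 6 := by
  set Pr := (Icc 1 b).filter Nat.Prime with hPr
  have h1 : ∀ h ∈ Icc 1 b, ∏ p ∈ h.primeFactors, (1 + 6 / (p : ℝ)) =
      ∑ T ∈ Pr.powerset, if T ⊆ h.primeFactors then ∏ p ∈ T, (6 / (p : ℝ)) else 0 := by
    intro h hh
    rw [mem_Icc] at hh
    rw [prod_one_add, ← sum_filter]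
    apply sum_congr _ (fun _ _ => rfl)
    ext T
    rw [mem_powerset, mem_filter, mem_powerset]
    constructor
    · intro hT
      refine ⟨fun p hp => ?_, hT⟩
      have hp' := hT hp
      rw [hPr, mem_filter, mem_Icc]
      have h2 := Nat.prime_of_mem_primeFactors hp'
      have h3 := Nat.le_of_dvd (by omega) (Nat.dvd_of_mem_primeFactors hp')
      exact ⟨⟨h2.pos, by omega⟩, h2⟩
    · exact fun hT => hT.2
  rw [sum_congr rfl h1, sum_comm]
  have h2 : ∀ T ∈ Pr.powerset, (∑ h ∈ Icc 1 b,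
      if T ⊆ h.primeFactors then ∏ p ∈ T, (6 / (p : ℝ)) else 0) ≤ b * ∏ p ∈ T, (6 / (p : ℝ) ^ 2) := by
    intro T hT
    rw [mem_powerset] at hT
    have hTp : ∀ p ∈ T, p.Prime := fun p hp => (mem_filter.1 (hT hp)).2
    rw [← sum_filter, sum_const, nsmul_eq_mul]
    have hpos : 0 < ∏ p ∈ T, p := prod_pos (fun p hp => (hTp p hp).pos)
    have hcard : (((Icc 1 b).filter (fun h => T ⊆ h.primeFactors)).card : ℝ) ≤ b / ((∏ p ∈ T, p : ℕ) : ℝ) := by
      have hsub : (Icc 1 b).filter (fun h => T ⊆ h.primeFactors) ⊆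
          (Ioc 0 b).filter (fun h => (∏ p ∈ T, p) ∣ h) := by
        intro h hh
        rw [mem_filter, mem_Icc] at hh
        rw [mem_filter, mem_Ioc]
        refine ⟨by omega, ?_⟩
        exact (prod_dvd_prod_of_subset _ _ _ hh.2).trans (Nat.prod_primeFactors_dvd h)
      have h3 := card_le_card hsub
      rw [Nat.Ioc_filter_dvd_card_eq_div] at h3
      calc (((Icc 1 b).filter (fun h => T ⊆ h.primeFactors)).card : ℝ) ≤ ((b / ∏ p ∈ T, p : ℕ) : ℝ) := by
            exact_mod_cast h3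
        _ ≤ _ := Nat.cast_div_le
    have hprod0 : 0 ≤ ∏ p ∈ T, (6 / (p : ℝ)) := prod_nonneg (fun p _ => by positivity)
    calc _ ≤ (b / ((∏ p ∈ T, p : ℕ) : ℝ)) * ∏ p ∈ T, (6 / (p : ℝ)) :=
          mul_le_mul_of_nonneg_right hcard hprod0
      _ = b * ∏ p ∈ T, (6 / (p : ℝ) ^ 2) := by
        rw [Nat.cast_prod, div_mul_eq_mul_div, mul_div_assoc, ← prod_div_distrib]
        congr 1
        apply prod_congr rfl
        intro p _
        rw [div_div, sq]
  refine (sum_le_sum h2).trans ?_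
  rw [← mul_sum, ← prod_one_add]
  apply mul_le_mul_of_nonneg_left _ (Nat.cast_nonneg b)
  have h3 : ∏ p ∈ Pr, (1 + 6 / (p : ℝ) ^ 2) ≤ Real.exp (∑ p ∈ Pr, 6 / (p : ℝ) ^ 2) := by
    rw [Real.exp_sum]
    apply prod_le_prod
    · intro p _; positivity
    · intro p _
      rw [add_comm]
      exact Real.add_one_le_exp _
  refine h3.trans ?_
  rw [Real.exp_le_exp]
  have h4 : ∑ p ∈ Pr, 6 / (p : ℝ) ^ 2 = 6 * ∑ p ∈ Pr, ((p : ℝ) ^ 2)⁻¹ := by
    rw [mul_sum]
    apply sum_congr rfl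
    intro p _
    rw [div_eq_mul_inv]
  rw [h4]
  have h5 : ∑ p ∈ Pr, ((p : ℝ) ^ 2)⁻¹ ≤ ∑ p ∈ Ioo 1 (b + 1), ((p : ℝ) ^ 2)⁻¹ := by
    apply sum_le_sum_of_subset_of_nonneg
    · intro p hp
      rw [hPr, mem_filter, mem_Icc] at hp
      rw [mem_Ioo]
      have := hp.2.one_lt
      omega
    · intro p _ _; positivity
  have h6 := sum_Ioo_inv_sq_le (α := ℝ) 1 (b + 1)
  have h7 : (2 : ℝ) / (((1 : ℕ) : ℝ) + 1) = 1 := by norm_num
  linarith

/-- **Pair sieve, on average over the shift.** -/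
theorem sum_pairs_le (N b y : ℕ) (hy : 2 ≤ y) :
    ∑ h ∈ Icc 1 b, (pairs N h : ℝ) ≤
      Real.exp 6 * b * N / (Real.log y) ^ 2 + 3 * b * (y : ℝ) ^ 12 := by
  have hlog : 0 < Real.log y := Real.log_pos (by exact_mod_cast hy)
  have hy1 : (1 : ℝ) ≤ y := by exact_mod_cast (by omega : 1 ≤ y)
  have h7 : (1 : ℝ) ≤ (y : ℝ) ^ 12 := one_le_pow₀ hy1
  have h1 : ∀ h ∈ Icc 1 b, (pairs N h : ℝ) ≤
      N * (∏ p ∈ h.primeFactors, (1 + 6 / (p : ℝ))) / (Real.log y) ^ 2 + 3 * (y : ℝ) ^ 12 := by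
    intro h hh
    rw [mem_Icc] at hh
    have hprod : 0 ≤ ∏ p ∈ h.primeFactors, (1 + 6 / (p : ℝ)) := prod_nonneg (fun p _ => by positivity)
    by_cases h2 : 2 ∣ h
    · refine (pairs_even N h y h2 (by omega) hy).trans ?_
      have := Dh_inv_sq_le h
      gcongr
    · have h3 : (pairs N h : ℝ) ≤ 1 := by exact_mod_cast pairs_odd N h h2
      have h4 : 0 ≤ N * (∏ p ∈ h.primeFactors, (1 + 6 / (p : ℝ))) / (Real.log y) ^ 2 := by positivity
      linarith
  refine (sum_le_sum h1).trans ?_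
  rw [sum_add_distrib, sum_const, nsmul_eq_mul, Nat.card_Icc, ← sum_div, ← mul_sum]
  have h8 := sum_prod_le b
  have h9 : (N : ℝ) * (∑ h ∈ Icc 1 b, ∏ p ∈ h.primeFactors, (1 + 6 / (p : ℝ))) / (Real.log y) ^ 2 ≤
      Real.exp 6 * b * N / (Real.log y) ^ 2 := by
    apply div_le_div_of_nonneg_right _ (by positivity)
    calc (N : ℝ) * (∑ h ∈ Icc 1 b, ∏ p ∈ h.primeFactors, (1 + 6 / (p : ℝ))) ≤ N * (b * Real.exp 6) := by
          gcongr
      _ = Real.exp 6 * b * N := by ring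
  have h10 : (((b + 1 - 1 : ℕ)) : ℝ) * (3 * (y : ℝ) ^ 12) = 3 * b * (y : ℝ) ^ 12 := by
    rw [Nat.add_sub_cancel]; ring
  linarith

end Pool.Agent.H.MP_711652_nt
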