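import Mathlib
import Pool.Agent.H.MP_711652_nt.PairSieve

set_option autoImplicit false

namespace Pool.Agent.H.MP_711652_nt

open Finset

/-- Number of primes in the `k`-th block of length `b`. -/
noncomputable def Fb (b k : ℕ) : ℕ := ((range ((k + 1) * b)).filter (fun p => p.Prime ∧ p / b = k)).card

/-- Total number of ordered pairs of primes in a common block. -/
lemma sum_sq_Fb_le (b M : ℕ) (hb : 0 < b) :
    ∑ k ∈ range M, (Fb b k) ^ 2 ≤
      ((range (M * b)).filter Nat.Prime).card + 2 * ∑ h ∈ Icc 1 b, pairs (M * b) h := by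
  set S : Finset (ℕ × ℕ) := ((range (M * b)) ×ˢ (range (M * b))).filter
    (fun q => q.1.Prime ∧ q.2.Prime ∧ q.1 / b = q.2 / b) with hS
  have h1 : ∑ k ∈ range M, (Fb b k) ^ 2 = S.card := by
    have hmaps : ∀ q ∈ S, q.1 / b ∈ range M := by
      intro q hq
      rw [hS, mem_filter, mem_product, mem_range, mem_range] at hq
      rw [mem_range]
      exact (Nat.div_lt_iff_lt_mul hb).2 hq.1.1
    rw [card_eq_sum_card_fiberwise hmaps]
    apply sum_congr rfl
    intro k hk
    rw [mem_range] at hk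
    unfold Fb
    rw [sq, ← card_product]
    congr 1
    ext q
    rw [mem_product, mem_filter, mem_filter, mem_filter, hS, mem_filter, mem_product]
    simp only [mem_range]
    have hkM : (k + 1) * b ≤ M * b := Nat.mul_le_mul_right b hk
    constructor
    · rintro ⟨⟨h1, h2, h3⟩, h4, h5, h6⟩
      exact ⟨⟨⟨h1.trans_le hkM, h4.trans_le hkM⟩, h2, h5, by rw [h3, h6]⟩, h3⟩
    · rintro ⟨⟨⟨h1, h2⟩, h3, h4, h5⟩, h6⟩
      have h7 : q.2 / b = k := by rw [← h5, h6]
      refine ⟨⟨?_, h3, h6⟩, ?_, h4, h7⟩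
      · rw [← Nat.div_lt_iff_lt_mul hb, h6]; omega
      · rw [← Nat.div_lt_iff_lt_mul hb, h7]; omega
  rw [h1]
  set D := S.filter (fun q => q.1 = q.2) with hD
  set L := S.filter (fun q => q.1 < q.2) with hL
  set G := S.filter (fun q => q.2 < q.1) with hG
  have hSsub : S ⊆ D ∪ (L ∪ G) := by
    intro q hq
    rw [mem_union, mem_union]
    rcases lt_trichotomy q.1 q.2 with h | h | h
    · right; left; exact mem_filter.2 ⟨hq, h⟩
    · left; exact mem_filter.2 ⟨hq, h⟩
    · right; right; exact mem_filter.2 ⟨hq, h⟩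
  have hDcard : D.card ≤ ((range (M * b)).filter Nat.Prime).card := by
    apply card_le_card_of_injOn (fun q => q.1)
    · intro q hq
      rw [Finset.mem_coe, hD, mem_filter, hS, mem_filter, mem_product] at hq
      rw [Finset.mem_coe, mem_filter]
      exact ⟨hq.1.1.1, hq.1.2.1⟩
    · intro q hq r hr hqr
      rw [Finset.mem_coe, hD, mem_filter] at hq hr
      simp only at hqr
      exact Prod.ext hqr (by rw [← hq.2, ← hr.2, hqr])
  have hsig : ∀ (U : Finset (ℕ × ℕ)), (∀ q ∈ U, q.1 < q.2 ∧ q.1.Prime ∧ q.2.Prime ∧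
      q.1 / b = q.2 / b ∧ q.2 < M * b) → U.card ≤ ∑ h ∈ Icc 1 b, pairs (M * b) h := by
    intro U hU
    have h2 : ∑ h ∈ Icc 1 b, pairs (M * b) h =
        ((Icc 1 b).sigma (fun h => (range (M * b)).filter (fun n => n.Prime ∧ (n + h).Prime))).card := by
      rw [card_sigma]
      rfl
    rw [h2]
    apply card_le_card_of_injOn (fun q => (⟨q.2 - q.1, q.1⟩ : Sigma (fun _ : ℕ => ℕ)))
    · intro q hq
      obtain ⟨h3, h4, h5, h6, h7⟩ := hU q hq
      rw [Finset.mem_coe, mem_sigma, mem_filter, mem_Icc, mem_range]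
      simp only
      have h8 : q.1 + (q.2 - q.1) = q.2 := by omega
      rw [h8]
      have h9 : q.2 < (q.1 / b + 1) * b := by
        rw [h6]
        rw [← Nat.div_lt_iff_lt_mul hb]
        omega
      have h10 : q.1 / b * b ≤ q.1 := Nat.div_mul_le_self _ _
      have h11 : (q.1 / b + 1) * b = q.1 / b * b + b := by ring
      exact ⟨⟨by omega, by omega⟩, by omega, h4, h5⟩
    · intro q hq r hr hqr
      obtain ⟨h3, -⟩ := hU q hq
      obtain ⟨h4, -⟩ := hU r hr
      simp only [Sigma.mk.injEq, heq_eq_eq] at hqr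
      obtain ⟨h5, h6⟩ := hqr
      exact Prod.ext h6 (by omega)
  have hLcard : L.card ≤ ∑ h ∈ Icc 1 b, pairs (M * b) h := by
    apply hsig
    intro q hq
    rw [hL, mem_filter, hS, mem_filter, mem_product, mem_range, mem_range] at hq
    exact ⟨hq.2, hq.1.2.1, hq.1.2.2.1, hq.1.2.2.2, hq.1.1.2⟩
  have hGcard : G.card ≤ ∑ h ∈ Icc 1 b, pairs (M * b) h := by
    have h2 : G.card = (G.image Prod.swap).card := by
      rw [card_image_of_injective _ Prod.swap_injective]
    rw [h2]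
    apply hsig
    intro q hq
    rw [mem_image] at hq
    obtain ⟨r, hr, rfl⟩ := hq
    rw [hG, mem_filter, hS, mem_filter, mem_product, mem_range, mem_range] at hr
    exact ⟨hr.2, hr.1.2.2.1, hr.1.2.1, hr.1.2.2.2.symm, hr.1.1.1⟩
  have h3 := card_le_card hSsub
  have h4 := card_union_le D (L ∪ G)
  have h5 := card_union_le L G
  omega

lemma primes_range_card (n : ℕ) : ((range (n + 1)).filter Nat.Prime).card = Nat.primeCounting n := by
  unfold Nat.primeCounting
  rw [Nat.primeCounting', Nat.count_eq_card_filter_range]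

lemma pairs_mono {N N' h : ℕ} (hN : N ≤ N') : pairs N h ≤ pairs N' h := by
  unfold pairs
  apply card_le_card
  intro n hn
  rw [mem_filter, mem_range] at hn ⊢
  exact ⟨hn.1.trans_le hN, hn.2⟩

open Filter in
lemma eventually_log_pow (n : ℕ) (C : ℝ) (hC : 0 < C) :
    ∀ᶠ X : ℕ in atTop, C * (Real.log X) ^ n ≤ X := by
  have h1 := (Real.isLittleO_pow_log_id_atTop (n := n)).bound (c := C⁻¹) (by positivity)
  have h2 := tendsto_natCast_atTop_atTop (R := ℝ) |>.eventually h1
  filter_upwards [h2, eventually_ge_atTop 1] with X hX hX1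
  have hlog : 0 ≤ Real.log X := Real.log_nonneg (by exact_mod_cast hX1)
  rw [Real.norm_of_nonneg (by positivity), id, Real.norm_of_nonneg (by positivity)] at hX
  calc C * (Real.log X) ^ n ≤ C * (C⁻¹ * X) := by gcongr
    _ = X := by field_simp

/-- The basic estimates used later: Chebyshev and the second moment of the block counts. -/
theorem basic_estimates : ∃ c C : ℝ, 0 < c ∧ 0 < C ∧ ∃ X₀ : ℕ, ∀ X : ℕ, X₀ ≤ X →
    2 ≤ ⌈Real.log X⌉₊ ∧ ⌈Real.log X⌉₊ ^ 4 ≤ X ∧
    c * X / ⌈Real.log X⌉₊ ≤ (Nat.primeCounting X : ℝ) ∧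
    (Nat.primeCounting X : ℝ) ≤ C * X / ⌈Real.log X⌉₊ ∧
    ∀ M : ℕ, M * ⌈Real.log X⌉₊ ≤ 2 * X →
      ∑ k ∈ range M, ((Fb ⌈Real.log X⌉₊ k : ℕ) : ℝ) ^ 2 ≤ C * X / ⌈Real.log X⌉₊ := by
  set C1 : ℝ := 16 + 4 * Real.exp 6 * 2704 * 4 + 2 with hC1
  have hC1pos : 0 < C1 := by positivity
  refine ⟨1 / 2, C1, by norm_num, hC1pos, ?_⟩
  have e1 := eventually_log_pow 4 144 (by norm_num)
  have e2 : ∀ᶠ X : ℕ in Filter.atTop, (52 * 4 : ℝ) ≤ Real.log X :=
    (Real.tendsto_log_atTop.comp tendsto_natCast_atTop_atTop).eventually_ge_atTop _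
  have e3 : ∀ᶠ X : ℕ in Filter.atTop, (4 : ℝ) * (Real.log X) ^ 2 ≤ X := eventually_log_pow 2 4 (by norm_num)
  have e4 := Filter.eventually_ge_atTop (α := ℕ) 10
  obtain ⟨X₀, hX₀⟩ := Filter.eventually_atTop.1 (e1.and (e2.and (e3.and e4)))
  refine ⟨X₀, fun X hX => ?_⟩
  obtain ⟨h1, h2, h3, h4⟩ := hX₀ X hX
  set L := Real.log X with hL
  set b := ⌈L⌉₊ with hb
  have hLb : L ≤ b := Nat.le_ceil _
  have hL0 : 0 < L := by linarith only [h2]
  have hbL : (b : ℝ) ≤ 2 * L := by
    have := Nat.ceil_lt_add_one hL0.le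
    linarith
  have hX0 : (0 : ℝ) < X := by exact_mod_cast (by omega : 0 < X)
  have hX10 : (10 : ℝ) ≤ X := by exact_mod_cast h4
  have hb0 : (0 : ℝ) < b := by linarith
  have hb2 : 2 ≤ b := by
    have : (2 : ℝ) ≤ b := by linarith
    exact_mod_cast this
  have hb4 : 9 * (b : ℝ) ^ 4 ≤ X := by
    calc 9 * (b : ℝ) ^ 4 ≤ 9 * (2 * L) ^ 4 := by gcongr
      _ = 144 * L ^ 4 := by ring
      _ ≤ X := h1
  have hsqrt : ∀ t : ℝ, 0 ≤ t → t ^ 2 ≤ X → t ≤ Real.sqrt X := fun t _ h => Real.le_sqrt_of_sq_le h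
  have hsqrtX : Real.sqrt X ^ 2 = X := Real.sq_sqrt hX0.le
  have hsqrt0 : 0 < Real.sqrt X := Real.sqrt_pos.2 hX0
  -- bound on `π (2 X)` and `π X`
  have hpi : ∀ Z : ℕ, X ≤ Z → (Nat.primeCounting Z : ℝ) ≤ 4 * Z / L := by
    intro Z hZ
    have hZ' : (X : ℝ) ≤ Z := by exact_mod_cast hZ
    have hZ1 : (1 : ℝ) < Z := by linarith
    have hZ0 : (0 : ℝ) < Z := by linarith
    have h5 := Chebyshev.pi_le_log4_mul_div (x := (Z : ℝ)) hZ1
    rw [Nat.floor_natCast, Real.log_sqrt hZ0.le] at h5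
    have hlogZ : L ≤ Real.log Z := Real.log_le_log hX0 hZ'
    have hlog4 : Real.log 4 ≤ 1.3864 := by
      have : Real.log 4 = 2 * Real.log 2 := by
        rw [show (4 : ℝ) = 2 ^ 2 by norm_num, Real.log_pow]; norm_num
      have := Real.log_two_lt_d9
      linarith
    have h6 : Real.log 4 * Z / (Real.log Z / 2) ≤ 2.7728 * Z / L := by
      have : Real.log 4 * Z / (Real.log Z / 2) = (2 * Real.log 4) * Z / Real.log Z := by
        field_simp
      rw [this]
      have h7 : (2 * Real.log 4) * (Z : ℝ) ≤ 2.7728 * Z := by nlinarith only [hlog4]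
      calc (2 * Real.log 4) * Z / Real.log Z ≤ 2.7728 * Z / Real.log Z := by gcongr
        _ ≤ 2.7728 * Z / L := by gcongr
    have h7 : Real.sqrt Z ≤ 1.2 * Z / L := by
      rw [le_div_iff₀ hL0]
      have h8 : L ≤ Real.sqrt Z := by
        apply Real.le_sqrt_of_sq_le
        nlinarith only [h3, hX10, hZ']
      have h9 : Real.sqrt Z ^ 2 = Z := Real.sq_sqrt hZ0.le
      nlinarith only [h3, hZ', h9, h8, Real.sqrt_nonneg (Z : ℝ)]
    have h8 : (2.7728 : ℝ) * Z / L + 1.2 * Z / L ≤ 4 * Z / L := by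
      rw [← add_div]
      apply div_le_div_of_nonneg_right _ hL0.le
      nlinarith only [hX10, hZ']
    linarith only [h5, h6, h7, h8]
  have hdivL : ∀ t : ℝ, 0 ≤ t → t / L ≤ 2 * t / b := by
    intro t ht
    rw [div_le_div_iff₀ hL0 hb0]
    nlinarith only [hbL, ht]
  refine ⟨hb2, ?_, ?_, ?_, ?_⟩
  · have : (b : ℝ) ^ 4 ≤ X := by
      have : 0 ≤ (b : ℝ) ^ 4 := by positivity
      linarith
    exact_mod_cast this
  · have h5 := Chebyshev.pi_ge X
    have h6 : Real.log (X + 1) ≤ L + 1 := by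
      have : Real.log ((X : ℝ) + 1) ≤ Real.log (X * Real.exp 1) := by
        apply Real.log_le_log (by linarith)
        have := Real.add_one_le_exp (1 : ℝ)
        nlinarith only [hX10, this]
      rw [Real.log_mul hX0.ne' (Real.exp_pos 1).ne', Real.log_exp] at this
      exact this
    have h7 := Real.log_two_gt_d9
    have h8 : 1 / 2 * (X : ℝ) ≤ X * Real.log 2 - Real.log (X + 1) := by nlinarith only [h2, h3, h6, h7]
    calc (1 / 2 * (X : ℝ)) / b ≤ (1 / 2 * (X : ℝ)) / L := by gcongr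
      _ ≤ (X * Real.log 2 - Real.log (X + 1)) / L := by gcongr
      _ ≤ _ := h5
  · have h5 := hpi X le_rfl
    have h6 := hdivL (4 * X) (by positivity)
    refine h5.trans (h6.trans ?_)
    apply div_le_div_of_nonneg_right _ hb0.le
    have : 0 < Real.exp 6 := Real.exp_pos 6
    nlinarith only [hX10, this]
  · intro M hM
    set t : ℝ := (X : ℝ) ^ ((1 : ℝ) / 26) with ht
    set y := ⌊t⌋₊ with hy
    have ht0 : 0 < t := Real.rpow_pos_of_pos hX0 _
    have hlogt : Real.log t = L / 26 := by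
      rw [ht, Real.log_rpow hX0]; ring
    have ht4 : 4 ≤ t := by
      have h5 : (8 : ℝ) ≤ Real.log t := by rw [hlogt]; linarith
      have h6 := Real.log_le_sub_one_of_pos ht0
      linarith only [h2, hlogt, h6]
    have hyt : (y : ℝ) ≤ t := Nat.floor_le ht0.le
    have hty : t / 2 ≤ y := by
      have := Nat.lt_floor_add_one t
      have h7 : t < (y : ℝ) + 1 := this
      linarith only [ht4, this]
    have hy2 : 2 ≤ y := by
      have : (2 : ℝ) ≤ y := by linarith only [ht4, hty]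
      exact_mod_cast this
    have hlogy : L / 52 ≤ Real.log y := by
      have h5 : Real.sqrt t ≤ y := by
        refine le_trans ?_ hty
        rw [Real.sqrt_le_left (by linarith only [ht4])]
        nlinarith only [ht0, ht4]
      have h6 : Real.log (Real.sqrt t) ≤ Real.log y := Real.log_le_log (Real.sqrt_pos.2 ht0) h5
      rw [Real.log_sqrt ht0.le, hlogt] at h6
      linarith only [h6]
    have hy12 : (y : ℝ) ^ 12 ≤ Real.sqrt X := by
      apply hsqrt _ (by positivity)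
      have h5 : t ^ 26 = X := by
        rw [ht, ← Real.rpow_natCast, ← Real.rpow_mul hX0.le]
        norm_num
      have h6 : (y : ℝ) ^ 24 ≤ t ^ 24 := by gcongr
      have h7 : t ^ 24 ≤ t ^ 26 := pow_le_pow_right₀ (by linarith only [ht4]) (by norm_num)
      calc ((y : ℝ) ^ 12) ^ 2 = (y : ℝ) ^ 24 := by rw [← pow_mul]
        _ ≤ (X : ℝ) := by linarith only [h5, h6, h7]
    have h5 := sum_sq_Fb_le b M (by omega)
    have h6 := sum_pairs_le (2 * X) b y hy2
    have h7 : (∑ k ∈ range M, ((Fb b k : ℕ) : ℝ) ^ 2) ≤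
        ((Nat.primeCounting (2 * X) : ℕ) : ℝ) + 2 * ∑ h ∈ Icc 1 b, (pairs (2 * X) h : ℝ) := by
      have h8 : ((range (M * b)).filter Nat.Prime).card ≤ Nat.primeCounting (2 * X) := by
        rw [← primes_range_card]
        apply card_le_card
        intro p hp
        rw [mem_filter, mem_range] at hp ⊢
        exact ⟨by omega, hp.2⟩
      have h9 : ∑ h ∈ Icc 1 b, pairs (M * b) h ≤ ∑ h ∈ Icc 1 b, pairs (2 * X) h :=
        sum_le_sum (fun h _ => pairs_mono hM)
      have h10 : ∑ k ∈ range M, (Fb b k) ^ 2 ≤ Nat.primeCounting (2 * X) +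
          2 * ∑ h ∈ Icc 1 b, pairs (2 * X) h := by omega
      exact_mod_cast h10
    have h8 := hpi (2 * X) (by omega)
    have h9 := hdivL (4 * ((2 * X : ℕ) : ℝ)) (by positivity)
    have h10 : Real.exp 6 * b * ((2 * X : ℕ) : ℝ) / (Real.log y) ^ 2 ≤
        Real.exp 6 * 2704 * 4 * 2 * X / b := by
      have h11 : 0 < Real.log y := by linarith only [h2, hlogy, div_pos hL0 (by norm_num : (0 : ℝ) < 52)]
      have h12 : (L / 52) ^ 2 ≤ (Real.log y) ^ 2 := by
        apply pow_le_pow_left₀ (by positivity) hlogy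
      rw [div_le_div_iff₀ (by positivity) hb0]
      push_cast
      have h13 : (b : ℝ) ^ 2 ≤ 4 * 2704 * (Real.log y) ^ 2 := by
        calc (b : ℝ) ^ 2 ≤ (2 * L) ^ 2 := by gcongr
          _ = 4 * 2704 * (L / 52) ^ 2 := by ring
          _ ≤ _ := by gcongr
      have h14 : 0 ≤ Real.exp 6 * 2 * X := by positivity
      calc Real.exp 6 * b * (2 * X) * b = (Real.exp 6 * 2 * X) * (b : ℝ) ^ 2 := by ring
        _ ≤ (Real.exp 6 * 2 * X) * (4 * 2704 * (Real.log y) ^ 2) := by gcongr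
        _ = _ := by ring
    have h11 : 3 * (b : ℝ) * (y : ℝ) ^ 12 ≤ X / b := by
      rw [le_div_iff₀ hb0]
      have h12 : 3 * (b : ℝ) ^ 2 ≤ Real.sqrt X := by
        apply hsqrt _ (by positivity)
        calc (3 * (b : ℝ) ^ 2) ^ 2 = 9 * (b : ℝ) ^ 4 := by ring
          _ ≤ (X : ℝ) := hb4
      calc 3 * (b : ℝ) * (y : ℝ) ^ 12 * b = (3 * (b : ℝ) ^ 2) * (y : ℝ) ^ 12 := by ring
        _ ≤ Real.sqrt X * Real.sqrt X := by gcongr
        _ = X := Real.mul_self_sqrt hX0.le
    have h12 : C1 * X / b = 16 * X / b + 2 * (Real.exp 6 * 2704 * 4 * 2 * X / b) + 2 * (X / b) := by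
      rw [hC1]; ring
    have h13 : 2 * (4 * ((2 * X : ℕ) : ℝ)) / b = 16 * X / b := by
      push_cast; ring
    rw [h12]
    rw [h13] at h9
    linarith only [h6, h7, h8, h9, h10, h11]

end Pool.Agent.H.MP_711652_nt
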