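import Mathlib

/-!
Combinatorial part (maximal inequalities for monotone sequences) of the bi-Lipschitz law.
-/

namespace Pool.Agent.H.MP_711652_nt.BiLip

open Finset

/-- rising sun lemma, right version -/
theorem rising_right (F : ℕ → ℝ) (hF : Monotone F) (N : ℕ) (B : Finset ℕ)
    (hw : ∀ k ∈ B, ∃ m, k < m ∧ m ≤ N ∧ ((m : ℝ) - k) ≤ F m - F k) :
    (B.card : ℝ) ≤ F N - F 0 := by
  have key : ∀ j, ∀ k0, k0 ≤ N → N - k0 = j →
      ((B.filter (fun k => k0 ≤ k)).card : ℝ) ≤ F N - F k0 := by
    intro j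
    induction j using Nat.strong_induction_on with
    | _ j ih =>
      intro k0 hk0 hj
      by_cases hne : (B.filter (fun k => k0 ≤ k)).Nonempty
      · obtain ⟨k, hk, hmin⟩ : ∃ k ∈ B.filter (fun k => k0 ≤ k),
            ∀ i ∈ B.filter (fun k => k0 ≤ k), k ≤ i :=
          ⟨_, Finset.min'_mem _ hne, fun i hi => Finset.min'_le _ i hi⟩
        obtain ⟨hkB, hk0k⟩ := Finset.mem_filter.1 hk
        obtain ⟨m, hkm, hmN, hle⟩ := hw k hkB
        have ih' := ih (N - m) (by omega) m hmN rfl
        have hsub : B.filter (fun i => k0 ≤ i) ⊆ (Ico k m) ∪ B.filter (fun i => m ≤ i) := by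
          intro i hi
          have h1 := hmin i hi
          rw [Finset.mem_union, Finset.mem_Ico, Finset.mem_filter]
          rcases lt_or_ge i m with h | h
          · exact Or.inl ⟨h1, h⟩
          · exact Or.inr ⟨(Finset.mem_filter.1 hi).1, h⟩
        have hc : ((B.filter (fun i => k0 ≤ i)).card : ℝ)
            ≤ ((m : ℝ) - k) + (B.filter (fun i => m ≤ i)).card := by
          have h1 := (Finset.card_le_card hsub).trans (Finset.card_union_le _ _)
          rw [Nat.card_Ico] at h1
          have h2 : ((B.filter (fun i => k0 ≤ i)).card : ℝ)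
            ≤ ((m - k : ℕ) : ℝ) + ((B.filter (fun i => m ≤ i)).card : ℝ) := by exact_mod_cast h1
          rwa [Nat.cast_sub hkm.le] at h2
        have hmono : F k0 ≤ F k := hF hk0k
        linarith only [hle, ih', hc, hmono]
      · rw [Finset.not_nonempty_iff_eq_empty] at hne
        rw [hne]
        simpa using hF hk0
  have h0 := key N 0 (Nat.zero_le _) (by simp)
  simpa using h0

/-- rising sun lemma, left version -/
theorem rising_left (F : ℕ → ℝ) (hF : Monotone F) (N : ℕ) (B : Finset ℕ) (hB : B ⊆ range N)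
    (hw : ∀ k ∈ B, ∃ m, m < k ∧ ((k : ℝ) - m) ≤ F k - F m) :
    (B.card : ℝ) ≤ F N - F 0 := by
  have key : ∀ k0, ((B.filter (fun k => k ≤ k0)).card : ℝ) ≤ F k0 - F 0 := by
    intro k0
    induction k0 using Nat.strong_induction_on with
    | _ k0 ih =>
      by_cases hne : (B.filter (fun k => k ≤ k0)).Nonempty
      · obtain ⟨k, hk, hmax⟩ : ∃ k ∈ B.filter (fun k => k ≤ k0),
            ∀ i ∈ B.filter (fun k => k ≤ k0), i ≤ k :=
          ⟨_, Finset.max'_mem _ hne, fun i hi => Finset.le_max' _ i hi⟩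
        obtain ⟨hkB, hk0k⟩ := Finset.mem_filter.1 hk
        obtain ⟨m, hkm, hle⟩ := hw k hkB
        have ih' := ih m (by omega)
        have hsub : B.filter (fun i => i ≤ k0) ⊆ (Ioc m k) ∪ B.filter (fun i => i ≤ m) := by
          intro i hi
          have h1 := hmax i hi
          rw [Finset.mem_union, Finset.mem_Ioc, Finset.mem_filter]
          rcases lt_or_ge m i with h | h
          · exact Or.inl ⟨h, h1⟩
          · exact Or.inr ⟨(Finset.mem_filter.1 hi).1, h⟩
        have hc : ((B.filter (fun i => i ≤ k0)).card : ℝ)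
            ≤ ((k : ℝ) - m) + (B.filter (fun i => i ≤ m)).card := by
          have h1 := (Finset.card_le_card hsub).trans (Finset.card_union_le _ _)
          rw [Nat.card_Ioc] at h1
          have h2 : ((B.filter (fun i => i ≤ k0)).card : ℝ)
            ≤ ((k - m : ℕ) : ℝ) + ((B.filter (fun i => i ≤ m)).card : ℝ) := by exact_mod_cast h1
          rwa [Nat.cast_sub hkm.le] at h2
        have hmono : F k ≤ F k0 := hF hk0k
        linarith only [hle, ih', hc, hmono]
      · rw [Finset.not_nonempty_iff_eq_empty] at hne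
        rw [hne]
        simpa using hF (Nat.zero_le k0)
  have h0 := key N
  have : B.filter (fun k => k ≤ N) = B := by
    apply Finset.filter_true_of_mem
    intro k hk
    exact (Finset.mem_range.1 (hB hk)).le
  rwa [this] at h0

/-- greedy covering, right windows -/
theorem greedy_right (p : ℕ → ℕ) (hp : StrictMono p) (N : ℕ) (B : Finset ℕ)
    (h : ℕ) (κ : ℝ) (hκ : 0 ≤ κ)
    (hw : ∀ k ∈ B, ∃ m, k < m ∧ m ≤ N ∧ ((p m : ℝ) - p k + h) ≤ κ * ((m : ℝ) - k)) :
    ((B.biUnion (fun k => Ico (p k) (p k + h))).card : ℝ) ≤ κ * N := by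
  have key : ∀ j, ∀ k0, k0 ≤ N → N - k0 = j →
      (((B.filter (fun k => k0 ≤ k)).biUnion (fun k => Ico (p k) (p k + h))).card : ℝ)
        ≤ κ * ((N : ℝ) - k0) := by
    intro j
    induction j using Nat.strong_induction_on with
    | _ j ih =>
      intro k0 hk0 hj
      by_cases hne : (B.filter (fun k => k0 ≤ k)).Nonempty
      · obtain ⟨k, hk, hmin⟩ : ∃ k ∈ B.filter (fun k => k0 ≤ k),
            ∀ i ∈ B.filter (fun k => k0 ≤ k), k ≤ i :=
          ⟨_, Finset.min'_mem _ hne, fun i hi => Finset.min'_le _ i hi⟩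
        obtain ⟨hkB, hk0k⟩ := Finset.mem_filter.1 hk
        obtain ⟨m, hkm, hmN, hle⟩ := hw k hkB
        have ih' := ih (N - m) (by omega) m hmN rfl
        have hsub : (B.filter (fun i => k0 ≤ i)).biUnion (fun k => Ico (p k) (p k + h)) ⊆
            (Ico (p k) (p m + h)) ∪
            (B.filter (fun i => m ≤ i)).biUnion (fun k => Ico (p k) (p k + h)) := by
          intro x hx
          rw [Finset.mem_biUnion] at hx
          obtain ⟨i, hi, hxi⟩ := hx
          have h1 := hmin i hi
          rw [Finset.mem_union, Finset.mem_Ico, Finset.mem_biUnion]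
          rw [Finset.mem_Ico] at hxi
          rcases lt_or_ge i m with h | h
          · refine Or.inl ⟨?_, ?_⟩
            · exact (hp.monotone h1).trans hxi.1
            · have := hp h
              omega
          · exact Or.inr ⟨i, Finset.mem_filter.2 ⟨(Finset.mem_filter.1 hi).1, h⟩,
              Finset.mem_Ico.2 hxi⟩
        have hc : (((B.filter (fun i => k0 ≤ i)).biUnion (fun k => Ico (p k) (p k + h))).card : ℝ)
            ≤ ((p m : ℝ) - p k + h) +
              ((B.filter (fun i => m ≤ i)).biUnion (fun k => Ico (p k) (p k + h))).card := by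
          have h1 := (Finset.card_le_card hsub).trans (Finset.card_union_le _ _)
          rw [Nat.card_Ico] at h1
          have h3 : p k ≤ p m + h := by
            have := hp hkm
            omega
          have h2 := (Nat.cast_le (α := ℝ)).2 h1
          rw [Nat.cast_add, Nat.cast_sub h3] at h2
          push_cast at h2
          linarith only [h2]
        have hmono : (k0 : ℝ) ≤ k := by exact_mod_cast hk0k
        nlinarith only [hle, ih', hc, hκ, hmono]
      · rw [Finset.not_nonempty_iff_eq_empty] at hne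
        rw [hne]
        have : (k0 : ℝ) ≤ N := by exact_mod_cast hk0
        simpa using mul_nonneg hκ (sub_nonneg.2 this)
  have h0 := key N 0 (Nat.zero_le _) (by simp)
  simpa using h0

/-- greedy covering, left windows -/
theorem greedy_left (p : ℕ → ℕ) (hp : StrictMono p) (N : ℕ) (B : Finset ℕ) (hB : B ⊆ range N)
    (h : ℕ) (κ : ℝ) (hκ : 0 ≤ κ)
    (hw : ∀ k ∈ B, ∃ m, m < k ∧ ((p k : ℝ) - p m + h) ≤ κ * ((k : ℝ) - m)) :
    ((B.biUnion (fun k => Ico (p k) (p k + h))).card : ℝ) ≤ κ * N := by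
  have key : ∀ k0,
      (((B.filter (fun k => k ≤ k0)).biUnion (fun k => Ico (p k) (p k + h))).card : ℝ)
        ≤ κ * (k0 : ℝ) := by
    intro k0
    induction k0 using Nat.strong_induction_on with
    | _ k0 ih =>
      by_cases hne : (B.filter (fun k => k ≤ k0)).Nonempty
      · obtain ⟨k, hk, hmax⟩ : ∃ k ∈ B.filter (fun k => k ≤ k0),
            ∀ i ∈ B.filter (fun k => k ≤ k0), i ≤ k :=
          ⟨_, Finset.max'_mem _ hne, fun i hi => Finset.le_max' _ i hi⟩
        obtain ⟨hkB, hk0k⟩ := Finset.mem_filter.1 hk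
        obtain ⟨m, hkm, hle⟩ := hw k hkB
        have ih' := ih m (by omega)
        have hsub : (B.filter (fun i => i ≤ k0)).biUnion (fun k => Ico (p k) (p k + h)) ⊆
            (Ico (p m) (p k + h)) ∪
            (B.filter (fun i => i ≤ m)).biUnion (fun k => Ico (p k) (p k + h)) := by
          intro x hx
          rw [Finset.mem_biUnion] at hx
          obtain ⟨i, hi, hxi⟩ := hx
          have h1 := hmax i hi
          rw [Finset.mem_union, Finset.mem_Ico, Finset.mem_biUnion]
          rw [Finset.mem_Ico] at hxi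
          rcases lt_or_ge m i with h | h
          · refine Or.inl ⟨?_, ?_⟩
            · exact (hp.monotone h.le).trans hxi.1
            · have := hp.monotone h1
              omega
          · exact Or.inr ⟨i, Finset.mem_filter.2 ⟨(Finset.mem_filter.1 hi).1, h⟩,
              Finset.mem_Ico.2 hxi⟩
        have hc : (((B.filter (fun i => i ≤ k0)).biUnion (fun k => Ico (p k) (p k + h))).card : ℝ)
            ≤ ((p k : ℝ) - p m + h) +
              ((B.filter (fun i => i ≤ m)).biUnion (fun k => Ico (p k) (p k + h))).card := by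
          have h1 := (Finset.card_le_card hsub).trans (Finset.card_union_le _ _)
          rw [Nat.card_Ico] at h1
          have h3 : p m ≤ p k + h := by
            have := hp hkm
            omega
          have h2 := (Nat.cast_le (α := ℝ)).2 h1
          rw [Nat.cast_add, Nat.cast_sub h3] at h2
          push_cast at h2
          linarith only [h2]
        have hmono : (k : ℝ) ≤ k0 := by exact_mod_cast hk0k
        nlinarith only [hle, ih', hc, hκ, hmono]
      · rw [Finset.not_nonempty_iff_eq_empty] at hne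
        rw [hne]
        simpa using mul_nonneg hκ (Nat.cast_nonneg k0)
  have h0 := key N
  have : B.filter (fun k => k ≤ N) = B := by
    apply Finset.filter_true_of_mem
    intro k hk
    exact (Finset.mem_range.1 (hB hk)).le
  rwa [this] at h0

/-- the number of idxPairs `k < l < N` with `p l ≤ p k + J` -/
def idxPairs (p : ℕ → ℕ) (N J : ℕ) : ℕ :=
  ((range N ×ˢ range N).filter (fun kl => kl.1 < kl.2 ∧ p kl.2 ≤ p kl.1 + J)).card

theorem cs_bound (p : ℕ → ℕ) (N : ℕ) (B : Finset ℕ) (hB : B ⊆ range N)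
    (h : ℕ) :
    ((h : ℝ) * B.card) ^ 2 ≤
      ((B.biUnion (fun k => Ico (p k) (p k + h))).card : ℝ) * (h * (N + 2 * idxPairs p N h)) := by
  classical
  set U := B.biUnion (fun k => Ico (p k) (p k + h)) with hU
  set f : ℕ → ℝ := fun x => ∑ k ∈ B, (if x ∈ Ico (p k) (p k + h) then (1 : ℝ) else 0) with hf
  have h1 : ∑ x ∈ U, f x = (h : ℝ) * B.card := by
    rw [hf, Finset.sum_comm]
    have : ∀ k ∈ B, ∑ x ∈ U, (if x ∈ Ico (p k) (p k + h) then (1 : ℝ) else 0) = h := by
      intro k hk
      rw [← Finset.sum_filter, Finset.sum_const, nsmul_eq_mul, mul_one]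
      have : U.filter (fun x => x ∈ Ico (p k) (p k + h)) = Ico (p k) (p k + h) := by
        ext x
        rw [Finset.mem_filter, and_iff_right_iff_imp]
        intro hx
        rw [hU, Finset.mem_biUnion]
        exact ⟨k, hk, hx⟩
      rw [this, Nat.card_Ico]
      simp
    rw [Finset.sum_congr rfl this, Finset.sum_const, nsmul_eq_mul, mul_comm]
  have h2 : (∑ x ∈ U, f x) ^ 2 ≤ (U.card : ℝ) * ∑ x ∈ U, f x ^ 2 := sq_sum_le_card_mul_sum_sq
  have h3 : ∑ x ∈ U, f x ^ 2 ≤ (h : ℝ) * (N + 2 * idxPairs p N h) := by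
    have e1 : ∀ x ∈ U, f x ^ 2 = ∑ k ∈ B, ∑ l ∈ B,
        (if x ∈ Ico (p k) (p k + h) ∧ x ∈ Ico (p l) (p l + h) then (1 : ℝ) else 0) := by
      intro x _
      rw [sq, hf]
      simp only
      rw [Finset.sum_mul_sum]
      refine Finset.sum_congr rfl fun k _ => Finset.sum_congr rfl fun l _ => ?_
      by_cases a : x ∈ Ico (p k) (p k + h) <;> by_cases b : x ∈ Ico (p l) (p l + h) <;>
        simp only [a, b, if_true, if_false, and_self, and_true, and_false, mul_one, mul_zero]
    rw [Finset.sum_congr rfl e1, Finset.sum_comm]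
    have e2 : ∀ k ∈ B, ∑ x ∈ U, ∑ l ∈ B,
        (if x ∈ Ico (p k) (p k + h) ∧ x ∈ Ico (p l) (p l + h) then (1 : ℝ) else 0)
        ≤ ∑ l ∈ B, (if p k ≤ p l + h ∧ p l ≤ p k + h then (h : ℝ) else 0) := by
      intro k hk
      rw [Finset.sum_comm]
      refine Finset.sum_le_sum fun l hl => ?_
      rw [← Finset.sum_filter, Finset.sum_const, nsmul_eq_mul, mul_one]
      split_ifs with hc
      · have : U.filter (fun x => x ∈ Ico (p k) (p k + h) ∧ x ∈ Ico (p l) (p l + h)) ⊆
            Ico (p k) (p k + h) := by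
          intro x hx
          exact (Finset.mem_filter.1 hx).2.1
        have := Finset.card_le_card this
        rw [Nat.card_Ico] at this
        have h' : p k + h - p k = h := by omega
        rw [h'] at this
        exact_mod_cast this
      · have : U.filter (fun x => x ∈ Ico (p k) (p k + h) ∧ x ∈ Ico (p l) (p l + h)) = ∅ := by
          rw [Finset.filter_eq_empty_iff]
          intro x _ hx
          rw [Finset.mem_Ico, Finset.mem_Ico] at hx
          omega
        rw [this]
        simp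
    refine (Finset.sum_le_sum e2).trans ?_
    have e3 : ∑ k ∈ B, ∑ l ∈ B, (if p k ≤ p l + h ∧ p l ≤ p k + h then (h : ℝ) else 0)
        ≤ ∑ k ∈ range N, ∑ l ∈ range N,
          ((if k = l then (h : ℝ) else 0) + (if k < l ∧ p l ≤ p k + h then (h : ℝ) else 0)
            + (if l < k ∧ p k ≤ p l + h then (h : ℝ) else 0)) := by
      have hh : (0 : ℝ) ≤ h := Nat.cast_nonneg h
      have nn : ∀ k l : ℕ, (0 : ℝ) ≤ ((if k = l then (h : ℝ) else 0)
          + (if k < l ∧ p l ≤ p k + h then (h : ℝ) else 0)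
            + (if l < k ∧ p k ≤ p l + h then (h : ℝ) else 0)) := by
        intro k l
        have i1 : (0 : ℝ) ≤ if k = l then (h : ℝ) else 0 := by split_ifs <;> simp
        have i2 : (0 : ℝ) ≤ if k < l ∧ p l ≤ p k + h then (h : ℝ) else 0 := by
          split_ifs <;> simp
        have i3 : (0 : ℝ) ≤ if l < k ∧ p k ≤ p l + h then (h : ℝ) else 0 := by
          split_ifs <;> simp
        linarith
      refine (Finset.sum_le_sum_of_subset_of_nonneg hB fun k _ _ =>
        Finset.sum_nonneg fun l _ => ?_).trans (Finset.sum_le_sum fun k _ => ?_)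
      · split_ifs <;> simp
      · refine (Finset.sum_le_sum_of_subset_of_nonneg hB fun l _ _ => ?_).trans
          (Finset.sum_le_sum fun l _ => ?_)
        · split_ifs <;> simp
        · rcases lt_trichotomy k l with hkl | hkl | hkl
          · have n1 : ¬ (l < k ∧ p k ≤ p l + h) := fun hc => absurd hc.1 (not_lt.2 hkl.le)
            rw [if_neg hkl.ne, if_neg n1]
            by_cases c1 : p k ≤ p l + h ∧ p l ≤ p k + h
            · rw [if_pos c1, if_pos ⟨hkl, c1.2⟩]
              linarith
            · rw [if_neg c1]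
              have := nn k l
              rw [if_neg hkl.ne, if_neg n1] at this
              exact this
          · subst hkl
            simp
          · have n1 : ¬ (k < l ∧ p l ≤ p k + h) := fun hc => absurd hc.1 (not_lt.2 hkl.le)
            rw [if_neg hkl.ne', if_neg n1]
            by_cases c1 : p k ≤ p l + h ∧ p l ≤ p k + h
            · rw [if_pos c1, if_pos ⟨hkl, c1.1⟩]
              linarith
            · rw [if_neg c1]
              have := nn k l
              rw [if_neg hkl.ne', if_neg n1] at this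
              exact this
    refine e3.trans (le_of_eq ?_)
    simp only [Finset.sum_add_distrib]
    have s1 : ∑ k ∈ range N, ∑ l ∈ range N, (if k = l then (h : ℝ) else 0) = h * N := by
      have : ∀ k ∈ range N, ∑ l ∈ range N, (if k = l then (h : ℝ) else 0) = h := by
        intro k hk
        rw [Finset.sum_ite_eq, if_pos hk]
      rw [Finset.sum_congr rfl this, Finset.sum_const, card_range, nsmul_eq_mul, mul_comm]
    have s2 : ∑ k ∈ range N, ∑ l ∈ range N, (if k < l ∧ p l ≤ p k + h then (h : ℝ) else 0)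
        = h * idxPairs p N h := by
      rw [← Finset.sum_product', ← Finset.sum_filter, Finset.sum_const, nsmul_eq_mul, mul_comm]
      rfl
    have s3 : ∑ k ∈ range N, ∑ l ∈ range N, (if l < k ∧ p k ≤ p l + h then (h : ℝ) else 0)
        = h * idxPairs p N h := by
      rw [Finset.sum_comm, s2]
    rw [s1, s2, s3]
    ring
  rw [h1] at h2
  exact h2.trans (mul_le_mul_of_nonneg_left h3 (Nat.cast_nonneg _))

/-- `k` is good for the sequence `p` up to `N` at scale `L` with constants `c`, `C`. -/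
def Good (p : ℕ → ℕ) (N : ℕ) (L c C : ℝ) (k : ℕ) : Prop :=
  ∀ m < N, c * |(m : ℝ) - k| * L ≤ |(p m : ℝ) - p k| ∧
    |(p m : ℝ) - p k| ≤ C * |(m : ℝ) - k| * L

theorem low_final (N h : ℕ) (κ c c1 A2 θ L ε' b P : ℝ) (hL : 0 < L) (hh : L ≤ h) (hθ : (h : ℝ) ≤ θ * L) (hc1 : 0 < c1) (hA2 : 0 < A2)
    (hε' : 0 < ε') (hc : 0 < c)
    (hκ : κ = c * L + c * h / c1) (hP : P ≤ A2 * h * N / L)
    (hcc : c * ((1 + 1 / c1) * (1 + 2 * A2 * θ)) = ε' ^ 2)
    (hmain : ((h : ℝ) * b) ^ 2 ≤ (κ * N) * (h * (N + 2 * P))) : b ≤ ε' * N := by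
  have hh0 : (0 : ℝ) < h := hL.trans_le hh
  have hP' : P ≤ A2 * θ * N := by
    refine hP.trans ?_
    rw [div_le_iff₀ hL]
    have : A2 * h * N ≤ A2 * (θ * L) * N := by gcongr
    linarith
  have hκ' : κ ≤ c * (1 + 1 / c1) * h := by
    rw [hκ]
    have h1 : c * L ≤ c * h := by gcongr
    have h2 : c * h / c1 = c * (1 / c1) * h := by ring
    rw [h2]
    linarith only [h1]
  have hκ0 : 0 ≤ κ := by
    rw [hκ]
    positivity
  have hb2 : ((h : ℝ) * b) ^ 2 ≤ ((h : ℝ) * (ε' * N)) ^ 2 := by
    refine hmain.trans ?_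
    have h1 : (N : ℝ) + 2 * P ≤ (1 + 2 * A2 * θ) * N := by linarith
    have h2 : (κ * N) * (h * (N + 2 * P)) ≤ (κ * N) * (h * ((1 + 2 * A2 * θ) * N)) := by
      gcongr
    refine h2.trans ?_
    have hθ0 : 0 < θ := by
      by_contra hneg
      have : θ * L ≤ 0 := mul_nonpos_of_nonpos_of_nonneg (not_lt.1 hneg) hL.le
      linarith
    have h3 : (κ * N) * (h * ((1 + 2 * A2 * θ) * N)) ≤
        (c * (1 + 1 / c1) * h * N) * (h * ((1 + 2 * A2 * θ) * N)) := by
      gcongr
    refine h3.trans (le_of_eq ?_)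
    have : (c * (1 + 1 / c1) * h * N) * (h * ((1 + 2 * A2 * θ) * N)) =
      (c * ((1 + 1 / c1) * (1 + 2 * A2 * θ))) * (h * N) ^ 2 := by ring
    rw [this, hcc]
    ring
  have h4 : (h : ℝ) * b ≤ (h : ℝ) * (ε' * N) := by
    apply le_of_sq_le_sq hb2
    positivity
  exact le_of_mul_le_mul_left h4 hh0

theorem abstract_law (A1 A2 L0 ε : ℝ) (hA1 : 0 < A1) (hA2 : 0 < A2) (hL0 : 0 < L0)
    (hε : 0 < ε) :
    ∃ c > 0, ∃ C > 0, ∀ (N : ℕ) (L : ℝ) (p : ℕ → ℕ), StrictMono p → L0 ≤ L →
      (p N : ℝ) ≤ A1 * N * L → (∀ J : ℕ, (idxPairs p N J : ℝ) ≤ A2 * J * N / L) →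
      ∃ B ⊆ range N, (B.card : ℝ) ≤ ε * N ∧ ∀ k ∈ range N, k ∉ B → Good p N L c C k := by
  classical
  set ε' : ℝ := ε / 5 with hε'
  have hε'0 : 0 < ε' := by positivity
  set c1 : ℝ := ε' / (2 * A2) with hc1
  have hc10 : 0 < c1 := by positivity
  set θ : ℝ := 1 + 1 / L0 with hθ
  have hθ0 : 0 < θ := by positivity
  set c : ℝ := ε' ^ 2 / ((1 + 1 / c1) * (1 + 2 * A2 * θ)) with hc
  have hc0 : 0 < c := by positivity
  have hcc : c * ((1 + 1 / c1) * (1 + 2 * A2 * θ)) = ε' ^ 2 := by
    rw [hc]
    field_simp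
  refine ⟨c, hc0, A1 / ε', by positivity, ?_⟩
  intro N L p hp hL hpN hpairs
  have hL' : 0 < L := hL0.trans_le hL
  set C : ℝ := A1 / ε' with hC
  have hC0 : 0 < C := by positivity
  have hN0 : (0 : ℝ) ≤ N := Nat.cast_nonneg N
  have hCA : A1 = C * ε' := by rw [hC]; field_simp
  -- the bad sets
  set B1 := (range N).filter (fun k : ℕ => ∃ m : ℕ, k < m ∧ m < N ∧ C * ((m : ℝ) - k) * L < p m - p k)
    with hB1
  set B2 := (range N).filter (fun k : ℕ => ∃ m : ℕ, m < k ∧ C * ((k : ℝ) - m) * L < p k - p m) with hB2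
  set B3 := (range N).filter (fun k : ℕ => ∃ m : ℕ, m < N ∧ m ≠ k ∧ |(p m : ℝ) - p k| ≤ c1 * L) with hB3
  set B4 := (range N).filter (fun k : ℕ => ∃ m : ℕ, k < m ∧ m < N ∧ (p m : ℝ) - p k < c * ((m : ℝ) - k) * L
    ∧ c1 * L < (p m : ℝ) - p k) with hB4
  set B5 := (range N).filter (fun k : ℕ => ∃ m : ℕ, m < k ∧ (p k : ℝ) - p m < c * ((k : ℝ) - m) * L
    ∧ c1 * L < (p k : ℝ) - p m) with hB5
  have hCL : 0 < C * L := by positivity
  have hmonoF : Monotone (fun i : ℕ => (p i : ℝ) / (C * L)) := by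
    intro i j hij
    have : (p i : ℝ) ≤ p j := by exact_mod_cast hp.monotone hij
    simp only
    gcongr
  have hFtot : (p N : ℝ) / (C * L) - (p 0 : ℝ) / (C * L) ≤ ε' * N := by
    have h1 : (0 : ℝ) ≤ (p 0 : ℝ) / (C * L) := by positivity
    have h2 : (p N : ℝ) / (C * L) ≤ ε' * N := by
      rw [div_le_iff₀ hCL]
      refine hpN.trans (le_of_eq ?_)
      rw [hCA]
      ring
    linarith only [h1, h2]
  have cB1 : (B1.card : ℝ) ≤ ε' * N := by
    refine (rising_right (fun i => (p i : ℝ) / (C * L)) hmonoF N B1 ?_).trans hFtot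
    intro k hk
    obtain ⟨_, m, hkm, hmN, hlt⟩ := Finset.mem_filter.1 hk
    refine ⟨m, hkm, hmN.le, ?_⟩
    rw [← sub_div, le_div_iff₀ hCL]
    linarith only [hlt]
  have cB2 : (B2.card : ℝ) ≤ ε' * N := by
    refine (rising_left (fun i => (p i : ℝ) / (C * L)) hmonoF N B2 (Finset.filter_subset _ _)
      ?_).trans hFtot
    intro k hk
    obtain ⟨_, m, hkm, hlt⟩ := Finset.mem_filter.1 hk
    refine ⟨m, hkm, ?_⟩
    rw [← sub_div, le_div_iff₀ hCL]
    linarith only [hlt]
  have cB3 : (B3.card : ℝ) ≤ ε' * N := by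
    set J := ⌊c1 * L⌋₊ with hJ
    have hJle : (J : ℝ) ≤ c1 * L := Nat.floor_le (by positivity)
    set P := (range N ×ˢ range N).filter (fun kl => kl.1 < kl.2 ∧ p kl.2 ≤ p kl.1 + J) with hP
    have hsub : B3 ⊆ P.image Prod.fst ∪ P.image Prod.snd := by
      intro k hk
      obtain ⟨hkN, m, hmN, hne, hle⟩ := Finset.mem_filter.1 hk
      rw [Finset.mem_union, Finset.mem_image, Finset.mem_image]
      rcases lt_or_gt_of_ne hne with hlt | hlt
      · right
        refine ⟨(m, k), ?_, rfl⟩
        rw [hP, Finset.mem_filter]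
        refine ⟨Finset.mem_product.2 ⟨Finset.mem_range.2 hmN, hkN⟩, hlt, ?_⟩
        have h1 : p m ≤ p k := (hp hlt).le
        have h2 : ((p k - p m : ℕ) : ℝ) ≤ c1 * L := by
          rw [Nat.cast_sub h1]
          rw [abs_sub_comm] at hle
          exact (le_abs_self _).trans hle
        have h3 := Nat.le_floor h2
        simp only
        omega
      · left
        refine ⟨(k, m), ?_, rfl⟩
        rw [hP, Finset.mem_filter]
        refine ⟨Finset.mem_product.2 ⟨hkN, Finset.mem_range.2 hmN⟩, hlt, ?_⟩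
        have h1 : p k ≤ p m := (hp hlt).le
        have h2 : ((p m - p k : ℕ) : ℝ) ≤ c1 * L := by
          rw [Nat.cast_sub h1]
          exact (le_abs_self _).trans hle
        have h3 := Nat.le_floor h2
        simp only
        omega
    have h1 : (B3.card : ℝ) ≤ 2 * idxPairs p N J := by
      have h2 := (Finset.card_le_card hsub).trans (Finset.card_union_le _ _)
      have h3 : (P.image Prod.fst).card ≤ idxPairs p N J := Finset.card_image_le
      have h4 : (P.image Prod.snd).card ≤ idxPairs p N J := Finset.card_image_le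
      have h5 : B3.card ≤ 2 * idxPairs p N J := by omega
      exact_mod_cast h5
    have h2 := hpairs J
    have h3 : A2 * J * N / L ≤ A2 * c1 * N := by
      rw [div_le_iff₀ hL']
      have : A2 * J * N ≤ A2 * (c1 * L) * N := by gcongr
      linarith only [this]
    have h4 : 2 * (A2 * c1 * N) = ε' * N := by
      rw [hc1]
      field_simp
    linarith only [h1, h2, h3, h4]
  set h : ℕ := ⌈L⌉₊ with hh
  have hLh : L ≤ h := Nat.le_ceil L
  have hhθ : (h : ℝ) ≤ θ * L := by
    have h1 : (h : ℝ) < L + 1 := Nat.ceil_lt_add_one hL'.le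
    have h2 : 1 ≤ 1 / L0 * L := by
      rw [one_div, ← div_eq_inv_mul, le_div_iff₀ hL0]
      linarith only [hL]
    rw [hθ]
    linarith only [h1, h2]
  set κ : ℝ := c * L + c * h / c1 with hκ
  have hκ0 : 0 ≤ κ := by positivity
  have cB4 : (B4.card : ℝ) ≤ ε' * N := by
    refine low_final N h κ c c1 A2 θ L ε' (B4.card : ℝ) (idxPairs p N h) hL'
      hLh hhθ hc10 hA2 hε'0 hc0 hκ (hpairs h) hcc ?_
    refine (cs_bound p N B4 (Finset.filter_subset _ _) h).trans ?_
    refine mul_le_mul_of_nonneg_right ?_ (by positivity)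
    refine greedy_right p hp N B4 h κ hκ0 ?_
    intro k hk
    obtain ⟨_, m, hkm, hmN, hlt, hgt⟩ := Finset.mem_filter.1 hk
    refine ⟨m, hkm, hmN.le, ?_⟩
    have h1 : c1 < c * ((m : ℝ) - k) := by
      have : c1 * L < (c * ((m : ℝ) - k)) * L := by linarith only [hlt, hgt]
      exact lt_of_mul_lt_mul_right this hL'.le
    have h2 : (h : ℝ) ≤ c * h / c1 * ((m : ℝ) - k) := by
      have : c * h / c1 * ((m : ℝ) - k) = h * (c * ((m : ℝ) - k) / c1) := by ring
      rw [this]
      have h3 : 1 ≤ c * ((m : ℝ) - k) / c1 := by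
        rw [le_div_iff₀ hc10]
        linarith only [h1]
      have : (0 : ℝ) ≤ h := Nat.cast_nonneg h
      nlinarith only [h3]
    rw [hκ]
    linarith only [hlt, h2]
  have cB5 : (B5.card : ℝ) ≤ ε' * N := by
    refine low_final N h κ c c1 A2 θ L ε' (B5.card : ℝ) (idxPairs p N h) hL'
      hLh hhθ hc10 hA2 hε'0 hc0 hκ (hpairs h) hcc ?_
    refine (cs_bound p N B5 (Finset.filter_subset _ _) h).trans ?_
    refine mul_le_mul_of_nonneg_right ?_ (by positivity)
    refine greedy_left p hp N B5 (Finset.filter_subset _ _) h κ hκ0 ?_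
    intro k hk
    obtain ⟨_, m, hkm, hlt, hgt⟩ := Finset.mem_filter.1 hk
    refine ⟨m, hkm, ?_⟩
    have h1 : c1 < c * ((k : ℝ) - m) := by
      have : c1 * L < (c * ((k : ℝ) - m)) * L := by linarith only [hlt, hgt]
      exact lt_of_mul_lt_mul_right this hL'.le
    have h2 : (h : ℝ) ≤ c * h / c1 * ((k : ℝ) - m) := by
      have : c * h / c1 * ((k : ℝ) - m) = h * (c * ((k : ℝ) - m) / c1) := by ring
      rw [this]
      have h3 : 1 ≤ c * ((k : ℝ) - m) / c1 := by
        rw [le_div_iff₀ hc10]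
        linarith only [h1]
      have : (0 : ℝ) ≤ h := Nat.cast_nonneg h
      nlinarith only [h3]
    rw [hκ]
    linarith only [hlt, h2]
  refine ⟨B1 ∪ B2 ∪ B3 ∪ B4 ∪ B5, ?_, ?_, ?_⟩
  · intro k hk
    simp only [Finset.mem_union] at hk
    rcases hk with (((h | h) | h) | h) | h
    all_goals exact (Finset.mem_filter.1 h).1
  · have h1 := Finset.card_union_le (B1 ∪ B2 ∪ B3 ∪ B4) B5
    have h2 := Finset.card_union_le (B1 ∪ B2 ∪ B3) B4
    have h3 := Finset.card_union_le (B1 ∪ B2) B3
    have h4 := Finset.card_union_le B1 B2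
    have h5 : (B1 ∪ B2 ∪ B3 ∪ B4 ∪ B5).card ≤ B1.card + B2.card + B3.card + B4.card + B5.card := by
      omega
    have h6 : ((B1 ∪ B2 ∪ B3 ∪ B4 ∪ B5).card : ℝ) ≤
        B1.card + B2.card + B3.card + B4.card + B5.card := by exact_mod_cast h5
    have h7 : 5 * (ε' * N) = ε * N := by rw [hε']; ring
    linarith only [cB1, cB2, cB3, cB4, cB5, h6, h7]
  · intro k hkN hk
    simp only [Finset.mem_union, not_or] at hk
    obtain ⟨⟨⟨⟨n1, n2⟩, n3⟩, n4⟩, n5⟩ := hk
    intro m hm
    rcases lt_trichotomy m k with hlt | heq | hlt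
    · have hpm : (p m : ℝ) < p k := by exact_mod_cast hp hlt
      have hmk : (m : ℝ) < k := by exact_mod_cast hlt
      rw [abs_of_neg (by linarith only [hmk] : (m : ℝ) - k < 0), abs_of_neg (by linarith only [hpm] : (p m : ℝ) - p k < 0)]
      have u : (p k : ℝ) - p m ≤ C * ((k : ℝ) - m) * L := by
        by_contra hcon
        exact n2 (Finset.mem_filter.2 ⟨hkN, m, hlt, not_le.1 hcon⟩)
      have l1 : c1 * L < (p k : ℝ) - p m := by
        by_contra hcon
        refine n3 (Finset.mem_filter.2 ⟨hkN, m, hm, hlt.ne, ?_⟩)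
        rw [abs_of_neg (by linarith only [hpm] : (p m : ℝ) - p k < 0)]
        linarith only [hcon]
      have l2 : c * ((k : ℝ) - m) * L ≤ (p k : ℝ) - p m := by
        by_contra hcon
        exact n5 (Finset.mem_filter.2 ⟨hkN, m, hlt, not_le.1 hcon, l1⟩)
      constructor
      · linarith only [l2]
      · linarith only [u]
    · subst heq
      simp
    · have hpm : (p k : ℝ) < p m := by exact_mod_cast hp hlt
      have hmk : (k : ℝ) < m := by exact_mod_cast hlt
      rw [abs_of_pos (by linarith only [hmk] : (0 : ℝ) < (m : ℝ) - k),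
        abs_of_pos (by linarith only [hpm] : (0 : ℝ) < (p m : ℝ) - p k)]
      have u : (p m : ℝ) - p k ≤ C * ((m : ℝ) - k) * L := by
        by_contra hcon
        exact n1 (Finset.mem_filter.2 ⟨hkN, m, hlt, hm, not_le.1 hcon⟩)
      have l1 : c1 * L < (p m : ℝ) - p k := by
        by_contra hcon
        refine n3 (Finset.mem_filter.2 ⟨hkN, m, hm, hlt.ne', ?_⟩)
        rw [abs_of_pos (by linarith only [hpm] : (0 : ℝ) < (p m : ℝ) - p k)]
        linarith only [hcon]
      have l2 : c * ((m : ℝ) - k) * L ≤ (p m : ℝ) - p k := by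
        by_contra hcon
        exact n4 (Finset.mem_filter.2 ⟨hkN, m, hlt, hm, not_le.1 hcon, l1⟩)
      exact ⟨l2, u⟩

end Pool.Agent.H.MP_711652_nt.BiLip
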