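import Mathlib

set_option autoImplicit false

namespace Pool.Agent.H.MP_711652_nt

open Finset

/-- Average of `f` over the block of length `s` containing `k`. -/
noncomputable def avg (s : ℕ) (f : ℕ → ℝ) (k : ℕ) : ℝ := (∑ i ∈ range s, f (k / s * s + i)) / s

lemma sum_blocks (m s : ℕ) (h : ℕ → ℝ) :
    ∑ k ∈ range (m * s), h k = ∑ q ∈ range m, ∑ i ∈ range s, h (q * s + i) := by
  induction m with
  | zero => simp
  | succ m ih =>
    rw [add_mul, one_mul, sum_range_add, ih, sum_range_succ]

lemma div_block {s q i : ℕ} (hi : i < s) : (q * s + i) / s = q := by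
  have hs : 0 < s := by omega
  rw [Nat.add_comm, Nat.add_mul_div_right _ _ hs, Nat.div_eq_of_lt hi, zero_add]

lemma avg_block {s q i : ℕ} (hi : i < s) (f : ℕ → ℝ) :
    avg s f (q * s + i) = (∑ i ∈ range s, f (q * s + i)) / s := by
  unfold avg
  rw [div_block hi]

lemma avg_nonneg (s : ℕ) (f : ℕ → ℝ) (hf : ∀ k, 0 ≤ f k) (k : ℕ) : 0 ≤ avg s f k := by
  unfold avg
  exact div_nonneg (sum_nonneg fun i _ => hf _) (Nat.cast_nonneg s)

/-- `avg` is a conditional expectation. -/
lemma sum_avg_mul (m s : ℕ) (hs : 0 < s) (f g : ℕ → ℝ) (hg : ∀ q i, i < s → g (q * s + i) = g (q * s)) :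
    ∑ k ∈ range (m * s), avg s f k * g k = ∑ k ∈ range (m * s), f k * g k := by
  rw [sum_blocks, sum_blocks]
  apply sum_congr rfl
  intro q _
  have h1 : ∀ i ∈ range s, avg s f (q * s + i) * g (q * s + i) =
      (∑ i ∈ range s, f (q * s + i)) / s * g (q * s) := by
    intro i hi
    rw [mem_range] at hi
    rw [avg_block hi, hg q i hi]
  have h2 : ∀ i ∈ range s, f (q * s + i) * g (q * s + i) = f (q * s + i) * g (q * s) := by
    intro i hi
    rw [mem_range] at hi
    rw [hg q i hi]
  rw [sum_congr rfl h1, sum_congr rfl h2, sum_const, card_range, nsmul_eq_mul, ← sum_mul]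
  have : (s : ℝ) ≠ 0 := by exact_mod_cast hs.ne'
  field_simp

lemma avg_const_block {s t : ℕ} (ht : 0 < t) (hs : 0 < s) (f : ℕ → ℝ) (q i : ℕ) (hi : i < s) :
    avg (t * s) f (q * s + i) = avg (t * s) f (q * s) := by
  unfold avg
  have h1 : (q * s + i) / (t * s) = q * s / (t * s) := by
    rw [mul_comm t s, ← Nat.div_div_eq_div_mul, ← Nat.div_div_eq_div_mul, div_block hi,
      Nat.mul_div_cancel _ hs]
  rw [h1]

/-- Energy at scale `s`. -/
noncomputable def En (s : ℕ) (f : ℕ → ℝ) (M : ℕ) : ℝ := ∑ k ∈ range M, (avg s f k) ^ 2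

lemma En_eq (m s t : ℕ) (hs : 0 < s) (ht : 0 < t) (f : ℕ → ℝ) :
    ∑ k ∈ range (m * (t * s)), avg s f k * avg (t * s) f k = En (t * s) f (m * (t * s)) := by
  have h1 : ∑ k ∈ range (m * (t * s)), avg s f k * avg (t * s) f k =
      ∑ k ∈ range (m * (t * s)), f k * avg (t * s) f k := by
    have := sum_avg_mul (m * t) s hs f (avg (t * s) f) (fun q i hi => avg_const_block ht hs f q i hi)
    rw [mul_assoc] at this
    exact this
  have h2 : En (t * s) f (m * (t * s)) = ∑ k ∈ range (m * (t * s)), f k * avg (t * s) f k := by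
    unfold En
    have := sum_avg_mul m (t * s) (Nat.mul_pos ht hs) f (avg (t * s) f) (by
      intro q i hi
      rw [avg_block hi]
      have h0 : avg (t * s) f (q * (t * s)) = avg (t * s) f (q * (t * s) + 0) := by rw [add_zero]
      rw [h0, avg_block (Nat.mul_pos ht hs)])
    rw [← this]
    apply sum_congr rfl
    intro k _
    rw [sq]
  rw [h1, h2]

/-- Pythagoras. -/
lemma En_sub (m s t : ℕ) (hs : 0 < s) (ht : 0 < t) (f : ℕ → ℝ) :
    ∑ k ∈ range (m * (t * s)), (avg s f k - avg (t * s) f k) ^ 2 =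
      En s f (m * (t * s)) - En (t * s) f (m * (t * s)) := by
  have h1 := En_eq m s t hs ht f
  have h2 : ∀ k ∈ range (m * (t * s)), (avg s f k - avg (t * s) f k) ^ 2 =
      (avg s f k) ^ 2 - 2 * (avg s f k * avg (t * s) f k) + (avg (t * s) f k) ^ 2 := by
    intro k _; ring
  rw [sum_congr rfl h2, sum_add_distrib, sum_sub_distrib, ← mul_sum, h1]
  unfold En
  ring

lemma avg_one (f : ℕ → ℝ) (k : ℕ) : avg 1 f k = f k := by
  unfold avg; simp

lemma En_le (m s : ℕ) (hs : 0 < s) (f : ℕ → ℝ) :
    En s f (m * s) ≤ ∑ k ∈ range (m * s), (f k) ^ 2 := by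
  have h1 := En_sub m 1 s Nat.one_pos hs f
  rw [mul_one] at h1
  have h2 : En 1 f (m * s) = ∑ k ∈ range (m * s), (f k) ^ 2 := by
    unfold En
    apply sum_congr rfl
    intro k _
    rw [avg_one]
  rw [h2] at h1
  have h3 : 0 ≤ ∑ k ∈ range (m * s), (avg 1 f k - avg s f k) ^ 2 := sum_nonneg fun k _ => sq_nonneg _
  linarith

lemma En_anti (M s T : ℕ) (hs : 0 < s) (hsT : s ∣ T) (hTM : T ∣ M) (hM : 0 < M) (f : ℕ → ℝ) :
    En T f M ≤ En s f M := by
  obtain ⟨m, rfl⟩ := hTM
  obtain ⟨t, rfl⟩ := hsT
  have ht : 0 < t := by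
    rcases Nat.eq_zero_or_pos t with h | h
    · subst h; simp at hM
    · exact h
  have h1 := En_sub m s t hs ht f
  have h3 : 0 ≤ ∑ k ∈ range (m * (t * s)), (avg s f k - avg (t * s) f k) ^ 2 :=
    sum_nonneg fun k _ => sq_nonneg _
  have h4 : s * t * m = m * (t * s) := by ring
  have h5 : s * t = t * s := mul_comm _ _
  rw [h4, h5]
  linarith

lemma En_sub' (M s T : ℕ) (hs : 0 < s) (hsT : s ∣ T) (hTM : T ∣ M) (hM : 0 < M) (f : ℕ → ℝ) :
    ∑ k ∈ range M, (avg s f k - avg T f k) ^ 2 = En s f M - En T f M := by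
  obtain ⟨m, rfl⟩ := hTM
  obtain ⟨t, rfl⟩ := hsT
  have ht : 0 < t := by
    rcases Nat.eq_zero_or_pos t with h | h
    · subst h; simp at hM
    · exact h
  have h1 := En_sub m s t hs ht f
  have h4 : s * t * m = m * (t * s) := by ring
  have h5 : s * t = t * s := mul_comm _ _
  rw [h4, h5]
  exact h1

lemma En_nonneg (s : ℕ) (f : ℕ → ℝ) (M : ℕ) : 0 ≤ En s f M := sum_nonneg fun _ _ => sq_nonneg _

/-- Energy increments along a chain of scales sum up to at most the total energy. -/
lemma chain_sum (M J : ℕ) (s T : ℕ → ℕ) (hM : 0 < M) (f : ℕ → ℝ)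
    (hs : ∀ i, i < J → 0 < s i) (hsT : ∀ i, i < J → s i ∣ T i) (hTM : ∀ i, i < J → T i ∣ M)
    (hTs : ∀ i, i + 1 < J → T i ∣ s (i + 1)) :
    ∑ i ∈ range J, (En (s i) f M - En (T i) f M) ≤ ∑ k ∈ range M, (f k) ^ 2 := by
  have h1 : ∀ n, n + 1 ≤ J → ∑ i ∈ range (n + 1), (En (s i) f M - En (T i) f M) ≤
      En (s 0) f M - En (T n) f M := by
    intro n
    induction n with
    | zero => intro _; simp
    | succ n ih =>
      intro hn
      rw [sum_range_succ]
      have h2 := ih (by omega)
      have hTn : 0 < T n := by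
        obtain ⟨a, ha⟩ := hTM n (by omega)
        rcases Nat.eq_zero_or_pos (T n) with h | h
        · rw [h, zero_mul] at ha; omega
        · exact h
      have h3 := En_anti M (T n) (s (n + 1)) hTn (hTs n (by omega))
        ((hsT (n + 1) (by omega)).trans (hTM (n + 1) (by omega))) hM f
      linarith
  rcases Nat.eq_zero_or_pos J with hJ | hJ
  · subst hJ
    simp only [range_zero, sum_empty]
    exact sum_nonneg fun _ _ => sq_nonneg _
  · obtain ⟨n, rfl⟩ := Nat.exists_eq_succ_of_ne_zero hJ.ne'
    have h2 := h1 n le_rfl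
    have h3 := En_nonneg (T n) f M
    have hd : s 0 ∣ M := (hsT 0 hJ).trans (hTM 0 hJ)
    obtain ⟨m, hm⟩ := hd
    have h4 := En_le m (s 0) (hs 0 hJ) f
    rw [mul_comm m, ← hm] at h4
    exact h2.trans (by linarith)

/-- Pigeonhole: few scales with a large energy increment. -/
lemma chain_pigeonhole (M J : ℕ) (s T : ℕ → ℕ) (hM : 0 < M) (f : ℕ → ℝ) (η : ℝ) (hη : 0 < η)
    (hs : ∀ i, i < J → 0 < s i) (hsT : ∀ i, i < J → s i ∣ T i) (hTM : ∀ i, i < J → T i ∣ M)
    (hTs : ∀ i, i + 1 < J → T i ∣ s (i + 1)) :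
    (((range J).filter (fun i => η < En (s i) f M - En (T i) f M)).card : ℝ) * η ≤
      ∑ k ∈ range M, (f k) ^ 2 := by
  have h1 := chain_sum M J s T hM f hs hsT hTM hTs
  have h2 : (((range J).filter (fun i => η < En (s i) f M - En (T i) f M)).card : ℝ) * η ≤
      ∑ i ∈ (range J).filter (fun i => η < En (s i) f M - En (T i) f M),
        (En (s i) f M - En (T i) f M) := by
    rw [← nsmul_eq_mul, ← sum_const]
    apply sum_le_sum
    intro i hi
    exact (mem_filter.1 hi).2.le
  have h3 : ∑ i ∈ (range J).filter (fun i => η < En (s i) f M - En (T i) f M),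
        (En (s i) f M - En (T i) f M) ≤ ∑ i ∈ range J, (En (s i) f M - En (T i) f M) := by
    apply sum_le_sum_of_subset_of_nonneg (filter_subset _ _)
    intro i hi _
    rw [mem_range] at hi
    have := En_anti M (s i) (T i) (hs i hi) (hsT i hi) (hTM i hi) hM f
    linarith
  linarith

/-- right maximal inequality -/
lemma max_right (M : ℕ) (g : ℕ → ℝ) (hg : ∀ k, 0 ≤ g k) (hgM : ∀ k, M ≤ k → g k = 0) (θ : ℝ) (hθ : 0 < θ)
    (E : Finset ℕ) (hE : ∀ k ∈ E, ∃ n : ℕ, θ * n < ∑ j ∈ Ico k (k + n), g j) (d a : ℕ)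
    (had : a + d = M) :
    θ * ((E.filter (fun k => a ≤ k ∧ k < M)).card : ℝ) ≤ ∑ j ∈ Ico a M, g j := by
  induction d using Nat.strong_induction_on generalizing a with
  | _ d ih =>
    rcases Nat.eq_zero_or_pos d with hd | hd
    · have h1 : E.filter (fun k => a ≤ k ∧ k < M) = ∅ := by
        apply filter_false_of_mem
        intro k _
        omega
      rw [h1]
      simp only [card_empty, Nat.cast_zero, mul_zero]
      exact sum_nonneg fun k _ => hg k
    · by_cases haE : a ∈ E
      · obtain ⟨n, hn⟩ := hE a haE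
        have hn0 : 0 < n := by
          rcases Nat.eq_zero_or_pos n with h | h
          · subst h; simp at hn
          · exact h
        by_cases hnM : a + n ≤ M
        · have h1 := ih (d - n) (by omega) (a + n) (by omega)
          have h2 : ((E.filter (fun k => a ≤ k ∧ k < M)).card : ℝ) ≤
              n + ((E.filter (fun k => a + n ≤ k ∧ k < M)).card : ℝ) := by
            have hsub : E.filter (fun k => a ≤ k ∧ k < M) ⊆
                Ico a (a + n) ∪ E.filter (fun k => a + n ≤ k ∧ k < M) := by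
              intro k hk
              rw [mem_filter] at hk
              rw [mem_union, mem_Ico, mem_filter]
              by_cases h : k < a + n
              · left; omega
              · right; exact ⟨hk.1, by omega⟩
            have h3 := (card_le_card hsub).trans (card_union_le _ _)
            rw [Nat.card_Ico] at h3
            have h4 : (E.filter (fun k => a ≤ k ∧ k < M)).card ≤
                n + (E.filter (fun k => a + n ≤ k ∧ k < M)).card := by omega
            exact_mod_cast h4
          have h5 : ∑ j ∈ Ico a M, g j = ∑ j ∈ Ico a (a + n), g j + ∑ j ∈ Ico (a + n) M, g j :=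
            (sum_Ico_consecutive g (by omega) hnM).symm
          rw [h5]
          calc θ * ((E.filter (fun k => a ≤ k ∧ k < M)).card : ℝ) ≤
              θ * (n + ((E.filter (fun k => a + n ≤ k ∧ k < M)).card : ℝ)) := by gcongr
            _ = θ * n + θ * ((E.filter (fun k => a + n ≤ k ∧ k < M)).card : ℝ) := by ring
            _ ≤ _ := by linarith
        · have h1 : ∑ j ∈ Ico a (a + n), g j = ∑ j ∈ Ico a M, g j := by
            rw [← sum_Ico_consecutive g (by omega : a ≤ M) (by omega : M ≤ a + n)]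
            have : ∑ j ∈ Ico M (a + n), g j = 0 := by
              apply sum_eq_zero
              intro j hj
              exact hgM j (mem_Ico.1 hj).1
            rw [this, add_zero]
          have h2 : ((E.filter (fun k => a ≤ k ∧ k < M)).card : ℝ) ≤ n := by
            have hsub : E.filter (fun k => a ≤ k ∧ k < M) ⊆ Ico a M := by
              intro k hk
              rw [mem_filter] at hk
              rw [mem_Ico]; exact hk.2
            have h3 := card_le_card hsub
            rw [Nat.card_Ico] at h3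
            have h4 : (E.filter (fun k => a ≤ k ∧ k < M)).card ≤ n := by omega
            exact_mod_cast h4
          rw [← h1]
          calc θ * ((E.filter (fun k => a ≤ k ∧ k < M)).card : ℝ) ≤ θ * n := by gcongr
            _ ≤ _ := hn.le
      · have h1 := ih (d - 1) (by omega) (a + 1) (by omega)
        have h2 : E.filter (fun k => a ≤ k ∧ k < M) = E.filter (fun k => a + 1 ≤ k ∧ k < M) := by
          apply filter_congr
          intro k hk
          have : k ≠ a := fun h => haE (h ▸ hk)
          omega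
        have h3 : ∑ j ∈ Ico (a + 1) M, g j ≤ ∑ j ∈ Ico a M, g j := by
          apply sum_le_sum_of_subset_of_nonneg
          · intro j hj
            rw [mem_Ico] at hj ⊢
            omega
          · intro j _ _; exact hg j
        rw [h2]
        linarith

/-- left maximal inequality -/
lemma max_left (g : ℕ → ℝ) (hg : ∀ k, 0 ≤ g k) (θ : ℝ) (hθ : 0 < θ)
    (E : Finset ℕ) (hE : ∀ k ∈ E, ∃ n : ℕ, 0 < n ∧ θ * n < ∑ j ∈ Ico (k + 1 - n) (k + 1), g j) (a : ℕ) :
    θ * ((E.filter (fun k => k < a)).card : ℝ) ≤ ∑ j ∈ range a, g j := by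
  induction a using Nat.strong_induction_on with
  | _ a ih =>
    rcases Nat.eq_zero_or_pos a with ha | ha
    · subst ha; simp
    · by_cases haE : a - 1 ∈ E
      · obtain ⟨n, hn0, hn⟩ := hE _ haE
        have ha1 : a - 1 + 1 = a := by omega
        rw [ha1] at hn
        have h1 := ih (a - n) (by omega)
        have h2 : ((E.filter (fun k => k < a)).card : ℝ) ≤
            n + ((E.filter (fun k => k < a - n)).card : ℝ) := by
          have hsub : E.filter (fun k => k < a) ⊆ Ico (a - n) a ∪ E.filter (fun k => k < a - n) := by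
            intro k hk
            rw [mem_filter] at hk
            rw [mem_union, mem_Ico, mem_filter]
            by_cases h : k < a - n
            · right; exact ⟨hk.1, h⟩
            · left; omega
          have h3 := (card_le_card hsub).trans (card_union_le _ _)
          rw [Nat.card_Ico] at h3
          have h4 : (E.filter (fun k => k < a)).card ≤ n + (E.filter (fun k => k < a - n)).card := by
            omega
          exact_mod_cast h4
        have h5 : ∑ j ∈ range a, g j = ∑ j ∈ range (a - n), g j + ∑ j ∈ Ico (a - n) a, g j := by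
          rw [range_eq_Ico, range_eq_Ico, sum_Ico_consecutive g (by omega) (by omega)]
        rw [h5]
        calc θ * ((E.filter (fun k => k < a)).card : ℝ) ≤
            θ * (n + ((E.filter (fun k => k < a - n)).card : ℝ)) := by gcongr
          _ = θ * n + θ * ((E.filter (fun k => k < a - n)).card : ℝ) := by ring
          _ ≤ _ := by linarith
      · have h1 := ih (a - 1) (by omega)
        have h2 : E.filter (fun k => k < a) = E.filter (fun k => k < a - 1) := by
          apply filter_congr
          intro k hk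
          have : k ≠ a - 1 := fun h => haE (h ▸ hk)
          omega
        have h3 : ∑ j ∈ range (a - 1), g j ≤ ∑ j ∈ range a, g j := by
          apply sum_le_sum_of_subset_of_nonneg
          · intro j hj
            rw [mem_range] at hj ⊢
            omega
          · intro j _ _; exact hg j
        rw [h2]
        linarith

open Classical in
/-- two-sided maximal inequality -/
lemma max_two (M : ℕ) (g : ℕ → ℝ) (hg : ∀ k, 0 ≤ g k) (hgM : ∀ k, M ≤ k → g k = 0) (θ : ℝ) (hθ : 0 < θ) :
    θ * (((range M).filter (fun k => ∃ ρ : ℕ, θ * (2 * ρ + 1) < ∑ j ∈ Icc (k - ρ) (k + ρ), g j)).card : ℝ)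
      ≤ 4 * ∑ j ∈ range M, g j := by
  set E := (range M).filter (fun k => ∃ ρ : ℕ, θ * (2 * ρ + 1) < ∑ j ∈ Icc (k - ρ) (k + ρ), g j) with hE
  set E1 := (range M).filter (fun k => ∃ n : ℕ, θ / 2 * n < ∑ j ∈ Ico k (k + n), g j) with hE1
  set E2 := (range M).filter (fun k => ∃ n : ℕ, 0 < n ∧ θ / 2 * n < ∑ j ∈ Ico (k + 1 - n) (k + 1), g j) with hE2
  have hsub : E ⊆ E1 ∪ E2 := by
    intro k hk
    rw [hE, mem_filter] at hk
    obtain ⟨hkM, ρ, hρ⟩ := hk
    rw [mem_union, hE1, hE2, mem_filter, mem_filter]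
    by_contra hcon
    push Not at hcon
    obtain ⟨hc1, hc2⟩ := hcon
    have h1 := hc1 hkM (ρ + 1)
    have h2 := hc2 hkM (ρ + 1) (by omega)
    have h3 : ∑ j ∈ Icc (k - ρ) (k + ρ), g j ≤
        ∑ j ∈ Ico k (k + (ρ + 1)), g j + ∑ j ∈ Ico (k + 1 - (ρ + 1)) (k + 1), g j := by
      have hs : Icc (k - ρ) (k + ρ) ⊆ Ico k (k + (ρ + 1)) ∪ Ico (k + 1 - (ρ + 1)) (k + 1) := by
        intro j hj
        rw [mem_Icc] at hj
        rw [mem_union, mem_Ico, mem_Ico]
        omega
      refine (sum_le_sum_of_subset_of_nonneg hs (fun j _ _ => hg j)).trans ?_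
      have := sum_union_inter (s₁ := Ico k (k + (ρ + 1))) (s₂ := Ico (k + 1 - (ρ + 1)) (k + 1)) (f := g)
      have h0 : 0 ≤ ∑ j ∈ Ico k (k + (ρ + 1)) ∩ Ico (k + 1 - (ρ + 1)) (k + 1), g j :=
        sum_nonneg fun j _ => hg j
      linarith
    rw [Nat.cast_add, Nat.cast_one] at h1 h2
    have hρ0 : (0 : ℝ) ≤ ρ := Nat.cast_nonneg ρ
    nlinarith
  have h1 := max_right M g hg hgM (θ / 2) (by linarith) E1 (fun k hk => (mem_filter.1 hk).2) M 0 (by omega)
  have h2 := max_left g hg (θ / 2) (by linarith) E2 (fun k hk => (mem_filter.1 hk).2) M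
  have h3 : E1.filter (fun k => 0 ≤ k ∧ k < M) = E1 := by
    apply filter_true_of_mem
    intro k hk
    rw [hE1, mem_filter, mem_range] at hk
    exact ⟨Nat.zero_le _, hk.1⟩
  have h4 : E2.filter (fun k => k < M) = E2 := by
    apply filter_true_of_mem
    intro k hk
    rw [hE2, mem_filter, mem_range] at hk
    exact hk.1
  rw [h3, ← range_eq_Ico] at h1
  rw [h4] at h2
  have h5 : (E.card : ℝ) ≤ E1.card + E2.card := by
    exact_mod_cast (card_le_card hsub).trans (card_union_le _ _)
  nlinarith

end Pool.Agent.H.MP_711652_nt
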