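import Mathlib
import Pool.Agent.H.MP_711652_nt.PairSieve
import Pool.Agent.H.MP_711652_nt.BiLip

set_option autoImplicit false

namespace Pool.Agent.H.MP_711652_nt.BiLip

open Finset

/-- the `n`-th prime (`pr 0 = 2`) -/
noncomputable abbrev pr (n : ℕ) : ℕ := Nat.nth Nat.Prime n

lemma pr_strictMono : StrictMono pr := Nat.nth_strictMono Nat.infinite_setOfPred_prime

lemma pi_pr (m : ℕ) : Nat.primeCounting (pr m) = m + 1 := by
  rw [Nat.primeCounting_eq_primeCounting'_succ, Nat.primeCounting', Nat.count_succ,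
    if_pos (Nat.prime_nth_prime m)]
  have := Nat.primeCounting'_nth_eq m
  rw [Nat.primeCounting'] at this
  rw [this]

lemma log_le_sqrt {t : ℝ} (ht : 0 < t) : Real.log t ≤ Real.sqrt t := by
  have h0 : 0 < Real.sqrt t := Real.sqrt_pos.2 ht
  have h1 : Real.log t = 2 * Real.log (Real.sqrt t) := by
    rw [Real.log_sqrt ht.le]; ring
  have h2 : Real.log (Real.sqrt t) = Real.log (Real.sqrt t / 2) + Real.log 2 := by
    rw [← Real.log_mul (by positivity) (by norm_num)]
    congr 1
    ring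
  have h3 := Real.log_le_sub_one_of_pos (x := Real.sqrt t / 2) (by positivity)
  have h4 := Real.log_two_lt_d9
  linarith

/-- Chebyshev lower bound for the `m`-th prime -/
lemma pr_lower (m : ℕ) : ((m : ℝ) + 1) * Real.log (m + 2) ≤ 4 * pr m := by
  have h2 : m + 2 ≤ pr m := Nat.add_two_le_nth_prime m
  have h2' : (m : ℝ) + 2 ≤ pr m := by exact_mod_cast h2
  set x : ℝ := (pr m : ℝ) with hx
  have hm0 : (0 : ℝ) ≤ m := Nat.cast_nonneg m
  have hx1 : 1 < x := by linarith
  have hx0 : 0 < x := by linarith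
  have h3 := Chebyshev.pi_le_log4_mul_div (x := x) hx1
  rw [hx, Nat.floor_natCast, pi_pr, ← hx, Real.log_sqrt hx0.le] at h3
  have hlogx : 0 < Real.log x := Real.log_pos hx1
  have h4 : Real.log 4 ≤ 1.3864 := by
    have : Real.log 4 = 2 * Real.log 2 := by
      rw [show (4 : ℝ) = 2 ^ 2 by norm_num, Real.log_pow]; norm_num
    have := Real.log_two_lt_d9
    linarith
  have h5 := log_le_sqrt hx0
  have h6 : Real.sqrt x * Real.sqrt x = x := Real.mul_self_sqrt hx0.le
  have h7 : (((m + 1 : ℕ) : ℝ)) * Real.log x ≤ 4 * x := by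
    have h8 : (((m + 1 : ℕ) : ℝ)) * Real.log x ≤
        (Real.log 4 * x / (Real.log x / 2) + Real.sqrt x) * Real.log x := by gcongr
    refine h8.trans ?_
    have h9 : (Real.log 4 * x / (Real.log x / 2) + Real.sqrt x) * Real.log x =
        2 * Real.log 4 * x + Real.sqrt x * Real.log x := by
      field_simp
    rw [h9]
    have h10 : Real.sqrt x * Real.log x ≤ x := by
      calc Real.sqrt x * Real.log x ≤ Real.sqrt x * Real.sqrt x := by gcongr
        _ = x := h6
    nlinarith
  have h8 : Real.log ((m : ℝ) + 2) ≤ Real.log x := Real.log_le_log (by linarith) h2'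
  calc ((m : ℝ) + 1) * Real.log (m + 2) ≤ ((m : ℝ) + 1) * Real.log x := by gcongr
    _ = (((m + 1 : ℕ) : ℝ)) * Real.log x := by push_cast; ring
    _ ≤ 4 * x := h7

/-- Chebyshev upper bound for the `m`-th prime -/
lemma pr_upper (m : ℕ) : (pr m : ℝ) ≤ 12 * ((m : ℝ) + 1) * Real.log (m + 2) := by
  have h2 : m + 2 ≤ pr m := Nat.add_two_le_nth_prime m
  have h2' : (m : ℝ) + 2 ≤ pr m := by exact_mod_cast h2
  have h3 := Chebyshev.pi_ge (pr m)
  rw [pi_pr] at h3
  set x : ℝ := (pr m : ℝ) with hx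
  have hm0 : (0 : ℝ) ≤ m := Nat.cast_nonneg m
  have hx2 : 2 ≤ x := by linarith
  have hx1 : 1 < x := by linarith
  have hx0 : 0 < x := by linarith
  have hlogx : 0 < Real.log x := Real.log_pos hx1
  rw [div_le_iff₀ hlogx] at h3
  have hl2 := Real.log_two_gt_d9
  have hmono : Real.log x ≤ Real.log (x + 1) := Real.log_le_log hx0 (by linarith)
  push_cast at h3
  have h4 : x * Real.log 2 ≤ ((m : ℝ) + 2) * Real.log (x + 1) := by nlinarith
  have h5 := log_le_sqrt (t := x + 1) (by linarith)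
  have h6 : x * 0.69 ≤ ((m : ℝ) + 2) * Real.sqrt (x + 1) := by
    calc x * 0.69 ≤ x * Real.log 2 := by gcongr; linarith
      _ ≤ ((m : ℝ) + 2) * Real.log (x + 1) := h4
      _ ≤ _ := by gcongr
  have h7 : (x * 0.69) ^ 2 ≤ ((m : ℝ) + 2) ^ 2 * (x + 1) := by
    calc (x * 0.69) ^ 2 ≤ (((m : ℝ) + 2) * Real.sqrt (x + 1)) ^ 2 := by gcongr
      _ = ((m : ℝ) + 2) ^ 2 * (x + 1) := by
        rw [mul_pow, Real.sq_sqrt (by linarith)]
  have h8 : x * 0.4761 ≤ 1.5 * ((m : ℝ) + 2) ^ 2 := by
    have h9 : (x * 0.69) ^ 2 ≤ (1.5 * ((m : ℝ) + 2) ^ 2) * x := by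
      have : ((m : ℝ) + 2) ^ 2 * (x + 1) ≤ ((m : ℝ) + 2) ^ 2 * (1.5 * x) := by
        gcongr
        linarith
      linarith
    have h10 : (x * 0.4761) * x ≤ (1.5 * ((m : ℝ) + 2) ^ 2) * x := by
      calc (x * 0.4761) * x = (x * 0.69) ^ 2 := by ring
        _ ≤ _ := h9
    exact le_of_mul_le_mul_right h10 hx0
  have h9 : x + 1 ≤ 4 * ((m : ℝ) + 2) ^ 2 := by nlinarith
  have h10 : Real.log (x + 1) ≤ 4 * Real.log ((m : ℝ) + 2) := by
    have h11 : Real.log (x + 1) ≤ Real.log (4 * ((m : ℝ) + 2) ^ 2) :=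
      Real.log_le_log (by linarith) h9
    rw [Real.log_mul (by norm_num) (by positivity), Real.log_pow] at h11
    have h12 : Real.log 4 ≤ 2 * Real.log ((m : ℝ) + 2) := by
      have : Real.log 4 = 2 * Real.log 2 := by
        rw [show (4 : ℝ) = 2 ^ 2 by norm_num, Real.log_pow]; norm_num
      rw [this]
      have : Real.log 2 ≤ Real.log ((m : ℝ) + 2) := Real.log_le_log (by norm_num) (by linarith)
      linarith
    push_cast at h11
    linarith
  have hl0 : 0 ≤ Real.log ((m : ℝ) + 2) := Real.log_nonneg (by linarith)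
  have h11 : x * 0.69 ≤ ((m : ℝ) + 2) * (4 * Real.log ((m : ℝ) + 2)) := by
    calc x * 0.69 ≤ x * Real.log 2 := by gcongr; linarith
      _ ≤ ((m : ℝ) + 2) * Real.log (x + 1) := h4
      _ ≤ _ := by gcongr
  have h12 : ((m : ℝ) + 2) * (4 * Real.log ((m : ℝ) + 2)) ≤
      8 * (((m : ℝ) + 1) * Real.log ((m : ℝ) + 2)) := by nlinarith
  have h13 : 0 ≤ ((m : ℝ) + 1) * Real.log ((m : ℝ) + 2) := by positivity
  nlinarith

lemma idxPairs_le_sum (N J : ℕ) :
    idxPairs pr N J ≤ ∑ h ∈ Icc 1 J, pairs (pr N) h := by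
  classical
  have h1 : ∑ h ∈ Icc 1 J, pairs (pr N) h =
      ((Icc 1 J).sigma (fun h => (range (pr N)).filter
        (fun n => n.Prime ∧ (n + h).Prime))).card := by
    rw [Finset.card_sigma]
    rfl
  rw [h1]
  unfold idxPairs
  refine Finset.card_le_card_of_injOn (fun kl => ⟨pr kl.2 - pr kl.1, pr kl.1⟩) ?_ ?_
  · intro kl hkl
    rw [Finset.mem_coe, Finset.mem_filter, Finset.mem_product, Finset.mem_range,
      Finset.mem_range] at hkl
    obtain ⟨⟨hk, hl⟩, hlt, hle⟩ := hkl
    have h2 := pr_strictMono hlt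
    rw [Finset.mem_coe, Finset.mem_sigma, Finset.mem_Icc, Finset.mem_filter, Finset.mem_range]
    refine ⟨⟨?_, ?_⟩, pr_strictMono hk, Nat.prime_nth_prime _, ?_⟩
    · simp only
      omega
    · simp only
      omega
    · simp only
      rw [Nat.add_sub_cancel' h2.le]
      exact Nat.prime_nth_prime _
  · intro kl hkl kl' hkl' heq
    rw [Finset.mem_coe, Finset.mem_filter] at hkl hkl'
    have h2 := pr_strictMono hkl.2.1
    have h3 := pr_strictMono hkl'.2.1
    simp only [Sigma.mk.injEq, heq_eq_eq] at heq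
    have e1 : kl.1 = kl'.1 := pr_strictMono.injective heq.2
    have e2 : kl.2 = kl'.2 := by
      apply pr_strictMono.injective
      have := heq.1
      have := heq.2
      omega
    exact Prod.ext e1 e2

/-- trivial bound -/
lemma idxPairs_trivial (N J : ℕ) : idxPairs pr N J ≤ J * N := by
  classical
  unfold idxPairs
  have : (range N ×ˢ range N).filter (fun kl => kl.1 < kl.2 ∧ pr kl.2 ≤ pr kl.1 + J) ⊆
      (range N ×ˢ Icc 1 J).image (fun kj => (kj.1, kj.1 + kj.2)) := by
    intro kl hkl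
    rw [Finset.mem_filter, Finset.mem_product, Finset.mem_range, Finset.mem_range] at hkl
    obtain ⟨⟨hk, hl⟩, hlt, hle⟩ := hkl
    rw [Finset.mem_image]
    refine ⟨(kl.1, kl.2 - kl.1), ?_, ?_⟩
    · rw [Finset.mem_product, Finset.mem_range, Finset.mem_Icc]
      have h2 := pr_strictMono.add_le_nat (kl.2 - kl.1) kl.1
      rw [Nat.sub_add_cancel hlt.le] at h2
      refine ⟨hk, ?_, ?_⟩
      · simp only
        omega
      · simp only
        omega
    · simp only
      rw [Nat.add_sub_cancel' hlt.le]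
  refine (Finset.card_le_card this).trans (Finset.card_image_le.trans ?_)
  rw [Finset.card_product, Finset.card_range, Nat.card_Icc, Nat.add_sub_cancel, mul_comm]

lemma pr_upper' (N : ℕ) (hN : 2 ≤ N) : (pr N : ℝ) ≤ 48 * N * Real.log N := by
  have h := pr_upper N
  have hN' : (2 : ℝ) ≤ N := by exact_mod_cast hN
  have h1 : Real.log ((N : ℝ) + 2) ≤ 2 * Real.log N := by
    have h2 : Real.log ((N : ℝ) + 2) ≤ Real.log ((N : ℝ) ^ 2) :=
      Real.log_le_log (by linarith) (by nlinarith)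
    rw [Real.log_pow] at h2
    push_cast at h2
    exact h2
  have h0 : 0 < Real.log (N : ℝ) := Real.log_pos (by linarith)
  have h00 : 0 ≤ Real.log ((N : ℝ) + 2) := Real.log_nonneg (by linarith)
  calc (pr N : ℝ) ≤ 12 * ((N : ℝ) + 1) * Real.log (N + 2) := h
    _ ≤ 12 * (2 * (N : ℝ)) * (2 * Real.log N) := by gcongr; linarith
    _ = 48 * N * Real.log N := by ring

lemma idxPairs_bound : ∃ A2 : ℝ, 0 < A2 ∧ ∀ N : ℕ, 2 ≤ N → ∀ J : ℕ,
    (idxPairs pr N J : ℝ) ≤ A2 * J * N / Real.log N := by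
  refine ⟨Real.exp 6 * 48 * 2704 + 43, by positivity, ?_⟩
  intro N hN J
  have hN' : (2 : ℝ) ≤ N := by exact_mod_cast hN
  have hN0 : (0 : ℝ) < N := by linarith
  set L := Real.log N with hL
  have hL0 : 0 < L := Real.log_pos (by linarith)
  have he : 0 < Real.exp 6 := Real.exp_pos 6
  have hJ0 : (0 : ℝ) ≤ J := Nat.cast_nonneg J
  by_cases hbig : (4 : ℝ) ^ 26 ≤ N
  · set t : ℝ := (N : ℝ) ^ ((1 : ℝ) / 26) with ht
    set y := ⌊t⌋₊ with hy
    have ht0 : 0 < t := Real.rpow_pos_of_pos hN0 _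
    have hlogt : Real.log t = L / 26 := by
      rw [ht, Real.log_rpow hN0]; ring
    have ht26 : t ^ 26 = N := by
      rw [ht, ← Real.rpow_natCast, ← Real.rpow_mul hN0.le]
      norm_num
    have ht4 : 4 ≤ t := by
      by_contra hcon
      have : t ^ 26 < 4 ^ 26 := pow_lt_pow_left₀ (not_le.1 hcon) ht0.le (by norm_num)
      rw [ht26] at this
      linarith
    have hyt : (y : ℝ) ≤ t := Nat.floor_le ht0.le
    have hty : t / 2 ≤ y := by
      have h7 : t < (y : ℝ) + 1 := Nat.lt_floor_add_one t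
      linarith
    have hy2 : 2 ≤ y := by
      have : (2 : ℝ) ≤ y := by linarith
      exact_mod_cast this
    have hlogy : L / 52 ≤ Real.log y := by
      have h5 : Real.sqrt t ≤ y := by
        refine le_trans ?_ hty
        rw [Real.sqrt_le_left (by linarith)]
        nlinarith
      have h6 : Real.log (Real.sqrt t) ≤ Real.log y := Real.log_le_log (Real.sqrt_pos.2 ht0) h5
      rw [Real.log_sqrt ht0.le, hlogt] at h6
      linarith
    have hy12 : (y : ℝ) ^ 12 ≤ Real.sqrt N := by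
      apply Real.le_sqrt_of_sq_le
      have h6 : (y : ℝ) ^ 24 ≤ t ^ 24 := by gcongr
      have h7 : t ^ 24 ≤ t ^ 26 := pow_le_pow_right₀ (by linarith) (by norm_num)
      calc ((y : ℝ) ^ 12) ^ 2 = (y : ℝ) ^ 24 := by rw [← pow_mul]
        _ ≤ (N : ℝ) := by linarith
    have h1 : (idxPairs pr N J : ℝ) ≤ ∑ h ∈ Icc 1 J, (pairs (pr N) h : ℝ) := by
      have := idxPairs_le_sum N J
      exact_mod_cast this
    have h2 := sum_pairs_le (pr N) J y hy2
    have h3 : Real.exp 6 * J * (pr N : ℝ) / (Real.log y) ^ 2 ≤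
        Real.exp 6 * 48 * 2704 * J * N / L := by
      have h11 : 0 < Real.log y := by
        have : 0 < L / 52 := by positivity
        linarith
      have h12 : (L / 52) ^ 2 ≤ (Real.log y) ^ 2 := pow_le_pow_left₀ (by positivity) hlogy 2
      have h13 := pr_upper' N hN
      calc Real.exp 6 * J * (pr N : ℝ) / (Real.log y) ^ 2
          ≤ Real.exp 6 * J * (48 * N * L) / (L / 52) ^ 2 := by gcongr
        _ = Real.exp 6 * 48 * 2704 * J * N / L := by
          field_simp
          ring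
    have h4 : 3 * (J : ℝ) * (y : ℝ) ^ 12 ≤ 3 * J * N / L := by
      have h5 : Real.sqrt N ≤ N / L := by
        rw [le_div_iff₀ hL0]
        have := log_le_sqrt hN0
        calc Real.sqrt N * L ≤ Real.sqrt N * Real.sqrt N := by gcongr
          _ = N := Real.mul_self_sqrt hN0.le
      calc 3 * (J : ℝ) * (y : ℝ) ^ 12 ≤ 3 * (J : ℝ) * (N / L) := by
            gcongr
            linarith
        _ = 3 * J * N / L := by ring
    have h5 : (0 : ℝ) ≤ 40 * J * N / L := by positivity
    calc (idxPairs pr N J : ℝ) ≤ Real.exp 6 * 48 * 2704 * J * N / L + 3 * J * N / L := by linarith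
      _ ≤ Real.exp 6 * 48 * 2704 * J * N / L + 3 * J * N / L + 40 * J * N / L := by linarith
      _ = (Real.exp 6 * 48 * 2704 + 43) * J * N / L := by ring
  · have h1 : (idxPairs pr N J : ℝ) ≤ J * N := by
      have := idxPairs_trivial N J
      exact_mod_cast this
    have h2 : L ≤ 40 := by
      have h3 : L ≤ Real.log ((4 : ℝ) ^ 26) := Real.log_le_log hN0 (not_le.1 hbig).le
      rw [Real.log_pow] at h3
      have h4 : Real.log 4 ≤ 1.3864 := by
        have : Real.log 4 = 2 * Real.log 2 := by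
          rw [show (4 : ℝ) = 2 ^ 2 by norm_num, Real.log_pow]; norm_num
        have := Real.log_two_lt_d9
        linarith
      push_cast at h3
      linarith
    rw [le_div_iff₀ hL0]
    have h3 : (0 : ℝ) ≤ Real.exp 6 * 48 * 2704 + 3 := by positivity
    have h4 : (0 : ℝ) ≤ J * N := by positivity
    calc (idxPairs pr N J : ℝ) * L ≤ (J * N) * 40 := by gcongr
      _ ≤ (Real.exp 6 * 48 * 2704 + 3 + 40) * (J * N) := by nlinarith
      _ = (Real.exp 6 * 48 * 2704 + 43) * J * N := by ring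

/-- the law for the primes up to index `N` -/
theorem prime_law (ε : ℝ) (hε : 0 < ε) :
    ∃ c > 0, ∃ C > 0, ∀ N : ℕ, 2 ≤ N →
      ∃ B ⊆ range N, (B.card : ℝ) ≤ ε * N ∧
        ∀ k ∈ range N, k ∉ B → Good pr N (Real.log N) c C k := by
  obtain ⟨A2, hA2, hP⟩ := idxPairs_bound
  obtain ⟨c, hc, C, hC, h⟩ := abstract_law 48 A2 (Real.log 2) ε (by norm_num) hA2
    (Real.log_pos (by norm_num)) hε
  refine ⟨c, hc, C, hC, fun N hN => ?_⟩
  have hN' : (2 : ℝ) ≤ N := by exact_mod_cast hN
  exact h N (Real.log N) pr pr_strictMono (Real.log_le_log (by norm_num) hN') (pr_upper' N hN)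
    (hP N hN)

end Pool.Agent.H.MP_711652_nt.BiLip
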