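import Mathlib
import Pool.Agent.H.MP_711652_nt.BiLipPrimes

set_option autoImplicit false

namespace Pool.Agent.H.MP_711652_nt.BiLip

open Finset

/-- two-sided bound seen from `k` -/
def Two (c C : ℝ) (k : ℕ) : Prop :=
  ∀ m : ℕ, c * |(m : ℝ) - k| * Real.log (m + k + 2) ≤ |(pr m : ℝ) - pr k| ∧
    |(pr m : ℝ) - pr k| ≤ C * |(m : ℝ) - k| * Real.log (m + k + 2)

lemma two_zero {c C : ℝ} (hc : c ≤ 1 / 12) (hC : 24 ≤ C) : Two c C 0 := by
  intro m
  rcases Nat.eq_zero_or_pos m with rfl | hm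
  · simp
  have hp0 : pr 0 = 2 := Nat.nth_prime_zero_eq_two
  have h1 := pr_lower m
  have h2 := pr_upper m
  have h3 : m + 2 ≤ pr m := Nat.add_two_le_nth_prime m
  have h3' : (m : ℝ) + 2 ≤ pr m := by exact_mod_cast h3
  have hm1 : (1 : ℝ) ≤ m := by exact_mod_cast hm
  have hl : 0 ≤ Real.log ((m : ℝ) + 2) := Real.log_nonneg (by linarith)
  have e1 : |(m : ℝ) - (0 : ℕ)| = m := by
    rw [Nat.cast_zero, sub_zero, abs_of_nonneg (by linarith)]
  have e2 : |(pr m : ℝ) - pr 0| = pr m - 2 := by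
    rw [hp0, abs_of_nonneg (by push_cast; linarith)]
    norm_num
  have e3 : Real.log ((m : ℝ) + (0 : ℕ) + 2) = Real.log ((m : ℝ) + 2) := by
    rw [Nat.cast_zero, add_zero]
  rw [e1, e2, e3]
  have hml : 0 ≤ (m : ℝ) * Real.log ((m : ℝ) + 2) := by positivity
  constructor
  · have h4 : c * m * Real.log ((m : ℝ) + 2) ≤ 1 / 12 * (m * Real.log ((m : ℝ) + 2)) := by
      rw [mul_assoc]
      exact mul_le_mul_of_nonneg_right hc hml
    nlinarith
  · have h4 : 24 * (m * Real.log ((m : ℝ) + 2)) ≤ C * m * Real.log ((m : ℝ) + 2) := by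
      rw [mul_assoc]
      exact mul_le_mul_of_nonneg_right hC hml
    nlinarith

lemma two_far {c C : ℝ} (hc : c ≤ 1 / 12) (hC : 48 ≤ C) (k m M : ℕ) (hM : 1 ≤ M)
    (hk : k < 2 * M) (hm : 384 * M ≤ m) :
    c * |(m : ℝ) - k| * Real.log (m + k + 2) ≤ |(pr m : ℝ) - pr k| ∧
    |(pr m : ℝ) - pr k| ≤ C * |(m : ℝ) - k| * Real.log (m + k + 2) := by
  have h1 := pr_lower m
  have h2 := pr_upper m
  have h3 := pr_upper k
  have hkm : k < m := by omega
  have hpp : (pr k : ℝ) < pr m := by exact_mod_cast pr_strictMono hkm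
  have hkm' : (k : ℝ) < m := by exact_mod_cast hkm
  have hk0 : (0 : ℝ) ≤ k := Nat.cast_nonneg k
  have hk192 : 192 * ((k : ℝ) + 1) ≤ m := by
    have : 192 * (k + 1) ≤ m := by omega
    exact_mod_cast this
  have hl : 0 < Real.log ((m : ℝ) + 2) := Real.log_pos (by linarith)
  have hlk : Real.log ((k : ℝ) + 2) ≤ Real.log ((m : ℝ) + 2) :=
    Real.log_le_log (by linarith) (by linarith)
  have hlk0 : 0 ≤ Real.log ((k : ℝ) + 2) := Real.log_nonneg (by linarith)
  have hl1 : Real.log ((m : ℝ) + 2) ≤ Real.log ((m : ℝ) + k + 2) :=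
    Real.log_le_log (by linarith) (by linarith)
  have hl2 : Real.log ((m : ℝ) + k + 2) ≤ 2 * Real.log ((m : ℝ) + 2) := by
    have : Real.log ((m : ℝ) + k + 2) ≤ Real.log (((m : ℝ) + 2) ^ 2) :=
      Real.log_le_log (by linarith) (by nlinarith)
    rw [Real.log_pow] at this
    push_cast at this
    exact this
  rw [abs_of_pos (by linarith : (0 : ℝ) < (m : ℝ) - k),
    abs_of_pos (by linarith : (0 : ℝ) < (pr m : ℝ) - pr k)]
  have h4 : (pr k : ℝ) ≤ 1 / 16 * (m * Real.log ((m : ℝ) + 2)) := by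
    calc (pr k : ℝ) ≤ 12 * ((k : ℝ) + 1) * Real.log (k + 2) := h3
      _ ≤ 12 * ((k : ℝ) + 1) * Real.log ((m : ℝ) + 2) := by gcongr
      _ ≤ 12 * (m / 192) * Real.log ((m : ℝ) + 2) := by
        gcongr
        linarith
      _ = 1 / 16 * (m * Real.log ((m : ℝ) + 2)) := by ring
  have hmk0 : 0 ≤ ((m : ℝ) - k) := by linarith
  have hllog0 : 0 ≤ Real.log ((m : ℝ) + k + 2) := by linarith
  constructor
  · calc c * ((m : ℝ) - k) * Real.log (m + k + 2)
        ≤ 1 / 12 * ((m : ℝ) - k) * Real.log (m + k + 2) := by gcongr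
      _ ≤ 1 / 12 * (m : ℝ) * (2 * Real.log ((m : ℝ) + 2)) := by
        gcongr
        linarith
      _ = 1 / 6 * (m * Real.log ((m : ℝ) + 2)) := by ring
      _ ≤ (pr m : ℝ) - pr k := by nlinarith
  · calc (pr m : ℝ) - pr k ≤ pr m := by
          have : (0 : ℝ) ≤ pr k := Nat.cast_nonneg _
          linarith
      _ ≤ 12 * ((m : ℝ) + 1) * Real.log (m + 2) := h2
      _ ≤ 12 * (4 * ((m : ℝ) - k)) * Real.log (m + k + 2) := by
        gcongr
        linarith
      _ = 48 * ((m : ℝ) - k) * Real.log (m + k + 2) := by ring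
      _ ≤ C * ((m : ℝ) - k) * Real.log (m + k + 2) := by gcongr

lemma two_near {c C c' C' : ℝ} (hc' : 0 < c') (hC' : 0 < C') (hc : c ≤ c' / 2)
    (hC : 10 * C' ≤ C) (k M : ℕ) (hM : 1 ≤ M)
    (hk1 : M ≤ k) (hk : k < 2 * M)
    (hg : Good pr (384 * M) (Real.log ((384 * M : ℕ) : ℝ)) c' C' k) (m : ℕ) (hm : m < 384 * M) :
    c * |(m : ℝ) - k| * Real.log (m + k + 2) ≤ |(pr m : ℝ) - pr k| ∧
    |(pr m : ℝ) - pr k| ≤ C * |(m : ℝ) - k| * Real.log (m + k + 2) := by
  obtain ⟨g1, g2⟩ := hg m hm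
  set N' : ℕ := 384 * M with hN'
  have hM' : (1 : ℝ) ≤ M := by exact_mod_cast hM
  have hN'c : ((N' : ℕ) : ℝ) = 384 * M := by rw [hN']; push_cast; ring
  have hk0 : (0 : ℝ) ≤ k := Nat.cast_nonneg k
  have hm0 : (0 : ℝ) ≤ m := Nat.cast_nonneg m
  have hkM : (M : ℝ) ≤ k := by exact_mod_cast hk1
  have hsum : ((m : ℝ) + k + 2) ≤ 2 * N' := by
    have : m + k + 2 ≤ 2 * N' := by omega
    exact_mod_cast this
  have hN'2 : (2 : ℝ) ≤ N' := by rw [hN'c]; linarith
  have hlN : 0 < Real.log (N' : ℝ) := Real.log_pos (by linarith)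
  have hl0 : 0 ≤ Real.log ((m : ℝ) + k + 2) := Real.log_nonneg (by linarith)
  have l1 : Real.log ((m : ℝ) + k + 2) ≤ 2 * Real.log N' := by
    have : Real.log ((m : ℝ) + k + 2) ≤ Real.log ((N' : ℝ) ^ 2) :=
      Real.log_le_log (by linarith) (by nlinarith)
    rw [Real.log_pow] at this
    push_cast at this
    exact this
  have l2 : Real.log (N' : ℝ) ≤ 10 * Real.log ((m : ℝ) + k + 2) := by
    have h1 : Real.log (N' : ℝ) ≤ Real.log (((m : ℝ) + k + 2) ^ 10) := by
      apply Real.log_le_log (by linarith)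
      rw [hN'c]
      have h2 : (2 : ℝ) ≤ (m : ℝ) + k + 2 := by linarith
      have h3 : (2 : ℝ) ^ 9 ≤ ((m : ℝ) + k + 2) ^ 9 := by gcongr
      have h4 : (M : ℝ) ≤ (m : ℝ) + k + 2 := by linarith
      calc 384 * (M : ℝ) ≤ (2 : ℝ) ^ 9 * M := by nlinarith
        _ ≤ ((m : ℝ) + k + 2) ^ 9 * ((m : ℝ) + k + 2) := by gcongr
        _ = ((m : ℝ) + k + 2) ^ 10 := by ring
    rw [Real.log_pow] at h1
    push_cast at h1
    exact h1
  have ha : 0 ≤ |(m : ℝ) - k| := abs_nonneg _
  constructor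
  · calc c * |(m : ℝ) - k| * Real.log (m + k + 2)
        ≤ c' / 2 * |(m : ℝ) - k| * Real.log (m + k + 2) := by gcongr
      _ ≤ c' / 2 * |(m : ℝ) - k| * (2 * Real.log N') := by gcongr
      _ = c' * |(m : ℝ) - k| * Real.log N' := by ring
      _ ≤ _ := g1
  · calc |(pr m : ℝ) - pr k| ≤ C' * |(m : ℝ) - k| * Real.log N' := g2
      _ ≤ C' * |(m : ℝ) - k| * (10 * Real.log ((m : ℝ) + k + 2)) := by gcongr
      _ = 10 * C' * |(m : ℝ) - k| * Real.log ((m : ℝ) + k + 2) := by ring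
      _ ≤ C * |(m : ℝ) - k| * Real.log ((m : ℝ) + k + 2) := by gcongr

open Classical in
theorem two_law (ε : ℝ) (hε : 0 < ε) :
    ∃ c > 0, ∃ C > 0, ∀ N : ℕ,
      (((range N).filter (fun k => ¬ Two c C k)).card : ℝ) ≤ ε * N := by
  obtain ⟨c', hc', C', hC', hlaw⟩ := prime_law (ε / 768) (by positivity)
  set c : ℝ := min (c' / 2) (1 / 12) with hc
  set C : ℝ := max (10 * C') 48 with hC
  have hc0 : 0 < c := lt_min (by positivity) (by norm_num)
  have hC0 : 0 < C := lt_of_lt_of_le (by norm_num) (le_max_right _ _)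
  refine ⟨c, hc0, C, hC0, ?_⟩
  have key : ∀ I : ℕ, (((range (2 ^ I)).filter (fun k => ¬ Two c C k)).card : ℝ)
      ≤ ε / 2 * 2 ^ I := by
    intro I
    induction I with
    | zero =>
      have : (range (2 ^ 0)).filter (fun k => ¬ Two c C k) = ∅ := by
        rw [Finset.filter_eq_empty_iff]
        intro k hk
        have : k = 0 := by
          have := Finset.mem_range.1 hk
          omega
        subst this
        rw [not_not]
        exact two_zero (min_le_right _ _) ((by norm_num : (24 : ℝ) ≤ 48).trans (le_max_right _ _))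
      rw [this]
      simp
      positivity
    | succ I ih =>
      have hM1 : 1 ≤ 2 ^ I := Nat.one_le_two_pow
      obtain ⟨B, hBsub, hBcard, hB⟩ := hlaw (384 * 2 ^ I) (by omega)
      have hsub : (range (2 ^ (I + 1))).filter (fun k => ¬ Two c C k) ⊆
          (range (2 ^ I)).filter (fun k => ¬ Two c C k) ∪ B := by
        intro k hk
        rw [Finset.mem_filter, Finset.mem_range, pow_succ] at hk
        rw [Finset.mem_union, Finset.mem_filter, Finset.mem_range]
        by_cases h1 : k < 2 ^ I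
        · exact Or.inl ⟨h1, hk.2⟩
        · right
          by_contra hkB
          apply hk.2
          intro m
          by_cases hm : m < 384 * 2 ^ I
          · exact two_near hc' hC' (min_le_left _ _) (le_max_left _ _) k (2 ^ I) hM1
              (not_lt.1 h1) (by omega) (hB k (Finset.mem_range.2 (by omega)) hkB) m hm
          · exact two_far (min_le_right _ _) (le_max_right _ _) k m (2 ^ I) hM1 (by omega)
              (not_lt.1 hm)
      have h2 := (Finset.card_le_card hsub).trans (Finset.card_union_le _ _)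
      have h3 : (((range (2 ^ (I + 1))).filter (fun k => ¬ Two c C k)).card : ℝ) ≤
          (((range (2 ^ I)).filter (fun k => ¬ Two c C k)).card : ℝ) + (B.card : ℝ) := by
        exact_mod_cast h2
      push_cast at hBcard
      calc (((range (2 ^ (I + 1))).filter (fun k => ¬ Two c C k)).card : ℝ)
          ≤ ε / 2 * 2 ^ I + ε / 768 * (384 * 2 ^ I) := by linarith
        _ = ε / 2 * 2 ^ (I + 1) := by ring
  intro N
  rcases Nat.eq_zero_or_pos N with rfl | hN
  · simp
  -- N ≤ 2^I < 2N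
  obtain ⟨I, hI1, hI2⟩ : ∃ I : ℕ, N ≤ 2 ^ I ∧ 2 ^ I ≤ 2 * N := by
    refine ⟨Nat.log 2 N + 1, (Nat.lt_pow_succ_log_self (by norm_num) N).le, ?_⟩
    rw [pow_succ]
    have := Nat.pow_log_le_self 2 hN.ne'
    omega
  have h1 : (range N).filter (fun k => ¬ Two c C k) ⊆
      (range (2 ^ I)).filter (fun k => ¬ Two c C k) := by
    intro k hk
    rw [Finset.mem_filter, Finset.mem_range] at hk ⊢
    exact ⟨by omega, hk.2⟩
  have h2 : (((range N).filter (fun k => ¬ Two c C k)).card : ℝ) ≤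
      (((range (2 ^ I)).filter (fun k => ¬ Two c C k)).card : ℝ) := by
    exact_mod_cast Finset.card_le_card h1
  have h3 : (2 : ℝ) ^ I ≤ 2 * N := by exact_mod_cast hI2
  have h4 := key I
  calc (((range N).filter (fun k => ¬ Two c C k)).card : ℝ) ≤ ε / 2 * 2 ^ I := by linarith
    _ ≤ ε / 2 * (2 * N) := by gcongr
    _ = ε * N := by ring

lemma gap_of_two {c C : ℝ} (hC : 0 < C) {k : ℕ} (h : Two c C k) (m : ℕ) :
    (pr (m + 1) : ℝ) - pr m ≤ 2 * C * (|(m : ℝ) - k| + 1) * Real.log (m + k + 2) := by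
  have hm0 : (0 : ℝ) ≤ m := Nat.cast_nonneg m
  have hk0 : (0 : ℝ) ≤ k := Nat.cast_nonneg k
  have hl0 : 0 < Real.log ((m : ℝ) + k + 2) := Real.log_pos (by linarith)
  have ha : 0 ≤ |(m : ℝ) - k| := abs_nonneg _
  rcases lt_or_ge m k with hlt | hge
  · have h1 := (h m).2
    have h2 : (pr (m + 1) : ℝ) ≤ pr k := by exact_mod_cast pr_strictMono.monotone hlt
    have h3 : (pr k : ℝ) - pr m ≤ |(pr m : ℝ) - pr k| := by
      rw [abs_sub_comm]
      exact le_abs_self _
    calc (pr (m + 1) : ℝ) - pr m ≤ C * |(m : ℝ) - k| * Real.log (m + k + 2) := by linarith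
      _ ≤ (2 * C) * (|(m : ℝ) - k| + 1) * Real.log (m + k + 2) := by
        gcongr
        · linarith
        · linarith
  · have h1 := (h (m + 1)).2
    have h2 : (pr k : ℝ) ≤ pr m := by exact_mod_cast pr_strictMono.monotone hge
    have h3 : (pr (m + 1) : ℝ) - pr k ≤ |(pr (m + 1) : ℝ) - pr k| := le_abs_self _
    have hge' : (k : ℝ) ≤ m := by exact_mod_cast hge
    push_cast at h1
    have h4 : |(m : ℝ) + 1 - k| = |(m : ℝ) - k| + 1 := by
      rw [abs_of_nonneg (by linarith), abs_of_nonneg (by linarith)]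
      ring
    have h5 : Real.log ((m : ℝ) + 1 + k + 2) ≤ 2 * Real.log ((m : ℝ) + k + 2) := by
      have : Real.log ((m : ℝ) + 1 + k + 2) ≤ Real.log (((m : ℝ) + k + 2) ^ 2) :=
        Real.log_le_log (by linarith) (by nlinarith)
      rw [Real.log_pow] at this
      push_cast at this
      exact this
    rw [h4] at h1
    calc (pr (m + 1) : ℝ) - pr m ≤ C * (|(m : ℝ) - k| + 1) * Real.log ((m : ℝ) + 1 + k + 2) := by
          linarith
      _ ≤ C * (|(m : ℝ) - k| + 1) * (2 * Real.log ((m : ℝ) + k + 2)) := by gcongr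
      _ = 2 * C * (|(m : ℝ) - k| + 1) * Real.log (m + k + 2) := by ring

end Pool.Agent.H.MP_711652_nt.BiLip
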