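import Mathlib
import Pool.Agent.H.MP_711652_nt.BiLipFinal

set_option autoImplicit false

namespace Pool.Agent.H.MP_711652_nt.BiLip

open Finset

lemma tele (p : ℕ → ℕ) (hp : StrictMono p) (d : ℝ) (S : Finset ℕ) (k m : ℕ) (hkm : k ≤ m)
    (hd : ∀ i, k ≤ i → i < m → i ∉ S → d ≤ (p (i + 1) : ℝ) - p i) :
    d * (((Ico k m).filter (fun i => i ∉ S)).card : ℝ) ≤ (p m : ℝ) - p k := by
  induction m, hkm using Nat.le_induction with
  | base => simp
  | succ m hkm ih =>
    have ih' := ih (fun i h1 h2 h3 => hd i h1 (by omega) h3)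
    have hmono : (p m : ℝ) ≤ p (m + 1) := by exact_mod_cast (hp (Nat.lt_succ_self m)).le
    have hins : Ico k (m + 1) = insert m (Ico k m) := by
      ext i
      rw [mem_insert, mem_Ico, mem_Ico]
      omega
    by_cases h : m ∈ S
    · rw [hins, filter_insert, if_neg (not_not.2 h)]
      linarith
    · rw [hins, filter_insert, if_pos h, card_insert_of_notMem (by simp)]
      push_cast
      have := hd m hkm (Nat.lt_succ_self m) h
      linarith

lemma win (p : ℕ → ℕ) (hp : StrictMono p) (L t : ℝ) (hL : 0 < L) (ht : 0 < t) (S : Finset ℕ)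
    (k m : ℕ) (hkm : k < m)
    (hd : ∀ i, k ≤ i → i < m → i ∉ S → 2 * (L / t) ≤ (p (i + 1) : ℝ) - p i)
    (hlt : (p m : ℝ) - p k < 1 / t * ((m : ℝ) - k) * L) :
    ((m : ℝ) - k) ≤ 2 * ((S.filter (fun i => i < m)).card : ℝ) -
      2 * ((S.filter (fun i => i < k)).card : ℝ) := by
  classical
  have h1 := tele p hp (2 * (L / t)) S k m hkm.le hd
  have hLt : 0 < L / t := by positivity
  have h2 : ((Ico k m).filter (fun i => i ∈ S)).card + ((Ico k m).filter (fun i => i ∉ S)).card =
      m - k := by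
    rw [Finset.card_filter_add_card_filter_not, Nat.card_Ico]
  have h3 : (((Ico k m).filter (fun i => i ∈ S)).card : ℝ) +
      (((Ico k m).filter (fun i => i ∉ S)).card : ℝ) = (m : ℝ) - k := by
    rw [← Nat.cast_sub hkm.le, ← h2]
    push_cast
    ring
  have h4 : (S.filter (fun i => i < k)).card + ((Ico k m).filter (fun i => i ∈ S)).card =
      (S.filter (fun i => i < m)).card := by
    rw [← card_union_of_disjoint]
    · congr 1
      ext i
      simp only [mem_union, mem_filter, mem_Ico]
      constructor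
      · rintro (⟨h5, h6⟩ | ⟨⟨h5, h6⟩, h7⟩)
        · exact ⟨h5, by omega⟩
        · exact ⟨h7, h6⟩
      · rintro ⟨h5, h6⟩
        by_cases h7 : i < k
        · exact Or.inl ⟨h5, h7⟩
        · exact Or.inr ⟨⟨by omega, h6⟩, h5⟩
    · rw [disjoint_left]
      intro i hi hi'
      rw [mem_filter] at hi hi'
      rw [mem_Ico] at hi'
      omega
  have h5 : ((S.filter (fun i => i < k)).card : ℝ) + (((Ico k m).filter (fun i => i ∈ S)).card : ℝ) =
      ((S.filter (fun i => i < m)).card : ℝ) := by exact_mod_cast h4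
  have h6 : 1 / t * ((m : ℝ) - k) * L = L / t * ((m : ℝ) - k) := by
    field_simp
  rw [h6] at hlt
  have h7 : 2 * (((Ico k m).filter (fun i => i ∉ S)).card : ℝ) < (m : ℝ) - k := by
    have : L / t * (2 * (((Ico k m).filter (fun i => i ∉ S)).card : ℝ)) <
        L / t * ((m : ℝ) - k) := by linarith
    exact lt_of_mul_lt_mul_left this hLt.le
  linarith

theorem quant_law (A1 A2 : ℝ) (hA1 : 0 < A1) (hA2 : 0 < A2) (N : ℕ) (L t : ℝ) (p : ℕ → ℕ)
    (hp : StrictMono p) (hL : 0 < L) (ht : 0 < t)
    (hpN : (p N : ℝ) ≤ A1 * N * L) (hpairs : ∀ J : ℕ, (idxPairs p N J : ℝ) ≤ A2 * J * N / L) :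
    ∃ B ⊆ range N, (B.card : ℝ) ≤ (2 * A1 + 8 * A2) / t * N ∧
      ∀ k ∈ range N, k ∉ B → Good p N L (1 / t) t k := by
  classical
  have hN0 : (0 : ℝ) ≤ N := Nat.cast_nonneg N
  -- the bad sets
  set B1 := (range N).filter (fun k : ℕ => ∃ m : ℕ, k < m ∧ m < N ∧ t * ((m : ℝ) - k) * L < p m - p k)
    with hB1
  set B2 := (range N).filter (fun k : ℕ => ∃ m : ℕ, m < k ∧ t * ((k : ℝ) - m) * L < p k - p m) with hB2
  set B4 := (range N).filter (fun k : ℕ => ∃ m : ℕ, k < m ∧ m < N ∧
    (p m : ℝ) - p k < 1 / t * ((m : ℝ) - k) * L) with hB4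
  set B5 := (range N).filter (fun k : ℕ => ∃ m : ℕ, m < k ∧
    (p k : ℝ) - p m < 1 / t * ((k : ℝ) - m) * L) with hB5
  have hCL : 0 < t * L := by positivity
  have hmonoF : Monotone (fun i : ℕ => (p i : ℝ) / (t * L)) := by
    intro i j hij
    have : (p i : ℝ) ≤ p j := by exact_mod_cast hp.monotone hij
    simp only
    gcongr
  have hFtot : (p N : ℝ) / (t * L) - (p 0 : ℝ) / (t * L) ≤ A1 / t * N := by
    have h1 : (0 : ℝ) ≤ (p 0 : ℝ) / (t * L) := by positivity
    have h2 : (p N : ℝ) / (t * L) ≤ A1 / t * N := by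
      rw [div_le_iff₀ hCL]
      refine hpN.trans (le_of_eq ?_)
      field_simp
    linarith
  have cB1 : (B1.card : ℝ) ≤ A1 / t * N := by
    refine (rising_right (fun i => (p i : ℝ) / (t * L)) hmonoF N B1 ?_).trans hFtot
    intro k hk
    obtain ⟨_, m, hkm, hmN, hlt⟩ := Finset.mem_filter.1 hk
    refine ⟨m, hkm, hmN.le, ?_⟩
    rw [← sub_div, le_div_iff₀ hCL]
    linarith
  have cB2 : (B2.card : ℝ) ≤ A1 / t * N := by
    refine (rising_left (fun i => (p i : ℝ) / (t * L)) hmonoF N B2 (Finset.filter_subset _ _)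
      ?_).trans hFtot
    intro k hk
    obtain ⟨_, m, hkm, hlt⟩ := Finset.mem_filter.1 hk
    refine ⟨m, hkm, ?_⟩
    rw [← sub_div, le_div_iff₀ hCL]
    linarith
  -- short gaps
  set S := (range N).filter (fun i => i + 1 < N ∧ (p (i + 1) : ℝ) - p i < 2 * (L / t)) with hS
  have cS : (S.card : ℝ) ≤ 2 * A2 / t * N := by
    set J := ⌊2 * (L / t)⌋₊ with hJ
    have hJle : (J : ℝ) ≤ 2 * (L / t) := Nat.floor_le (by positivity)
    have h1 : S.card ≤ idxPairs p N J := by
      unfold idxPairs
      apply Finset.card_le_card_of_injOn (fun i => (i, i + 1))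
      · intro i hi
        rw [Finset.mem_coe, hS, Finset.mem_filter, Finset.mem_range] at hi
        obtain ⟨h2, h3, h4⟩ := hi
        rw [Finset.mem_coe, Finset.mem_filter, Finset.mem_product, Finset.mem_range,
          Finset.mem_range]
        refine ⟨⟨h2, h3⟩, Nat.lt_succ_self i, ?_⟩
        have h5 : p i ≤ p (i + 1) := (hp (Nat.lt_succ_self i)).le
        have h6 : ((p (i + 1) - p i : ℕ) : ℝ) ≤ 2 * (L / t) := by
          rw [Nat.cast_sub h5]
          exact h4.le
        have h7 := Nat.le_floor h6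
        simp only
        omega
      · intro i _ j _ h
        exact (Prod.mk.injEq _ _ _ _ ▸ h).1
    have h2 : (S.card : ℝ) ≤ idxPairs p N J := by exact_mod_cast h1
    have h3 := hpairs J
    have h4 : A2 * J * N / L ≤ 2 * A2 / t * N := by
      rw [div_le_iff₀ hL]
      have h5 : A2 * J * N ≤ A2 * (2 * (L / t)) * N := by gcongr
      refine h5.trans (le_of_eq ?_)
      field_simp
    linarith
  set F : ℕ → ℝ := fun i => 2 * ((S.filter (fun j => j < i)).card : ℝ) with hF
  have hFm : Monotone F := by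
    intro i j hij
    have h1 : S.filter (fun l => l < i) ⊆ S.filter (fun l => l < j) := by
      intro l hl
      rw [mem_filter] at hl ⊢
      exact ⟨hl.1, by omega⟩
    have h2 : ((S.filter (fun l => l < i)).card : ℝ) ≤ ((S.filter (fun l => l < j)).card : ℝ) := by
      exact_mod_cast card_le_card h1
    rw [hF]
    simp only
    linarith
  have hF0 : F N - F 0 ≤ 4 * A2 / t * N := by
    have h1 : F N ≤ 2 * (S.card : ℝ) := by
      rw [hF]
      simp only
      have : ((S.filter (fun j => j < N)).card : ℝ) ≤ S.card := by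
        exact_mod_cast card_filter_le _ _
      linarith
    have h2 : 0 ≤ F 0 := by
      rw [hF]
      positivity
    have h3 : 4 * A2 / t * N = 2 * (2 * A2 / t * N) := by ring
    linarith
  have cB4 : (B4.card : ℝ) ≤ 4 * A2 / t * N := by
    refine (rising_right F hFm N B4 ?_).trans hF0
    intro k hk
    obtain ⟨_, m, hkm, hmN, hlt⟩ := Finset.mem_filter.1 hk
    refine ⟨m, hkm, hmN.le, ?_⟩
    rw [hF]
    apply win p hp L t hL ht S k m hkm _ hlt
    intro i h1 h2 h3
    by_contra hcon
    apply h3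
    rw [hS, mem_filter, mem_range]
    exact ⟨by omega, by omega, not_le.1 hcon⟩
  have cB5 : (B5.card : ℝ) ≤ 4 * A2 / t * N := by
    refine (rising_left F hFm N B5 (Finset.filter_subset _ _) ?_).trans hF0
    intro k hk
    obtain ⟨hkN, m, hkm, hlt⟩ := Finset.mem_filter.1 hk
    rw [mem_range] at hkN
    refine ⟨m, hkm, ?_⟩
    rw [hF]
    apply win p hp L t hL ht S m k hkm _ hlt
    intro i h1 h2 h3
    by_contra hcon
    apply h3
    rw [hS, mem_filter, mem_range]
    exact ⟨by omega, by omega, not_le.1 hcon⟩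
  refine ⟨B1 ∪ B2 ∪ B4 ∪ B5, ?_, ?_, ?_⟩
  · intro k hk
    simp only [Finset.mem_union] at hk
    rcases hk with ((h | h) | h) | h
    all_goals exact (Finset.mem_filter.1 h).1
  · have h1 := Finset.card_union_le (B1 ∪ B2 ∪ B4) B5
    have h3 := Finset.card_union_le (B1 ∪ B2) B4
    have h4 := Finset.card_union_le B1 B2
    have h5 : (B1 ∪ B2 ∪ B4 ∪ B5).card ≤ B1.card + B2.card + B4.card + B5.card := by
      omega
    have h6 : ((B1 ∪ B2 ∪ B4 ∪ B5).card : ℝ) ≤
        B1.card + B2.card + B4.card + B5.card := by exact_mod_cast h5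
    have h7 : (2 * A1 + 8 * A2) / t * N = 2 * (A1 / t * N) + 2 * (4 * A2 / t * N) := by ring
    linarith
  · intro k hkN hk
    simp only [Finset.mem_union, not_or] at hk
    obtain ⟨⟨⟨n1, n2⟩, n4⟩, n5⟩ := hk
    intro m hm
    rcases lt_trichotomy m k with hlt | heq | hlt
    · have hpm : (p m : ℝ) < p k := by exact_mod_cast hp hlt
      have hmk : (m : ℝ) < k := by exact_mod_cast hlt
      rw [abs_of_neg (by linarith : (m : ℝ) - k < 0), abs_of_neg (by linarith : (p m : ℝ) - p k < 0)]
      have u : (p k : ℝ) - p m ≤ t * ((k : ℝ) - m) * L := by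
        by_contra hcon
        exact n2 (Finset.mem_filter.2 ⟨hkN, m, hlt, not_le.1 hcon⟩)
      have l2 : 1 / t * ((k : ℝ) - m) * L ≤ (p k : ℝ) - p m := by
        by_contra hcon
        exact n5 (Finset.mem_filter.2 ⟨hkN, m, hlt, not_le.1 hcon⟩)
      constructor
      · linarith
      · linarith
    · subst heq
      simp
    · have hpm : (p k : ℝ) < p m := by exact_mod_cast hp hlt
      have hmk : (k : ℝ) < m := by exact_mod_cast hlt
      rw [abs_of_pos (by linarith : (0 : ℝ) < (m : ℝ) - k),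
        abs_of_pos (by linarith : (0 : ℝ) < (p m : ℝ) - p k)]
      have u : (p m : ℝ) - p k ≤ t * ((m : ℝ) - k) * L := by
        by_contra hcon
        exact n1 (Finset.mem_filter.2 ⟨hkN, m, hlt, hm, not_le.1 hcon⟩)
      have l2 : 1 / t * ((m : ℝ) - k) * L ≤ (p m : ℝ) - p k := by
        by_contra hcon
        exact n4 (Finset.mem_filter.2 ⟨hkN, m, hlt, hm, not_le.1 hcon⟩)
      exact ⟨l2, u⟩

open Classical in
/-- The two-sided law with linear dependence of the exceptional proportion on the constants. -/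
theorem two_law_quant : ∃ C₀ : ℝ, 0 < C₀ ∧ ∀ t : ℝ, 0 < t → ∀ N : ℕ,
    (((range N).filter (fun k => ¬ Two (1 / t) t k)).card : ℝ) ≤ C₀ / t * N := by
  obtain ⟨A2, hA2, hP⟩ := idxPairs_bound
  set C₁ : ℝ := 2 * 48 + 8 * A2 with hC₁
  refine ⟨15360 * C₁, by positivity, ?_⟩
  intro t ht
  by_cases ht48 : t < 48
  · intro N
    have h1 : (((range N).filter (fun k => ¬ Two (1 / t) t k)).card : ℝ) ≤ N := by
      have := card_filter_le (range N) (fun k => ¬ Two (1 / t) t k)
      rw [card_range] at this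
      exact_mod_cast this
    have h2 : 1 ≤ 15360 * C₁ / t := by
      rw [le_div_iff₀ ht]
      have : 96 ≤ C₁ := by rw [hC₁]; linarith
      linarith
    have hN0 : (0 : ℝ) ≤ N := Nat.cast_nonneg N
    nlinarith
  push Not at ht48
  have key : ∀ I : ℕ, (((range (2 ^ I)).filter (fun k => ¬ Two (1 / t) t k)).card : ℝ)
      ≤ 7680 * C₁ / t * 2 ^ I := by
    intro I
    induction I with
    | zero =>
      have : (range (2 ^ 0)).filter (fun k => ¬ Two (1 / t) t k) = ∅ := by
        rw [Finset.filter_eq_empty_iff]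
        intro k hk
        have : k = 0 := by
          have := Finset.mem_range.1 hk
          omega
        subst this
        rw [not_not]
        exact two_zero (one_div_le_one_div_of_le (by norm_num) (by linarith)) (by linarith)
      rw [this]
      simp
      positivity
    | succ I ih =>
      have hM1 : 1 ≤ 2 ^ I := Nat.one_le_two_pow
      have hN2 : 2 ≤ 384 * 2 ^ I := by omega
      have hN2' : (2 : ℝ) ≤ ((384 * 2 ^ I : ℕ) : ℝ) := by exact_mod_cast hN2
      obtain ⟨B, hBsub, hBcard, hB⟩ := quant_law 48 A2 (by norm_num) hA2 (384 * 2 ^ I)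
        (Real.log ((384 * 2 ^ I : ℕ) : ℝ)) (t / 10) pr pr_strictMono
        (Real.log_pos (by linarith)) (by positivity) (pr_upper' _ hN2) (hP _ hN2)
      have hsub : (range (2 ^ (I + 1))).filter (fun k => ¬ Two (1 / t) t k) ⊆
          (range (2 ^ I)).filter (fun k => ¬ Two (1 / t) t k) ∪ B := by
        intro k hk
        rw [Finset.mem_filter, Finset.mem_range, pow_succ] at hk
        rw [Finset.mem_union, Finset.mem_filter, Finset.mem_range]
        by_cases h1 : k < 2 ^ I
        · exact Or.inl ⟨h1, hk.2⟩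
        · right
          by_contra hkB
          apply hk.2
          intro m
          by_cases hm : m < 384 * 2 ^ I
          · refine two_near (c' := 1 / (t / 10)) (C' := t / 10) (by positivity) (by positivity)
              ?_ (by linarith) k (2 ^ I) hM1
              (not_lt.1 h1) (by omega) (hB k (Finset.mem_range.2 (by omega)) hkB) m hm
            have : 1 / (t / 10) / 2 = 5 / t := by
              field_simp
              norm_num
            rw [this]
            gcongr
            norm_num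
          · exact two_far (one_div_le_one_div_of_le (by norm_num) (by linarith)) ht48 k m (2 ^ I)
              hM1 (by omega) (not_lt.1 hm)
      have h2 := (Finset.card_le_card hsub).trans (Finset.card_union_le _ _)
      have h3 : (((range (2 ^ (I + 1))).filter (fun k => ¬ Two (1 / t) t k)).card : ℝ) ≤
          (((range (2 ^ I)).filter (fun k => ¬ Two (1 / t) t k)).card : ℝ) + (B.card : ℝ) := by
        exact_mod_cast h2
      have h4 : (2 * 48 + 8 * A2) / (t / 10) * ((384 * 2 ^ I : ℕ) : ℝ) =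
          3840 * C₁ / t * 2 ^ I := by
        rw [hC₁]
        push_cast
        field_simp
        ring
      rw [h4] at hBcard
      have h5 : 0 ≤ 3840 * C₁ / t * 2 ^ I := by positivity
      calc (((range (2 ^ (I + 1))).filter (fun k => ¬ Two (1 / t) t k)).card : ℝ)
          ≤ 7680 * C₁ / t * 2 ^ I + 3840 * C₁ / t * 2 ^ I := by linarith
        _ ≤ 7680 * C₁ / t * 2 ^ (I + 1) := by
          rw [pow_succ]
          have : 7680 * C₁ / t * (2 ^ I * 2) = 4 * (3840 * C₁ / t * 2 ^ I) := by ring
          have h6 : 7680 * C₁ / t * 2 ^ I = 2 * (3840 * C₁ / t * 2 ^ I) := by ring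
          rw [this, h6]
          linarith
  intro N
  rcases Nat.eq_zero_or_pos N with rfl | hN
  · simp
  -- N ≤ 2^I < 2N
  obtain ⟨I, hI1, hI2⟩ : ∃ I : ℕ, N ≤ 2 ^ I ∧ 2 ^ I ≤ 2 * N := by
    refine ⟨Nat.log 2 N + 1, (Nat.lt_pow_succ_log_self (by norm_num) N).le, ?_⟩
    rw [pow_succ]
    have := Nat.pow_log_le_self 2 hN.ne'
    omega
  have h1 : (range N).filter (fun k => ¬ Two (1 / t) t k) ⊆
      (range (2 ^ I)).filter (fun k => ¬ Two (1 / t) t k) := by
    intro k hk
    rw [Finset.mem_filter, Finset.mem_range] at hk ⊢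
    exact ⟨by omega, hk.2⟩
  have h2 : (((range N).filter (fun k => ¬ Two (1 / t) t k)).card : ℝ) ≤
      (((range (2 ^ I)).filter (fun k => ¬ Two (1 / t) t k)).card : ℝ) := by
    exact_mod_cast Finset.card_le_card h1
  have h3 : (2 : ℝ) ^ I ≤ 2 * N := by exact_mod_cast hI2
  have h4 := key I
  calc (((range N).filter (fun k => ¬ Two (1 / t) t k)).card : ℝ) ≤ 7680 * C₁ / t * 2 ^ I := by
        linarith
    _ ≤ 7680 * C₁ / t * (2 * N) := by gcongr
    _ = 15360 * C₁ / t * N := by ring

end Pool.Agent.H.MP_711652_nt.BiLip
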