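import Mathlib

set_option autoImplicit false

namespace Pool.Agent.H.MP_711652_nt

lemma dyadic_near (x : ℝ) (hx : 1 ≤ x) : ∃ n : ℕ, (2 : ℝ) ^ n ≤ x ∧ x < 2 * (2 : ℝ) ^ n := by
  obtain ⟨n, h1, h2⟩ := exists_nat_pow_near hx (one_lt_two)
  exact ⟨n, h1, by rw [pow_succ] at h2; linarith⟩

end Pool.Agent.H.MP_711652_nt
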