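import Mathlib
import Pool.Agent.H.MP_711652_nt.Moments

set_option autoImplicit false

namespace Pool.Agent.H.MP_711652_nt

open Finset

/-- The interval `(y, y + H]` contains no prime. -/
def PrimeFree (y H : ℕ) : Prop := ∀ r : ℕ, y < r → r ≤ y + H → ¬ r.Prime

open Classical in
/-- Primes `p ≤ X` such that some prime-free interval `(y, y + H]` has `|y - p| ≤ K H`. -/
noncomputable def badPrimes (X K H : ℕ) : Finset ℕ :=
  (Icc 1 X).filter (fun p => p.Prime ∧ ∃ y : ℕ, p ≤ y + K * H ∧ y ≤ p + K * H ∧ PrimeFree y H)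

/-- points attached to `(j, q)`: right side -/
lemma sum_right_le (b N : ℕ) (J : Finset ℕ) (Q : ℕ → Finset ℕ)
    (hQ : ∀ j ∈ J, ∀ q ∈ Q j, q.Prime ∧ PrimeFree q (2 ^ j * b) ∧ q + 2 ^ j * b ≤ N) :
    ∑ j ∈ J, (Q j).card * (2 ^ j * b) ≤ 2 * (N + 1) := by
  set Pt : Finset (Sigma (fun _ : ℕ => Sigma (fun _ : ℕ => ℕ))) :=
    J.sigma (fun j => (Q j).sigma (fun q => Ioc (q + 2 ^ j * b / 2) (q + 2 ^ j * b))) with hPt
  have h1 : ∑ j ∈ J, (Q j).card * (2 ^ j * b) ≤ 2 * Pt.card := by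
    rw [hPt, card_sigma, mul_sum]
    apply sum_le_sum
    intro j _
    rw [card_sigma]
    simp only [Nat.card_Ioc]
    have : ∑ q ∈ Q j, (q + 2 ^ j * b - (q + 2 ^ j * b / 2)) =
        (Q j).card * (2 ^ j * b - 2 ^ j * b / 2) := by
      have h0 : ∀ q ∈ Q j, (q + 2 ^ j * b - (q + 2 ^ j * b / 2)) = 2 ^ j * b - 2 ^ j * b / 2 := by
        intro q _
        omega
      rw [sum_congr rfl h0, sum_const, smul_eq_mul]
    rw [this]
    have h2 : 2 ^ j * b ≤ 2 * (2 ^ j * b - 2 ^ j * b / 2) := by omega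
    calc (Q j).card * (2 ^ j * b) ≤ (Q j).card * (2 * (2 ^ j * b - 2 ^ j * b / 2)) :=
          Nat.mul_le_mul_left _ h2
      _ = _ := by ring
  refine h1.trans (Nat.mul_le_mul_left 2 ?_)
  rw [← card_range (N + 1)]
  apply card_le_card_of_injOn (fun t => t.2.2)
  · rintro ⟨j, q, n⟩ ht
    rw [Finset.mem_coe, hPt, mem_sigma, mem_sigma] at ht
    obtain ⟨hj, hq, hn⟩ := ht
    simp only at hj hq hn
    rw [mem_Ioc] at hn
    have := (hQ j hj q hq).2.2
    rw [Finset.mem_coe, mem_range]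
    simp only
    omega
  · rintro ⟨j, q, n⟩ ht ⟨j', q', n'⟩ ht' hnn
    rw [Finset.mem_coe, hPt, mem_sigma, mem_sigma] at ht ht'
    obtain ⟨hj, hq, hn⟩ := ht
    obtain ⟨hj', hq', hn'⟩ := ht'
    simp only at hj hq hn hj' hq' hn' hnn
    rw [mem_Ioc] at hn hn'
    subst hnn
    obtain ⟨a1, a2, -⟩ := hQ j hj q hq
    obtain ⟨b1, b2, -⟩ := hQ j' hj' q' hq'
    have hqq : q = q' := by
      rcases lt_trichotomy q q' with h | h | h
      · exact absurd b1 (a2 q' h (by omega))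
      · exact h
      · exact absurd a1 (b2 q h (by omega))
    subst hqq
    have key : ∀ i k : ℕ, i < k → 2 ^ i * b ≤ 2 ^ k * b / 2 := by
      intro i k hik
      rw [Nat.le_div_iff_mul_le (by norm_num)]
      calc 2 ^ i * b * 2 = 2 ^ (i + 1) * b := by rw [pow_succ]; ring
        _ ≤ 2 ^ k * b := Nat.mul_le_mul_right b (Nat.pow_le_pow_right (by norm_num) hik)
    have hjj : j = j' := by
      rcases lt_trichotomy j j' with h | h | h
      · have := key j j' h; omega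
      · exact h
      · have := key j' j h; omega
    subst hjj
    rfl

/-- points attached to `(j, q)`: left side -/
lemma sum_left_le (b N : ℕ) (J : Finset ℕ) (Q : ℕ → Finset ℕ)
    (hQ : ∀ j ∈ J, ∀ q ∈ Q j, q.Prime ∧ 2 ^ j * b < q ∧ PrimeFree (q - 1 - 2 ^ j * b) (2 ^ j * b) ∧ q ≤ N) :
    ∑ j ∈ J, (Q j).card * (2 ^ j * b) ≤ 2 * (N + 1) := by
  set Pt : Finset (Sigma (fun _ : ℕ => Sigma (fun _ : ℕ => ℕ))) :=
    J.sigma (fun j => (Q j).sigma (fun q => Ico (q - 2 ^ j * b) (q - 2 ^ j * b / 2))) with hPt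
  have h1 : ∑ j ∈ J, (Q j).card * (2 ^ j * b) ≤ 2 * Pt.card := by
    rw [hPt, card_sigma, mul_sum]
    apply sum_le_sum
    intro j hj
    rw [card_sigma]
    simp only [Nat.card_Ico]
    have : ∑ q ∈ Q j, (q - 2 ^ j * b / 2 - (q - 2 ^ j * b)) =
        (Q j).card * (2 ^ j * b - 2 ^ j * b / 2) := by
      have h0 : ∀ q ∈ Q j, (q - 2 ^ j * b / 2 - (q - 2 ^ j * b)) = 2 ^ j * b - 2 ^ j * b / 2 := by
        intro q hq
        have := (hQ j hj q hq).2.1
        omega
      rw [sum_congr rfl h0, sum_const, smul_eq_mul]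
    rw [this]
    have h2 : 2 ^ j * b ≤ 2 * (2 ^ j * b - 2 ^ j * b / 2) := by omega
    calc (Q j).card * (2 ^ j * b) ≤ (Q j).card * (2 * (2 ^ j * b - 2 ^ j * b / 2)) :=
          Nat.mul_le_mul_left _ h2
      _ = _ := by ring
  refine h1.trans (Nat.mul_le_mul_left 2 ?_)
  rw [← card_range (N + 1)]
  apply card_le_card_of_injOn (fun t => t.2.2)
  · rintro ⟨j, q, n⟩ ht
    rw [Finset.mem_coe, hPt, mem_sigma, mem_sigma] at ht
    obtain ⟨hj, hq, hn⟩ := ht
    simp only at hj hq hn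
    rw [mem_Ico] at hn
    have := (hQ j hj q hq).2.2.2
    rw [Finset.mem_coe, mem_range]
    simp only
    omega
  · rintro ⟨j, q, n⟩ ht ⟨j', q', n'⟩ ht' hnn
    rw [Finset.mem_coe, hPt, mem_sigma, mem_sigma] at ht ht'
    obtain ⟨hj, hq, hn⟩ := ht
    obtain ⟨hj', hq', hn'⟩ := ht'
    simp only at hj hq hn hj' hq' hn' hnn
    rw [mem_Ico] at hn hn'
    subst hnn
    obtain ⟨a1, a2, a3, -⟩ := hQ j hj q hq
    obtain ⟨b1, b2, b3, -⟩ := hQ j' hj' q' hq'
    have hqq : q = q' := by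
      rcases lt_trichotomy q q' with h | h | h
      · exact absurd a1 (b3 q (by omega) (by omega))
      · exact h
      · exact absurd b1 (a3 q' (by omega) (by omega))
    subst hqq
    have key : ∀ i k : ℕ, i < k → 2 ^ i * b ≤ 2 ^ k * b / 2 := by
      intro i k hik
      rw [Nat.le_div_iff_mul_le (by norm_num)]
      calc 2 ^ i * b * 2 = 2 ^ (i + 1) * b := by rw [pow_succ]; ring
        _ ≤ 2 ^ k * b := Nat.mul_le_mul_right b (Nat.pow_le_pow_right (by norm_num) hik)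
    have hjj : j = j' := by
      rcases lt_trichotomy j j' with h | h | h
      · have := key j j' h; omega
      · exact h
      · have := key j' j h; omega
    subst hjj
    rfl

open Classical in
/-- starts of long gaps -/
noncomputable def Qr (X H : ℕ) : Finset ℕ :=
  (Icc 1 (2 * X)).filter (fun q => q.Prime ∧ PrimeFree q H)

open Classical in
/-- ends of long gaps -/
noncomputable def Ql (X H : ℕ) : Finset ℕ :=
  (Icc 1 X).filter (fun q => q.Prime ∧ H < q ∧ PrimeFree (q - 1 - H) H)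

/-- A bad prime is close to the start or the end of a long gap. -/
lemma bad_near (X K H p : ℕ) (hH : 2 ≤ H) (hKH : K * H ≤ X) (hp : p ∈ badPrimes X K H) :
    (∃ q ∈ Qr X H, p ≤ q ∧ q ≤ p + K * H) ∨ (∃ q ∈ Ql X H, q ≤ p ∧ p ≤ q + K * H) := by
  classical
  unfold badPrimes at hp
  rw [mem_filter, mem_Icc] at hp
  obtain ⟨⟨hp1, hpX⟩, hpp, y, hy1, hy2, hfree⟩ := hp
  have hy : 2 ≤ y := by
    by_contra hlt
    have := hfree 2 (by omega) (by omega)
    exact this Nat.prime_two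
  by_cases hpy : p ≤ y
  · -- largest prime `≤ y`
    left
    set q := Nat.findGreatest Nat.Prime y with hq
    have hqp : q.Prime := Nat.findGreatest_spec hy Nat.prime_two
    have hqy : q ≤ y := Nat.findGreatest_le y
    have hpq : p ≤ q := Nat.le_findGreatest hpy hpp
    refine ⟨q, ?_, hpq, by omega⟩
    unfold Qr
    rw [mem_filter, mem_Icc]
    refine ⟨⟨hqp.pos, by omega⟩, hqp, ?_⟩
    intro r hr1 hr2 hrp
    by_cases hry : r ≤ y
    · exact absurd (Nat.le_findGreatest hry hrp) (by omega)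
    · exact hfree r (by omega) (by omega) hrp
  · right
    have hyp : y < p := by omega
    have hex : ∃ r, y < r ∧ r.Prime := ⟨p, hyp, hpp⟩
    set q := Nat.find hex with hq
    have hqs := Nat.find_spec hex
    have hqp : q ≤ p := Nat.find_min' hex ⟨hyp, hpp⟩
    have hqH : y + H < q := by
      by_contra hle
      exact hfree q hqs.1 (by omega) hqs.2
    refine ⟨q, ?_, hqp, by omega⟩
    unfold Ql
    rw [mem_filter, mem_Icc]
    refine ⟨⟨hqs.2.pos, by omega⟩, hqs.2, by omega, ?_⟩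
    intro r hr1 hr2 hrp
    exact absurd (Nat.find_min' hex ⟨by omega, hrp⟩) (by omega)

/-- The blocks containing bad primes are few. -/
lemma bad_blocks (X K b j : ℕ) (hb : 2 ≤ b) (hK : 1 ≤ K) (hKH : K * (2 ^ j * b) ≤ X) :
    ((badPrimes X K (2 ^ j * b)).image (fun p => p / b)).card ≤
      2 * K * 2 ^ j * ((Qr X (2 ^ j * b)).card + (Ql X (2 ^ j * b)).card) := by
  classical
  set H := 2 ^ j * b with hH
  have h2j : 1 ≤ 2 ^ j := Nat.one_le_two_pow
  have hH2 : 2 ≤ H := by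
    rw [hH]; nlinarith
  have hsub : (badPrimes X K H).image (fun p => p / b) ⊆
      ((Qr X H).biUnion (fun q => Icc (q / b - K * 2 ^ j) (q / b))) ∪
      ((Ql X H).biUnion (fun q => Icc (q / b) (q / b + K * 2 ^ j))) := by
    intro k hk
    rw [mem_image] at hk
    obtain ⟨p, hp, rfl⟩ := hk
    have hKHb : K * H = K * 2 ^ j * b := by rw [hH]; ring
    rw [mem_union, mem_biUnion, mem_biUnion]
    rcases bad_near X K H p hH2 hKH hp with ⟨q, hq, h1, h2⟩ | ⟨q, hq, h1, h2⟩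
    · left
      refine ⟨q, hq, ?_⟩
      rw [mem_Icc]
      refine ⟨?_, Nat.div_le_div_right h1⟩
      rw [hKHb] at h2
      have h3 : q / b ≤ (p + K * 2 ^ j * b) / b := Nat.div_le_div_right h2
      rw [Nat.add_mul_div_right _ _ (by omega : 0 < b)] at h3
      exact Nat.sub_le_iff_le_add.2 h3
    · right
      refine ⟨q, hq, ?_⟩
      rw [mem_Icc]
      refine ⟨Nat.div_le_div_right h1, ?_⟩
      rw [hKHb] at h2
      have : p / b ≤ (q + K * 2 ^ j * b) / b := Nat.div_le_div_right h2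
      rw [Nat.add_mul_div_right _ _ (by omega : 0 < b)] at this
      exact this
  have hK2 : 1 ≤ K * 2 ^ j := Nat.mul_pos hK h2j
  have hcr : ((Qr X H).biUnion (fun q => Icc (q / b - K * 2 ^ j) (q / b))).card ≤
      (Qr X H).card * (2 * (K * 2 ^ j)) := by
    apply card_biUnion_le_card_mul
    intro q _
    rw [Nat.card_Icc]
    omega
  have hcl : ((Ql X H).biUnion (fun q => Icc (q / b) (q / b + K * 2 ^ j))).card ≤
      (Ql X H).card * (2 * (K * 2 ^ j)) := by
    apply card_biUnion_le_card_mul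
    intro q _
    rw [Nat.card_Icc]
    omega
  have := (card_le_card hsub).trans (card_union_le _ _)
  calc _ ≤ _ := this
    _ ≤ (Qr X H).card * (2 * (K * 2 ^ j)) + (Ql X H).card * (2 * (K * 2 ^ j)) := by omega
    _ = _ := by ring

/-- primes in few blocks are few (Cauchy–Schwarz) -/
lemma primes_in_blocks (b M : ℕ) (hb : 0 < b) (P W : Finset ℕ) (hP : ∀ p ∈ P, p.Prime)
    (hW : ∀ p ∈ P, p / b ∈ W) (hWM : W ⊆ range M) :
    ((P.card : ℕ) : ℝ) ^ 2 ≤ W.card * ∑ k ∈ range M, ((Fb b k : ℕ) : ℝ) ^ 2 := by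
  have h1 : P.card ≤ ∑ k ∈ W, Fb b k := by
    rw [card_eq_sum_card_fiberwise hW]
    apply sum_le_sum
    intro k _
    unfold Fb
    apply card_le_card
    intro p hp
    rw [mem_filter] at hp
    rw [mem_filter, mem_range]
    refine ⟨?_, hP p hp.1, hp.2⟩
    rw [← Nat.div_lt_iff_lt_mul hb, hp.2]
    omega
  have h2 : (P.card : ℝ) ≤ ∑ k ∈ W, ((Fb b k : ℕ) : ℝ) := by exact_mod_cast h1
  have h3 : (∑ k ∈ W, ((Fb b k : ℕ) : ℝ)) ^ 2 ≤ W.card * ∑ k ∈ W, ((Fb b k : ℕ) : ℝ) ^ 2 :=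
    sq_sum_le_card_mul_sum_sq
  have h4 : ∑ k ∈ W, ((Fb b k : ℕ) : ℝ) ^ 2 ≤ ∑ k ∈ range M, ((Fb b k : ℕ) : ℝ) ^ 2 :=
    sum_le_sum_of_subset_of_nonneg hWM (fun k _ _ => by positivity)
  calc ((P.card : ℕ) : ℝ) ^ 2 ≤ (∑ k ∈ W, ((Fb b k : ℕ) : ℝ)) ^ 2 := by gcongr
    _ ≤ _ := h3
    _ ≤ _ := by gcongr

lemma alg_step (ε c X b C K t qr ql : ℝ) (hX : 0 < X) (hb : 0 < b)
    (h8 : (ε * (c * X / b)) ^ 2 ≤ (2 * K * t * (qr + ql)) * (C * X / b)) :
    ε ^ 2 * c ^ 2 * X ≤ 2 * C * K * (qr * (t * b) + ql * (t * b)) := by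
  have h9 : (ε * (c * X / b)) ^ 2 = (ε ^ 2 * c ^ 2 * X) * (X / b ^ 2) := by
    field_simp
  have h10 : (2 * K * t * (qr + ql)) * (C * X / b) =
      (2 * C * K * (qr * (t * b) + ql * (t * b))) * (X / b ^ 2) := by
    field_simp
  rw [h9, h10] at h8
  exact le_of_mul_le_mul_right h8 (by positivity)

open Classical in
/-- **Local maximal gaps.** -/
theorem local_max_gap : ∃ C : ℝ, 0 < C ∧ ∃ X₀ : ℕ, ∀ X : ℕ, X₀ ≤ X → ∀ K : ℕ, 1 ≤ K →
    ∀ ε : ℝ, 0 < ε → ε ≤ 1 →
    (((range X).filter (fun j => 2 ^ j * ⌈Real.log X⌉₊ ≤ X ∧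
      ε * Nat.primeCounting X < ((badPrimes X K (2 ^ j * ⌈Real.log X⌉₊)).card : ℝ))).card : ℝ) ≤
      C * K / ε ^ 2 := by
  obtain ⟨c, C, hc, hC, X₀, hX₀⟩ := basic_estimates
  refine ⟨24 * C / c ^ 2 + 1, by positivity, X₀, ?_⟩
  intro X hX K hK ε hε hε1
  obtain ⟨hb2, hb4, hpi, -, hsq⟩ := hX₀ X hX
  set b := ⌈Real.log X⌉₊ with hb
  set J := (range X).filter (fun j => 2 ^ j * b ≤ X ∧
      ε * Nat.primeCounting X < ((badPrimes X K (2 ^ j * b)).card : ℝ)) with hJ
  set J1 := J.filter (fun j => K * (2 ^ j * b) ≤ X) with hJ1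
  set J2 := J.filter (fun j => ¬ K * (2 ^ j * b) ≤ X) with hJ2
  have hcard : J.card = J1.card + J2.card := (card_filter_add_card_filter_not _).symm
  have hb0 : (0 : ℝ) < b := by exact_mod_cast (by omega : 0 < b)
  have hbX : b ≤ X := by
    have : b ≤ b ^ 4 := Nat.le_self_pow (by norm_num) b
    omega
  have hX0 : (0 : ℝ) < X := by exact_mod_cast (by omega : 0 < X)
  have hX1 : (1 : ℝ) ≤ X := by exact_mod_cast (by omega : 1 ≤ X)
  have hK0 : (1 : ℝ) ≤ K := by exact_mod_cast hK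
  -- the large scales
  have h2 : (J2.card : ℝ) ≤ K := by
    have : J2.card ≤ K := by
      rcases J2.eq_empty_or_nonempty with he | hne
      · rw [he]; simp
      · obtain ⟨j0, hj0, hmin⟩ := J2.exists_min_image id hne
        have hsub : J2 ⊆ Ico j0 (j0 + K) := by
          intro j hj
          have hle : j0 ≤ j := hmin j hj
          rw [mem_Ico]
          refine ⟨hle, ?_⟩
          rw [hJ2, mem_filter, hJ, mem_filter] at hj hj0
          by_contra hge
          have h3 : K ≤ j - j0 := by omega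
          have h4 : K < 2 ^ (j - j0) := lt_of_le_of_lt h3 Nat.lt_two_pow_self
          have h5 : 2 ^ j = 2 ^ (j - j0) * 2 ^ j0 := by
            rw [← pow_add]; congr 1; omega
          have h6 : K * (2 ^ j0 * b) ≤ 2 ^ j * b := by
            rw [h5, mul_assoc]
            exact Nat.mul_le_mul_right _ h4.le
          omega
        calc J2.card ≤ (Ico j0 (j0 + K)).card := card_le_card hsub
          _ = K := by simp
    exact_mod_cast this
  -- the small scales
  have h1 : (J1.card : ℝ) * (ε ^ 2 * c ^ 2) ≤ 24 * C * K := by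
    have hj : ∀ j ∈ J1, ε ^ 2 * c ^ 2 * X ≤ 2 * C * K *
        (((Qr X (2 ^ j * b)).card * (2 ^ j * b) + (Ql X (2 ^ j * b)).card * (2 ^ j * b) : ℕ) : ℝ) := by
      intro j hj
      rw [hJ1, mem_filter, hJ, mem_filter] at hj
      obtain ⟨⟨-, -, hbad⟩, hKH⟩ := hj
      set P := badPrimes X K (2 ^ j * b) with hP
      set W := P.image (fun p => p / b) with hW
      have hWM : W ⊆ range (X / b + 1) := by
        intro k hk
        rw [hW, mem_image] at hk
        obtain ⟨p, hp, rfl⟩ := hk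
        rw [hP] at hp
        unfold badPrimes at hp
        rw [mem_filter, mem_Icc] at hp
        rw [mem_range]
        have := Nat.div_le_div_right (c := b) hp.1.2
        omega
      have h3 := primes_in_blocks b (X / b + 1) (by omega) P W
        (by
          intro p hp
          rw [hP] at hp
          unfold badPrimes at hp
          rw [mem_filter] at hp
          exact hp.2.1)
        (fun p hp => mem_image_of_mem _ hp) hWM
      have h4 := hsq (X / b + 1) (by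
        have := Nat.div_mul_le_self X b
        calc (X / b + 1) * b = X / b * b + b := by ring
          _ ≤ 2 * X := by omega)
      have h5 := bad_blocks X K b j hb2 hK hKH
      have h6 : (W.card : ℝ) ≤ 2 * K * 2 ^ j *
          (((Qr X (2 ^ j * b)).card : ℝ) + ((Ql X (2 ^ j * b)).card : ℝ)) := by
        exact_mod_cast h5
      have h7 : (ε * (c * X / b)) ^ 2 ≤ (P.card : ℝ) ^ 2 := by
        apply pow_le_pow_left₀ (by positivity)
        calc ε * (c * X / b) ≤ ε * Nat.primeCounting X := by gcongr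
          _ ≤ P.card := hbad.le
      have h8 : (ε * (c * X / b)) ^ 2 ≤ (2 * K * 2 ^ j *
          (((Qr X (2 ^ j * b)).card : ℝ) + ((Ql X (2 ^ j * b)).card : ℝ))) * (C * X / b) := by
        refine h7.trans (h3.trans ?_)
        exact mul_le_mul h6 h4 (sum_nonneg fun k _ => sq_nonneg _) (by positivity)
      have h9 := alg_step ε c X b C K (2 ^ j) ((Qr X (2 ^ j * b)).card) ((Ql X (2 ^ j * b)).card)
        hX0 hb0 h8
      have hcast : (((Qr X (2 ^ j * b)).card * (2 ^ j * b) + (Ql X (2 ^ j * b)).card * (2 ^ j * b) : ℕ) : ℝ) =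
          ((Qr X (2 ^ j * b)).card : ℝ) * (2 ^ j * b) + ((Ql X (2 ^ j * b)).card : ℝ) * (2 ^ j * b) := by
        norm_cast
      rw [hcast]
      exact h9
    have hsum := sum_le_sum hj
    rw [sum_const, nsmul_eq_mul, ← mul_sum, ← Nat.cast_sum, sum_add_distrib] at hsum
    have hr : ∑ j ∈ J1, (Qr X (2 ^ j * b)).card * (2 ^ j * b) ≤ 2 * (3 * X + 1) := by
      apply sum_right_le b (3 * X) J1 (fun j => Qr X (2 ^ j * b))
      intro j hj q hq
      rw [hJ1, mem_filter, hJ, mem_filter] at hj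
      unfold Qr at hq
      rw [mem_filter, mem_Icc] at hq
      refine ⟨hq.2.1, hq.2.2, ?_⟩
      have := hj.1.2.1
      omega
    have hl : ∑ j ∈ J1, (Ql X (2 ^ j * b)).card * (2 ^ j * b) ≤ 2 * (X + 1) := by
      apply sum_left_le b X J1 (fun j => Ql X (2 ^ j * b))
      intro j hj q hq
      unfold Ql at hq
      rw [mem_filter, mem_Icc] at hq
      exact ⟨hq.2.1, hq.2.2.1, hq.2.2.2, hq.1.2⟩
    have htot : ((∑ j ∈ J1, (Qr X (2 ^ j * b)).card * (2 ^ j * b) +
        ∑ j ∈ J1, (Ql X (2 ^ j * b)).card * (2 ^ j * b) : ℕ) : ℝ) ≤ 12 * X := by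
      have : ∑ j ∈ J1, (Qr X (2 ^ j * b)).card * (2 ^ j * b) +
        ∑ j ∈ J1, (Ql X (2 ^ j * b)).card * (2 ^ j * b) ≤ 12 * X := by omega
      exact_mod_cast this
    have hfin : (J1.card : ℝ) * (ε ^ 2 * c ^ 2 * X) ≤ 2 * C * K * (12 * X) := by
      refine hsum.trans ?_
      gcongr
    have : ((J1.card : ℝ) * (ε ^ 2 * c ^ 2)) * X ≤ (24 * C * K) * X := by
      calc ((J1.card : ℝ) * (ε ^ 2 * c ^ 2)) * X = (J1.card : ℝ) * (ε ^ 2 * c ^ 2 * X) := by ring
        _ ≤ _ := hfin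
        _ = _ := by ring
    exact le_of_mul_le_mul_right this hX0
  have h3 : (J1.card : ℝ) ≤ 24 * C / c ^ 2 * K / ε ^ 2 := by
    rw [le_div_iff₀ (by positivity), div_mul_eq_mul_div, le_div_iff₀ (by positivity)]
    calc (J1.card : ℝ) * ε ^ 2 * c ^ 2 = (J1.card : ℝ) * (ε ^ 2 * c ^ 2) := by ring
      _ ≤ _ := h1
  have h4 : (K : ℝ) ≤ K / ε ^ 2 := by
    rw [le_div_iff₀ (by positivity)]
    have : ε ^ 2 ≤ 1 := pow_le_one₀ hε.le hε1
    nlinarith
  rw [hcard]
  push_cast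
  calc (J1.card : ℝ) + J2.card ≤ 24 * C / c ^ 2 * K / ε ^ 2 + K / ε ^ 2 := by linarith
    _ = _ := by ring

end Pool.Agent.H.MP_711652_nt
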