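import Mathlib
import Pool.Agent.H.MP_711652_nt.Moments
import Pool.Agent.H.MP_711652_nt.Avg

set_option autoImplicit false

namespace Pool.Agent.H.MP_711652_nt

open Finset

/-- Number of primes in `(y, y + H]`. -/
noncomputable def cnt (y H : ℕ) : ℕ := ((Ioc y (y + H)).filter Nat.Prime).card

/-- block counts as a real function -/
noncomputable def fb (b k : ℕ) : ℝ := (Fb b k : ℝ)

lemma fb_nonneg (b k : ℕ) : 0 ≤ fb b k := Nat.cast_nonneg _

lemma cnt_upper (b s y H : ℕ) (hb : 0 < b) (hs : 0 < s) :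
    cnt y H ≤ ∑ u ∈ Icc ((y + 1) / (s * b)) ((y + H) / (s * b)), ∑ i ∈ range s, Fb b (u * s + i) := by
  have hB : 0 < s * b := Nat.mul_pos hs hb
  unfold cnt
  have hmaps : ∀ q ∈ (Ioc y (y + H)).filter Nat.Prime,
      q / (s * b) ∈ Icc ((y + 1) / (s * b)) ((y + H) / (s * b)) := by
    intro q hq
    rw [mem_filter, mem_Ioc] at hq
    rw [mem_Icc]
    exact ⟨Nat.div_le_div_right (by omega), Nat.div_le_div_right (by omega)⟩
  rw [card_eq_sum_card_fiberwise hmaps]
  apply sum_le_sum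
  intro u _
  have hmaps2 : ∀ q ∈ ((Ioc y (y + H)).filter Nat.Prime).filter (fun q => q / (s * b) = u),
      q / b - u * s ∈ range s := by
    intro q hq
    rw [mem_filter] at hq
    rw [mem_range]
    have h1 : q / b / s = u := by rw [Nat.div_div_eq_div_mul, mul_comm b s]; exact hq.2
    have h2 : q / b < (q / b / s + 1) * s := by
      rw [← Nat.div_lt_iff_lt_mul hs]; omega
    rw [h1, add_mul, one_mul] at h2
    omega
  rw [card_eq_sum_card_fiberwise hmaps2]
  apply sum_le_sum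
  intro i _
  unfold Fb
  apply card_le_card
  intro q hq
  rw [mem_filter, mem_filter, mem_filter] at hq
  obtain ⟨⟨⟨-, hqp⟩, hqu⟩, hqi⟩ := hq
  have h1 : q / b / s = u := by rw [Nat.div_div_eq_div_mul, mul_comm b s]; exact hqu
  have h3 : u * s ≤ q / b := by rw [← h1]; exact Nat.div_mul_le_self _ _
  have h4 : q / b = u * s + i := by omega
  rw [mem_filter, mem_range]
  refine ⟨?_, hqp, h4⟩
  rw [← Nat.div_lt_iff_lt_mul hb]; omega

lemma cnt_lower (b s y H : ℕ) (hb : 0 < b) (hs : 0 < s) :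
    ∑ u ∈ Ico ((y + 1) / (s * b) + 1) ((y + H) / (s * b)), ∑ i ∈ range s, Fb b (u * s + i) ≤
      cnt y H := by
  have hB : 0 < s * b := Nat.mul_pos hs hb
  set S : Finset (Sigma (fun _ : ℕ => Sigma (fun _ : ℕ => ℕ))) :=
    (Ico ((y + 1) / (s * b) + 1) ((y + H) / (s * b))).sigma (fun u => (range s).sigma
      (fun i => (range ((u * s + i + 1) * b)).filter (fun p => p.Prime ∧ p / b = u * s + i))) with hS
  have h1 : ∑ u ∈ Ico ((y + 1) / (s * b) + 1) ((y + H) / (s * b)),
      ∑ i ∈ range s, Fb b (u * s + i) = S.card := by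
    rw [hS, card_sigma]
    apply sum_congr rfl
    intro u _
    rw [card_sigma]
    rfl
  rw [h1]
  unfold cnt
  apply card_le_card_of_injOn (fun t => t.2.2)
  · rintro ⟨u, i, q⟩ ht
    rw [Finset.mem_coe, hS, mem_sigma, mem_sigma, mem_Ico, mem_range, mem_filter] at ht
    simp only at ht
    obtain ⟨⟨hu1, hu2⟩, hi, -, hqp, hqb⟩ := ht
    rw [Finset.mem_coe, mem_filter, mem_Ioc]
    simp only
    have hqu : q / (s * b) = u := by
      rw [mul_comm s b, ← Nat.div_div_eq_div_mul, hqb, div_block hi]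
    refine ⟨⟨?_, ?_⟩, hqp⟩
    · by_contra hle
      have : q / (s * b) ≤ (y + 1) / (s * b) := Nat.div_le_div_right (by omega)
      omega
    · by_contra hgt
      have : (y + H) / (s * b) ≤ q / (s * b) := Nat.div_le_div_right (by omega)
      omega
  · rintro ⟨u, i, q⟩ ht ⟨u', i', q'⟩ ht' hqq
    rw [Finset.mem_coe, hS, mem_sigma, mem_sigma, mem_Ico, mem_range, mem_filter] at ht ht'
    simp only at ht ht' hqq
    subst hqq
    obtain ⟨-, hi, -, -, hqb⟩ := ht
    obtain ⟨-, hi', -, -, hqb'⟩ := ht'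
    have h2 : u = u' := by
      have e1 : q / b / s = u := by rw [hqb, div_block hi]
      have e2 : q / b / s = u' := by rw [hqb', div_block hi']
      omega
    subst h2
    have h3 : i = i' := by omega
    subst h3
    rfl

/-- The discrepancy sum attached to `y`. -/
noncomputable def Dl (b s T H y : ℕ) : ℝ :=
  ∑ k ∈ Ico ((y + 1) / (s * b) * s) (((y + H) / (s * b) + 1) * s), |avg s (fb b) k - avg T (fb b) k|

lemma sum_Ico_blocks (u v s : ℕ) (huv : u ≤ v) (h : ℕ → ℝ) :
    ∑ k ∈ Ico (u * s) (v * s), h k = ∑ q ∈ Ico u v, ∑ i ∈ range s, h (q * s + i) := by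
  have h1 := sum_blocks v s h
  have h2 := sum_blocks u s h
  have h3 : ∑ k ∈ range (u * s), h k + ∑ k ∈ Ico (u * s) (v * s), h k = ∑ k ∈ range (v * s), h k := by
    rw [range_eq_Ico, range_eq_Ico, sum_Ico_consecutive _ (Nat.zero_le _) (Nat.mul_le_mul_right s huv)]
  have h4 : ∑ q ∈ range u, ∑ i ∈ range s, h (q * s + i) + ∑ q ∈ Ico u v, ∑ i ∈ range s, h (q * s + i) =
      ∑ q ∈ range v, ∑ i ∈ range s, h (q * s + i) :=
    Finset.sum_range_add_sum_Ico (fun q => ∑ i ∈ range s, h (q * s + i)) huv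
  linarith

/-- counts in windows versus the local density `μ` -/
lemma cnt_close (b s T H y : ℕ) (hb : 0 < b) (hs : 0 < s) (hH : 3 * (s * b) ≤ H) (μ : ℝ) (hμ : 0 ≤ μ)
    (hT : ∀ k ∈ Ico ((y + 1) / (s * b) * s) (((y + H) / (s * b) + 1) * s), avg T (fb b) k = μ) :
    |(cnt y H : ℝ) - μ * H / b| ≤ 3 * s * μ + Dl b s T H y := by
  have hB : 0 < s * b := Nat.mul_pos hs hb
  set u0 := (y + 1) / (s * b) with hu0
  set u1 := (y + H) / (s * b) with hu1
  have hb' : (0 : ℝ) < b := by exact_mod_cast hb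
  have hs' : (0 : ℝ) < s := by exact_mod_cast hs
  have e1 : u1 * (s * b) ≤ y + H := Nat.div_mul_le_self _ _
  have e2 : y + 1 < (u0 + 1) * (s * b) := by
    rw [← Nat.div_lt_iff_lt_mul hB]; omega
  have e3 : y + H < (u1 + 1) * (s * b) := by
    rw [← Nat.div_lt_iff_lt_mul hB]; omega
  have e4 : u0 * (s * b) ≤ y + 1 := Nat.div_mul_le_self _ _
  have hu : u0 + 1 < u1 + 0 + 1 := by
    by_contra hcon
    have : u1 + 1 ≤ u0 + 1 := by omega
    have h5 : (u1 + 1) * (s * b) ≤ (u0 + 1) * (s * b) := Nat.mul_le_mul_right _ this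
    have h6 : (u0 + 1) * (s * b) = u0 * (s * b) + s * b := by ring
    omega
  -- discrepancy per block
  have hblock : ∀ u ∈ Icc u0 u1, |(∑ i ∈ range s, fb b (u * s + i)) - s * μ| =
      ∑ i ∈ range s, |avg s (fb b) (u * s + i) - avg T (fb b) (u * s + i)| := by
    intro u huu
    rw [mem_Icc] at huu
    have h1 : ∀ i ∈ range s, |avg s (fb b) (u * s + i) - avg T (fb b) (u * s + i)| =
        |(∑ i ∈ range s, fb b (u * s + i)) - s * μ| / s := by
      intro i hi
      rw [mem_range] at hi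
      rw [avg_block hi, hT (u * s + i)]
      · have : (∑ i ∈ range s, fb b (u * s + i)) / (s : ℝ) - μ =
          ((∑ i ∈ range s, fb b (u * s + i)) - s * μ) / s := by field_simp
        rw [this, abs_div, abs_of_pos hs']
      · rw [mem_Ico]
        constructor
        · have : u0 * s ≤ u * s := Nat.mul_le_mul_right _ huu.1
          omega
        · have : (u + 1) * s ≤ (u1 + 1) * s := Nat.mul_le_mul_right _ (by omega)
          have h7 : (u + 1) * s = u * s + s := by ring
          omega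
    rw [sum_congr rfl h1, sum_const, card_range, nsmul_eq_mul]
    field_simp
  have hDl : Dl b s T H y = ∑ u ∈ Icc u0 u1, |(∑ i ∈ range s, fb b (u * s + i)) - s * μ| := by
    unfold Dl
    rw [← hu0, ← hu1, sum_Ico_blocks u0 (u1 + 1) s (by omega)]
    have : Ico u0 (u1 + 1) = Icc u0 u1 := by
      ext u; rw [mem_Ico, mem_Icc]; omega
    rw [this]
    exact (sum_congr rfl hblock).symm
  have hup := cnt_upper b s y H hb hs
  have hlo := cnt_lower b s y H hb hs
  rw [← hu0, ← hu1] at hup hlo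
  have hup' : (cnt y H : ℝ) ≤ ∑ u ∈ Icc u0 u1, ∑ i ∈ range s, fb b (u * s + i) := by
    unfold fb; exact_mod_cast hup
  have hlo' : ∑ u ∈ Ico (u0 + 1) u1, ∑ i ∈ range s, fb b (u * s + i) ≤ (cnt y H : ℝ) := by
    unfold fb; exact_mod_cast hlo
  rw [abs_le]
  have hsb : (0 : ℝ) < s * b := by positivity
  constructor
  · -- lower bound
    have h1 : ∑ u ∈ Ico (u0 + 1) u1, (s * μ - |(∑ i ∈ range s, fb b (u * s + i)) - s * μ|) ≤
        ∑ u ∈ Ico (u0 + 1) u1, ∑ i ∈ range s, fb b (u * s + i) := by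
      apply sum_le_sum
      intro u _
      have := neg_abs_le ((∑ i ∈ range s, fb b (u * s + i)) - s * μ)
      linarith only [this]
    rw [sum_sub_distrib, sum_const, Nat.card_Ico, nsmul_eq_mul] at h1
    have h2 : ∑ u ∈ Ico (u0 + 1) u1, |(∑ i ∈ range s, fb b (u * s + i)) - s * μ| ≤ Dl b s T H y := by
      rw [hDl]
      apply sum_le_sum_of_subset_of_nonneg
      · intro u hu'
        rw [mem_Ico] at hu'
        rw [mem_Icc]; omega
      · intro u _ _; exact abs_nonneg _
    have h3 : (H : ℝ) / b - 3 * s ≤ ((u1 - (u0 + 1) : ℕ) : ℝ) * s := by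
      rw [Nat.cast_sub (by omega)]
      push_cast
      have e3' : (y : ℝ) + H < (u1 + 1) * (s * b) := by exact_mod_cast e3
      have e4' : (u0 : ℝ) * (s * b) ≤ y + 1 := by exact_mod_cast e4
      have hsb1 : (1 : ℝ) ≤ s * b := by exact_mod_cast hB
      rw [sub_le_iff_le_add, div_le_iff₀ hb']
      nlinarith only [e3', e4', hsb1]
    have h4 : (H / b - 3 * s) * μ ≤ ((u1 - (u0 + 1) : ℕ) : ℝ) * s * μ := by gcongr
    have h5 : (H / b - 3 * s) * μ = μ * H / b - 3 * s * μ := by ring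
    linarith only [hlo', h1, h2, h4, h5]
  · have h1 : ∑ u ∈ Icc u0 u1, ∑ i ∈ range s, fb b (u * s + i) ≤
        ∑ u ∈ Icc u0 u1, (s * μ + |(∑ i ∈ range s, fb b (u * s + i)) - s * μ|) := by
      apply sum_le_sum
      intro u _
      have := le_abs_self ((∑ i ∈ range s, fb b (u * s + i)) - s * μ)
      linarith only [this]
    rw [sum_add_distrib, sum_const, Nat.card_Icc, nsmul_eq_mul, ← hDl] at h1
    have h3 : ((u1 + 1 - u0 : ℕ) : ℝ) * s ≤ (H : ℝ) / b + 3 * s := by
      rw [Nat.cast_sub (by omega)]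
      push_cast
      have e1' : (u1 : ℝ) * (s * b) ≤ y + H := by exact_mod_cast e1
      have e2' : (y : ℝ) + 1 < (u0 + 1) * (s * b) := by exact_mod_cast e2
      have : ((u1 : ℝ) + 1 - u0) * s ≤ (H + 3 * (s * b)) / b := by
        rw [le_div_iff₀ hb']
        nlinarith only [hsb, e1', e2']
      have h9 : (H + 3 * (s * b)) / (b : ℝ) = (H : ℝ) / b + 3 * s := by field_simp
      linarith only [this, h9]
    have h4 : ((u1 + 1 - u0 : ℕ) : ℝ) * s * μ ≤ (H / b + 3 * s) * μ := by gcongr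
    have h5 : (H / b + 3 * s) * μ = μ * H / b + 3 * s * μ := by ring
    linarith only [hup', h1, h4, h5]

/-- the `k'` occurring for `y` within `r` of `p` are close to `p / b` -/
lemma near_index (b s H p r y k' : ℕ) (hb : 0 < b) (hs : 0 < s)
    (hy1 : p - r ≤ y) (hy2 : y ≤ p + r)
    (hk1 : (y + 1) / (s * b) * s ≤ k') (hk2 : k' < ((y + H) / (s * b) + 1) * s) :
    p / b - ((r + H + s * b) / b + 2) ≤ k' ∧ k' ≤ p / b + ((r + H + s * b) / b + 2) := by
  have hB : 0 < s * b := Nat.mul_pos hs hb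
  have e2 : y + 1 < ((y + 1) / (s * b) + 1) * (s * b) := by
    rw [← Nat.div_lt_iff_lt_mul hB]; omega
  have e1 : (y + H) / (s * b) * (s * b) ≤ y + H := Nat.div_mul_le_self _ _
  have h1 : (y + 1) / (s * b) * (s * b) ≤ k' * b := by
    calc (y + 1) / (s * b) * (s * b) = (y + 1) / (s * b) * s * b := by ring
      _ ≤ k' * b := Nat.mul_le_mul_right b hk1
  have h2 : (k' + 1) * b ≤ ((y + H) / (s * b) + 1) * (s * b) := by
    calc (k' + 1) * b ≤ (((y + H) / (s * b) + 1) * s) * b := Nat.mul_le_mul_right b hk2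
      _ = _ := by ring
  have h3 : ((y + 1) / (s * b) + 1) * (s * b) = (y + 1) / (s * b) * (s * b) + s * b := by ring
  have h4 : ((y + H) / (s * b) + 1) * (s * b) = (y + H) / (s * b) * (s * b) + s * b := by ring
  have h5 : p / b * b ≤ p := Nat.div_mul_le_self _ _
  have h6 : p < (p / b + 1) * b := by rw [← Nat.div_lt_iff_lt_mul hb]; omega
  have h7 : r + H + s * b < ((r + H + s * b) / b + 1) * b := by
    rw [← Nat.div_lt_iff_lt_mul hb]; omega
  set Q := (r + H + s * b) / b with hQ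
  set P := p / b with hP
  constructor
  · rw [Nat.sub_le_iff_le_add]
    by_contra hcon
    push Not at hcon
    have h8 : (k' + (Q + 2) + 1) * b ≤ P * b := Nat.mul_le_mul_right b hcon
    have h9 : (k' + (Q + 2) + 1) * b = k' * b + (Q + 1) * b + 2 * b := by ring
    omega
  · by_contra hcon
    push Not at hcon
    have h8 : (P + (Q + 2) + 1) * b ≤ k' * b := Nat.mul_le_mul_right b hcon
    have h9 : (P + (Q + 2) + 1) * b = (P + 1) * b + (Q + 1) * b + b := by ring
    have h10 : (k' + 1) * b = k' * b + b := by ring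
    omega

/-- sum of the discrepancies over `y` near `p` -/
lemma sum_Dl_le (b s T H p r : ℕ) (hb : 0 < b) (hs : 0 < s) :
    ∑ y ∈ Icc (p - r) (p + r), Dl b s T H y ≤ (H + s * b : ℕ) *
      ∑ k ∈ Icc (p / b - ((r + H + s * b) / b + 2)) (p / b + ((r + H + s * b) / b + 2)),
        |avg s (fb b) k - avg T (fb b) k| := by
  have hB : 0 < s * b := Nat.mul_pos hs hb
  set K := Icc (p / b - ((r + H + s * b) / b + 2)) (p / b + ((r + H + s * b) / b + 2)) with hK
  have h1 : ∀ y ∈ Icc (p - r) (p + r), Dl b s T H y =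
      ∑ k ∈ K, if (y + 1) / (s * b) * s ≤ k ∧ k < ((y + H) / (s * b) + 1) * s then
        |avg s (fb b) k - avg T (fb b) k| else 0 := by
    intro y hy
    rw [mem_Icc] at hy
    unfold Dl
    rw [← sum_filter]
    apply sum_congr _ (fun _ _ => rfl)
    ext k
    rw [mem_Ico, mem_filter, hK, mem_Icc]
    constructor
    · rintro ⟨h2, h3⟩
      exact ⟨near_index b s H p r y k hb hs hy.1 hy.2 h2 h3, h2, h3⟩
    · rintro ⟨-, h2, h3⟩
      exact ⟨h2, h3⟩
  rw [sum_congr rfl h1, sum_comm, mul_sum]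
  apply sum_le_sum
  intro k _
  rw [← sum_filter, sum_const, nsmul_eq_mul]
  apply mul_le_mul_of_nonneg_right _ (abs_nonneg _)
  have hsub : (Icc (p - r) (p + r)).filter
      (fun y => (y + 1) / (s * b) * s ≤ k ∧ k < ((y + H) / (s * b) + 1) * s) ⊆
      Ico (k / s * (s * b) - H) (k / s * (s * b) + s * b) := by
    intro y hy
    rw [mem_filter] at hy
    obtain ⟨-, h2, h3⟩ := hy
    have h4 : (y + 1) / (s * b) ≤ k / s := (Nat.le_div_iff_mul_le hs).2 h2
    have h5 : k / s < (y + H) / (s * b) + 1 := (Nat.div_lt_iff_lt_mul hs).2 h3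
    have h6 : k / s ≤ (y + H) / (s * b) := by omega
    have h7 : k / s * (s * b) ≤ y + H := (Nat.le_div_iff_mul_le hB).1 h6
    have h8 : y + 1 < (k / s + 1) * (s * b) := by
      rw [← Nat.div_lt_iff_lt_mul hB]; omega
    have h9 : (k / s + 1) * (s * b) = k / s * (s * b) + s * b := by ring
    rw [mem_Ico]
    omega
  have h2 := card_le_card hsub
  rw [Nat.card_Ico] at h2
  have h3 : ((Icc (p - r) (p + r)).filter
      (fun y => (y + 1) / (s * b) * s ≤ k ∧ k < ((y + H) / (s * b) + 1) * s)).card ≤ H + s * b := by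
    omega
  exact_mod_cast h3

/-- The main local statement: regularity around a point whose block is good. -/
lemma local_regular (b s T H R p : ℕ) (ε θ μ : ℝ) (hb : 0 < b) (hs : 0 < s) (hT : 0 < T)
    (hε : 0 < ε) (hε1 : ε ≤ 1) (hθ : 0 < θ) (hbH : b ≤ H) (hsH : 6 * (s * b : ℝ) ≤ ε * H)
    (hμ : avg T (fb b) (p / b) = μ) (hμ0 : 0 < μ) (hθμ : 22 * θ ≤ ε ^ 2 * μ)
    (hmax : ∀ ρ : ℕ, ρ ≤ (R + H + s * b) / b + 2 →
      ∑ k ∈ Icc (p / b - ρ) (p / b + ρ), |avg s (fb b) k - avg T (fb b) k| ≤ θ * (2 * ρ + 1))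
    (hz1 : (R + H + s * b) / b + 2 ≤ (p / b) % T)
    (hz2 : (p / b) % T + ((R + H + s * b) / b + 2) < T) :
    ∀ r, H ≤ r → r ≤ R →
      (((Icc (p - r) (p + r)).filter (fun y => ε * (μ * H / b) < |(cnt y H : ℝ) - μ * H / b|)).card : ℝ) ≤
        ε * (2 * r + 1) := by
  intro r hr1 hr2
  have hb' : (0 : ℝ) < b := by exact_mod_cast hb
  have hs' : (0 : ℝ) < s := by exact_mod_cast hs
  have hH' : (0 : ℝ) < H := by exact_mod_cast (by omega : 0 < H)
  have hr' : (H : ℝ) ≤ r := by exact_mod_cast hr1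
  have hbH' : (b : ℝ) ≤ H := by exact_mod_cast hbH
  have hsH6 : 6 * ((s * b : ℕ) : ℝ) ≤ H := by
    push_cast
    nlinarith only [hsH, hε1]
  have hsHn : 6 * (s * b) ≤ H := by exact_mod_cast hsH6
  set S := (Icc (p - r) (p + r)).filter (fun y => ε * (μ * H / b) < |(cnt y H : ℝ) - μ * H / b|) with hS
  -- constancy of the `T`-average
  have hconst : ∀ k, p / b - ((r + H + s * b) / b + 2) ≤ k → k ≤ p / b + ((r + H + s * b) / b + 2) →
      avg T (fb b) k = μ := by
    intro k hk1 hk2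
    have hQ : (r + H + s * b) / b + 2 ≤ (R + H + s * b) / b + 2 := by
      have := Nat.div_le_div_right (c := b) (show r + H + s * b ≤ R + H + s * b by omega)
      omega
    have hdm := Nat.div_add_mod (p / b) T
    have hk : k / T = p / b / T := by
      rw [Nat.div_eq_iff hT]
      have h8 : T * (p / b / T) = p / b / T * T := mul_comm _ _
      omega
    rw [← hμ]
    unfold avg
    rw [hk]
  -- bad `y` have a large discrepancy
  have hbad : ∀ y ∈ S, ε / 2 * (μ * H / b) ≤ Dl b s T H y := by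
    intro y hy
    rw [hS, mem_filter, mem_Icc] at hy
    obtain ⟨⟨hy1, hy2⟩, hy3⟩ := hy
    have h1 := cnt_close b s T H y hb hs (by omega) μ hμ0.le (by
      intro k hk
      rw [mem_Ico] at hk
      have h2 := near_index b s H p r y k hb hs hy1 hy2 hk.1 hk.2
      exact hconst k h2.1 h2.2)
    have h2 : 3 * s * μ ≤ ε / 2 * (μ * H / b) := by
      have : ε / 2 * (μ * H / b) = (ε * H) * μ / (2 * b) := by ring
      rw [this, le_div_iff₀ (by positivity)]
      nlinarith only [hsH, hμ0]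
    linarith only [hy3, h1, h2]
  have hsum : (S.card : ℝ) * (ε / 2 * (μ * H / b)) ≤ ∑ y ∈ Icc (p - r) (p + r), Dl b s T H y := by
    calc (S.card : ℝ) * (ε / 2 * (μ * H / b)) = ∑ y ∈ S, ε / 2 * (μ * H / b) := by
          rw [sum_const, nsmul_eq_mul]
      _ ≤ ∑ y ∈ S, Dl b s T H y := sum_le_sum hbad
      _ ≤ _ := by
        apply sum_le_sum_of_subset_of_nonneg (filter_subset _ _)
        intro y _ _
        unfold Dl
        exact sum_nonneg fun k _ => abs_nonneg _
  have h3 := sum_Dl_le b s T H p r hb hs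
  set ρ := (r + H + s * b) / b + 2 with hρ
  have h4 := hmax ρ (by
    have := Nat.div_le_div_right (c := b) (show r + H + s * b ≤ R + H + s * b by omega)
    omega)
  have hρle : (2 * (ρ : ℝ) + 1) ≤ 11 * r / b := by
    have e1 : (((r + H + s * b) / b : ℕ) : ℝ) ≤ ((r + H + s * b : ℕ) : ℝ) / b := Nat.cast_div_le
    have e2 : (ρ : ℝ) = (((r + H + s * b) / b : ℕ) : ℝ) + 2 := by rw [hρ]; push_cast; ring
    have e3 : ((r + H + s * b : ℕ) : ℝ) ≤ 3 * r := by
      push_cast
      push_cast at hsH6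
      nlinarith only [hH', hr', hsH6]
    have e4 : ((r + H + s * b : ℕ) : ℝ) / b ≤ 3 * r / b := by gcongr
    have e5 : (1 : ℝ) ≤ r / b := by
      rw [one_le_div hb']; linarith only [hr', hbH']
    have e6 : 11 * (r : ℝ) / b = 2 * (3 * r / b) + 5 * (r / b) := by ring
    rw [e6]
    linarith only [e1, e2, e4, e5]
  have h5 : ∑ y ∈ Icc (p - r) (p + r), Dl b s T H y ≤ (2 * H) * (θ * (11 * r / b)) := by
    refine h3.trans ?_
    have e1 : ((H + s * b : ℕ) : ℝ) ≤ 2 * H := by
      push_cast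
      push_cast at hsH6
      nlinarith only [hH', hsH6]
    have e2 : θ * (2 * ρ + 1) ≤ θ * (11 * r / b) := by gcongr
    apply mul_le_mul e1 (h4.trans e2) (sum_nonneg fun k _ => abs_nonneg _) (by positivity)
  have h6 : (S.card : ℝ) * (ε / 2 * (μ * H / b)) ≤ (2 * H) * (θ * (11 * r / b)) := hsum.trans h5
  have h7 : (S.card : ℝ) * (ε * μ) ≤ 44 * θ * r := by
    have e1 : (S.card : ℝ) * (ε / 2 * (μ * H / b)) = ((S.card : ℝ) * (ε * μ)) * (H / (2 * b)) := by ring
    have e2 : (2 * H) * (θ * (11 * r / b)) = (44 * θ * r) * (H / (2 * b)) := by ring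
    rw [e1, e2] at h6
    exact le_of_mul_le_mul_right h6 (by positivity)
  have h8 : 44 * θ * r ≤ (ε * (2 * r + 1)) * (ε * μ) := by
    have hr0 : (0 : ℝ) ≤ r := Nat.cast_nonneg r
    have e1 : 44 * θ * r ≤ 2 * (ε ^ 2 * μ) * r := by nlinarith only [hθμ]
    have e2 : (ε * (2 * r + 1)) * (ε * μ) = 2 * (ε ^ 2 * μ) * r + ε ^ 2 * μ := by ring
    have e3 : 0 ≤ ε ^ 2 * μ := by positivity
    linarith only [hθ, hθμ, e1]
  exact le_of_mul_le_mul_right (h7.trans h8) (by positivity)

end Pool.Agent.H.MP_711652_nt
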