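import Mathlib
import Pool.Agent.H.MP_711652_nt.MaxGap
import Pool.Agent.H.MP_711652_nt.Window

set_option autoImplicit false

namespace Pool.Agent.H.MP_711652_nt

open Finset

open Classical in
/-- `p` is typical for the windows `H ≤ r ≤ R` (density normalised by blocks of length `b`). -/
def TypicalB (b : ℕ) (ε δ : ℝ) (H R p : ℕ) : Prop :=
  ∃ μ : ℝ, δ ≤ μ ∧ μ ≤ 1 / δ ∧ ∀ r, H ≤ r → r ≤ R →
    (((Icc (p - r) (p + r)).filter (fun y => ε * (μ * H / b) < |(cnt y H : ℝ) - μ * H / b|)).card : ℝ) ≤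
      ε * (2 * r + 1)

/-- number of `k < m T` close to the boundary of their `T`-block -/
lemma zone_card (m T z : ℕ) (hT : 0 < T) :
    ((range (m * T)).filter (fun k => ¬ (z ≤ k % T ∧ k % T + z < T))).card ≤ m * (2 * z) := by
  have h1 : ((range (m * T)).filter (fun k => ¬ (z ≤ k % T ∧ k % T + z < T))).card =
      ∑ k ∈ range (m * T), if ¬ (z ≤ k % T ∧ k % T + z < T) then 1 else 0 := by
    rw [card_filter]
  have h2 : ∑ k ∈ range (m * T), (if ¬ (z ≤ k % T ∧ k % T + z < T) then 1 else 0 : ℕ) =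
      ∑ q ∈ range m, ∑ i ∈ range T, (if ¬ (z ≤ (q * T + i) % T ∧ (q * T + i) % T + z < T) then 1 else 0) := by
    have := sum_blocks m T (fun k => if ¬ (z ≤ k % T ∧ k % T + z < T) then (1 : ℝ) else 0)
    exact_mod_cast this
  rw [h1, h2]
  have h3 : ∀ q ∈ range m, ∑ i ∈ range T,
      (if ¬ (z ≤ (q * T + i) % T ∧ (q * T + i) % T + z < T) then 1 else 0) ≤ 2 * z := by
    intro q _
    have h4 : ∀ i ∈ range T, (if ¬ (z ≤ (q * T + i) % T ∧ (q * T + i) % T + z < T) then 1 else 0) =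
        (if ¬ (z ≤ i ∧ i + z < T) then 1 else 0) := by
      intro i hi
      rw [mem_range] at hi
      have : (q * T + i) % T = i := by
        rw [Nat.add_comm, Nat.add_mul_mod_self_right, Nat.mod_eq_of_lt hi]
      rw [this]
    rw [sum_congr rfl h4, ← card_filter]
    have hsub : (range T).filter (fun i => ¬ (z ≤ i ∧ i + z < T)) ⊆ range z ∪ Ico (T - z) T := by
      intro i hi
      rw [mem_filter, mem_range] at hi
      rw [mem_union, mem_range, mem_Ico]
      omega
    have h5 := (card_le_card hsub).trans (card_union_le _ _)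
    rw [card_range, Nat.card_Ico] at h5
    omega
  calc _ ≤ ∑ q ∈ range m, 2 * z := sum_le_sum h3
    _ = m * (2 * z) := by rw [sum_const, card_range, smul_eq_mul]

/-- primes in `T`-blocks of low density -/
lemma low_density (b M T X : ℕ) (hb : 0 < b) (hT : 0 < T) (hTM : T ∣ M) (hXM : X < M * b) (δ : ℝ)
    (hδ : 0 < δ) :
    (((Icc 1 X).filter (fun p => p.Prime ∧ avg T (fb b) (p / b) < δ)).card : ℝ) ≤ δ * M := by
  classical
  obtain ⟨m, hm⟩ := hTM
  have hm' : M = m * T := by rw [hm, mul_comm]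
  set g : ℕ → ℝ := fun k => if avg T (fb b) k < δ then 1 else 0 with hg
  have hgc : ∀ q i, i < T → g (q * T + i) = g (q * T) := by
    intro q i hi
    have h1 : avg T (fb b) (q * T + i) = avg T (fb b) (q * T) := by
      have h0 : q * T = q * T + 0 := rfl
      rw [avg_block hi]
      conv_rhs => rw [h0, avg_block hT]
    rw [hg]
    simp only
    rw [h1]
  have h1 : (((Icc 1 X).filter (fun p => p.Prime ∧ avg T (fb b) (p / b) < δ)).card : ℝ) ≤
      ∑ k ∈ range M, fb b k * g k := by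
    set P := (Icc 1 X).filter (fun p => p.Prime ∧ avg T (fb b) (p / b) < δ) with hP
    have hmaps : ∀ p ∈ P, p / b ∈ range M := by
      intro p hp
      rw [hP, mem_filter, mem_Icc] at hp
      rw [mem_range]
      exact (Nat.div_lt_iff_lt_mul hb).2 (by omega)
    rw [card_eq_sum_card_fiberwise hmaps]
    push_cast
    apply sum_le_sum
    intro k _
    rw [hg]
    simp only
    split_ifs with hk
    · rw [mul_one]
      unfold fb Fb
      have : (P.filter (fun p => p / b = k)).card ≤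
          ((range ((k + 1) * b)).filter (fun p => p.Prime ∧ p / b = k)).card := by
        apply card_le_card
        intro p hp
        rw [mem_filter, hP, mem_filter] at hp
        rw [mem_filter, mem_range]
        refine ⟨?_, hp.1.2.1, hp.2⟩
        rw [← Nat.div_lt_iff_lt_mul hb, hp.2]; omega
      exact_mod_cast this
    · have : P.filter (fun p => p / b = k) = ∅ := by
        apply filter_false_of_mem
        intro p hp hpk
        rw [hP, mem_filter] at hp
        rw [hpk] at hp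
        exact hk hp.2.2
      rw [this]
      simp
  have h2 := sum_avg_mul m T hT (fb b) g hgc
  rw [← hm'] at h2
  have h3 : ∑ k ∈ range M, avg T (fb b) k * g k ≤ ∑ k ∈ range M, δ := by
    apply sum_le_sum
    intro k _
    rw [hg]
    simp only
    split_ifs with hk
    · linarith
    · linarith
  rw [sum_const, card_range, nsmul_eq_mul] at h3
  linarith

lemma high_density_card (M T : ℕ) (f : ℕ → ℝ) (δ : ℝ) (hδ : 0 < δ) :
    (((range M).filter (fun k => 1 / δ < avg T f k)).card : ℝ) ≤ δ ^ 2 * En T f M := by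
  have h1 : (((range M).filter (fun k => 1 / δ < avg T f k)).card : ℝ) * (1 / δ) ^ 2 ≤ En T f M := by
    unfold En
    calc (((range M).filter (fun k => 1 / δ < avg T f k)).card : ℝ) * (1 / δ) ^ 2 =
        ∑ k ∈ (range M).filter (fun k => 1 / δ < avg T f k), (1 / δ) ^ 2 := by
          rw [sum_const, nsmul_eq_mul]
      _ ≤ ∑ k ∈ (range M).filter (fun k => 1 / δ < avg T f k), (avg T f k) ^ 2 := by
          apply sum_le_sum
          intro k hk
          rw [mem_filter] at hk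
          apply pow_le_pow_left₀ (by positivity) hk.2.le
      _ ≤ _ := sum_le_sum_of_subset_of_nonneg (filter_subset _ _) (fun k _ _ => sq_nonneg _)
  have h2 : (((range M).filter (fun k => 1 / δ < avg T f k)).card : ℝ) =
      δ ^ 2 * ((((range M).filter (fun k => 1 / δ < avg T f k)).card : ℝ) * (1 / δ) ^ 2) := by
    field_simp
  rw [h2]
  gcongr

open Classical in
/-- One window with a small energy increment is regular. -/
lemma window_regular (X b M s T H R : ℕ) (ε c C δ θ η C₁ : ℝ)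
    (hb : 0 < b) (hs : 0 < s) (hT : 0 < T) (hsT : s ∣ T) (hTM : T ∣ M) (hM : 0 < M)
    (hXM : X < M * b) (hMX : M * b ≤ 2 * X)
    (hε : 0 < ε) (hε1 : ε ≤ 1) (hc : 0 < c) (hC : 0 < C) (hδ : 0 < δ) (hθ : 0 < θ) (hη : 0 < η)
    (hsq : ∑ k ∈ range M, (fb b k) ^ 2 ≤ C * X / b)
    (hbH : b ≤ H) (hHR : H ≤ R) (hsH : 6 * (s * b : ℝ) ≤ ε * H)
    (hTR : C₁ * R / (ε ^ 2 * b) ≤ T)
    (hθδ : 22 * θ ≤ ε ^ 2 * δ) (hηθ : 64 * C * Real.sqrt (2 * η) ≤ θ * ε ^ 2 * c ^ 2)
    (hC₁ : 0 < C₁) (hC₁' : 320 * C ≤ C₁ * c ^ 2)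
    (hδ1 : 8 * δ ≤ ε * c) (hδ2 : 4 * C * δ ≤ ε * c)
    (hEn : En s (fb b) M - En T (fb b) M ≤ η * X / b) :
    (((Icc 1 X).filter (fun p => p.Prime ∧ ¬ TypicalB b ε δ H R p)).card : ℝ) ≤ ε * (c * X / b) := by
  have hb' : (0 : ℝ) < b := by exact_mod_cast hb
  have hs' : (0 : ℝ) < s := by exact_mod_cast hs
  have hT' : (0 : ℝ) < T := by exact_mod_cast hT
  have hM' : (0 : ℝ) < M := by exact_mod_cast hM
  have hX0 : 0 < X := by
    rcases Nat.eq_zero_or_pos X with h | h
    · subst h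
      have := Nat.mul_pos hM hb
      omega
    · exact h
  have hX' : (0 : ℝ) < X := by exact_mod_cast hX0
  have hH' : (0 : ℝ) < H := by exact_mod_cast (by omega : 0 < H)
  have hR' : (0 : ℝ) < R := by exact_mod_cast (by omega : 0 < R)
  have hbR' : (b : ℝ) ≤ R := by exact_mod_cast (by omega : b ≤ R)
  have hHR' : (H : ℝ) ≤ R := by exact_mod_cast hHR
  have hMX' : (M : ℝ) ≤ 2 * X / b := by
    rw [le_div_iff₀ hb']
    exact_mod_cast hMX
  set Y : ℝ := X / b with hY
  have hY0 : 0 < Y := by positivity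
  have hMY : (M : ℝ) ≤ 2 * Y := by rw [hY]; rw [mul_div_assoc] at hMX'; exact hMX'
  have hsqY : ∑ k ∈ range M, (fb b k) ^ 2 ≤ C * Y := by rw [hY, ← mul_div_assoc]; exact hsq
  have hsqF : ∑ k ∈ range M, ((Fb b k : ℕ) : ℝ) ^ 2 ≤ C * Y := hsqY
  -- the truncated discrepancy
  set D : ℕ → ℝ := fun k => if k < M then |avg s (fb b) k - avg T (fb b) k| else 0 with hD
  have hD0 : ∀ k, 0 ≤ D k := by
    intro k; rw [hD]; simp only; split_ifs
    · exact abs_nonneg _
    · exact le_rfl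
  have hDM : ∀ k, M ≤ k → D k = 0 := by
    intro k hk; rw [hD]; simp only; rw [if_neg (by omega)]
  have hDsq : ∑ k ∈ range M, (D k) ^ 2 ≤ η * Y := by
    have h1 := En_sub' M s T hs hsT hTM hM (fb b)
    have h2 : ∑ k ∈ range M, (D k) ^ 2 = ∑ k ∈ range M, (avg s (fb b) k - avg T (fb b) k) ^ 2 := by
      apply sum_congr rfl
      intro k hk
      rw [mem_range] at hk
      rw [hD]; simp only
      rw [if_pos hk, sq_abs]
    rw [h2, h1, hY, ← mul_div_assoc]
    exact hEn
  have hDsum : ∑ k ∈ range M, D k ≤ Real.sqrt (2 * η) * Y := by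
    have h1 : (∑ k ∈ range M, D k) ^ 2 ≤ (range M).card * ∑ k ∈ range M, (D k) ^ 2 :=
      sq_sum_le_card_mul_sum_sq
    rw [card_range] at h1
    have h2 : (∑ k ∈ range M, D k) ^ 2 ≤ (Real.sqrt (2 * η) * Y) ^ 2 := by
      rw [mul_pow, Real.sq_sqrt (by positivity)]
      calc (∑ k ∈ range M, D k) ^ 2 ≤ M * ∑ k ∈ range M, (D k) ^ 2 := h1
        _ ≤ (2 * Y) * (η * Y) := by
          apply mul_le_mul hMY hDsq (sum_nonneg fun k _ => sq_nonneg _) (by positivity)
        _ = 2 * η * Y ^ 2 := by ring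
    exact le_of_sq_le_sq h2 (by positivity) |> fun h => h
  -- exceptional blocks
  set E := (range M).filter (fun k => ∃ ρ : ℕ, θ * (2 * ρ + 1) < ∑ j ∈ Icc (k - ρ) (k + ρ), D j) with hE
  have hEcard : (E.card : ℝ) ≤ 4 * Real.sqrt (2 * η) / θ * Y := by
    have h1 := max_two M D hD0 hDM θ hθ
    rw [← hE] at h1
    rw [div_mul_eq_mul_div, le_div_iff₀ hθ]
    nlinarith only [hDsum, h1]
  set z := (R + H + s * b) / b + 2 with hz
  set Z := (range M).filter (fun k => ¬ (z ≤ k % T ∧ k % T + z < T)) with hZ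
  have hzR : (z : ℝ) ≤ 5 * R / b := by
    have e1 : (((R + H + s * b) / b : ℕ) : ℝ) ≤ ((R + H + s * b : ℕ) : ℝ) / b := Nat.cast_div_le
    have e2 : (z : ℝ) = (((R + H + s * b) / b : ℕ) : ℝ) + 2 := by rw [hz]; push_cast; ring
    have e3 : ((R + H + s * b : ℕ) : ℝ) ≤ 3 * R := by
      push_cast
      nlinarith only [hsH, hR', hHR', hε1]
    have e4 : ((R + H + s * b : ℕ) : ℝ) / b ≤ 3 * R / b := by gcongr
    have e5 : (1 : ℝ) ≤ R / b := by
      rw [one_le_div hb']; exact hbR'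
    have e6 : 5 * (R : ℝ) / b = 3 * R / b + 2 * (R / b) := by ring
    rw [e6]; linarith only [e1, e2, e4, e5]
  have hZcard : (Z.card : ℝ) ≤ 20 * ε ^ 2 / C₁ * Y := by
    obtain ⟨m, hm⟩ := hTM
    have hm' : M = m * T := by rw [hm, mul_comm]
    have h1 : Z.card ≤ m * (2 * z) := by
      rw [hZ, hm']
      exact zone_card m T z hT
    have h2 : (Z.card : ℝ) ≤ m * (2 * z) := by exact_mod_cast h1
    have h3 : (m : ℝ) = M / T := by
      rw [hm']; push_cast; field_simp
    have h4 : (z : ℝ) / T ≤ 5 * ε ^ 2 / C₁ := by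
      rw [div_le_div_iff₀ hT' hC₁]
      have h5 : (z : ℝ) * C₁ ≤ 5 * R / b * C₁ := by gcongr
      have h6 : 5 * R / b * C₁ = 5 * ε ^ 2 * (C₁ * R / (ε ^ 2 * b)) := by field_simp
      have h7 : 5 * ε ^ 2 * (C₁ * R / (ε ^ 2 * b)) ≤ 5 * ε ^ 2 * T := by gcongr
      linarith only [h5, h6, h7]
    calc (Z.card : ℝ) ≤ m * (2 * z) := h2
      _ = 2 * M * (z / T) := by rw [h3]; ring
      _ ≤ 2 * (2 * Y) * (5 * ε ^ 2 / C₁) := by gcongr
      _ = _ := by ring
  set Hd := (range M).filter (fun k => 1 / δ < avg T (fb b) k) with hHd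
  have hHcard : (Hd.card : ℝ) ≤ δ ^ 2 * (C * Y) := by
    have h1 := high_density_card M T (fb b) δ hδ
    rw [← hHd] at h1
    have h2 : En T (fb b) M ≤ C * Y := by
      obtain ⟨m, hm⟩ := hTM
      have hm' : M = m * T := by rw [hm, mul_comm]
      have := En_le m T hT (fb b)
      rw [← hm'] at this
      linarith only [hsqY, this]
    calc (Hd.card : ℝ) ≤ δ ^ 2 * En T (fb b) M := h1
      _ ≤ _ := by gcongr
  -- the four kinds of exceptional primes
  set P := (Icc 1 X).filter (fun p => p.Prime ∧ ¬ TypicalB b ε δ H R p) with hP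
  set P1 := (Icc 1 X).filter (fun p => p.Prime ∧ p / b ∈ E) with hP1
  set P2 := (Icc 1 X).filter (fun p => p.Prime ∧ p / b ∈ Z) with hP2
  set P3 := (Icc 1 X).filter (fun p => p.Prime ∧ avg T (fb b) (p / b) < δ) with hP3
  set P4 := (Icc 1 X).filter (fun p => p.Prime ∧ p / b ∈ Hd) with hP4
  have hsub : P ⊆ (P1 ∪ P2) ∪ (P3 ∪ P4) := by
    intro p hp
    rw [hP, mem_filter] at hp
    obtain ⟨hpI, hpp, hpt⟩ := hp
    by_contra hcon
    rw [mem_union, mem_union, mem_union] at hcon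
    push Not at hcon
    obtain ⟨⟨hn1, hn2⟩, hn3, hn4⟩ := hcon
    rw [hP1, mem_filter] at hn1
    rw [hP2, mem_filter] at hn2
    rw [hP3, mem_filter] at hn3
    rw [hP4, mem_filter] at hn4
    have hkM : p / b < M := by
      rw [mem_Icc] at hpI
      exact (Nat.div_lt_iff_lt_mul hb).2 (by omega)
    have hk : p / b ∈ range M := mem_range.2 hkM
    have h1 : p / b ∉ E := fun h => hn1 ⟨hpI, hpp, h⟩
    have h2 : p / b ∉ Z := fun h => hn2 ⟨hpI, hpp, h⟩
    have h3 : δ ≤ avg T (fb b) (p / b) := by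
      by_contra h
      exact hn3 ⟨hpI, hpp, not_le.1 h⟩
    have h4 : avg T (fb b) (p / b) ≤ 1 / δ := by
      by_contra h
      exact hn4 ⟨hpI, hpp, by rw [hHd, mem_filter]; exact ⟨hk, not_le.1 h⟩⟩
    have h5 : z ≤ (p / b) % T ∧ (p / b) % T + z < T := by
      by_contra h
      exact h2 (by rw [hZ, mem_filter]; exact ⟨hk, h⟩)
    apply hpt
    refine ⟨avg T (fb b) (p / b), h3, h4, ?_⟩
    apply local_regular b s T H R p ε θ (avg T (fb b) (p / b)) hb hs hT hε hε1 hθ hbH hsH rfl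
      (lt_of_lt_of_le hδ h3) _ _ h5.1 h5.2
    · have : ε ^ 2 * δ ≤ ε ^ 2 * avg T (fb b) (p / b) := by gcongr
      linarith only [hθδ, this]
    · intro ρ hρ
      have h6 : ∑ k ∈ Icc (p / b - ρ) (p / b + ρ), |avg s (fb b) k - avg T (fb b) k| =
          ∑ k ∈ Icc (p / b - ρ) (p / b + ρ), D k := by
        apply sum_congr rfl
        intro k hk'
        rw [mem_Icc] at hk'
        rw [hD]; simp only
        rw [if_pos]
        obtain ⟨m, hm⟩ := hTM
        have h7 : p / b / T < m := by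
          rw [Nat.div_lt_iff_lt_mul hT]
          rw [hm, mul_comm] at hkM
          exact hkM
        have h8 : (p / b / T + 1) * T ≤ m * T := Nat.mul_le_mul_right T h7
        have h9 := Nat.div_add_mod (p / b) T
        have h10 : (p / b / T + 1) * T = T * (p / b / T) + T := by ring
        have h11 : m * T = M := by rw [hm, mul_comm]
        omega
      rw [h6]
      by_contra h
      apply h1
      rw [hE, mem_filter]
      exact ⟨hk, ρ, not_le.1 h⟩
  have hq : ∀ (Q W : Finset ℕ) (w : ℝ), (∀ p ∈ Q, p.Prime) → (∀ p ∈ Q, p / b ∈ W) → W ⊆ range M →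
      (W.card : ℝ) ≤ w * Y → w * C ≤ (ε / 4 * c) ^ 2 → (Q.card : ℝ) ≤ ε / 4 * c * Y := by
    intro Q W w hQ hQW hWM hW hw
    have h1 := primes_in_blocks b M hb Q W hQ hQW hWM
    have h2 : (Q.card : ℝ) ^ 2 ≤ (ε / 4 * c * Y) ^ 2 := by
      calc (Q.card : ℝ) ^ 2 ≤ W.card * ∑ k ∈ range M, ((Fb b k : ℕ) : ℝ) ^ 2 := h1
        _ ≤ (w * Y) * (C * Y) :=
          mul_le_mul hW hsqF (sum_nonneg fun k _ => sq_nonneg _) (le_trans (Nat.cast_nonneg _) hW)
        _ = (w * C) * Y ^ 2 := by ring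
        _ ≤ (ε / 4 * c) ^ 2 * Y ^ 2 := by gcongr
        _ = _ := by ring
    exact le_of_sq_le_sq h2 (by positivity) |> fun h => h
  have hc1 : (P1.card : ℝ) ≤ ε / 4 * c * Y := by
    apply hq P1 E (4 * Real.sqrt (2 * η) / θ) (fun p hp => (mem_filter.1 hp).2.1)
      (fun p hp => (mem_filter.1 hp).2.2) (filter_subset _ _) hEcard
    rw [div_mul_eq_mul_div, div_le_iff₀ hθ]
    nlinarith only [hηθ]
  have hc2 : (P2.card : ℝ) ≤ ε / 4 * c * Y := by
    apply hq P2 Z (20 * ε ^ 2 / C₁) (fun p hp => (mem_filter.1 hp).2.1)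
      (fun p hp => (mem_filter.1 hp).2.2) (filter_subset _ _) hZcard
    rw [div_mul_eq_mul_div, div_le_iff₀ hC₁]
    have : 0 ≤ ε ^ 2 := by positivity
    nlinarith only [hC₁']
  have hc3 : (P3.card : ℝ) ≤ ε / 4 * c * Y := by
    have h1 := low_density b M T X hb hT hTM hXM δ hδ
    rw [← hP3] at h1
    calc (P3.card : ℝ) ≤ δ * M := h1
      _ ≤ δ * (2 * Y) := by gcongr
      _ = 8 * δ / 4 * Y := by ring
      _ ≤ (ε * c) / 4 * Y := by gcongr
      _ = _ := by ring
  have hc4 : (P4.card : ℝ) ≤ ε / 4 * c * Y := by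
    apply hq P4 Hd (δ ^ 2 * C) (fun p hp => (mem_filter.1 hp).2.1)
      (fun p hp => (mem_filter.1 hp).2.2) (filter_subset _ _)
    · calc (Hd.card : ℝ) ≤ δ ^ 2 * (C * Y) := hHcard
        _ = _ := by ring
    · have : (δ ^ 2 * C) * C = (δ * C) ^ 2 := by ring
      rw [this]
      apply pow_le_pow_left₀ (by positivity)
      linarith only [hδ2]
  have htot : (P.card : ℝ) ≤ P1.card + P2.card + (P3.card + P4.card) := by
    have h1 := card_le_card hsub
    have h2 := card_union_le (P1 ∪ P2) (P3 ∪ P4)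
    have h3 := card_union_le P1 P2
    have h4 := card_union_le P3 P4
    have h5 : P.card ≤ P1.card + P2.card + (P3.card + P4.card) := by omega
    exact_mod_cast h5
  calc (P.card : ℝ) ≤ P1.card + P2.card + (P3.card + P4.card) := htot
    _ ≤ 4 * (ε / 4 * c * Y) := by linarith only [hc1, hc2, hc3, hc4]
    _ = ε * (c * X / b) := by rw [hY]; ring

end Pool.Agent.H.MP_711652_nt
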