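import Mathlib
import Pool.Agent.H.MP_711652_nt.Strong
import Pool.Agent.H.MP_711652_nt.Dya

set_option autoImplicit false

namespace Pool.Agent.H.MP_711652_nt

open Finset

open Classical in
/-- `p` is typical for all `H ≤ h ≤ r ≤ R`: there is a local density `lam` such that for all scales
`h` and radii `r` with `H ≤ h ≤ r ≤ R`, for all but an `ε`-proportion of the `y` within `r` of `p`,
the number of primes in `(y, y + h]` is `(1 ± ε) lam h / log X`. -/
def TypicalA (X : ℕ) (ε δ : ℝ) (H R p : ℕ) : Prop :=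
  ∃ lam : ℝ, δ ≤ lam ∧ lam ≤ 1 / δ ∧ ∀ h, H ≤ h → h ≤ R → ∀ r, h ≤ r → r ≤ R →
    (((Icc (p - r) (p + r)).filter (fun y => ε * (lam * h / Real.log X) <
      |(cnt y h : ℝ) - lam * h / Real.log X|)).card : ℝ) ≤ ε * (2 * r + 1)

open Classical in
/-- all but an `ε`-proportion of the primes `p ≤ X` are typical. -/
def RegularA (X : ℕ) (ε δ : ℝ) (H R : ℕ) : Prop :=
  (((Icc 1 X).filter (fun p => p.Prime ∧ ¬ TypicalA X ε δ H R p)).card : ℝ) ≤
    ε * Nat.primeCounting X

lemma typicalA_of_typicalBA (X : ℕ) (ε δ δ' : ℝ) (H R p : ℕ) (hb : 2 ≤ ⌈Real.log X⌉₊)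
    (hδ : 0 < δ) (hδ' : 0 < δ') (hdd : 2 * δ' ≤ δ)
    (ht : TypicalBA ⌈Real.log X⌉₊ ε δ H R p) : TypicalA X ε δ' H R p := by
  set L := Real.log X with hL
  set b := ⌈L⌉₊ with hb'
  have hLpos : 0 < L := by
    by_contra hneg
    have : b = 0 := Nat.ceil_eq_zero.2 (not_lt.1 hneg)
    omega
  have hb2 : (2 : ℝ) ≤ b := by exact_mod_cast hb
  have hb0 : (0 : ℝ) < b := by linarith
  have hLb : L ≤ b := Nat.le_ceil _
  have hbL : (b : ℝ) < L + 1 := Nat.ceil_lt_add_one hLpos.le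
  have hbL2 : (b : ℝ) ≤ 2 * L := by linarith
  obtain ⟨μ, h1, h2, h3⟩ := ht
  have hμ : 0 < μ := lt_of_lt_of_le hδ h1
  refine ⟨μ * L / b, ?_, ?_, ?_⟩
  · rw [le_div_iff₀ hb0]
    nlinarith only [hδ', hb2, hbL, hdd, hLpos, h1]
  · have h4 : μ * L / b ≤ μ := by
      rw [div_le_iff₀ hb0]
      nlinarith only [hδ, hLb, h1]
    have h5 : 1 / δ ≤ 1 / δ' := by
      apply one_div_le_one_div_of_le hδ'
      linarith
    linarith
  · intro h hh1 hh2 r hr1 hr2
    have h4 : μ * L / b * h / L = μ * h / b := by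
      field_simp
    rw [h4]
    exact h3 h hh1 hh2 r hr1 hr2

open Classical in
/-- **Local equidistribution of primes: all but a bounded number of scales are regular.** -/
theorem regularity_all : ∃ C : ℝ, 1 ≤ C ∧ ∃ X₀ : ℕ, ∀ X : ℕ, X₀ ≤ X → ∀ ε : ℝ, 0 < ε → ε ≤ 1 →
    ∀ (J : ℕ) (H R : ℕ → ℕ),
    (∀ i, i < J → C * Real.log X ≤ ε ^ 3 * H i) →
    (∀ i, i < J → H i ≤ R i) →
    (∀ i, i + 1 < J → C * R i ≤ ε ^ 3 * H (i + 1)) →
    (∀ i, i < J → C * R i ≤ ε ^ 3 * X) →
    (((range J).filter (fun i => ¬ RegularA X ε (ε / C) (H i) (R i))).card : ℝ) ≤ C / ε ^ 10 := by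
  obtain ⟨c, C₂, hc, hC₂, X₀, hX₀⟩ := basic_estimates
  set δ₀ : ℝ := c / (8 * (C₂ + 1)) with hδ₀
  have hδ₀pos : 0 < δ₀ := by positivity
  set κ₀ : ℝ := δ₀ * c ^ 2 / (22 * 64 * C₂) with hκ₀
  have hκ₀pos : 0 < κ₀ := by positivity
  set C₁ : ℝ := 320 * C₂ / c ^ 2 + 1 with hC₁
  have hC₁pos : 0 < C₁ := by positivity
  have hC₁one : 1 ≤ C₁ := by
    have : 0 < 320 * C₂ / c ^ 2 := by positivity
    linarith
  set C : ℝ := 24 * C₁ + C₂ / (κ₀ ^ 2 / 2) + 2 / δ₀ + 12 with hC
  have hp1 : 0 < C₂ / (κ₀ ^ 2 / 2) := by positivity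
  have hp2 : 0 < 2 / δ₀ := by positivity
  have hC12 : 12 ≤ C := by linarith only [hC₁pos, hC, hp1, hp2]
  have hC24 : 24 * C₁ ≤ C := by linarith only [hC, hp1, hp2]
  have hCδ : 2 / δ₀ ≤ C := by linarith only [hC₁pos, hC, hp1]
  have hCη : C₂ / (κ₀ ^ 2 / 2) ≤ C := by linarith only [hC₁pos, hC, hp2]
  have hC0 : 0 < C := by linarith only [hC₁pos, hC, hp1, hp2]
  refine ⟨C, by linarith only [hC₁pos, hC, hp1, hp2], X₀, ?_⟩
  intro X hX ε hε hε1 J H R hH hHR hRH hRX
  obtain ⟨hb2, hb4, hpi, -, hsq⟩ := hX₀ X hX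
  set L := Real.log X with hL
  set b := ⌈L⌉₊ with hb
  have hLpos : 0 < L := by
    by_contra hneg
    have : b = 0 := Nat.ceil_eq_zero.2 (not_lt.1 hneg)
    omega
  have hbr2 : (2 : ℝ) ≤ b := by exact_mod_cast hb2
  have hb0 : (0 : ℝ) < b := by linarith only [hbr2]
  have hLb : L ≤ b := Nat.le_ceil _
  have hbL : (b : ℝ) < L + 1 := Nat.ceil_lt_add_one hLpos.le
  have hbL2 : (b : ℝ) ≤ 2 * L := by linarith only [hbr2, hbL]
  have hbX : b ≤ X := by
    have : b ≤ b ^ 4 := Nat.le_self_pow (by norm_num) b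
    omega
  have hX0 : (0 : ℝ) < X := by exact_mod_cast (by omega : 0 < X)
  have hε2 : ε ^ 2 ≤ 1 := pow_le_one₀ hε.le hε1
  have hε3 : ε ^ 3 ≤ ε := by
    calc ε ^ 3 = ε * ε ^ 2 := by ring
      _ ≤ ε * 1 := by gcongr
      _ = ε := by ring
  have hε3' : ε ^ 3 ≤ ε ^ 2 := by
    calc ε ^ 3 = ε ^ 2 * ε := by ring
      _ ≤ ε ^ 2 * 1 := by gcongr
      _ = ε ^ 2 := by ring
  -- basic size facts
  have hH6 : ∀ i, i < J → 6 * (b : ℝ) ≤ ε * H i := by
    intro i hi
    have h1 := hH i hi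
    have h2 : ε ^ 3 * (H i : ℝ) ≤ ε * H i := by gcongr
    have h3 : 12 * L ≤ C * L := mul_le_mul_of_nonneg_right hC12 hLpos.le
    linarith only [hbr2, hbL, h1, h2, h3]
  have hHb : ∀ i, i < J → 6 * (b : ℝ) ≤ H i := by
    intro i hi
    have h1 := hH6 i hi
    have h2 : ε * (H i : ℝ) ≤ 1 * H i := by gcongr
    linarith only [h1, h2]
  have hHRr : ∀ i, i < J → (H i : ℝ) ≤ R i := fun i hi => by exact_mod_cast hHR i hi
  -- dyadic scales
  have hexa : ∀ i, ∃ n : ℕ, i < J → (2 : ℝ) ^ n ≤ ε * H i / (6 * b) ∧ ε * H i / (6 * b) < 2 * 2 ^ n := by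
    intro i
    by_cases hi : i < J
    · have h1 : 1 ≤ ε * H i / (6 * b) := by
        rw [le_div_iff₀ (by positivity), one_mul]
        exact hH6 i hi
      obtain ⟨n, hn⟩ := dyadic_near _ h1
      exact ⟨n, fun _ => hn⟩
    · exact ⟨0, fun h => absurd h hi⟩
  have hexd : ∀ i, ∃ n : ℕ, i < J → C₁ * R i / (ε ^ 2 * b) < (2 : ℝ) ^ n ∧
      (2 : ℝ) ^ n ≤ 2 * (C₁ * R i / (ε ^ 2 * b)) := by
    intro i
    by_cases hi : i < J
    · have h1 : 1 ≤ C₁ * R i / (ε ^ 2 * b) := by
        rw [le_div_iff₀ (by positivity), one_mul]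
        have h2 := hHb i hi
        have h3 := hHRr i hi
        calc ε ^ 2 * b ≤ 1 * b := by gcongr
          _ ≤ 1 * R i := by linarith only [hbr2, h2, h3]
          _ ≤ C₁ * R i := by gcongr
      obtain ⟨n, hn1, hn2⟩ := dyadic_near _ h1
      refine ⟨n + 1, fun _ => ?_⟩
      rw [pow_succ (2 : ℝ) n]
      exact ⟨by linarith only [hn2], by linarith only [hn1]⟩
    · exact ⟨0, fun h => absurd h hi⟩
  choose a ha using hexa
  choose d hd using hexd
  have had : ∀ i, i < J → a i ≤ d i := by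
    intro i hi
    obtain ⟨h1, -⟩ := ha i hi
    obtain ⟨h2, -⟩ := hd i hi
    have h3 : ε * H i / (6 * b) ≤ C₁ * R i / (ε ^ 2 * b) := by
      rw [div_le_div_iff₀ (by positivity) (by positivity)]
      have h4 := hHRr i hi
      have hR0 : (0 : ℝ) ≤ R i := Nat.cast_nonneg _
      have h5 : ε * H i * (ε ^ 2 * b) = (ε ^ 3 * H i) * b := by ring
      have h6 : C₁ * R i * (6 * b) = (6 * C₁ * R i) * b := by ring
      rw [h5, h6]
      apply mul_le_mul_of_nonneg_right _ hb0.le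
      calc ε ^ 3 * (H i : ℝ) ≤ 1 * R i := by
            apply mul_le_mul (by linarith only [hε1, hε3]) h4 (Nat.cast_nonneg _) (by norm_num)
        _ ≤ 6 * C₁ * R i := by
            apply mul_le_mul_of_nonneg_right _ hR0
            linarith only [hC₁pos, hC₁one]
    have h4 : (2 : ℝ) ^ (a i) < 2 ^ (d i) := by linarith only [h1, h2, h3]
    exact ((pow_lt_pow_iff_right₀ (by norm_num : (1 : ℝ) < 2)).1 h4).le
  have hda : ∀ i, i + 1 < J → d i ≤ a (i + 1) := by
    intro i hi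
    obtain ⟨-, h1⟩ := hd i (by omega)
    obtain ⟨-, h2⟩ := ha (i + 1) hi
    have h3 : 2 * (C₁ * R i / (ε ^ 2 * b)) ≤ ε * H (i + 1) / (6 * b) / 2 := by
      have h4 := hRH i hi
      have hR0 : (0 : ℝ) ≤ R i := Nat.cast_nonneg _
      rw [div_div, ← mul_div_assoc, div_le_div_iff₀ (by positivity) (by positivity)]
      have h5 : 2 * (C₁ * R i) * (6 * b * 2) = (24 * C₁ * R i) * b := by ring
      have h6 : ε * H (i + 1) * (ε ^ 2 * b) = (ε ^ 3 * H (i + 1)) * b := by ring
      rw [h5, h6]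
      apply mul_le_mul_of_nonneg_right _ hb0.le
      calc 24 * C₁ * (R i : ℝ) ≤ C * R i := by gcongr
        _ ≤ _ := h4
    have h4 : (2 : ℝ) ^ (d i) < 2 ^ (a (i + 1)) := by linarith only [h1, h2, h3]
    exact ((pow_lt_pow_iff_right₀ (by norm_num : (1 : ℝ) < 2)).1 h4).le
  have hdX : ∀ i, i < J → 2 ^ (d i) * b ≤ X := by
    intro i hi
    obtain ⟨-, h1⟩ := hd i hi
    have h2 := hRX i hi
    have hR0 : (0 : ℝ) ≤ R i := Nat.cast_nonneg _
    have h3 : (2 : ℝ) ^ (d i) * b ≤ X := by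
      calc (2 : ℝ) ^ (d i) * b ≤ 2 * (C₁ * R i / (ε ^ 2 * b)) * b := by gcongr
        _ = 2 * C₁ * R i / ε ^ 2 := by field_simp
        _ ≤ X := by
          rw [div_le_iff₀ (by positivity)]
          calc 2 * C₁ * R i ≤ C * R i := by
                apply mul_le_mul_of_nonneg_right _ hR0
                linarith only [hC₁pos, hC, hp1, hp2]
            _ ≤ ε ^ 3 * X := h2
            _ ≤ ε ^ 2 * X := by gcongr
            _ = X * ε ^ 2 := by ring
    exact_mod_cast h3
  -- the common multiple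
  have hXb : X / b ≠ 0 := by
    have : 0 < X / b := Nat.div_pos hbX (by omega)
    omega
  set D := 2 ^ (Nat.log 2 (X / b)) with hD
  have hDle : D ≤ X / b := Nat.pow_log_le_self 2 hXb
  have hDb : D * b ≤ X := by
    calc D * b ≤ X / b * b := Nat.mul_le_mul_right b hDle
      _ ≤ X := Nat.div_mul_le_self _ _
  have hD0 : 0 < D := by positivity
  have hdD : ∀ i, i < J → 2 ^ (d i) ∣ D := by
    intro i hi
    apply pow_dvd_pow
    have h1 := hdX i hi
    have h2 : 2 ^ (d i) ≤ X / b := (Nat.le_div_iff_mul_le (by omega)).2 h1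
    exact Nat.le_log_of_pow_le (by norm_num) h2
  set M := (X / (D * b) + 1) * D with hM
  have hDbpos : 0 < D * b := Nat.mul_pos hD0 (by omega)
  have hMpos : 0 < M := Nat.mul_pos (Nat.succ_pos _) hD0
  have hMb : M * b = (X / (D * b) + 1) * (D * b) := by rw [hM]; ring
  have hXM : X < M * b := by
    rw [hMb, ← Nat.div_lt_iff_lt_mul hDbpos]
    exact Nat.lt_succ_self _
  have hMX : M * b ≤ 2 * X := by
    have h1 := Nat.div_mul_le_self X (D * b)
    have h2 : M * b = X / (D * b) * (D * b) + D * b := by rw [hMb]; ring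
    omega
  have hsqM := hsq M hMX
  -- parameters
  set δ : ℝ := δ₀ * ε with hδ
  have hδpos : 0 < δ := by positivity
  set θ : ℝ := ε ^ 2 * δ / 22 with hθ
  have hθpos : 0 < θ := by positivity
  set κ : ℝ := κ₀ * ε ^ 5 with hκ
  have hκpos : 0 < κ := by positivity
  set η : ℝ := κ ^ 2 / 2 with hη
  have hηpos : 0 < η := by positivity
  have hsqrt : Real.sqrt (2 * η) = κ := by
    have : 2 * η = κ ^ 2 := by rw [hη]; ring
    rw [this]
    exact Real.sqrt_sq hκpos.le
  have hη' : 0 < η * X / b := by positivity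
  have hpig := chain_pigeonhole M J (fun i => 2 ^ (a i)) (fun i => 2 ^ (d i)) hMpos (fb b)
    (η * X / b) hη' (fun i _ => by positivity) (fun i hi => pow_dvd_pow 2 (had i hi))
    (fun i hi => (hdD i hi).trans (dvd_mul_left _ _)) (fun i hi => pow_dvd_pow 2 (hda i hi))
  have hsub : (range J).filter (fun i => ¬ RegularA X ε (ε / C) (H i) (R i)) ⊆
      (range J).filter (fun i => η * X / b < En (2 ^ (a i)) (fb b) M - En (2 ^ (d i)) (fb b) M) := by
    intro i hi
    rw [mem_filter, mem_range] at hi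
    obtain ⟨hiJ, hreg⟩ := hi
    rw [mem_filter, mem_range]
    refine ⟨hiJ, ?_⟩
    by_contra hcon
    apply hreg
    obtain ⟨ha1, ha2⟩ := ha i hiJ
    obtain ⟨hd1, hd2⟩ := hd i hiJ
    have h1 := window_regular_all X b M (2 ^ (a i)) (2 ^ (d i)) (H i) (R i) ε c C₂ δ θ η C₁
      (by omega) (by positivity) (by positivity) (pow_dvd_pow 2 (had i hiJ))
      ((hdD i hiJ).trans (dvd_mul_left _ _)) hMpos hXM hMX hε hε1 hc hC₂ hδpos hθpos hηpos
      hsqM (by
        have := hHb i hiJ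
        have h2 : (b : ℝ) ≤ H i := by linarith only [hbr2, this]
        exact_mod_cast h2) (hHR i hiJ)
      (by
        push_cast
        rw [le_div_iff₀ (by positivity)] at ha1
        linarith only [ha1])
      (by push_cast; exact hd1.le)
      (by rw [hθ]; linarith)
      (by
        rw [hsqrt, hκ, hκ₀, hθ, hδ]
        apply le_of_eq
        field_simp)
      hC₁pos
      (by
        rw [hC₁, add_mul]
        have : 320 * C₂ / c ^ 2 * c ^ 2 = 320 * C₂ := by field_simp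
        rw [this]
        have := sq_nonneg c
        linarith only [this])
      (by
        rw [hδ, hδ₀]
        have : 8 * (c / (8 * (C₂ + 1)) * ε) = ε * c / (C₂ + 1) := by field_simp
        rw [this, div_le_iff₀ (by positivity)]
        have : 0 < ε * c := by positivity
        exact le_mul_of_one_le_right this.le (by linarith only [hC₂]))
      (by
        rw [hδ, hδ₀]
        have : 4 * C₂ * (c / (8 * (C₂ + 1)) * ε) = ε * c * C₂ / (2 * (C₂ + 1)) := by field_simp; ring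
        rw [this, div_le_iff₀ (by positivity)]
        have : 0 < ε * c := by positivity
        exact mul_le_mul_of_nonneg_left (by linarith only [hC₂]) this.le)
      (not_lt.1 hcon)
    unfold RegularA
    have h2 : (((Icc 1 X).filter (fun p => p.Prime ∧ ¬ TypicalA X ε (ε / C) (H i) (R i) p)).card : ℝ) ≤
        (((Icc 1 X).filter (fun p => p.Prime ∧ ¬ TypicalBA b ε δ (H i) (R i) p)).card : ℝ) := by
      have : (Icc 1 X).filter (fun p => p.Prime ∧ ¬ TypicalA X ε (ε / C) (H i) (R i) p) ⊆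
          (Icc 1 X).filter (fun p => p.Prime ∧ ¬ TypicalBA b ε δ (H i) (R i) p) := by
        intro p hp
        rw [mem_filter] at hp ⊢
        refine ⟨hp.1, hp.2.1, fun ht => hp.2.2 ?_⟩
        apply typicalA_of_typicalBA X ε δ (ε / C) (H i) (R i) p hb2 hδpos (by positivity) _ ht
        rw [hδ, mul_div_assoc', div_le_iff₀ hC0]
        have h5 : 2 ≤ C * δ₀ := by
          rw [div_le_iff₀ hδ₀pos] at hCδ
          exact hCδ
        calc 2 * ε ≤ (C * δ₀) * ε := mul_le_mul_of_nonneg_right h5 hε.le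
          _ = δ₀ * ε * C := by ring
      exact_mod_cast card_le_card this
    refine h2.trans (h1.trans ?_)
    gcongr
  have hcard : (((range J).filter (fun i => ¬ RegularA X ε (ε / C) (H i) (R i))).card : ℝ) * (η * X / b) ≤
      C₂ * X / b := by
    calc _ ≤ (((range J).filter (fun i => η * X / b < En (2 ^ (a i)) (fb b) M -
        En (2 ^ (d i)) (fb b) M)).card : ℝ) * (η * X / b) := by
          apply mul_le_mul_of_nonneg_right _ hη'.le
          exact_mod_cast card_le_card hsub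
      _ ≤ _ := hpig
      _ ≤ _ := hsqM
  have h1 : (((range J).filter (fun i => ¬ RegularA X ε (ε / C) (H i) (R i))).card : ℝ) * η ≤ C₂ := by
    have e1 : (((range J).filter (fun i => ¬ RegularA X ε (ε / C) (H i) (R i))).card : ℝ) * (η * X / b) =
        ((((range J).filter (fun i => ¬ RegularA X ε (ε / C) (H i) (R i))).card : ℝ) * η) * (X / b) := by ring
    have e2 : C₂ * X / b = C₂ * (X / b) := by ring
    rw [e1, e2] at hcard
    exact le_of_mul_le_mul_right hcard (by positivity)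
  rw [le_div_iff₀ (by positivity)]
  have h2 : η = (κ₀ ^ 2 / 2) * ε ^ 10 := by rw [hη, hκ]; ring
  rw [h2] at h1
  have h3 : (((range J).filter (fun i => ¬ RegularA X ε (ε / C) (H i) (R i))).card : ℝ) * ε ^ 10 ≤
      C₂ / (κ₀ ^ 2 / 2) := by
    rw [le_div_iff₀ (by positivity)]
    linarith only [h1]
  linarith only [hC₁pos, hC, hp2, h3]

end Pool.Agent.H.MP_711652_nt
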