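import Mathlib

set_option autoImplicit false

namespace Pool.Agent.H.MP_711652_nt

open Finset MeasureTheory Filter

open Classical in
/-- The levels `n ≥ n₁` with `2 ^ i ≤ log n < 2 ^ (i + 1)`. -/
noncomputable def blk (n₁ i : ℕ) : Finset ℕ :=
  (Icc 1 ⌊Real.exp (2 ^ (i + 1))⌋₊).filter
    (fun n => n₁ ≤ n ∧ (2 : ℝ) ^ i ≤ Real.log n ∧ Real.log n < 2 ^ (i + 1))

lemma mem_blk (n₁ i n : ℕ) : n ∈ blk n₁ i ↔ n₁ ≤ n ∧ (2 : ℝ) ^ i ≤ Real.log n ∧
    Real.log n < 2 ^ (i + 1) := by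
  unfold blk
  rw [mem_filter, mem_Icc]
  constructor
  · exact fun h => h.2
  · intro h
    refine ⟨⟨?_, ?_⟩, h⟩
    · by_contra hn
      have : n = 0 := by omega
      subst this
      have h1 : (0 : ℝ) < 2 ^ i := by positivity
      have h2 := h.2.1
      simp only [Nat.cast_zero, Real.log_zero] at h2
      linarith
    · have hn : (0 : ℝ) < n := by
        rcases Nat.eq_zero_or_pos n with h0 | h0
        · subst h0
          have h1 : (0 : ℝ) < 2 ^ i := by positivity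
          have h2 := h.2.1
          simp only [Nat.cast_zero, Real.log_zero] at h2
          linarith
        · exact_mod_cast h0
      apply Nat.le_floor
      rw [← Real.log_le_iff_le_exp hn]
      exact h.2.2.le

lemma sum_blk_le (n₁ i : ℕ) : ∑ n ∈ blk n₁ i, 1 / (n : ℝ) ≤ 3 * 2 ^ i := by
  set N := ⌊Real.exp (2 ^ (i + 1))⌋₊ with hN
  have h1 : ∑ n ∈ blk n₁ i, 1 / (n : ℝ) ≤ ∑ n ∈ Icc 1 N, 1 / (n : ℝ) := by
    apply sum_le_sum_of_subset_of_nonneg
    · unfold blk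
      exact filter_subset _ _
    · intro n _ _
      positivity
  have h2 := harmonic_le_one_add_log N
  rw [harmonic_eq_sum_Icc] at h2
  push_cast at h2
  have h3 : Real.log N ≤ 2 ^ (i + 1) := by
    rcases Nat.eq_zero_or_pos N with h0 | h0
    · rw [h0]
      simp only [Nat.cast_zero, Real.log_zero]
      positivity
    · rw [Real.log_le_iff_le_exp (by exact_mod_cast h0)]
      exact Nat.floor_le (Real.exp_pos _).le
  have h4 : (1 : ℝ) ≤ 2 ^ i := one_le_pow₀ (by norm_num)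
  have h5 : (2 : ℝ) ^ (i + 1) = 2 * 2 ^ i := by rw [pow_succ]; ring
  simp only [one_div] at h1 ⊢
  linarith

open Classical in
/-- weight of a bad level -/
noncomputable def aS (n₁ : ℕ) (S : Set ℕ) (n : ℕ) : ℝ := if n₁ ≤ n ∧ n ∈ S then 1 / (n : ℝ) else 0

lemma aS_nonneg (n₁ : ℕ) (S : Set ℕ) (n : ℕ) : 0 ≤ aS n₁ S n := by
  unfold aS
  split_ifs <;> positivity

open Classical in
/-- If the bad levels of `α` have positive upper logarithmic density, then infinitely many blocks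
contain many bad levels. -/
lemma frequently_block (S : Set ℕ) (n₁ : ℕ) (τ : ℝ) (hτ : 0 < τ)
    (h : ∃ᶠ N : ℕ in atTop, τ * Real.log N < ∑ n ∈ range N, aS n₁ S n) :
    ∃ᶠ i : ℕ in atTop, τ / 8 * 2 ^ i ≤ ∑ n ∈ blk n₁ i, if n ∈ S then 1 / (n : ℝ) else 0 := by
  by_contra hcon
  rw [not_frequently] at hcon
  obtain ⟨i₀, hi₀⟩ := eventually_atTop.1 hcon
  set R := ⌈Real.exp (2 ^ i₀)⌉₊ with hR
  set D := ∑ n ∈ range R, 1 / (n : ℝ) with hD
  have hlog : Tendsto (fun n : ℕ => Real.log n) atTop atTop :=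
    Real.tendsto_log_atTop.comp tendsto_natCast_atTop_atTop
  have e1 := hlog.eventually_ge_atTop (max 1 (2 * D / τ))
  obtain ⟨N, hN, hlogN⟩ := (h.and_eventually e1).exists
  have hl1 : 1 ≤ Real.log N := le_trans (le_max_left _ _) hlogN
  have hl2 : D ≤ τ / 2 * Real.log N := by
    have := le_trans (le_max_right _ _) hlogN
    rw [div_le_iff₀ hτ] at this
    linarith
  obtain ⟨I, hI1, hI2⟩ := exists_nat_pow_near hl1 (by norm_num : (1 : ℝ) < 2)
  set a : ℕ → ℝ := aS n₁ S with ha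
  have ha0 : ∀ n, 0 ≤ a n := aS_nonneg n₁ S
  have hcover : range N ⊆ range R ∪ ((Icc i₀ I).biUnion (fun i => blk 0 i)) := by
    intro n hn
    rw [mem_range] at hn
    rw [mem_union, mem_range, mem_biUnion]
    by_cases hnR : n < R
    · left; exact hnR
    · right
      push Not at hnR
      have hnR' : (R : ℝ) ≤ n := by exact_mod_cast hnR
      have h1 : Real.exp (2 ^ i₀) ≤ n := (Nat.le_ceil _).trans hnR'
      have hn0 : (0 : ℝ) < n := lt_of_lt_of_le (Real.exp_pos _) h1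
      have h2 : (2 : ℝ) ^ i₀ ≤ Real.log n := by
        rw [Real.le_log_iff_exp_le hn0]
        exact h1
      have h3 : (1 : ℝ) ≤ Real.log n := (one_le_pow₀ (by norm_num)).trans h2
      obtain ⟨i, hi1, hi2⟩ := exists_nat_pow_near h3 (by norm_num : (1 : ℝ) < 2)
      have h4 : Real.log n ≤ Real.log N := Real.log_le_log hn0 (by exact_mod_cast hn.le)
      refine ⟨i, ?_, ?_⟩
      · rw [mem_Icc]
        constructor
        · have h5 : (2 : ℝ) ^ i₀ < 2 ^ (i + 1) := lt_of_le_of_lt h2 hi2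
          have := (pow_lt_pow_iff_right₀ (by norm_num : (1 : ℝ) < 2)).1 h5
          omega
        · have h5 : (2 : ℝ) ^ i < 2 ^ (I + 1) := lt_of_le_of_lt (hi1.trans h4) hI2
          have := (pow_lt_pow_iff_right₀ (by norm_num : (1 : ℝ) < 2)).1 h5
          omega
      · rw [mem_blk]
        exact ⟨Nat.zero_le _, hi1, hi2⟩
  have h1 : ∑ n ∈ range N, a n ≤ ∑ n ∈ range R, a n + ∑ i ∈ Icc i₀ I, ∑ n ∈ blk 0 i, a n := by
    refine (sum_le_sum_of_subset_of_nonneg hcover (fun n _ _ => ha0 n)).trans ?_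
    have h2 := sum_union_inter (s₁ := range R) (s₂ := (Icc i₀ I).biUnion (fun i => blk 0 i)) (f := a)
    have h3 : 0 ≤ ∑ n ∈ range R ∩ (Icc i₀ I).biUnion (fun i => blk 0 i), a n :=
      sum_nonneg fun n _ => ha0 n
    have h4 : ∑ n ∈ (Icc i₀ I).biUnion (fun i => blk 0 i), a n ≤
        ∑ i ∈ Icc i₀ I, ∑ n ∈ blk 0 i, a n := by
      rw [← sum_biUnion]
      intro i _ i' _ hii
      rw [Function.onFun, disjoint_left]
      intro n hn hn'
      rw [mem_blk] at hn hn'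
      apply hii
      have h5 : (2 : ℝ) ^ i < 2 ^ (i' + 1) := lt_of_le_of_lt hn.2.1 hn'.2.2
      have h6 : (2 : ℝ) ^ i' < 2 ^ (i + 1) := lt_of_le_of_lt hn'.2.1 hn.2.2
      have := (pow_lt_pow_iff_right₀ (by norm_num : (1 : ℝ) < 2)).1 h5
      have := (pow_lt_pow_iff_right₀ (by norm_num : (1 : ℝ) < 2)).1 h6
      omega
    linarith
  have h2 : ∑ n ∈ range R, a n ≤ D := by
    apply sum_le_sum
    intro n _
    rw [ha]
    unfold aS
    split_ifs
    · exact le_rfl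
    · positivity
  have h3 : ∀ i ∈ Icc i₀ I, ∑ n ∈ blk 0 i, a n ≤ τ / 8 * 2 ^ i := by
    intro i hi
    rw [mem_Icc] at hi
    have h4 := hi₀ i hi.1
    push Not at h4
    refine le_trans ?_ h4.le
    have h5 : ∑ n ∈ blk 0 i, a n = ∑ n ∈ (blk 0 i).filter (fun n => n₁ ≤ n), a n := by
      rw [sum_filter]
      apply sum_congr rfl
      intro n _
      split_ifs with h6
      · rfl
      · rw [ha]
        unfold aS
        rw [if_neg]
        exact fun h => h6 h.1
    rw [h5]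
    have h6 : (blk 0 i).filter (fun n => n₁ ≤ n) ⊆ blk n₁ i := by
      intro n hn
      rw [mem_filter, mem_blk] at hn
      rw [mem_blk]
      exact ⟨hn.2, hn.1.2⟩
    refine (sum_le_sum_of_subset_of_nonneg h6 (fun n _ _ => ha0 n)).trans ?_
    apply sum_le_sum
    intro n _
    rw [ha]
    unfold aS
    split_ifs with h7 h8 h8
    · exact le_rfl
    · exact absurd h7.2 h8
    · positivity
    · exact le_rfl
  have h4 : ∑ i ∈ Icc i₀ I, ∑ n ∈ blk 0 i, a n ≤ τ / 4 * Real.log N := by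
    refine (sum_le_sum h3).trans ?_
    rw [← mul_sum]
    have h5 : ∑ i ∈ Icc i₀ I, (2 : ℝ) ^ i ≤ 2 ^ (I + 1) := by
      have h6 : ∑ i ∈ Icc i₀ I, (2 : ℝ) ^ i ≤ ∑ i ∈ range (I + 1), (2 : ℝ) ^ i := by
        apply sum_le_sum_of_subset_of_nonneg
        · intro i hi
          rw [mem_Icc] at hi
          rw [mem_range]
          omega
        · intro i _ _
          positivity
      rw [geom_sum_eq (by norm_num)] at h6
      linarith
    have h6 : (2 : ℝ) ^ (I + 1) = 2 * 2 ^ I := by rw [pow_succ]; ring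
    calc τ / 8 * ∑ i ∈ Icc i₀ I, (2 : ℝ) ^ i ≤ τ / 8 * 2 ^ (I + 1) := by gcongr
      _ = τ / 4 * 2 ^ I := by rw [h6]; ring
      _ ≤ _ := by gcongr
  have h5 : 0 < τ * Real.log N := by positivity
  linarith

open Classical in
/-- The grid cells meeting many bad levels. -/
noncomputable def cellsOf (n₁ : ℕ) (G : ℕ → ℕ → Finset ℤ) (τ : ℝ) (i : ℕ) : Finset ℤ :=
  ((blk n₁ i).biUnion (fun n => G i n)).filter
    (fun m => τ / 8 * 2 ^ i ≤ ∑ n ∈ blk n₁ i, if m ∈ G i n then 1 / (n : ℝ) else 0)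

lemma cellsOf_card (n₁ : ℕ) (G : ℕ → ℕ → Finset ℤ) (τ : ℝ) (hτ : 0 < τ) (i : ℕ) (B : ℝ)
    (hG : ∀ n ∈ blk n₁ i, ((G i n).card : ℝ) ≤ B) (hB : 0 ≤ B) :
    ((cellsOf n₁ G τ i).card : ℝ) ≤ 24 / τ * B := by
  classical
  set U := (blk n₁ i).biUnion (fun n => G i n) with hU
  have h1 : ((cellsOf n₁ G τ i).card : ℝ) * (τ / 8 * 2 ^ i) ≤
      ∑ m ∈ U, ∑ n ∈ blk n₁ i, if m ∈ G i n then 1 / (n : ℝ) else 0 := by
    have h2 : ∑ m ∈ cellsOf n₁ G τ i, (τ / 8 * 2 ^ i) ≤
        ∑ m ∈ cellsOf n₁ G τ i, ∑ n ∈ blk n₁ i, if m ∈ G i n then 1 / (n : ℝ) else 0 := by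
      apply sum_le_sum
      intro m hm
      unfold cellsOf at hm
      exact (mem_filter.1 hm).2
    rw [sum_const, nsmul_eq_mul] at h2
    refine h2.trans ?_
    apply sum_le_sum_of_subset_of_nonneg
    · unfold cellsOf
      exact filter_subset _ _
    · intro m _ _
      apply sum_nonneg
      intro n _
      split_ifs <;> positivity
  have h2 : ∑ m ∈ U, ∑ n ∈ blk n₁ i, (if m ∈ G i n then 1 / (n : ℝ) else 0) ≤
      B * ∑ n ∈ blk n₁ i, 1 / (n : ℝ) := by
    rw [sum_comm, mul_sum]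
    apply sum_le_sum
    intro n hn
    rw [← sum_filter, sum_const, nsmul_eq_mul]
    apply mul_le_mul_of_nonneg_right _ (by positivity)
    refine le_trans ?_ (hG n hn)
    have : U.filter (fun m => m ∈ G i n) ⊆ G i n := by
      intro m hm
      exact (mem_filter.1 hm).2
    exact_mod_cast card_le_card this
  have h3 : ((cellsOf n₁ G τ i).card : ℝ) * (τ / 8 * 2 ^ i) ≤ B * (3 * 2 ^ i) :=
    h1.trans (h2.trans (by
      apply mul_le_mul_of_nonneg_left (sum_blk_le n₁ i) hB))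
  have h4 : (0 : ℝ) < 2 ^ i := by positivity
  have h5 : (((cellsOf n₁ G τ i).card : ℝ) * (τ / 8)) * 2 ^ i ≤ (3 * B) * 2 ^ i := by
    calc _ = ((cellsOf n₁ G τ i).card : ℝ) * (τ / 8 * 2 ^ i) := by ring
      _ ≤ _ := h3
      _ = _ := by ring
  have h6 := le_of_mul_le_mul_right h5 h4
  calc ((cellsOf n₁ G τ i).card : ℝ) = (((cellsOf n₁ G τ i).card : ℝ) * (τ / 8)) * (8 / τ) := by
        field_simp
    _ ≤ (3 * B) * (8 / τ) := by gcongr
    _ = _ := by ring

end Pool.Agent.H.MP_711652_nt
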