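import Mathlib
import Pool.Agent.H.MP_711652_nt.DimA

set_option autoImplicit false

namespace Pool.Agent.H.MP_711652_nt

open Finset MeasureTheory Filter Topology
open scoped ENNReal NNReal

/-- A limsup of finite unions of grid cells is small. -/
lemma limsup_cells (δ : ℕ → ℝ) (hδ : ∀ i, 0 < δ i) (hanti : Antitone δ) (hδ0 : Tendsto δ atTop (𝓝 0))
    (Ms : ℕ → Finset ℤ) (s : ℝ≥0) (hs : 0 < s)
    (hsum : ∑' i, ((Ms i).card : ℝ≥0∞) * ENNReal.ofReal (δ i) ^ (s : ℝ) ≠ ⊤) (E : Set ℝ)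
    (hE : ∀ α ∈ E, ∃ᶠ i in atTop, ⌊α / δ i⌋ ∈ Ms i) : dimH E ≤ s := by
  classical
  apply dimH_le_of_hausdorffMeasure_ne_top
  have hs0 : (0 : ℝ) < s := by exact_mod_cast hs
  set t : ℕ → ℕ × ℤ → Set ℝ := fun i₀ km => if km.2 ∈ Ms (km.1 + i₀) then
    Set.Icc (km.2 * δ (km.1 + i₀)) ((km.2 + 1) * δ (km.1 + i₀)) else ∅ with ht
  have hdiam : ∀ i₀ (km : ℕ × ℤ), Metric.ediam (t i₀ km) ≤ ENNReal.ofReal (δ (km.1 + i₀)) := by
    intro i₀ km
    rw [ht]
    simp only
    split_ifs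
    · rw [Real.ediam_Icc]
      apply ENNReal.ofReal_le_ofReal
      linarith
    · simp
  have h1 : μH[(s : ℝ)] E ≤ liminf (fun i₀ => ∑' km : ℕ × ℤ, Metric.ediam (t i₀ km) ^ (s : ℝ)) atTop := by
    apply Measure.hausdorffMeasure_le_liminf_tsum (s : ℝ) E (fun i₀ => ENNReal.ofReal (δ i₀))
    · have := (ENNReal.tendsto_ofReal hδ0)
      rwa [ENNReal.ofReal_zero] at this
    · filter_upwards with i₀ km
      refine (hdiam i₀ km).trans ?_
      apply ENNReal.ofReal_le_ofReal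
      exact hanti (by omega)
    · filter_upwards with i₀ α hα
      obtain ⟨i, hi, hm⟩ := (hE α hα).forall_exists_of_atTop i₀
      rw [Set.mem_iUnion]
      refine ⟨(i - i₀, ⌊α / δ i⌋), ?_⟩
      rw [ht]
      simp only
      have hii : i - i₀ + i₀ = i := by omega
      rw [hii, if_pos hm, Set.mem_Icc]
      constructor
      · have := Int.floor_le (α / δ i)
        rwa [le_div_iff₀ (hδ i)] at this
      · have := (Int.lt_floor_add_one (α / δ i)).le
        rwa [div_le_iff₀ (hδ i)] at this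
  have h2 : ∀ i₀, ∑' km : ℕ × ℤ, Metric.ediam (t i₀ km) ^ (s : ℝ) ≤
      ∑' k, ((Ms (k + i₀)).card : ℝ≥0∞) * ENNReal.ofReal (δ (k + i₀)) ^ (s : ℝ) := by
    intro i₀
    refine (ENNReal.tsum_prod (f := fun k m => Metric.ediam (t i₀ (k, m)) ^ (s : ℝ))).le.trans ?_
    apply ENNReal.tsum_le_tsum
    intro k
    have h3 : ∀ m : ℤ, m ∉ Ms (k + i₀) → Metric.ediam (t i₀ (k, m)) ^ (s : ℝ) = 0 := by
      intro m hm
      rw [ht]
      simp only
      rw [if_neg hm]
      simp [hs0]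
    rw [tsum_eq_sum (s := Ms (k + i₀)) (fun m hm => h3 m hm)]
    calc ∑ m ∈ Ms (k + i₀), Metric.ediam (t i₀ (k, m)) ^ (s : ℝ) ≤
        ∑ m ∈ Ms (k + i₀), ENNReal.ofReal (δ (k + i₀)) ^ (s : ℝ) := by
          apply sum_le_sum
          intro m _
          exact ENNReal.rpow_le_rpow (hdiam i₀ (k, m)) hs0.le
      _ = _ := by rw [sum_const, nsmul_eq_mul]
  have h3 : Tendsto (fun i₀ => ∑' km : ℕ × ℤ, Metric.ediam (t i₀ km) ^ (s : ℝ)) atTop (𝓝 0) := by
    have h4 := ENNReal.tendsto_sum_nat_add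
      (fun i => ((Ms i).card : ℝ≥0∞) * ENNReal.ofReal (δ i) ^ (s : ℝ)) hsum
    exact tendsto_of_tendsto_of_tendsto_of_le_of_le tendsto_const_nhds h4 (fun _ => zero_le)
      h2
  rw [h3.liminf_eq] at h1
  exact ne_top_of_le_ne_top ENNReal.zero_ne_top h1

open Classical in
/-- **Generic dimension bound.** -/
theorem dim_generic (F : ℕ → Set ℝ) (n₁ : ℕ) (δ B : ℕ → ℝ) (hδ : ∀ i, 0 < δ i) (hanti : Antitone δ)
    (hδ0 : Tendsto δ atTop (𝓝 0)) (hB : ∀ i, 0 ≤ B i)
    (hcov : ∀ i n : ℕ, n₁ ≤ n → (2 : ℝ) ^ i ≤ Real.log n → Real.log n < 2 ^ (i + 1) →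
      ∃ G : Finset ℤ, (G.card : ℝ) ≤ B i ∧ ∀ α ∈ F n, ⌊α / δ i⌋ ∈ G)
    (s : ℝ≥0) (hs : 0 < s) (hsum : Summable (fun i => B i * (δ i) ^ (s : ℝ))) (τ : ℝ) (hτ : 0 < τ) :
    dimH {α : ℝ | ∃ᶠ N : ℕ in atTop, τ * Real.log N <
      ∑ n ∈ range N, aS n₁ {n | α ∈ F n} n} ≤ s := by
  have hex : ∀ i n : ℕ, ∃ G : Finset ℤ, n ∈ blk n₁ i → (G.card : ℝ) ≤ B i ∧
      ∀ α ∈ F n, ⌊α / δ i⌋ ∈ G := by
    intro i n
    by_cases h : n ∈ blk n₁ i
    · have h' := h
      rw [mem_blk] at h'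
      obtain ⟨G, hG⟩ := hcov i n h'.1 h'.2.1 h'.2.2
      exact ⟨G, fun _ => hG⟩
    · exact ⟨∅, fun h' => absurd h' h⟩
  choose G hG using hex
  apply limsup_cells δ hδ hanti hδ0 (cellsOf n₁ G τ) s hs
  · have hle : ∀ i, ((cellsOf n₁ G τ i).card : ℝ≥0∞) * ENNReal.ofReal (δ i) ^ (s : ℝ) ≤
        ENNReal.ofReal (24 / τ * (B i * (δ i) ^ (s : ℝ))) := by
      intro i
      have h1 := cellsOf_card n₁ G τ hτ i (B i) (fun n hn => (hG i n hn).1) (hB i)
      have h2 : ((cellsOf n₁ G τ i).card : ℝ≥0∞) = ENNReal.ofReal ((cellsOf n₁ G τ i).card : ℝ) := by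
        rw [ENNReal.ofReal_natCast]
      rw [h2, ENNReal.ofReal_rpow_of_pos (hδ i), ← ENNReal.ofReal_mul (Nat.cast_nonneg _)]
      apply ENNReal.ofReal_le_ofReal
      have h3 : 0 ≤ (δ i) ^ (s : ℝ) := Real.rpow_nonneg (hδ i).le _
      calc ((cellsOf n₁ G τ i).card : ℝ) * (δ i) ^ (s : ℝ) ≤ (24 / τ * B i) * (δ i) ^ (s : ℝ) := by
            gcongr
        _ = _ := by ring
    apply ne_top_of_le_ne_top _ (ENNReal.tsum_le_tsum hle)
    rw [← ENNReal.ofReal_tsum_of_nonneg _ (hsum.mul_left _)]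
    · exact ENNReal.ofReal_ne_top
    · intro i
      have h3 : 0 ≤ (δ i) ^ (s : ℝ) := Real.rpow_nonneg (hδ i).le _
      have := hB i
      positivity
  · intro α hα
    have h1 := frequently_block {n | α ∈ F n} n₁ τ hτ hα
    refine h1.mono ?_
    intro i hi
    have h0 : (0 : ℝ) < τ / 8 * 2 ^ i := by positivity
    have hle : ∑ n ∈ blk n₁ i, (if n ∈ {n | α ∈ F n} then 1 / (n : ℝ) else 0) ≤
        ∑ n ∈ blk n₁ i, if ⌊α / δ i⌋ ∈ G i n then 1 / (n : ℝ) else 0 := by
      apply sum_le_sum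
      intro n hn
      split_ifs with h2 h3 h3
      · exact le_rfl
      · exact absurd ((hG i n hn).2 α h2) h3
      · positivity
      · exact le_rfl
    unfold cellsOf
    rw [mem_filter, mem_biUnion]
    refine ⟨?_, hi.trans hle⟩
    by_contra hno
    push Not at hno
    have : ∑ n ∈ blk n₁ i, (if ⌊α / δ i⌋ ∈ G i n then 1 / (n : ℝ) else 0) = 0 := by
      apply sum_eq_zero
      intro n hn
      rw [if_neg (hno n hn)]
    linarith

open Classical in
/-- **Generic finiteness.** If the number of cells is bounded, only finitely many `α` are bad for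
a positive lower proportion of the levels. -/
theorem finite_generic (F : ℕ → Set ℝ) (n₁ : ℕ) (δ : ℕ → ℝ) (B : ℝ) (hδ : ∀ i, 0 < δ i)
    (hδ0 : Tendsto δ atTop (𝓝 0)) (hB : 0 ≤ B)
    (hcov : ∀ i n : ℕ, n₁ ≤ n → (2 : ℝ) ^ i ≤ Real.log n → Real.log n < 2 ^ (i + 1) →
      ∃ G : Finset ℤ, (G.card : ℝ) ≤ B ∧ ∀ α ∈ F n, ⌊α / δ i⌋ ∈ G) (τ : ℝ) (hτ : 0 < τ) :
    {α : ℝ | ∀ᶠ N : ℕ in atTop, τ * Real.log N ≤
      ∑ n ∈ range N, aS n₁ {n | α ∈ F n} n}.Finite := by
  by_contra hinf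
  rw [← Set.Infinite] at hinf
  obtain ⟨m, hm⟩ := exists_nat_gt (3 * B / τ)
  obtain ⟨A, hA, hAc⟩ := hinf.exists_subset_card_eq m
  rw [div_lt_iff₀ hτ] at hm
  -- the cells separate the points of `A` for large `i`
  have hsep : ∀ᶠ i in atTop, ∀ α ∈ A, ∀ β ∈ A, ⌊α / δ i⌋ = ⌊β / δ i⌋ → α = β := by
    rw [eventually_all_finset]
    intro α _
    rw [eventually_all_finset]
    intro β _
    by_cases hαβ : α = β
    · filter_upwards with i _
      exact hαβ
    · have hpos : 0 < |α - β| := abs_pos.2 (sub_ne_zero.2 hαβ)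
      filter_upwards [hδ0.eventually (gt_mem_nhds hpos)] with i hi heq
      exfalso
      have h1 : |α / δ i - β / δ i| < 1 := Int.abs_sub_lt_one_of_floor_eq_floor heq
      rw [← sub_div, abs_div, abs_of_pos (hδ i), div_lt_one (hδ i)] at h1
      linarith
  obtain ⟨i₀, hi₀⟩ := eventually_atTop.1 hsep
  set R := max n₁ ⌈Real.exp (2 ^ i₀)⌉₊ with hR
  -- number of bad points at a large level
  have hlev : ∀ n, R ≤ n → ((A.filter (fun α => n₁ ≤ n ∧ α ∈ F n)).card : ℝ) ≤ B := by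
    intro n hn
    have hn1 : n₁ ≤ n := le_trans (le_max_left _ _) hn
    have hn2 : ⌈Real.exp (2 ^ i₀)⌉₊ ≤ n := le_trans (le_max_right _ _) hn
    have hn2' : ((⌈Real.exp (2 ^ i₀)⌉₊ : ℕ) : ℝ) ≤ n := by exact_mod_cast hn2
    have h1 : Real.exp (2 ^ i₀) ≤ n := (Nat.le_ceil _).trans hn2'
    have hn0 : (0 : ℝ) < n := lt_of_lt_of_le (Real.exp_pos _) h1
    have h2 : (2 : ℝ) ^ i₀ ≤ Real.log n := by
      rw [Real.le_log_iff_exp_le hn0]
      exact h1
    have h3 : (1 : ℝ) ≤ Real.log n := (one_le_pow₀ (by norm_num)).trans h2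
    obtain ⟨i, hi1, hi2⟩ := exists_nat_pow_near h3 (by norm_num : (1 : ℝ) < 2)
    have hii : i₀ ≤ i := by
      have h5 : (2 : ℝ) ^ i₀ < 2 ^ (i + 1) := lt_of_le_of_lt h2 hi2
      have := (pow_lt_pow_iff_right₀ (by norm_num : (1 : ℝ) < 2)).1 h5
      omega
    obtain ⟨G, hG1, hG2⟩ := hcov i n hn1 hi1 hi2
    refine le_trans ?_ hG1
    have : (A.filter (fun α => n₁ ≤ n ∧ α ∈ F n)).card ≤ G.card := by
      apply card_le_card_of_injOn (fun α => ⌊α / δ i⌋)
      · intro α hα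
        rw [mem_coe, mem_filter] at hα
        exact hG2 α hα.2.2
      · intro α hα β hβ h
        rw [mem_coe, mem_filter] at hα hβ
        exact hi₀ i hii α hα.1 β hβ.1 h
    exact_mod_cast this
  have hlog : Tendsto (fun n : ℕ => Real.log n) atTop atTop :=
    Real.tendsto_log_atTop.comp tendsto_natCast_atTop_atTop
  have e1 : ∀ᶠ N : ℕ in atTop, ∀ α ∈ A, τ * Real.log N ≤
      ∑ n ∈ range N, aS n₁ {n | α ∈ F n} n := by
    rw [eventually_all_finset]
    intro α hα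
    exact hA hα
  have hm0 : 0 < (m : ℝ) * τ - B := by nlinarith
  have e2 := hlog.eventually_ge_atTop (((m : ℝ) * R + B + 1) / (m * τ - B))
  have e3 := eventually_ge_atTop (α := ℕ) 2
  obtain ⟨N, h1, h2, h3⟩ := (e1.and (e2.and e3)).exists
  rw [div_le_iff₀ hm0] at h2
  have h4 : (m : ℝ) * (τ * Real.log N) ≤
      ∑ α ∈ A, ∑ n ∈ range N, aS n₁ {n | α ∈ F n} n := by
    have h5 := sum_le_sum h1
    rw [sum_const, nsmul_eq_mul, hAc] at h5
    exact h5
  have h5 : ∑ α ∈ A, ∑ n ∈ range N, aS n₁ {n | α ∈ F n} n ≤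
      m * R + B * (1 + Real.log N) := by
    rw [sum_comm]
    have h6 : ∀ n ∈ range N, ∑ α ∈ A, aS n₁ {n | α ∈ F n} n ≤
        (if n < R then (m : ℝ) else 0) + B * (1 / (n : ℝ)) := by
      intro n _
      have h60 : ∑ α ∈ A, aS n₁ {n | α ∈ F n} n =
          ∑ α ∈ A, (if n₁ ≤ n ∧ α ∈ F n then 1 / (n : ℝ) else 0) := by
        apply sum_congr rfl
        intro α _
        unfold aS
        by_cases h : n₁ ≤ n ∧ α ∈ F n
        · have h' : n₁ ≤ n ∧ n ∈ {n | α ∈ F n} := h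
          rw [if_pos h', if_pos h]
        · have h' : ¬ (n₁ ≤ n ∧ n ∈ {n | α ∈ F n}) := h
          rw [if_neg h', if_neg h]
      rw [h60, ← sum_filter, sum_const, nsmul_eq_mul]
      have h7 : 0 ≤ B * (1 / (n : ℝ)) := by positivity
      split_ifs with h8
      · have h9 : ((A.filter (fun α => n₁ ≤ n ∧ α ∈ F n)).card : ℝ) ≤ m := by
          rw [← hAc]
          exact_mod_cast card_filter_le _ _
        have h10 : 1 / (n : ℝ) ≤ 1 := by
          rcases Nat.eq_zero_or_pos n with h | h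
          · subst h
            simp
          · rw [div_le_one (by exact_mod_cast h)]
            exact_mod_cast h
        have h11 : 0 ≤ 1 / (n : ℝ) := by positivity
        have h12 : (0 : ℝ) ≤ m := Nat.cast_nonneg _
        have h13 : ((A.filter (fun α => n₁ ≤ n ∧ α ∈ F n)).card : ℝ) * (1 / (n : ℝ)) ≤ m * 1 := by
          apply mul_le_mul h9 h10 h11 h12
        linarith
      · rw [zero_add]
        have h11 : 0 ≤ 1 / (n : ℝ) := by positivity
        exact mul_le_mul_of_nonneg_right (hlev n (by omega)) h11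
    refine (sum_le_sum h6).trans ?_
    rw [sum_add_distrib, ← mul_sum]
    have h7 : ∑ n ∈ range N, (if n < R then (m : ℝ) else 0) ≤ m * R := by
      rw [← sum_filter, sum_const, nsmul_eq_mul, mul_comm]
      apply mul_le_mul_of_nonneg_left _ (Nat.cast_nonneg _)
      have : ((range N).filter (fun n => n < R)).card ≤ R := by
        have h8 : (range N).filter (fun n => n < R) ⊆ range R := by
          intro n hn
          rw [mem_filter] at hn
          exact mem_range.2 hn.2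
        simpa using card_le_card h8
      exact_mod_cast this
    have h8 : ∑ n ∈ range N, 1 / (n : ℝ) ≤ 1 + Real.log N := by
      have h9 := harmonic_le_one_add_log N
      rw [harmonic_eq_sum_Icc] at h9
      push_cast at h9
      refine le_trans ?_ h9
      have h10 : ∑ n ∈ range N, 1 / (n : ℝ) ≤ ∑ n ∈ Icc 1 N, 1 / (n : ℝ) := by
        rw [← sum_subset (s₁ := (range N).filter (fun n => n ≠ 0))]
        · apply sum_le_sum_of_subset_of_nonneg
          · intro n hn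
            rw [mem_filter, mem_range] at hn
            rw [mem_Icc]
            omega
          · intro n _ _
            positivity
        · exact filter_subset _ _
        · intro n _ hn
          have : n = 0 := by
            by_contra h
            exact hn (mem_filter.2 ⟨by assumption, h⟩)
          subst this
          simp
      simpa only [one_div] using h10
    have h9 := mul_le_mul_of_nonneg_left h8 hB
    linarith
  nlinarith

end Pool.Agent.H.MP_711652_nt
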