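import Mathlib
import Pool.Agent.H.MP_711652_nt.ChainA

set_option autoImplicit false

namespace Pool.Agent.H.MP_711652_nt

open Finset

/-! ### Summability of `1 / (n (log n) ^ q)` -/

lemma summable_log (q : ℝ) (hq : 1 < q) :
    Summable (fun n : ℕ => 1 / ((n : ℝ) * (Real.log n) ^ q)) := by
  rw [← summable_condensed_iff_of_eventually_nonneg]
  · have h1 : (fun k : ℕ => (2 : ℝ) ^ k * (1 / (((2 ^ k : ℕ) : ℝ) * (Real.log ((2 ^ k : ℕ) : ℝ)) ^ q))) =
        fun k : ℕ => ((Real.log 2) ^ q)⁻¹ * (1 / (k : ℝ) ^ q) := by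
      funext k
      have h2 : Real.log ((2 ^ k : ℕ) : ℝ) = k * Real.log 2 := by
        push_cast
        rw [Real.log_pow]
      have hl : 0 < Real.log 2 := Real.log_pos (by norm_num)
      rw [h2, Real.mul_rpow (Nat.cast_nonneg k) hl.le]
      push_cast
      have h3 : (2 : ℝ) ^ k ≠ 0 := by positivity
      rcases Nat.eq_zero_or_pos k with hk | hk
      · subst hk
        have : (0 : ℝ) ^ q = 0 := Real.zero_rpow (by linarith)
        simp [this]
      · have h4 : (k : ℝ) ^ q ≠ 0 := by positivity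
        have h5 : (Real.log 2) ^ q ≠ 0 := by positivity
        field_simp
    rw [h1]
    apply Summable.mul_left
    exact Real.summable_one_div_nat_rpow.2 hq
  · filter_upwards [Filter.eventually_ge_atTop 1] with n hn
    have : 0 ≤ Real.log n := Real.log_nonneg (by exact_mod_cast hn)
    simp only [Pi.zero_apply]
    positivity
  · filter_upwards [Filter.eventually_ge_atTop 2] with n hn
    have h2 : (2 : ℝ) ≤ n := by exact_mod_cast hn
    have h1 : 0 < Real.log n := Real.log_pos (by linarith)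
    have h3 : Real.log n ≤ Real.log ((n + 1 : ℕ) : ℝ) := by
      apply Real.log_le_log (by linarith)
      push_cast
      linarith
    apply one_div_le_one_div_of_le (by positivity)
    apply mul_le_mul
    · push_cast; linarith
    · exact Real.rpow_le_rpow h1.le h3 (by linarith)
    · positivity
    · positivity

/-- Kronecker's lemma for nonnegative terms. -/
lemma kronecker (a b : ℕ → ℝ) (ha : ∀ n, 0 ≤ a n) (hb : ∀ᶠ n in Filter.atTop, 0 < b n)
    (hmono : Monotone b)
    (hlim : Filter.Tendsto b Filter.atTop Filter.atTop)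
    (hs : Summable fun n => a n / b n) (τ : ℝ) (hτ : 0 < τ) :
    ∀ᶠ N in Filter.atTop, ∑ n ∈ range N, a n ≤ τ * b N := by
  obtain ⟨n₀, hn₀⟩ := Filter.eventually_atTop.1 hb
  have h1 := hs.tendsto_sum_tsum_nat
  have h2 : ∀ᶠ N in Filter.atTop, ∑' n, a n / b n - ∑ n ∈ range N, a n / b n < τ / 2 := by
    have h3 : Filter.Tendsto (fun N => ∑' n, a n / b n - ∑ n ∈ range N, a n / b n)
        Filter.atTop (nhds (∑' n, a n / b n - ∑' n, a n / b n)) := h1.const_sub _
    rw [sub_self] at h3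
    exact h3.eventually (gt_mem_nhds (by linarith))
  obtain ⟨n₁, hn₁⟩ := Filter.eventually_atTop.1 h2
  set m := max n₀ n₁ with hm
  have h4 : ∀ᶠ N in Filter.atTop, (∑ n ∈ range m, a n) / (τ / 2) ≤ b N :=
    hlim.eventually_ge_atTop _
  filter_upwards [h4, Filter.eventually_ge_atTop m] with N hN hNm
  rw [div_le_iff₀ (by linarith)] at hN
  have h5 : ∑ n ∈ range N, a n = ∑ n ∈ range m, a n + ∑ n ∈ Ico m N, a n := by
    rw [range_eq_Ico, range_eq_Ico]
    exact (sum_Ico_consecutive a (Nat.zero_le m) hNm).symm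
  have hbN : 0 < b N := hn₀ N (by omega)
  have hbm : 0 < b m := hn₀ m (by omega)
  have h6 : ∑ n ∈ Ico m N, a n ≤ b N * ∑ n ∈ Ico m N, a n / b n := by
    rw [mul_sum]
    apply sum_le_sum
    intro n hn
    rw [mem_Ico] at hn
    have hbn : 0 < b n := hn₀ n (by omega)
    have hle : b n ≤ b N := hmono hn.2.le
    rw [mul_div_assoc', le_div_iff₀ hbn]
    rw [mul_comm]
    exact mul_le_mul_of_nonneg_right hle (ha n)
  -- the tail sum
  have h7 : ∑ n ∈ Ico m N, a n / b n ≤ τ / 2 := by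
    -- tail of the series with nonnegative terms beyond `m`
    have h8 := hn₁ m (by omega)
    have h9 : ∑ n ∈ range N, a n / b n ≤ ∑ n ∈ range m, a n / b n + (∑' n, a n / b n - ∑ n ∈ range m, a n / b n) := by
      have h10 : ∑ n ∈ range N, a n / b n = ∑ n ∈ range m, a n / b n + ∑ n ∈ Ico m N, a n / b n := by
        rw [range_eq_Ico, range_eq_Ico]
        exact (sum_Ico_consecutive _ (Nat.zero_le m) hNm).symm
      -- monotone partial sums beyond `m`
      have h11 : ∀ N', N ≤ N' → ∑ n ∈ range N, a n / b n ≤ ∑ n ∈ range N', a n / b n := by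
        intro N' hN'
        have : ∑ n ∈ range N', a n / b n = ∑ n ∈ range N, a n / b n + ∑ n ∈ Ico N N', a n / b n := by
          rw [range_eq_Ico, range_eq_Ico]
          exact (sum_Ico_consecutive _ (Nat.zero_le N) hN').symm
        rw [this]
        have h12 : 0 ≤ ∑ n ∈ Ico N N', a n / b n := by
          apply sum_nonneg
          intro n hn
          rw [mem_Ico] at hn
          exact div_nonneg (ha n) (hn₀ n (by omega)).le
        linarith
      have h13 : ∑ n ∈ range N, a n / b n ≤ ∑' n, a n / b n := by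
        apply ge_of_tendsto h1
        filter_upwards [Filter.eventually_ge_atTop N] with N' hN'
        exact h11 N' hN'
      linarith
    have h10 : ∑ n ∈ range N, a n / b n = ∑ n ∈ range m, a n / b n + ∑ n ∈ Ico m N, a n / b n := by
      rw [range_eq_Ico, range_eq_Ico]
      exact (sum_Ico_consecutive _ (Nat.zero_le m) hNm).symm
    linarith
  have h14 : b N * ∑ n ∈ Ico m N, a n / b n ≤ b N * (τ / 2) := by gcongr
  rw [h5]
  nlinarith

/-! ### Local equidistribution with a free density -/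

open Classical in
/-- `p` is locally regular for all `H ≤ h ≤ r ≤ R`. -/
def LR (ε : ℝ) (H R p : ℕ) : Prop :=
  ∃ μ : ℝ, 0 < μ ∧ ∀ h r : ℕ, H ≤ h → h ≤ r → r ≤ R →
    (((Icc (p - r) (p + r)).filter (fun y => ε * (μ * h) < |(cnt y h : ℝ) - μ * h|)).card : ℝ) ≤
      ε * (2 * r + 1)

lemma LR_of_typicalA (X : ℕ) (ε δ : ℝ) (H R p : ℕ) (hX : 1 < X) (hδ : 0 < δ)
    (h : TypicalA X ε δ H R p) : LR ε H R p := by
  obtain ⟨lam, h1, -, h3⟩ := h
  have hlog : 0 < Real.log X := Real.log_pos (by exact_mod_cast hX)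
  have hlam : 0 < lam := lt_of_lt_of_le hδ h1
  refine ⟨lam / Real.log X, by positivity, ?_⟩
  intro h r hh1 hh2 hr
  have h4 := h3 h hh1 (hh2.trans hr) r hh2 hr
  have h5 : lam / Real.log X * h = lam * h / Real.log X := by ring
  rw [h5]
  exact h4

open Classical in
/-- the level set `{p ≤ X}` is regular. -/
def Reg (X : ℕ) (ε : ℝ) (H R : ℕ) : Prop :=
  (((Icc 1 X).filter (fun p => p.Prime ∧ ¬ LR ε H R p)).card : ℝ) ≤ ε * Nat.primeCounting X

open Classical in
theorem reg_mu : ∃ C : ℝ, 1 ≤ C ∧ ∃ X₀ : ℕ, ∀ X : ℕ, X₀ ≤ X → ∀ ε : ℝ, 0 < ε → ε ≤ 1 →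
    ∀ (J : ℕ) (H R : ℕ → ℕ),
    (∀ i, i < J → C * Real.log X ≤ ε ^ 3 * H i) →
    (∀ i, i < J → H i ≤ R i) →
    (∀ i, i + 1 < J → C * R i ≤ ε ^ 3 * H (i + 1)) →
    (∀ i, i < J → C * R i ≤ ε ^ 3 * X) →
    (((range J).filter (fun i => ¬ Reg X ε (H i) (R i))).card : ℝ) ≤ C / ε ^ 10 := by
  obtain ⟨C, hC, X₀, hX₀⟩ := regularity_all
  refine ⟨C, hC, max X₀ 2, ?_⟩
  intro X hX ε hε hε1 J H R h1 h2 h3 h4
  refine le_trans ?_ (hX₀ X (by omega) ε hε hε1 J H R h1 h2 h3 h4)
  have hsub : (range J).filter (fun i => ¬ Reg X ε (H i) (R i)) ⊆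
      (range J).filter (fun i => ¬ RegularA X ε (ε / C) (H i) (R i)) := by
    intro i hi
    rw [mem_filter] at hi ⊢
    refine ⟨hi.1, fun hreg => hi.2 ?_⟩
    unfold RegularA at hreg
    unfold Reg
    refine le_trans ?_ hreg
    have hsub2 : (Icc 1 X).filter (fun p => p.Prime ∧ ¬ LR ε (H i) (R i) p) ⊆
        (Icc 1 X).filter (fun p => p.Prime ∧ ¬ TypicalA X ε (ε / C) (H i) (R i) p) := by
      intro p hp
      rw [mem_filter] at hp ⊢
      refine ⟨hp.1, hp.2.1, fun ht => hp.2.2 ?_⟩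
      exact LR_of_typicalA X ε (ε / C) (H i) (R i) p (by omega) (by positivity) ht
    exact_mod_cast card_le_card hsub2
  exact_mod_cast card_le_card hsub

end Pool.Agent.H.MP_711652_nt
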