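import Mathlib
import Pool.Agent.H.MP_711652_nt.ExpoB

set_option autoImplicit false

namespace Pool.Agent.H.MP_711652_nt

open Finset MeasureTheory

lemma cn_inv_le (γ : ℝ) (hγ : 0 < γ) (hγ1 : γ < 1) :
    ∀ᶠ n : ℕ in Filter.atTop, 0 < cn γ n ∧ (cn γ n)⁻¹ ≤ 4 * (Real.log n) ^ (γ - 1) := by
  have e1 := ev_Gn_ge γ 2 hγ
  have e2 := Filter.eventually_ge_atTop (α := ℕ) 16
  filter_upwards [e1, e2] with n f1 f2
  have hn : (16 : ℝ) ≤ n := by exact_mod_cast f2
  have hG : (0 : ℝ) < Gn γ n := by linarith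
  have hlogG : 0 < Real.log (Gn γ n) := Real.log_pos (by linarith)
  have hlogx : 0 < Real.log ((n : ℝ) / 4) := Real.log_pos (by linarith)
  have hu1 : (1 : ℝ) ≤ Real.log n := by
    rw [Real.le_log_iff_exp_le (by linarith)]
    have := Real.exp_one_lt_d9
    linarith
  have hu0 : 0 < Real.log n := by linarith
  have h1 : (1 : ℝ) ≤ (Real.log n) ^ γ := Real.one_le_rpow hu1 hγ.le
  have h2 := log_Gn_le γ n
  have hl2 : Real.log 2 < 0.7 := by
    have := Real.log_two_lt_d9
    linarith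
  have h3 : Real.log (Gn γ n) ≤ 2 * (Real.log n) ^ γ := by linarith
  have h4 : Real.log n / 2 ≤ Real.log ((n : ℝ) / 4) := by
    have e5 : Real.log ((n : ℝ) / 4) = Real.log n - Real.log 4 := Real.log_div (by linarith) (by norm_num)
    have e6 : Real.log (16 : ℝ) ≤ Real.log n := Real.log_le_log (by norm_num) hn
    have e7 : Real.log (16 : ℝ) = 2 * Real.log 4 := by
      rw [show (16 : ℝ) = 4 ^ 2 by norm_num, Real.log_pow]
      norm_num
    rw [e5]
    linarith
  refine ⟨by rw [cn]; exact div_pos hlogx hlogG, ?_⟩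
  rw [cn, inv_div, div_le_iff₀ hlogx]
  have h5 : (Real.log n) ^ (γ - 1) * Real.log n = (Real.log n) ^ γ := by
    conv_lhs => rw [← Real.rpow_one (Real.log n), ← Real.rpow_mul hu0.le]
    rw [one_mul, ← Real.rpow_add hu0]
    congr 1
    ring
  calc Real.log (Gn γ n) ≤ 2 * (Real.log n) ^ γ := h3
    _ = 4 * (Real.log n) ^ (γ - 1) * (Real.log n / 2) := by rw [← h5]; ring
    _ ≤ _ := by gcongr

lemma volume_floor (c : ℝ) (hc : 0 < c) (i : ℕ) :
    volume (Set.Ico ((i : ℝ) / c) ((i + 1) / c)) = ENNReal.ofReal c⁻¹ := by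
  rw [Real.volume_Ico]
  congr 1
  field_simp
  ring

open Classical in
theorem exists_sets (γ ε η : ℝ) (A : ℕ) (hγ : 0 < γ) (hγ1 : γ < 1) (hε : 0 < ε) (hε1 : ε ≤ 1)
    (hη : 0 < η) : ∃ K : ℝ, 0 ≤ K ∧ ∃ n₁ : ℕ, ∃ F : ℕ → Set ℝ, (∀ n, MeasurableSet (F n)) ∧
      (∀ n, n₁ ≤ n → volume (F n) ≤ ENNReal.ofReal (K * (Real.log n) ^ (γ - 1))) ∧
      ∀ n, n₁ ≤ n → ∀ α : ℝ, 1 + η ≤ α → α ≤ A → α ∉ F n →
      (((Ioc (2 ^ (n - 1)) (2 ^ n)).filter (fun p : ℕ => p.Prime ∧ ¬ LRr ε ((Real.log p) ^ α)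
        ((Real.log p) ^ α * Real.exp ((Real.log (Real.log p)) ^ γ)) p)).card : ℝ) ≤
        ε * Nat.primeCounting (2 ^ n) := by
  obtain ⟨C₅, hC₅, n₀, hn₀⟩ := block_bad γ ε η A hγ hγ1 hε hε1 hη
  obtain ⟨n₂, hn₂⟩ := Filter.eventually_atTop.1 (cn_inv_le γ hγ hγ1)
  have hex : ∀ n, ∃ Bad : Finset ℕ, n₀ ≤ n → (Bad.card : ℝ) ≤ C₅ ∧ ∀ α : ℝ, 1 + η ≤ α → α ≤ A →
      ⌊α * cn γ n⌋₊ ∉ Bad →
      (((Ioc (2 ^ (n - 1)) (2 ^ n)).filter (fun p : ℕ => p.Prime ∧ ¬ LRr ε ((Real.log p) ^ α)
        ((Real.log p) ^ α * Real.exp ((Real.log (Real.log p)) ^ γ)) p)).card : ℝ) ≤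
        ε * Nat.primeCounting (2 ^ n) := by
    intro n
    by_cases hn : n₀ ≤ n
    · obtain ⟨B, hB⟩ := hn₀ n hn
      exact ⟨B, fun _ => hB⟩
    · exact ⟨∅, fun h => absurd h hn⟩
  choose Bad hBad using hex
  refine ⟨C₅ * 4, by positivity, max (max n₀ n₂) 16,
    fun n => ⋃ i ∈ Bad n, Set.Ico ((i : ℝ) / cn γ n) ((i + 1) / cn γ n), ?_, ?_, ?_⟩
  · intro n
    exact Finset.measurableSet_biUnion _ (fun i _ => measurableSet_Ico)
  · intro n hn
    have h1 : n₀ ≤ n := le_trans (le_trans (le_max_left _ _) (le_max_left _ _)) hn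
    have h2 : n₂ ≤ n := le_trans (le_trans (le_max_right _ _) (le_max_left _ _)) hn
    obtain ⟨hc0, hc1⟩ := hn₂ n h2
    obtain ⟨hB1, -⟩ := hBad n h1
    calc volume (⋃ i ∈ Bad n, Set.Ico ((i : ℝ) / cn γ n) ((i + 1) / cn γ n)) ≤
        ∑ i ∈ Bad n, volume (Set.Ico ((i : ℝ) / cn γ n) ((i + 1) / cn γ n)) :=
          measure_biUnion_finset_le _ _
      _ = ∑ i ∈ Bad n, ENNReal.ofReal (cn γ n)⁻¹ := by
          apply sum_congr rfl
          intro i _
          exact volume_floor _ hc0 i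
      _ = ENNReal.ofReal ((Bad n).card * (cn γ n)⁻¹) := by
          rw [sum_const, nsmul_eq_mul, ENNReal.ofReal_mul (Nat.cast_nonneg _), ENNReal.ofReal_natCast]
      _ ≤ _ := by
          apply ENNReal.ofReal_le_ofReal
          have h3 : 0 ≤ (cn γ n)⁻¹ := by positivity
          calc ((Bad n).card : ℝ) * (cn γ n)⁻¹ ≤ C₅ * (4 * (Real.log n) ^ (γ - 1)) := by gcongr
            _ = _ := by ring
  · intro n hn α hα1 hα2 hαF
    have h1 : n₀ ≤ n := le_trans (le_trans (le_max_left _ _) (le_max_left _ _)) hn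
    have h2 : n₂ ≤ n := le_trans (le_trans (le_max_right _ _) (le_max_left _ _)) hn
    obtain ⟨hc0, -⟩ := hn₂ n h2
    refine (hBad n h1).2 α hα1 hα2 ?_
    intro hmem
    apply hαF
    rw [Set.mem_iUnion₂]
    refine ⟨⌊α * cn γ n⌋₊, hmem, ?_⟩
    have hα0 : 0 ≤ α * cn γ n := by
      have : 0 < α := by linarith
      positivity
    rw [Set.mem_Ico, div_le_iff₀ hc0, lt_div_iff₀ hc0]
    exact ⟨Nat.floor_le hα0, Nat.lt_floor_add_one _⟩

/-- The series which has to converge for almost every exponent. -/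
lemma ae_summable (γ K : ℝ) (hγ1 : γ < 1) (hK : 0 ≤ K) (n₁ : ℕ) (F : ℕ → Set ℝ)
    (hF : ∀ n, MeasurableSet (F n))
    (hvol : ∀ n, n₁ ≤ n → volume (F n) ≤ ENNReal.ofReal (K * (Real.log n) ^ (γ - 1))) :
    ∀ᵐ α : ℝ, Summable (fun n : ℕ => (if n₁ ≤ n then (F n).indicator (fun _ => 1 / (n : ℝ)) α else 0) /
      Real.log n) := by
  set f : ℕ → ℝ → ENNReal := fun n => if n₁ ≤ n then
    (F n).indicator (fun _ => ENNReal.ofReal (1 / (n : ℝ) / Real.log n)) else 0 with hf
  have hfm : ∀ n, Measurable (f n) := by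
    intro n
    rw [hf]
    simp only
    split_ifs
    · exact measurable_const.indicator (hF n)
    · exact measurable_const
  have hsum : ∑' n, ∫⁻ α, f n α ≠ ⊤ := by
    have h1 : ∀ n, ∫⁻ α, f n α ≤ ENNReal.ofReal (K * (1 / ((n : ℝ) * (Real.log n) ^ (2 - γ)))) := by
      intro n
      rw [hf]
      simp only
      by_cases hn : n₁ ≤ n
      · rw [if_pos hn, lintegral_indicator_const (hF n)]
        rcases Nat.lt_or_ge n 2 with h2 | h2
        · have h3 : Real.log n = 0 := by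
            rcases Nat.lt_or_ge n 1 with h4 | h4
            · have : n = 0 := by omega
              subst this; simp
            · have : n = 1 := by omega
              subst this; simp
          rw [h3]
          simp
        · have h3 : 0 < Real.log n := Real.log_pos (by exact_mod_cast h2)
          have hn0 : (0 : ℝ) < n := by exact_mod_cast (by omega : 0 < n)
          calc ENNReal.ofReal (1 / (n : ℝ) / Real.log n) * volume (F n) ≤
              ENNReal.ofReal (1 / (n : ℝ) / Real.log n) * ENNReal.ofReal (K * (Real.log n) ^ (γ - 1)) := by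
                gcongr
                exact hvol n hn
            _ = ENNReal.ofReal (1 / (n : ℝ) / Real.log n * (K * (Real.log n) ^ (γ - 1))) :=
                (ENNReal.ofReal_mul (p := 1 / (n : ℝ) / Real.log n) (by positivity)).symm
            _ = ENNReal.ofReal (K * (1 / ((n : ℝ) * (Real.log n) ^ (2 - γ)))) := by
                congr 1
                have h4 : (Real.log n) ^ (γ - 1) = Real.log n * ((Real.log n) ^ (2 - γ))⁻¹ := by
                  rw [← Real.rpow_neg h3.le]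
                  have h5 : Real.log n * (Real.log n) ^ (-(2 - γ)) =
                      (Real.log n) ^ (1 : ℝ) * (Real.log n) ^ (-(2 - γ)) := by rw [Real.rpow_one]
                  rw [h5, ← Real.rpow_add h3]
                  congr 1
                  ring
                rw [h4]
                field_simp
      · rw [if_neg hn]
        simp
    have h2 : Summable (fun n : ℕ => K * (1 / ((n : ℝ) * (Real.log n) ^ (2 - γ)))) :=
      (summable_log (2 - γ) (by linarith)).mul_left K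
    have h3 : ∑' n : ℕ, ENNReal.ofReal (K * (1 / ((n : ℝ) * (Real.log n) ^ (2 - γ)))) ≠ ⊤ := by
      rw [← ENNReal.ofReal_tsum_of_nonneg _ h2]
      · exact ENNReal.ofReal_ne_top
      · intro n
        have := Real.log_natCast_nonneg n
        positivity
    exact ne_top_of_le_ne_top h3 (ENNReal.tsum_le_tsum h1)
  have hint : ∫⁻ α, ∑' n, f n α ≠ ⊤ := by
    rw [lintegral_tsum (fun n => (hfm n).aemeasurable)]
    exact hsum
  have hae := ae_lt_top (Measurable.tsum hfm) hint
  filter_upwards [hae] with α hα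
  have h1 := ENNReal.summable_toReal hα.ne
  refine h1.congr ?_
  intro n
  rw [hf]
  simp only
  by_cases hn : n₁ ≤ n
  · rw [if_pos hn, if_pos hn]
    by_cases hm : α ∈ F n
    · rw [Set.indicator_of_mem hm, Set.indicator_of_mem hm, ENNReal.toReal_ofReal]
      have := Real.log_natCast_nonneg n
      positivity
    · rw [Set.indicator_of_notMem hm, Set.indicator_of_notMem hm]
      simp
  · rw [if_neg hn, if_neg hn]
    simp

end Pool.Agent.H.MP_711652_nt
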