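import Mathlib
import Pool.Agent.H.MP_711652_nt.ExpoC

set_option autoImplicit false

namespace Pool.Agent.H.MP_711652_nt

open Finset MeasureTheory

/-- Splitting a sum into dyadic blocks. -/
lemma dyadic_sum (Q : ℕ → Prop) [DecidablePred Q] (hQ : ∀ p, Q p → 2 ≤ p) (x N : ℕ)
    (hx : x ≤ 2 ^ N) : ∑ p ∈ (Icc 1 x).filter Q, 1 / (p : ℝ) ≤
      ∑ n ∈ Icc 1 N, ∑ p ∈ (Ioc (2 ^ (n - 1)) (2 ^ n)).filter Q, 1 / (p : ℝ) := by
  have hmaps : ∀ p ∈ (Icc 1 x).filter Q, Nat.clog 2 p ∈ Icc 1 N := by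
    intro p hp
    rw [mem_filter, mem_Icc] at hp
    obtain ⟨⟨h1, h2⟩, h3⟩ := hp
    have h4 := hQ p h3
    rw [mem_Icc]
    refine ⟨?_, ?_⟩
    · exact Nat.clog_pos (by norm_num) h4
    · exact Nat.clog_le_of_le_pow (h2.trans hx)
  rw [← sum_fiberwise_of_maps_to hmaps]
  apply sum_le_sum
  intro n _
  apply sum_le_sum_of_subset_of_nonneg
  · intro p hp
    rw [mem_filter, mem_filter, mem_Icc] at hp
    obtain ⟨⟨⟨h1, h2⟩, h3⟩, h4⟩ := hp
    have h5 := hQ p h3
    rw [mem_filter, mem_Ioc, ← h4]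
    refine ⟨⟨?_, ?_⟩, h3⟩
    · exact Nat.pow_pred_clog_lt_self (by norm_num) (by omega)
    · exact Nat.le_pow_clog (by norm_num) p
  · intro p _ _
    positivity

lemma block_sum_le (Q : ℕ → Prop) [DecidablePred Q] (n : ℕ) (hn : 1 ≤ n) (B : ℝ)
    (hB : (((Ioc (2 ^ (n - 1)) (2 ^ n)).filter Q).card : ℝ) ≤ B) :
    ∑ p ∈ (Ioc (2 ^ (n - 1)) (2 ^ n)).filter Q, 1 / (p : ℝ) ≤ 2 * B / 2 ^ n := by
  have h1 : ∀ p ∈ (Ioc (2 ^ (n - 1)) (2 ^ n)).filter Q, 1 / (p : ℝ) ≤ 2 / 2 ^ n := by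
    intro p hp
    rw [mem_filter, mem_Ioc] at hp
    obtain ⟨⟨h1, h2⟩, h3⟩ := hp
    have h4 : ((2 ^ (n - 1) : ℕ) : ℝ) < p := by exact_mod_cast h1
    push_cast at h4
    have h5 : (2 : ℝ) ^ n = 2 * 2 ^ (n - 1) := by
      rw [← pow_succ']
      congr 1
      omega
    have h6 : (0 : ℝ) < 2 ^ (n - 1) := by positivity
    rw [h5, div_le_div_iff₀ (by linarith) (by positivity)]
    linarith
  calc _ ≤ ∑ p ∈ (Ioc (2 ^ (n - 1)) (2 ^ n)).filter Q, (2 : ℝ) / 2 ^ n := sum_le_sum h1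
    _ = (((Ioc (2 ^ (n - 1)) (2 ^ n)).filter Q).card : ℝ) * (2 / 2 ^ n) := by
        rw [sum_const, nsmul_eq_mul]
    _ ≤ B * (2 / 2 ^ n) := by gcongr
    _ = _ := by ring

lemma card_block_prime (Q : ℕ → Prop) [DecidablePred Q] (hQ : ∀ p, Q p → p.Prime) (n : ℕ) :
    ((Ioc (2 ^ (n - 1)) (2 ^ n)).filter Q).card ≤ Nat.primeCounting (2 ^ n) := by
  rw [Nat.primeCounting, Nat.primeCounting', Nat.count_eq_card_filter_range]
  apply card_le_card
  intro p hp
  rw [mem_filter, mem_Ioc] at hp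
  rw [mem_filter, mem_range]
  exact ⟨by omega, hQ p hp.2⟩

lemma tendsto_loglog_nat : Filter.Tendsto (fun n : ℕ => Real.log (Real.log n)) Filter.atTop
    Filter.atTop := Real.tendsto_log_atTop.comp tendsto_log_nat

open Classical in
theorem log_density : ∃ K' : ℝ, 0 < K' ∧ ∀ (γ ε η : ℝ) (A : ℕ), 0 < γ → γ < 1 → 0 < ε → ε ≤ 1 →
    0 < η → ∀ᵐ α : ℝ, 1 + η ≤ α → α ≤ A → ∀ᶠ x : ℕ in Filter.atTop,
    ∑ p ∈ (Icc 1 x).filter (fun p : ℕ => p.Prime ∧ ¬ LRr ε ((Real.log p) ^ α)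
        ((Real.log p) ^ α * Real.exp ((Real.log (Real.log p)) ^ γ)) p), 1 / (p : ℝ) ≤
      K' * ε * Real.log (Real.log x) := by
  obtain ⟨c, C₂, hc, hC₂, X₀, hX₀⟩ := basic_estimates
  refine ⟨21 * C₂, by positivity, ?_⟩
  intro γ ε η A hγ hγ1 hε hε1 hη
  obtain ⟨K, hK, n₁, F, hF1, hF2, hF3⟩ := exists_sets γ ε η A hγ hγ1 hε hε1 hη
  filter_upwards [ae_summable γ K hγ1 hK n₁ F hF1 hF2] with α hα hα1 hα2
  set Q : ℕ → Prop := fun p : ℕ => p.Prime ∧ ¬ LRr ε ((Real.log p) ^ α)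
        ((Real.log p) ^ α * Real.exp ((Real.log (Real.log p)) ^ γ)) p with hQ
  set a : ℕ → ℝ := fun n => if n₁ ≤ n then (F n).indicator (fun _ => 1 / (n : ℝ)) α else 0 with ha
  set n₂ := max (max n₁ X₀) 1 with hn₂
  set S : ℕ → ℝ := fun n => ∑ p ∈ (Ioc (2 ^ (n - 1)) (2 ^ n)).filter Q, 1 / (p : ℝ) with hS
  have ha0 : ∀ n, 0 ≤ a n := by
    intro n
    rw [ha]
    simp only
    split_ifs
    · apply Set.indicator_nonneg
      intro _ _
      positivity
    · exact le_rfl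
  have hS0 : ∀ n, 0 ≤ S n := by
    intro n
    rw [hS]
    apply sum_nonneg
    intro p _
    positivity
  have hblock : ∀ n, n₂ ≤ n → S n ≤ 4 * C₂ * (ε * (1 / n) + a n) := by
    intro n hn
    have hn1 : n₁ ≤ n := le_trans (le_trans (le_max_left _ _) (le_max_left _ _)) hn
    have hnX : X₀ ≤ n := le_trans (le_trans (le_max_right _ _) (le_max_left _ _)) hn
    have hn0 : 1 ≤ n := le_trans (le_max_right _ _) hn
    have hnr : (0 : ℝ) < n := by exact_mod_cast hn0
    obtain ⟨-, -, -, hpi, -⟩ := hX₀ (2 ^ n) (hnX.trans (Nat.lt_two_pow_self).le)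
    have hceil : (n : ℝ) / 2 ≤ ⌈Real.log ((2 ^ n : ℕ) : ℝ)⌉₊ := by
      refine le_trans ?_ (Nat.le_ceil _)
      push_cast
      rw [Real.log_pow]
      have : (0.69 : ℝ) < Real.log 2 := by
        have := Real.log_two_gt_d9
        linarith
      nlinarith
    have hpi2 : (Nat.primeCounting (2 ^ n) : ℝ) ≤ C₂ * 2 ^ n / (n / 2) := by
      refine hpi.trans ?_
      push_cast at hceil ⊢
      gcongr
    by_cases hm : α ∈ F n
    · have h1 : (((Ioc (2 ^ (n - 1)) (2 ^ n)).filter Q).card : ℝ) ≤ C₂ * 2 ^ n / (n / 2) := by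
        refine le_trans ?_ hpi2
        exact_mod_cast card_block_prime Q (fun p hp => hp.1) n
      have h2 := block_sum_le Q n hn0 _ h1
      have h3 : a n = 1 / n := by
        rw [ha]
        simp only
        rw [if_pos hn1, Set.indicator_of_mem hm]
      calc S n ≤ 2 * (C₂ * 2 ^ n / (n / 2)) / 2 ^ n := h2
        _ = 4 * C₂ * (1 / n) := by
            field_simp
            ring
        _ ≤ _ := by
            rw [h3]
            have : 0 ≤ ε * (1 / (n : ℝ)) := by positivity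
            gcongr
            linarith
    · have h1 : (((Ioc (2 ^ (n - 1)) (2 ^ n)).filter Q).card : ℝ) ≤ ε * (C₂ * 2 ^ n / (n / 2)) := by
        refine le_trans (hF3 n hn1 α hα1 hα2 hm) ?_
        gcongr
      have h2 := block_sum_le Q n hn0 _ h1
      calc S n ≤ 2 * (ε * (C₂ * 2 ^ n / (n / 2))) / 2 ^ n := h2
        _ = 4 * C₂ * (ε * (1 / n)) := by
            field_simp
            ring
        _ ≤ _ := by
            have := ha0 n
            gcongr
            linarith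
  have hkr := kronecker a (fun n => Real.log n) ha0
    (tendsto_log_nat.eventually_gt_atTop 0) ?_ tendsto_log_nat hα ε hε
  swap
  · intro m n hmn
    simp only
    rcases Nat.eq_zero_or_pos m with hm | hm
    · subst hm
      simpa using Real.log_natCast_nonneg n
    · apply Real.log_le_log
      · exact_mod_cast hm
      · exact_mod_cast hmn
  obtain ⟨N₀, hN₀⟩ := Filter.eventually_atTop.1 hkr
  set D := ∑ n ∈ range n₂, S n with hD
  have e1 := tendsto_loglog_nat.eventually_ge_atTop (max 1 (D / (C₂ * ε)))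
  have e2 := tendsto_log_nat.eventually_ge_atTop 4
  have e3 := Filter.eventually_ge_atTop (α := ℕ) (2 ^ (N₀ + 1))
  filter_upwards [e1, e2, e3] with x f1 f2 f3
  have f1a : 1 ≤ Real.log (Real.log x) := le_trans (le_max_left _ _) f1
  have f1b : D ≤ C₂ * ε * Real.log (Real.log x) := by
    have := le_trans (le_max_right _ _) f1
    rw [div_le_iff₀ (by positivity)] at this
    linarith
  set N := Nat.clog 2 x with hN
  have hx2 : 2 ≤ x := by
    have : 2 ^ 1 ≤ 2 ^ (N₀ + 1) := Nat.pow_le_pow_right (by norm_num) (by omega)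
    omega
  have hxN : x ≤ 2 ^ N := Nat.le_pow_clog (by norm_num) x
  have hxN' : 2 ^ (N - 1) < x := Nat.pow_pred_clog_lt_self (by norm_num) (by omega)
  have hNN : N₀ + 1 ≤ N := by
    by_contra h
    push Not at h
    have : 2 ^ N < 2 ^ (N₀ + 1) := Nat.pow_lt_pow_right (by norm_num) h
    omega
  have hlogN : Real.log ((N + 1 : ℕ) : ℝ) ≤ 2 * Real.log (Real.log x) := by
    have h1 : ((N - 1 : ℕ) : ℝ) * Real.log 2 ≤ Real.log x := by
      rw [← Real.log_pow]
      apply Real.log_le_log (by positivity)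
      exact_mod_cast hxN'.le
    have h2 : ((N - 1 : ℕ) : ℝ) = N - 1 := by
      rw [Nat.cast_sub (by omega)]; norm_num
    have h3 : (0.69 : ℝ) < Real.log 2 := by
      have := Real.log_two_gt_d9
      linarith
    have h4 : ((N - 1 : ℕ) : ℝ) * 0.69 ≤ Real.log x := by
      refine le_trans ?_ h1
      gcongr
    have h5 : ((N + 1 : ℕ) : ℝ) ≤ Real.log x ^ 2 := by
      push_cast
      rw [h2] at h4
      nlinarith
    calc Real.log ((N + 1 : ℕ) : ℝ) ≤ Real.log (Real.log x ^ 2) :=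
          Real.log_le_log (by positivity) h5
      _ = _ := by rw [Real.log_pow]; norm_num
  have hsum1 : ∑ n ∈ Icc 1 N, S n ≤ D + ∑ n ∈ Icc 1 N, 4 * C₂ * (ε * (1 / n) + a n) := by
    have h1 : ∀ n ∈ Icc 1 N, S n ≤ (if n < n₂ then S n else 0) + 4 * C₂ * (ε * (1 / n) + a n) := by
      intro n _
      split_ifs with h
      · have := ha0 n
        have : 0 ≤ 4 * C₂ * (ε * (1 / n) + a n) := by positivity
        linarith
      · rw [zero_add]
        exact hblock n (by omega)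
    refine (sum_le_sum h1).trans ?_
    rw [sum_add_distrib]
    have h2 : ∑ n ∈ Icc 1 N, (if n < n₂ then S n else 0) ≤ D := by
      rw [← sum_filter]
      apply sum_le_sum_of_subset_of_nonneg
      · intro n hn
        rw [mem_filter] at hn
        exact mem_range.2 hn.2
      · intro n _ _
        exact hS0 n
    linarith
  have hsum2 : ∑ n ∈ Icc 1 N, 4 * C₂ * (ε * (1 / n) + a n) ≤
      4 * C₂ * (ε * (1 + Real.log ((N + 1 : ℕ) : ℝ)) + ε * Real.log ((N + 1 : ℕ) : ℝ)) := by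
    rw [← mul_sum, sum_add_distrib, ← mul_sum]
    have h1 : ∑ n ∈ Icc 1 N, 1 / (n : ℝ) ≤ 1 + Real.log ((N + 1 : ℕ) : ℝ) := by
      have h2 := harmonic_le_one_add_log N
      rw [harmonic_eq_sum_Icc] at h2
      push_cast at h2
      have h3 : Real.log (N : ℝ) ≤ Real.log ((N + 1 : ℕ) : ℝ) := by
        apply Real.log_le_log
        · exact_mod_cast (by omega : 0 < N)
        · push_cast; linarith
      simp only [one_div]
      linarith
    have h2 : ∑ n ∈ Icc 1 N, a n ≤ ε * Real.log ((N + 1 : ℕ) : ℝ) := by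
      refine le_trans ?_ (hN₀ (N + 1) (by omega))
      apply sum_le_sum_of_subset_of_nonneg
      · intro n hn
        rw [mem_Icc] at hn
        exact mem_range.2 (by omega)
      · intro n _ _
        exact ha0 n
    gcongr
  have hmain := dyadic_sum Q (fun p hp => hp.1.two_le) x N hxN
  have hL := f1a
  calc ∑ p ∈ (Icc 1 x).filter Q, 1 / (p : ℝ) ≤ ∑ n ∈ Icc 1 N, S n := hmain
    _ ≤ D + 4 * C₂ * (ε * (1 + Real.log ((N + 1 : ℕ) : ℝ)) + ε * Real.log ((N + 1 : ℕ) : ℝ)) := by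
        linarith
    _ ≤ C₂ * ε * Real.log (Real.log x) + 4 * C₂ * (ε * (Real.log (Real.log x) + 2 * Real.log (Real.log x)) +
        ε * (2 * Real.log (Real.log x))) := by
        gcongr
    _ = 21 * C₂ * ε * Real.log (Real.log x) := by ring

end Pool.Agent.H.MP_711652_nt
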