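import Mathlib
import Pool.Agent.H.MP_711652_nt.DimB
import Pool.Agent.H.MP_711652_nt.ExpoD

set_option autoImplicit false

namespace Pool.Agent.H.MP_711652_nt

open Finset MeasureTheory Filter

open Classical in
theorem density_generic : ∃ K' : ℝ, 0 < K' ∧ ∀ (Q : ℕ → Prop) (n₁ : ℕ) (S : Set ℕ) (ε : ℝ),
    (∀ p, Q p → p.Prime) → 0 < ε → ε ≤ 1 →
    (∀ n, n₁ ≤ n → n ∉ S → (((Ioc (2 ^ (n - 1)) (2 ^ n)).filter Q).card : ℝ) ≤
      ε * Nat.primeCounting (2 ^ n)) →
    ∃ D : ℝ, 0 ≤ D ∧ ∀ x N : ℕ, x ≤ 2 ^ N →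
      ∑ p ∈ (Icc 1 x).filter Q, 1 / (p : ℝ) ≤
        D + K' * (ε * (1 + Real.log ((N + 1 : ℕ) : ℝ)) + ∑ n ∈ range (N + 1), aS n₁ S n) := by
  obtain ⟨c, C₂, hc, hC₂, X₀, hX₀⟩ := basic_estimates
  refine ⟨4 * C₂, by positivity, ?_⟩
  intro Q n₁ S ε hQ hε hε1 hS'
  set n₂ := max (max n₁ X₀) 1 with hn₂
  set a : ℕ → ℝ := aS n₁ S with ha
  set S' : ℕ → ℝ := fun n => ∑ p ∈ (Ioc (2 ^ (n - 1)) (2 ^ n)).filter Q, 1 / (p : ℝ) with hSd
  have ha0 : ∀ n, 0 ≤ a n := aS_nonneg n₁ S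
  have hS0 : ∀ n, 0 ≤ S' n := by
    intro n
    rw [hSd]
    apply sum_nonneg
    intro p _
    positivity
  have hblock : ∀ n, n₂ ≤ n → S' n ≤ 4 * C₂ * (ε * (1 / n) + a n) := by
    intro n hn
    have hn1 : n₁ ≤ n := le_trans (le_trans (le_max_left _ _) (le_max_left _ _)) hn
    have hnX : X₀ ≤ n := le_trans (le_trans (le_max_right _ _) (le_max_left _ _)) hn
    have hn0 : 1 ≤ n := le_trans (le_max_right _ _) hn
    have hnr : (0 : ℝ) < n := by exact_mod_cast hn0
    obtain ⟨-, -, -, hpi, -⟩ := hX₀ (2 ^ n) (hnX.trans (Nat.lt_two_pow_self).le)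
    have hceil : (n : ℝ) / 2 ≤ ⌈Real.log ((2 ^ n : ℕ) : ℝ)⌉₊ := by
      refine le_trans ?_ (Nat.le_ceil _)
      push_cast
      rw [Real.log_pow]
      have : (0.69 : ℝ) < Real.log 2 := by
        have := Real.log_two_gt_d9
        linarith
      nlinarith
    have hpi2 : (Nat.primeCounting (2 ^ n) : ℝ) ≤ C₂ * 2 ^ n / (n / 2) := by
      refine hpi.trans ?_
      push_cast at hceil ⊢
      gcongr
    by_cases hm : n ∈ S
    · have h1 : (((Ioc (2 ^ (n - 1)) (2 ^ n)).filter Q).card : ℝ) ≤ C₂ * 2 ^ n / (n / 2) := by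
        refine le_trans ?_ hpi2
        exact_mod_cast card_block_prime Q hQ n
      have h2 := block_sum_le Q n hn0 _ h1
      have h3 : a n = 1 / n := by
        rw [ha, aS, if_pos ⟨hn1, hm⟩]
      calc S' n ≤ 2 * (C₂ * 2 ^ n / (n / 2)) / 2 ^ n := h2
        _ = 4 * C₂ * (1 / n) := by
            field_simp
            ring
        _ ≤ _ := by
            rw [h3]
            have : 0 ≤ ε * (1 / (n : ℝ)) := by positivity
            gcongr
            linarith
    · have h1 : (((Ioc (2 ^ (n - 1)) (2 ^ n)).filter Q).card : ℝ) ≤ ε * (C₂ * 2 ^ n / (n / 2)) := by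
        refine le_trans (hS' n hn1 hm) ?_
        gcongr
      have h2 := block_sum_le Q n hn0 _ h1
      calc S' n ≤ 2 * (ε * (C₂ * 2 ^ n / (n / 2))) / 2 ^ n := h2
        _ = 4 * C₂ * (ε * (1 / n)) := by
            field_simp
            ring
        _ ≤ _ := by
            have := ha0 n
            gcongr
            linarith
  refine ⟨∑ n ∈ range n₂, S' n, sum_nonneg fun n _ => hS0 n, ?_⟩
  intro x N hxN
  set D := ∑ n ∈ range n₂, S' n with hD
  have hsum1 : ∑ n ∈ Icc 1 N, S' n ≤ D + ∑ n ∈ Icc 1 N, 4 * C₂ * (ε * (1 / n) + a n) := by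
    have h1 : ∀ n ∈ Icc 1 N, S' n ≤ (if n < n₂ then S' n else 0) + 4 * C₂ * (ε * (1 / n) + a n) := by
      intro n _
      split_ifs with h
      · have := ha0 n
        have : 0 ≤ 4 * C₂ * (ε * (1 / n) + a n) := by positivity
        linarith
      · rw [zero_add]
        exact hblock n (by omega)
    refine (sum_le_sum h1).trans ?_
    rw [sum_add_distrib]
    have h2 : ∑ n ∈ Icc 1 N, (if n < n₂ then S' n else 0) ≤ D := by
      rw [← sum_filter]
      apply sum_le_sum_of_subset_of_nonneg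
      · intro n hn
        rw [mem_filter] at hn
        exact mem_range.2 hn.2
      · intro n _ _
        exact hS0 n
    linarith
  have hsum2 : ∑ n ∈ Icc 1 N, 4 * C₂ * (ε * (1 / n) + a n) ≤
      4 * C₂ * (ε * (1 + Real.log ((N + 1 : ℕ) : ℝ)) + ∑ n ∈ range (N + 1), a n) := by
    rw [← mul_sum, sum_add_distrib, ← mul_sum]
    have h1 : ∑ n ∈ Icc 1 N, 1 / (n : ℝ) ≤ 1 + Real.log ((N + 1 : ℕ) : ℝ) := by
      rcases Nat.eq_zero_or_pos N with hN0 | hN0
      · subst hN0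
        simp
      have h2 := harmonic_le_one_add_log N
      rw [harmonic_eq_sum_Icc] at h2
      push_cast at h2
      have h3 : Real.log (N : ℝ) ≤ Real.log ((N + 1 : ℕ) : ℝ) := by
        apply Real.log_le_log
        · exact_mod_cast hN0
        · push_cast; linarith
      simp only [one_div]
      linarith
    have h2 : ∑ n ∈ Icc 1 N, a n ≤ ∑ n ∈ range (N + 1), a n := by
      apply sum_le_sum_of_subset_of_nonneg
      · intro n hn
        rw [mem_Icc] at hn
        exact mem_range.2 (by omega)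
      · intro n _ _
        exact ha0 n
    gcongr
  have hmain := dyadic_sum Q (fun p hp => (hQ p hp).two_le) x N hxN
  linarith

open Classical in
/-- From the levels to the primes: eventually version. -/
theorem density_event : ∃ K' : ℝ, 0 < K' ∧ ∀ (Q : ℕ → Prop) (n₁ : ℕ) (S : Set ℕ) (ε : ℝ),
    (∀ p, Q p → p.Prime) → 0 < ε → ε ≤ 1 →
    (∀ n, n₁ ≤ n → n ∉ S → (((Ioc (2 ^ (n - 1)) (2 ^ n)).filter Q).card : ℝ) ≤
      ε * Nat.primeCounting (2 ^ n)) →
    (∀ᶠ N : ℕ in atTop, ∑ n ∈ range N, aS n₁ S n ≤ ε * Real.log N) →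
    ∀ᶠ x : ℕ in atTop, ∑ p ∈ (Icc 1 x).filter Q, 1 / (p : ℝ) ≤
      K' * ε * Real.log (Real.log x) := by
  obtain ⟨K₀, hK₀, hmain⟩ := density_generic
  refine ⟨1 + 5 * K₀, by positivity, ?_⟩
  intro Q n₁ S ε hQ hε hε1 hS hev
  obtain ⟨D, hD, hmain⟩ := hmain Q n₁ S ε hQ hε hε1 hS
  obtain ⟨N₀, hN₀⟩ := eventually_atTop.1 hev
  have e1 := tendsto_loglog_nat.eventually_ge_atTop (max 1 (D / ε))
  have e2 := tendsto_log_nat.eventually_ge_atTop 4
  have e3 := Filter.eventually_ge_atTop (α := ℕ) (2 ^ (N₀ + 1))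
  filter_upwards [e1, e2, e3] with x f1 f2 f3
  have f1a : 1 ≤ Real.log (Real.log x) := le_trans (le_max_left _ _) f1
  have f1b : D ≤ ε * Real.log (Real.log x) := by
    have := le_trans (le_max_right _ _) f1
    rw [div_le_iff₀ hε] at this
    linarith
  set N := Nat.clog 2 x with hN
  have hx2 : 2 ≤ x := by
    have : 2 ^ 1 ≤ 2 ^ (N₀ + 1) := Nat.pow_le_pow_right (by norm_num) (by omega)
    omega
  have hxN : x ≤ 2 ^ N := Nat.le_pow_clog (by norm_num) x
  have hxN' : 2 ^ (N - 1) < x := Nat.pow_pred_clog_lt_self (by norm_num) (by omega)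
  have hNN : N₀ + 1 ≤ N := by
    by_contra h
    push Not at h
    have : 2 ^ N < 2 ^ (N₀ + 1) := Nat.pow_lt_pow_right (by norm_num) h
    omega
  have hlogN : Real.log ((N + 1 : ℕ) : ℝ) ≤ 2 * Real.log (Real.log x) := by
    have h1 : ((N - 1 : ℕ) : ℝ) * Real.log 2 ≤ Real.log x := by
      rw [← Real.log_pow]
      apply Real.log_le_log (by positivity)
      exact_mod_cast hxN'.le
    have h2 : ((N - 1 : ℕ) : ℝ) = N - 1 := by
      rw [Nat.cast_sub (by omega)]; norm_num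
    have h3 : (0.69 : ℝ) < Real.log 2 := by
      have := Real.log_two_gt_d9
      linarith
    have h4 : ((N - 1 : ℕ) : ℝ) * 0.69 ≤ Real.log x := by
      refine le_trans ?_ h1
      gcongr
    have h5 : ((N + 1 : ℕ) : ℝ) ≤ Real.log x ^ 2 := by
      push_cast
      rw [h2] at h4
      nlinarith
    calc Real.log ((N + 1 : ℕ) : ℝ) ≤ Real.log (Real.log x ^ 2) :=
          Real.log_le_log (by positivity) h5
      _ = _ := by rw [Real.log_pow]; norm_num
  have h1 := hmain x N hxN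
  have h2 := hN₀ (N + 1) (by omega)
  calc _ ≤ _ := h1
    _ ≤ ε * Real.log (Real.log x) + K₀ * (ε * (Real.log (Real.log x) + 2 * Real.log (Real.log x)) +
        ε * (2 * Real.log (Real.log x))) := by
        gcongr
        refine h2.trans ?_
        gcongr
    _ = _ := by ring

open Classical in
/-- From the levels to the primes: frequently version. -/
theorem density_freq : ∃ K' : ℝ, 0 < K' ∧ ∀ (Q : ℕ → Prop) (n₁ : ℕ) (S : Set ℕ) (ε : ℝ),
    (∀ p, Q p → p.Prime) → 0 < ε → ε ≤ 1 →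
    (∀ n, n₁ ≤ n → n ∉ S → (((Ioc (2 ^ (n - 1)) (2 ^ n)).filter Q).card : ℝ) ≤
      ε * Nat.primeCounting (2 ^ n)) →
    (∃ᶠ N : ℕ in atTop, ∑ n ∈ range N, aS n₁ S n ≤ ε * Real.log N) →
    ∃ᶠ x : ℕ in atTop, ∑ p ∈ (Icc 1 x).filter Q, 1 / (p : ℝ) ≤
      K' * ε * Real.log (Real.log x) := by
  obtain ⟨K₀, hK₀, hmain⟩ := density_generic
  refine ⟨1 + 5 * K₀, by positivity, ?_⟩
  intro Q n₁ S ε hQ hε hε1 hS hfr
  obtain ⟨D, hD, hmain⟩ := hmain Q n₁ S ε hQ hε hε1 hS
  rw [frequently_atTop]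
  intro A
  have e1 : Tendsto (fun N : ℕ => Real.log (Real.log ((2 ^ (N - 1) : ℕ) : ℝ))) atTop atTop := by
    have h1 : Tendsto (fun N : ℕ => 2 ^ (N - 1)) atTop atTop :=
      (tendsto_pow_atTop_atTop_of_one_lt (by norm_num : 1 < 2)).comp (tendsto_sub_atTop_nat 1)
    exact tendsto_loglog_nat.comp h1
  have e2 := e1.eventually_ge_atTop (max 1 (D / ε))
  obtain ⟨N, hN, hlN, hNA⟩ := (hfr.and_eventually (e2.and (eventually_ge_atTop (A + 10)))).exists
  set x := 2 ^ (N - 1) with hx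
  have hNr : (10 : ℝ) ≤ N := by exact_mod_cast (by omega : 10 ≤ N)
  have f1a : 1 ≤ Real.log (Real.log x) := le_trans (le_max_left _ _) hlN
  have f1b : D ≤ ε * Real.log (Real.log x) := by
    have := le_trans (le_max_right _ _) hlN
    rw [div_le_iff₀ hε] at this
    linarith
  refine ⟨x, ?_, ?_⟩
  · have h1 : N - 1 < 2 ^ (N - 1) := Nat.lt_two_pow_self
    have h2 : A ≤ N - 1 := by omega
    omega
  have h1 := hmain x (N - 1) le_rfl
  have h2 : N - 1 + 1 = N := by omega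
  rw [h2] at h1
  have hlogN : Real.log (N : ℝ) ≤ 2 * Real.log (Real.log x) := by
    have h2 : ((N - 1 : ℕ) : ℝ) = N - 1 := by
      rw [Nat.cast_sub (by omega)]; norm_num
    have h3 : (0.69 : ℝ) < Real.log 2 := by
      have := Real.log_two_gt_d9
      linarith
    have h4 : ((N - 1 : ℕ) : ℝ) * 0.69 ≤ Real.log x := by
      rw [hx]
      push_cast
      rw [Real.log_pow]
      gcongr
    have h5 : (N : ℝ) ≤ Real.log x ^ 2 := by
      rw [h2] at h4
      nlinarith
    calc Real.log (N : ℝ) ≤ Real.log (Real.log x ^ 2) :=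
          Real.log_le_log (by positivity) h5
      _ = _ := by rw [Real.log_pow]; norm_num
  calc _ ≤ _ := h1
    _ ≤ ε * Real.log (Real.log x) + K₀ * (ε * (Real.log (Real.log x) + 2 * Real.log (Real.log x)) +
        ε * (2 * Real.log (Real.log x))) := by
        gcongr
        refine hN.trans ?_
        gcongr
    _ = _ := by ring

end Pool.Agent.H.MP_711652_nt
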