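import Mathlib
import Pool.Agent.H.MP_711652_nt.Moments
import Pool.Agent.H.MP_711652_nt.Window

set_option autoImplicit false

namespace Pool.Agent.H.MP_711652_nt

open Finset

/-- Hellinger energy between the scales `L` and `T`. -/
noncomputable def Hel (L T : ℕ) (f : ℕ → ℝ) (M : ℕ) : ℝ :=
  ∑ n ∈ range M, (√(avg L f n) - √(avg T f n)) ^ 2

/-- Entropy at scale `L`. -/
noncomputable def Ent (L : ℕ) (f : ℕ → ℝ) (M : ℕ) : ℝ :=
  ∑ n ∈ range M, avg L f n * Real.log (avg L f n)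

/-- Sum of `f` over `(y, y + h]`. -/
noncomputable def csum (f : ℕ → ℝ) (y h : ℕ) : ℝ := ∑ n ∈ Ioc y (y + h), f n

open Classical in
/-- In all windows around `n` with radius between `H` and `R`, for all but few `y`, all the
intervals `(y, y + h]` with `h` between `H` and `R` contain the right mass. -/
def GoodAt (f : ℕ → ℝ) (ε μ : ℝ) (H R n : ℕ) : Prop :=
  ∀ r, H ≤ r → r ≤ R →
    (((Icc (n - r) (n + r)).filter
      (fun y => ∃ h, H ≤ h ∧ h ≤ R ∧ ε * (μ * h) < |csum f y h - μ * h|)).card : ℝ)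
      ≤ ε * (2 * r + 1)

open Classical in
/-- The points `y` of the block `[a, a + T)` with a bad window `(y - L, y + h + L]`,
`H ≤ h ≤ R`, inside the block. -/
noncomputable def Dev (f : ℕ → ℝ) (L T a H R : ℕ) (ε : ℝ) : Finset ℕ :=
  (range (a + T)).filter (fun y => a + L ≤ y ∧ ∃ h, H ≤ h ∧ h ≤ R ∧ y + h + L < a + T ∧
    ε ^ 2 / 100 * avg T f a * (h + 2 * L) <
      ∑ n ∈ Ioc (y - L) (y + h + L), (√(avg L f n) - √(avg T f a)) ^ 2)

/-- The indicator function of the primes, shifted by `a`. -/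
noncomputable def ps (a n : ℕ) : ℝ := if a ≤ n ∧ (n - a).Prime then 1 else 0

open Classical in
/-- `p` is typical for the range `[H, R]`. -/
def TypicalS (ε : ℝ) (H R p : ℕ) : Prop :=
  ∃ μ : ℝ, 0 < μ ∧ ∀ r, H ≤ r → r ≤ R →
    (((Icc (p - r) (p + r)).filter
      (fun y => ∃ h, H ≤ h ∧ h ≤ R ∧ ε * (μ * h) < |(cnt y h : ℝ) - μ * h|)).card : ℝ)
      ≤ ε * (2 * r + 1)

end Pool.Agent.H.MP_711652_nt
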