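import Mathlib
import Pool.Agent.H.MP_711652_nt.EntDefs

set_option autoImplicit false

namespace Pool.Agent.H.MP_711652_nt

open Finset

/-- Pointwise inequality between the entropy and the Hellinger distance. -/
lemma ent_pointwise (u v : ℝ) (hu : 0 ≤ u) (hv : 0 ≤ v) (h : v = 0 → u = 0) :
    2 * u - 2 * √(u * v) ≤ u * Real.log u - u * Real.log v := by
  rcases hu.eq_or_lt with h0 | hu0
  · rw [← h0]
    simp
  · have hv0 : 0 < v := lt_of_le_of_ne hv fun h1 => hu0.ne' (h h1.symm)
    have hs : 0 < √(v / u) := Real.sqrt_pos.2 (div_pos hv0 hu0)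
    have h1 := Real.log_le_sub_one_of_pos hs
    have h2 : Real.log √(v / u) = (Real.log v - Real.log u) / 2 := by
      rw [Real.log_sqrt (div_pos hv0 hu0).le, Real.log_div hv0.ne' hu0.ne']
    have h3 : u * √(v / u) = √(u * v) := by
      have h4 : u * v = u ^ 2 * (v / u) := by
        field_simp
      rw [h4, Real.sqrt_mul (sq_nonneg u), Real.sqrt_sq hu]
    rw [h2] at h1
    have h5 := mul_le_mul_of_nonneg_left h1 hu
    rw [mul_sub, mul_one, h3] at h5
    linarith

/-- Conditional expectation keeps the total mass. -/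
lemma sum_avg_eq (m s : ℕ) (hs : 0 < s) (f : ℕ → ℝ) :
    ∑ n ∈ range (m * s), avg s f n = ∑ n ∈ range (m * s), f n := by
  have h := sum_avg_mul m s hs f (fun _ => 1) (fun _ _ _ => rfl)
  simpa only [mul_one] using h

/-- If the average over the large block vanishes then so does the average over the smaller
block, for a non-negative function. -/
lemma avg_zero_of_avg_zero (L T : ℕ) (hL : 0 < L) (hLT : L ∣ T) (hT : 0 < T) (f : ℕ → ℝ)
    (hf : ∀ k, 0 ≤ f k) (n : ℕ) (h : avg T f n = 0) : avg L f n = 0 := by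
  have hT0 : (T : ℝ) ≠ 0 := by exact_mod_cast hT.ne'
  have h1 : ∑ i ∈ range T, f (n / T * T + i) = 0 := by
    unfold avg at h
    rcases div_eq_zero_iff.1 h with h | h
    · exact h
    · exact absurd h hT0
  have h2 : ∀ i ∈ range T, f (n / T * T + i) = 0 :=
    (sum_eq_zero_iff_of_nonneg fun i _ => hf _).1 h1
  obtain ⟨t, rfl⟩ := hLT
  have ht : 0 < t := by
    rcases Nat.eq_zero_or_pos t with h | h
    · subst h; simp at hT
    · exact h
  have h3 : n / (L * t) * (L * t) ≤ n / L * L := by
    rw [← Nat.div_div_eq_div_mul]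
    calc n / L / t * (L * t) = n / L / t * t * L := by ring
      _ ≤ n / L * L := Nat.mul_le_mul_right L (Nat.div_mul_le_self _ _)
  have h4 : n / L * L + L ≤ n / (L * t) * (L * t) + L * t := by
    rw [← Nat.div_div_eq_div_mul]
    have h5 : n / L < t * (n / L / t + 1) := Nat.lt_mul_div_succ _ ht
    calc n / L * L + L = (n / L + 1) * L := by ring
      _ ≤ t * (n / L / t + 1) * L := Nat.mul_le_mul_right L h5
      _ = n / L / t * (L * t) + L * t := by ring
  unfold avg
  rw [sum_eq_zero, zero_div]
  intro i hi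
  rw [mem_range] at hi
  obtain ⟨j, hj⟩ := Nat.exists_eq_add_of_le (h3.trans (Nat.le_add_right (n / L * L) i))
  rw [hj]
  exact h2 j (mem_range.2 (by omega))

/-- The Hellinger energy is at most the entropy difference. -/
lemma hel_le_ent (M L T : ℕ) (hL : 0 < L) (hLT : L ∣ T) (hTM : T ∣ M) (hM : 0 < M) (f : ℕ → ℝ)
    (hf : ∀ k, 0 ≤ f k) : Hel L T f M ≤ Ent L f M - Ent T f M := by
  have hT : 0 < T := Nat.pos_of_dvd_of_pos hTM hM
  have hpt : ∀ n, avg T f n = 0 → avg L f n = 0 :=
    fun n => avg_zero_of_avg_zero L T hL hLT hT f hf n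
  obtain ⟨m, rfl⟩ := hTM
  obtain ⟨t, rfl⟩ := hLT
  have ht : 0 < t := by
    rcases Nat.eq_zero_or_pos t with h | h
    · subst h; simp at hT
    · exact h
  have e1 : L * t * m = m * t * L := by ring
  have e2 : L * t * m = m * (L * t) := by ring
  have hu : ∑ n ∈ range (L * t * m), avg L f n = ∑ n ∈ range (L * t * m), f n := by
    rw [e1]
    exact sum_avg_eq (m * t) L hL f
  have hv : ∑ n ∈ range (L * t * m), avg (L * t) f n = ∑ n ∈ range (L * t * m), f n := by
    rw [e2]
    exact sum_avg_eq m (L * t) hT f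
  have hlu : ∑ n ∈ range (L * t * m), avg L f n * Real.log (avg (L * t) f n) =
      ∑ n ∈ range (L * t * m), f n * Real.log (avg (L * t) f n) := by
    rw [e1]
    refine sum_avg_mul (m * t) L hL f (fun n => Real.log (avg (L * t) f n)) fun q i hi => ?_
    have := avg_const_block ht hL f q i hi
    rw [mul_comm t L] at this
    simp only [this]
  have hlv : ∑ n ∈ range (L * t * m), avg (L * t) f n * Real.log (avg (L * t) f n) =
      ∑ n ∈ range (L * t * m), f n * Real.log (avg (L * t) f n) := by
    rw [e2]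
    refine sum_avg_mul m (L * t) hT f (fun n => Real.log (avg (L * t) f n)) fun q i hi => ?_
    have h0 : avg (L * t) f (q * (L * t)) = avg (L * t) f (q * (L * t) + 0) := by rw [add_zero]
    simp only [h0]
    rw [avg_block hi, avg_block hT]
  have hH : Hel L (L * t) f (L * t * m) = ∑ n ∈ range (L * t * m),
      (2 * avg L f n - 2 * √(avg L f n * avg (L * t) f n)) := by
    have e3 : ∀ n ∈ range (L * t * m), (√(avg L f n) - √(avg (L * t) f n)) ^ 2 =
        avg L f n + avg (L * t) f n - 2 * √(avg L f n * avg (L * t) f n) := by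
      intro n _
      rw [Real.sqrt_mul (avg_nonneg L f hf n), sub_sq, Real.sq_sqrt (avg_nonneg L f hf n),
        Real.sq_sqrt (avg_nonneg (L * t) f hf n)]
      ring
    unfold Hel
    rw [sum_congr rfl e3, sum_sub_distrib, sum_sub_distrib, sum_add_distrib, ← mul_sum, ← mul_sum,
      hu, hv]
    ring
  have hE : Ent L f (L * t * m) - Ent (L * t) f (L * t * m) = ∑ n ∈ range (L * t * m),
      (avg L f n * Real.log (avg L f n) - avg L f n * Real.log (avg (L * t) f n)) := by
    unfold Ent
    rw [sum_sub_distrib, hlu, hlv]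
  rw [hH, hE]
  exact sum_le_sum fun n _ => ent_pointwise _ _ (avg_nonneg L f hf n)
    (avg_nonneg (L * t) f hf n) (hpt n)

end Pool.Agent.H.MP_711652_nt
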