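import Mathlib
import Pool.Agent.H.MP_711652_nt.EntA1

set_option autoImplicit false

namespace Pool.Agent.H.MP_711652_nt

open Finset

lemma EntA2_hel_nonneg (L T : ℕ) (f : ℕ → ℝ) (M : ℕ) : 0 ≤ Hel L T f M :=
  sum_nonneg fun _ _ => sq_nonneg _

lemma EntA2_anti (M L T : ℕ) (hL : 0 < L) (hLT : L ∣ T) (hTM : T ∣ M) (hM : 0 < M) (f : ℕ → ℝ)
    (hf : ∀ k, 0 ≤ f k) : Ent T f M ≤ Ent L f M := by
  have h1 := hel_le_ent M L T hL hLT hTM hM f hf
  have h2 := EntA2_hel_nonneg L T f M
  linarith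

/-- The Hellinger energies along a chain of scales add up to at most the entropy difference of the
two extreme scales. PROOF. As `chain_sum` in the file `Avg` (copy its induction), with
`hel_le_ent` at each step and `Ent (T i) ≥ Ent (s (i + 1))`, `Ent b ≥ Ent (s 0)`,
`Ent (T (J - 1)) ≥ Ent M` (all from `hel_le_ent`, as `Hel ≥ 0`). For `J = 0` the left side is `0`
and `Ent b ≥ Ent M`. -/
lemma hel_chain (M J b : ℕ) (s T : ℕ → ℕ) (hM : 0 < M) (hb : 0 < b) (f : ℕ → ℝ)
    (hf : ∀ k, 0 ≤ f k) (hbM : b ∣ M) (hbs : ∀ i, i < J → b ∣ s i) (hs : ∀ i, i < J → 0 < s i)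
    (hsT : ∀ i, i < J → s i ∣ T i) (hTM : ∀ i, i < J → T i ∣ M)
    (hTs : ∀ i, i + 1 < J → T i ∣ s (i + 1)) :
    ∑ i ∈ range J, Hel (s i) (T i) f M ≤ Ent b f M - Ent M f M := by
  have hTpos : ∀ i, i < J → 0 < T i := fun i hi => Nat.pos_of_dvd_of_pos (hTM i hi) hM
  have h1 : ∀ n, n + 1 ≤ J → ∑ i ∈ range (n + 1), Hel (s i) (T i) f M ≤
      Ent (s 0) f M - Ent (T n) f M := by
    intro n
    induction n with
    | zero =>
      intro h
      simp only [zero_add, range_one, sum_singleton]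
      exact hel_le_ent M (s 0) (T 0) (hs 0 (by omega)) (hsT 0 (by omega)) (hTM 0 (by omega)) hM f hf
    | succ n ih =>
      intro hn
      rw [sum_range_succ]
      have h2 := ih (by omega)
      have h3 := EntA2_anti M (T n) (s (n + 1)) (hTpos n (by omega)) (hTs n (by omega))
        ((hsT (n + 1) (by omega)).trans (hTM (n + 1) (by omega))) hM f hf
      have h4 := hel_le_ent M (s (n + 1)) (T (n + 1)) (hs _ (by omega)) (hsT _ (by omega))
        (hTM _ (by omega)) hM f hf
      linarith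
  rcases Nat.eq_zero_or_pos J with hJ | hJ
  · subst hJ
    simp only [range_zero, sum_empty]
    have := EntA2_anti M b M hb hbM dvd_rfl hM f hf
    linarith
  · obtain ⟨n, rfl⟩ := Nat.exists_eq_succ_of_ne_zero hJ.ne'
    have h2 := h1 n le_rfl
    have h3 := EntA2_anti M b (s 0) hb (hbs 0 hJ) ((hsT 0 hJ).trans (hTM 0 hJ)) hM f hf
    have h4 := EntA2_anti M (T n) M (hTpos n (by omega)) (hTM n (by omega)) dvd_rfl hM f hf
    exact h2.trans (by linarith)

lemma EntA2_avg_top (M : ℕ) (f : ℕ → ℝ) (n : ℕ) (hn : n < M) :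
    avg M f n = (∑ k ∈ range M, f k) / M := by
  unfold avg
  rw [Nat.div_eq_of_lt hn]
  simp

/-- PROOF. Let `v = avg b f n`, `S = ∑ f = ∑ v` (`sum_avg_eq`), `Q = ∑ v²`, `c = Q / S > 0`
(if `Q = 0` then all `v = 0` and `S = 0`). For `v ≥ 0`: `v * log v ≤ v * (log c + v / c - 1)`
(`Real.log_le_sub_one_of_pos` for `v / c`; trivial for `v = 0`), and summation gives
`Ent b ≤ S log c + Q / c - S = S log c`. And `avg M f n = S / M` for `n < M`, so
`Ent M = M * (S / M * log (S / M)) = S log (S / M)`. Finally `log c - log (S / M) =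
log (M * Q / S²)`. -/
lemma ent_sub_le (M b : ℕ) (hM : 0 < M) (hb : 0 < b) (hbM : b ∣ M) (f : ℕ → ℝ)
    (hf : ∀ k, 0 ≤ f k) (hS : 0 < ∑ n ∈ range M, f n) :
    Ent b f M - Ent M f M ≤ (∑ n ∈ range M, f n) *
      Real.log (M * (∑ n ∈ range M, (avg b f n) ^ 2) / (∑ n ∈ range M, f n) ^ 2) := by
  have hsum : ∑ n ∈ range M, avg b f n = ∑ n ∈ range M, f n := by
    obtain ⟨m, rfl⟩ := hbM
    rw [mul_comm b m]
    exact sum_avg_eq m b hb f
  have hv : ∀ n, 0 ≤ avg b f n := avg_nonneg b f hf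
  set S := ∑ n ∈ range M, f n with hSdef
  set Q := ∑ n ∈ range M, (avg b f n) ^ 2 with hQdef
  have hQ : 0 < Q := by
    by_contra hQ
    have h0 : Q = 0 := le_antisymm (not_lt.1 hQ) (sum_nonneg fun _ _ => sq_nonneg _)
    rw [hQdef, sum_eq_zero_iff_of_nonneg (fun _ _ => sq_nonneg _)] at h0
    have h1 : ∑ n ∈ range M, avg b f n = 0 :=
      sum_eq_zero fun n hn => pow_eq_zero_iff (two_ne_zero) |>.1 (h0 n hn)
    rw [hsum] at h1
    exact hS.ne' h1
  set c := Q / S with hcdef
  have hc : 0 < c := div_pos hQ hS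
  have hM' : (0 : ℝ) < M := by exact_mod_cast hM
  have hterm : ∀ n ∈ range M, avg b f n * Real.log (avg b f n) ≤
      avg b f n * Real.log c + (avg b f n) ^ 2 / c - avg b f n := by
    intro n _
    rcases (hv n).eq_or_lt with h | h
    · rw [← h]; simp
    · have h1 := Real.log_le_sub_one_of_pos (div_pos h hc)
      rw [Real.log_div h.ne' hc.ne'] at h1
      have h2 := mul_le_mul_of_nonneg_left h1 h.le
      have h3 : avg b f n * (avg b f n / c - 1) = (avg b f n) ^ 2 / c - avg b f n := by ring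
      rw [h3] at h2
      linarith
  have h1 : Ent b f M ≤ S * Real.log c := by
    have h2 := sum_le_sum hterm
    have h3 : ∑ n ∈ range M, (avg b f n * Real.log c + (avg b f n) ^ 2 / c - avg b f n) =
        S * Real.log c + Q / c - S := by
      rw [sum_sub_distrib, sum_add_distrib, ← sum_mul, ← sum_div, hsum]
    have h4 : Q / c = S := by
      rw [hcdef]; field_simp
    rw [h3, h4] at h2
    unfold Ent
    linarith
  have h2 : Ent M f M = S * Real.log (S / M) := by
    unfold Ent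
    rw [sum_congr rfl (fun n hn => by
      rw [EntA2_avg_top M f n (mem_range.1 hn)]), sum_const, card_range, nsmul_eq_mul, ← hSdef]
    field_simp
  have h3 : Real.log (M * Q / S ^ 2) = Real.log c - Real.log (S / M) := by
    rw [← Real.log_div hc.ne' (div_pos hS hM').ne', hcdef]
    congr 1
    field_simp
  rw [h3, h2, mul_sub]
  linarith

end Pool.Agent.H.MP_711652_nt
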