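import Mathlib
import Pool.Agent.H.MP_711652_nt.EntA1

set_option autoImplicit false

namespace Pool.Agent.H.MP_711652_nt

open Finset

/-- Sums over unions of `L`-blocks. PROOF. Difference of `sum_avg_eq v L` and `sum_avg_eq u L`
(as in `sum_Ico_blocks` in the file `Window`). -/
lemma sum_Ico_avg (L u v : ℕ) (hL : 0 < L) (huv : u ≤ v) (f : ℕ → ℝ) :
    ∑ n ∈ Ico (u * L) (v * L), avg L f n = ∑ n ∈ Ico (u * L) (v * L), f n := by
  have h1 := sum_avg_eq v L hL f
  have h2 := sum_avg_eq u L hL f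
  have h3 : ∀ g : ℕ → ℝ, ∑ n ∈ range (u * L), g n + ∑ n ∈ Ico (u * L) (v * L), g n =
      ∑ n ∈ range (v * L), g n :=
    fun g => Finset.sum_range_add_sum_Ico g (Nat.mul_le_mul_right L huv)
  have h4 := h3 f
  have h5 := h3 (avg L f)
  linarith

/-- Mass of an interval against the averages at scale `L`. PROOF. `u0 = (y + 1) / L`,
`u1 = (y + h) / L`, `W = Ioc (y - L) (y + h + L)`.
Upper bound: `Ioc y (y + h) ⊆ Ico (u0 * L) ((u1 + 1) * L) ⊆ W` (the second inclusion because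
`u0 * L + L > y + 1` and `L ≤ y`), so `csum ≤ ∑_{Ico} f = ∑_{Ico} avg L f ≤ ∑_{Ico} |avg L f - μ| +
μ * ((u1 + 1 - u0) * L)` and `(u1 + 1 - u0) * L ≤ h + 2 * L` (if `h = 0` then `csum = 0` and the
claim is trivial; for `h ≥ 1` one has `u0 ≤ u1`).
Lower bound: if `u0 + 1 ≤ u1` then `Ico ((u0 + 1) * L) (u1 * L) ⊆ Ioc y (y + h)` and it is
contained in `W`, so `csum ≥ ∑_{Ico} f = ∑_{Ico} avg L f ≥ μ * ((u1 - u0 - 1) * L) - ∑_W |avg L f -
μ|` and `(u1 - u0 - 1) * L ≥ h - 2 * L`; otherwise `h ≤ 2 * L` and `csum ≥ 0 ≥ μ h - 2 L μ`. -/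
lemma csum_window (f : ℕ → ℝ) (hf : ∀ k, 0 ≤ f k) (L y h : ℕ) (hL : 0 < L) (hLy : L ≤ y) (μ : ℝ)
    (hμ : 0 ≤ μ) :
    |csum f y h - μ * h| ≤ 2 * L * μ + ∑ n ∈ Ioc (y - L) (y + h + L), |avg L f n - μ| := by
  have hW0 : 0 ≤ ∑ n ∈ Ioc (y - L) (y + h + L), |avg L f n - μ| :=
    sum_nonneg fun _ _ => abs_nonneg _
  have hLμ : 0 ≤ 2 * (L : ℝ) * μ := by positivity
  rcases Nat.eq_zero_or_pos h with rfl | hh
  · have : csum f y 0 = 0 := by unfold csum; simp
    rw [this]
    simp only [Nat.cast_zero, mul_zero, sub_zero, abs_zero]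
    simp only [add_zero] at hW0 ⊢
    linarith
  obtain ⟨u0, hu0⟩ : ∃ u0, u0 = (y + 1) / L := ⟨_, rfl⟩
  obtain ⟨u1, hu1⟩ : ∃ u1, u1 = (y + h) / L := ⟨_, rfl⟩
  have a1 : u0 * L ≤ y + 1 := by rw [hu0]; exact Nat.div_mul_le_self _ _
  have a2 : y + 1 < u0 * L + L := by
    rw [hu0]; exact Nat.lt_div_mul_add hL
  have b1 : u1 * L ≤ y + h := by rw [hu1]; exact Nat.div_mul_le_self _ _
  have b2 : y + h < u1 * L + L := by
    rw [hu1]; exact Nat.lt_div_mul_add hL
  have hu01 : u0 ≤ u1 := by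
    rw [hu0, hu1]; exact Nat.div_le_div_right (by omega)
  have hmul : u0 * L ≤ u1 * L := Nat.mul_le_mul_right L hu01
  have hs1 : (u1 + 1) * L = u1 * L + L := by ring
  have hs0 : (u0 + 1) * L = u0 * L + L := by ring
  rw [abs_le]
  constructor
  · -- lower bound
    by_cases hc : u0 + 1 ≤ u1
    · have hmul2 : (u0 + 1) * L ≤ u1 * L := Nat.mul_le_mul_right L hc
      have c1 : ∑ n ∈ Ico ((u0 + 1) * L) (u1 * L), f n ≤ csum f y h := by
        unfold csum
        apply sum_le_sum_of_subset_of_nonneg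
        · intro n hn
          rw [mem_Ico] at hn
          rw [mem_Ioc]
          omega
        · intro i _ _
          exact hf i
      have c2 := sum_Ico_avg L (u0 + 1) u1 hL hc f
      have c3 : ∑ n ∈ Ico ((u0 + 1) * L) (u1 * L), (μ - |avg L f n - μ|) ≤
          ∑ n ∈ Ico ((u0 + 1) * L) (u1 * L), avg L f n := by
        apply sum_le_sum
        intro n _
        have := neg_abs_le (avg L f n - μ)
        linarith
      have c4 : ∑ n ∈ Ico ((u0 + 1) * L) (u1 * L), |avg L f n - μ| ≤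
          ∑ n ∈ Ioc (y - L) (y + h + L), |avg L f n - μ| := by
        apply sum_le_sum_of_subset_of_nonneg
        · intro n hn
          rw [mem_Ico] at hn
          rw [mem_Ioc]
          omega
        · intro i _ _
          exact abs_nonneg _
      rw [sum_sub_distrib, sum_const, Nat.card_Ico, nsmul_eq_mul] at c3
      have c5 : (h : ℝ) - 2 * L ≤ ((u1 * L - (u0 + 1) * L : ℕ) : ℝ) := by
        rw [Nat.cast_sub hmul2]
        have e1 : (y : ℝ) + h + 1 ≤ ((u1 * L : ℕ) : ℝ) + L := by exact_mod_cast b2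
        have e2 : (((u0 + 1) * L : ℕ) : ℝ) ≤ y + 1 + L := by
          have : (u0 + 1) * L ≤ y + 1 + L := by omega
          exact_mod_cast this
        linarith
      have c6 : ((h : ℝ) - 2 * L) * μ ≤ ((u1 * L - (u0 + 1) * L : ℕ) : ℝ) * μ :=
        mul_le_mul_of_nonneg_right c5 hμ
      linarith
    · have hh2 : h ≤ 2 * L := by
        have : u1 * L ≤ u0 * L := Nat.mul_le_mul_right L (by omega)
        omega
      have c0 : 0 ≤ csum f y h := by
        unfold csum
        exact sum_nonneg fun i _ => hf i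
      have c1 : (h : ℝ) ≤ 2 * L := by exact_mod_cast hh2
      have c2 : (h : ℝ) * μ ≤ 2 * L * μ := mul_le_mul_of_nonneg_right c1 hμ
      linarith
  · -- upper bound
    have c1 : csum f y h ≤ ∑ n ∈ Ico (u0 * L) ((u1 + 1) * L), f n := by
      unfold csum
      apply sum_le_sum_of_subset_of_nonneg
      · intro n hn
        rw [mem_Ioc] at hn
        rw [mem_Ico]
        omega
      · intro i _ _
        exact hf i
    have c2 := sum_Ico_avg L u0 (u1 + 1) hL (by omega) f
    have c3 : ∑ n ∈ Ico (u0 * L) ((u1 + 1) * L), avg L f n ≤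
        ∑ n ∈ Ico (u0 * L) ((u1 + 1) * L), (μ + |avg L f n - μ|) := by
      apply sum_le_sum
      intro n _
      have := le_abs_self (avg L f n - μ)
      linarith
    have c4 : ∑ n ∈ Ico (u0 * L) ((u1 + 1) * L), |avg L f n - μ| ≤
        ∑ n ∈ Ioc (y - L) (y + h + L), |avg L f n - μ| := by
      apply sum_le_sum_of_subset_of_nonneg
      · intro n hn
        rw [mem_Ico] at hn
        rw [mem_Ioc]
        omega
      · intro i _ _
        exact abs_nonneg _
    rw [sum_add_distrib, sum_const, Nat.card_Ico, nsmul_eq_mul] at c3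
    have c5 : (((u1 + 1) * L - u0 * L : ℕ) : ℝ) ≤ (h : ℝ) + 2 * L := by
      have : (u1 + 1) * L - u0 * L ≤ h + 2 * L := by omega
      exact_mod_cast this
    have c6 : (((u1 + 1) * L - u0 * L : ℕ) : ℝ) * μ ≤ ((h : ℝ) + 2 * L) * μ :=
      mul_le_mul_of_nonneg_right c5 hμ
    linarith

end Pool.Agent.H.MP_711652_nt
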