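import Mathlib
import Pool.Agent.H.MP_711652_nt.EntB1

set_option autoImplicit false

namespace Pool.Agent.H.MP_711652_nt

open Finset

/-- Small Hellinger energy in the window implies the right mass. PROOF. By `csum_window`. Put
`u = avg L f n`, `g = (√u - √μ)²`, `t = ε / 10`. Then `|u - μ| = |√u - √μ| * (√u + √μ) ≤
g + 2 √μ √g ≤ g + t μ + g / t` (AM-GM). The window has `h + 2 L` points, so
`∑ |u - μ| ≤ (1 + 10 / ε) * ∑ g + (ε / 10) * μ * (h + 2 L) ≤ (ε² / 100 + ε / 10 + ε / 10) * μ *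
(h + 2 L) ≤ 0.21 ε μ (h + 2 L)`, and `h + 2 L ≤ (1 + ε / 3) h ≤ 4 h / 3`, `2 L μ ≤ ε μ h / 3`.
Total `≤ (0.28 + 0.34) ε μ h`. -/
lemma csum_close (f : ℕ → ℝ) (hf : ∀ k, 0 ≤ f k) (L y h : ℕ) (hL : 0 < L) (hLy : L ≤ y)
    (ε μ : ℝ) (hμ : 0 < μ) (hε : 0 < ε) (hε1 : ε ≤ 1) (h6 : 6 * (L : ℝ) ≤ ε * h)
    (hW : ∑ n ∈ Ioc (y - L) (y + h + L), (√(avg L f n) - √μ) ^ 2 ≤
      ε ^ 2 / 100 * μ * (h + 2 * L)) :
    |csum f y h - μ * h| ≤ ε * (μ * h) := by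
  have h1 := csum_window f hf L y h hL hLy μ hμ.le
  have hLr : (0 : ℝ) < L := by exact_mod_cast hL
  have hh : (0 : ℝ) ≤ h := Nat.cast_nonneg h
  have key : ∀ n ∈ Ioc (y - L) (y + h + L), |avg L f n - μ| ≤
      (1 + 10 / ε) * (√(avg L f n) - √μ) ^ 2 + ε / 10 * μ := by
    intro n _
    have e1 : avg L f n = √(avg L f n) ^ 2 := (Real.sq_sqrt (avg_nonneg L f hf n)).symm
    have e2 : μ = √μ ^ 2 := (Real.sq_sqrt hμ.le).symm
    have hs0 : 0 ≤ √μ := Real.sqrt_nonneg _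
    have e3 : avg L f n - μ = (√(avg L f n) - √μ) ^ 2 + 2 * √μ * (√(avg L f n) - √μ) := by
      linear_combination e1 - e2
    have e4 : |avg L f n - μ| ≤ (√(avg L f n) - √μ) ^ 2 + 2 * √μ * |√(avg L f n) - √μ| := by
      rw [e3]
      refine (abs_add_le _ _).trans (le_of_eq ?_)
      rw [abs_of_nonneg (sq_nonneg _), abs_mul, abs_of_nonneg (by positivity : 0 ≤ 2 * √μ)]
    have e5 : 2 * √μ * |√(avg L f n) - √μ| ≤ ε / 10 * √μ ^ 2 +
        10 / ε * (√(avg L f n) - √μ) ^ 2 := by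
      have e6 : ε / 10 * √μ ^ 2 + 10 / ε * (√(avg L f n) - √μ) ^ 2 -
          2 * √μ * |√(avg L f n) - √μ| =
          10 / ε * (ε / 10 * √μ - |√(avg L f n) - √μ|) ^ 2 := by
        rw [← sq_abs (√(avg L f n) - √μ)]
        field_simp
        ring
      have e7 : 0 ≤ 10 / ε * (ε / 10 * √μ - |√(avg L f n) - √μ|) ^ 2 := by positivity
      linarith
    rw [← e2] at e5
    linarith
  have h2 := sum_le_sum key
  have hc : y + h + L - (y - L) = h + 2 * L := by omega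
  rw [sum_add_distrib, ← mul_sum, sum_const, Nat.card_Ioc, nsmul_eq_mul, hc] at h2
  push_cast at h2
  have h3 : (1 + 10 / ε) * ∑ n ∈ Ioc (y - L) (y + h + L), (√(avg L f n) - √μ) ^ 2 ≤
      (1 + 10 / ε) * (ε ^ 2 / 100 * μ * (h + 2 * L)) :=
    mul_le_mul_of_nonneg_left hW (by positivity)
  have h4 : (1 + 10 / ε) * (ε ^ 2 / 100 * μ * (h + 2 * L)) =
      (ε ^ 2 / 100 + ε / 10) * (μ * (h + 2 * L)) := by
    field_simp
    ring
  have h5 : 2 * (L : ℝ) ≤ ε * h / 3 := by linarith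
  have h6' : ε * (h : ℝ) ≤ h := by nlinarith
  have h7 : μ * (h + 2 * (L : ℝ)) ≤ 4 / 3 * (μ * h) := by nlinarith
  have h8 : 0 ≤ μ * (h : ℝ) := by positivity
  have h9 : (ε ^ 2 / 100 + ε / 10 + ε / 10) ≤ 21 / 100 * ε := by nlinarith
  have h10 : (ε ^ 2 / 100 + ε / 10 + ε / 10) * (μ * (h + 2 * (L : ℝ))) ≤
      21 / 100 * ε * (4 / 3 * (μ * h)) :=
    mul_le_mul h9 h7 (by positivity) (by positivity)
  have h11 : 2 * (L : ℝ) * μ ≤ ε * h / 3 * μ := mul_le_mul_of_nonneg_right h5 hμ.le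
  have h12 : 0 ≤ ε * (μ * (h : ℝ)) := by positivity
  nlinarith [h1, h2, h3, h4, h10, h11, h12]

end Pool.Agent.H.MP_711652_nt
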