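import Mathlib
import Pool.Agent.H.MP_711652_nt.EntDefs

set_option autoImplicit false

namespace Pool.Agent.H.MP_711652_nt

open Finset

/-- Size of the deviation set. PROOF. `max_two` (file `Avg`) with `M = a + T`,
`g n = if a ≤ n ∧ n < a + T then (√(avg L f n) - √(avg T f a))² else 0` and
`θ = ε ^ 2 / 300 * avg T f a`. For `y ∈ Dev` with its `h` take `ρ = h + L`: the interval
`Ioc (y - L) (y + h + L)` is contained in `Icc (y - ρ) (y + ρ)` and in `[a, a + T)`, so
`∑_{Icc} g ≥ ∑_{Ioc} (...)² > ε² / 100 * avg T f a * (h + 2 L) ≥ θ * (2 ρ + 1)` because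
`2 h + 2 L + 1 ≤ 3 (h + 2 L)`. The sum of `g` over `range (a + T)` is the sum over
`Ico a (a + T)`. -/
lemma dev_card (f : ℕ → ℝ) (L T a H R : ℕ) (ε : ℝ) (hL : 0 < L) (hε : 0 < ε)
    (hμ : 0 < avg T f a) :
    ε ^ 2 / 300 * avg T f a * ((Dev f L T a H R ε).card : ℝ) ≤
      4 * ∑ n ∈ Ico a (a + T), (√(avg L f n) - √(avg T f a)) ^ 2 := by
  classical
  set μ := avg T f a with hμdef
  set D : ℕ → ℝ := fun n => (√(avg L f n) - √μ) ^ 2 with hD
  set g : ℕ → ℝ := fun n => if a ≤ n ∧ n < a + T then D n else 0 with hg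
  have hD0 : ∀ n, 0 ≤ D n := fun n => sq_nonneg _
  have hg0 : ∀ n, 0 ≤ g n := by
    intro n
    simp only [hg]
    split_ifs
    · exact hD0 n
    · exact le_rfl
  have hgM : ∀ n, a + T ≤ n → g n = 0 := by
    intro n hn
    simp only [hg]
    rw [if_neg]
    rintro ⟨_, h2⟩
    omega
  have hθ : 0 < ε ^ 2 / 300 * μ := by positivity
  have hmax := max_two (a + T) g hg0 hgM (ε ^ 2 / 300 * μ) hθ
  have hsum : ∑ j ∈ range (a + T), g j = ∑ n ∈ Ico a (a + T), D n := by
    have h1 : Ico a (a + T) = (range (a + T)).filter (fun n => a ≤ n ∧ n < a + T) := by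
      ext n
      simp only [mem_Ico, mem_filter, mem_range]
      omega
    rw [h1, sum_filter]
  have hcard : ((Dev f L T a H R ε).card : ℝ) ≤
      (((range (a + T)).filter (fun k => ∃ ρ : ℕ, ε ^ 2 / 300 * μ * (2 * ρ + 1) <
        ∑ j ∈ Icc (k - ρ) (k + ρ), g j)).card : ℝ) := by
    have hsub : Dev f L T a H R ε ⊆ (range (a + T)).filter (fun k => ∃ ρ : ℕ,
        ε ^ 2 / 300 * μ * (2 * ρ + 1) < ∑ j ∈ Icc (k - ρ) (k + ρ), g j) := by
      intro y hy
      unfold Dev at hy
      rw [mem_filter] at hy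
      obtain ⟨hyr, hay, h, _, _, hyT, hlt⟩ := hy
      rw [mem_filter]
      refine ⟨hyr, h + L, ?_⟩
      have h1 : ∑ n ∈ Ioc (y - L) (y + h + L), D n ≤ ∑ j ∈ Icc (y - (h + L)) (y + (h + L)), g j := by
        calc ∑ n ∈ Ioc (y - L) (y + h + L), D n = ∑ n ∈ Ioc (y - L) (y + h + L), g n := by
              apply sum_congr rfl
              intro n hn
              rw [mem_Ioc] at hn
              simp only [hg]
              rw [if_pos]
              omega
          _ ≤ ∑ j ∈ Icc (y - (h + L)) (y + (h + L)), g j := by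
              apply sum_le_sum_of_subset_of_nonneg
              · intro n hn
                rw [mem_Ioc] at hn
                rw [mem_Icc]
                omega
              · intro j _ _
                exact hg0 j
      have h2 : ε ^ 2 / 300 * μ * (2 * ((h + L : ℕ) : ℝ) + 1) ≤ ε ^ 2 / 100 * μ * (h + 2 * L) := by
        have hL1 : (1 : ℝ) ≤ L := by exact_mod_cast hL
        have hh0 : (0 : ℝ) ≤ h := Nat.cast_nonneg h
        have h3 : (2 * ((h + L : ℕ) : ℝ) + 1) ≤ 3 * (h + 2 * L) := by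
          push_cast
          linarith
        calc ε ^ 2 / 300 * μ * (2 * ((h + L : ℕ) : ℝ) + 1) ≤ ε ^ 2 / 300 * μ * (3 * (h + 2 * L)) :=
              mul_le_mul_of_nonneg_left h3 hθ.le
          _ = ε ^ 2 / 100 * μ * (h + 2 * L) := by ring
      exact lt_of_le_of_lt h2 (lt_of_lt_of_le hlt h1)
    exact_mod_cast card_le_card hsub
  calc ε ^ 2 / 300 * μ * ((Dev f L T a H R ε).card : ℝ) ≤ ε ^ 2 / 300 * μ *
        (((range (a + T)).filter (fun k => ∃ ρ : ℕ, ε ^ 2 / 300 * μ * (2 * ρ + 1) <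
        ∑ j ∈ Icc (k - ρ) (k + ρ), g j)).card : ℝ) := mul_le_mul_of_nonneg_left hcard hθ.le
    _ ≤ 4 * ∑ j ∈ range (a + T), g j := by convert hmax
    _ = 4 * ∑ n ∈ Ico a (a + T), D n := by rw [hsum]

open Classical in
/-- Points near which a finite set `D` is dense. PROOF. `max_two` with `g = indicator of D`,
`θ = ε / 2`; `∑_{range M} g = D.card` as `D ⊆ range M`. -/
lemma dense_card (D : Finset ℕ) (M : ℕ) (hD : D ⊆ range M) (ε : ℝ) (hε : 0 < ε) :
    ε / 2 * (((range M).filter (fun k => ∃ ρ : ℕ, ε / 2 * (2 * ρ + 1) <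
      ((D.filter (fun j => k - ρ ≤ j ∧ j ≤ k + ρ)).card : ℝ))).card : ℝ) ≤ 4 * D.card := by
  have hmax := max_two M (fun j => if j ∈ D then (1 : ℝ) else 0)
    (fun k => by split_ifs <;> norm_num)
    (fun k hk => by
      rw [if_neg]
      intro hkD
      have := mem_range.mp (hD hkD)
      omega) (ε / 2) (by positivity)
  have hsum : ∑ j ∈ range M, (if j ∈ D then (1 : ℝ) else 0) = D.card := by
    rw [← sum_filter, sum_const, nsmul_eq_mul, mul_one]
    congr 2
    ext j
    rw [mem_filter]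
    exact ⟨fun h => h.2, fun h => ⟨hD h, h⟩⟩
  have hin : ∀ k ρ : ℕ, ∑ j ∈ Icc (k - ρ) (k + ρ), (if j ∈ D then (1 : ℝ) else 0) =
      ((D.filter (fun j => k - ρ ≤ j ∧ j ≤ k + ρ)).card : ℝ) := by
    intro k ρ
    rw [← sum_filter, sum_const, nsmul_eq_mul, mul_one]
    congr 2
    ext j
    simp only [mem_filter, mem_Icc]
    tauto
  simp only [hin, hsum] at hmax
  exact hmax

end Pool.Agent.H.MP_711652_nt
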