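import Mathlib
import Pool.Agent.H.MP_711652_nt.EntB2
import Pool.Agent.H.MP_711652_nt.EntB3

set_option autoImplicit false

namespace Pool.Agent.H.MP_711652_nt

open Finset

open Classical in
/-- A bad point has a window in which the deviation set is dense. PROOF. `¬ GoodAt` gives `r` with
`H ≤ r ≤ R` and more than `ε (2 r + 1)` points `y ∈ Icc (n - r) (n + r)` having some `h`,
`H ≤ h ≤ R`, with `ε μ h < |csum f y h - μ h|`. Each such `y` is in `Dev`: `y ≥ n - R ≥ a + L`,
`y + h + L ≤ n + 2 R + L < a + T`, and the energy of the window is large by `csum_close`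
(contrapositive; `6 L ≤ ε H ≤ ε h`). For `k` with `k / L = n / L` one has `|k - n| < L`, so these
`y` lie in `Icc (k - ρ) (k + ρ)` with `ρ = r + L`, and `ε (2 r + 1) ≥ ε / 2 * (2 ρ + 1)` because
`2 L ≤ H ≤ r`. -/
lemma bad_dense (f : ℕ → ℝ) (hf : ∀ k, 0 ≤ f k) (L T a H R n k : ℕ) (ε : ℝ) (hL : 0 < L)
    (hε : 0 < ε) (hε1 : ε ≤ 1) (h6 : 6 * (L : ℝ) ≤ ε * H) (hμ : 0 < avg T f a)
    (hn1 : a + (R + L) ≤ n) (hn2 : n + (2 * R + L) < a + T)
    (hbad : ¬ GoodAt f ε (avg T f a) H R n) (hk : k / L = n / L) :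
    ∃ ρ : ℕ, ε / 2 * (2 * ρ + 1) <
      (((Dev f L T a H R ε).filter (fun j => k - ρ ≤ j ∧ j ≤ k + ρ)).card : ℝ) := by
  unfold GoodAt at hbad
  push Not at hbad
  obtain ⟨r, hHr, hrR, hcard⟩ := hbad
  have hLH : 6 * (L : ℝ) ≤ H := by
    have : ε * (H : ℝ) ≤ H := by
      have h0 : (0 : ℝ) ≤ H := Nat.cast_nonneg H
      nlinarith
    linarith
  have hLHn : 6 * L ≤ H := by exact_mod_cast hLH
  have hk1 : k < n + L := by
    have h1 := Nat.lt_div_mul_add (a := k) hL
    have h2 := Nat.div_mul_le_self n L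
    rw [hk] at h1
    omega
  have hk2 : n < k + L := by
    have h1 := Nat.lt_div_mul_add (a := n) hL
    have h2 := Nat.div_mul_le_self k L
    rw [hk] at h2
    omega
  refine ⟨r + L, ?_⟩
  have hsub : (Icc (n - r) (n + r)).filter
      (fun y => ∃ h, H ≤ h ∧ h ≤ R ∧ ε * (avg T f a * h) < |csum f y h - avg T f a * h|) ⊆
      (Dev f L T a H R ε).filter (fun j => k - (r + L) ≤ j ∧ j ≤ k + (r + L)) := by
    intro y hy
    rw [mem_filter, mem_Icc] at hy
    obtain ⟨⟨hy1, hy2⟩, h, hHh, hhR, hlt⟩ := hy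
    rw [mem_filter]
    refine ⟨?_, by omega, by omega⟩
    unfold Dev
    rw [mem_filter, mem_range]
    refine ⟨by omega, by omega, h, hHh, hhR, by omega, ?_⟩
    by_contra hcon
    rw [not_lt] at hcon
    have h6' : 6 * (L : ℝ) ≤ ε * h := by
      refine h6.trans (mul_le_mul_of_nonneg_left ?_ hε.le)
      exact_mod_cast hHh
    exact absurd hlt (not_lt.mpr (csum_close f hf L y h hL (by omega) ε (avg T f a) hμ hε hε1 h6' hcon))
  have hle : ((((Icc (n - r) (n + r)).filter
      (fun y => ∃ h, H ≤ h ∧ h ≤ R ∧ ε * (avg T f a * h) < |csum f y h - avg T f a * h|)).card : ℕ) : ℝ) ≤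
      (((Dev f L T a H R ε).filter (fun j => k - (r + L) ≤ j ∧ j ≤ k + (r + L))).card : ℝ) := by
    exact_mod_cast card_le_card hsub
  have hrL : (L : ℝ) ≤ r := by
    have : (H : ℝ) ≤ r := by exact_mod_cast hHr
    have h0 : (0 : ℝ) ≤ L := Nat.cast_nonneg L
    linarith
  refine lt_of_le_of_lt ?_ (hcard.trans_le hle)
  push_cast
  nlinarith

open Classical in
/-- **Local lemma.** PROOF. `Q = Ico a (a + T)`, `μ = avg T f a`, `g n = (√(avg L f n) - √μ)²`.
Let `A` be the set on the left and `A' = {k ∈ Q : ∃ n ∈ A, k / L = n / L}`, a union of `L`-blocks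
(`a` and `T` are multiples of `L`). `∑_A f ≤ ∑_{A'} f = ∑_{A'} avg L f` (block sums: `A'` is a
disjoint union of blocks `Ico (u * L) ((u + 1) * L)`; or `sum_avg_mul` with the indicator of `A'`,
`range (a + T)`), and `avg L f k ≤ 2 g k + 2 μ` (`√u ≤ |√u - √μ| + √μ`). So
`∑_A f ≤ 2 ∑_Q g + 2 μ #A'`. By `bad_dense`, `A'` is contained in the set of `dense_card` with
`D = Dev`, `M = a + T`, so `ε / 2 * #A' ≤ 4 #Dev`, and `dev_card` gives
`μ #A' ≤ 8 / ε * μ * #Dev ≤ 8 / ε * (1200 / ε²) ∑_Q g = 9600 / ε³ ∑_Q g`.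
Total: `(2 + 19200 / ε³) ∑_Q g ≤ 20000 / ε³ ∑_Q g`. -/
lemma block_atypical (f : ℕ → ℝ) (hf : ∀ k, 0 ≤ f k) (L T a H R : ℕ) (ε : ℝ) (hL : 0 < L)
    (hT : 0 < T) (hLT : L ∣ T) (hTa : T ∣ a)
    (hε : 0 < ε) (hε1 : ε ≤ 1) (h6 : 6 * (L : ℝ) ≤ ε * H) (hμ : 0 < avg T f a) :
    ∑ n ∈ (Ico a (a + T)).filter (fun n => a + (R + L) ≤ n ∧ n + (2 * R + L) < a + T ∧
      ¬ GoodAt f ε (avg T f a) H R n), f n ≤
      20000 / ε ^ 3 * ∑ n ∈ Ico a (a + T), (√(avg L f n) - √(avg T f a)) ^ 2 := by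
  set μ := avg T f a with hμdef
  set A := (Ico a (a + T)).filter (fun n => a + (R + L) ≤ n ∧ n + (2 * R + L) < a + T ∧
      ¬ GoodAt f ε μ H R n) with hA
  set A' := (Ico a (a + T)).filter (fun k => ∃ n ∈ A, k / L = n / L) with hA'
  set G := ∑ n ∈ Ico a (a + T), (√(avg L f n) - √μ) ^ 2 with hG
  have hAA' : A ⊆ A' := by
    intro n hn
    rw [hA', mem_filter]
    rw [hA, mem_filter] at hn
    refine ⟨hn.1, n, ?_, rfl⟩
    rw [hA, mem_filter]
    exact hn
  obtain ⟨u, hu⟩ := hLT.trans hTa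
  obtain ⟨v, hv⟩ := hLT
  have hA'r : A' ⊆ range ((u + v) * L) := by
    intro k hk
    rw [hA', mem_filter, mem_Ico] at hk
    rw [mem_range]
    have : (u + v) * L = a + T := by rw [hu, hv]; ring
    omega
  have hsum1 : ∑ n ∈ A', f n = ∑ n ∈ A', avg L f n := by
    have h1 := sum_avg_mul (u + v) L hL f (fun k => if k ∈ A' then 1 else 0) (by
      intro q i hi
      have h2 : q * L + i ∈ A' ↔ q * L ∈ A' := by
        have h3 : (q * L + i) / L = q := div_block hi
        have h4 : (q * L) / L = q := Nat.mul_div_cancel _ hL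
        have h5 : (q * L + i ∈ Ico a (a + T)) ↔ (q * L ∈ Ico a (a + T)) := by
          rw [mem_Ico, mem_Ico, hu, hv]
          constructor
          · rintro ⟨h6, h7⟩
            refine ⟨?_, by omega⟩
            have h8 : u < q + 1 := by
              by_contra hc
              rw [not_lt] at hc
              have : (q + 1) * L ≤ u * L := Nat.mul_le_mul_right L hc
              rw [add_mul, one_mul] at this
              rw [mul_comm L u] at h6
              omega
            have : u * L ≤ q * L := Nat.mul_le_mul_right L (by omega)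
            rw [mul_comm L u]
            exact this
          · rintro ⟨h6, h7⟩
            refine ⟨by omega, ?_⟩
            have h8 : q < u + v := by
              by_contra hc
              rw [not_lt] at hc
              have : (u + v) * L ≤ q * L := Nat.mul_le_mul_right L hc
              rw [add_mul, mul_comm u, mul_comm v] at this
              omega
            have : (q + 1) * L ≤ (u + v) * L := Nat.mul_le_mul_right L (by omega)
            rw [add_mul, one_mul, add_mul, mul_comm u, mul_comm v] at this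
            omega
        rw [hA', mem_filter, mem_filter, h5, h3, h4]
      simp only [h2])
    have h2 : ∀ F : ℕ → ℝ, ∑ k ∈ range ((u + v) * L), F k * (if k ∈ A' then (1 : ℝ) else 0) =
        ∑ k ∈ A', F k := by
      intro F
      rw [← sum_filter_add_sum_filter_not (range ((u + v) * L)) (fun k => k ∈ A')]
      have h3 : (range ((u + v) * L)).filter (fun k => k ∈ A') = A' := by
        ext k
        rw [mem_filter]
        exact ⟨fun h => h.2, fun h => ⟨hA'r h, h⟩⟩
      rw [h3]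
      have h4 : ∑ k ∈ (range ((u + v) * L)).filter (fun k => k ∉ A'),
          F k * (if k ∈ A' then (1 : ℝ) else 0) = 0 := by
        apply sum_eq_zero
        intro k hk
        rw [mem_filter] at hk
        rw [if_neg hk.2, mul_zero]
      rw [h4, add_zero]
      apply sum_congr rfl
      intro k hk
      rw [if_pos hk, mul_one]
    rw [h2, h2] at h1
    exact h1.symm
  have hμ0 : 0 ≤ μ := hμ.le
  have hpt : ∀ k, avg L f k ≤ 2 * (√(avg L f k) - √μ) ^ 2 + 2 * μ := by
    intro k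
    have e1 : avg L f k = √(avg L f k) ^ 2 := (Real.sq_sqrt (avg_nonneg L f hf k)).symm
    have e2 : μ = √μ ^ 2 := (Real.sq_sqrt hμ0).symm
    nlinarith [sq_nonneg (√(avg L f k) - 2 * √μ)]
  have hsum2 : ∑ n ∈ A', avg L f n ≤ 2 * G + 2 * (μ * A'.card) := by
    calc ∑ n ∈ A', avg L f n ≤ ∑ n ∈ A', (2 * (√(avg L f n) - √μ) ^ 2 + 2 * μ) :=
          sum_le_sum fun k _ => hpt k
      _ = 2 * ∑ n ∈ A', (√(avg L f n) - √μ) ^ 2 + 2 * (μ * A'.card) := by
          rw [sum_add_distrib, ← mul_sum, sum_const, nsmul_eq_mul]; ring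
      _ ≤ 2 * G + 2 * (μ * A'.card) := by
          have : ∑ n ∈ A', (√(avg L f n) - √μ) ^ 2 ≤ G :=
            sum_le_sum_of_subset_of_nonneg (filter_subset _ _) fun _ _ _ => sq_nonneg _
          linarith
  have hDr : Dev f L T a H R ε ⊆ range (a + T) := filter_subset _ _
  have hA'sub : A' ⊆ (range (a + T)).filter (fun k => ∃ ρ : ℕ, ε / 2 * (2 * ρ + 1) <
      (((Dev f L T a H R ε).filter (fun j => k - ρ ≤ j ∧ j ≤ k + ρ)).card : ℝ)) := by
    intro k hk
    rw [hA', mem_filter, mem_Ico] at hk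
    obtain ⟨hkQ, n, hn, hkn⟩ := hk
    rw [hA, mem_filter] at hn
    rw [mem_filter, mem_range]
    exact ⟨hkQ.2, bad_dense f hf L T a H R n k ε hL hε hε1 h6 hμ hn.2.1 hn.2.2.1 hn.2.2.2 hkn⟩
  have hd1 := dense_card (Dev f L T a H R ε) (a + T) hDr ε hε
  have hd2 : ε / 2 * (A'.card : ℝ) ≤ 4 * (Dev f L T a H R ε).card := by
    refine le_trans (mul_le_mul_of_nonneg_left ?_ (by positivity)) hd1
    exact_mod_cast card_le_card hA'sub
  have hd3 := dev_card f L T a H R ε hL hε hμ
  rw [← hμdef, ← hG] at hd3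
  have hd4 : μ * (A'.card : ℝ) ≤ 9600 / ε ^ 3 * G := by
    have h1 : (A'.card : ℝ) ≤ 8 / ε * (Dev f L T a H R ε).card := by
      have : (A'.card : ℝ) = 2 / ε * (ε / 2 * A'.card) := by field_simp
      rw [this]
      calc 2 / ε * (ε / 2 * (A'.card : ℝ)) ≤ 2 / ε * (4 * (Dev f L T a H R ε).card) :=
            mul_le_mul_of_nonneg_left hd2 (by positivity)
        _ = 8 / ε * (Dev f L T a H R ε).card := by ring
    have h2 : μ * ((Dev f L T a H R ε).card : ℝ) ≤ 1200 / ε ^ 2 * G := by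
      have : μ * ((Dev f L T a H R ε).card : ℝ) =
          300 / ε ^ 2 * (ε ^ 2 / 300 * μ * (Dev f L T a H R ε).card) := by field_simp
      rw [this]
      calc 300 / ε ^ 2 * (ε ^ 2 / 300 * μ * ((Dev f L T a H R ε).card : ℝ)) ≤
            300 / ε ^ 2 * (4 * G) := mul_le_mul_of_nonneg_left hd3 (by positivity)
        _ = 1200 / ε ^ 2 * G := by ring
    calc μ * (A'.card : ℝ) ≤ μ * (8 / ε * (Dev f L T a H R ε).card) :=
          mul_le_mul_of_nonneg_left h1 hμ0
      _ = 8 / ε * (μ * (Dev f L T a H R ε).card) := by ring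
      _ ≤ 8 / ε * (1200 / ε ^ 2 * G) := mul_le_mul_of_nonneg_left h2 (by positivity)
      _ = 9600 / ε ^ 3 * G := by field_simp; ring
  have hG0 : 0 ≤ G := sum_nonneg fun _ _ => sq_nonneg _
  have hε3 : 1 ≤ 1 / ε ^ 3 := by
    rw [le_div_iff₀ (by positivity), one_mul]
    exact pow_le_one₀ hε.le hε1
  calc ∑ n ∈ A, f n ≤ ∑ n ∈ A', f n :=
        sum_le_sum_of_subset_of_nonneg hAA' fun k _ _ => hf k
    _ = ∑ n ∈ A', avg L f n := hsum1
    _ ≤ 2 * G + 2 * (μ * A'.card) := hsum2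
    _ ≤ 2 * G + 2 * (9600 / ε ^ 3 * G) := by linarith
    _ ≤ 20000 / ε ^ 3 * G := by
        have h1 : 9600 / ε ^ 3 = 9600 * (1 / ε ^ 3) := by ring
        have h2 : 20000 / ε ^ 3 = 20000 * (1 / ε ^ 3) := by ring
        rw [h1, h2]
        nlinarith

end Pool.Agent.H.MP_711652_nt
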