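import Mathlib
import Pool.Agent.H.MP_711652_nt.EntB4

set_option autoImplicit false

namespace Pool.Agent.H.MP_711652_nt

open Finset

lemma entB5_avg_const {T q i : ℕ} (hT : 0 < T) (hi : i < T) (f : ℕ → ℝ) :
    avg T f (q * T + i) = avg T f (q * T) := by
  have h0 : avg T f (q * T) = avg T f (q * T + 0) := by rw [add_zero]
  rw [h0, avg_block hi, avg_block hT]

lemma entB5_zero {T q : ℕ} (hT : 0 < T) (f : ℕ → ℝ) (hf : ∀ k, 0 ≤ f k)
    (h : avg T f (q * T) = 0) : ∀ i ∈ range T, f (q * T + i) = 0 := by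
  have h0 : avg T f (q * T) = avg T f (q * T + 0) := by rw [add_zero]
  rw [h0, avg_block hT] at h
  have hT' : (T : ℝ) ≠ 0 := by exact_mod_cast hT.ne'
  have h1 : ∑ i ∈ range T, f (q * T + i) = 0 := by
    rcases div_eq_zero_iff.1 h with h | h
    · exact h
    · exact absurd h hT'
  exact (sum_eq_zero_iff_of_nonneg fun i _ => hf _).1 h1

open Classical in
/-- The local lemma summed over the blocks. PROOF. Split `range (m * T)` into the blocks
`Ico (q * T) (q * T + T)`, `q < m` (`sum_blocks`, for the left side applied to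
`fun n => if ... then f n else 0`). On the block of `q`: `avg T f n = avg T f (q * T)`
(`avg_block`) and `n % T = n - q * T`. If `avg T f (q * T) = 0` then `f = 0` on the block (its sum
is `0` and `f ≥ 0`) and there is nothing to prove; otherwise use `block_atypical` with
`a = q * T`. -/
lemma sum_atypical (f : ℕ → ℝ) (hf : ∀ k, 0 ≤ f k) (L T H R m : ℕ) (ε : ℝ) (hL : 0 < L)
    (hT : 0 < T) (hLT : L ∣ T) (hε : 0 < ε) (hε1 : ε ≤ 1) (h6 : 6 * (L : ℝ) ≤ ε * H) :
    ∑ n ∈ (range (m * T)).filter (fun n => R + L ≤ n % T ∧ n % T + (2 * R + L) < T ∧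
      ¬ (0 < avg T f n ∧ GoodAt f ε (avg T f n) H R n)), f n ≤
      20000 / ε ^ 3 * Hel L T f (m * T) := by
  unfold Hel
  rw [sum_filter, sum_blocks, sum_blocks, mul_sum]
  refine sum_le_sum fun q _ => ?_
  have hrhs : ∑ i ∈ range T, (√(avg L f (q * T + i)) - √(avg T f (q * T + i))) ^ 2 =
      ∑ n ∈ Ico (q * T) (q * T + T), (√(avg L f n) - √(avg T f (q * T))) ^ 2 := by
    rw [sum_Ico_eq_sum_range, Nat.add_sub_cancel_left]
    refine sum_congr rfl fun i hi => ?_
    rw [entB5_avg_const hT (mem_range.1 hi)]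
  have hnn : 0 ≤ 20000 / ε ^ 3 *
      ∑ i ∈ range T, (√(avg L f (q * T + i)) - √(avg T f (q * T + i))) ^ 2 :=
    mul_nonneg (by positivity) (sum_nonneg fun i _ => sq_nonneg _)
  by_cases h0 : avg T f (q * T) = 0
  · have hz := entB5_zero hT f hf h0
    rw [sum_eq_zero]
    · exact hnn
    · intro i hi
      rw [hz i hi, ite_self]
  · have hpos : 0 < avg T f (q * T) := lt_of_le_of_ne (avg_nonneg T f hf _) (Ne.symm h0)
    have hmain := block_atypical f hf L T (q * T) H R ε hL hT hLT (Dvd.intro_left q rfl) hε hε1 h6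
      hpos
    rw [hrhs]
    refine le_trans (le_of_eq ?_) hmain
    rw [sum_filter, sum_Ico_eq_sum_range, Nat.add_sub_cancel_left]
    refine sum_congr rfl fun i hi => ?_
    have hi' := mem_range.1 hi
    have hmod : (q * T + i) % T = i := by
      rw [add_comm, Nat.add_mul_mod_self_right, Nat.mod_eq_of_lt hi']
    have hiff : (R + L ≤ (q * T + i) % T ∧ (q * T + i) % T + (2 * R + L) < T ∧
        ¬ (0 < avg T f (q * T + i) ∧ GoodAt f ε (avg T f (q * T + i)) H R (q * T + i))) ↔
        (q * T + (R + L) ≤ q * T + i ∧ q * T + i + (2 * R + L) < q * T + T ∧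
        ¬ GoodAt f ε (avg T f (q * T)) H R (q * T + i)) := by
      rw [hmod, entB5_avg_const hT hi']
      constructor
      · rintro ⟨h1, h2, h3⟩
        refine ⟨by omega, by omega, fun h4 => h3 ⟨hpos, h4⟩⟩
      · rintro ⟨h1, h2, h3⟩
        refine ⟨by omega, by omega, fun h4 => h3 h4.2⟩
    by_cases hc : (R + L ≤ (q * T + i) % T ∧ (q * T + i) % T + (2 * R + L) < T ∧
        ¬ (0 < avg T f (q * T + i) ∧ GoodAt f ε (avg T f (q * T + i)) H R (q * T + i)))
    · rw [if_pos hc, if_pos (hiff.1 hc)]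
    · rw [if_neg hc, if_neg (fun h => hc (hiff.2 h))]

end Pool.Agent.H.MP_711652_nt
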