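import Mathlib

set_option autoImplicit false

namespace Pool.Agent.H.MP_711652_nt

/-- Failure of the separation from the grid gives a small residue. -/
lemma two_grids_aux (m z T : ℕ) (hT : 0 < T) (h : z ≤ m % T → T ≤ m % T + z) :
    ∃ d : ℤ, -(z : ℤ) ≤ d ∧ d ≤ z ∧ (T : ℤ) ∣ (m : ℤ) - d := by
  have hlt : m % T < T := Nat.mod_lt _ hT
  have hdiv : (m : ℤ) = T * (m / T : ℕ) + (m % T : ℕ) := by
    exact_mod_cast (Nat.div_add_mod m T).symm
  by_cases hz : z ≤ m % T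
  · refine ⟨(m % T : ℕ) - (T : ℤ), ?_, ?_, (m / T : ℕ) + 1, ?_⟩
    · have := h hz
      omega
    · omega
    · rw [hdiv]
      push_cast
      ring
  · refine ⟨(m % T : ℕ), ?_, ?_, (m / T : ℕ), ?_⟩
    · omega
    · omega
    · rw [hdiv]
      push_cast
      ring

/-- **Two grids.** PROOF. Suppose both alternatives fail. Let `r1 = p % T`, `r2 = (p + b A) % T`.
Failure of the first gives `r1 < z` or `T ≤ r1 + z`: an integer `d1` (`r1` or `r1 - T`) with
`|d1| ≤ z` and `T ∣ p - d1`; similarly `d2` with `T ∣ p + b A - d2`. So `T ∣ b A - (d2 - d1)` and,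
as `b ∣ T`, `b ∣ d2 - d1`, say `d2 - d1 = b k`. Then `T ∣ 3 b A - 3 b k = b (3 A + 1) - b (1 + 3 k)`
and `T = b 2^t ∣ b 2^K = b (3 A + 1)`, so `T ∣ b (1 + 3 k)`. But
`|b (1 + 3 k)| ≤ b + 3 |d2 - d1| ≤ b + 6 z < T`, so `b (1 + 3 k) = 0`, `1 + 3 k = 0`, impossible.
Work in `ℤ`. -/
lemma two_grids (b t K A p z T : ℕ) (hb : 0 < b) (hA : 3 * A + 1 = 2 ^ K) (ht : t ≤ K)
    (hT : T = b * 2 ^ t) (hz : 6 * z + b < T) :
    (z ≤ p % T ∧ p % T + z < T) ∨
      (z ≤ (p + b * A) % T ∧ (p + b * A) % T + z < T) := by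
  by_contra hcon
  rw [not_or] at hcon
  have hT0 : 0 < T := by omega
  obtain ⟨d1, h1, h1', h1d⟩ := two_grids_aux p z T hT0 (fun h => by
    by_contra hc
    exact hcon.1 ⟨h, by omega⟩)
  obtain ⟨d2, h2, h2', h2d⟩ := two_grids_aux (p + b * A) z T hT0 (fun h => by
    by_contra hc
    exact hcon.2 ⟨h, by omega⟩)
  have h3 : (T : ℤ) ∣ b * A - (d2 - d1) := by
    have := dvd_sub h2d h1d
    push_cast at this
    have e : (p : ℤ) + b * A - d2 - (p - d1) = b * A - (d2 - d1) := by ring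
    rwa [e] at this
  have hbT : (b : ℤ) ∣ T := by
    rw [hT]
    push_cast
    exact dvd_mul_right _ _
  obtain ⟨k, hk⟩ : (b : ℤ) ∣ d2 - d1 := by
    have h4 := dvd_sub (dvd_mul_right (b : ℤ) (A : ℤ)) (hbT.trans h3)
    have e : (b : ℤ) * A - (b * A - (d2 - d1)) = d2 - d1 := by ring
    rwa [e] at h4
  have h5 : (T : ℤ) ∣ b * 2 ^ K := by
    rw [hT]
    push_cast
    exact mul_dvd_mul_left _ (pow_dvd_pow _ ht)
  have hA' : (2 : ℤ) ^ K = 3 * A + 1 := by exact_mod_cast hA.symm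
  have h6 : (T : ℤ) ∣ b * (1 + 3 * k) := by
    have h7 := dvd_sub h5 (h3.mul_left 3)
    have e : (b : ℤ) * 2 ^ K - 3 * (b * A - (d2 - d1)) = b * (1 + 3 * k) := by
      rw [hk, hA']
      ring
    rwa [e] at h7
  have hz' : 6 * (z : ℤ) + b < T := by exact_mod_cast hz
  have h8 : (b : ℤ) * (1 + 3 * k) = 0 := by
    apply Int.eq_zero_of_abs_lt_dvd h6
    have e : (b : ℤ) * (1 + 3 * k) = b + 3 * (d2 - d1) := by
      rw [hk]
      ring
    rw [e, abs_lt]
    have hb0 : (0 : ℤ) < b := by exact_mod_cast hb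
    constructor <;> linarith
  rcases mul_eq_zero.1 h8 with h | h
  · have : b = 0 := by exact_mod_cast h
    omega
  · omega

end Pool.Agent.H.MP_711652_nt
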