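import Mathlib
import Pool.Agent.H.MP_711652_nt.EntB5
import Pool.Agent.H.MP_711652_nt.EntC1

set_option autoImplicit false

namespace Pool.Agent.H.MP_711652_nt

open Finset

/-- PROOF. Bijection `q ↦ q + a` from the primes in `Ioc y (y + h)` to the points of
`Ioc (y + a) (y + a + h)` at which `ps a` is `1`. -/
lemma csum_ps (a y h : ℕ) : csum (ps a) (y + a) h = (cnt y h : ℝ) := by
  unfold csum cnt
  rw [card_filter]
  push_cast
  symm
  apply sum_bij (fun q _ => q + a)
  · intro q hq
    rw [mem_Ioc] at hq ⊢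
    omega
  · intro q _ q' _ h
    omega
  · intro n hn
    rw [mem_Ioc] at hn
    exact ⟨n - a, by rw [mem_Ioc]; omega, by omega⟩
  · intro q _
    unfold ps
    have h1 : a ≤ q + a := by omega
    have h2 : q + a - a = q := by omega
    simp only [h1, h2, true_and]

lemma entC2_ps_nonneg (a n : ℕ) : 0 ≤ ps a n := by
  unfold ps
  split_ifs <;> norm_num

/-- Goodness of the shifted primes at `p + a` gives typicality of `p`. PROOF. Take
`μ = avg T (ps a) (p + a)`. The map `y ↦ y + a` sends the filtered set in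
`Icc (p - r) (p + r)` injectively into the filtered set in `Icc (p + a - r) (p + a + r)`
(`csum_ps`). -/
lemma typical_of_good (a p H R T : ℕ) (ε : ℝ)
    (h : 0 < avg T (ps a) (p + a) ∧ GoodAt (ps a) ε (avg T (ps a) (p + a)) H R (p + a)) :
    TypicalS ε H R p := by
  classical
  obtain ⟨h1, h2⟩ := h
  refine ⟨_, h1, fun r hr hR => ?_⟩
  refine le_trans ?_ (h2 r hr hR)
  rw [Nat.cast_le]
  apply card_le_card_of_injOn (fun y => y + a)
  · intro y hy
    rw [Finset.mem_coe, mem_filter, mem_Icc] at hy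
    rw [Finset.mem_coe, mem_filter, mem_Icc]
    obtain ⟨⟨hy1, hy2⟩, k, hk1, hk2, hk3⟩ := hy
    refine ⟨⟨?_, ?_⟩, k, hk1, hk2, ?_⟩
    · show p + a - r ≤ y + a
      omega
    · show y + a ≤ p + a + r
      omega
    · show _ < |csum (ps a) (y + a) k - _|
      rw [csum_ps]
      exact hk3
  · intro y _ y' _ hyy
    simp only at hyy
    omega

open Classical in
/-- Number of atypical primes. PROOF. Let `z = 2 R + L`. By `two_grids` every prime `p ≤ X` has
`z ≤ n % T ∧ n % T + z < T` for `n = p` or `n = p + b A`. If `p` is not typical then by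
`typical_of_good` (with `a = 0` resp. `a = b A`) this `n` is in the set of `sum_atypical` for
`f = ps 0` resp. `f = ps (b A)` (`n < M` as `X + b A < M`), where `f n = 1`. So the number of
atypical primes is at most the sum of the two left sides of `sum_atypical`. `M = m T`. -/
lemma card_atypical (b t K A X M H R L T : ℕ) (ε : ℝ) (hb : 0 < b) (hA : 3 * A + 1 = 2 ^ K)
    (ht : t ≤ K) (hT : T = b * 2 ^ t) (hTM : T ∣ M) (hXM : X + b * A < M)
    (hL : 0 < L) (hLT : L ∣ T) (hε : 0 < ε) (hε1 : ε ≤ 1)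
    (h6 : 6 * (L : ℝ) ≤ ε * H) (hz : 6 * (2 * R + L) + b < T) :
    (((Icc 1 X).filter (fun p => p.Prime ∧ ¬ TypicalS ε H R p)).card : ℝ) ≤
      20000 / ε ^ 3 * (Hel L T (ps 0) M + Hel L T (ps (b * A)) M) := by
  have hTpos : 0 < T := by
    rw [hT]
    exact Nat.mul_pos hb (by positivity)
  obtain ⟨m, hm⟩ := hTM
  rw [mul_comm] at hm
  subst hm
  set S := (Icc 1 X).filter (fun p => p.Prime ∧ ¬ TypicalS ε H R p) with hS
  have h0 := sum_atypical (ps 0) (entC2_ps_nonneg 0) L T H R m ε hL hTpos hLT hε hε1 h6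
  have h1 := sum_atypical (ps (b * A)) (entC2_ps_nonneg (b * A)) L T H R m ε hL hTpos hLT hε hε1 h6
  set B0 := (range (m * T)).filter (fun n => R + L ≤ n % T ∧ n % T + (2 * R + L) < T ∧
      ¬ (0 < avg T (ps 0) n ∧ GoodAt (ps 0) ε (avg T (ps 0) n) H R n)) with hB0
  set B1 := (range (m * T)).filter (fun n => R + L ≤ n % T ∧ n % T + (2 * R + L) < T ∧
      ¬ (0 < avg T (ps (b * A)) n ∧
        GoodAt (ps (b * A)) ε (avg T (ps (b * A)) n) H R n)) with hB1
  have hcover : S ⊆ S.filter (fun p => p ∈ B0) ∪ S.filter (fun p => p + b * A ∈ B1) := by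
    intro p hp
    have hp' := hp
    rw [hS, mem_filter, mem_Icc] at hp
    obtain ⟨⟨hp1, hpX⟩, hpr, hnt⟩ := hp
    rcases two_grids b t K A p (2 * R + L) T hb hA ht hT hz with ⟨g1, g2⟩ | ⟨g1, g2⟩
    · refine mem_union_left _ (mem_filter.mpr ⟨hp', ?_⟩)
      rw [hB0, mem_filter, mem_range]
      refine ⟨by omega, by omega, g2, ?_⟩
      intro hgood
      apply hnt
      apply typical_of_good 0 p H R T ε
      rw [add_zero]
      exact hgood
    · refine mem_union_right _ (mem_filter.mpr ⟨hp', ?_⟩)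
      rw [hB1, mem_filter, mem_range]
      refine ⟨by omega, by omega, g2, ?_⟩
      intro hgood
      apply hnt
      exact typical_of_good (b * A) p H R T ε hgood
  have hpsp : ∀ p ∈ S, ∀ a, ps a (p + a) = 1 := by
    intro p hp a
    rw [hS, mem_filter] at hp
    unfold ps
    have h2 : p + a - a = p := by omega
    rw [h2, if_pos ⟨by omega, hp.2.1⟩]
  have hc0 : ((S.filter (fun p => p ∈ B0)).card : ℝ) ≤ ∑ n ∈ B0, ps 0 n := by
    have e1 : ((S.filter (fun p => p ∈ B0)).card : ℝ) =
        ∑ n ∈ S.filter (fun p => p ∈ B0), ps 0 n := by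
      rw [card_eq_sum_ones]
      push_cast
      apply sum_congr rfl
      intro p hp
      rw [mem_filter] at hp
      exact (hpsp p hp.1 0).symm
    rw [e1]
    apply sum_le_sum_of_subset_of_nonneg
    · intro p hp
      rw [mem_filter] at hp
      exact hp.2
    · intro p _ _
      exact entC2_ps_nonneg 0 p
  have hc1 : ((S.filter (fun p => p + b * A ∈ B1)).card : ℝ) ≤ ∑ n ∈ B1, ps (b * A) n := by
    have e1 : ((S.filter (fun p => p + b * A ∈ B1)).card : ℝ) =
        ∑ n ∈ (S.filter (fun p => p + b * A ∈ B1)).image (fun p => p + b * A), ps (b * A) n := by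
      rw [sum_image (by intro p _ q _ h; simp only at h; omega), card_eq_sum_ones]
      push_cast
      apply sum_congr rfl
      intro p hp
      rw [mem_filter] at hp
      exact (hpsp p hp.1 (b * A)).symm
    rw [e1]
    apply sum_le_sum_of_subset_of_nonneg
    · intro n hn
      rw [mem_image] at hn
      obtain ⟨p, hp, rfl⟩ := hn
      rw [mem_filter] at hp
      exact hp.2
    · intro p _ _
      exact entC2_ps_nonneg _ p
  have hcard : (S.card : ℝ) ≤ ((S.filter (fun p => p ∈ B0)).card : ℝ) +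
      ((S.filter (fun p => p + b * A ∈ B1)).card : ℝ) := by
    exact_mod_cast (card_le_card hcover).trans (card_union_le _ _)
  calc (S.card : ℝ) ≤ _ := hcard
    _ ≤ ∑ n ∈ B0, ps 0 n + ∑ n ∈ B1, ps (b * A) n := add_le_add hc0 hc1
    _ ≤ 20000 / ε ^ 3 * Hel L T (ps 0) (m * T) +
        20000 / ε ^ 3 * Hel L T (ps (b * A)) (m * T) := add_le_add h0 h1
    _ = 20000 / ε ^ 3 * (Hel L T (ps 0) (m * T) + Hel L T (ps (b * A)) (m * T)) := by ring

end Pool.Agent.H.MP_711652_nt
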