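import Mathlib
import Pool.Agent.H.MP_711652_nt.EntDefs

set_option autoImplicit false

namespace Pool.Agent.H.MP_711652_nt

open Finset

/-- The block sum of the shifted primes, shifted part. -/
lemma entD1_block (b A j : ℕ) (hb : 0 < b) :
    ∑ i ∈ range b, ps (b * A) ((A + j) * b + i) = (Fb b j : ℝ) := by
  have h1 : ∀ i ∈ range b, ps (b * A) ((A + j) * b + i) =
      if (j * b + i).Prime then (1 : ℝ) else 0 := by
    intro i _
    unfold ps
    have e1 : (A + j) * b + i = b * A + (j * b + i) := by ring
    rw [e1, Nat.add_sub_cancel_left]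
    simp
  rw [sum_congr rfl h1, sum_boole]
  congr 1
  unfold Fb
  apply card_nbij (fun i => j * b + i)
  · intro i hi
    simp only [coe_filter, mem_range, Set.mem_ofPred_eq] at hi ⊢
    refine ⟨?_, hi.2, div_block hi.1⟩
    have : (j + 1) * b = j * b + b := by ring
    omega
  · intro x _ y _ hxy
    simpa using hxy
  · intro p hp
    simp only [coe_filter, mem_range, Set.mem_ofPred_eq] at hp
    obtain ⟨_, h3, h4⟩ := hp
    have h5 := Nat.div_add_mod p b
    have h6 := Nat.mod_lt p hb
    rw [h4, mul_comm] at h5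
    refine ⟨p % b, ?_, h5⟩
    simp only [coe_filter, mem_range, Set.mem_ofPred_eq]
    exact ⟨h6, by rw [h5]; exact h3⟩

/-- The block sum of the shifted primes vanishes before the shift. -/
lemma entD1_block_zero (b A k : ℕ) (hk : k < A) :
    ∑ i ∈ range b, ps (b * A) (k * b + i) = 0 := by
  apply sum_eq_zero
  intro i hi
  rw [mem_range] at hi
  unfold ps
  rw [if_neg]
  rintro ⟨h1, _⟩
  have h2 : b * (k + 1) ≤ b * A := Nat.mul_le_mul_left b hk
  have h3 : b * (k + 1) = k * b + b := by ring
  omega

/-- Second moment of the block averages of the shifted primes. -/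
lemma sum_avg_ps (b A N : ℕ) (hb : 0 < b) :
    ∑ n ∈ range (N * b), (avg b (ps (b * A)) n) ^ 2 ≤
      (∑ k ∈ range N, ((Fb b k : ℕ) : ℝ) ^ 2) / b := by
  have hb' : (0 : ℝ) < b := by exact_mod_cast hb
  rw [sum_blocks]
  have h1 : ∀ q ∈ range N, ∑ i ∈ range b, (avg b (ps (b * A)) (q * b + i)) ^ 2 =
      (∑ i ∈ range b, ps (b * A) (q * b + i)) ^ 2 / b := by
    intro q _
    have h2 : ∀ i ∈ range b, (avg b (ps (b * A)) (q * b + i)) ^ 2 =
        ((∑ i ∈ range b, ps (b * A) (q * b + i)) / b) ^ 2 := by
      intro i hi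
      rw [mem_range] at hi
      rw [avg_block hi]
    rw [sum_congr rfl h2, sum_const, card_range, nsmul_eq_mul]
    field_simp
  rw [sum_congr rfl h1, ← sum_div]
  apply div_le_div_of_nonneg_right _ hb'.le
  rcases le_total A N with hAN | hAN
  · obtain ⟨m, rfl⟩ := Nat.exists_eq_add_of_le hAN
    rw [sum_range_add]
    have h3 : ∑ q ∈ range A, (∑ i ∈ range b, ps (b * A) (q * b + i)) ^ 2 = 0 := by
      apply sum_eq_zero
      intro q hq
      rw [mem_range] at hq
      rw [entD1_block_zero b A q hq]
      norm_num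
    have h4 : ∀ x ∈ range m, (∑ i ∈ range b, ps (b * A) ((A + x) * b + i)) ^ 2 =
        ((Fb b x : ℕ) : ℝ) ^ 2 := by
      intro x _
      rw [entD1_block b A x hb]
    rw [h3, zero_add, sum_congr rfl h4]
    apply sum_le_sum_of_subset_of_nonneg
    · intro x hx
      rw [mem_range] at hx ⊢
      omega
    · intro i _ _
      positivity
  · have h3 : ∑ q ∈ range N, (∑ i ∈ range b, ps (b * A) (q * b + i)) ^ 2 = 0 := by
      apply sum_eq_zero
      intro q hq
      rw [mem_range] at hq
      rw [entD1_block_zero b A q (by omega)]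
      norm_num
    rw [h3]
    exact sum_nonneg fun i _ => by positivity

/-- The sum of the shifted prime indicator is a prime counting function. -/
lemma sum_ps (a M : ℕ) (haM : a < M) :
    ∑ n ∈ range M, ps a n = Nat.primeCounting (M - a - 1) := by
  obtain ⟨m, rfl⟩ : ∃ m, M = a + (m + 1) := ⟨M - a - 1, by omega⟩
  have e1 : a + (m + 1) - a - 1 = m := by omega
  rw [e1, sum_range_add]
  have h3 : ∑ q ∈ range a, ps a q = 0 := by
    apply sum_eq_zero
    intro q hq
    rw [mem_range] at hq
    unfold ps
    rw [if_neg]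
    rintro ⟨h1, _⟩
    omega
  have h4 : ∀ x ∈ range (m + 1), ps a (a + x) = if x.Prime then (1 : ℝ) else 0 := by
    intro x _
    unfold ps
    rw [Nat.add_sub_cancel_left]
    simp
  rw [h3, zero_add, sum_congr rfl h4, sum_boole, primes_range_card]

end Pool.Agent.H.MP_711652_nt
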