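import Mathlib
import Pool.Agent.H.MP_711652_nt.EntA2
import Pool.Agent.H.MP_711652_nt.EntD1

set_option autoImplicit false

namespace Pool.Agent.H.MP_711652_nt

open Finset

lemma entD2_ps_nonneg (a n : ℕ) : 0 ≤ ps a n := by
  unfold ps; split_ifs <;> norm_num

/-- Choice of the even exponent. -/
lemma entD2_choose (b X : ℕ) (hb : 0 < b) (hbX : b ≤ X) :
    ∃ K A : ℕ, 3 * A + 1 = 2 ^ K ∧ 4 * X ≤ b * 2 ^ K ∧ b * 2 ^ K < 16 * X := by
  have hex : ∃ j : ℕ, 4 * X ≤ b * 4 ^ j := by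
    refine ⟨4 * X, ?_⟩
    have h1 : 4 * X < 4 ^ (4 * X) := Nat.lt_pow_self (by norm_num)
    have h2 : 1 * 4 ^ (4 * X) ≤ b * 4 ^ (4 * X) := Nat.mul_le_mul_right _ hb
    omega
  classical
  set j := Nat.find hex with hj
  have h1 : 4 * X ≤ b * 4 ^ j := Nat.find_spec hex
  have hj0 : j ≠ 0 := by
    intro h0
    rw [h0] at h1
    simp at h1
    omega
  obtain ⟨i, hi⟩ := Nat.exists_eq_succ_of_ne_zero hj0
  have h2 : ¬ 4 * X ≤ b * 4 ^ i := Nat.find_min hex (by omega)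
  have h3 : b * 4 ^ j = 4 * (b * 4 ^ i) := by
    rw [hi, Nat.succ_eq_add_one, pow_succ]; ring
  have h4 : ∀ j : ℕ, ∃ A : ℕ, 3 * A + 1 = 4 ^ j := by
    intro j
    induction j with
    | zero => exact ⟨0, by norm_num⟩
    | succ n ih =>
      obtain ⟨A, hA⟩ := ih
      exact ⟨4 * A + 1, by rw [pow_succ, ← hA]; ring⟩
  obtain ⟨A, hA⟩ := h4 j
  have h5 : (2 : ℕ) ^ (2 * j) = 4 ^ j := by rw [pow_mul]; norm_num
  refine ⟨2 * j, A, by rw [h5, hA], by rw [h5]; exact h1, ?_⟩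
  rw [h5, h3]
  omega

/-- The bound for one shift. -/
lemma entD2_one (c C : ℝ) (hc : 0 < c) (hC : 0 < C) (X b K a A' : ℕ) (hb : 0 < b) (hX : 0 < X)
    (ha : a = b * A') (haM : X + a < b * 2 ^ K) (hM : b * 2 ^ K < 16 * X)
    (hpi : c * X / b ≤ (Nat.primeCounting X : ℝ))
    (hpi16 : (Nat.primeCounting (16 * X) : ℝ) ≤ C * (16 * X) / b)
    (hsq : ∑ k ∈ range (2 ^ K), ((Fb b k : ℕ) : ℝ) ^ 2 ≤ C * (8 * X) / b) :
    Ent b (ps a) (b * 2 ^ K) - Ent (b * 2 ^ K) (ps a) (b * 2 ^ K) ≤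
      16 * C / c * Real.log (128 * C / c ^ 2 + 1) * Nat.primeCounting X := by
  have hb0 : (0 : ℝ) < b := by exact_mod_cast hb
  have hX0 : (0 : ℝ) < X := by exact_mod_cast hX
  set M := b * 2 ^ K with hMdef
  have hM0 : 0 < M := by positivity
  have hMR : (M : ℝ) ≤ 16 * X := by exact_mod_cast hM.le
  have hM0R : (0 : ℝ) < M := by exact_mod_cast hM0
  have hS1 : ∑ n ∈ range M, ps a n = Nat.primeCounting (M - a - 1) := sum_ps a M (by omega)
  have hSlow : (Nat.primeCounting X : ℝ) ≤ ∑ n ∈ range M, ps a n := by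
    rw [hS1]
    exact_mod_cast Nat.monotone_primeCounting (by omega)
  have hSup : ∑ n ∈ range M, ps a n ≤ Nat.primeCounting (16 * X) := by
    rw [hS1]
    exact_mod_cast Nat.monotone_primeCounting (by omega)
  have hpi0 : 0 < c * X / b := by positivity
  set S := ∑ n ∈ range M, ps a n with hS
  have hS0 : 0 < S := by linarith
  have hQ : ∑ n ∈ range M, (avg b (ps a) n) ^ 2 ≤ C * (8 * X) / b / b := by
    have h1 := sum_avg_ps b A' (2 ^ K) hb
    rw [← ha, mul_comm (2 ^ K) b] at h1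
    refine h1.trans ?_
    gcongr
  set Q := ∑ n ∈ range M, (avg b (ps a) n) ^ 2 with hQdef
  have hQ0 : 0 ≤ Q := sum_nonneg fun _ _ => sq_nonneg _
  have h1 := ent_sub_le M b hM0 hb (Dvd.intro _ rfl) (ps a) (entD2_ps_nonneg a) hS0
  rw [← hS, ← hQdef] at h1
  have hratio : M * Q / S ^ 2 ≤ 128 * C / c ^ 2 := by
    have hSc : c * X / b ≤ S := by linarith
    have h2 : (c * X / b) ^ 2 ≤ S ^ 2 := by gcongr
    have h3 : (M : ℝ) * Q ≤ 16 * X * (C * (8 * X) / b / b) := by gcongr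
    rw [div_le_div_iff₀ (by positivity) (by positivity)]
    have h4 : 128 * C * (c * X / b) ^ 2 ≤ 128 * C * S ^ 2 := by gcongr
    have h5 : M * Q * c ^ 2 ≤ 16 * X * (C * (8 * X) / b / b) * c ^ 2 := by gcongr
    have h6 : 16 * X * (C * (8 * X) / b / b) * c ^ 2 = 128 * C * (c * X / b) ^ 2 := by
      field_simp; ring
    linarith
  have hL0 : 0 ≤ Real.log (128 * C / c ^ 2 + 1) := Real.log_nonneg (by
    have : 0 < 128 * C / c ^ 2 := by positivity
    linarith)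
  have hlog : Real.log (M * Q / S ^ 2) ≤ Real.log (128 * C / c ^ 2 + 1) := by
    have h0 : 0 ≤ (M : ℝ) * Q / S ^ 2 := by positivity
    rcases h0.eq_or_lt with h | h
    · rw [← h, Real.log_zero]; exact hL0
    · exact Real.log_le_log h (by linarith)
  have hSC : S ≤ 16 * C / c * Nat.primeCounting X := by
    have h2 : S ≤ C * (16 * X) / b := hSup.trans hpi16
    have h3 : C * (16 * X) / b = 16 * C / c * (c * X / b) := by field_simp
    have h4 : 16 * C / c * (c * X / b) ≤ 16 * C / c * Nat.primeCounting X := by gcongr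
    linarith
  calc Ent b (ps a) M - Ent M (ps a) M ≤ S * Real.log (M * Q / S ^ 2) := h1
    _ ≤ S * Real.log (128 * C / c ^ 2 + 1) := by gcongr
    _ ≤ (16 * C / c * Nat.primeCounting X) * Real.log (128 * C / c ^ 2 + 1) := by gcongr
    _ = _ := by ring

/-- Entropy of the shifted primes. PROOF. Take `c, C` and `X₀` from `basic_estimates` and use it
at `X`, at `8 X` and at `16 X` (`X ≥ X₀`). Let `b = ⌈log (8 X)⌉`, `b1 = ⌈log X⌉ ≤ b`,
`b2 = ⌈log (16 X)⌉ ≥ b`. Since `b ^ 4 ≤ 8 X` and `b ≥ 2`, `b ≤ 4 X`, and there is an even `K` with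
`4 X ≤ b 2^K < 16 X` (smallest even `K` with `4 X ≤ b 2^K`; `K = 0` is impossible unless
`b ≥ 4 X`, excluded; or take it with `b ≤ 4 X`), and `A` with `3 A + 1 = 2^K`. `M = b 2^K`. For
`a = 0` or `a = b A`: `a ≤ M / 3`, so `M - a - 1 ≥ 8 X / 3 - 1 ≥ X` and
`S = ∑_{n<M} ps a n = π (M - a - 1)` satisfies `π X ≤ S ≤ π (16 X) ≤ C 16 X / b2 ≤ 16 C X / b ≤
(16 C / c) π X`, using `π X ≥ c X / b1 ≥ c X / b`. `Q = ∑ (avg b)² ≤ (1 / b) (C 8 X / b)`
(`sum_avg_ps`, `basic_estimates` at `8 X` as `M ≤ 16 X`; `ps 0 = ps (b * 0)`). So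
`M Q / S² ≤ 16 X * 8 C X / b² * (b / (c X))² = 128 C / c²`, and it is positive, hence by
`ent_sub_le`: `Ent b - Ent M ≤ S log (128 C / c² + 1) ≤ C' π X`. -/
theorem total_entropy : ∃ C : ℝ, 0 < C ∧ ∃ X₀ : ℕ, ∀ X : ℕ, X₀ ≤ X → ∃ b K A : ℕ,
    2 ≤ b ∧ (b : ℝ) ≤ C * Real.log X ∧ 3 * A + 1 = 2 ^ K ∧ 4 * X ≤ b * 2 ^ K ∧
    X + b * A < b * 2 ^ K ∧
    Ent b (ps 0) (b * 2 ^ K) - Ent (b * 2 ^ K) (ps 0) (b * 2 ^ K) ≤ C * Nat.primeCounting X ∧
    Ent b (ps (b * A)) (b * 2 ^ K) - Ent (b * 2 ^ K) (ps (b * A)) (b * 2 ^ K) ≤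
      C * Nat.primeCounting X := by
  obtain ⟨c, C, hc, hC, X₀, hX₀⟩ := basic_estimates
  set D := 16 * C / c * Real.log (128 * C / c ^ 2 + 1) with hD
  have hL0 : 0 ≤ Real.log (128 * C / c ^ 2 + 1) := Real.log_nonneg (by
    have : 0 < 128 * C / c ^ 2 := by positivity
    linarith)
  have hD0 : 0 ≤ D := by positivity
  refine ⟨5 + D, by positivity, X₀ + 3, ?_⟩
  intro X hX
  have hXpos : 0 < X := by omega
  have hX0 : (0 : ℝ) < X := by exact_mod_cast hXpos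
  obtain ⟨-, -, hpi1, -, -⟩ := hX₀ X (by omega)
  obtain ⟨hb2, hb4, -, -, hsq⟩ := hX₀ (8 * X) (by omega)
  obtain ⟨-, -, -, hpi16, -⟩ := hX₀ (16 * X) (by omega)
  set b := ⌈Real.log ((8 * X : ℕ) : ℝ)⌉₊ with hb
  set b1 := ⌈Real.log (X : ℝ)⌉₊ with hb1
  set b2 := ⌈Real.log ((16 * X : ℕ) : ℝ)⌉₊ with hb2'
  have hbb1 : b1 ≤ b := by
    apply Nat.ceil_mono
    apply Real.log_le_log hX0
    push_cast; linarith
  have hbb2 : b ≤ b2 := by
    apply Nat.ceil_mono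
    apply Real.log_le_log (by push_cast; positivity)
    push_cast; linarith
  have hb0 : 0 < b := by omega
  have hb0R : (0 : ℝ) < b := by exact_mod_cast hb0
  have hbX : b ≤ X := by
    have h1 : 8 * b ≤ b ^ 4 := by
      calc 8 * b ≤ b ^ 3 * b := by
            apply Nat.mul_le_mul_right
            calc 8 = 2 ^ 3 := by norm_num
              _ ≤ b ^ 3 := Nat.pow_le_pow_left hb2 3
        _ = b ^ 4 := by ring
    omega
  have hb1pos : 0 < b1 := by
    rw [hb1, Nat.ceil_pos]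
    apply Real.log_pos
    exact_mod_cast (by omega : 1 < X)
  have hb1R : (0 : ℝ) < b1 := by exact_mod_cast hb1pos
  obtain ⟨K, A, hA, hK1, hK2⟩ := entD2_choose b X hb0 hbX
  have hXA : X + b * A < b * 2 ^ K := by
    have h1 : 3 * (b * A) + b = b * 2 ^ K := by rw [← hA]; ring
    omega
  have hlogX : 1 ≤ Real.log X := by
    rw [← Real.log_exp 1]
    apply Real.log_le_log (Real.exp_pos _)
    have h1 := Real.exp_one_lt_d9
    have h2 : (3 : ℝ) ≤ X := by exact_mod_cast (by omega : 3 ≤ X)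
    linarith
  have hbC : (b : ℝ) ≤ (5 + D) * Real.log X := by
    have h1 : (b : ℝ) < Real.log ((8 * X : ℕ) : ℝ) + 1 := by
      apply Nat.ceil_lt_add_one
      apply Real.log_nonneg
      exact_mod_cast (by omega : 1 ≤ 8 * X)
    have h2 : Real.log ((8 * X : ℕ) : ℝ) = 3 * Real.log 2 + Real.log X := by
      push_cast
      rw [Real.log_mul (by norm_num) hX0.ne', show (8 : ℝ) = 2 ^ 3 by norm_num, Real.log_pow]
      norm_num
    have h3 := Real.log_two_lt_d9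
    have h4 : 0 ≤ D * Real.log X := by positivity
    nlinarith
  have hpiX : c * X / b ≤ (Nat.primeCounting X : ℝ) := by
    refine le_trans ?_ hpi1
    have : (b1 : ℝ) ≤ b := by exact_mod_cast hbb1
    gcongr
  have hpi16' : (Nat.primeCounting (16 * X) : ℝ) ≤ C * (16 * X) / b := by
    refine hpi16.trans ?_
    push_cast
    have : (b : ℝ) ≤ b2 := by exact_mod_cast hbb2
    gcongr
  have hsq' : ∑ k ∈ range (2 ^ K), ((Fb b k : ℕ) : ℝ) ^ 2 ≤ C * (8 * X) / b := by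
    have h1 := hsq (2 ^ K) (by rw [mul_comm]; omega)
    push_cast at h1 ⊢
    exact h1
  refine ⟨b, K, A, hb2, hbC, hA, hK1, hXA, ?_, ?_⟩
  · have h1 := entD2_one c C hc hC X b K 0 0 hb0 hXpos (by simp) (by omega) hK2 hpiX hpi16' hsq'
    refine h1.trans ?_
    rw [← hD]
    have : (0 : ℝ) ≤ Nat.primeCounting X := Nat.cast_nonneg _
    nlinarith
  · have h1 := entD2_one c C hc hC X b K (b * A) A hb0 hXpos rfl hXA hK2 hpiX hpi16' hsq'
    refine h1.trans ?_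
    rw [← hD]
    have : (0 : ℝ) ≤ Nat.primeCounting X := Nat.cast_nonneg _
    nlinarith

end Pool.Agent.H.MP_711652_nt
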