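import Mathlib
import Pool.Agent.H.MP_711652_nt.Chain
import Pool.Agent.H.MP_711652_nt.EntC2
import Pool.Agent.H.MP_711652_nt.EntD2

set_option autoImplicit false

namespace Pool.Agent.H.MP_711652_nt

open Finset

open Classical in
/-- **Entropy packing.** PROOF. Let `C₀` be the constant of `total_entropy`, `C` large (e.g.
`C = 400 + 6 C₀ + 40000 C₀`), `M = b 2^K`. For `i < J` choose `l i` with
`6 b 2^(l i) ≤ ε (H i) < 12 b 2^(l i)` (`dyadic_near` for `ε H i / (6 b) ≥ 1`, true as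
`ε H i ≥ C log X ≥ 6 b`), and `t i` with `b 2^(t i) ≤ 28 (R i) < 2 b 2^(t i)` (`dyadic_near` for
`28 R i / b ≥ 1`). `L i = b 2^(l i)`, `T i = b 2^(t i) > 14 R i`. As `6 L i ≤ H i ≤ R i`, `b ≤ L i`:
`6 (2 R i + L i) + b ≤ 12 R i + R i + R i / 6 < 14 R i < T i`. `L i ∣ T i` since `L i < T i` gives
`l i ≤ t i`. `T i ≤ 28 R i ≤ C R i / 12 ≤ ε H (i+1) / 12 < L (i+1)`, so `T i ∣ L (i+1)`.
`T i ≤ 28 R i ≤ X < M`, so `t i ≤ K` and `T i ∣ M`. Now sum `card_atypical` over `i` and use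
`hel_chain` twice with `total_entropy`: total `≤ 20000 / ε³ * 2 C₀ π X`. -/
theorem entropy_packing : ∃ C : ℝ, 1 ≤ C ∧ ∃ X₀ : ℕ, ∀ X : ℕ, X₀ ≤ X → ∀ ε : ℝ, 0 < ε → ε ≤ 1 →
    ∀ (J : ℕ) (H R : ℕ → ℕ),
    (∀ i, i < J → C * Real.log X ≤ ε * H i) →
    (∀ i, i < J → H i ≤ R i) →
    (∀ i, i + 1 < J → C * R i ≤ ε * H (i + 1)) →
    (∀ i, i < J → C * R i ≤ X) →
    ∑ i ∈ range J, (((Icc 1 X).filter (fun p => p.Prime ∧ ¬ TypicalS ε (H i) (R i) p)).card : ℝ) ≤
      C / ε ^ 3 * Nat.primeCounting X := by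
  obtain ⟨C₀, hC₀, X₀, hX₀⟩ := total_entropy
  refine ⟨400 + 6 * C₀ + 40000 * C₀, by linarith, max X₀ 2, ?_⟩
  intro X hX ε hε hε1 J H R hH hHR hRH hRX
  set C : ℝ := 400 + 6 * C₀ + 40000 * C₀ with hC
  obtain ⟨b, K, A, hb2, hbC, hA, h4X, hXA, hE1, hE2⟩ := hX₀ X (le_trans (le_max_left _ _) hX)
  have hX2 : 2 ≤ X := le_trans (le_max_right _ _) hX
  have hb0 : 0 < b := by omega
  have hbr : (0 : ℝ) < b := by exact_mod_cast hb0
  set L := Real.log X with hL
  have hLpos : 0 < L := Real.log_pos (by exact_mod_cast (by omega : 1 < X))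
  have hXr : (0 : ℝ) < X := by exact_mod_cast (by omega : 0 < X)
  set M := b * 2 ^ K with hM
  have hM0 : 0 < M := by positivity
  have hH6 : ∀ i, i < J → 6 * (b : ℝ) ≤ ε * H i := by
    intro i hi
    have h1 := hH i hi
    have h2 : 6 * C₀ * L ≤ C * L := by
      apply mul_le_mul_of_nonneg_right _ hLpos.le
      rw [hC]; linarith
    linarith
  have hεH : ∀ i, ε * (H i : ℝ) ≤ H i := by
    intro i
    have h2 : ε * (H i : ℝ) ≤ 1 * H i := by gcongr
    linarith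
  have hHRr : ∀ i, i < J → (H i : ℝ) ≤ R i := fun i hi => by exact_mod_cast hHR i hi
  have hexl : ∀ i, ∃ n : ℕ, i < J →
      (2 : ℝ) ^ n ≤ ε * H i / (6 * b) ∧ ε * H i / (6 * b) < 2 * 2 ^ n := by
    intro i
    by_cases hi : i < J
    · have h1 : 1 ≤ ε * H i / (6 * b) := by
        rw [le_div_iff₀ (by positivity), one_mul]
        exact hH6 i hi
      obtain ⟨n, hn⟩ := dyadic_near _ h1
      exact ⟨n, fun _ => hn⟩
    · exact ⟨0, fun h => absurd h hi⟩
  have hext : ∀ i, ∃ n : ℕ, i < J →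
      (2 : ℝ) ^ n ≤ 28 * (R i : ℝ) / b ∧ 28 * (R i : ℝ) / b < 2 * 2 ^ n := by
    intro i
    by_cases hi : i < J
    · have h1 : 1 ≤ 28 * (R i : ℝ) / b := by
        rw [le_div_iff₀ (by positivity), one_mul]
        have h2 := hH6 i hi
        have h3 := hεH i
        have h4 := hHRr i hi
        linarith
      obtain ⟨n, hn⟩ := dyadic_near _ h1
      exact ⟨n, fun _ => hn⟩
    · exact ⟨0, fun h => absurd h hi⟩
  choose l hl using hexl
  choose t ht using hext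
  have hl1 : ∀ i, i < J → 6 * ((b : ℝ) * 2 ^ l i) ≤ ε * H i := by
    intro i hi
    have h1 := (hl i hi).1
    rw [le_div_iff₀ (by positivity)] at h1
    linarith
  have hl2 : ∀ i, i < J → ε * H i < 12 * ((b : ℝ) * 2 ^ l i) := by
    intro i hi
    have h1 := (hl i hi).2
    rw [div_lt_iff₀ (by positivity)] at h1
    linarith
  have ht1 : ∀ i, i < J → (b : ℝ) * 2 ^ t i ≤ 28 * R i := by
    intro i hi
    have h1 := (ht i hi).1
    rw [le_div_iff₀ (by positivity)] at h1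
    linarith
  have ht2 : ∀ i, i < J → 14 * (R i : ℝ) < (b : ℝ) * 2 ^ t i := by
    intro i hi
    have h1 := (ht i hi).2
    rw [div_lt_iff₀ (by positivity)] at h1
    linarith
  have hpow : ∀ m n : ℕ, (b : ℝ) * 2 ^ m < (b : ℝ) * 2 ^ n → m ≤ n := by
    intro m n h
    have h2 : (2 : ℝ) ^ m < 2 ^ n := lt_of_mul_lt_mul_left h hbr.le
    exact ((pow_lt_pow_iff_right₀ (by norm_num : (1 : ℝ) < 2)).1 h2).le
  have hlt : ∀ i, i < J → l i ≤ t i := by
    intro i hi
    apply hpow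
    have h1 := hl1 i hi
    have h2 := ht2 i hi
    have h3 := hεH i
    have h4 := hHRr i hi
    have h5 : (0 : ℝ) ≤ R i := Nat.cast_nonneg _
    linarith
  have htl : ∀ i, i + 1 < J → t i ≤ l (i + 1) := by
    intro i hi
    apply hpow
    have h1 := ht1 i (by omega)
    have h2 := hl2 (i + 1) hi
    have h3 := hRH i hi
    have h5 : (0 : ℝ) ≤ R i := Nat.cast_nonneg _
    have h6 : 400 * (R i : ℝ) ≤ C * R i := by
      apply mul_le_mul_of_nonneg_right _ h5
      rw [hC]; linarith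
    have h7 : 0 < (b : ℝ) * 2 ^ l (i + 1) := by positivity
    linarith
  have htK : ∀ i, i < J → t i ≤ K := by
    intro i hi
    apply hpow
    have h1 := ht1 i hi
    have h3 := hRX i hi
    have h5 : (0 : ℝ) ≤ R i := Nat.cast_nonneg _
    have h6 : 400 * (R i : ℝ) ≤ C * R i := by
      apply mul_le_mul_of_nonneg_right _ h5
      rw [hC]; linarith
    have h7 : 4 * (X : ℝ) ≤ (b : ℝ) * 2 ^ K := by exact_mod_cast h4X
    linarith
  have hps : ∀ a k, 0 ≤ ps a k := by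
    intro a k
    unfold ps
    split_ifs <;> norm_num
  have hchain : ∀ a, ∑ i ∈ range J, Hel (b * 2 ^ l i) (b * 2 ^ t i) (ps a) M ≤
      Ent b (ps a) M - Ent M (ps a) M := by
    intro a
    exact hel_chain M J b (fun i => b * 2 ^ l i) (fun i => b * 2 ^ t i) hM0 hb0 (ps a) (hps a)
      (Dvd.intro _ rfl) (fun i _ => Dvd.intro _ rfl) (fun i _ => by positivity)
      (fun i hi => Nat.mul_dvd_mul_left b (pow_dvd_pow 2 (hlt i hi)))
      (fun i hi => Nat.mul_dvd_mul_left b (pow_dvd_pow 2 (htK i hi)))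
      (fun i hi => Nat.mul_dvd_mul_left b (pow_dvd_pow 2 (htl i hi)))
  have hcard : ∀ i ∈ range J,
      (((Icc 1 X).filter (fun p => p.Prime ∧ ¬ TypicalS ε (H i) (R i) p)).card : ℝ) ≤
      20000 / ε ^ 3 * (Hel (b * 2 ^ l i) (b * 2 ^ t i) (ps 0) M +
        Hel (b * 2 ^ l i) (b * 2 ^ t i) (ps (b * A)) M) := by
    intro i hi
    have hi := mem_range.1 hi
    refine card_atypical b (t i) K A X M (H i) (R i) (b * 2 ^ l i) (b * 2 ^ t i) ε hb0 hA
      (htK i hi) rfl (Nat.mul_dvd_mul_left b (pow_dvd_pow 2 (htK i hi))) hXA (by positivity)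
      (Nat.mul_dvd_mul_left b (pow_dvd_pow 2 (hlt i hi))) hε hε1 ?_ ?_
    · push_cast
      exact hl1 i hi
    · have h1 := hl1 i hi
      have h2 := ht2 i hi
      have h3 := hεH i
      have h4 := hHRr i hi
      have h5 := hH6 i hi
      have h8 : (6 * (2 * (R i : ℝ) + b * 2 ^ l i) + b) < b * 2 ^ t i := by linarith
      exact_mod_cast h8
  have hεp : 0 < ε ^ 3 := by positivity
  calc ∑ i ∈ range J,
        (((Icc 1 X).filter (fun p => p.Prime ∧ ¬ TypicalS ε (H i) (R i) p)).card : ℝ)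
      ≤ ∑ i ∈ range J, 20000 / ε ^ 3 * (Hel (b * 2 ^ l i) (b * 2 ^ t i) (ps 0) M +
        Hel (b * 2 ^ l i) (b * 2 ^ t i) (ps (b * A)) M) := sum_le_sum hcard
    _ = 20000 / ε ^ 3 * (∑ i ∈ range J, Hel (b * 2 ^ l i) (b * 2 ^ t i) (ps 0) M +
        ∑ i ∈ range J, Hel (b * 2 ^ l i) (b * 2 ^ t i) (ps (b * A)) M) := by
        rw [← mul_sum, sum_add_distrib]
    _ ≤ 20000 / ε ^ 3 * (C₀ * Nat.primeCounting X + C₀ * Nat.primeCounting X) := by
        apply mul_le_mul_of_nonneg_left _ (by positivity)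
        exact add_le_add ((hchain 0).trans hE1) ((hchain (b * A)).trans hE2)
    _ = 40000 * C₀ / ε ^ 3 * Nat.primeCounting X := by ring
    _ ≤ C / ε ^ 3 * Nat.primeCounting X := by
        apply mul_le_mul_of_nonneg_right _ (Nat.cast_nonneg _)
        apply div_le_div_of_nonneg_right _ hεp.le
        rw [hC]; linarith

end Pool.Agent.H.MP_711652_nt
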