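import Mathlib
import Pool.Agent.H.MP_711652_nt.ExpoD

set_option autoImplicit false

namespace Pool.Agent.H.MP_711652_nt

open Finset MeasureTheory

lemma LRr_mono (ε ε' a b b' : ℝ) (p : ℕ) (hε : ε ≤ ε') (hb : b' ≤ b) (h : LRr ε a b p) :
    LRr ε' a b' p := by
  obtain ⟨μ, hμ, h1⟩ := h
  refine ⟨μ, hμ, fun h r hh hr hrb => ?_⟩
  have h2 := h1 h r hh hr (hrb.trans hb)
  have h3 : ((Icc (p - r) (p + r)).filter (fun y => ε' * (μ * h) < |(cnt y h : ℝ) - μ * h|)).card ≤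
      ((Icc (p - r) (p + r)).filter (fun y => ε * (μ * h) < |(cnt y h : ℝ) - μ * h|)).card := by
    apply card_le_card
    intro y hy
    rw [mem_filter] at hy ⊢
    refine ⟨hy.1, lt_of_le_of_lt ?_ hy.2⟩
    gcongr
  have h4 : (((Icc (p - r) (p + r)).filter (fun y => ε' * (μ * h) < |(cnt y h : ℝ) - μ * h|)).card : ℝ) ≤
      (((Icc (p - r) (p + r)).filter (fun y => ε * (μ * h) < |(cnt y h : ℝ) - μ * h|)).card : ℝ) := by
    exact_mod_cast h3
  calc _ ≤ _ := h4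
    _ ≤ ε * (2 * r + 1) := h2
    _ ≤ _ := by gcongr

open Classical in
theorem log_density_all : ∀ᵐ α : ℝ, 1 < α → ∀ γ ε : ℝ, γ < 1 → 0 < ε →
    ∀ τ : ℝ, 0 < τ → ∀ᶠ x : ℕ in Filter.atTop,
    ∑ p ∈ (Icc 1 x).filter (fun p : ℕ => p.Prime ∧ ¬ LRr ε ((Real.log p) ^ α)
        ((Real.log p) ^ α * Real.exp ((Real.log (Real.log p)) ^ γ)) p), 1 / (p : ℝ) ≤
      τ * Real.log (Real.log x) := by
  obtain ⟨K', hK', hmain⟩ := log_density
  have h1 : ∀ᵐ α : ℝ, ∀ m : ℕ, 2 ≤ m → 1 + 1 / (m : ℝ) ≤ α → α ≤ m → ∀ᶠ x : ℕ in Filter.atTop,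
      ∑ p ∈ (Icc 1 x).filter (fun p : ℕ => p.Prime ∧ ¬ LRr (1 / (m : ℝ)) ((Real.log p) ^ α)
        ((Real.log p) ^ α * Real.exp ((Real.log (Real.log p)) ^ (1 - 1 / (m : ℝ)))) p), 1 / (p : ℝ) ≤
      K' * (1 / (m : ℝ)) * Real.log (Real.log x) := by
    rw [ae_all_iff]
    intro m
    rcases Nat.lt_or_ge m 2 with hm | hm
    · filter_upwards with α h
      omega
    · have hm' : (2 : ℝ) ≤ m := by exact_mod_cast hm
      have hm1 : 0 < 1 / (m : ℝ) := by positivity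
      have hm2 : 1 / (m : ℝ) ≤ 1 / 2 := one_div_le_one_div_of_le (by norm_num) hm'
      filter_upwards [hmain (1 - 1 / (m : ℝ)) (1 / m) (1 / m) m (by linarith) (by linarith) hm1
        (by linarith) hm1] with α hα _ h2 h3
      exact hα h2 h3
  filter_upwards [h1] with α hα hα1 γ ε hγ hε τ hτ
  obtain ⟨m, hm⟩ := exists_nat_ge (max (max (max 2 α) (1 / (α - 1))) (max (max (1 / (1 - γ)) (1 / ε)) (2 * K' / τ)))
  simp only [max_le_iff] at hm
  obtain ⟨⟨⟨m1, m2⟩, m3⟩, ⟨m4, m5⟩, m6⟩ := hm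
  have hm0 : (0 : ℝ) < m := by linarith
  have m1' : 2 ≤ m := by exact_mod_cast m1
  have hinv : ∀ z : ℝ, 0 < z → 1 / z ≤ m → 1 / (m : ℝ) ≤ z := by
    intro z hz h
    rw [div_le_iff₀ hz] at h
    rw [div_le_iff₀ hm0]
    linarith
  have k3 := hinv (α - 1) (by linarith) m3
  have k4 := hinv (1 - γ) (by linarith) m4
  have k5 := hinv ε hε m5
  have k6 : K' * (1 / (m : ℝ)) ≤ τ / 2 := by
    rw [div_le_iff₀ hτ] at m6
    rw [mul_one_div, div_le_iff₀ hm0]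
    linarith
  have hx := hα m m1' (by linarith) m2
  set M₀ := ⌈Real.exp (Real.exp 1)⌉₊ with hM₀
  set D := ∑ p ∈ Icc 1 M₀, 1 / (p : ℝ) with hD
  have e1 := tendsto_loglog_nat.eventually_ge_atTop (max 0 (2 * D / τ))
  filter_upwards [hx, e1] with x f1 f2
  have f2a : 0 ≤ Real.log (Real.log x) := le_trans (le_max_left _ _) f2
  have f2b : D ≤ τ / 2 * Real.log (Real.log x) := by
    have := le_trans (le_max_right _ _) f2
    rw [div_le_iff₀ hτ] at this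
    linarith
  have hsub : (Icc 1 x).filter (fun p : ℕ => p.Prime ∧ ¬ LRr ε ((Real.log p) ^ α)
        ((Real.log p) ^ α * Real.exp ((Real.log (Real.log p)) ^ γ)) p) ⊆
      (Icc 1 x).filter (fun p : ℕ => p.Prime ∧ ¬ LRr (1 / (m : ℝ)) ((Real.log p) ^ α)
        ((Real.log p) ^ α * Real.exp ((Real.log (Real.log p)) ^ (1 - 1 / (m : ℝ)))) p) ∪ Icc 1 M₀ := by
    intro p hp
    rw [mem_filter, mem_Icc] at hp
    obtain ⟨⟨h2, h3⟩, h4, h5⟩ := hp
    rw [mem_union]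
    by_cases hpM : p ≤ M₀
    · right
      exact mem_Icc.2 ⟨h2, hpM⟩
    · left
      rw [mem_filter, mem_Icc]
      refine ⟨⟨h2, h3⟩, h4, fun hlr => h5 ?_⟩
      push Not at hpM
      have h6 : Real.exp (Real.exp 1) ≤ p := by
        refine (Nat.le_ceil _).trans ?_
        exact_mod_cast hpM.le
      have hp0 : (0 : ℝ) < p := lt_of_lt_of_le (Real.exp_pos _) h6
      have h7 : Real.exp 1 ≤ Real.log p := by
        rwa [Real.le_log_iff_exp_le hp0]
      have h8 : 0 < Real.log p := lt_of_lt_of_le (Real.exp_pos _) h7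
      have h9 : 1 ≤ Real.log (Real.log p) := by
        rwa [Real.le_log_iff_exp_le h8]
      apply LRr_mono _ _ _ _ _ p k5 _ hlr
      have h10 : (Real.log (Real.log p)) ^ γ ≤ (Real.log (Real.log p)) ^ (1 - 1 / (m : ℝ)) :=
        Real.rpow_le_rpow_of_exponent_le h9 (by linarith)
      have h11 : 0 ≤ (Real.log p) ^ α := Real.rpow_nonneg h8.le α
      exact mul_le_mul_of_nonneg_left (Real.exp_le_exp.2 h10) h11
  calc _ ≤ ∑ p ∈ (Icc 1 x).filter (fun p : ℕ => p.Prime ∧ ¬ LRr (1 / (m : ℝ)) ((Real.log p) ^ α)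
        ((Real.log p) ^ α * Real.exp ((Real.log (Real.log p)) ^ (1 - 1 / (m : ℝ)))) p) ∪ Icc 1 M₀,
          1 / (p : ℝ) := by
        apply sum_le_sum_of_subset_of_nonneg hsub
        intro p _ _
        positivity
    _ ≤ ∑ p ∈ (Icc 1 x).filter (fun p : ℕ => p.Prime ∧ ¬ LRr (1 / (m : ℝ)) ((Real.log p) ^ α)
        ((Real.log p) ^ α * Real.exp ((Real.log (Real.log p)) ^ (1 - 1 / (m : ℝ)))) p), 1 / (p : ℝ) + D := by
        have h2 := sum_union_inter (s₁ := (Icc 1 x).filter (fun p : ℕ => p.Prime ∧ ¬ LRr (1 / (m : ℝ)) ((Real.log p) ^ α)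
          ((Real.log p) ^ α * Real.exp ((Real.log (Real.log p)) ^ (1 - 1 / (m : ℝ)))) p)) (s₂ := Icc 1 M₀)
          (f := fun p : ℕ => 1 / (p : ℝ))
        have h3 : 0 ≤ ∑ p ∈ (Icc 1 x).filter (fun p : ℕ => p.Prime ∧ ¬ LRr (1 / (m : ℝ)) ((Real.log p) ^ α)
          ((Real.log p) ^ α * Real.exp ((Real.log (Real.log p)) ^ (1 - 1 / (m : ℝ)))) p) ∩ Icc 1 M₀,
            1 / (p : ℝ) := by
          apply sum_nonneg
          intro p _
          positivity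
        linarith
    _ ≤ K' * (1 / (m : ℝ)) * Real.log (Real.log x) + τ / 2 * Real.log (Real.log x) := by
        gcongr
    _ ≤ τ / 2 * Real.log (Real.log x) + τ / 2 * Real.log (Real.log x) := by gcongr
    _ = _ := by ring

end Pool.Agent.H.MP_711652_nt
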