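import Mathlib
import Pool.Agent.H.MP_711652_nt.ExpoB

set_option autoImplicit false

namespace Pool.Agent.H.MP_711652_nt

open Finset

open Classical in
/-- splitting into residue classes mod m -/
lemma card_mod (m : ℕ) (hm : 0 < m) (i₀ I : ℕ) (Q : ℕ → Prop) (B : ℝ)
    (h : ∀ s, s < m → (((range ((I + m - i₀ - s) / m)).filter (fun t => Q (i₀ + m * t + s))).card : ℝ) ≤ B) :
    (((Icc i₀ I).filter Q).card : ℝ) ≤ m * B := by
  have h1 : ((Icc i₀ I).filter Q).card =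
      ∑ s ∈ range m, (((Icc i₀ I).filter Q).filter (fun i => (i - i₀) % m = s)).card := by
    apply card_eq_sum_card_fiberwise
    intro i _
    simp only [coe_range, Set.mem_Iio]
    exact Nat.mod_lt _ hm
  rw [h1]
  push_cast
  have h2 : ∀ s ∈ range m, ((((Icc i₀ I).filter Q).filter (fun i => (i - i₀) % m = s)).card : ℝ) ≤ B := by
    intro s hs
    rw [mem_range] at hs
    refine le_trans ?_ (h s hs)
    have h3 : (((Icc i₀ I).filter Q).filter (fun i => (i - i₀) % m = s)).card ≤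
        ((range ((I + m - i₀ - s) / m)).filter (fun t => Q (i₀ + m * t + s))).card := by
      apply card_le_card_of_injOn (fun i => (i - i₀) / m)
      · intro i hi
        rw [mem_coe, mem_filter, mem_filter, mem_Icc] at hi
        obtain ⟨⟨⟨h4, h5⟩, h6⟩, h7⟩ := hi
        rw [mem_coe, mem_filter, mem_range]
        have h9 := Nat.div_add_mod (i - i₀) m
        have h8 : i₀ + m * ((i - i₀) / m) + s = i := by omega
        refine ⟨?_, ?_⟩
        · show (i - i₀) / m < (I + m - i₀ - s) / m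
          rw [Nat.lt_iff_add_one_le, Nat.le_div_iff_mul_le hm]
          have h10 : ((i - i₀) / m + 1) * m = m * ((i - i₀) / m) + m := by ring
          omega
        · show Q (i₀ + m * ((i - i₀) / m) + s)
          rw [h8]
          exact h6
      · intro i hi j hj hij
        rw [mem_coe, mem_filter, mem_filter, mem_Icc] at hi hj
        obtain ⟨⟨⟨h4, h5⟩, h6⟩, h7⟩ := hi
        obtain ⟨⟨⟨h4', h5'⟩, h6'⟩, h7'⟩ := hj
        simp only at hij
        have h8 := Nat.div_add_mod (i - i₀) m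
        have h9 := Nat.div_add_mod (j - i₀) m
        rw [hij] at h8
        omega
    exact_mod_cast h3
  calc _ ≤ ∑ s ∈ range m, B := sum_le_sum h2
    _ = m * B := by rw [sum_const, card_range, nsmul_eq_mul]

open Classical in
theorem block_bad2 (γ ε η : ℝ) (A : ℕ) (hγ : 0 < γ) (hγ1 : γ < 1) (hε : 0 < ε) (hε1 : ε ≤ 1)
    (hη : 0 < η) : ∃ C₅ : ℝ, 0 ≤ C₅ ∧ ∃ n₀ : ℕ, ∀ n : ℕ, n₀ ≤ n → ∃ Bad : Finset ℕ,
      (Bad.card : ℝ) ≤ C₅ ∧ ∀ α : ℝ, 1 + η ≤ α → α ≤ A → ⌊α * cn γ n⌋₊ ∉ Bad →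
      (((Ioc (2 ^ (n - 1)) (2 ^ n)).filter (fun p : ℕ => p.Prime ∧ ¬ LRr ε
        ((Real.log p) ^ α * Real.exp (-(Real.log (Real.log p)) ^ γ))
        ((Real.log p) ^ α * Real.exp ((Real.log (Real.log p)) ^ γ)) p)).card : ℝ) ≤
        ε * Nat.primeCounting (2 ^ n) := by
  obtain ⟨C, hC, X₀, hX₀⟩ := reg_mu
  refine ⟨6 * (C / ε ^ 10), by positivity, ?_⟩
  have hC0 : 0 < C := by linarith
  have e1 := ev_rpow γ (η / 2) ((Real.log (C / ε ^ 3) + (1 + η) * Real.log 4) / 2 + Real.log 2) hγ1 (by linarith)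
  have e2 := ev_Gn_ge γ (C / ε ^ 3) hγ
  have e3 := ev_Gn_ge γ (4 ^ A) hγ
  have e4 := ev_Gn_ge γ 2 hγ
  have e5 := ev_rpow γ 1 (Real.log 2) hγ1 one_pos
  have e6 : ∀ᶠ n : ℕ in Filter.atTop, (n : ℝ) ^ (A + 3) / 2 ^ n < ε ^ 3 / C :=
    (tendsto_pow_const_div_const_pow_of_one_lt (A + 3) (by norm_num : (1 : ℝ) < 2)).eventually
      (gt_mem_nhds (by positivity))
  have e7 := Filter.eventually_ge_atTop (α := ℕ) (max 16 X₀)
  obtain ⟨n₀, hn₀⟩ := Filter.eventually_atTop.1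
    (e1.and (e2.and (e3.and (e4.and (e5.and (e6.and e7))))))
  refine ⟨n₀, ?_⟩
  intro n hn
  obtain ⟨f1, f2, f3, f4, f5, f6, f7⟩ := hn₀ n hn
  have hn16 : 16 ≤ n := le_trans (le_max_left _ _) f7
  have hnX : X₀ ≤ 2 ^ n := by
    have h1 : X₀ ≤ n := le_trans (le_max_right _ _) f7
    exact h1.trans (Nat.lt_two_pow_self).le
  have hnr : (16 : ℝ) ≤ n := by exact_mod_cast hn16
  set G := Gn γ n with hG
  have hG2 : (2 : ℝ) ≤ G := f4
  have hG0 : 0 < G := by
    have : (0 : ℝ) < G := by linarith only [hγ, hγ1, f4]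
    exact_mod_cast this
  have hGr : (0 : ℝ) < G := by linarith
  have hG1 : (1 : ℝ) ≤ G := by linarith
  have hlogG : 0 < Real.log G := Real.log_pos (by linarith)
  have hx0 : (0 : ℝ) < (n : ℝ) / 4 := by linarith
  have hlogx : 0 < Real.log ((n : ℝ) / 4) := Real.log_pos (by linarith only [hγ, hγ1, hnr])
  have hlogx' : Real.log ((n : ℝ) / 4) = Real.log n - Real.log 4 :=
    Real.log_div (by linarith only [hγ, hγ1, hnr]) (by norm_num)
  set c := cn γ n with hc
  have hc0 : 0 < c := by rw [hc, cn]; exact div_pos hlogx hlogG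
  have hcG : c * Real.log G = Real.log ((n : ℝ) / 4) := by
    rw [hc, cn, ← hG]; field_simp
  have hlGle : Real.log G ≤ (Real.log n) ^ γ + Real.log 2 := log_Gn_le γ n
  have hGn : (G : ℝ) ≤ n := by
    rw [← Real.log_le_log_iff hGr (by linarith only [hγ, hγ1, hnr])]
    linarith only [f5, hlGle]
  set i₀ := ⌊(1 + η) * c⌋₊ with hi₀
  set I := ⌊(A : ℝ) * c⌋₊ with hI
  -- lower end
  have hlow : C * Real.log ((2 ^ n : ℕ) : ℝ) ≤ ε ^ 3 * (G : ℝ) ^ (i₀ - 1) := by
    have h1 : (1 + η) * c < i₀ + 1 := Nat.lt_floor_add_one _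
    have h2 : (1 + η) * Real.log ((n : ℝ) / 4) ≤ (i₀ + 1) * Real.log G := by
      rw [← hcG, ← mul_assoc]
      exact mul_le_mul_of_nonneg_right h1.le hlogG.le
    have hi1 : (i₀ : ℝ) - 1 ≤ ((i₀ - 1 : ℕ) : ℝ) := by
      have : i₀ ≤ (i₀ - 1) + 1 := by omega
      have h6 : (i₀ : ℝ) ≤ (((i₀ - 1) + 1 : ℕ) : ℝ) := by exact_mod_cast this
      push_cast at h6
      linarith only [h6]
    have h3 : Real.log (C / ε ^ 3) + Real.log n ≤ ((i₀ - 1 : ℕ) : ℝ) * Real.log G := by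
      rw [hlogx'] at h2
      have h7 : ((i₀ : ℝ) - 1) * Real.log G ≤ ((i₀ - 1 : ℕ) : ℝ) * Real.log G :=
        mul_le_mul_of_nonneg_right hi1 hlogG.le
      nlinarith only [f1, hlGle, h2, h7]
    have h4 : C / ε ^ 3 * n ≤ (G : ℝ) ^ (i₀ - 1) := by
      rw [← Real.log_le_log_iff (by positivity) (by positivity), Real.log_mul (by positivity)
        (by linarith only [hγ, hγ1, hnr]), Real.log_pow]
      exact h3
    have h5 : Real.log ((2 ^ n : ℕ) : ℝ) ≤ n := by
      push_cast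
      rw [Real.log_pow]
      have : Real.log 2 < 0.7 := by
        have := Real.log_two_lt_d9
        linarith only [hγ, hγ1, this]
      nlinarith only [hγ, hγ1, hnr, this]
    calc C * Real.log ((2 ^ n : ℕ) : ℝ) ≤ C * n := by gcongr
      _ = ε ^ 3 * (C / ε ^ 3 * n) := by field_simp
      _ ≤ _ := by gcongr
  have hi01 : 1 ≤ i₀ := by
    by_contra h
    have h0 : i₀ - 1 = 0 := by omega
    rw [h0, pow_zero, mul_one] at hlow
    have h5 : (1 : ℝ) < Real.log ((2 ^ n : ℕ) : ℝ) := by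
      push_cast
      rw [Real.log_pow]
      have : (0.69 : ℝ) < Real.log 2 := by
        have := Real.log_two_gt_d9
        linarith only [hγ, hγ1, this]
      nlinarith only [hγ, hγ1, hnr, this]
    have h6 : ε ^ 3 ≤ 1 := pow_le_one₀ hε.le hε1
    nlinarith only [hC, hlow, h6, hγ, h5, hγ1]
  -- upper end
  have hup : ∀ i, i ≤ I → C * (G : ℝ) ^ (i + 3) ≤ ε ^ 3 * ((2 ^ n : ℕ) : ℝ) := by
    intro i hi
    have h1 : (i : ℝ) ≤ A * c := by
      have h2 : (I : ℝ) ≤ A * c := Nat.floor_le (by positivity)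
      have h3 : (i : ℝ) ≤ I := by exact_mod_cast hi
      linarith only [h2, h3]
    have h2 : (G : ℝ) ^ i ≤ ((n : ℝ) / 4) ^ (A : ℝ) := by
      apply pow_le_rpow_of G hG0 _ hx0
      rw [← hcG, ← mul_assoc]
      exact mul_le_mul_of_nonneg_right h1 hlogG.le
    have h3 : ((n : ℝ) / 4) ^ (A : ℝ) ≤ (n : ℝ) ^ A := by
      rw [Real.rpow_natCast]
      apply pow_le_pow_left₀ hx0.le
      linarith only [hγ, hγ1, hnr]
    have h4 : C * (G : ℝ) ^ (i + 3) ≤ C * ((n : ℝ) ^ (A + 3)) := by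
      rw [pow_add, pow_add]
      have h5 : (G : ℝ) ^ 3 ≤ (n : ℝ) ^ 3 := pow_le_pow_left₀ hGr.le hGn 3
      have h6 : (G : ℝ) ^ i ≤ (n : ℝ) ^ A := h2.trans h3
      gcongr
    have h5 : (n : ℝ) ^ (A + 3) ≤ ε ^ 3 / C * 2 ^ n := by
      rw [div_lt_iff₀ (by positivity)] at f6
      exact f6.le
    calc C * (G : ℝ) ^ (i + 3) ≤ C * ((n : ℝ) ^ (A + 3)) := h4
      _ ≤ C * (ε ^ 3 / C * 2 ^ n) := by gcongr
      _ = ε ^ 3 * 2 ^ n := by field_simp
      _ = _ := by push_cast; ring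
  refine ⟨(Icc i₀ I).filter (fun i => ¬ Reg (2 ^ n) ε (G ^ (i - 1)) (G ^ (i + 3))), ?_, ?_⟩
  · have hfive := card_mod 6 (by norm_num) i₀ I
      (fun i => ¬ Reg (2 ^ n) ε (G ^ (i - 1)) (G ^ (i + 3))) (C / ε ^ 10) ?_
    · norm_num at hfive
      convert hfive
    intro s hs
    have hx := hX₀ (2 ^ n) hnX ε hε hε1 ((I + 6 - i₀ - s) / 6) (fun t => G ^ (i₀ + 6 * t + s - 1))
      (fun t => G ^ (i₀ + 6 * t + s + 3)) ?_ ?_ ?_ ?_
    · convert hx
    · intro t _
      refine hlow.trans ?_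
      push_cast
      have h1 : (G : ℝ) ^ (i₀ - 1) ≤ (G : ℝ) ^ (i₀ + 6 * t + s - 1) := pow_le_pow_right₀ hG1 (by omega)
      exact mul_le_mul_of_nonneg_left h1 (by positivity)
    · intro t _
      apply Nat.pow_le_pow_right hG0
      omega
    · intro t _
      push_cast
      have h1 : i₀ + 6 * (t + 1) + s - 1 = i₀ + 6 * t + s + 3 + 2 := by omega
      have h5 : (G : ℝ) ^ (i₀ + 6 * t + s + 3 + 2) = (G : ℝ) ^ (i₀ + 6 * t + s + 3) * (G : ℝ) ^ 2 :=
        pow_add _ _ _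
      rw [h1, h5]
      have h2 : C ≤ ε ^ 3 * (G : ℝ) ^ 2 := by
        rw [div_le_iff₀ (by positivity)] at f2
        have h3 : (G : ℝ) * 1 ≤ G * G := by gcongr
        have h4 : 0 < ε ^ 3 := by positivity
        nlinarith only [f4, hC, f2, hγ, hγ1]
      calc C * (G : ℝ) ^ (i₀ + 6 * t + s + 3) ≤
          (ε ^ 3 * (G : ℝ) ^ 2) * (G : ℝ) ^ (i₀ + 6 * t + s + 3) := by gcongr
        _ = _ := by ring
    · intro t ht
      have h1 : i₀ + 6 * t + s ≤ I := by
        rw [Nat.lt_iff_add_one_le, Nat.le_div_iff_mul_le (by norm_num)] at ht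
        omega
      have := hup _ h1
      push_cast at this ⊢
      exact this
  · intro α hα1 hα2 hα
    set i := ⌊α * c⌋₊ with hi
    have hα0 : 0 < α := by linarith only [hγ, hγ1, hη, hα1]
    have hiI : i ∈ Icc i₀ I := by
      rw [mem_Icc]
      constructor
      · apply Nat.floor_le_floor
        gcongr
      · apply Nat.floor_le_floor
        gcongr
    have hreg : Reg (2 ^ n) ε (G ^ (i - 1)) (G ^ (i + 3)) := by
      by_contra h
      exact hα (mem_filter.2 ⟨hiI, h⟩)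
    refine le_trans ?_ hreg
    have hi1 : (i : ℝ) ≤ α * c := Nat.floor_le (by positivity)
    have hi2 : α * c < i + 1 := Nat.lt_floor_add_one _
    have hGi : (G : ℝ) ^ i ≤ ((n : ℝ) / 4) ^ α := by
      apply pow_le_rpow_of G hG0 _ hx0
      rw [← hcG, ← mul_assoc]
      exact mul_le_mul_of_nonneg_right hi1 hlogG.le
    have hGi1 : ((n : ℝ) / 4) ^ α ≤ (G : ℝ) ^ (i + 1) := by
      apply rpow_le_pow_of G hG0 _ hx0
      rw [← hcG, ← mul_assoc]
      push_cast
      exact mul_le_mul_of_nonneg_right hi2.le hlogG.le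
    have h4α : (4 : ℝ) ^ α ≤ G := by
      calc (4 : ℝ) ^ α ≤ (4 : ℝ) ^ (A : ℝ) := Real.rpow_le_rpow_of_exponent_le (by norm_num) hα2
        _ = 4 ^ A := Real.rpow_natCast _ _
        _ ≤ G := f3
    have hnα : (n : ℝ) ^ α ≤ G * (G : ℝ) ^ (i + 1) := by
      have h1 : (n : ℝ) ^ α = 4 ^ α * ((n : ℝ) / 4) ^ α := by
        rw [← Real.mul_rpow (by norm_num) hx0.le]
        congr 1
        ring
      rw [h1]
      gcongr
    have hsub : (Ioc (2 ^ (n - 1)) (2 ^ n)).filter (fun p : ℕ => p.Prime ∧ ¬ LRr ε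
        ((Real.log p) ^ α * Real.exp (-(Real.log (Real.log p)) ^ γ))
        ((Real.log p) ^ α * Real.exp ((Real.log (Real.log p)) ^ γ)) p) ⊆
        (Icc 1 (2 ^ n)).filter (fun p => p.Prime ∧ ¬ LR ε (G ^ (i - 1)) (G ^ (i + 3)) p) := by
      intro p hp
      rw [mem_filter, mem_Ioc] at hp
      obtain ⟨⟨hp1, hp2⟩, hpp, hpl⟩ := hp
      rw [mem_filter, mem_Icc]
      refine ⟨⟨hpp.pos, hp2⟩, hpp, fun hlr => hpl ?_⟩
      obtain ⟨hl1, hl2⟩ := log_bounds n p hn16 hp1 hp2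
      have hl0 : 0 < Real.log p := by linarith only [hγ, hγ1, hnr, hl1]
      have hl3 : (1 : ℝ) ≤ Real.log p := by linarith only [hγ, hγ1, hnr, hl1]
      have h2 : Real.log (Real.log p) ≤ Real.log n := Real.log_le_log hl0 hl2
      have h3 : 0 ≤ Real.log (Real.log p) := Real.log_nonneg hl3
      have h4 : Real.exp ((Real.log (Real.log p)) ^ γ) ≤ G := by
        refine le_trans ?_ (exp_le_Gn γ n)
        apply Real.exp_le_exp.2
        exact Real.rpow_le_rpow h3 h2 hγ.le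
      apply LRr_of_LR ε _ _ (G ^ (i - 1)) (G ^ (i + 3)) p _ _ hlr
      · push_cast
        have h5 : (G : ℝ) ^ i ≤ (Real.log p) ^ α := hGi.trans (Real.rpow_le_rpow hx0.le hl1 hα0.le)
        have h6 : (G : ℝ) ^ i = (G : ℝ) ^ (i - 1) * G := by
          rw [← pow_succ]
          congr 1
          have := (mem_Icc.1 hiI).1
          omega
        rw [Real.exp_neg, ← div_eq_mul_inv, le_div_iff₀ (Real.exp_pos _)]
        calc (G : ℝ) ^ (i - 1) * Real.exp ((Real.log (Real.log p)) ^ γ) ≤ (G : ℝ) ^ (i - 1) * G := by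
              gcongr
          _ = (G : ℝ) ^ i := h6.symm
          _ ≤ _ := h5
      · push_cast
        have h1 : (Real.log p) ^ α ≤ (n : ℝ) ^ α := Real.rpow_le_rpow hl0.le hl2 hα0.le
        calc (Real.log p) ^ α * Real.exp ((Real.log (Real.log p)) ^ γ) ≤
            (G * (G : ℝ) ^ (i + 1)) * G := by
              apply mul_le_mul (h1.trans hnα) h4 (Real.exp_pos _).le (by positivity)
          _ = (G : ℝ) ^ (i + 3) := by ring
    exact_mod_cast card_le_card hsub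

end Pool.Agent.H.MP_711652_nt
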