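import Mathlib
import Pool.Agent.H.MP_711652_nt.ExpoF
import Pool.Agent.H.MP_711652_nt.DimC

set_option autoImplicit false

namespace Pool.Agent.H.MP_711652_nt

open Finset MeasureTheory Filter Topology
open scoped ENNReal NNReal

/-- Intervals of length at most `δ` meet at most two grid cells. -/
lemma cell_cover (c d δ : ℝ) (hc : 0 < c) (hδ : 0 < δ) (hcδ : c⁻¹ ≤ δ) (Bad : Finset ℕ) :
    ∃ G : Finset ℤ, (G.card : ℝ) ≤ 2 * Bad.card ∧ ∀ α : ℝ, ∀ j ∈ Bad, (j : ℝ) ≤ α * c + d →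
      α * c + d < j + 1 → ⌊α / δ⌋ ∈ G := by
  classical
  refine ⟨Bad.biUnion (fun j => {⌊(((j : ℝ) - d) / c) / δ⌋, ⌊(((j : ℝ) - d) / c) / δ⌋ + 1}), ?_, ?_⟩
  · have h1 : (Bad.biUnion (fun j => ({⌊(((j : ℝ) - d) / c) / δ⌋,
        ⌊(((j : ℝ) - d) / c) / δ⌋ + 1} : Finset ℤ))).card ≤ Bad.card * 2 := by
      apply card_biUnion_le_card_mul
      intro j _
      exact card_le_two
    have h2 : ((Bad.biUnion (fun j => ({⌊(((j : ℝ) - d) / c) / δ⌋,
        ⌊(((j : ℝ) - d) / c) / δ⌋ + 1} : Finset ℤ))).card : ℝ) ≤ Bad.card * 2 := by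
      exact_mod_cast h1
    linarith
  · intro α j hj h1 h2
    rw [mem_biUnion]
    refine ⟨j, hj, ?_⟩
    set u := (((j : ℝ) - d) / c) / δ with hu
    have h3 : u ≤ α / δ := by
      rw [hu]
      apply div_le_div_of_nonneg_right _ hδ.le
      rw [div_le_iff₀ hc]
      linarith
    have h4 : α / δ < u + 1 := by
      have h5 : α < ((j : ℝ) - d) / c + c⁻¹ := by
        rw [← one_div, ← add_div, lt_div_iff₀ hc]
        linarith
      have h6 : α < ((j : ℝ) - d) / c + δ := by linarith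
      rw [hu]
      rw [div_lt_iff₀ hδ, add_mul, one_mul, div_mul_cancel₀ _ hδ.ne']
      exact h6
    have h5 : ⌊u⌋ ≤ ⌊α / δ⌋ := Int.floor_le_floor h3
    have h6 : ⌊α / δ⌋ < ⌊u⌋ + 2 := by
      rw [Int.floor_lt]
      push_cast
      have := Int.lt_floor_add_one u
      linarith
    rw [mem_insert, mem_singleton]
    omega

/-- The non-regular primes at exponent `α`. -/
def QLR (ε α γ : ℝ) (p : ℕ) : Prop := p.Prime ∧ ¬ LRr ε
  ((Real.log p) ^ α * Real.exp (-(Real.log (Real.log p)) ^ γ))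
  ((Real.log p) ^ α * Real.exp ((Real.log (Real.log p)) ^ γ)) p

open Classical in
theorem expo_sets : ∃ K' : ℝ, 0 < K' ∧ ∀ (γ ε η : ℝ) (A : ℕ), 0 < γ → γ < 1 → 0 < ε → ε ≤ 1 →
    0 < η → ∃ E P : Set ℝ, dimH E = 0 ∧ P.Countable ∧ ∀ α : ℝ, 1 + η ≤ α → α ≤ A →
    (α ∉ E → ∀ᶠ x : ℕ in atTop, ∑ p ∈ (Icc 1 x).filter (QLR ε α γ), 1 / (p : ℝ) ≤
      K' * ε * Real.log (Real.log x)) ∧
    (α ∉ P → ∃ᶠ x : ℕ in atTop, ∑ p ∈ (Icc 1 x).filter (QLR ε α γ), 1 / (p : ℝ) ≤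
      K' * ε * Real.log (Real.log x)) := by
  obtain ⟨K₁, hK₁, hev⟩ := density_event
  obtain ⟨K₂, hK₂, hfr⟩ := density_freq
  refine ⟨K₁ + K₂, by positivity, ?_⟩
  intro γ ε η A hγ hγ1 hε hε1 hη
  obtain ⟨C₅, hC₅, n₀, hn₀⟩ := block_bad2 γ ε η A hγ hγ1 hε hε1 hη
  obtain ⟨n₂, hn₂⟩ := Filter.eventually_atTop.1 (cn_inv_le γ hγ hγ1)
  have hex : ∀ n, ∃ Bad : Finset ℕ, n₀ ≤ n → (Bad.card : ℝ) ≤ C₅ ∧ ∀ α : ℝ, 1 + η ≤ α → α ≤ A →
      ⌊α * cn γ n⌋₊ ∉ Bad →
      (((Ioc (2 ^ (n - 1)) (2 ^ n)).filter (fun p : ℕ => p.Prime ∧ ¬ LRr ε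
        ((Real.log p) ^ α * Real.exp (-(Real.log (Real.log p)) ^ γ))
        ((Real.log p) ^ α * Real.exp ((Real.log (Real.log p)) ^ γ)) p)).card : ℝ) ≤
        ε * Nat.primeCounting (2 ^ n) := by
    intro n
    by_cases hn : n₀ ≤ n
    · obtain ⟨B, hB⟩ := hn₀ n hn
      exact ⟨B, fun _ => hB⟩
    · exact ⟨∅, fun h => absurd h hn⟩
  choose Bad hBad using hex
  set F : ℕ → Set ℝ := fun n => {α | 0 ≤ α ∧ ⌊α * cn γ n⌋₊ ∈ Bad n} with hF
  set n₁ := max n₀ n₂ with hn₁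
  set δ : ℕ → ℝ := fun i => 4 * ((2 : ℝ) ^ (γ - 1)) ^ i with hδd
  have hr0 : 0 < (2 : ℝ) ^ (γ - 1) := by positivity
  have hr1 : (2 : ℝ) ^ (γ - 1) < 1 := Real.rpow_lt_one_of_one_lt_of_neg (by norm_num) (by linarith)
  have hδ : ∀ i, 0 < δ i := by
    intro i
    rw [hδd]
    positivity
  have hanti : Antitone δ := by
    apply antitone_nat_of_succ_le
    intro i
    rw [hδd]
    simp only
    have h1 : ((2 : ℝ) ^ (γ - 1)) ^ (i + 1) ≤ ((2 : ℝ) ^ (γ - 1)) ^ i :=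
      pow_le_pow_of_le_one hr0.le hr1.le (by omega)
    linarith
  have hδ0 : Tendsto δ atTop (𝓝 0) := by
    have h1 := (tendsto_pow_atTop_nhds_zero_of_lt_one hr0.le hr1).const_mul 4
    rwa [mul_zero] at h1
  have hcov : ∀ i n : ℕ, n₁ ≤ n → (2 : ℝ) ^ i ≤ Real.log n → Real.log n < 2 ^ (i + 1) →
      ∃ G : Finset ℤ, (G.card : ℝ) ≤ 2 * C₅ ∧ ∀ α ∈ F n, ⌊α / δ i⌋ ∈ G := by
    intro i n hn hi1 hi2
    have h1 : n₀ ≤ n := le_trans (le_max_left _ _) hn
    have h2 : n₂ ≤ n := le_trans (le_max_right _ _) hn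
    obtain ⟨hc0, hc1⟩ := hn₂ n h2
    have h3 : (cn γ n)⁻¹ ≤ δ i := by
      refine hc1.trans ?_
      rw [hδd]
      simp only
      have h4 : (Real.log n) ^ (γ - 1) ≤ ((2 : ℝ) ^ i) ^ (γ - 1) :=
        Real.rpow_le_rpow_of_nonpos (by positivity) hi1 (by linarith)
      have h5 : ((2 : ℝ) ^ i) ^ (γ - 1) = ((2 : ℝ) ^ (γ - 1)) ^ i := by
        rw [← Real.rpow_natCast, ← Real.rpow_mul (by norm_num), mul_comm, Real.rpow_mul (by norm_num),
          Real.rpow_natCast]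
      rw [h5] at h4
      linarith
    obtain ⟨G, hG1, hG2⟩ := cell_cover (cn γ n) 0 (δ i) hc0 (hδ i) h3 (Bad n)
    refine ⟨G, hG1.trans (by
      have := (hBad n h1).1
      linarith), ?_⟩
    intro α hα
    rw [hF] at hα
    obtain ⟨hα0, hαB⟩ := hα
    have h4 : 0 ≤ α * cn γ n := by positivity
    apply hG2 α _ hαB
    · rw [add_zero]
      exact Nat.floor_le h4
    · rw [add_zero]
      exact Nat.lt_floor_add_one _
  refine ⟨{α : ℝ | ∃ᶠ N : ℕ in atTop, ε * Real.log N < ∑ n ∈ range N, aS n₁ {n | α ∈ F n} n},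
    {α : ℝ | ∀ᶠ N : ℕ in atTop, ε * Real.log N ≤ ∑ n ∈ range N, aS n₁ {n | α ∈ F n} n}, ?_, ?_, ?_⟩
  · -- dimension zero
    have h1 : ∀ s : ℝ≥0, 0 < s → dimH {α : ℝ | ∃ᶠ N : ℕ in atTop, ε * Real.log N <
      ∑ n ∈ range N, aS n₁ {n | α ∈ F n} n} ≤ s := by
      intro s hs
      apply dim_generic F n₁ δ (fun _ => 2 * C₅) hδ hanti hδ0 (fun _ => by positivity) hcov s hs _ ε hε
      have hs0 : (0 : ℝ) < s := by exact_mod_cast hs
      have h2 : (fun i : ℕ => 2 * C₅ * (δ i) ^ (s : ℝ)) =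
          fun i : ℕ => (2 * C₅ * 4 ^ (s : ℝ)) * (((2 : ℝ) ^ (γ - 1)) ^ (s : ℝ)) ^ i := by
        funext i
        rw [hδd]
        simp only
        rw [Real.mul_rpow (by norm_num) (by positivity)]
        have h3 : (((2 : ℝ) ^ (γ - 1)) ^ i) ^ (s : ℝ) = (((2 : ℝ) ^ (γ - 1)) ^ (s : ℝ)) ^ i := by
          rw [← Real.rpow_natCast, ← Real.rpow_mul hr0.le, mul_comm, Real.rpow_mul hr0.le,
            Real.rpow_natCast]
        rw [h3]
        ring
      rw [h2]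
      apply Summable.mul_left
      apply summable_geometric_of_lt_one (by positivity)
      exact Real.rpow_lt_one hr0.le hr1 hs0
    apply le_antisymm _ (zero_le)
    apply ENNReal.le_of_forall_pos_le_add
    intro s hs _
    rw [zero_add]
    exact h1 s hs
  · exact (finite_generic F n₁ δ (2 * C₅) hδ hδ0 (by positivity) hcov ε hε).countable
  · intro α hα1 hα2
    have hα0 : 0 ≤ α := by linarith
    have hlev : ∀ n, n₁ ≤ n → n ∉ {n | α ∈ F n} →
        (((Ioc (2 ^ (n - 1)) (2 ^ n)).filter (QLR ε α γ)).card : ℝ) ≤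
        ε * Nat.primeCounting (2 ^ n) := by
      intro n hn hnS
      have h1 : n₀ ≤ n := le_trans (le_max_left _ _) hn
      have h2 := (hBad n h1).2 α hα1 hα2 (fun h => hnS ⟨hα0, h⟩)
      have h3 : (Ioc (2 ^ (n - 1)) (2 ^ n)).filter (QLR ε α γ) =
          (Ioc (2 ^ (n - 1)) (2 ^ n)).filter (fun p : ℕ => p.Prime ∧ ¬ LRr ε
          ((Real.log p) ^ α * Real.exp (-(Real.log (Real.log p)) ^ γ))
          ((Real.log p) ^ α * Real.exp ((Real.log (Real.log p)) ^ γ)) p) := by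
        ext p
        rw [mem_filter, mem_filter]
        rfl
      rw [h3]
      exact h2
    have hK : ∀ x : ℕ, 0 ≤ Real.log (Real.log x) → K₁ * ε * Real.log (Real.log x) ≤
        (K₁ + K₂) * ε * Real.log (Real.log x) ∧ K₂ * ε * Real.log (Real.log x) ≤
        (K₁ + K₂) * ε * Real.log (Real.log x) := by
      intro x hx
      constructor
      · gcongr
        linarith
      · gcongr
        linarith
    constructor
    · intro hE
      rw [Set.mem_ofPred_eq, not_frequently] at hE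
      have h1 := hev (QLR ε α γ) n₁ {n | α ∈ F n} ε (fun p hp => hp.1) hε hε1 hlev (by
        filter_upwards [hE] with N hN
        rw [not_lt] at hN
        exact hN)
      filter_upwards [h1, tendsto_loglog_nat.eventually_ge_atTop 0] with x h2 h3
      exact h2.trans (hK x h3).1
    · intro hP
      rw [Set.mem_ofPred_eq, not_eventually] at hP
      have h1 := hfr (QLR ε α γ) n₁ {n | α ∈ F n} ε (fun p hp => hp.1) hε hε1 hlev (by
        refine hP.mono ?_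
        intro N hN
        rw [not_le] at hN
        exact hN.le)
      refine (h1.and_eventually (tendsto_loglog_nat.eventually_ge_atTop 0)).mono ?_
      rintro x ⟨h2, h3⟩
      exact h2.trans (hK x h3).2

end Pool.Agent.H.MP_711652_nt
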