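import Mathlib
import Pool.Agent.H.MP_711652_nt.ExpoG

set_option autoImplicit false

namespace Pool.Agent.H.MP_711652_nt

open Finset MeasureTheory Filter Topology

lemma LRr_mono2 (ε ε' a a' b b' : ℝ) (p : ℕ) (hε : ε ≤ ε') (ha : a ≤ a') (hb : b' ≤ b)
    (h : LRr ε a b p) : LRr ε' a' b' p := by
  obtain ⟨μ, hμ, h1⟩ := h
  refine ⟨μ, hμ, fun h r hh hr hrb => ?_⟩
  have h2 := h1 h r (ha.trans hh) hr (hrb.trans hb)
  have h3 : ((Icc (p - r) (p + r)).filter (fun y => ε' * (μ * h) < |(cnt y h : ℝ) - μ * h|)).card ≤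
      ((Icc (p - r) (p + r)).filter (fun y => ε * (μ * h) < |(cnt y h : ℝ) - μ * h|)).card := by
    apply card_le_card
    intro y hy
    rw [mem_filter] at hy ⊢
    refine ⟨hy.1, lt_of_le_of_lt ?_ hy.2⟩
    gcongr
  have h4 : (((Icc (p - r) (p + r)).filter (fun y => ε' * (μ * h) < |(cnt y h : ℝ) - μ * h|)).card : ℝ) ≤
      (((Icc (p - r) (p + r)).filter (fun y => ε * (μ * h) < |(cnt y h : ℝ) - μ * h|)).card : ℝ) := by
    exact_mod_cast h3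
  calc _ ≤ _ := h4
    _ ≤ ε * (2 * r + 1) := h2
    _ ≤ _ := by gcongr

open Classical in
/-- Comparison of the parameters. -/
lemma QLR_compare (K' : ℝ) (hK' : 0 < K') (α γ ε τ : ℝ) (hα1 : 1 < α) (hγ : γ < 1) (hε : 0 < ε)
    (hτ : 0 < τ) : ∃ m : ℕ, 2 ≤ m ∧ 1 + 1 / (m : ℝ) ≤ α ∧ α ≤ m ∧ K' * (1 / (m : ℝ)) ≤ τ / 2 ∧
    ∃ D : ℝ, ∀ x : ℕ, ∑ p ∈ (Icc 1 x).filter (QLR ε α γ), 1 / (p : ℝ) ≤
      ∑ p ∈ (Icc 1 x).filter (QLR (1 / (m : ℝ)) α (1 - 1 / (m : ℝ))), 1 / (p : ℝ) + D := by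
  obtain ⟨m, hm⟩ := exists_nat_ge (max (max (max 2 α) (1 / (α - 1))) (max (max (1 / (1 - γ)) (1 / ε)) (2 * K' / τ)))
  simp only [max_le_iff] at hm
  obtain ⟨⟨⟨m1, m2⟩, m3⟩, ⟨m4, m5⟩, m6⟩ := hm
  have hm0 : (0 : ℝ) < m := by linarith
  have m1' : 2 ≤ m := by exact_mod_cast m1
  have hinv : ∀ z : ℝ, 0 < z → 1 / z ≤ m → 1 / (m : ℝ) ≤ z := by
    intro z hz h
    rw [div_le_iff₀ hz] at h
    rw [div_le_iff₀ hm0]
    linarith
  have k3 := hinv (α - 1) (by linarith) m3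
  have k4 := hinv (1 - γ) (by linarith) m4
  have k5 := hinv ε hε m5
  have k6 : K' * (1 / (m : ℝ)) ≤ τ / 2 := by
    rw [div_le_iff₀ hτ] at m6
    rw [mul_one_div, div_le_iff₀ hm0]
    linarith
  set M₀ := ⌈Real.exp (Real.exp 1)⌉₊ with hM₀
  set D := ∑ p ∈ Icc 1 M₀, 1 / (p : ℝ) with hD
  refine ⟨m, m1', by linarith, m2, k6, D, ?_⟩
  intro x
  have hsub : (Icc 1 x).filter (QLR ε α γ) ⊆
      (Icc 1 x).filter (QLR (1 / (m : ℝ)) α (1 - 1 / (m : ℝ))) ∪ Icc 1 M₀ := by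
    intro p hp
    rw [mem_filter, mem_Icc] at hp
    obtain ⟨⟨h2, h3⟩, h4, h5⟩ := hp
    rw [mem_union]
    by_cases hpM : p ≤ M₀
    · right
      exact mem_Icc.2 ⟨h2, hpM⟩
    · left
      rw [mem_filter, mem_Icc]
      refine ⟨⟨h2, h3⟩, h4, fun hlr => h5 ?_⟩
      push Not at hpM
      have h6 : Real.exp (Real.exp 1) ≤ p := by
        refine (Nat.le_ceil _).trans ?_
        exact_mod_cast hpM.le
      have hp0 : (0 : ℝ) < p := lt_of_lt_of_le (Real.exp_pos _) h6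
      have h7 : Real.exp 1 ≤ Real.log p := by
        rwa [Real.le_log_iff_exp_le hp0]
      have h8 : 0 < Real.log p := lt_of_lt_of_le (Real.exp_pos _) h7
      have h9 : 1 ≤ Real.log (Real.log p) := by
        rwa [Real.le_log_iff_exp_le h8]
      have h10 : (Real.log (Real.log p)) ^ γ ≤ (Real.log (Real.log p)) ^ (1 - 1 / (m : ℝ)) :=
        Real.rpow_le_rpow_of_exponent_le h9 (by linarith)
      have h11 : 0 ≤ (Real.log p) ^ α := Real.rpow_nonneg h8.le α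
      apply LRr_mono2 _ _ _ _ _ _ p k5 _ _ hlr
      · apply mul_le_mul_of_nonneg_left _ h11
        apply Real.exp_le_exp.2
        linarith
      · exact mul_le_mul_of_nonneg_left (Real.exp_le_exp.2 h10) h11
  refine (sum_le_sum_of_subset_of_nonneg hsub (fun p _ _ => by positivity)).trans ?_
  have h2 := sum_union_inter (s₁ := (Icc 1 x).filter (QLR (1 / (m : ℝ)) α (1 - 1 / (m : ℝ))))
    (s₂ := Icc 1 M₀) (f := fun p : ℕ => 1 / (p : ℝ))
  have h3 : 0 ≤ ∑ p ∈ (Icc 1 x).filter (QLR (1 / (m : ℝ)) α (1 - 1 / (m : ℝ))) ∩ Icc 1 M₀,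
      1 / (p : ℝ) := by
    apply sum_nonneg
    intro p _
    positivity
  linarith

open Classical in
theorem exceptional_exponents :
    (∃ E : Set ℝ, dimH E = 0 ∧ ∀ α : ℝ, 1 < α → α ∉ E → ∀ γ ε : ℝ, γ < 1 → 0 < ε →
      ∀ τ : ℝ, 0 < τ → ∀ᶠ x : ℕ in atTop, ∑ p ∈ (Icc 1 x).filter (QLR ε α γ), 1 / (p : ℝ) ≤
        τ * Real.log (Real.log x)) ∧
    (∃ P : Set ℝ, P.Countable ∧ ∀ α : ℝ, 1 < α → α ∉ P → ∀ γ ε : ℝ, γ < 1 → 0 < ε →
      ∀ τ : ℝ, 0 < τ → ∃ᶠ x : ℕ in atTop, ∑ p ∈ (Icc 1 x).filter (QLR ε α γ), 1 / (p : ℝ) ≤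
        τ * Real.log (Real.log x)) := by
  obtain ⟨K', hK', hmain⟩ := expo_sets
  have hex : ∀ m : ℕ, ∃ E P : Set ℝ, dimH E = 0 ∧ P.Countable ∧ (2 ≤ m → ∀ α : ℝ,
      1 + 1 / (m : ℝ) ≤ α → α ≤ m →
      (α ∉ E → ∀ᶠ x : ℕ in atTop,
        ∑ p ∈ (Icc 1 x).filter (QLR (1 / (m : ℝ)) α (1 - 1 / (m : ℝ))), 1 / (p : ℝ) ≤
        K' * (1 / (m : ℝ)) * Real.log (Real.log x)) ∧
      (α ∉ P → ∃ᶠ x : ℕ in atTop,
        ∑ p ∈ (Icc 1 x).filter (QLR (1 / (m : ℝ)) α (1 - 1 / (m : ℝ))), 1 / (p : ℝ) ≤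
        K' * (1 / (m : ℝ)) * Real.log (Real.log x))) := by
    intro m
    rcases Nat.lt_or_ge m 2 with hm | hm
    · exact ⟨∅, ∅, by simp, Set.countable_empty, fun h => absurd h (by omega)⟩
    · have hm' : (2 : ℝ) ≤ m := by exact_mod_cast hm
      have hm1 : 0 < 1 / (m : ℝ) := by positivity
      have hm2 : 1 / (m : ℝ) ≤ 1 / 2 := one_div_le_one_div_of_le (by norm_num) hm'
      obtain ⟨E, P, h1, h2, h3⟩ := hmain (1 - 1 / (m : ℝ)) (1 / m) (1 / m) m (by linarith) (by linarith)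
        hm1 (by linarith) hm1
      exact ⟨E, P, h1, h2, fun _ => h3⟩
  choose E P hE hP hEP using hex
  constructor
  · refine ⟨⋃ m, E m, ?_, ?_⟩
    · rw [dimH_iUnion]
      simp [hE]
    · intro α hα1 hαE γ ε hγ hε τ hτ
      obtain ⟨m, h1, h2, h3, h4, D, h5⟩ := QLR_compare K' hK' α γ ε τ hα1 hγ hε hτ
      have h6 := ((hEP m h1 α h2 h3).1 (fun h => hαE (Set.mem_iUnion.2 ⟨m, h⟩)))
      have e1 := tendsto_loglog_nat.eventually_ge_atTop (max 0 (2 * D / τ))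
      filter_upwards [h6, e1] with x f1 f2
      have f2a : 0 ≤ Real.log (Real.log x) := le_trans (le_max_left _ _) f2
      have f2b : D ≤ τ / 2 * Real.log (Real.log x) := by
        have := le_trans (le_max_right _ _) f2
        rw [div_le_iff₀ hτ] at this
        linarith
      calc _ ≤ _ := h5 x
        _ ≤ K' * (1 / (m : ℝ)) * Real.log (Real.log x) + τ / 2 * Real.log (Real.log x) := by
            gcongr
        _ ≤ τ / 2 * Real.log (Real.log x) + τ / 2 * Real.log (Real.log x) := by gcongr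
        _ = _ := by ring
  · refine ⟨⋃ m, P m, Set.countable_iUnion hP, ?_⟩
    intro α hα1 hαP γ ε hγ hε τ hτ
    obtain ⟨m, h1, h2, h3, h4, D, h5⟩ := QLR_compare K' hK' α γ ε τ hα1 hγ hε hτ
    have h6 := ((hEP m h1 α h2 h3).2 (fun h => hαP (Set.mem_iUnion.2 ⟨m, h⟩)))
    have e1 := tendsto_loglog_nat.eventually_ge_atTop (max 0 (2 * D / τ))
    refine (h6.and_eventually e1).mono ?_
    rintro x ⟨f1, f2⟩
    have f2a : 0 ≤ Real.log (Real.log x) := le_trans (le_max_left _ _) f2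
    have f2b : D ≤ τ / 2 * Real.log (Real.log x) := by
      have := le_trans (le_max_right _ _) f2
      rw [div_le_iff₀ hτ] at this
      linarith
    calc _ ≤ _ := h5 x
      _ ≤ K' * (1 / (m : ℝ)) * Real.log (Real.log x) + τ / 2 * Real.log (Real.log x) := by
          gcongr
      _ ≤ τ / 2 * Real.log (Real.log x) + τ / 2 * Real.log (Real.log x) := by gcongr
      _ = _ := by ring

end Pool.Agent.H.MP_711652_nt
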