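import Mathlib
import Pool.Agent.H.MP_711652_nt.MaxGap
import Pool.Agent.H.MP_711652_nt.Avg

set_option autoImplicit false

namespace Pool.Agent.H.MP_711652_nt

open Finset

open Classical in
/-- Level sets of the maximal function of `g`. -/
noncomputable def Lev (M : ℕ) (g : ℕ → ℝ) (t : ℕ) : Finset ℕ :=
  (range M).filter (fun k => ∃ ρ : ℕ, (2 : ℝ) ^ t * (2 * ρ + 1) < ∑ j ∈ Icc (k - ρ) (k + ρ), g j)

open Classical in
/-- A dyadic version of the maximal function. -/
noncomputable def Wt (M : ℕ) (g : ℕ → ℝ) (T k : ℕ) : ℝ :=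
  1 + ∑ t ∈ range T, if k ∈ Lev M g t then (2 : ℝ) ^ t else 0

lemma Wt_one_le (M : ℕ) (g : ℕ → ℝ) (T k : ℕ) : 1 ≤ Wt M g T k := by
  unfold Wt
  have : 0 ≤ ∑ t ∈ range T, if k ∈ Lev M g t then (2 : ℝ) ^ t else 0 := by
    apply sum_nonneg
    intro t _
    split_ifs <;> positivity
  linarith

lemma window_le (M : ℕ) (g : ℕ → ℝ) (k ρ : ℕ) (hk : k < M) (T : ℕ)
    (hT : ∑ j ∈ Icc (k - ρ) (k + ρ), g j ≤ 2 ^ T * (2 * ρ + 1)) :
    ∑ j ∈ Icc (k - ρ) (k + ρ), g j ≤ (2 * ρ + 1) * Wt M g T k := by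
  classical
  induction T with
  | zero =>
    have h1 := Wt_one_le M g 0 k
    have h0 : (0 : ℝ) ≤ 2 * ρ + 1 := by positivity
    calc _ ≤ _ := hT
      _ = (2 * (ρ : ℝ) + 1) * 1 := by ring
      _ ≤ _ := by gcongr
  | succ T ih =>
    by_cases h : ∑ j ∈ Icc (k - ρ) (k + ρ), g j ≤ 2 ^ T * (2 * ρ + 1)
    · refine (ih h).trans ?_
      have h0 : (0 : ℝ) ≤ 2 * ρ + 1 := by positivity
      apply mul_le_mul_of_nonneg_left _ h0
      unfold Wt
      rw [sum_range_succ]
      have : (0 : ℝ) ≤ if k ∈ Lev M g T then (2 : ℝ) ^ T else 0 := by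
        split_ifs <;> positivity
      linarith
    · push Not at h
      have h0 : (0 : ℝ) ≤ 2 * ρ + 1 := by positivity
      have h1 : ∀ t ∈ range (T + 1), (if k ∈ Lev M g t then (2 : ℝ) ^ t else 0) = 2 ^ t := by
        intro t ht
        rw [mem_range] at ht
        rw [if_pos]
        unfold Lev
        rw [mem_filter, mem_range]
        refine ⟨hk, ρ, lt_of_le_of_lt ?_ h⟩
        apply mul_le_mul_of_nonneg_right _ h0
        exact pow_le_pow_right₀ (by norm_num) (by omega)
      have h2 : Wt M g (T + 1) k = 2 ^ (T + 1) := by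
        unfold Wt
        rw [sum_congr rfl h1, geom_sum_eq (by norm_num)]
        ring
      rw [h2]
      calc _ ≤ _ := hT
        _ = _ := by ring

lemma lev_card (M : ℕ) (g : ℕ → ℝ) (hg : ∀ k, 0 ≤ g k) (hgM : ∀ k, M ≤ k → g k = 0) (t : ℕ) :
    (2 : ℝ) ^ t * ((Lev M g t).card : ℝ) ≤
      8 * ∑ j ∈ range M, (if (2 : ℝ) ^ t / 2 < g j then g j else 0) := by
  classical
  set g' : ℕ → ℝ := fun j => if (2 : ℝ) ^ t / 2 < g j then g j else 0 with hg'
  have h1 := max_two M g' (by
    intro k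
    rw [hg']
    simp only
    split_ifs
    · exact hg k
    · exact le_rfl) (by
    intro k hk
    rw [hg']
    simp only
    rw [hgM k hk]
    split_ifs <;> rfl) ((2 : ℝ) ^ t / 2) (by positivity)
  have h2 : ((Lev M g t).card : ℝ) ≤ (((range M).filter (fun k => ∃ ρ : ℕ,
      (2 : ℝ) ^ t / 2 * (2 * ρ + 1) < ∑ j ∈ Icc (k - ρ) (k + ρ), g' j)).card : ℝ) := by
    have : (Lev M g t).card ≤ ((range M).filter (fun k => ∃ ρ : ℕ,
      (2 : ℝ) ^ t / 2 * (2 * ρ + 1) < ∑ j ∈ Icc (k - ρ) (k + ρ), g' j)).card := by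
      apply card_le_card
      intro k hk
      unfold Lev at hk
      rw [mem_filter] at hk ⊢
      obtain ⟨hk1, ρ, hρ⟩ := hk
      refine ⟨hk1, ρ, ?_⟩
      have h3 : ∑ j ∈ Icc (k - ρ) (k + ρ), g j ≤
          ∑ j ∈ Icc (k - ρ) (k + ρ), g' j + (2 : ℝ) ^ t / 2 * (2 * ρ + 1) := by
        have h4 : ∀ j ∈ Icc (k - ρ) (k + ρ), g j ≤ g' j + (2 : ℝ) ^ t / 2 := by
          intro j _
          rw [hg']
          simp only
          have h5 : (0 : ℝ) < 2 ^ t := by positivity
          split_ifs with h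
          · linarith
          · push Not at h
            linarith
        refine (sum_le_sum h4).trans ?_
        rw [sum_add_distrib, sum_const, nsmul_eq_mul, Nat.card_Icc]
        have h5 : ((k + ρ + 1 - (k - ρ) : ℕ) : ℝ) ≤ 2 * ρ + 1 := by
          have : k + ρ + 1 - (k - ρ) ≤ 2 * ρ + 1 := by omega
          exact_mod_cast this
        have h6 : (0 : ℝ) ≤ 2 ^ t / 2 := by positivity
        nlinarith
      nlinarith
    exact_mod_cast this
  have h3 : (2 : ℝ) ^ t / 2 * ((Lev M g t).card : ℝ) ≤ 4 * ∑ j ∈ range M, g' j := by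
    refine le_trans ?_ h1
    gcongr
  linarith

lemma sum_Wt (M : ℕ) (g : ℕ → ℕ) (hgM : ∀ k, M ≤ k → g k = 0) (T : ℕ) :
    ∑ k ∈ range M, Wt M (fun k => (g k : ℝ)) T k ≤ M + 8 * ∑ k ∈ range M, (g k : ℝ) ^ 2 := by
  classical
  set G : ℕ → ℝ := fun k => (g k : ℝ) with hG
  have h1 : ∑ k ∈ range M, Wt M G T k = M + ∑ t ∈ range T, (2 : ℝ) ^ t * ((Lev M G t).card : ℝ) := by
    unfold Wt
    rw [sum_add_distrib, sum_const, card_range, nsmul_eq_mul, mul_one, sum_comm]
    congr 1
    apply sum_congr rfl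
    intro t _
    rw [← sum_filter, sum_const, nsmul_eq_mul, mul_comm]
    congr 2
    apply congrArg
    ext k
    rw [mem_filter]
    constructor
    · exact fun h => h.2
    · intro h
      refine ⟨?_, h⟩
      unfold Lev at h
      exact (mem_filter.1 h).1
  rw [h1]
  have h2 : ∀ t ∈ range T, (2 : ℝ) ^ t * ((Lev M G t).card : ℝ) ≤
      8 * ∑ j ∈ range M, (if (2 : ℝ) ^ t / 2 < G j then G j else 0) := by
    intro t _
    apply lev_card M G (fun k => Nat.cast_nonneg _)
    intro k hk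
    rw [hG]
    simp only
    rw [hgM k hk]
    norm_num
  have h3 : ∑ t ∈ range T, (2 : ℝ) ^ t * ((Lev M G t).card : ℝ) ≤
      8 * ∑ k ∈ range M, (g k : ℝ) ^ 2 := by
    refine (sum_le_sum h2).trans ?_
    rw [← mul_sum, sum_comm]
    have h4 : ∑ j ∈ range M, ∑ t ∈ range T, (if (2 : ℝ) ^ t / 2 < G j then G j else 0) ≤
        ∑ k ∈ range M, (g k : ℝ) ^ 2 := by
      apply sum_le_sum
      intro j _
      rw [← sum_filter, sum_const, nsmul_eq_mul]
      have h5 : (range T).filter (fun t => (2 : ℝ) ^ t / 2 < G j) ⊆ range (g j) := by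
        intro t ht
        rw [mem_filter, mem_range] at ht
        rw [mem_range]
        have h6 : (2 : ℝ) ^ t < 2 * g j := by
          have := ht.2
          rw [hG] at this
          simp only at this
          linarith
        have h7 : 2 ^ t < 2 * g j := by exact_mod_cast h6
        rcases Nat.eq_zero_or_pos t with h | h
        · subst h
          omega
        · have h8 : 2 * t ≤ 2 ^ t := by
            obtain ⟨s, rfl⟩ : ∃ s, t = s + 1 := ⟨t - 1, by omega⟩
            rw [pow_succ]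
            have : s < 2 ^ s := Nat.lt_two_pow_self
            omega
          omega
      have h6 : (((range T).filter (fun t => (2 : ℝ) ^ t / 2 < G j)).card : ℝ) ≤ g j := by
        have := card_le_card h5
        rw [card_range] at this
        exact_mod_cast this
      calc (((range T).filter (fun t => (2 : ℝ) ^ t / 2 < G j)).card : ℝ) * G j ≤ g j * G j := by
            apply mul_le_mul_of_nonneg_right h6
            exact Nat.cast_nonneg _
        _ = (g j : ℝ) ^ 2 := by rw [hG]; ring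
    linarith
  linarith

end Pool.Agent.H.MP_711652_nt
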