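import Mathlib
import Pool.Agent.H.MP_711652_nt.ScaleA

set_option autoImplicit false

namespace Pool.Agent.H.MP_711652_nt

open Finset

lemma half_lt {i k b : ℕ} (hik : i < k) : 2 ^ i * b ≤ 2 ^ k * b / 2 := by
  rw [Nat.le_div_iff_mul_le (by norm_num)]
  calc 2 ^ i * b * 2 = 2 ^ (i + 1) * b := by rw [pow_succ]; ring
    _ ≤ 2 ^ k * b := Nat.mul_le_mul_right b (Nat.pow_le_pow_right (by norm_num) hik)

/-- Weighted points, right side. -/
lemma weight_right (b N : ℕ) (J : Finset ℕ) (Q : ℕ → Finset ℕ) (w : ℕ → ℝ) (hw : ∀ y, 0 ≤ w y)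
    (hQ : ∀ j ∈ J, ∀ q ∈ Q j, q.Prime ∧ PrimeFree q (2 ^ j * b) ∧ q + 2 ^ j * b ≤ N) :
    ∑ j ∈ J, ∑ q ∈ Q j, ∑ y ∈ Ioc (q + 2 ^ j * b / 2) (q + 2 ^ j * b), w y ≤
      ∑ y ∈ range (N + 1), w y := by
  classical
  set Pt : Finset (Sigma (fun _ : ℕ => Sigma (fun _ : ℕ => ℕ))) :=
    J.sigma (fun j => (Q j).sigma (fun q => Ioc (q + 2 ^ j * b / 2) (q + 2 ^ j * b))) with hPt
  have h1 : ∑ j ∈ J, ∑ q ∈ Q j, ∑ y ∈ Ioc (q + 2 ^ j * b / 2) (q + 2 ^ j * b), w y =
      ∑ t ∈ Pt, w t.2.2 := by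
    rw [hPt, sum_sigma]
    apply sum_congr rfl
    intro j _
    rw [sum_sigma]
  have hinj : Set.InjOn (fun t : Sigma (fun _ : ℕ => Sigma (fun _ : ℕ => ℕ)) => t.2.2) Pt := by
    rintro ⟨j, q, n⟩ ht ⟨j', q', n'⟩ ht' hnn
    rw [Finset.mem_coe, hPt, mem_sigma, mem_sigma] at ht ht'
    obtain ⟨hj, hq, hn⟩ := ht
    obtain ⟨hj', hq', hn'⟩ := ht'
    simp only at hj hq hn hj' hq' hn' hnn
    rw [mem_Ioc] at hn hn'
    subst hnn
    obtain ⟨a1, a2, -⟩ := hQ j hj q hq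
    obtain ⟨b1, b2, -⟩ := hQ j' hj' q' hq'
    have hqq : q = q' := by
      rcases lt_trichotomy q q' with h | h | h
      · exact absurd b1 (a2 q' h (by omega))
      · exact h
      · exact absurd a1 (b2 q h (by omega))
    subst hqq
    have hjj : j = j' := by
      rcases lt_trichotomy j j' with h | h | h
      · have := half_lt (b := b) h; omega
      · exact h
      · have := half_lt (b := b) h; omega
    subst hjj
    rfl
  rw [h1, ← sum_image (s := Pt) (g := fun t : Sigma (fun _ : ℕ => Sigma (fun _ : ℕ => ℕ)) => t.2.2)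
    (f := w) hinj]
  apply sum_le_sum_of_subset_of_nonneg
  · intro y hy
    rw [mem_image] at hy
    obtain ⟨⟨j, q, n⟩, ht, rfl⟩ := hy
    rw [hPt, mem_sigma, mem_sigma] at ht
    obtain ⟨hj, hq, hn⟩ := ht
    simp only at hj hq hn
    rw [mem_Ioc] at hn
    have := (hQ j hj q hq).2.2
    rw [mem_range]
    simp only
    omega
  · intro y _ _
    exact hw y

/-- Weighted points, left side. -/
lemma weight_left (b N : ℕ) (J : Finset ℕ) (Q : ℕ → Finset ℕ) (w : ℕ → ℝ) (hw : ∀ y, 0 ≤ w y)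
    (hQ : ∀ j ∈ J, ∀ q ∈ Q j, q.Prime ∧ 2 ^ j * b < q ∧ PrimeFree (q - 1 - 2 ^ j * b) (2 ^ j * b) ∧ q ≤ N) :
    ∑ j ∈ J, ∑ q ∈ Q j, ∑ y ∈ Ico (q - 2 ^ j * b) (q - 2 ^ j * b / 2), w y ≤
      ∑ y ∈ range (N + 1), w y := by
  classical
  set Pt : Finset (Sigma (fun _ : ℕ => Sigma (fun _ : ℕ => ℕ))) :=
    J.sigma (fun j => (Q j).sigma (fun q => Ico (q - 2 ^ j * b) (q - 2 ^ j * b / 2))) with hPt
  have h1 : ∑ j ∈ J, ∑ q ∈ Q j, ∑ y ∈ Ico (q - 2 ^ j * b) (q - 2 ^ j * b / 2), w y =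
      ∑ t ∈ Pt, w t.2.2 := by
    rw [hPt, sum_sigma]
    apply sum_congr rfl
    intro j _
    rw [sum_sigma]
  have hinj : Set.InjOn (fun t : Sigma (fun _ : ℕ => Sigma (fun _ : ℕ => ℕ)) => t.2.2) Pt := by
    rintro ⟨j, q, n⟩ ht ⟨j', q', n'⟩ ht' hnn
    rw [Finset.mem_coe, hPt, mem_sigma, mem_sigma] at ht ht'
    obtain ⟨hj, hq, hn⟩ := ht
    obtain ⟨hj', hq', hn'⟩ := ht'
    simp only at hj hq hn hj' hq' hn' hnn
    rw [mem_Ico] at hn hn'
    subst hnn
    obtain ⟨a1, a2, a3, -⟩ := hQ j hj q hq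
    obtain ⟨b1, b2, b3, -⟩ := hQ j' hj' q' hq'
    have hqq : q = q' := by
      rcases lt_trichotomy q q' with h | h | h
      · exact absurd a1 (b3 q (by omega) (by omega))
      · exact h
      · exact absurd b1 (a3 q' (by omega) (by omega))
    subst hqq
    have hjj : j = j' := by
      rcases lt_trichotomy j j' with h | h | h
      · have := half_lt (b := b) h; omega
      · exact h
      · have := half_lt (b := b) h; omega
    subst hjj
    rfl
  rw [h1, ← sum_image (s := Pt) (g := fun t : Sigma (fun _ : ℕ => Sigma (fun _ : ℕ => ℕ)) => t.2.2)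
    (f := w) hinj]
  apply sum_le_sum_of_subset_of_nonneg
  · intro y hy
    rw [mem_image] at hy
    obtain ⟨⟨j, q, n⟩, ht, rfl⟩ := hy
    rw [hPt, mem_sigma, mem_sigma] at ht
    obtain ⟨hj, hq, hn⟩ := ht
    simp only at hj hq hn
    rw [mem_Ico] at hn
    have := (hQ j hj q hq).2.2.2
    rw [mem_range]
    simp only
    omega
  · intro y _ _
    exact hw y

/-- Block counts of the primes up to `X`. -/
noncomputable def gX (X b k : ℕ) : ℕ := ((range (X + 1)).filter (fun p => p.Prime ∧ p / b = k)).card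

lemma gX_zero (X b k : ℕ) (hk : X / b < k) : gX X b k = 0 := by
  unfold gX
  rw [card_eq_zero, filter_eq_empty_iff]
  intro p hp
  rw [mem_range] at hp
  rintro ⟨-, h⟩
  have := Nat.div_le_div_right (c := b) (by omega : p ≤ X)
  omega

lemma gX_le (X b k : ℕ) (hb : 0 < b) : gX X b k ≤ Fb b k := by
  unfold gX Fb
  apply card_le_card
  intro p hp
  rw [mem_filter] at hp ⊢
  refine ⟨?_, hp.2⟩
  rw [mem_range]
  rw [← Nat.div_lt_iff_lt_mul hb, hp.2.2]
  omega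

/-- primes `p ≤ X` whose block lies in `S` -/
lemma sum_gX (X b : ℕ) (S : Finset ℕ) :
    ∑ k ∈ S, gX X b k = ((range (X + 1)).filter (fun p => p.Prime ∧ p / b ∈ S)).card := by
  classical
  rw [card_eq_sum_card_fiberwise (f := fun p => p / b) (t := S)]
  · apply sum_congr rfl
    intro k hk
    unfold gX
    congr 1
    ext p
    rw [mem_filter, mem_filter, mem_filter]
    constructor
    · rintro ⟨h1, h2, h3⟩
      exact ⟨⟨h1, h2, by rw [h3]; exact hk⟩, h3⟩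
    · rintro ⟨⟨h1, h2, h3⟩, h4⟩
      exact ⟨h1, h2, h4⟩
  · intro p hp
    rw [mem_coe, mem_filter] at hp
    exact hp.2.2

lemma sum_gX_le (X b : ℕ) (S : Finset ℕ) : ∑ k ∈ S, gX X b k ≤ X + 1 := by
  rw [sum_gX]
  refine (card_filter_le _ _).trans ?_
  rw [card_range]

/-- sum over points versus sum over blocks -/
lemma sum_points (b N M : ℕ) (hNM : N + 1 ≤ M * b) (w : ℕ → ℝ) (hw : ∀ k, 0 ≤ w k) :
    ∑ y ∈ range (N + 1), w (y / b) ≤ b * ∑ k ∈ range M, w k := by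
  calc ∑ y ∈ range (N + 1), w (y / b) ≤ ∑ y ∈ range (M * b), w (y / b) := by
        apply sum_le_sum_of_subset_of_nonneg
        · intro y hy
          rw [mem_range] at hy ⊢
          omega
        · intro y _ _
          exact hw _
    _ = ∑ q ∈ range M, ∑ i ∈ range b, w ((q * b + i) / b) := sum_blocks M b _
    _ = ∑ q ∈ range M, b * w q := by
        apply sum_congr rfl
        intro q _
        rw [sum_congr rfl (fun i hi => by rw [div_block (mem_range.1 hi)]), sum_const, card_range,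
          nsmul_eq_mul]
    _ = _ := by rw [mul_sum]

open Classical in
/-- one gap on the right -/
lemma near_right (X K b j q M T : ℕ) (hb : 0 < b) (hK : 1 ≤ K) (hM : (q + 2 ^ j * b) / b < M)
    (hT : X + 1 ≤ 2 ^ T) :
    (((Icc 1 X).filter (fun p => p.Prime ∧ p ≤ q ∧ q ≤ p + K * (2 ^ j * b))).card : ℝ) * b ≤
      10 * K * ∑ y ∈ Ioc (q + 2 ^ j * b / 2) (q + 2 ^ j * b),
        Wt M (fun k => (gX X b k : ℝ)) T (y / b) := by
  set P := (Icc 1 X).filter (fun p => p.Prime ∧ p ≤ q ∧ q ≤ p + K * (2 ^ j * b)) with hP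
  set H := 2 ^ j * b with hH
  have h2j : 1 ≤ 2 ^ j := Nat.one_le_two_pow
  have hKr : (1 : ℝ) ≤ K := by exact_mod_cast hK
  have h2jr : (1 : ℝ) ≤ 2 ^ j := by exact_mod_cast h2j
  have hbr : (0 : ℝ) < b := by exact_mod_cast hb
  have hy : ∀ y ∈ Ioc (q + H / 2) (q + H), (P.card : ℝ) ≤ 5 * K * 2 ^ j *
      Wt M (fun k => (gX X b k : ℝ)) T (y / b) := by
    intro y hy
    rw [mem_Ioc] at hy
    set k := y / b with hk
    set ρ := (K + 1) * 2 ^ j with hρ
    have hkM : k < M := lt_of_le_of_lt (Nat.div_le_div_right hy.2) hM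
    have h1 : P.card ≤ ∑ i ∈ Icc (k - ρ) (k + ρ), gX X b i := by
      rw [sum_gX]
      apply card_le_card
      intro p hp
      rw [hP, mem_filter, mem_Icc] at hp
      obtain ⟨⟨hp1, hpX⟩, hpp, hpq, hqp⟩ := hp
      rw [mem_filter, mem_range, mem_Icc]
      refine ⟨by omega, hpp, ?_, ?_⟩
      · have h3 : y ≤ p + (K + 1) * 2 ^ j * b := by
          have : (K + 1) * 2 ^ j * b = K * H + H := by rw [hH]; ring
          omega
        have h4 : y / b ≤ (p + (K + 1) * 2 ^ j * b) / b := Nat.div_le_div_right h3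
        rw [Nat.add_mul_div_right _ _ hb] at h4
        exact Nat.sub_le_iff_le_add.2 h4
      · have h3 : p / b ≤ y / b := Nat.div_le_div_right (by omega)
        exact h3.trans (Nat.le_add_right _ _)
    have h2 : ∑ i ∈ Icc (k - ρ) (k + ρ), (gX X b i : ℝ) ≤ (2 * ρ + 1) *
        Wt M (fun k => (gX X b k : ℝ)) T k := by
      apply window_le M _ k ρ hkM T
      have h3 : ∑ i ∈ Icc (k - ρ) (k + ρ), (gX X b i : ℝ) ≤ (X + 1 : ℕ) := by
        exact_mod_cast sum_gX_le X b _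
      have h4 : ((X + 1 : ℕ) : ℝ) ≤ 2 ^ T := by exact_mod_cast hT
      have h5 : (0 : ℝ) ≤ ρ := Nat.cast_nonneg _
      have h6 : (0 : ℝ) < 2 ^ T := by positivity
      nlinarith
    have h3 : (P.card : ℝ) ≤ ∑ i ∈ Icc (k - ρ) (k + ρ), (gX X b i : ℝ) := by exact_mod_cast h1
    refine h3.trans (h2.trans ?_)
    apply mul_le_mul_of_nonneg_right
    · rw [hρ]
      push_cast
      nlinarith
    · linarith [Wt_one_le M (fun k => (gX X b k : ℝ)) T k]
  have h1 := card_nsmul_le_sum _ _ _ hy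
  rw [nsmul_eq_mul, Nat.card_Ioc, ← mul_sum] at h1
  have h2 : (H : ℝ) ≤ 2 * ((q + H - (q + H / 2) : ℕ) : ℝ) := by
    have : H ≤ 2 * (q + H - (q + H / 2)) := by omega
    exact_mod_cast this
  have h3 : (P.card : ℝ) * H ≤ 2 * (5 * K * 2 ^ j * ∑ y ∈ Ioc (q + H / 2) (q + H),
      Wt M (fun k => (gX X b k : ℝ)) T (y / b)) := by
    have h4 : (0 : ℝ) ≤ P.card := Nat.cast_nonneg _
    nlinarith
  have h4 : (H : ℝ) = 2 ^ j * b := by rw [hH]; push_cast; ring
  rw [h4] at h3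
  have h5 : (2 : ℝ) ^ j * ((P.card : ℝ) * b) ≤ 2 ^ j * (10 * K * ∑ y ∈ Ioc (q + H / 2) (q + H),
      Wt M (fun k => (gX X b k : ℝ)) T (y / b)) := by
    calc (2 : ℝ) ^ j * ((P.card : ℝ) * b) = (P.card : ℝ) * (2 ^ j * b) := by ring
      _ ≤ _ := h3
      _ = _ := by ring
  exact le_of_mul_le_mul_left h5 (by positivity)

open Classical in
/-- one gap on the left -/
lemma near_left (X K b j q M T : ℕ) (hb : 0 < b) (hK : 1 ≤ K) (hq : 2 ^ j * b < q) (hM : q / b < M)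
    (hT : X + 1 ≤ 2 ^ T) :
    (((Icc 1 X).filter (fun p => p.Prime ∧ q ≤ p ∧ p ≤ q + K * (2 ^ j * b))).card : ℝ) * b ≤
      10 * K * ∑ y ∈ Ico (q - 2 ^ j * b) (q - 2 ^ j * b / 2),
        Wt M (fun k => (gX X b k : ℝ)) T (y / b) := by
  set P := (Icc 1 X).filter (fun p => p.Prime ∧ q ≤ p ∧ p ≤ q + K * (2 ^ j * b)) with hP
  set H := 2 ^ j * b with hH
  have h2j : 1 ≤ 2 ^ j := Nat.one_le_two_pow
  have hKr : (1 : ℝ) ≤ K := by exact_mod_cast hK
  have h2jr : (1 : ℝ) ≤ 2 ^ j := by exact_mod_cast h2j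
  have hbr : (0 : ℝ) < b := by exact_mod_cast hb
  have hy : ∀ y ∈ Ico (q - H) (q - H / 2), (P.card : ℝ) ≤ 5 * K * 2 ^ j *
      Wt M (fun k => (gX X b k : ℝ)) T (y / b) := by
    intro y hy
    rw [mem_Ico] at hy
    set k := y / b with hk
    set ρ := (K + 1) * 2 ^ j with hρ
    have hkM : k < M := lt_of_le_of_lt (Nat.div_le_div_right (by omega)) hM
    have h1 : P.card ≤ ∑ i ∈ Icc (k - ρ) (k + ρ), gX X b i := by
      rw [sum_gX]
      apply card_le_card
      intro p hp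
      rw [hP, mem_filter, mem_Icc] at hp
      obtain ⟨⟨hp1, hpX⟩, hpp, hpq, hqp⟩ := hp
      rw [mem_filter, mem_range, mem_Icc]
      refine ⟨by omega, hpp, ?_, ?_⟩
      · have h3 : y / b ≤ p / b := Nat.div_le_div_right (by omega)
        exact (Nat.sub_le _ _).trans h3
      · have h3 : p ≤ y + (K + 1) * 2 ^ j * b := by
          have : (K + 1) * 2 ^ j * b = K * H + H := by rw [hH]; ring
          omega
        have h4 : p / b ≤ (y + (K + 1) * 2 ^ j * b) / b := Nat.div_le_div_right h3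
        rw [Nat.add_mul_div_right _ _ hb] at h4
        exact h4
    have h2 : ∑ i ∈ Icc (k - ρ) (k + ρ), (gX X b i : ℝ) ≤ (2 * ρ + 1) *
        Wt M (fun k => (gX X b k : ℝ)) T k := by
      apply window_le M _ k ρ hkM T
      have h3 : ∑ i ∈ Icc (k - ρ) (k + ρ), (gX X b i : ℝ) ≤ (X + 1 : ℕ) := by
        exact_mod_cast sum_gX_le X b _
      have h4 : ((X + 1 : ℕ) : ℝ) ≤ 2 ^ T := by exact_mod_cast hT
      have h5 : (0 : ℝ) ≤ ρ := Nat.cast_nonneg _
      have h6 : (0 : ℝ) < 2 ^ T := by positivity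
      nlinarith
    have h3 : (P.card : ℝ) ≤ ∑ i ∈ Icc (k - ρ) (k + ρ), (gX X b i : ℝ) := by exact_mod_cast h1
    refine h3.trans (h2.trans ?_)
    apply mul_le_mul_of_nonneg_right
    · rw [hρ]
      push_cast
      nlinarith
    · linarith [Wt_one_le M (fun k => (gX X b k : ℝ)) T k]
  have h1 := card_nsmul_le_sum _ _ _ hy
  rw [nsmul_eq_mul, Nat.card_Ico, ← mul_sum] at h1
  have h2 : (H : ℝ) ≤ 2 * ((q - H / 2 - (q - H) : ℕ) : ℝ) := by
    have : H ≤ 2 * (q - H / 2 - (q - H)) := by omega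
    exact_mod_cast this
  have h3 : (P.card : ℝ) * H ≤ 2 * (5 * K * 2 ^ j * ∑ y ∈ Ico (q - H) (q - H / 2),
      Wt M (fun k => (gX X b k : ℝ)) T (y / b)) := by
    have h4 : (0 : ℝ) ≤ P.card := Nat.cast_nonneg _
    nlinarith
  have h4 : (H : ℝ) = 2 ^ j * b := by rw [hH]; push_cast; ring
  rw [h4] at h3
  have h5 : (2 : ℝ) ^ j * ((P.card : ℝ) * b) ≤ 2 ^ j * (10 * K * ∑ y ∈ Ico (q - H) (q - H / 2),
      Wt M (fun k => (gX X b k : ℝ)) T (y / b)) := by
    calc (2 : ℝ) ^ j * ((P.card : ℝ) * b) = (P.card : ℝ) * (2 ^ j * b) := by ring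
      _ ≤ _ := h3
      _ = _ := by ring
  exact le_of_mul_le_mul_left h5 (by positivity)

end Pool.Agent.H.MP_711652_nt
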