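import Mathlib
import Pool.Agent.H.MP_711652_nt.ScaleB

set_option autoImplicit false

namespace Pool.Agent.H.MP_711652_nt

open Finset

lemma badPrimes_card_le (X K H : ℕ) : (badPrimes X K H).card ≤ Nat.primeCounting X := by
  classical
  rw [← primes_range_card]
  apply card_le_card
  intro p hp
  unfold badPrimes at hp
  rw [mem_filter, mem_Icc] at hp
  rw [mem_filter, mem_range]
  exact ⟨by omega, hp.2.1⟩

open Classical in
lemma bad_split (X K b j : ℕ) (hH : 2 ≤ 2 ^ j * b) (hKH : K * (2 ^ j * b) ≤ X) :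
    ((badPrimes X K (2 ^ j * b)).card : ℝ) * b ≤
      ∑ q ∈ Qr X (2 ^ j * b),
        (((Icc 1 X).filter (fun p => p.Prime ∧ p ≤ q ∧ q ≤ p + K * (2 ^ j * b))).card : ℝ) * b +
      ∑ q ∈ Ql X (2 ^ j * b),
        (((Icc 1 X).filter (fun p => p.Prime ∧ q ≤ p ∧ p ≤ q + K * (2 ^ j * b))).card : ℝ) * b := by
  set H := 2 ^ j * b with hHd
  have hsub : badPrimes X K H ⊆
      ((Qr X H).biUnion (fun q => (Icc 1 X).filter (fun p => p.Prime ∧ p ≤ q ∧ q ≤ p + K * H))) ∪
      ((Ql X H).biUnion (fun q => (Icc 1 X).filter (fun p => p.Prime ∧ q ≤ p ∧ p ≤ q + K * H))) := by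
    intro p hp
    have hp' := hp
    unfold badPrimes at hp'
    rw [mem_filter] at hp'
    rw [mem_union, mem_biUnion, mem_biUnion]
    rcases bad_near X K H p hH hKH hp with ⟨q, hq, h1, h2⟩ | ⟨q, hq, h1, h2⟩
    · left
      exact ⟨q, hq, mem_filter.2 ⟨hp'.1, hp'.2.1, h1, h2⟩⟩
    · right
      exact ⟨q, hq, mem_filter.2 ⟨hp'.1, hp'.2.1, h1, h2⟩⟩
  have h1 : (badPrimes X K H).card ≤
      ∑ q ∈ Qr X H, ((Icc 1 X).filter (fun p => p.Prime ∧ p ≤ q ∧ q ≤ p + K * H)).card +
      ∑ q ∈ Ql X H, ((Icc 1 X).filter (fun p => p.Prime ∧ q ≤ p ∧ p ≤ q + K * H)).card := by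
    refine (card_le_card hsub).trans ((card_union_le _ _).trans ?_)
    exact Nat.add_le_add card_biUnion_le card_biUnion_le
  have h2 : ((badPrimes X K H).card : ℝ) ≤
      ∑ q ∈ Qr X H, (((Icc 1 X).filter (fun p => p.Prime ∧ p ≤ q ∧ q ≤ p + K * H)).card : ℝ) +
      ∑ q ∈ Ql X H, (((Icc 1 X).filter (fun p => p.Prime ∧ q ≤ p ∧ p ≤ q + K * H)).card : ℝ) := by
    exact_mod_cast h1
  rw [← sum_mul, ← sum_mul, ← add_mul]
  gcongr

open Classical in
/-- **All dyadic scales.** Summed over the dyadic scales, the number of primes near a gap is at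
most `C K π(X)`. -/
theorem sum_bad : ∃ C : ℝ, 0 < C ∧ ∃ X₀ : ℕ, ∀ X : ℕ, X₀ ≤ X → ∀ K : ℕ, 1 ≤ K →
    ∑ j ∈ (range X).filter (fun j => 2 ^ j * ⌈Real.log X⌉₊ ≤ X),
      ((badPrimes X K (2 ^ j * ⌈Real.log X⌉₊)).card : ℝ) ≤ C * K * Nat.primeCounting X := by
  obtain ⟨c, C, hc, hC, X₀, hX₀⟩ := basic_estimates
  refine ⟨20 * (4 + 8 * C) / c + 1, by positivity, X₀, ?_⟩
  intro X hX K hK
  obtain ⟨hb2, hb4, hpi, -, hsq⟩ := hX₀ X hX
  set b := ⌈Real.log X⌉₊ with hb
  set J := (range X).filter (fun j => 2 ^ j * b ≤ X) with hJ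
  set J1 := J.filter (fun j => K * (2 ^ j * b) ≤ X) with hJ1
  set J2 := J.filter (fun j => ¬ K * (2 ^ j * b) ≤ X) with hJ2
  have hb0' : 0 < b := by omega
  have hb0 : (0 : ℝ) < b := by exact_mod_cast hb0'
  have hbX : b ≤ X := by
    have : b ≤ b ^ 4 := Nat.le_self_pow (by norm_num) b
    omega
  have hX0 : (0 : ℝ) < X := by exact_mod_cast (by omega : 0 < X)
  have hK0 : (1 : ℝ) ≤ K := by exact_mod_cast hK
  have hπ0 : (0 : ℝ) ≤ Nat.primeCounting X := Nat.cast_nonneg _
  have hsplit : ∑ j ∈ J, ((badPrimes X K (2 ^ j * b)).card : ℝ) =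
      ∑ j ∈ J1, ((badPrimes X K (2 ^ j * b)).card : ℝ) +
      ∑ j ∈ J2, ((badPrimes X K (2 ^ j * b)).card : ℝ) := (sum_filter_add_sum_filter_not _ _ _).symm
  -- the large scales
  have h2 : ∑ j ∈ J2, ((badPrimes X K (2 ^ j * b)).card : ℝ) ≤ K * Nat.primeCounting X := by
    have hcard : J2.card ≤ K := by
      rcases J2.eq_empty_or_nonempty with he | hne
      · rw [he]; simp
      · obtain ⟨j0, hj0, hmin⟩ := J2.exists_min_image id hne
        have hsub : J2 ⊆ Ico j0 (j0 + K) := by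
          intro j hj
          have hle : j0 ≤ j := hmin j hj
          rw [mem_Ico]
          refine ⟨hle, ?_⟩
          rw [hJ2, mem_filter, hJ, mem_filter] at hj hj0
          by_contra hge
          have h3 : K ≤ j - j0 := by omega
          have h4 : K < 2 ^ (j - j0) := lt_of_le_of_lt h3 Nat.lt_two_pow_self
          have h5 : 2 ^ j = 2 ^ (j - j0) * 2 ^ j0 := by
            rw [← pow_add]; congr 1; omega
          have h6 : K * (2 ^ j0 * b) ≤ 2 ^ j * b := by
            rw [h5, mul_assoc]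
            exact Nat.mul_le_mul_right _ h4.le
          omega
        calc J2.card ≤ (Ico j0 (j0 + K)).card := card_le_card hsub
          _ = K := by simp
    calc ∑ j ∈ J2, ((badPrimes X K (2 ^ j * b)).card : ℝ) ≤ ∑ j ∈ J2, (Nat.primeCounting X : ℝ) := by
          apply sum_le_sum
          intro j _
          exact_mod_cast badPrimes_card_le X K _
      _ = J2.card * Nat.primeCounting X := by rw [sum_const, nsmul_eq_mul]
      _ ≤ _ := by gcongr
  -- the small scales
  set T := X + 1 with hT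
  set M := 3 * X / b + 1 with hM
  set W := Wt M (fun k => (gX X b k : ℝ)) T with hW
  have hT' : X + 1 ≤ 2 ^ T := (Nat.lt_two_pow_self).le
  have hW0 : ∀ k, 0 ≤ W k := fun k => by linarith [Wt_one_le M (fun k => (gX X b k : ℝ)) T k]
  have hNM : 3 * X + 1 ≤ M * b := by
    have h3 := Nat.div_add_mod (3 * X) b
    have h4 := Nat.mod_lt (3 * X) hb0'
    have h5 : M * b = b * (3 * X / b) + b := by rw [hM]; ring
    omega
  have hpts := sum_points b (3 * X) M hNM W hW0
  have hsumW : ∑ k ∈ range M, W k ≤ (4 + 8 * C) * X / b := by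
    have h3 := sum_Wt M (gX X b) (fun k hk => gX_zero X b k (by
      have h4 : X / b ≤ 3 * X / b := Nat.div_le_div_right (by omega)
      rw [hM] at hk
      exact lt_of_le_of_lt h4 hk)) T
    have h4 : ∑ k ∈ range M, (gX X b k : ℝ) ^ 2 ≤ C * X / b := by
      refine le_trans ?_ (hsq (X / b + 1) ?_)
      · have hsub : range (X / b + 1) ⊆ range M := by
          apply range_subset_range.2
          have h4 : X / b ≤ 3 * X / b := Nat.div_le_div_right (by omega)
          exact Nat.add_le_add_right h4 1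
        rw [← sum_subset hsub]
        · apply sum_le_sum
          intro k _
          have : (gX X b k : ℝ) ≤ (Fb b k : ℕ) := by exact_mod_cast gX_le X b k hb0'
          apply pow_le_pow_left₀ (Nat.cast_nonneg _) this
        · intro k _ hk
          rw [mem_range, not_lt] at hk
          rw [gX_zero X b k (by omega)]
          norm_num
      · have := Nat.div_mul_le_self X b
        calc (X / b + 1) * b = X / b * b + b := by ring
          _ ≤ 2 * X := by omega
    have h5 : (M : ℝ) ≤ 4 * X / b := by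
      rw [hM]
      push_cast
      have h6 : ((3 * X / b : ℕ) : ℝ) ≤ 3 * X / b := by
        have := Nat.cast_div_le (α := ℝ) (m := 3 * X) (n := b)
        push_cast at this
        exact this
      have h7 : (1 : ℝ) ≤ X / b := by
        rw [le_div_iff₀ hb0, one_mul]
        exact_mod_cast hbX
      calc ((3 * X / b : ℕ) : ℝ) + 1 ≤ 3 * X / b + X / b := by linarith
        _ = _ := by ring
    calc ∑ k ∈ range M, W k ≤ M + 8 * ∑ k ∈ range M, (gX X b k : ℝ) ^ 2 := h3
      _ ≤ 4 * X / b + 8 * (C * X / b) := by linarith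
      _ = _ := by ring
  have hJ1m : ∀ j ∈ J1, 2 ^ j * b ≤ X ∧ K * (2 ^ j * b) ≤ X := by
    intro j hj
    rw [hJ1, mem_filter, hJ, mem_filter] at hj
    exact ⟨hj.1.2, hj.2⟩
  have hQr : ∀ j ∈ J1, ∀ q ∈ Qr X (2 ^ j * b), q.Prime ∧ PrimeFree q (2 ^ j * b) ∧
      q + 2 ^ j * b ≤ 3 * X := by
    intro j hj q hq
    unfold Qr at hq
    rw [mem_filter, mem_Icc] at hq
    have := (hJ1m j hj).1
    exact ⟨hq.2.1, hq.2.2, by omega⟩
  have hQl : ∀ j ∈ J1, ∀ q ∈ Ql X (2 ^ j * b), q.Prime ∧ 2 ^ j * b < q ∧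
      PrimeFree (q - 1 - 2 ^ j * b) (2 ^ j * b) ∧ q ≤ 3 * X := by
    intro j hj q hq
    unfold Ql at hq
    rw [mem_filter, mem_Icc] at hq
    exact ⟨hq.2.1, hq.2.2.1, hq.2.2.2, by omega⟩
  have hr : ∑ j ∈ J1, ∑ q ∈ Qr X (2 ^ j * b),
      (((Icc 1 X).filter (fun p => p.Prime ∧ p ≤ q ∧ q ≤ p + K * (2 ^ j * b))).card : ℝ) * b ≤
      10 * K * (b * ((4 + 8 * C) * X / b)) := by
    calc _ ≤ ∑ j ∈ J1, ∑ q ∈ Qr X (2 ^ j * b), 10 * K *
          ∑ y ∈ Ioc (q + 2 ^ j * b / 2) (q + 2 ^ j * b), W (y / b) := by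
          apply sum_le_sum
          intro j hj
          apply sum_le_sum
          intro q hq
          have h3 := (hQr j hj q hq).2.2
          apply near_right X K b j q M T hb0' hK _ hT'
          have h4 : (q + 2 ^ j * b) / b ≤ 3 * X / b := Nat.div_le_div_right h3
          rw [hM]
          exact Nat.lt_succ_of_le h4
      _ = 10 * K * ∑ j ∈ J1, ∑ q ∈ Qr X (2 ^ j * b),
          ∑ y ∈ Ioc (q + 2 ^ j * b / 2) (q + 2 ^ j * b), W (y / b) := by
          rw [mul_sum]
          apply sum_congr rfl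
          intro j _
          rw [mul_sum]
      _ ≤ 10 * K * ∑ y ∈ range (3 * X + 1), W (y / b) := by
          apply mul_le_mul_of_nonneg_left _ (by positivity)
          exact weight_right b (3 * X) J1 (fun j => Qr X (2 ^ j * b)) (fun y => W (y / b))
            (fun y => hW0 _) hQr
      _ ≤ _ := by
          apply mul_le_mul_of_nonneg_left _ (by positivity)
          refine hpts.trans ?_
          gcongr
  have hl : ∑ j ∈ J1, ∑ q ∈ Ql X (2 ^ j * b),
      (((Icc 1 X).filter (fun p => p.Prime ∧ q ≤ p ∧ p ≤ q + K * (2 ^ j * b))).card : ℝ) * b ≤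
      10 * K * (b * ((4 + 8 * C) * X / b)) := by
    calc _ ≤ ∑ j ∈ J1, ∑ q ∈ Ql X (2 ^ j * b), 10 * K *
          ∑ y ∈ Ico (q - 2 ^ j * b) (q - 2 ^ j * b / 2), W (y / b) := by
          apply sum_le_sum
          intro j hj
          apply sum_le_sum
          intro q hq
          obtain ⟨-, h3, -, h4⟩ := hQl j hj q hq
          apply near_left X K b j q M T hb0' hK h3 _ hT'
          have h5 : q / b ≤ 3 * X / b := Nat.div_le_div_right h4
          rw [hM]
          exact Nat.lt_succ_of_le h5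
      _ = 10 * K * ∑ j ∈ J1, ∑ q ∈ Ql X (2 ^ j * b),
          ∑ y ∈ Ico (q - 2 ^ j * b) (q - 2 ^ j * b / 2), W (y / b) := by
          rw [mul_sum]
          apply sum_congr rfl
          intro j _
          rw [mul_sum]
      _ ≤ 10 * K * ∑ y ∈ range (3 * X + 1), W (y / b) := by
          apply mul_le_mul_of_nonneg_left _ (by positivity)
          exact weight_left b (3 * X) J1 (fun j => Ql X (2 ^ j * b)) (fun y => W (y / b))
            (fun y => hW0 _) hQl
      _ ≤ _ := by
          apply mul_le_mul_of_nonneg_left _ (by positivity)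
          refine hpts.trans ?_
          gcongr
  have h1 : (∑ j ∈ J1, ((badPrimes X K (2 ^ j * b)).card : ℝ)) * b ≤
      (20 * K * ((4 + 8 * C) * X / b)) * b := by
    rw [sum_mul]
    calc _ ≤ ∑ j ∈ J1, (∑ q ∈ Qr X (2 ^ j * b),
          (((Icc 1 X).filter (fun p => p.Prime ∧ p ≤ q ∧ q ≤ p + K * (2 ^ j * b))).card : ℝ) * b +
          ∑ q ∈ Ql X (2 ^ j * b),
          (((Icc 1 X).filter (fun p => p.Prime ∧ q ≤ p ∧ p ≤ q + K * (2 ^ j * b))).card : ℝ) * b) := by
          apply sum_le_sum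
          intro j hj
          apply bad_split X K b j _ (hJ1m j hj).2
          have : 1 ≤ 2 ^ j := Nat.one_le_two_pow
          nlinarith
      _ ≤ 10 * K * (b * ((4 + 8 * C) * X / b)) + 10 * K * (b * ((4 + 8 * C) * X / b)) := by
          rw [sum_add_distrib]
          exact add_le_add hr hl
      _ = _ := by ring
  have h1' := le_of_mul_le_mul_right h1 hb0
  have h3 : 20 * K * ((4 + 8 * C) * X / b) ≤ 20 * (4 + 8 * C) / c * K * Nat.primeCounting X := by
    have h4 : (X : ℝ) / b ≤ Nat.primeCounting X / c := by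
      rw [le_div_iff₀ hc]
      calc (X : ℝ) / b * c = c * X / b := by ring
        _ ≤ _ := hpi
    calc 20 * K * ((4 + 8 * C) * X / b) = 20 * (4 + 8 * C) * K * (X / b) := by ring
      _ ≤ 20 * (4 + 8 * C) * K * (Nat.primeCounting X / c) := by gcongr
      _ = _ := by ring
  rw [hsplit]
  calc _ ≤ 20 * (4 + 8 * C) / c * K * Nat.primeCounting X + K * Nat.primeCounting X :=
        add_le_add (h1'.trans h3) h2
    _ = _ := by ring

end Pool.Agent.H.MP_711652_nt
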