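import Mathlib
import Pool.Agent.H.MP_711652_nt.ScaleC
import Pool.Agent.H.MP_711652_nt.ExpoB

set_option autoImplicit false

namespace Pool.Agent.H.MP_711652_nt

open Finset

/-- `p` is a prime with a prime-free interval of length `(log p) ^ α` within distance
`K (log log p) ^ γ (log p) ^ α`. -/
def QN (K γ α : ℝ) (p : ℕ) : Prop := p.Prime ∧ ∃ y : ℕ,
  |(y : ℝ) - p| ≤ K * (Real.log (Real.log p)) ^ γ * (Real.log p) ^ α ∧
  ∀ q : ℕ, y < q → (q : ℝ) ≤ y + (Real.log p) ^ α → ¬ q.Prime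

/-- slope of the index of the scale -/
noncomputable def cM (n : ℕ) : ℝ := Real.log (((n : ℝ) - 1) * Real.log 2) / Real.log 2

/-- offset of the index of the scale -/
noncomputable def dM (n : ℕ) : ℝ := - (Real.log (⌈Real.log ((2 ^ n : ℕ) : ℝ)⌉₊) / Real.log 2)

open Classical in
lemma few_bad_scales : ∃ C : ℝ, 0 < C ∧ ∃ X₀ : ℕ, ∀ X : ℕ, X₀ ≤ X → ∀ K : ℕ, 1 ≤ K →
    ∀ ε : ℝ, 0 < ε →
    (((range X).filter (fun j => 2 ^ j * ⌈Real.log X⌉₊ ≤ X ∧
      ε * Nat.primeCounting X < ((badPrimes X K (2 ^ j * ⌈Real.log X⌉₊)).card : ℝ))).card : ℝ) ≤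
      C * K / ε := by
  obtain ⟨C, hC, X₀, hX₀⟩ := sum_bad
  refine ⟨C, hC, max X₀ 2, ?_⟩
  intro X hX K hK ε hε
  have h1 := hX₀ X (le_trans (le_max_left _ _) hX) K hK
  have hX2 : 2 ≤ X := le_trans (le_max_right _ _) hX
  have hπ : (0 : ℝ) < Nat.primeCounting X := by
    have h2 : Nat.primeCounting 2 ≤ Nat.primeCounting X := Nat.monotone_primeCounting hX2
    have h3 : Nat.primeCounting 2 = 1 := by decide
    exact_mod_cast (by omega : 0 < Nat.primeCounting X)
  set b := ⌈Real.log X⌉₊ with hb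
  set Bad := (range X).filter (fun j => 2 ^ j * b ≤ X ∧
      ε * Nat.primeCounting X < ((badPrimes X K (2 ^ j * b)).card : ℝ)) with hBad
  have h2 : (Bad.card : ℝ) * (ε * Nat.primeCounting X) ≤ C * K * Nat.primeCounting X := by
    refine le_trans ?_ h1
    calc (Bad.card : ℝ) * (ε * Nat.primeCounting X) = ∑ j ∈ Bad, ε * Nat.primeCounting X := by
          rw [sum_const, nsmul_eq_mul]
      _ ≤ ∑ j ∈ Bad, ((badPrimes X K (2 ^ j * b)).card : ℝ) := by
          apply sum_le_sum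
          intro j hj
          rw [hBad, mem_filter] at hj
          exact hj.2.2.le
      _ ≤ _ := by
          apply sum_le_sum_of_subset_of_nonneg
          · intro j hj
            rw [hBad, mem_filter] at hj
            rw [mem_filter]
            exact ⟨hj.1, hj.2.1⟩
          · intro j _ _
            exact Nat.cast_nonneg _
  rw [le_div_iff₀ hε]
  have h3 : ((Bad.card : ℝ) * ε) * Nat.primeCounting X ≤ (C * K) * Nat.primeCounting X := by
    calc _ = (Bad.card : ℝ) * (ε * Nat.primeCounting X) := by ring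
      _ ≤ _ := h2
  exact le_of_mul_le_mul_right h3 hπ

lemma pow_ratio (n : ℕ) (A α : ℝ) (hn : 16 ≤ n) (hA : 2 * A ≤ (n : ℝ) - 1) (hα0 : 0 ≤ α) (hα : α ≤ A) :
    ((n : ℝ) * Real.log 2) ^ α ≤ 2 * (((n : ℝ) - 1) * Real.log 2) ^ α := by
  have hnr : (16 : ℝ) ≤ n := by exact_mod_cast hn
  have hl2 : 0 < Real.log 2 := Real.log_pos (by norm_num)
  have h1 : (n : ℝ) * Real.log 2 ≤ (((n : ℝ) - 1) * Real.log 2) * Real.exp (1 / ((n : ℝ) - 1)) := by
    have h2 := Real.add_one_le_exp (1 / ((n : ℝ) - 1))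
    have h3 : ((n : ℝ) - 1) * (1 / ((n : ℝ) - 1) + 1) = n := by
      have : (n : ℝ) - 1 ≠ 0 := by linarith
      field_simp
      ring
    have h4 : (n : ℝ) ≤ ((n : ℝ) - 1) * Real.exp (1 / ((n : ℝ) - 1)) := by
      calc (n : ℝ) = ((n : ℝ) - 1) * (1 / ((n : ℝ) - 1) + 1) := h3.symm
        _ ≤ _ := by
          apply mul_le_mul_of_nonneg_left h2
          linarith
    calc (n : ℝ) * Real.log 2 ≤ (((n : ℝ) - 1) * Real.exp (1 / ((n : ℝ) - 1))) * Real.log 2 := by
          gcongr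
      _ = _ := by ring
  have h2 : ((n : ℝ) * Real.log 2) ^ α ≤
      ((((n : ℝ) - 1) * Real.log 2) * Real.exp (1 / ((n : ℝ) - 1))) ^ α :=
    Real.rpow_le_rpow (by positivity) h1 hα0
  refine h2.trans ?_
  have h5 : 0 ≤ ((n : ℝ) - 1) * Real.log 2 := by
    apply mul_nonneg _ hl2.le
    linarith
  rw [Real.mul_rpow h5 (Real.exp_pos _).le, mul_comm 2]
  apply mul_le_mul_of_nonneg_left _ (Real.rpow_nonneg h5 α)
  rw [← Real.exp_mul]
  have h6 : 1 / ((n : ℝ) - 1) * α ≤ 1 / 2 := by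
    rw [one_div_mul_eq_div, div_le_iff₀ (by linarith)]
    linarith
  calc Real.exp (1 / ((n : ℝ) - 1) * α) ≤ Real.exp (1 / 2) := Real.exp_le_exp.2 h6
    _ ≤ 2 := by
      have h7 : Real.exp (1 / 2) * Real.exp (1 / 2) = Real.exp 1 := by
        rw [← Real.exp_add]; norm_num
      have h8 := Real.exp_one_lt_d9
      have h9 := Real.exp_pos (1 / 2 : ℝ)
      by_contra hcon
      push Not at hcon
      have h10 : (2 : ℝ) * 2 ≤ Real.exp (1 / 2) * Real.exp (1 / 2) := by gcongr
      linarith only [h7, h8, h10]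

open Classical in
theorem level_gap (K γ ε η : ℝ) (A : ℕ) (hK : 0 < K) (hγ : 0 ≤ γ) (hε : 0 < ε)
    (hη : 0 < η) : ∃ C' : ℝ, 0 ≤ C' ∧ ∃ n₀ : ℕ, ∀ n : ℕ, n₀ ≤ n → ∃ Bad : Finset ℕ,
      (Bad.card : ℝ) ≤ C' * (Real.log n) ^ γ ∧ ∀ α : ℝ, 1 + η ≤ α → α ≤ A →
      (∀ j ∈ Bad, ¬ ((j : ℝ) ≤ α * cM n + dM n ∧ α * cM n + dM n < j + 1)) →
      (((Ioc (2 ^ (n - 1)) (2 ^ n)).filter (QN K γ α)).card : ℝ) ≤
        ε * Nat.primeCounting (2 ^ n) := by
  obtain ⟨C, hC, X₀, hX₀⟩ := few_bad_scales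
  refine ⟨C * (4 * K + 2) / ε, by positivity, ?_⟩
  have hl2a : (0.69 : ℝ) < Real.log 2 := by
    have := Real.log_two_gt_d9
    linarith
  have hl2b : Real.log 2 < 0.7 := by
    have := Real.log_two_lt_d9
    linarith
  have hl2 : 0 < Real.log 2 := by linarith
  have e1 : ∀ᶠ n : ℕ in Filter.atTop, 4 ≤ η * Real.log n :=
    (tendsto_log_nat.const_mul_atTop hη).eventually_ge_atTop 4
  have e2 : ∀ᶠ n : ℕ in Filter.atTop, (n : ℝ) ^ (A + 3) / 2 ^ n < 1 :=
    (tendsto_pow_const_div_const_pow_of_one_lt (A + 3) (by norm_num : (1 : ℝ) < 2)).eventually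
      (gt_mem_nhds (by positivity))
  have e3 := Filter.eventually_ge_atTop (α := ℕ) (max (max 16 X₀) (2 * A + 2))
  obtain ⟨n₀, hn₀⟩ := Filter.eventually_atTop.1 (e1.and (e2.and e3))
  refine ⟨n₀, ?_⟩
  intro n hn
  obtain ⟨f1, f2, f3⟩ := hn₀ n hn
  have hn16 : 16 ≤ n := le_trans (le_trans (le_max_left _ _) (le_max_left _ _)) f3
  have hnX : X₀ ≤ 2 ^ n := by
    have h1 : X₀ ≤ n := le_trans (le_trans (le_max_right _ _) (le_max_left _ _)) f3
    exact h1.trans (Nat.lt_two_pow_self).le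
  have hnA : 2 * A + 2 ≤ n := le_trans (le_max_right _ _) f3
  have hnr : (16 : ℝ) ≤ n := by exact_mod_cast hn16
  have hnAr : 2 * (A : ℝ) + 2 ≤ n := by exact_mod_cast hnA
  set b := ⌈Real.log ((2 ^ n : ℕ) : ℝ)⌉₊ with hb
  set lam := ((n : ℝ) - 1) * Real.log 2 with hlam
  have hlog2n : Real.log ((2 ^ n : ℕ) : ℝ) = n * Real.log 2 := by
    push_cast
    rw [Real.log_pow]
  have hb1 : (n : ℝ) * Real.log 2 ≤ b := by
    rw [← hlog2n]
    exact Nat.le_ceil _
  have hb2 : (b : ℝ) ≤ n := by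
    have := Nat.ceil_lt_add_one (a := Real.log ((2 ^ n : ℕ) : ℝ)) (by rw [hlog2n]; positivity)
    rw [← hb, hlog2n] at this
    have h1 : (n : ℝ) * Real.log 2 ≤ n * 0.7 := by gcongr
    linarith only [hl2a, hl2b, hnr, this, h1]
  have hb0 : (0 : ℝ) < b := lt_of_lt_of_le (by positivity) hb1
  have hb0' : 0 < b := by exact_mod_cast hb0
  have hlamlow : ((n : ℝ) - 1) * 0.69 ≤ lam := by
    rw [hlam]
    apply mul_le_mul_of_nonneg_left hl2a.le
    linarith only [hl2a, hl2b, hnr]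
  have hlam1 : (1 : ℝ) < lam := by linarith only [hl2a, hl2b, hnr, hlamlow]
  have hlam0 : 0 < lam := by linarith only [hl2a, hl2b, hnr, hlamlow]
  have hlogn1 : (1 : ℝ) ≤ Real.log n := by
    rw [Real.le_log_iff_exp_le (by linarith only [hl2a, hl2b, hnr])]
    have := Real.exp_one_lt_d9
    linarith only [hl2a, hl2b, hnr, this]
  set Kn := ⌈4 * K * (Real.log n) ^ γ⌉₊ + 1 with hKn
  have hlogγ : 1 ≤ (Real.log n) ^ γ := Real.one_le_rpow hlogn1 hγ
  have hKn1 : (Kn : ℝ) ≤ (4 * K + 2) * (Real.log n) ^ γ := by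
    rw [hKn]
    push_cast
    have := Nat.ceil_lt_add_one (a := 4 * K * (Real.log n) ^ γ) (by positivity)
    have h1 : (4 * K + 2) * (Real.log n) ^ γ = 4 * K * (Real.log n) ^ γ + 2 * (Real.log n) ^ γ := by
      ring
    linarith only [hlogγ, this]
  have hKn2 : 4 * K * (Real.log n) ^ γ ≤ Kn := by
    rw [hKn]
    push_cast
    have := Nat.le_ceil (4 * K * (Real.log n) ^ γ)
    linarith only [hl2a, hl2b, this]
  refine ⟨(range (2 ^ n)).filter (fun j => 2 ^ j * b ≤ 2 ^ n ∧
      ε * Nat.primeCounting (2 ^ n) < ((badPrimes (2 ^ n) Kn (2 ^ j * b)).card : ℝ)), ?_, ?_⟩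
  · have h1 := hX₀ (2 ^ n) hnX Kn (by omega) ε hε
    refine h1.trans ?_
    calc C * Kn / ε ≤ C * ((4 * K + 2) * (Real.log n) ^ γ) / ε := by gcongr
      _ = _ := by ring
  · intro α hα1 hα2 hα
    have hα0 : 0 < α := by linarith only [hη, hl2a, hl2b, hα1]
    -- the index of the scale
    have hcM : α * cM n + dM n = Real.logb 2 (lam ^ α / b) := by
      unfold cM dM Real.logb
      rw [Real.log_div (by positivity) hb0.ne', Real.log_rpow hlam0, ← hb, ← hlam]
      ring
    have hlamb : 1 ≤ lam ^ α / b := by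
      rw [le_div_iff₀ hb0, one_mul]
      refine hb2.trans ?_
      -- `n ≤ lam ^ (1 + η)`
      have h1 : lam ^ (1 + η) ≤ lam ^ α := Real.rpow_le_rpow_of_exponent_le hlam1.le hα1
      refine le_trans ?_ h1
      rw [Real.rpow_add hlam0, Real.rpow_one]
      have h2 : (n : ℝ) ≤ 2 * lam := by linarith only [hl2a, hl2b, hnr, hlamlow]
      have h3 : (2 : ℝ) ≤ lam ^ η := by
        have h4 : Real.exp 1 ≤ lam ^ η := by
          rw [← Real.log_le_log_iff (Real.exp_pos _) (by positivity), Real.log_exp,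
            Real.log_rpow hlam0]
          have h5 : Real.log n / 2 ≤ Real.log lam := by
            have h6 : Real.log n ≤ Real.log (lam ^ 2) := by
              apply Real.log_le_log (by linarith only [hl2a, hl2b, hnr])
              have h7 : (n : ℝ) / 2 ≤ lam := by linarith only [hl2a, hl2b, hnr, hlamlow]
              have h8 : (n : ℝ) / 2 * (n / 2) ≤ lam * lam := by gcongr
              have h9 : (n : ℝ) * 4 ≤ n * n := by gcongr; linarith only [hl2a, hl2b, hnr]
              have h10 : lam ^ 2 = lam * lam := by ring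
              rw [h10]
              linarith only [h8, h9]
            rw [Real.log_pow] at h6
            push_cast at h6
            linarith only [h6]
          have h6 := mul_le_mul_of_nonneg_left h5 hη.le
          linarith only [hl2a, hl2b, f1, h6]
        have := Real.exp_one_gt_d9
        linarith only [hl2a, hl2b, h4, this]
      calc (n : ℝ) ≤ 2 * lam := h2
        _ = lam * 2 := by ring
        _ ≤ _ := by gcongr
    have hlogb0 : 0 ≤ Real.logb 2 (lam ^ α / b) := Real.logb_nonneg (by norm_num) hlamb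
    set j := ⌊Real.logb 2 (lam ^ α / b)⌋₊ with hj
    have hj1 : (j : ℝ) ≤ Real.logb 2 (lam ^ α / b) := Nat.floor_le hlogb0
    have hj2 : Real.logb 2 (lam ^ α / b) < j + 1 := Nat.lt_floor_add_one _
    have hH1 : (2 : ℝ) ^ j * b ≤ lam ^ α := by
      rw [← le_div_iff₀ hb0]
      rw [Real.le_logb_iff_rpow_le (by norm_num) (by positivity), Real.rpow_natCast] at hj1
      exact hj1
    have hH2 : lam ^ α ≤ 2 * (2 ^ j * b) := by
      rw [Real.logb_lt_iff_lt_rpow (by norm_num) (by positivity), div_lt_iff₀ hb0] at hj2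
      have h1 : (2 : ℝ) ^ ((j : ℝ) + 1) = 2 * 2 ^ j := by
        rw [Real.rpow_add (by norm_num), Real.rpow_natCast, Real.rpow_one]
        ring
      rw [h1] at hj2
      linarith only [hj2]
    have hHX : 2 ^ j * b ≤ 2 ^ n := by
      have h1 : (2 : ℝ) ^ j * b ≤ 2 ^ n := by
        refine hH1.trans ?_
        have h2 : lam ≤ n := by
          have h3 : lam ≤ ((n : ℝ) - 1) * 1 := by
            rw [hlam]
            apply mul_le_mul_of_nonneg_left _ (by linarith only [hl2a, hl2b, hnr])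
            linarith only [hl2a, hl2b]
          linarith only [hl2a, hl2b, hb1, hb2]
        have h3 : lam ^ α ≤ (n : ℝ) ^ A := by
          calc lam ^ α ≤ (n : ℝ) ^ α := Real.rpow_le_rpow hlam0.le h2 hα0.le
            _ ≤ (n : ℝ) ^ (A : ℝ) := Real.rpow_le_rpow_of_exponent_le (by linarith only [hl2a, hl2b, hnr]) hα2
            _ = _ := Real.rpow_natCast _ _
        have h4 : (n : ℝ) ^ (A + 3) ≤ 2 ^ n := by
          rw [div_lt_one (by positivity)] at f2
          exact f2.le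
        have h5 : (n : ℝ) ^ A ≤ (n : ℝ) ^ (A + 3) := pow_le_pow_right₀ (by linarith only [hl2a, hl2b, hnr]) (by omega)
        linarith only [h3, h4, h5]
      exact_mod_cast h1
    have hjX : j < 2 ^ n := by
      have h1 : j < 2 ^ j := Nat.lt_two_pow_self
      have h2 : 2 ^ j ≤ 2 ^ j * b := Nat.le_mul_of_pos_right _ hb0'
      omega
    have hgood : ((badPrimes (2 ^ n) Kn (2 ^ j * b)).card : ℝ) ≤ ε * Nat.primeCounting (2 ^ n) := by
      by_contra hcon
      push Not at hcon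
      apply hα j (mem_filter.2 ⟨mem_range.2 hjX, hHX, hcon⟩)
      rw [hcM]
      exact ⟨hj1, hj2⟩
    refine le_trans ?_ hgood
    have hsub : (Ioc (2 ^ (n - 1)) (2 ^ n)).filter (QN K γ α) ⊆ badPrimes (2 ^ n) Kn (2 ^ j * b) := by
      intro p hp
      rw [mem_filter, mem_Ioc] at hp
      obtain ⟨⟨hp1, hp2⟩, hpp, y, hy1, hy2⟩ := hp
      have hp0 : (0 : ℝ) < p := by exact_mod_cast hpp.pos
      have hlp1 : lam ≤ Real.log p := by
        have h3 : Real.log ((2 : ℝ) ^ (n - 1)) ≤ Real.log p := by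
          apply Real.log_le_log (by positivity)
          exact_mod_cast hp1.le
        rw [Real.log_pow] at h3
        have h4 : ((n - 1 : ℕ) : ℝ) = n - 1 := by
          rw [Nat.cast_sub (by omega)]; norm_num
        rw [h4] at h3
        exact h3
      have hlp2 : Real.log p ≤ n * Real.log 2 := by
        have h3 : Real.log p ≤ Real.log ((2 : ℝ) ^ n) := by
          apply Real.log_le_log hp0
          exact_mod_cast hp2
        rwa [Real.log_pow] at h3
      have hlp0 : 0 < Real.log p := by linarith only [hl2a, hl2b, hnr, hlamlow, hlp1]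
      have hlp3 : Real.log p ≤ n := by
        have h1 : (n : ℝ) * Real.log 2 ≤ n * 1 := by gcongr; linarith only [hl2a, hl2b]
        linarith only [hb1, hb2, hlp2]
      have hllp : Real.log (Real.log p) ≤ Real.log n := Real.log_le_log hlp0 hlp3
      have hllp0 : 0 ≤ Real.log (Real.log p) := Real.log_nonneg (by linarith only [hl2a, hl2b, hnr, hlamlow, hlp1])
      have hH3 : ((2 ^ j * b : ℕ) : ℝ) ≤ (Real.log p) ^ α := by
        push_cast
        exact hH1.trans (Real.rpow_le_rpow hlam0.le hlp1 hα0.le)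
      have hdist : |(y : ℝ) - p| ≤ Kn * ((2 ^ j * b : ℕ) : ℝ) := by
        have h1 : (Real.log p) ^ α ≤ 4 * (2 ^ j * b) := by
          calc (Real.log p) ^ α ≤ ((n : ℝ) * Real.log 2) ^ α :=
                Real.rpow_le_rpow hlp0.le hlp2 hα0.le
            _ ≤ 2 * lam ^ α := pow_ratio n A α hn16 (by linarith only [hl2a, hl2b, hnAr]) hα0.le hα2
            _ ≤ _ := by linarith only [hH2]
        have h2 : (Real.log (Real.log p)) ^ γ ≤ (Real.log n) ^ γ := Real.rpow_le_rpow hllp0 hllp hγ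
        have h3 : 0 ≤ (Real.log (Real.log p)) ^ γ := Real.rpow_nonneg hllp0 γ
        calc |(y : ℝ) - p| ≤ K * (Real.log (Real.log p)) ^ γ * (Real.log p) ^ α := hy1
          _ ≤ K * (Real.log n) ^ γ * (4 * (2 ^ j * b)) := by gcongr
          _ = (4 * K * (Real.log n) ^ γ) * (2 ^ j * b) := by ring
          _ ≤ Kn * (2 ^ j * b) := by gcongr
          _ = _ := by push_cast; ring
      rw [abs_le] at hdist
      unfold badPrimes
      rw [mem_filter, mem_Icc]
      refine ⟨⟨hpp.pos, hp2⟩, hpp, y, ?_, ?_, ?_⟩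
      · have h1 : (p : ℝ) ≤ y + Kn * ((2 ^ j * b : ℕ) : ℝ) := by linarith only [hdist, hdist.1]
        exact_mod_cast h1
      · have h1 : (y : ℝ) ≤ p + Kn * ((2 ^ j * b : ℕ) : ℝ) := by linarith only [hdist, hdist.2]
        exact_mod_cast h1
      · intro r hr1 hr2
        apply hy2 r hr1
        have h1 : (r : ℝ) ≤ y + ((2 ^ j * b : ℕ) : ℝ) := by exact_mod_cast hr2
        linarith only [hH3, h1]
    exact_mod_cast card_le_card hsub

end Pool.Agent.H.MP_711652_nt
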