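import Mathlib
import Pool.Agent.H.MP_711652_nt.MaxExpoA
import Pool.Agent.H.MP_711652_nt.ExpoG

set_option autoImplicit false

namespace Pool.Agent.H.MP_711652_nt

open Finset MeasureTheory Filter Topology
open scoped ENNReal NNReal

lemma cM_bounds : ∀ᶠ n : ℕ in atTop, 0 < cM n ∧ (cM n)⁻¹ ≤ 2 / Real.log n := by
  filter_upwards [eventually_ge_atTop 16] with n hn
  have hnr : (16 : ℝ) ≤ n := by exact_mod_cast hn
  have hl2a : (0.69 : ℝ) < Real.log 2 := by
    have := Real.log_two_gt_d9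
    linarith
  have hl2b : Real.log 2 < 0.7 := by
    have := Real.log_two_lt_d9
    linarith
  have hl2 : 0 < Real.log 2 := by linarith
  set lam := ((n : ℝ) - 1) * Real.log 2 with hlam
  have hlamlow : ((n : ℝ) - 1) * 0.69 ≤ lam := by
    rw [hlam]
    apply mul_le_mul_of_nonneg_left hl2a.le
    linarith
  have hlam1 : (1 : ℝ) < lam := by linarith
  have hlogn : 0 < Real.log n := Real.log_pos (by linarith)
  have h5 : Real.log n / 2 ≤ Real.log lam := by
    have h6 : Real.log n ≤ Real.log (lam ^ 2) := by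
      apply Real.log_le_log (by linarith)
      have h7 : (n : ℝ) / 2 ≤ lam := by linarith
      have h8 : (n : ℝ) / 2 * (n / 2) ≤ lam * lam := by gcongr
      have h9 : (n : ℝ) * 4 ≤ n * n := by gcongr; linarith
      have h10 : lam ^ 2 = lam * lam := by ring
      rw [h10]
      linarith
    rw [Real.log_pow] at h6
    push_cast at h6
    linarith
  have hloglam : 0 < Real.log lam := by linarith
  refine ⟨by unfold cM; rw [← hlam]; positivity, ?_⟩
  unfold cM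
  rw [← hlam, inv_div, div_le_div_iff₀ hloglam hlogn]
  have h6 : Real.log 2 * Real.log n ≤ 0.7 * Real.log n := by gcongr
  linarith

open Classical in
theorem max_expo_sets : ∃ K' : ℝ, 0 < K' ∧ ∀ (K γ ε η : ℝ) (A : ℕ), 0 < K → 0 ≤ γ → γ < 1 →
    0 < ε → ε ≤ 1 → 0 < η → ∃ E : Set ℝ, dimH E ≤ ENNReal.ofReal γ ∧
    ∀ α : ℝ, 1 + η ≤ α → α ≤ A → α ∉ E →
    ∀ᶠ x : ℕ in atTop, ∑ p ∈ (Icc 1 x).filter (QN K γ α), 1 / (p : ℝ) ≤
      K' * ε * Real.log (Real.log x) := by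
  obtain ⟨K₁, hK₁, hev⟩ := density_event
  refine ⟨K₁, hK₁, ?_⟩
  intro K γ ε η A hK hγ hγ1 hε hε1 hη
  obtain ⟨C', hC', n₀, hn₀⟩ := level_gap K γ ε η A hK hγ hε hη
  obtain ⟨n₂, hn₂⟩ := eventually_atTop.1 cM_bounds
  have hex : ∀ n, ∃ Bad : Finset ℕ, n₀ ≤ n → (Bad.card : ℝ) ≤ C' * (Real.log n) ^ γ ∧
      ∀ α : ℝ, 1 + η ≤ α → α ≤ A →
      (∀ j ∈ Bad, ¬ ((j : ℝ) ≤ α * cM n + dM n ∧ α * cM n + dM n < j + 1)) →
      (((Ioc (2 ^ (n - 1)) (2 ^ n)).filter (QN K γ α)).card : ℝ) ≤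
        ε * Nat.primeCounting (2 ^ n) := by
    intro n
    by_cases hn : n₀ ≤ n
    · obtain ⟨B, hB⟩ := hn₀ n hn
      exact ⟨B, fun _ => hB⟩
    · exact ⟨∅, fun h => absurd h hn⟩
  choose Bad hBad using hex
  set F : ℕ → Set ℝ := fun n => {α | ∃ j ∈ Bad n, (j : ℝ) ≤ α * cM n + dM n ∧
    α * cM n + dM n < j + 1} with hF
  set n₁ := max n₀ n₂ with hn₁
  set δ : ℕ → ℝ := fun i => 2 * ((1 : ℝ) / 2) ^ i with hδd
  have hδ : ∀ i, 0 < δ i := by
    intro i
    rw [hδd]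
    positivity
  have hanti : Antitone δ := by
    apply antitone_nat_of_succ_le
    intro i
    rw [hδd]
    simp only
    have h1 : ((1 : ℝ) / 2) ^ (i + 1) ≤ ((1 : ℝ) / 2) ^ i :=
      pow_le_pow_of_le_one (by norm_num) (by norm_num) (by omega)
    linarith
  have hδ0 : Tendsto δ atTop (𝓝 0) := by
    have h1 := (tendsto_pow_atTop_nhds_zero_of_lt_one (by norm_num : (0 : ℝ) ≤ 1 / 2)
      (by norm_num)).const_mul 2
    rwa [mul_zero] at h1
  set B : ℕ → ℝ := fun i => 4 * C' * ((2 : ℝ) ^ γ) ^ i with hBd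
  have hcov : ∀ i n : ℕ, n₁ ≤ n → (2 : ℝ) ^ i ≤ Real.log n → Real.log n < 2 ^ (i + 1) →
      ∃ G : Finset ℤ, (G.card : ℝ) ≤ B i ∧ ∀ α ∈ F n, ⌊α / δ i⌋ ∈ G := by
    intro i n hn hi1 hi2
    have h1 : n₀ ≤ n := le_trans (le_max_left _ _) hn
    have h2 : n₂ ≤ n := le_trans (le_max_right _ _) hn
    obtain ⟨hc0, hc1⟩ := hn₂ n h2
    have h2i : (0 : ℝ) < 2 ^ i := by positivity
    have hlogn : 0 < Real.log n := lt_of_lt_of_le h2i hi1
    have h3 : (cM n)⁻¹ ≤ δ i := by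
      refine hc1.trans ?_
      rw [hδd]
      simp only
      rw [one_div_pow, ← div_eq_mul_one_div]
      exact div_le_div_of_nonneg_left (by norm_num) h2i hi1
    obtain ⟨G, hG1, hG2⟩ := cell_cover (cM n) (dM n) (δ i) hc0 (hδ i) h3 (Bad n)
    refine ⟨G, ?_, ?_⟩
    · refine hG1.trans ?_
      have h4 := (hBad n h1).1
      have h5 : (Real.log n) ^ γ ≤ 2 * ((2 : ℝ) ^ γ) ^ i := by
        calc (Real.log n) ^ γ ≤ ((2 : ℝ) ^ (i + 1)) ^ γ := Real.rpow_le_rpow hlogn.le hi2.le hγ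
          _ = ((2 : ℝ) ^ γ) ^ (i + 1) := by
            rw [← Real.rpow_natCast, ← Real.rpow_mul (by norm_num), mul_comm,
              Real.rpow_mul (by norm_num), Real.rpow_natCast]
          _ = (2 : ℝ) ^ γ * ((2 : ℝ) ^ γ) ^ i := by rw [pow_succ]; ring
          _ ≤ _ := by
            have h6 : (2 : ℝ) ^ γ ≤ (2 : ℝ) ^ (1 : ℝ) :=
              Real.rpow_le_rpow_of_exponent_le (by norm_num) hγ1.le
            rw [Real.rpow_one] at h6
            gcongr
      rw [hBd]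
      simp only
      calc 2 * ((Bad n).card : ℝ) ≤ 2 * (C' * (Real.log n) ^ γ) := by gcongr
        _ ≤ 2 * (C' * (2 * ((2 : ℝ) ^ γ) ^ i)) := by gcongr
        _ = _ := by ring
    · intro α hα
      rw [hF] at hα
      obtain ⟨j, hj, hj1, hj2⟩ := hα
      exact hG2 α j hj hj1 hj2
  refine ⟨{α : ℝ | ∃ᶠ N : ℕ in atTop, ε * Real.log N < ∑ n ∈ range N, aS n₁ {n | α ∈ F n} n},
    ?_, ?_⟩
  · -- dimension
    have h1 : ∀ s : ℝ≥0, 0 < s → γ < s → dimH {α : ℝ | ∃ᶠ N : ℕ in atTop, ε * Real.log N <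
      ∑ n ∈ range N, aS n₁ {n | α ∈ F n} n} ≤ s := by
      intro s hs hγs
      apply dim_generic F n₁ δ B hδ hanti hδ0 (fun i => by rw [hBd]; positivity) hcov s hs _ ε hε
      have hs0 : (0 : ℝ) < s := by exact_mod_cast hs
      have h2 : (fun i : ℕ => B i * (δ i) ^ (s : ℝ)) =
          fun i : ℕ => (4 * C' * 2 ^ (s : ℝ)) * ((2 : ℝ) ^ γ * ((1 : ℝ) / 2) ^ (s : ℝ)) ^ i := by
        funext i
        rw [hδd, hBd]
        simp only
        rw [Real.mul_rpow (by norm_num) (by positivity)]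
        have h3 : (((1 : ℝ) / 2) ^ i) ^ (s : ℝ) = (((1 : ℝ) / 2) ^ (s : ℝ)) ^ i := by
          rw [← Real.rpow_natCast, ← Real.rpow_mul (by norm_num), mul_comm,
            Real.rpow_mul (by norm_num), Real.rpow_natCast]
        rw [h3, mul_pow]
        ring
      rw [h2]
      apply Summable.mul_left
      apply summable_geometric_of_lt_one (by positivity)
      have h4 : (2 : ℝ) ^ γ * ((1 : ℝ) / 2) ^ (s : ℝ) = (2 : ℝ) ^ (γ - s) := by
        rw [one_div, Real.inv_rpow (by norm_num), ← Real.rpow_neg (by norm_num),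
          ← Real.rpow_add (by norm_num)]
        congr 1
      rw [h4]
      exact Real.rpow_lt_one_of_one_lt_of_neg (by norm_num) (by linarith)
    apply ENNReal.le_of_forall_pos_le_add
    intro s hs _
    have h2 := h1 (Real.toNNReal γ + s) (by positivity) (by
      push_cast
      rw [Real.coe_toNNReal γ hγ]
      have : (0 : ℝ) < s := by exact_mod_cast hs
      linarith)
    refine h2.trans ?_
    rw [ENNReal.coe_add]
    exact le_rfl
  · intro α hα1 hα2 hE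
    have hlev : ∀ n, n₁ ≤ n → n ∉ {n | α ∈ F n} →
        (((Ioc (2 ^ (n - 1)) (2 ^ n)).filter (QN K γ α)).card : ℝ) ≤
        ε * Nat.primeCounting (2 ^ n) := by
      intro n hn hnS
      have h1 : n₀ ≤ n := le_trans (le_max_left _ _) hn
      exact (hBad n h1).2 α hα1 hα2 (fun j hj hcon => hnS ⟨j, hj, hcon⟩)
    rw [Set.mem_ofPred_eq, not_frequently] at hE
    exact hev (QN K γ α) n₁ {n | α ∈ F n} ε (fun p hp => hp.1) hε hε1 hlev (by
      filter_upwards [hE] with N hN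
      rw [not_lt] at hN
      exact hN)

open Classical in
/-- the final form -/
theorem max_expo (γ : ℝ) (hγ : 0 ≤ γ) (hγ1 : γ < 1) : ∃ E : Set ℝ, dimH E ≤ ENNReal.ofReal γ ∧
    ∀ α : ℝ, 1 < α → α ∉ E → ∀ K : ℝ, ∀ τ : ℝ, 0 < τ →
    ∀ᶠ x : ℕ in atTop, ∑ p ∈ (Icc 1 x).filter (QN K γ α), 1 / (p : ℝ) ≤
      τ * Real.log (Real.log x) := by
  obtain ⟨K', hK', hmain⟩ := max_expo_sets
  have hex : ∀ m : ℕ, ∃ E : Set ℝ, dimH E ≤ ENNReal.ofReal γ ∧ (2 ≤ m → ∀ α : ℝ,
      1 + 1 / (m : ℝ) ≤ α → α ≤ m → α ∉ E → ∀ᶠ x : ℕ in atTop,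
        ∑ p ∈ (Icc 1 x).filter (QN m γ α), 1 / (p : ℝ) ≤
        K' * (1 / (m : ℝ)) * Real.log (Real.log x)) := by
    intro m
    rcases Nat.lt_or_ge m 2 with hm | hm
    · exact ⟨∅, by simp, fun h => absurd h (by omega)⟩
    · have hm' : (2 : ℝ) ≤ m := by exact_mod_cast hm
      have hm1 : 0 < 1 / (m : ℝ) := by positivity
      have hm2 : 1 / (m : ℝ) ≤ 1 / 2 := one_div_le_one_div_of_le (by norm_num) hm'
      obtain ⟨E, h1, h2⟩ := hmain m γ (1 / m) (1 / m) m (by linarith) hγ hγ1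
        hm1 (by linarith) hm1
      exact ⟨E, h1, fun _ => h2⟩
  choose E hE hEP using hex
  refine ⟨⋃ m, E m, ?_, ?_⟩
  · rw [dimH_iUnion]
    exact iSup_le hE
  · intro α hα1 hαE K τ hτ
    obtain ⟨m, hm⟩ := exists_nat_ge (max (max (max 2 α) (1 / (α - 1))) (max K (2 * K' / τ)))
    simp only [max_le_iff] at hm
    obtain ⟨⟨⟨m1, m2⟩, m3⟩, m4, m6⟩ := hm
    have hm0 : (0 : ℝ) < m := by linarith
    have m1' : 2 ≤ m := by exact_mod_cast m1
    have k3 : 1 / (m : ℝ) ≤ α - 1 := by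
      rw [div_le_iff₀ (by linarith)] at m3
      rw [div_le_iff₀ hm0]
      linarith
    have k6 : K' * (1 / (m : ℝ)) ≤ τ / 2 := by
      rw [div_le_iff₀ hτ] at m6
      rw [mul_one_div, div_le_iff₀ hm0]
      linarith
    have h6 := hEP m m1' α (by linarith) m2 (fun h => hαE (Set.mem_iUnion.2 ⟨m, h⟩))
    filter_upwards [h6, tendsto_loglog_nat.eventually_ge_atTop (max 0 (4 / τ))] with x f1 f2
    have f2a : 0 ≤ Real.log (Real.log x) := le_trans (le_max_left _ _) f2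
    have f2b : 2 ≤ τ / 2 * Real.log (Real.log x) := by
      have := le_trans (le_max_right _ _) f2
      rw [div_le_iff₀ hτ] at this
      linarith
    have hsub : (Icc 1 x).filter (QN K γ α) ⊆ (Icc 1 x).filter (QN m γ α) ∪ Icc 1 2 := by
      intro p hp
      rw [mem_filter, mem_Icc] at hp
      obtain ⟨⟨h2, h3⟩, h4, y, h5, h7⟩ := hp
      rw [mem_union]
      by_cases hpM : p ≤ 2
      · right
        exact mem_Icc.2 ⟨h2, hpM⟩
      · left
        rw [mem_filter, mem_Icc]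
        refine ⟨⟨h2, h3⟩, h4, y, h5.trans ?_, h7⟩
        have h8 : (1 : ℝ) ≤ Real.log p := by
          have h9 : (3 : ℝ) ≤ p := by exact_mod_cast (by omega : 3 ≤ p)
          rw [Real.le_log_iff_exp_le (by linarith)]
          have := Real.exp_one_lt_d9
          linarith
        have h9 : 0 ≤ Real.log (Real.log p) := Real.log_nonneg h8
        have h10 : 0 ≤ (Real.log (Real.log p)) ^ γ := Real.rpow_nonneg h9 γ
        have h11 : 0 ≤ (Real.log p) ^ α := Real.rpow_nonneg (by linarith) α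
        gcongr
    have h7 : ∑ p ∈ (Icc 1 x).filter (QN K γ α), 1 / (p : ℝ) ≤
        ∑ p ∈ (Icc 1 x).filter (QN m γ α), 1 / (p : ℝ) + ∑ p ∈ (Icc 1 2 : Finset ℕ), 1 / (p : ℝ) := by
      refine (sum_le_sum_of_subset_of_nonneg hsub (fun p _ _ => by positivity)).trans ?_
      have h2 := sum_union_inter (s₁ := (Icc 1 x).filter (QN m γ α))
        (s₂ := Icc 1 2) (f := fun p : ℕ => 1 / (p : ℝ))
      have h3 : 0 ≤ ∑ p ∈ (Icc 1 x).filter (QN m γ α) ∩ Icc 1 2, 1 / (p : ℝ) := by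
        apply sum_nonneg
        intro p _
        positivity
      linarith
    have h8 : ∑ p ∈ (Icc 1 2 : Finset ℕ), 1 / (p : ℝ) ≤ 2 := by
      have : (Icc 1 2 : Finset ℕ) = {1, 2} := by decide
      rw [this, sum_insert (by decide), sum_singleton]
      norm_num
    calc _ ≤ _ := h7
      _ ≤ K' * (1 / (m : ℝ)) * Real.log (Real.log x) + τ / 2 * Real.log (Real.log x) := by linarith
      _ ≤ τ / 2 * Real.log (Real.log x) + τ / 2 * Real.log (Real.log x) := by gcongr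
      _ = _ := by ring

end Pool.Agent.H.MP_711652_nt
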