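import Mathlib
import Pool.Agent.H.MP_711652_nt.ExpoH
import Pool.Agent.H.MP_711652_nt.MaxExpoB

set_option autoImplicit false

namespace Pool.Agent.H.MP_711652_nt

open Finset MeasureTheory Filter Topology
open scoped ENNReal NNReal

/-- not regular, or near a long prime-free interval -/
def QU (ε α γ K : ℝ) (p : ℕ) : Prop := QLR ε α γ p ∨ QN K 0 α p

open Classical in
theorem union_sets : ∃ K' : ℝ, 0 < K' ∧ ∀ (γ ε η K : ℝ) (A : ℕ), 0 < γ → γ < 1 → 0 < ε → ε ≤ 1 →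
    0 < η → 0 < K → ∃ E P : Set ℝ, dimH E = 0 ∧ P.Countable ∧ ∀ α : ℝ, 1 + η ≤ α → α ≤ A →
    (α ∉ E → ∀ᶠ x : ℕ in atTop, ∑ p ∈ (Icc 1 x).filter (QU ε α γ K), 1 / (p : ℝ) ≤
      K' * ε * Real.log (Real.log x)) ∧
    (α ∉ P → ∃ᶠ x : ℕ in atTop, ∑ p ∈ (Icc 1 x).filter (QU ε α γ K), 1 / (p : ℝ) ≤
      K' * ε * Real.log (Real.log x)) := by
  obtain ⟨K₁, hK₁, hev⟩ := density_event
  obtain ⟨K₂, hK₂, hfr⟩ := density_freq
  refine ⟨K₁ + K₂, by positivity, ?_⟩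
  intro γ ε η K A hγ hγ1 hε hε1 hη hK
  obtain ⟨C₅, hC₅, n₀, hn₀⟩ := block_bad2 γ (ε / 2) η A hγ hγ1 (by positivity) (by linarith) hη
  obtain ⟨n₂, hn₂⟩ := Filter.eventually_atTop.1 (cn_inv_le γ hγ hγ1)
  obtain ⟨C', hC', n₃, hn₃⟩ := level_gap K 0 (ε / 2) η A hK le_rfl (by positivity) hη
  obtain ⟨n₄, hn₄⟩ := eventually_atTop.1 cM_bounds
  have hex : ∀ n, ∃ Bad : Finset ℕ, n₀ ≤ n → (Bad.card : ℝ) ≤ C₅ ∧ ∀ α : ℝ, 1 + η ≤ α → α ≤ A →
      ⌊α * cn γ n⌋₊ ∉ Bad →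
      (((Ioc (2 ^ (n - 1)) (2 ^ n)).filter (fun p : ℕ => p.Prime ∧ ¬ LRr (ε / 2)
        ((Real.log p) ^ α * Real.exp (-(Real.log (Real.log p)) ^ γ))
        ((Real.log p) ^ α * Real.exp ((Real.log (Real.log p)) ^ γ)) p)).card : ℝ) ≤
        ε / 2 * Nat.primeCounting (2 ^ n) := by
    intro n
    by_cases hn : n₀ ≤ n
    · obtain ⟨B, hB⟩ := hn₀ n hn
      exact ⟨B, fun _ => hB⟩
    · exact ⟨∅, fun h => absurd h hn⟩
  choose Bad hBad using hex
  have hex' : ∀ n, ∃ Bad : Finset ℕ, n₃ ≤ n → (Bad.card : ℝ) ≤ C' ∧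
      ∀ α : ℝ, 1 + η ≤ α → α ≤ A →
      (∀ j ∈ Bad, ¬ ((j : ℝ) ≤ α * cM n + dM n ∧ α * cM n + dM n < j + 1)) →
      (((Ioc (2 ^ (n - 1)) (2 ^ n)).filter (QN K 0 α)).card : ℝ) ≤
        ε / 2 * Nat.primeCounting (2 ^ n) := by
    intro n
    by_cases hn : n₃ ≤ n
    · obtain ⟨B, hB1, hB2⟩ := hn₃ n hn
      rw [Real.rpow_zero, mul_one] at hB1
      exact ⟨B, fun _ => ⟨hB1, hB2⟩⟩
    · exact ⟨∅, fun h => absurd h hn⟩
  choose Bad' hBad' using hex'
  set F : ℕ → Set ℝ := fun n => {α | (0 ≤ α ∧ ⌊α * cn γ n⌋₊ ∈ Bad n) ∨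
    ∃ j ∈ Bad' n, (j : ℝ) ≤ α * cM n + dM n ∧ α * cM n + dM n < j + 1} with hF
  set n₁ := max (max n₀ n₂) (max n₃ n₄) with hn₁
  have hn₁a : n₀ ≤ n₁ := le_trans (le_max_left _ _) (le_max_left _ _)
  have hn₁b : n₂ ≤ n₁ := le_trans (le_max_right _ _) (le_max_left _ _)
  have hn₁c : n₃ ≤ n₁ := le_trans (le_max_left _ _) (le_max_right _ _)
  have hn₁d : n₄ ≤ n₁ := le_trans (le_max_right _ _) (le_max_right _ _)
  set δ : ℕ → ℝ := fun i => 4 * ((2 : ℝ) ^ (γ - 1)) ^ i with hδd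
  have hr0 : 0 < (2 : ℝ) ^ (γ - 1) := by positivity
  have hr1 : (2 : ℝ) ^ (γ - 1) < 1 := Real.rpow_lt_one_of_one_lt_of_neg (by norm_num) (by linarith)
  have hr2 : (1 : ℝ) / 2 ≤ (2 : ℝ) ^ (γ - 1) := by
    have h1 : (2 : ℝ) ^ (-1 : ℝ) ≤ (2 : ℝ) ^ (γ - 1) :=
      Real.rpow_le_rpow_of_exponent_le (by norm_num) (by linarith)
    rwa [Real.rpow_neg_one, ← one_div] at h1
  have hδ : ∀ i, 0 < δ i := by
    intro i
    rw [hδd]
    positivity
  have hanti : Antitone δ := by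
    apply antitone_nat_of_succ_le
    intro i
    rw [hδd]
    simp only
    have h1 : ((2 : ℝ) ^ (γ - 1)) ^ (i + 1) ≤ ((2 : ℝ) ^ (γ - 1)) ^ i :=
      pow_le_pow_of_le_one hr0.le hr1.le (by omega)
    linarith
  have hδ0 : Tendsto δ atTop (𝓝 0) := by
    have h1 := (tendsto_pow_atTop_nhds_zero_of_lt_one hr0.le hr1).const_mul 4
    rwa [mul_zero] at h1
  have hcov : ∀ i n : ℕ, n₁ ≤ n → (2 : ℝ) ^ i ≤ Real.log n → Real.log n < 2 ^ (i + 1) →
      ∃ G : Finset ℤ, (G.card : ℝ) ≤ 2 * C₅ + 2 * C' ∧ ∀ α ∈ F n, ⌊α / δ i⌋ ∈ G := by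
    intro i n hn hi1 hi2
    have h1 : n₀ ≤ n := hn₁a.trans hn
    have h2 : n₂ ≤ n := hn₁b.trans hn
    obtain ⟨hc0, hc1⟩ := hn₂ n h2
    have h3 : (cn γ n)⁻¹ ≤ δ i := by
      refine hc1.trans ?_
      rw [hδd]
      simp only
      have h4 : (Real.log n) ^ (γ - 1) ≤ ((2 : ℝ) ^ i) ^ (γ - 1) :=
        Real.rpow_le_rpow_of_nonpos (by positivity) hi1 (by linarith)
      have h5 : ((2 : ℝ) ^ i) ^ (γ - 1) = ((2 : ℝ) ^ (γ - 1)) ^ i := by
        rw [← Real.rpow_natCast, ← Real.rpow_mul (by norm_num), mul_comm, Real.rpow_mul (by norm_num),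
          Real.rpow_natCast]
      rw [h5] at h4
      linarith
    obtain ⟨G, hG1, hG2⟩ := cell_cover (cn γ n) 0 (δ i) hc0 (hδ i) h3 (Bad n)
    obtain ⟨hd0, hd1⟩ := hn₄ n (hn₁d.trans hn)
    have h2i : (0 : ℝ) < 2 ^ i := by positivity
    have h4 : (cM n)⁻¹ ≤ δ i := by
      refine hd1.trans ?_
      rw [hδd]
      simp only
      have h5 : ((1 : ℝ) / 2) ^ i ≤ ((2 : ℝ) ^ (γ - 1)) ^ i := pow_le_pow_left₀ (by norm_num) hr2 i
      have h6 : 2 / Real.log n ≤ 2 / 2 ^ i := div_le_div_of_nonneg_left (by norm_num) h2i hi1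
      have h7 : (2 : ℝ) / 2 ^ i = 2 * ((1 : ℝ) / 2) ^ i := by
        rw [one_div_pow, ← div_eq_mul_one_div]
      have h8 : 0 ≤ ((2 : ℝ) ^ (γ - 1)) ^ i := by positivity
      linarith
    obtain ⟨G', hG1', hG2'⟩ := cell_cover (cM n) (dM n) (δ i) hd0 (hδ i) h4 (Bad' n)
    refine ⟨G ∪ G', ?_, ?_⟩
    · have h5 : ((G ∪ G').card : ℝ) ≤ G.card + G'.card := by exact_mod_cast card_union_le _ _
      have h6 := (hBad n h1).1
      have h7 := (hBad' n (hn₁c.trans hn)).1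
      linarith
    · intro α hα
      rw [mem_union]
      rcases hα with ⟨hα0, hαB⟩ | ⟨j, hj, hj1, hj2⟩
      · left
        have h4 : 0 ≤ α * cn γ n := by positivity
        apply hG2 α _ hαB
        · rw [add_zero]
          exact Nat.floor_le h4
        · rw [add_zero]
          exact Nat.lt_floor_add_one _
      · right
        exact hG2' α j hj hj1 hj2
  refine ⟨{α : ℝ | ∃ᶠ N : ℕ in atTop, ε * Real.log N < ∑ n ∈ range N, aS n₁ {n | α ∈ F n} n},
    {α : ℝ | ∀ᶠ N : ℕ in atTop, ε * Real.log N ≤ ∑ n ∈ range N, aS n₁ {n | α ∈ F n} n}, ?_, ?_, ?_⟩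
  · -- dimension zero
    have h1 : ∀ s : ℝ≥0, 0 < s → dimH {α : ℝ | ∃ᶠ N : ℕ in atTop, ε * Real.log N <
      ∑ n ∈ range N, aS n₁ {n | α ∈ F n} n} ≤ s := by
      intro s hs
      apply dim_generic F n₁ δ (fun _ => 2 * C₅ + 2 * C') hδ hanti hδ0 (fun _ => by positivity)
        hcov s hs _ ε hε
      have hs0 : (0 : ℝ) < s := by exact_mod_cast hs
      have h2 : (fun i : ℕ => (2 * C₅ + 2 * C') * (δ i) ^ (s : ℝ)) =
          fun i : ℕ => ((2 * C₅ + 2 * C') * 4 ^ (s : ℝ)) * (((2 : ℝ) ^ (γ - 1)) ^ (s : ℝ)) ^ i := by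
        funext i
        rw [hδd]
        simp only
        rw [Real.mul_rpow (by norm_num) (by positivity)]
        have h3 : (((2 : ℝ) ^ (γ - 1)) ^ i) ^ (s : ℝ) = (((2 : ℝ) ^ (γ - 1)) ^ (s : ℝ)) ^ i := by
          rw [← Real.rpow_natCast, ← Real.rpow_mul hr0.le, mul_comm, Real.rpow_mul hr0.le,
            Real.rpow_natCast]
        rw [h3]
        ring
      rw [h2]
      apply Summable.mul_left
      apply summable_geometric_of_lt_one (by positivity)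
      exact Real.rpow_lt_one hr0.le hr1 hs0
    apply le_antisymm _ (zero_le)
    apply ENNReal.le_of_forall_pos_le_add
    intro s hs _
    rw [zero_add]
    exact h1 s hs
  · exact (finite_generic F n₁ δ (2 * C₅ + 2 * C') hδ hδ0 (by positivity) hcov ε hε).countable
  · intro α hα1 hα2
    have hα0 : 0 ≤ α := by linarith
    have hlev : ∀ n, n₁ ≤ n → n ∉ {n | α ∈ F n} →
        (((Ioc (2 ^ (n - 1)) (2 ^ n)).filter (QU ε α γ K)).card : ℝ) ≤
        ε * Nat.primeCounting (2 ^ n) := by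
      intro n hn hnS
      have h1 : n₀ ≤ n := hn₁a.trans hn
      have h2 := (hBad n h1).2 α hα1 hα2 (fun h => hnS (Or.inl ⟨hα0, h⟩))
      have h2' := (hBad' n (hn₁c.trans hn)).2 α hα1 hα2
        (fun j hj hcon => hnS (Or.inr ⟨j, hj, hcon⟩))
      have h3 : (Ioc (2 ^ (n - 1)) (2 ^ n)).filter (QU ε α γ K) ⊆
          (Ioc (2 ^ (n - 1)) (2 ^ n)).filter (fun p : ℕ => p.Prime ∧ ¬ LRr (ε / 2)
          ((Real.log p) ^ α * Real.exp (-(Real.log (Real.log p)) ^ γ))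
          ((Real.log p) ^ α * Real.exp ((Real.log (Real.log p)) ^ γ)) p) ∪
          (Ioc (2 ^ (n - 1)) (2 ^ n)).filter (QN K 0 α) := by
        intro p hp
        rw [mem_filter] at hp
        rw [mem_union, mem_filter, mem_filter]
        rcases hp with ⟨h4, h5 | h5⟩
        · left
          refine ⟨h4, h5.1, fun h6 => h5.2 ?_⟩
          exact LRr_mono2 _ _ _ _ _ _ p (by linarith) le_rfl le_rfl h6
        · right
          exact ⟨h4, h5⟩
      have h4 := (card_le_card h3).trans (card_union_le _ _)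
      have h5 : (((Ioc (2 ^ (n - 1)) (2 ^ n)).filter (QU ε α γ K)).card : ℝ) ≤
          ((Ioc (2 ^ (n - 1)) (2 ^ n)).filter (fun p : ℕ => p.Prime ∧ ¬ LRr (ε / 2)
          ((Real.log p) ^ α * Real.exp (-(Real.log (Real.log p)) ^ γ))
          ((Real.log p) ^ α * Real.exp ((Real.log (Real.log p)) ^ γ)) p)).card +
          ((Ioc (2 ^ (n - 1)) (2 ^ n)).filter (QN K 0 α)).card := by exact_mod_cast h4
      linarith
    have hQ : ∀ p, QU ε α γ K p → p.Prime := by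
      intro p hp
      rcases hp with hp | hp
      · exact hp.1
      · exact hp.1
    have hKK : ∀ x : ℕ, 0 ≤ Real.log (Real.log x) → K₁ * ε * Real.log (Real.log x) ≤
        (K₁ + K₂) * ε * Real.log (Real.log x) ∧ K₂ * ε * Real.log (Real.log x) ≤
        (K₁ + K₂) * ε * Real.log (Real.log x) := by
      intro x hx
      constructor
      · gcongr
        linarith
      · gcongr
        linarith
    constructor
    · intro hE
      rw [Set.mem_ofPred_eq, not_frequently] at hE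
      have h1 := hev (QU ε α γ K) n₁ {n | α ∈ F n} ε hQ hε hε1 hlev (by
        filter_upwards [hE] with N hN
        rw [not_lt] at hN
        exact hN)
      filter_upwards [h1, tendsto_loglog_nat.eventually_ge_atTop 0] with x h2 h3
      exact h2.trans (hKK x h3).1
    · intro hP
      rw [Set.mem_ofPred_eq, not_eventually] at hP
      have h1 := hfr (QU ε α γ K) n₁ {n | α ∈ F n} ε hQ hε hε1 hlev (by
        refine hP.mono ?_
        intro N hN
        rw [not_le] at hN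
        exact hN.le)
      refine (h1.and_eventually (tendsto_loglog_nat.eventually_ge_atTop 0)).mono ?_
      rintro x ⟨h2, h3⟩
      exact h2.trans (hKK x h3).2

end Pool.Agent.H.MP_711652_nt
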