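import Mathlib
import Pool.Agent.H.MP_711652_nt.ExpoI

set_option autoImplicit false

namespace Pool.Agent.H.MP_711652_nt

open Finset MeasureTheory Filter Topology

open Classical in
/-- Comparison of the parameters. -/
lemma QU_compare (K' : ℝ) (α γ ε K τ : ℝ) (hα1 : 1 < α) (hγ : γ < 1) (hε : 0 < ε)
    (hτ : 0 < τ) : ∃ m : ℕ, 2 ≤ m ∧ 1 + 1 / (m : ℝ) ≤ α ∧ α ≤ m ∧ K' * (1 / (m : ℝ)) ≤ τ / 2 ∧
    ∃ D : ℝ, ∀ x : ℕ, ∑ p ∈ (Icc 1 x).filter (QU ε α γ K), 1 / (p : ℝ) ≤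
      ∑ p ∈ (Icc 1 x).filter (QU (1 / (m : ℝ)) α (1 - 1 / (m : ℝ)) m), 1 / (p : ℝ) + D := by
  obtain ⟨m, hm⟩ := exists_nat_ge (max (max (max (max 2 K) α) (1 / (α - 1)))
    (max (max (1 / (1 - γ)) (1 / ε)) (2 * K' / τ)))
  simp only [max_le_iff] at hm
  obtain ⟨⟨⟨⟨m1, mK⟩, m2⟩, m3⟩, ⟨m4, m5⟩, m6⟩ := hm
  have hm0 : (0 : ℝ) < m := by linarith
  have m1' : 2 ≤ m := by exact_mod_cast m1
  have hinv : ∀ z : ℝ, 0 < z → 1 / z ≤ m → 1 / (m : ℝ) ≤ z := by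
    intro z hz h
    rw [div_le_iff₀ hz] at h
    rw [div_le_iff₀ hm0]
    linarith
  have k3 := hinv (α - 1) (by linarith) m3
  have k4 := hinv (1 - γ) (by linarith) m4
  have k5 := hinv ε hε m5
  have k6 : K' * (1 / (m : ℝ)) ≤ τ / 2 := by
    rw [div_le_iff₀ hτ] at m6
    rw [mul_one_div, div_le_iff₀ hm0]
    linarith
  set M₀ := ⌈Real.exp (Real.exp 1)⌉₊ with hM₀
  set D := ∑ p ∈ Icc 1 M₀, 1 / (p : ℝ) with hD
  refine ⟨m, m1', by linarith, m2, k6, D, ?_⟩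
  intro x
  have hsub : (Icc 1 x).filter (QU ε α γ K) ⊆
      (Icc 1 x).filter (QU (1 / (m : ℝ)) α (1 - 1 / (m : ℝ)) m) ∪ Icc 1 M₀ := by
    intro p hp
    rw [mem_filter, mem_Icc] at hp
    obtain ⟨⟨h2, h3⟩, hp'⟩ := hp
    rw [mem_union]
    by_cases hpM : p ≤ M₀
    · right
      exact mem_Icc.2 ⟨h2, hpM⟩
    · left
      rw [mem_filter, mem_Icc]
      refine ⟨⟨h2, h3⟩, ?_⟩
      push Not at hpM
      have h6 : Real.exp (Real.exp 1) ≤ p := by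
        refine (Nat.le_ceil _).trans ?_
        exact_mod_cast hpM.le
      have hp0 : (0 : ℝ) < p := lt_of_lt_of_le (Real.exp_pos _) h6
      have h7 : Real.exp 1 ≤ Real.log p := by
        rwa [Real.le_log_iff_exp_le hp0]
      have h8 : 0 < Real.log p := lt_of_lt_of_le (Real.exp_pos _) h7
      have h9 : 1 ≤ Real.log (Real.log p) := by
        rwa [Real.le_log_iff_exp_le h8]
      have h10 : (Real.log (Real.log p)) ^ γ ≤ (Real.log (Real.log p)) ^ (1 - 1 / (m : ℝ)) :=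
        Real.rpow_le_rpow_of_exponent_le h9 (by linarith)
      have h11 : 0 ≤ (Real.log p) ^ α := Real.rpow_nonneg h8.le α
      rcases hp' with ⟨h4, h5⟩ | ⟨h4, y, h5, h7'⟩
      · left
        refine ⟨h4, fun hlr => h5 ?_⟩
        apply LRr_mono2 _ _ _ _ _ _ p k5 _ _ hlr
        · apply mul_le_mul_of_nonneg_left _ h11
          apply Real.exp_le_exp.2
          linarith
        · exact mul_le_mul_of_nonneg_left (Real.exp_le_exp.2 h10) h11
      · right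
        refine ⟨h4, y, h5.trans ?_, h7'⟩
        rw [Real.rpow_zero]
        gcongr
  refine (sum_le_sum_of_subset_of_nonneg hsub (fun p _ _ => by positivity)).trans ?_
  have h2 := sum_union_inter (s₁ := (Icc 1 x).filter (QU (1 / (m : ℝ)) α (1 - 1 / (m : ℝ)) m))
    (s₂ := Icc 1 M₀) (f := fun p : ℕ => 1 / (p : ℝ))
  have h3 : 0 ≤ ∑ p ∈ (Icc 1 x).filter (QU (1 / (m : ℝ)) α (1 - 1 / (m : ℝ)) m) ∩ Icc 1 M₀,
      1 / (p : ℝ) := by
    apply sum_nonneg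
    intro p _
    positivity
  linarith

open Classical in
theorem union_exponents : ∃ P E : Set ℝ, P ⊆ E ∧ P.Countable ∧ dimH E = 0 ∧
    ∀ α : ℝ, 1 < α → ∀ γ ε K : ℝ, γ < 1 → 0 < ε → ∀ τ : ℝ, 0 < τ →
      (α ∉ E → ∀ᶠ x : ℕ in atTop, ∑ p ∈ (Icc 1 x).filter (QU ε α γ K), 1 / (p : ℝ) ≤
        τ * Real.log (Real.log x)) ∧
      (α ∉ P → ∃ᶠ x : ℕ in atTop, ∑ p ∈ (Icc 1 x).filter (QU ε α γ K), 1 / (p : ℝ) ≤
        τ * Real.log (Real.log x)) := by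
  obtain ⟨K', hK', hmain⟩ := union_sets
  have hex : ∀ m : ℕ, ∃ E P : Set ℝ, dimH E = 0 ∧ P.Countable ∧ (2 ≤ m → ∀ α : ℝ,
      1 + 1 / (m : ℝ) ≤ α → α ≤ m →
      (α ∉ E → ∀ᶠ x : ℕ in atTop,
        ∑ p ∈ (Icc 1 x).filter (QU (1 / (m : ℝ)) α (1 - 1 / (m : ℝ)) m), 1 / (p : ℝ) ≤
        K' * (1 / (m : ℝ)) * Real.log (Real.log x)) ∧
      (α ∉ P → ∃ᶠ x : ℕ in atTop,
        ∑ p ∈ (Icc 1 x).filter (QU (1 / (m : ℝ)) α (1 - 1 / (m : ℝ)) m), 1 / (p : ℝ) ≤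
        K' * (1 / (m : ℝ)) * Real.log (Real.log x))) := by
    intro m
    rcases Nat.lt_or_ge m 2 with hm | hm
    · exact ⟨∅, ∅, by simp, Set.countable_empty, fun h => absurd h (by omega)⟩
    · have hm' : (2 : ℝ) ≤ m := by exact_mod_cast hm
      have hm1 : 0 < 1 / (m : ℝ) := by positivity
      have hm2 : 1 / (m : ℝ) ≤ 1 / 2 := one_div_le_one_div_of_le (by norm_num) hm'
      obtain ⟨E, P, h1, h2, h3⟩ := hmain (1 - 1 / (m : ℝ)) (1 / m) (1 / m) m m (by linarith)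
        (by linarith) hm1 (by linarith) hm1 (by linarith)
      exact ⟨E, P, h1, h2, fun _ => h3⟩
  choose E P hE hP hEP using hex
  have hPc : (⋃ m, P m).Countable := Set.countable_iUnion hP
  refine ⟨⋃ m, P m, (⋃ m, E m) ∪ ⋃ m, P m, Set.subset_union_right, hPc, ?_, ?_⟩
  · rw [dimH_union, dimH_iUnion, hPc.dimH_zero]
    simp [hE]
  · intro α hα1 γ ε K hγ hε τ hτ
    obtain ⟨m, h1, h2, h3, h4, D, h5⟩ := QU_compare K' α γ ε K τ hα1 hγ hε hτ
    have hfin : ∀ x : ℕ, max 0 (2 * D / τ) ≤ Real.log (Real.log x) →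
        ∑ p ∈ (Icc 1 x).filter (QU (1 / (m : ℝ)) α (1 - 1 / (m : ℝ)) m), 1 / (p : ℝ) ≤
        K' * (1 / (m : ℝ)) * Real.log (Real.log x) →
        ∑ p ∈ (Icc 1 x).filter (QU ε α γ K), 1 / (p : ℝ) ≤ τ * Real.log (Real.log x) := by
      intro x f2 f1
      have f2a : 0 ≤ Real.log (Real.log x) := le_trans (le_max_left _ _) f2
      have f2b : D ≤ τ / 2 * Real.log (Real.log x) := by
        have := le_trans (le_max_right _ _) f2
        rw [div_le_iff₀ hτ] at this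
        linarith
      calc _ ≤ _ := h5 x
        _ ≤ K' * (1 / (m : ℝ)) * Real.log (Real.log x) + τ / 2 * Real.log (Real.log x) := by
            gcongr
        _ ≤ τ / 2 * Real.log (Real.log x) + τ / 2 * Real.log (Real.log x) := by gcongr
        _ = _ := by ring
    have e1 := tendsto_loglog_nat.eventually_ge_atTop (max 0 (2 * D / τ))
    constructor
    · intro hαE
      have h6 := ((hEP m h1 α h2 h3).1 (fun h => hαE (Or.inl (Set.mem_iUnion.2 ⟨m, h⟩))))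
      filter_upwards [h6, e1] with x f1 f2
      exact hfin x f2 f1
    · intro hαP
      have h6 := ((hEP m h1 α h2 h3).2 (fun h => hαP (Set.mem_iUnion.2 ⟨m, h⟩)))
      refine (h6.and_eventually e1).mono ?_
      rintro x ⟨f1, f2⟩
      exact hfin x f2 f1

end Pool.Agent.H.MP_711652_nt
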