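import Mathlib

set_option autoImplicit false

namespace Pool.Agent.H.MP_711652_nt

open Finset

/-- PROOF. Let `d = 2 x' - x - y`. From `2 x' ^ 2 = x ^ 2 + y ^ 2`:
`(2 x' - x) ^ 2 - y ^ 2 = 2 (x' - x) ^ 2`, that is `d * (2 x' - x + y) = 2 (x' - x) ^ 2`.
Moreover `x ≤ 2 x'` and `y ≤ 2 x'` (as `x ^ 2, y ^ 2 ≤ 2 x' ^ 2`), so `0 ≤ 2 x' - x + y ≤ 4 x'`.
If `x' = 0` then `x = y = 0`. Otherwise `2 x' - x + y > 0`, `d ≥ 0` and
`4 x' * d ≥ d * (2 x' - x + y) = 2 (x' - x) ^ 2`. -/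
lemma gap_pair (x y x' : ℝ) (hx : 0 ≤ x) (hy : 0 ≤ y) (hx' : 0 ≤ x')
    (h : 2 * x' ^ 2 = x ^ 2 + y ^ 2) :
    0 ≤ 2 * x' - x - y ∧ (x' - x) ^ 2 ≤ 2 * x' * (2 * x' - x - y) := by
  have h1 : (x + y) ^ 2 ≤ (2 * x') ^ 2 := by
    have h2 : (2 * x') ^ 2 - (x + y) ^ 2 = (x - y) ^ 2 := by linear_combination 2 * h
    have h3 := sq_nonneg (x - y)
    linarith only [h2, h3]
  have h4 : x + y ≤ 2 * x' := (sq_le_sq₀ (add_nonneg hx hy) (by positivity)).1 h1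
  have hd : 0 ≤ 2 * x' - x - y := by linarith only [h4]
  refine ⟨hd, ?_⟩
  have h5 : 2 * (x' - x) ^ 2 = (2 * x' - x - y) * (2 * x' - x + y) := by
    linear_combination (-1) * h
  have h6 : 2 * x' - x + y ≤ 4 * x' := by linarith only [h4, hx]
  have h7 : (2 * x' - x - y) * (2 * x' - x + y) ≤ (2 * x' - x - y) * (4 * x') :=
    mul_le_mul_of_nonneg_left h6 hd
  linarith only [h5, h7]

/-- One step of the induction. PROOF. If `x' = 0` then by the hypotheses everything is `0` or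
`≥ 0`. If `x' > 0`: by `gap_pair`, `d := 2 x' - x - y ≥ (x' - x) ^ 2 / (2 x')`, so it is enough
that `x / g + (x' - x) ^ 2 / (2 t x') ≥ x' / (g + t)`. Multiply by `2 t x' g (g + t) > 0`, put
`x = x' - z`: `2 t x' (g + t) (x' - z) + g (g + t) z ^ 2 - 2 t g x' ^ 2
= 2 t ^ 2 x' ^ 2 - 2 t (g + t) x' z + g (g + t) z ^ 2`, a quadratic form in `(t x', z)` with
matrix entries `2, -(g + t), g (g + t)`; its discriminant is
`(g + t) ^ 2 - 2 g (g + t) = (g + t) (t - g) ≤ 0`. -/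
lemma gap_step (x y x' g t D : ℝ) (hx : 0 ≤ x) (hy : 0 ≤ y) (hx' : 0 ≤ x') (ht : 0 < t)
    (htg : t ≤ g) (h : 2 * x' ^ 2 = x ^ 2 + y ^ 2) (hD : x / g ≤ D) :
    x' / (g + t) ≤ D + 1 / t * (2 * x' - x - y) := by
  obtain ⟨hd, hp⟩ := gap_pair x y x' hx hy hx' h
  have hg : 0 < g := ht.trans_le htg
  obtain ⟨d, hdd⟩ : ∃ d, d = 2 * x' - x - y := ⟨_, rfl⟩
  rw [← hdd] at hd hp ⊢
  suffices hs : x' / (g + t) ≤ x / g + d / t by
    have h1 : 1 / t * d = d / t := by ring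
    rw [h1]
    linarith only [hs, hD]
  rcases hx'.eq_or_lt with h0 | h0
  · rw [← h0, zero_div]
    positivity
  · rw [div_add_div _ _ hg.ne' ht.ne', div_le_div_iff₀ (by positivity) (by positivity)]
    have hN : 0 ≤ 2 * (t * x' - (g + t) * (x' - x) / 2) ^ 2 +
        (g + t) * (g - t) / 2 * (x' - x) ^ 2 := by
      have h1 : 0 ≤ g - t := by linarith only [htg]
      positivity
    have h2 : g * (g + t) * (x' - x) ^ 2 ≤ g * (g + t) * (2 * x' * d) :=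
      mul_le_mul_of_nonneg_left hp (by positivity)
    have h3 : 2 * x' * (x' * (g * t)) ≤ 2 * x' * ((x * t + g * d) * (g + t)) := by
      linear_combination hN + h2
    exact le_of_mul_le_mul_left h3 (by positivity)

/-- **Sequence lemma.** PROOF. By induction on `m ≤ r`, with `g m = 4 - 3 * (2 / 3) ^ m`
(so `g (m + 1) = g m + (2 / 3) ^ m`, `1 ≤ g m ≤ 4`, and `(2 / 3) ^ m ≤ 1 ≤ g m`):
`x m / g m ≤ ∑ i ∈ range m, (3 / 2) ^ i * (2 * x (i + 1) - x i - y i)`. For `m = 0` both sides are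
`0`. Step: `gap_step` with `t = (2 / 3) ^ m`, `1 / t = (3 / 2) ^ m`. Finally
`x r / 4 ≤ x r / g r`. -/
theorem gap_seq (x y : ℕ → ℝ) (r : ℕ) (hx : ∀ i, 0 ≤ x i) (hy : ∀ i, 0 ≤ y i)
    (h : ∀ i, i < r → 2 * x (i + 1) ^ 2 = x i ^ 2 + y i ^ 2) (h0 : x 0 = 0) :
    x r / 4 ≤ ∑ i ∈ range r, (3 / 2 : ℝ) ^ i * (2 * x (i + 1) - x i - y i) := by
  have hpow : ∀ m : ℕ, (2 / 3 : ℝ) ^ m ≤ 1 := fun m => pow_le_one₀ (by norm_num) (by norm_num)
  have hpos : ∀ m : ℕ, 0 < (2 / 3 : ℝ) ^ m := fun m => by positivity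
  have key : ∀ m, m ≤ r → x m / (4 - 3 * (2 / 3 : ℝ) ^ m) ≤
      ∑ i ∈ range m, (3 / 2 : ℝ) ^ i * (2 * x (i + 1) - x i - y i) := by
    intro m
    induction m with
    | zero =>
      intro _
      simp [h0]
    | succ m ih =>
      intro hm
      have h1 := ih (by omega)
      have h2 := gap_step (x m) (y m) (x (m + 1)) (4 - 3 * (2 / 3 : ℝ) ^ m) ((2 / 3 : ℝ) ^ m) _
        (hx m) (hy m) (hx (m + 1)) (hpos m) (by linarith only [hpow m]) (h m (by omega)) h1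
      have h3 : (4 - 3 * (2 / 3 : ℝ) ^ m) + (2 / 3 : ℝ) ^ m = 4 - 3 * (2 / 3 : ℝ) ^ (m + 1) := by
        rw [pow_succ]
        ring
      have h4 : 1 / (2 / 3 : ℝ) ^ m = (3 / 2 : ℝ) ^ m := by
        rw [one_div, ← inv_pow]
        norm_num
      rw [h3, h4] at h2
      rw [sum_range_succ]
      exact h2
  refine le_trans ?_ (key r le_rfl)
  have h5 : 0 < 4 - 3 * (2 / 3 : ℝ) ^ r := by linarith only [hpow r]
  exact div_le_div_of_nonneg_left (hx r) h5 (by linarith only [hpos r])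

end Pool.Agent.H.MP_711652_nt
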