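import Mathlib
import Pool.Agent.H.MP_711652_nt.EntDefs

set_option autoImplicit false

namespace Pool.Agent.H.MP_711652_nt

open Finset

/-- `W` is constant on the blocks `[q s, (q + 1) s)`. -/
def Blk (s : ℕ) (W : ℕ → ℝ) : Prop := ∀ m n : ℕ, m / s = n / s → W m = W n

/-- Normalised Hellinger energy at scale `L` of the block of length `T` containing `n`. -/
noncomputable def en (L T : ℕ) (f : ℕ → ℝ) (n : ℕ) : ℝ :=
  avg T (fun k => (√(avg L f k) - √(avg T f k)) ^ 2) n / avg T f n

/-- The block of length `L` containing `n` contains a central point `k` at which `f` is bad. -/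
def BadB (f : ℕ → ℝ) (ε : ℝ) (H R L T n : ℕ) : Prop :=
  ∃ k : ℕ, k / L = n / L ∧ R + L ≤ k % T ∧ k % T + (2 * R + L) < T ∧
    0 < avg T f k ∧ ¬ GoodAt f ε (avg T f k) H R k

open Classical in
/-- Number of the `i < J` with `B i n`. -/
noncomputable def nb (B : ℕ → ℕ → Prop) (J n : ℕ) : ℕ :=
  ((range J).filter (fun i => B i n)).card

end Pool.Agent.H.MP_711652_nt
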