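import Mathlib
import Pool.Agent.H.MP_711652_nt.TailDefs

set_option autoImplicit false

namespace Pool.Agent.H.MP_711652_nt

open Finset

/-- Weighted sum of the square roots of the averages at the levels `j, ..., j + r - 1`. -/
noncomputable def gv (f : ℕ → ℝ) (b r j n : ℕ) : ℝ :=
  ∑ i ∈ range r, (3 / 4 : ℝ) ^ i * √(avg (b * 2 ^ (j + i)) f n)

/-- The block of level `j + r` containing `n` contains a block of level `j` on which `f` has
average `0`. -/
def BadG (f : ℕ → ℝ) (b r j n : ℕ) : Prop :=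
  ∃ k : ℕ, k / (b * 2 ^ (j + r)) = n / (b * 2 ^ (j + r)) ∧ avg (b * 2 ^ j) f k = 0

end Pool.Agent.H.MP_711652_nt
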