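import Mathlib
import Pool.Agent.H.MP_711652_nt.TailDefs
import Pool.Agent.H.MP_711652_nt.EntB1

set_option autoImplicit false

namespace Pool.Agent.H.MP_711652_nt

open Finset

/-- PROOF. Unfold `avg`; `m / s = n / s`. -/
lemma blk_avg (s : ℕ) (f : ℕ → ℝ) : Blk s (avg s f) := by
  intro m n h
  unfold avg
  rw [h]

/-- PROOF. `T = s * t`, `m / (s * t) = (m / s) / t` (`Nat.div_div_eq_div_mul`). -/
lemma blk_of_dvd {s T : ℕ} (h : s ∣ T) {W : ℕ → ℝ} (hW : Blk T W) : Blk s W := by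
  intro m n hmn
  obtain ⟨t, rfl⟩ := h
  apply hW
  rw [← Nat.div_div_eq_div_mul, ← Nat.div_div_eq_div_mul, hmn]

/-- PROOF. Both the numerator and the denominator are `avg T _`; `blk_avg`. -/
lemma blk_en (L T : ℕ) (f : ℕ → ℝ) : Blk T (en L T f) := by
  intro m n h
  unfold en
  rw [blk_avg T (fun k => (√(avg L f k) - √(avg T f k)) ^ 2) m n h, blk_avg T f m n h]

lemma en_nonneg (L T : ℕ) (f : ℕ → ℝ) (hf : ∀ k, 0 ≤ f k) (n : ℕ) : 0 ≤ en L T f n := by
  unfold en
  exact div_nonneg (avg_nonneg T _ (fun _ => sq_nonneg _) n) (avg_nonneg T f hf n)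

/-- PROOF. `sum_avg_mul` (file `Avg`), `M = m * s`. -/
lemma sum_mul_blk (M s : ℕ) (hs : 0 < s) (hsM : s ∣ M) (f g : ℕ → ℝ) (hg : Blk s g) :
    ∑ n ∈ range M, f n * g n = ∑ n ∈ range M, avg s f n * g n := by
  obtain ⟨m, rfl⟩ := hsM
  rw [mul_comm s m]
  symm
  apply sum_avg_mul m s hs f g
  intro q i hi
  apply hg
  rw [div_block hi, Nat.mul_div_cancel _ hs]

/-- PROOF. The block of `n` is `Ico (q * T) (q * T + T)`, a union of `L`-blocks; use `sum_Ico_avg`
(file `EntB1`) and divide by `T`. -/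
lemma avg_avg_eq (L T : ℕ) (hL : 0 < L) (hLT : L ∣ T) (f : ℕ → ℝ) (n : ℕ) :
    avg T (avg L f) n = avg T f n := by
  obtain ⟨t, rfl⟩ := hLT
  unfold avg
  have key : ∀ g : ℕ → ℝ, ∑ i ∈ range (L * t), g (n / (L * t) * (L * t) + i) =
      ∑ k ∈ Ico ((n / (L * t) * t) * L) ((n / (L * t) * t + t) * L), g k := by
    intro g
    have e1 : (n / (L * t) * t) * L = n / (L * t) * (L * t) := by ring
    have e2 : (n / (L * t) * t + t) * L = n / (L * t) * (L * t) + L * t := by ring
    rw [e1, e2, Finset.sum_Ico_eq_sum_range, Nat.add_sub_cancel_left]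
  have h1 := key (avg L f)
  have h2 := key f
  have h3 := sum_Ico_avg L (n / (L * t) * t) (n / (L * t) * t + t) hL (Nat.le_add_right _ _) f
  unfold avg at h1 h3
  rw [h1, h2, h3]

/-- PROOF. Write `u = avg L f`, `v = avg T f n` (constant on the block). Expanding the square and
averaging over the block, `avg T ((√u - √v) ^ 2) n = avg T u n - 2 √v * avg T (√u) n + v =
2 v - 2 √v * avg T (√u) n` (`avg_avg_eq`). If `v > 0` divide by `2 v` and use `√v * √v = v`. If
`v = 0` then `u = 0` on the block (it is non-negative with average `0`), so both sides are `0`. -/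
lemma avg_sqrt_eq (L T : ℕ) (hL : 0 < L) (hT : 0 < T) (hLT : L ∣ T) (f : ℕ → ℝ)
    (hf : ∀ k, 0 ≤ f k) (n : ℕ) :
    avg T (fun k => √(avg L f k)) n = √(avg T f n) * (1 - en L T f n / 2) := by
  obtain ⟨u, hu⟩ : ∃ u : ℕ → ℝ, ∀ i, u i = avg L f (n / T * T + i) := ⟨_, fun _ => rfl⟩
  obtain ⟨v, hv⟩ : ∃ v : ℝ, v = avg T f n := ⟨_, rfl⟩
  have hu0 : ∀ i, 0 ≤ u i := fun i => by
    rw [hu]
    exact avg_nonneg L f hf _
  have hv0 : 0 ≤ v := by
    rw [hv]
    exact avg_nonneg T f hf n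
  have hTr : (0 : ℝ) < T := by exact_mod_cast hT
  have hvb : ∀ i ∈ range T, avg T f (n / T * T + i) = v := by
    intro i hi
    rw [mem_range] at hi
    rw [hv]
    apply blk_avg T f
    exact div_block hi
  have hsum : ∑ i ∈ range T, u i = v * T := by
    have h1 := avg_avg_eq L T hL hLT f n
    rw [← hv] at h1
    unfold avg at h1
    rw [div_eq_iff hTr.ne'] at h1
    rw [← h1]
    apply sum_congr rfl
    intro i _
    rw [hu]
    rfl
  have hA : avg T (fun k => √(avg L f k)) n = (∑ i ∈ range T, √(u i)) / T := by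
    unfold avg
    congr 1
    apply sum_congr rfl
    intro i _
    rw [hu]
    rfl
  have hE : en L T f n = (∑ i ∈ range T, (√(u i) - √v) ^ 2) / T / v := by
    unfold en
    rw [← hv]
    congr 1
    have : avg T (fun k => (√(avg L f k) - √(avg T f k)) ^ 2) n =
        (∑ i ∈ range T, (√(avg L f (n / T * T + i)) - √(avg T f (n / T * T + i))) ^ 2) / T := rfl
    rw [this]
    congr 1
    apply sum_congr rfl
    intro i hi
    rw [hvb i hi, hu]
  obtain ⟨a, ha⟩ : ∃ a : ℝ, a = ∑ i ∈ range T, √(u i) := ⟨_, rfl⟩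
  have hsq : ∑ i ∈ range T, (√(u i) - √v) ^ 2 = 2 * v * T - 2 * √v * a := by
    have h1 : ∀ i ∈ range T, (√(u i) - √v) ^ 2 = u i - 2 * √v * √(u i) + v := by
      intro i _
      have e1 := Real.sq_sqrt (hu0 i)
      have e2 := Real.sq_sqrt hv0
      calc (√(u i) - √v) ^ 2 = √(u i) ^ 2 - 2 * √v * √(u i) + √v ^ 2 := by ring
        _ = _ := by rw [e1, e2]
    rw [sum_congr rfl h1, sum_add_distrib, sum_sub_distrib, ← mul_sum, hsum, ← ha, sum_const,
      card_range, nsmul_eq_mul]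
    ring
  rw [hA, hE, hsq, ← ha, ← hv]
  rcases hv0.eq_or_lt with h0 | h0
  · have hz : ∀ i ∈ range T, u i = 0 := by
      rw [← h0, zero_mul] at hsum
      exact (sum_eq_zero_iff_of_nonneg fun i _ => hu0 i).1 hsum
    have ha0 : a = 0 := by
      rw [ha]
      apply sum_eq_zero
      intro i hi
      rw [hz i hi, Real.sqrt_zero]
    rw [ha0, ← h0, Real.sqrt_zero]
    ring
  · have e2 := Real.mul_self_sqrt hv0
    have hvne : v ≠ 0 := h0.ne'
    have e3 : √v * ((2 * v * T - 2 * √v * a) / T / v / 2) = √v - a / T := by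
      have : √v * ((2 * v * T - 2 * √v * a) / T / v / 2) =
          (√v * (v * T) - (√v * √v) * a) / (T * v) := by
        field_simp
      rw [this, e2]
      field_simp
    rw [mul_sub, mul_one, e3]
    ring

end Pool.Agent.H.MP_711652_nt
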