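import Mathlib
import Pool.Agent.H.MP_711652_nt.GTDefs
import Pool.Agent.H.MP_711652_nt.TailA1

set_option autoImplicit false

namespace Pool.Agent.H.MP_711652_nt

open Finset

lemma GTA2_avg_blk {s : ℕ} (hs : 0 < s) {W : ℕ → ℝ} (hW : Blk s W) (k : ℕ) : avg s W k = W k := by
  unfold avg
  have h1 : ∀ i ∈ range s, W (k / s * s + i) = W k := fun i hi =>
    hW _ _ (div_block (mem_range.1 hi))
  rw [sum_congr rfl h1, sum_const, card_range, nsmul_eq_mul]
  have : (s : ℝ) ≠ 0 := by exact_mod_cast hs.ne'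
  exact mul_div_cancel_left₀ _ this

lemma GTA2_mono (s : ℕ) {f g : ℕ → ℝ} (h : ∀ k, f k ≤ g k) (k : ℕ) : avg s f k ≤ avg s g k := by
  unfold avg
  exact div_le_div_of_nonneg_right (sum_le_sum fun i _ => h _) (Nat.cast_nonneg s)

lemma GTA2_sub (s : ℕ) (f g : ℕ → ℝ) (k : ℕ) :
    avg s (fun n => f n - g n) k = avg s f k - avg s g k := by
  unfold avg
  rw [sum_sub_distrib, sub_div]

/-- the average over a block of length `2 s` is the mean of the averages over the halves -/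
lemma GTA2_split {s : ℕ} (hs : 0 < s) (g : ℕ → ℝ) (k : ℕ) :
    avg (2 * s) g k = (avg s g (2 * (k / (2 * s)) * s) +
      avg s g ((2 * (k / (2 * s)) + 1) * s)) / 2 := by
  unfold avg
  obtain ⟨Q, hQ⟩ : ∃ Q, Q = k / (2 * s) := ⟨_, rfl⟩
  rw [← hQ, Nat.mul_div_cancel _ hs, Nat.mul_div_cancel _ hs]
  have h1 : ∑ i ∈ range (2 * s), g (Q * (2 * s) + i) =
      ∑ i ∈ range s, g (2 * Q * s + i) + ∑ i ∈ range s, g ((2 * Q + 1) * s + i) := by
    rw [two_mul, sum_range_add]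
    congr 1
    · refine sum_congr rfl fun i _ => ?_
      congr 1
      ring
    · refine sum_congr rfl fun i _ => ?_
      congr 1
      ring
  rw [h1]
  have hs' : (s : ℝ) ≠ 0 := by exact_mod_cast hs.ne'
  push_cast
  field_simp

lemma GTA2_cases {s : ℕ} (k : ℕ) :
    k / s = 2 * (k / (2 * s)) ∨ k / s = 2 * (k / (2 * s)) + 1 := by
  have h1 : k / (2 * s) = k / s / 2 := by
    rw [mul_comm 2 s, Nat.div_div_eq_div_mul]
  rw [h1]
  omega

lemma GTA2_at {s : ℕ} (hs : 0 < s) (f : ℕ → ℝ) {k j : ℕ} (h : k / s = j) :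
    avg s f k = avg s f (j * s) := by
  apply blk_avg s f
  rw [h, Nat.mul_div_cancel _ hs]

lemma GTA2_two (b l : ℕ) : b * 2 ^ (l + 1) = 2 * (b * 2 ^ l) := by
  rw [pow_succ]
  ring

lemma GTA2_blk_sqrt (s : ℕ) (f : ℕ → ℝ) : Blk s (fun n => √(avg s f n)) := by
  intro m n h
  show √(avg s f m) = √(avg s f n)
  rw [blk_avg s f m n h]

/-- The two halves of a block. PROOF. `s = b 2^l`, `T = b 2^(l+1) = 2 s`, `q = k / T`; the block is
`[q T, q T + T)` and its halves are the `s`-blocks with indices `2 q` and `2 q + 1`;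
`k / s` is one of the two. Let `u0`, `u1` be the values of `avg s f` on the halves. Then
`avg T f k = (u0 + u1) / 2` and `avg T (√(avg s f)) k = (√u0 + √u1) / 2`
(`sum_range_add`, `avg_block`). -/
lemma avg_halves (f : ℕ → ℝ) (b l k : ℕ) (hb : 0 < b) :
    avg (b * 2 ^ (l + 1)) (fun n => √(avg (b * 2 ^ l) f n)) k =
      (√(avg (b * 2 ^ l) f k) +
        √(2 * avg (b * 2 ^ (l + 1)) f k - avg (b * 2 ^ l) f k)) / 2 := by
  have hs : 0 < b * 2 ^ l := by positivity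
  rw [GTA2_two]
  generalize b * 2 ^ l = s at hs
  rw [GTA2_split hs, GTA2_split hs f k, GTA2_avg_blk hs (GTA2_blk_sqrt s f),
    GTA2_avg_blk hs (GTA2_blk_sqrt s f)]
  rcases GTA2_cases (s := s) k with h | h
  · rw [GTA2_at hs f h]
    congr 2
    congr 1
    ring
  · rw [GTA2_at hs f h, add_comm (√(avg s f (2 * (k / (2 * s)) * s)))]
    congr 2
    congr 1
    ring

/-- PROOF. As in `avg_halves`: `avg (b 2^l) f k ≤ u0 + u1 = 2 * avg (b 2^(l+1)) f k`. -/
lemma avg_half_le (f : ℕ → ℝ) (hf : ∀ k, 0 ≤ f k) (b l k : ℕ) (hb : 0 < b) :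
    avg (b * 2 ^ l) f k ≤ 2 * avg (b * 2 ^ (l + 1)) f k := by
  have hs : 0 < b * 2 ^ l := by positivity
  rw [GTA2_two]
  generalize b * 2 ^ l = s at hs
  have h0 := avg_nonneg s f hf (2 * (k / (2 * s)) * s)
  have h1 := avg_nonneg s f hf ((2 * (k / (2 * s)) + 1) * s)
  rw [GTA2_split hs]
  rcases GTA2_cases (s := s) k with h | h
  · rw [GTA2_at hs f h]
    linarith only [h1]
  · rw [GTA2_at hs f h]
    linarith only [h0]

lemma GTA2_dvd (b : ℕ) {l m : ℕ} (h : l ≤ m) : b * 2 ^ l ∣ b * 2 ^ m :=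
  Nat.mul_dvd_mul_left b (pow_dvd_pow 2 h)

/-- Refinement lowers the average of the square root. PROOF. `avg_sqrt_eq`, `en_nonneg` for the
scales `b 2^l ∣ b 2^(l')`; and if `l' ≤ m`, `avg (b 2^m) (avg (b 2^l') g) = avg (b 2^m) g`
(`avg_avg_eq`) with `g = √(avg (b 2^l) f)`, where `avg (b 2^l') g ≤ √(avg (b 2^l') f)` pointwise,
and `avg` is monotone. -/
lemma avg_sqrt_mono (f : ℕ → ℝ) (hf : ∀ k, 0 ≤ f k) (b l l' m n : ℕ) (hb : 0 < b) (hl : l ≤ l')
    (hm : l' ≤ m) :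
    avg (b * 2 ^ m) (fun k => √(avg (b * 2 ^ l) f k)) n ≤
      avg (b * 2 ^ m) (fun k => √(avg (b * 2 ^ l') f k)) n := by
  have h1 : ∀ k, avg (b * 2 ^ l') (fun k => √(avg (b * 2 ^ l) f k)) k ≤
      √(avg (b * 2 ^ l') f k) := by
    intro k
    rw [avg_sqrt_eq (b * 2 ^ l) (b * 2 ^ l') (by positivity) (by positivity) (GTA2_dvd b hl) f hf k]
    have h2 := en_nonneg (b * 2 ^ l) (b * 2 ^ l') f hf k
    have h3 := Real.sqrt_nonneg (avg (b * 2 ^ l') f k)
    have h4 := mul_nonneg h3 h2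
    linarith only [h4]
  rw [← avg_avg_eq (b * 2 ^ l') (b * 2 ^ m) (by positivity) (GTA2_dvd b hm)
    (fun k => √(avg (b * 2 ^ l) f k)) n]
  exact GTA2_mono _ h1 n

/-- a block of length `L` inside a block of length `L * t` -/
lemma GTA2_part {L t : ℕ} (ht : 0 < t) {h : ℕ → ℝ} (h0 : ∀ k, 0 ≤ h k)
    (hblk : Blk L h) {k n : ℕ} (hk : k / (L * t) = n / (L * t)) :
    (L : ℝ) / (L * t : ℕ) * h k ≤ avg (L * t) h n := by
  unfold avg
  rw [← hk, div_mul_eq_mul_div]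
  refine div_le_div_of_nonneg_right ?_ (Nat.cast_nonneg _)
  obtain ⟨r, hr⟩ : ∃ r, r = k / L % t := ⟨_, rfl⟩
  have h1 : k / L = t * (k / (L * t)) + r := by
    rw [hr, ← Nat.div_div_eq_div_mul]
    exact (Nat.div_add_mod _ _).symm
  have hrt : r < t := by
    rw [hr]
    exact Nat.mod_lt _ ht
  have h2 : ∀ i ∈ Ico (L * r) (L * r + L), h (k / (L * t) * (L * t) + i) = h k := by
    intro i hi
    rw [mem_Ico] at hi
    apply hblk
    obtain ⟨j, rfl⟩ : ∃ j, i = L * r + j := ⟨i - L * r, by omega⟩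
    have hj : j < L := by omega
    have h3 : k / (L * t) * (L * t) + (L * r + j) = (t * (k / (L * t)) + r) * L + j := by ring
    rw [h3, div_block hj, h1]
  have h3 : Ico (L * r) (L * r + L) ⊆ range (L * t) := by
    intro i hi
    rw [mem_Ico] at hi
    rw [mem_range]
    have h4 : L * (r + 1) ≤ L * t := Nat.mul_le_mul_left L hrt
    have h5 : L * (r + 1) = L * r + L := by ring
    omega
  have h4 : ∑ i ∈ Ico (L * r) (L * r + L), h (k / (L * t) * (L * t) + i) = L * h k := by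
    rw [sum_congr rfl h2, sum_const, Nat.card_Ico, nsmul_eq_mul, Nat.add_sub_cancel_left]
  rw [← h4]
  exact sum_le_sum_of_subset_of_nonneg h3 fun i _ _ => h0 _

/-- Drop of the square roots in the part of a block of level `m` around `k`. PROOF.
`g k = √(avg (b 2^(l+1)) f k) - √(avg (b 2^l) f k)`. By `avg_avg_eq`,
`avg (b 2^m) g n = avg (b 2^m) (avg (b 2^(l+1)) g) n`, the inner function is `≥ 0` everywhere
(`avg_sqrt_mono` with `m = l' = l + 1`), it is constant on the block of level `l + 1` containing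
`k`, and there its value is `x' - (x + y) / 2` by `avg_halves`. This block is contained in the
block of level `m` of `n` (same as that of `k`), and has the proportion `2^(l+1) / 2^m` of it. So
`avg (b 2^m) g n ≥ 2^(l+1) / 2^m * (x' - (x + y) / 2) = 2^l / 2^m * (2 x' - x - y)`. -/
lemma drop_ge (f : ℕ → ℝ) (hf : ∀ k, 0 ≤ f k) (b l m n k : ℕ) (hb : 0 < b) (hlm : l + 1 ≤ m)
    (hk : k / (b * 2 ^ m) = n / (b * 2 ^ m)) :
    (2 : ℝ) ^ l / 2 ^ m * (2 * √(avg (b * 2 ^ (l + 1)) f k) - √(avg (b * 2 ^ l) f k) -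
      √(2 * avg (b * 2 ^ (l + 1)) f k - avg (b * 2 ^ l) f k)) ≤
      avg (b * 2 ^ m) (fun k => √(avg (b * 2 ^ (l + 1)) f k)) n -
      avg (b * 2 ^ m) (fun k => √(avg (b * 2 ^ l) f k)) n := by
  have hL : 0 < b * 2 ^ (l + 1) := by positivity
  have hval : ∀ k, avg (b * 2 ^ (l + 1))
      (fun k => √(avg (b * 2 ^ (l + 1)) f k) - √(avg (b * 2 ^ l) f k)) k =
      √(avg (b * 2 ^ (l + 1)) f k) - avg (b * 2 ^ (l + 1)) (fun k => √(avg (b * 2 ^ l) f k)) k := by
    intro k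
    rw [GTA2_sub, GTA2_avg_blk hL (GTA2_blk_sqrt _ f)]
  have h0 : ∀ k, 0 ≤ avg (b * 2 ^ (l + 1))
      (fun k => √(avg (b * 2 ^ (l + 1)) f k) - √(avg (b * 2 ^ l) f k)) k := by
    intro k
    have h1 := avg_sqrt_mono f hf b l (l + 1) (l + 1) k hb (Nat.le_succ l) le_rfl
    rw [GTA2_sub]
    exact sub_nonneg.2 h1
  obtain ⟨d, rfl⟩ : ∃ d, m = l + 1 + d := ⟨m - (l + 1), by omega⟩
  have hM : b * 2 ^ (l + 1 + d) = b * 2 ^ (l + 1) * 2 ^ d := by
    rw [pow_add]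
    ring
  have h2 := GTA2_part (L := b * 2 ^ (l + 1)) (t := 2 ^ d) (by positivity) h0
    (blk_avg _ _) (k := k) (n := n) (by rw [← hM]; exact hk)
  rw [← hM, avg_avg_eq (b * 2 ^ (l + 1)) (b * 2 ^ (l + 1 + d)) hL (GTA2_dvd b (by omega)),
    hval, avg_halves f b l k hb, GTA2_sub] at h2
  refine le_trans (le_of_eq ?_) h2
  have hb' : (b : ℝ) ≠ 0 := by exact_mod_cast hb.ne'
  have h3 : ((b * 2 ^ (l + 1) : ℕ) : ℝ) / ((b * 2 ^ (l + 1 + d) : ℕ) : ℝ) =
      2 * ((2 : ℝ) ^ l / 2 ^ (l + 1 + d)) := by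
    push_cast
    rw [mul_div_mul_left _ _ hb', pow_succ (2 : ℝ) l, mul_comm ((2 : ℝ) ^ l) 2, mul_div_assoc]
  rw [h3]
  ring

end Pool.Agent.H.MP_711652_nt
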