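import Mathlib
import Pool.Agent.H.MP_711652_nt.GTA1
import Pool.Agent.H.MP_711652_nt.GTA2

set_option autoImplicit false

namespace Pool.Agent.H.MP_711652_nt

open Finset

/-- `avg` is linear: `avg T (gv f b r j) n` is the weighted sum of the averages. -/
lemma avg_gv (f : ℕ → ℝ) (b r j T n : ℕ) :
    avg T (gv f b r j) n =
      ∑ i ∈ range r, (3 / 4 : ℝ) ^ i * avg T (fun k => √(avg (b * 2 ^ (j + i)) f k)) n := by
  have h1 : avg T (gv f b r j) n =
      (∑ t ∈ range T, ∑ i ∈ range r, (3 / 4 : ℝ) ^ i *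
        √(avg (b * 2 ^ (j + i)) f (n / T * T + t))) / T := rfl
  rw [h1, sum_comm, sum_div]
  refine sum_congr rfl fun i _ => ?_
  rw [← mul_sum, mul_div_assoc]
  rfl

/-- Refinement lowers the average of `gv`. -/
lemma gv_mono (f : ℕ → ℝ) (hf : ∀ k, 0 ≤ f k) (b r j n : ℕ) (hb : 0 < b) :
    avg (b * 2 ^ (j + r)) (gv f b r j) n ≤ avg (b * 2 ^ (j + r)) (gv f b r (j + 1)) n := by
  rw [avg_gv, avg_gv]
  refine sum_le_sum fun i hi => ?_
  rw [mem_range] at hi
  refine mul_le_mul_of_nonneg_left ?_ (by positivity)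
  exact avg_sqrt_mono f hf b (j + i) (j + 1 + i) (j + r) n hb (by omega) (by omega)

lemma gta3_const (f : ℕ → ℝ) (T n : ℕ) (hT : 0 < T) :
    avg T (fun k => √(avg T f k)) n = √(avg T f n) := by
  have h1 : avg T (fun k => √(avg T f k)) n =
      (∑ t ∈ range T, √(avg T f (n / T * T + t))) / T := rfl
  have h2 : ∀ t ∈ range T, √(avg T f (n / T * T + t)) = √(avg T f n) := by
    intro t ht
    rw [mem_range] at ht
    congr 1
    unfold avg
    rw [div_block ht]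
  have h3 : (T : ℝ) ≠ 0 := by exact_mod_cast hT.ne'
  rw [h1, sum_congr rfl h2, sum_const, card_range, nsmul_eq_mul, mul_div_cancel_left₀ _ h3]

lemma gta3_geom (r : ℕ) : ∑ i ∈ range r, (3 / 4 : ℝ) ^ i ≤ 4 := by
  have h1 : ∑ i ∈ range r, (3 / 4 : ℝ) ^ i = 4 - 4 * (3 / 4 : ℝ) ^ r := by
    induction r with
    | zero => simp
    | succ r ih =>
      rw [sum_range_succ, ih, pow_succ]
      ring
  have h2 : (0 : ℝ) ≤ (3 / 4 : ℝ) ^ r := by positivity
  rw [h1]
  linarith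

/-- Upper bound by the square root of the average over the block. -/
lemma gv_top (f : ℕ → ℝ) (hf : ∀ k, 0 ≤ f k) (b r j n : ℕ) (hb : 0 < b) :
    avg (b * 2 ^ (j + r)) (gv f b r (j + 1)) n ≤ 4 * √(avg (b * 2 ^ (j + r)) f n) := by
  have hT : 0 < b * 2 ^ (j + r) := by positivity
  rw [avg_gv]
  have h1 : ∑ i ∈ range r, (3 / 4 : ℝ) ^ i *
      avg (b * 2 ^ (j + r)) (fun k => √(avg (b * 2 ^ (j + 1 + i)) f k)) n ≤
      ∑ i ∈ range r, (3 / 4 : ℝ) ^ i * √(avg (b * 2 ^ (j + r)) f n) := by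
    refine sum_le_sum fun i hi => ?_
    rw [mem_range] at hi
    refine mul_le_mul_of_nonneg_left ?_ (by positivity)
    rw [← gta3_const f (b * 2 ^ (j + r)) n hT]
    exact avg_sqrt_mono f hf b (j + 1 + i) (j + r) (j + r) n hb (by omega) le_rfl
  refine h1.trans ?_
  rw [← sum_mul]
  exact mul_le_mul_of_nonneg_right (gta3_geom r) (Real.sqrt_nonneg _)

lemma gta3_pow (i j r : ℕ) : (3 / 4 : ℝ) ^ i * ((2 : ℝ) ^ (j + i) / 2 ^ (j + r)) =
    (1 / 2 : ℝ) ^ r * (3 / 2 : ℝ) ^ i := by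
  rw [pow_add, pow_add, mul_div_mul_left _ _ (by positivity : (2 : ℝ) ^ j ≠ 0), ← mul_div_assoc,
    ← mul_pow, one_div, inv_pow, div_eq_mul_inv, mul_comm]
  norm_num

/-- Gain at a block containing an empty block of level `j`. -/
lemma gv_gain (f : ℕ → ℝ) (hf : ∀ k, 0 ≤ f k) (b r j n : ℕ) (hb : 0 < b)
    (h : BadG f b r j n) :
    avg (b * 2 ^ (j + r)) (gv f b r j) n ≤
      (1 - (1 / 2 : ℝ) ^ r / 16) * avg (b * 2 ^ (j + r)) (gv f b r (j + 1)) n := by
  obtain ⟨k, hk, hk0⟩ := h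
  set x : ℕ → ℝ := fun i => √(avg (b * 2 ^ (j + i)) f k) with hx
  set y : ℕ → ℝ := fun i => √(2 * avg (b * 2 ^ (j + i + 1)) f k - avg (b * 2 ^ (j + i)) f k)
    with hy
  have hxy : ∀ i, i < r → 2 * x (i + 1) ^ 2 = x i ^ 2 + y i ^ 2 := by
    intro i _
    have e1 : x (i + 1) ^ 2 = avg (b * 2 ^ (j + i + 1)) f k :=
      Real.sq_sqrt (avg_nonneg _ f hf k)
    have e2 : x i ^ 2 = avg (b * 2 ^ (j + i)) f k := Real.sq_sqrt (avg_nonneg _ f hf k)
    have e3 : y i ^ 2 = 2 * avg (b * 2 ^ (j + i + 1)) f k - avg (b * 2 ^ (j + i)) f k := by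
      refine Real.sq_sqrt ?_
      have := avg_half_le f hf b (j + i) k hb
      linarith only [this]
    rw [e1, e2, e3]
    ring
  have hx0 : x 0 = 0 := by
    show √(avg (b * 2 ^ (j + 0)) f k) = 0
    rw [add_zero, hk0, Real.sqrt_zero]
  have hseq := gap_seq x y r (fun i => Real.sqrt_nonneg _) (fun i => Real.sqrt_nonneg _) hxy hx0
  have hD : (1 / 2 : ℝ) ^ r * ∑ i ∈ range r, (3 / 2 : ℝ) ^ i * (2 * x (i + 1) - x i - y i) ≤
      avg (b * 2 ^ (j + r)) (gv f b r (j + 1)) n - avg (b * 2 ^ (j + r)) (gv f b r j) n := by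
    rw [avg_gv, avg_gv, ← sum_sub_distrib, mul_sum]
    refine sum_le_sum fun i hi => ?_
    rw [mem_range] at hi
    have h1 := drop_ge f hf b (j + i) (j + r) n k hb (by omega) hk
    have h2 := mul_le_mul_of_nonneg_left h1 (by positivity : (0 : ℝ) ≤ (3 / 4 : ℝ) ^ i)
    rw [← mul_assoc, gta3_pow] at h2
    have e4 : j + 1 + i = j + i + 1 := by omega
    rw [e4, ← mul_sub, ← mul_assoc]
    exact h2
  have hxr : x r = √(avg (b * 2 ^ (j + r)) f n) := by
    show √(avg (b * 2 ^ (j + r)) f k) = _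
    congr 1
    unfold avg
    rw [hk]
  have htop := gv_top f hf b r j n hb
  rw [← hxr] at htop
  have hp : (0 : ℝ) ≤ (1 / 2 : ℝ) ^ r := by positivity
  have h3 := mul_le_mul_of_nonneg_left hseq hp
  have h4 := mul_le_mul_of_nonneg_left htop hp
  linarith only [hD, h3, h4]

end Pool.Agent.H.MP_711652_nt
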