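import Mathlib
import Pool.Agent.H.MP_711652_nt.TailA1
import Pool.Agent.H.MP_711652_nt.EntA2

set_option autoImplicit false

namespace Pool.Agent.H.MP_711652_nt

open Finset

/-- One step of the supermartingale. PROOF. `V n = exp (en L T f n / 2) * W n` is constant on
`T`-blocks (`blk_en`). By `sum_mul_blk` (scale `T`) and `avg_sqrt_eq` the left side is
`∑ √(avg T f n) * (1 - en / 2) * exp (en / 2) * W n`, and `(1 - x) * exp x ≤ 1`
(`Real.one_sub_le_exp_neg` or `Real.add_one_le_exp (-x)`). -/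
lemma step_down (M L T : ℕ) (hM : 0 < M) (hL : 0 < L) (hLT : L ∣ T) (hTM : T ∣ M) (f W : ℕ → ℝ)
    (hf : ∀ k, 0 ≤ f k) (hW0 : ∀ k, 0 ≤ W k) (hW : Blk T W) :
    ∑ n ∈ range M, √(avg L f n) * (Real.exp (en L T f n / 2) * W n) ≤
      ∑ n ∈ range M, √(avg T f n) * W n := by
  have hT : 0 < T := Nat.pos_of_dvd_of_pos hTM hM
  have hg : Blk T (fun n => Real.exp (en L T f n / 2) * W n) := by
    intro m n h
    change Real.exp (en L T f m / 2) * W m = Real.exp (en L T f n / 2) * W n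
    rw [blk_en L T f m n h, hW m n h]
  rw [sum_mul_blk M T hT hTM (fun k => √(avg L f k)) (fun n => Real.exp (en L T f n / 2) * W n) hg]
  refine sum_le_sum fun n _ => ?_
  change avg T (fun k => √(avg L f k)) n * (Real.exp (en L T f n / 2) * W n) ≤ _
  rw [avg_sqrt_eq L T hL hT hLT f hf n]
  have h1 : (1 - en L T f n / 2) * Real.exp (en L T f n / 2) ≤ 1 := by
    have h2 := mul_le_mul_of_nonneg_right (Real.one_sub_le_exp_neg (en L T f n / 2))
      (Real.exp_pos (en L T f n / 2)).le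
    rwa [← Real.exp_add, neg_add_cancel, Real.exp_zero] at h2
  have h3 : √(avg T f n) * (1 - en L T f n / 2) * (Real.exp (en L T f n / 2) * W n) =
      √(avg T f n) * W n * ((1 - en L T f n / 2) * Real.exp (en L T f n / 2)) := by ring
  rw [h3]
  exact mul_le_of_le_one_right (mul_nonneg (Real.sqrt_nonneg _) (hW0 n)) h1

/-- PROOF. As `step_down`, with `1 - en / 2 ≤ 1` (or from `step_down`, as `1 ≤ exp (en / 2)`). -/
lemma coarsen (M L T : ℕ) (hM : 0 < M) (hL : 0 < L) (hLT : L ∣ T) (hTM : T ∣ M) (f W : ℕ → ℝ)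
    (hf : ∀ k, 0 ≤ f k) (hW0 : ∀ k, 0 ≤ W k) (hW : Blk T W) :
    ∑ n ∈ range M, √(avg L f n) * W n ≤ ∑ n ∈ range M, √(avg T f n) * W n := by
  have hT : 0 < T := Nat.pos_of_dvd_of_pos hTM hM
  rw [sum_mul_blk M T hT hTM (fun k => √(avg L f k)) W hW]
  refine sum_le_sum fun n _ => ?_
  rw [avg_sqrt_eq L T hL hT hLT f hf n]
  have h1 : 1 - en L T f n / 2 ≤ 1 := sub_le_self _ (div_nonneg (en_nonneg L T f hf n) (by norm_num))
  exact mul_le_mul_of_nonneg_right (mul_le_of_le_one_right (Real.sqrt_nonneg _) h1) (hW0 n)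

/-- Supermartingale along a chain. PROOF. Induction on `J`, for all `R` and `W`. `J = 0`:
`coarsen` with `L = b`, `T = R`. Step from `J` to `J + 1`: `exp` of the sum is
`exp (∑_{i < J}) * exp (en (s J) (T J) f n / 2)`; use the induction hypothesis with `R := s J` and
`W' n = exp (en (s J) (T J) f n / 2) * W n`, which is constant on the `T J`-blocks (`T J ∣ R`),
hence on the `s J`-blocks; then `step_down` with `L = s J`, `T = T J`, then `coarsen` with
`L = T J`, `T = R`. -/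
theorem sqrt_chain (M b : ℕ) (s T : ℕ → ℕ) (hM : 0 < M) (hb : 0 < b) (f : ℕ → ℝ)
    (hf : ∀ k, 0 ≤ f k) : ∀ J R : ℕ, (∀ i, i < J → 0 < s i ∧ b ∣ s i ∧ s i ∣ T i) →
    (∀ i j, i < j → j < J → T i ∣ s j) → (∀ i, i < J → T i ∣ R) → b ∣ R → R ∣ M →
    ∀ W : ℕ → ℝ, (∀ k, 0 ≤ W k) → Blk R W →
    ∑ n ∈ range M, √(avg b f n) *
      (Real.exp ((∑ i ∈ range J, en (s i) (T i) f n) / 2) * W n) ≤
      ∑ n ∈ range M, √(avg R f n) * W n := by
  intro J
  induction J with
  | zero =>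
    intro R _ _ _ hbR hRM W hW0 hW
    simp only [range_zero, sum_empty, zero_div, Real.exp_zero, one_mul]
    exact coarsen M b R hM hb hbR hRM f W hf hW0 hW
  | succ J ih =>
    intro R h1 h2 h3 hbR hRM W hW0 hW
    obtain ⟨hs, hbs, hsT⟩ := h1 J (Nat.lt_succ_self J)
    have hTR : T J ∣ R := h3 J (Nat.lt_succ_self J)
    have hTM : T J ∣ M := hTR.trans hRM
    have hTpos : 0 < T J := Nat.pos_of_dvd_of_pos hTM hM
    have hWT : Blk (T J) W := blk_of_dvd hTR hW
    have hg : Blk (T J) (fun n => Real.exp (en (s J) (T J) f n / 2) * W n) := by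
      intro m n h
      change Real.exp (en (s J) (T J) f m / 2) * W m = Real.exp (en (s J) (T J) f n / 2) * W n
      rw [blk_en (s J) (T J) f m n h, hWT m n h]
    have h4 := ih (s J) (fun i hi => h1 i (Nat.lt_succ_of_lt hi))
      (fun i j hij hj => h2 i j hij (Nat.lt_succ_of_lt hj))
      (fun i hi => h2 i J hi (Nat.lt_succ_self J)) hbs (hsT.trans hTM)
      (fun n => Real.exp (en (s J) (T J) f n / 2) * W n)
      (fun k => mul_nonneg (Real.exp_pos _).le (hW0 k)) (blk_of_dvd hsT hg)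
    have h5 := step_down M (s J) (T J) hM hs hsT hTM f W hf hW0 hWT
    have h6 := coarsen M (T J) R hM hTpos hTR hRM f W hf hW0 hW
    refine le_trans (le_of_eq ?_) (h4.trans (h5.trans h6))
    refine sum_congr rfl fun n _ => ?_
    rw [sum_range_succ, add_div, Real.exp_add, mul_assoc]

/-- PROOF. `EntA2_avg_top`: for `n < M`, `avg M f n = S / M`; so the sum is `M * √(S / M) =
√(M * S)` (`S = ∑ f ≥ 0`, `M > 0`). -/
lemma sum_sqrt_top (M : ℕ) (hM : 0 < M) (f : ℕ → ℝ) (hf : ∀ k, 0 ≤ f k) :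
    ∑ n ∈ range M, √(avg M f n) = √(M * ∑ n ∈ range M, f n) := by
  have hM' : (0 : ℝ) < M := by exact_mod_cast hM
  have h1 : ∀ n ∈ range M, √(avg M f n) = √((∑ k ∈ range M, f k) / M) := by
    intro n hn
    rw [EntA2_avg_top M f n (mem_range.1 hn)]
  rw [sum_congr rfl h1, sum_const, card_range, nsmul_eq_mul]
  have h2 : (M : ℝ) * ∑ n ∈ range M, f n = (M : ℝ) ^ 2 * ((∑ k ∈ range M, f k) / M) := by
    field_simp
  rw [h2, Real.sqrt_mul (sq_nonneg _), Real.sqrt_sq hM'.le]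

/-- PROOF. `sqrt_chain` with `R = M`, `W = 1`, and `sum_sqrt_top`. -/
theorem sqrt_total (M b J : ℕ) (s T : ℕ → ℕ) (hM : 0 < M) (hb : 0 < b) (f : ℕ → ℝ)
    (hf : ∀ k, 0 ≤ f k) (h1 : ∀ i, i < J → 0 < s i ∧ b ∣ s i ∧ s i ∣ T i)
    (h2 : ∀ i j, i < j → j < J → T i ∣ s j) (h3 : ∀ i, i < J → T i ∣ M) (hbM : b ∣ M) :
    ∑ n ∈ range M, √(avg b f n) * Real.exp ((∑ i ∈ range J, en (s i) (T i) f n) / 2) ≤
      √(M * ∑ n ∈ range M, f n) := by
  have h4 := sqrt_chain M b s T hM hb f hf J M h1 h2 h3 hbM dvd_rfl (fun _ => 1)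
    (fun _ => zero_le_one) (fun _ _ _ => rfl)
  simp only [mul_one] at h4
  rw [sum_sqrt_top M hM f hf] at h4
  exact h4

end Pool.Agent.H.MP_711652_nt
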