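import Mathlib
import Pool.Agent.H.MP_711652_nt.TailA1

set_option autoImplicit false

namespace Pool.Agent.H.MP_711652_nt

open Finset

/-- PROOF. `range (J + 1) = insert J (range J)`, `filter_insert`. -/
lemma nb_succ (B : ℕ → ℕ → Prop) (J n : ℕ) [Decidable (B J n)] :
    nb B (J + 1) n = nb B J n + if B J n then 1 else 0 := by
  classical
  unfold nb
  rw [range_add_one, filter_insert]
  by_cases h : B J n
  · rw [if_pos h, if_pos h, card_insert_of_notMem]
    intro hm
    have := (mem_filter.1 hm).1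
    rw [mem_range] at this
    omega
  · rw [if_neg h, if_neg h, add_zero]

open Classical in
/-- PROOF. Put `V n = exp (-(x * κ * en L T f n)) * W n`, constant on the `T`-blocks. The left
side is `∑ f V + x * ∑ (f 1_B) V`. By `sum_mul_blk` (scale `T`), `hB` and `sum_mul_blk` again
(`en * V` is constant on `T`-blocks), `∑ (f 1_B) V = ∑ avg T (f 1_B) V ≤ κ ∑ avg T f * (en * V) =
κ ∑ f * (en * V)`. So the left side is at most `∑ f * (1 + x κ en) * exp (-(x κ en)) * W ≤ ∑ f W`
since `(1 + y) * exp (-y) ≤ 1` (`Real.add_one_le_exp y`). -/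
lemma bad_step (M L T : ℕ) (hM : 0 < M) (hL : 0 < L) (hLT : L ∣ T) (hTM : T ∣ M) (f W : ℕ → ℝ)
    (hf : ∀ k, 0 ≤ f k) (hW0 : ∀ k, 0 ≤ W k) (hW : Blk T W) (B : ℕ → Prop) (x κ : ℝ)
    (hx : 0 ≤ x) (hκ : 0 ≤ κ)
    (hB : ∀ n, avg T (fun k => if B k then f k else 0) n ≤ κ * (en L T f n * avg T f n)) :
    ∑ n ∈ range M, f n * ((1 + x) ^ (if B n then 1 else 0) *
      (Real.exp (-(x * κ * en L T f n)) * W n)) ≤ ∑ n ∈ range M, f n * W n := by
  set V : ℕ → ℝ := fun n => Real.exp (-(x * κ * en L T f n)) * W n with hV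
  have hVblk : Blk T V := by
    intro m n h
    simp only [hV]
    rw [blk_en L T f m n h, hW m n h]
  have hV0 : ∀ n, 0 ≤ V n := fun n => mul_nonneg (Real.exp_pos _).le (hW0 n)
  have hT : 0 < T := Nat.pos_of_dvd_of_pos hTM hM
  set g : ℕ → ℝ := fun k => if B k then f k else 0 with hg
  have h1 : ∀ n, f n * ((1 + x) ^ (if B n then 1 else 0) * V n) =
      f n * V n + x * (g n * V n) := by
    intro n
    by_cases hb : B n
    · simp only [hg, if_pos hb, pow_one]; ring
    · simp only [hg, if_neg hb, pow_zero]; ring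
  have h2 : ∑ n ∈ range M, g n * V n ≤ κ * ∑ n ∈ range M, f n * (en L T f n * V n) := by
    rw [sum_mul_blk M T hT hTM g V hVblk]
    have h3 : ∑ n ∈ range M, f n * (en L T f n * V n) =
        ∑ n ∈ range M, avg T f n * (en L T f n * V n) := by
      refine sum_mul_blk M T hT hTM f (fun n => en L T f n * V n) ?_
      intro m n h
      show en L T f m * V m = en L T f n * V n
      rw [blk_en L T f m n h, hVblk m n h]
    rw [h3, mul_sum]
    apply sum_le_sum
    intro n _
    calc avg T g n * V n ≤ κ * (en L T f n * avg T f n) * V n :=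
          mul_le_mul_of_nonneg_right (hB n) (hV0 n)
      _ = κ * (avg T f n * (en L T f n * V n)) := by ring
  have h4 : ∑ n ∈ range M, f n * ((1 + x) ^ (if B n then 1 else 0) * V n) =
      ∑ n ∈ range M, f n * V n + x * ∑ n ∈ range M, g n * V n := by
    rw [mul_sum, ← sum_add_distrib]
    exact sum_congr rfl fun n _ => h1 n
  have h5 : x * ∑ n ∈ range M, g n * V n ≤
      x * (κ * ∑ n ∈ range M, f n * (en L T f n * V n)) := mul_le_mul_of_nonneg_left h2 hx
  have h6 : ∑ n ∈ range M, f n * V n + x * (κ * ∑ n ∈ range M, f n * (en L T f n * V n)) ≤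
      ∑ n ∈ range M, f n * W n := by
    rw [mul_sum, mul_sum, ← sum_add_distrib]
    apply sum_le_sum
    intro n _
    have h7 : (1 + x * κ * en L T f n) * Real.exp (-(x * κ * en L T f n)) ≤ 1 := by
      have h8 := Real.add_one_le_exp (x * κ * en L T f n)
      calc (1 + x * κ * en L T f n) * Real.exp (-(x * κ * en L T f n)) ≤
          Real.exp (x * κ * en L T f n) * Real.exp (-(x * κ * en L T f n)) :=
            mul_le_mul_of_nonneg_right (by linarith only [h8]) (Real.exp_pos _).le
        _ = 1 := by rw [← Real.exp_add, add_neg_cancel, Real.exp_zero]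
    calc f n * V n + x * (κ * (f n * (en L T f n * V n))) =
        ((1 + x * κ * en L T f n) * Real.exp (-(x * κ * en L T f n))) * (f n * W n) := by
          simp only [hV]; ring
      _ ≤ 1 * (f n * W n) := mul_le_mul_of_nonneg_right h7 (mul_nonneg (hf n) (hW0 n))
      _ = f n * W n := one_mul _
  linarith only [h4, h5, h6]

open Classical in
/-- Supermartingale for the number of bad events. PROOF. Induction on `J`, for all `R`, `W`.
`J = 0`: both sides are equal (`nb B 0 n = 0`). Step: by `nb_succ`,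
`(1 + x) ^ (nb B (J + 1) n) = (1 + x) ^ (nb B J n) * (1 + x) ^ (if B J n then 1 else 0)`, the
exponential splits in the same way, and the induction hypothesis is used with `R := s J` and
`W' n = (1 + x) ^ (if B J n then 1 else 0) * (exp (-(x * κ * en (s J) (T J) f n)) * W n)`, constant
on the `s J`-blocks (`B J` is, and `W`, `en` are constant on the `T J`-blocks). Then `bad_step`
with `L = s J`, `T = T J` (`W` is constant on `T J`-blocks as `T J ∣ R`). -/
theorem bad_super (M : ℕ) (s T : ℕ → ℕ) (hM : 0 < M) (f : ℕ → ℝ)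
    (hf : ∀ k, 0 ≤ f k) (B : ℕ → ℕ → Prop) (x κ : ℝ) (hx : 0 ≤ x) (hκ : 0 ≤ κ) : ∀ J R : ℕ,
    (∀ i, i < J → 0 < s i ∧ s i ∣ T i) → (∀ i j, i < j → j < J → T i ∣ s j) →
    (∀ i, i < J → T i ∣ R) → R ∣ M →
    (∀ i, i < J → ∀ m n, m / s i = n / s i → (B i m ↔ B i n)) →
    (∀ i, i < J → ∀ n, avg (T i) (fun k => if B i k then f k else 0) n ≤
      κ * (en (s i) (T i) f n * avg (T i) f n)) →
    ∀ W : ℕ → ℝ, (∀ k, 0 ≤ W k) → Blk R W →
    ∑ n ∈ range M, f n * ((1 + x) ^ (nb B J n) *
      (Real.exp (-(x * κ * ∑ i ∈ range J, en (s i) (T i) f n)) * W n)) ≤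
      ∑ n ∈ range M, f n * W n := by
  intro J
  induction J with
  | zero =>
    intro R _ _ _ _ _ _ W _ _
    apply le_of_eq
    apply sum_congr rfl
    intro n _
    simp [nb]
  | succ J ih =>
    intro R h1 h2 h3 h4 h5 h6 W hW0 hW
    have hsJ := (h1 J (Nat.lt_succ_self J)).1
    have hsT := (h1 J (Nat.lt_succ_self J)).2
    have hTR := h3 J (Nat.lt_succ_self J)
    have hWT : Blk (T J) W := blk_of_dvd hTR hW
    have hWs : Blk (s J) W := blk_of_dvd hsT hWT
    have hes : Blk (s J) (en (s J) (T J) f) := blk_of_dvd hsT (blk_en (s J) (T J) f)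
    set W' : ℕ → ℝ := fun n => (1 + x) ^ (if B J n then 1 else 0) *
      (Real.exp (-(x * κ * en (s J) (T J) f n)) * W n) with hW'
    have hx1 : (0 : ℝ) ≤ 1 + x := by linarith only [hx]
    have hW'0 : ∀ k, 0 ≤ W' k := fun k =>
      mul_nonneg (pow_nonneg hx1 _) (mul_nonneg (Real.exp_pos _).le (hW0 k))
    have hW'b : Blk (s J) W' := by
      intro m n h
      have hb := h5 J (Nat.lt_succ_self J) m n h
      show (1 + x) ^ (if B J m then 1 else 0) *
        (Real.exp (-(x * κ * en (s J) (T J) f m)) * W m) = (1 + x) ^ (if B J n then 1 else 0) *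
        (Real.exp (-(x * κ * en (s J) (T J) f n)) * W n)
      rw [hWs m n h, hes m n h]
      by_cases hbm : B J m
      · rw [if_pos hbm, if_pos (hb.1 hbm)]
      · rw [if_neg hbm, if_neg (fun hn => hbm (hb.2 hn))]
    have h7 := ih (s J) (fun i hi => h1 i (Nat.lt_succ_of_lt hi))
      (fun i j hij hj => h2 i j hij (Nat.lt_succ_of_lt hj))
      (fun i hi => h2 i J hi (Nat.lt_succ_self J))
      (hsT.trans (hTR.trans h4))
      (fun i hi => h5 i (Nat.lt_succ_of_lt hi))
      (fun i hi => h6 i (Nat.lt_succ_of_lt hi)) W' hW'0 hW'b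
    have h8 := bad_step M (s J) (T J) hM hsJ hsT (hTR.trans h4) f W hf hW0 hWT (B J) x κ hx hκ
      (h6 J (Nat.lt_succ_self J))
    refine le_trans (le_of_eq ?_) (h7.trans h8)
    apply sum_congr rfl
    intro n _
    show f n * ((1 + x) ^ (nb B (J + 1) n) *
      (Real.exp (-(x * κ * ∑ i ∈ range (J + 1), en (s i) (T i) f n)) * W n)) =
      f n * ((1 + x) ^ (nb B J n) *
      (Real.exp (-(x * κ * ∑ i ∈ range J, en (s i) (T i) f n)) *
      ((1 + x) ^ (if B J n then 1 else 0) *
      (Real.exp (-(x * κ * en (s J) (T J) f n)) * W n))))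
    rw [nb_succ, pow_add, sum_range_succ, mul_add, neg_add, Real.exp_add]
    ring

end Pool.Agent.H.MP_711652_nt
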