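import Mathlib
import Pool.Agent.H.MP_711652_nt.GTA3
import Pool.Agent.H.MP_711652_nt.TailA2
import Pool.Agent.H.MP_711652_nt.TailB1

set_option autoImplicit false

namespace Pool.Agent.H.MP_711652_nt

open Finset

lemma badG_blk (f : ℕ → ℝ) (b r j m n : ℕ)
    (h : m / (b * 2 ^ (j + r)) = n / (b * 2 ^ (j + r))) :
    BadG f b r j m ↔ BadG f b r j n := by
  unfold BadG
  rw [h]

lemma GTB1_gv_nonneg (f : ℕ → ℝ) (b r j n : ℕ) : 0 ≤ gv f b r j n := by
  unfold gv
  exact sum_nonneg fun i _ => mul_nonneg (by positivity) (Real.sqrt_nonneg _)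

/-- The pointwise step. -/
lemma GTB1_point {A B c w W : ℝ} (hB : 0 ≤ B) (hW : 0 ≤ W) (hw : w = 1)
    (hAB : A ≤ (1 - c) * B) : A * (Real.exp (c * w) * W) ≤ B * W := by
  rw [hw, mul_one]
  have h1 : A * (Real.exp c * W) ≤ (1 - c) * B * (Real.exp c * W) :=
    mul_le_mul_of_nonneg_right hAB (mul_nonneg (Real.exp_nonneg _) hW)
  have h2 : (1 - c) * Real.exp c ≤ 1 := by
    calc (1 - c) * Real.exp c ≤ Real.exp (-c) * Real.exp c :=
          mul_le_mul_of_nonneg_right (Real.one_sub_le_exp_neg c) (Real.exp_nonneg _)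
      _ = 1 := by rw [← Real.exp_add]; simp
  calc A * (Real.exp c * W) ≤ (1 - c) * B * (Real.exp c * W) := h1
    _ = ((1 - c) * Real.exp c) * (B * W) := by ring
    _ ≤ 1 * (B * W) := mul_le_mul_of_nonneg_right h2 (mul_nonneg hB hW)
    _ = B * W := one_mul _

open Classical in
/-- PROOF. Induction on `d`, for all `W`. `d = 0`: `nb _ 0 n = 0`, equality. Step from `d` to
`d + 1` (`d + r ≤ kmax`): let `c = (1/2)^r / 16`, `T = b 2^(d+r)`, which divides `M`. By `nb_succ`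
the weight is `exp (c * nb d n) * W' n` with `W' n = exp (c * (if BadG f b r d n then 1 else 0)) *
W n`, constant on `T`-blocks (`badG_blk`), hence on the blocks of length `b 2^(d+r-1)`
(`blk_of_dvd`). By the induction hypothesis the sum is at most `∑ gv f b r d n * W' n`, which by
`sum_mul_blk` (scale `T`) is `∑ avg T (gv f b r d) n * W' n`. If `BadG` holds at `n`, then by
`gv_gain` `avg T (gv d) n * exp c ≤ (1 - c) exp c * avg T (gv (d+1)) n ≤ avg T (gv (d+1)) n`
(`1 - c ≤ exp (-c)`, `gv ≥ 0`); otherwise use `gv_mono`. So the sum is at most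
`∑ avg T (gv (d+1)) n * W n = ∑ gv (d+1) n * W n`. -/
theorem gv_chain (M b r kmax : ℕ) (hM : M = b * 2 ^ kmax) (hb : 0 < b) (hr : 1 ≤ r) (f : ℕ → ℝ)
    (hf : ∀ k, 0 ≤ f k) : ∀ d : ℕ, d + r ≤ kmax + 1 → ∀ W : ℕ → ℝ, (∀ k, 0 ≤ W k) →
    Blk (b * 2 ^ (d + r - 1)) W →
    ∑ n ∈ range M, gv f b r 0 n *
      (Real.exp ((1 / 2 : ℝ) ^ r / 16 * (nb (BadG f b r) d n : ℝ)) * W n) ≤
      ∑ n ∈ range M, gv f b r d n * W n := by
  intro d
  induction d with
  | zero =>
    intro _ W _ _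
    refine le_of_eq (sum_congr rfl fun n _ => ?_)
    have h0 : nb (BadG f b r) 0 n = 0 := by
      unfold nb
      simp
    rw [h0, Nat.cast_zero, mul_zero, Real.exp_zero, one_mul]
  | succ d ih =>
    intro hd W hW0 hW
    have hdr : d + 1 + r - 1 = d + r := by omega
    rw [hdr] at hW
    have hT : 0 < b * 2 ^ (d + r) := Nat.mul_pos hb (pow_pos (by norm_num) _)
    have hTM : b * 2 ^ (d + r) ∣ M := by
      rw [hM]
      exact Nat.mul_dvd_mul_left b (pow_dvd_pow 2 (by omega))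
    set c : ℝ := (1 / 2 : ℝ) ^ r / 16 with hc
    set W' : ℕ → ℝ := fun n => Real.exp (c * (if BadG f b r d n then 1 else 0)) * W n with hW'
    have hW'0 : ∀ k, 0 ≤ W' k := fun k => mul_nonneg (Real.exp_nonneg _) (hW0 k)
    have hW'b : Blk (b * 2 ^ (d + r)) W' := by
      intro m n hmn
      have h1 : BadG f b r d m ↔ BadG f b r d n := badG_blk f b r d m n hmn
      rw [hW']
      simp only [h1, hW m n hmn]
    have hW'c : Blk (b * 2 ^ (d + r - 1)) W' :=
      blk_of_dvd (Nat.mul_dvd_mul_left b (pow_dvd_pow 2 (by omega))) hW'b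
    have h2 := ih (by omega) W' hW'0 hW'c
    have h3 : ∑ n ∈ range M, gv f b r 0 n *
        (Real.exp (c * (nb (BadG f b r) (d + 1) n : ℝ)) * W n) =
        ∑ n ∈ range M, gv f b r 0 n * (Real.exp (c * (nb (BadG f b r) d n : ℝ)) * W' n) := by
      refine sum_congr rfl fun n _ => ?_
      rw [nb_succ (BadG f b r) d n, Nat.cast_add, mul_add, Real.exp_add, hW']
      simp only
      have h4 : (((if BadG f b r d n then 1 else 0 : ℕ)) : ℝ) =
          if BadG f b r d n then (1 : ℝ) else 0 := by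
        split_ifs <;> simp
      rw [h4]
      ring
    rw [h3]
    refine h2.trans ?_
    rw [sum_mul_blk M _ hT hTM (gv f b r d) W' hW'b, sum_mul_blk M _ hT hTM (gv f b r (d + 1)) W hW]
    refine sum_le_sum fun n _ => ?_
    have hB : 0 ≤ avg (b * 2 ^ (d + r)) (gv f b r (d + 1)) n :=
      avg_nonneg _ _ (fun k => GTB1_gv_nonneg f b r (d + 1) k) n
    by_cases hbad : BadG f b r d n
    · exact GTB1_point hB (hW0 n) (if_pos hbad) (gv_gain f hf b r d n hb hbad)
    · have h5 : W' n = W n := by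
        rw [hW']
        simp only [if_neg hbad, mul_zero, Real.exp_zero, one_mul]
      rw [h5]
      exact mul_le_mul_of_nonneg_right (gv_mono f hf b r d n hb) (hW0 n)

/-- The geometric sum. -/
lemma GTB1_geom (r : ℕ) : ∑ i ∈ range r, (3 / 4 : ℝ) ^ i ≤ 4 := by
  have h : ∑ i ∈ range r, (3 / 4 : ℝ) ^ i = 4 - 4 * (3 / 4 : ℝ) ^ r := by
    induction r with
    | zero => simp
    | succ r ih => rw [sum_range_succ, ih, pow_succ]; ring
  rw [h]
  have : (0 : ℝ) ≤ (3 / 4 : ℝ) ^ r := by positivity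
  linarith

/-- PROOF. `gv_chain` with `d = kmax + 1 - r`, `W = 1`. On the left `√(avg b f n) ≤ gv f b r 0 n`
(term `i = 0`; `b * 2 ^ (0 + 0) = b`). On the right exchange the sums:
`∑ n, gv f b r d n = ∑ i ∈ range r, (3/4)^i ∑ n, √(avg (b 2^(d+i)) f n)` with `d + i ≤ kmax`; each
inner sum is at most `∑ √(avg M f n) = √(M S)` (`coarsen` with `W = 1`, `sum_sqrt_top`), and
`∑ (3/4)^i ≤ 4`. -/
theorem gap_super (M b r kmax : ℕ) (hM : M = b * 2 ^ kmax) (hb : 0 < b) (hr : 1 ≤ r)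
    (hrk : r ≤ kmax) (f : ℕ → ℝ) (hf : ∀ k, 0 ≤ f k) :
    ∑ n ∈ range M, √(avg b f n) *
      Real.exp ((1 / 2 : ℝ) ^ r / 16 * (nb (BadG f b r) (kmax + 1 - r) n : ℝ)) ≤
      4 * √(M * ∑ n ∈ range M, f n) := by
  have hMpos : 0 < M := by
    rw [hM]
    exact Nat.mul_pos hb (pow_pos (by norm_num) _)
  have h1 := gv_chain M b r kmax hM hb hr f hf (kmax + 1 - r) (by omega) (fun _ => 1)
    (fun _ => zero_le_one) (fun _ _ _ => rfl)
  have h2 : ∑ n ∈ range M, √(avg b f n) *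
      Real.exp ((1 / 2 : ℝ) ^ r / 16 * (nb (BadG f b r) (kmax + 1 - r) n : ℝ)) ≤
      ∑ n ∈ range M, gv f b r 0 n *
      (Real.exp ((1 / 2 : ℝ) ^ r / 16 * (nb (BadG f b r) (kmax + 1 - r) n : ℝ)) * 1) := by
    refine sum_le_sum fun n _ => ?_
    rw [mul_one]
    refine mul_le_mul_of_nonneg_right ?_ (Real.exp_nonneg _)
    have h3 : (3 / 4 : ℝ) ^ 0 * √(avg (b * 2 ^ (0 + 0)) f n) ≤ gv f b r 0 n := by
      unfold gv
      exact single_le_sum (f := fun i => (3 / 4 : ℝ) ^ i * √(avg (b * 2 ^ (0 + i)) f n))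
        (fun i _ => mul_nonneg (by positivity) (Real.sqrt_nonneg _)) (mem_range.2 hr)
    simpa using h3
  have h4 : ∑ n ∈ range M, gv f b r (kmax + 1 - r) n * 1 ≤ 4 * √(M * ∑ n ∈ range M, f n) := by
    have h5 : ∑ n ∈ range M, gv f b r (kmax + 1 - r) n * 1 = ∑ i ∈ range r, (3 / 4 : ℝ) ^ i *
        ∑ n ∈ range M, √(avg (b * 2 ^ (kmax + 1 - r + i)) f n) := by
      simp only [mul_one]
      unfold gv
      rw [sum_comm]
      refine sum_congr rfl fun i _ => ?_
      rw [mul_sum]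
    rw [h5]
    have h6 : ∀ i ∈ range r, (3 / 4 : ℝ) ^ i *
        ∑ n ∈ range M, √(avg (b * 2 ^ (kmax + 1 - r + i)) f n) ≤
        (3 / 4 : ℝ) ^ i * √(M * ∑ n ∈ range M, f n) := by
      intro i hi
      rw [mem_range] at hi
      refine mul_le_mul_of_nonneg_left ?_ (by positivity)
      have h7 := coarsen M (b * 2 ^ (kmax + 1 - r + i)) M hMpos
        (Nat.mul_pos hb (pow_pos (by norm_num) _))
        (by rw [hM]; exact Nat.mul_dvd_mul_left b (pow_dvd_pow 2 (by omega))) dvd_rfl f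
        (fun _ => 1) hf (fun _ => zero_le_one) (fun _ _ _ => rfl)
      simp only [mul_one] at h7
      rw [← sum_sqrt_top M hMpos f hf]
      exact h7
    refine (sum_le_sum h6).trans ?_
    rw [← sum_mul]
    exact mul_le_mul_of_nonneg_right (GTB1_geom r) (Real.sqrt_nonneg _)
  exact h2.trans (h1.trans h4)

end Pool.Agent.H.MP_711652_nt
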