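import Mathlib
import Pool.Agent.H.MP_711652_nt.TailA1

set_option autoImplicit false

namespace Pool.Agent.H.MP_711652_nt

open Finset

/-- PROOF. Let `w n = √(avg b f n)`, `S = ∑ f`, `Q = ∑ (avg b f) ^ 2`. By `sum_mul_blk` and
`w ^ 2 = avg b f`: `∑ f Φ = ∑ w ^ 2 Φ`. Cauchy-Schwarz (`Finset.sum_mul_sq_le_sq_mul_sq` with
`√w * w` and `√w * Φ`): `(∑ w ^ 2 Φ) ^ 2 ≤ (∑ w ^ 3) (∑ w Φ ^ 2)`. Cauchy-Schwarz again (with `w`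
and `w ^ 2`): `(∑ w ^ 3) ^ 2 ≤ (∑ w ^ 2) (∑ w ^ 4) = S Q` (`∑ avg b f = ∑ f`: `sum_mul_blk` with
`g = 1`). So `(∑ f Φ) ^ 4 ≤ (∑ w ^ 3) ^ 2 (∑ w Φ ^ 2) ^ 2 ≤ S Q * (A ^ 2 * (M S))`. -/
theorem fourth_moment (M b : ℕ) (hb : 0 < b) (hbM : b ∣ M) (f Φ : ℕ → ℝ)
    (hf : ∀ k, 0 ≤ f k) (hΦ0 : ∀ k, 0 ≤ Φ k) (hΦ : Blk b Φ) (A : ℝ) (hA : 0 ≤ A)
    (h : ∑ n ∈ range M, √(avg b f n) * (Φ n) ^ 2 ≤ A * √(M * ∑ n ∈ range M, f n)) :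
    (∑ n ∈ range M, f n * Φ n) ^ 4 ≤
      A ^ 2 * (∑ n ∈ range M, f n) ^ 2 * (M * ∑ n ∈ range M, (avg b f n) ^ 2) := by
  set w : ℕ → ℝ := fun n => √(avg b f n) with hw
  have hw0 : ∀ n, 0 ≤ w n := fun n => Real.sqrt_nonneg _
  have hw2 : ∀ n, w n ^ 2 = avg b f n := fun n => Real.sq_sqrt (avg_nonneg b f hf n)
  have hS : ∑ n ∈ range M, f n = ∑ n ∈ range M, w n ^ 2 := by
    have h1 := sum_mul_blk M b hb hbM f (fun _ => 1) (fun _ _ _ => rfl)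
    simp only [mul_one] at h1
    rw [h1]
    exact sum_congr rfl fun n _ => (hw2 n).symm
  have hfΦ : ∑ n ∈ range M, f n * Φ n = ∑ n ∈ range M, w n ^ 2 * Φ n := by
    rw [sum_mul_blk M b hb hbM f Φ hΦ]
    exact sum_congr rfl fun n _ => by rw [hw2 n]
  have hQ : ∑ n ∈ range M, (avg b f n) ^ 2 = ∑ n ∈ range M, (w n ^ 2) ^ 2 :=
    sum_congr rfl fun n _ => by rw [hw2 n]
  have c1 : (∑ n ∈ range M, w n ^ 2 * Φ n) ^ 2 ≤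
      (∑ n ∈ range M, w n ^ 3) * ∑ n ∈ range M, w n * (Φ n) ^ 2 := by
    have h1 := Finset.sum_mul_sq_le_sq_mul_sq (range M) (fun n => w n * √(w n))
      (fun n => √(w n) * Φ n)
    have e1 : ∀ n ∈ range M, w n * √(w n) * (√(w n) * Φ n) = w n ^ 2 * Φ n := by
      intro n _
      have := Real.mul_self_sqrt (hw0 n)
      calc w n * √(w n) * (√(w n) * Φ n) = w n * (√(w n) * √(w n)) * Φ n := by ring
        _ = w n ^ 2 * Φ n := by rw [this]; ring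
    have e2 : ∀ n ∈ range M, (w n * √(w n)) ^ 2 = w n ^ 3 := by
      intro n _
      rw [mul_pow, Real.sq_sqrt (hw0 n)]; ring
    have e3 : ∀ n ∈ range M, (√(w n) * Φ n) ^ 2 = w n * (Φ n) ^ 2 := by
      intro n _
      rw [mul_pow, Real.sq_sqrt (hw0 n)]
    rw [sum_congr rfl e1, sum_congr rfl e2, sum_congr rfl e3] at h1
    exact h1
  have c2 : (∑ n ∈ range M, w n ^ 3) ^ 2 ≤
      (∑ n ∈ range M, w n ^ 2) * ∑ n ∈ range M, (w n ^ 2) ^ 2 := by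
    have h1 := Finset.sum_mul_sq_le_sq_mul_sq (range M) w (fun n => w n ^ 2)
    have e1 : ∀ n ∈ range M, w n * w n ^ 2 = w n ^ 3 := fun n _ => by ring
    rw [sum_congr rfl e1] at h1
    exact h1
  have n3 : 0 ≤ ∑ n ∈ range M, w n ^ 3 := sum_nonneg fun n _ => pow_nonneg (hw0 n) 3
  have nΦ : 0 ≤ ∑ n ∈ range M, w n * (Φ n) ^ 2 :=
    sum_nonneg fun n _ => mul_nonneg (hw0 n) (sq_nonneg _)
  have nS : 0 ≤ ∑ n ∈ range M, f n := sum_nonneg fun n _ => hf n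
  have c3 : (∑ n ∈ range M, w n * (Φ n) ^ 2) ^ 2 ≤ A ^ 2 * (M * ∑ n ∈ range M, f n) := by
    have h1 := pow_le_pow_left₀ nΦ h 2
    rw [mul_pow, Real.sq_sqrt (mul_nonneg (Nat.cast_nonneg M) nS)] at h1
    exact h1
  rw [hfΦ, hQ]
  calc (∑ n ∈ range M, w n ^ 2 * Φ n) ^ 4 = ((∑ n ∈ range M, w n ^ 2 * Φ n) ^ 2) ^ 2 := by ring
    _ ≤ ((∑ n ∈ range M, w n ^ 3) * ∑ n ∈ range M, w n * (Φ n) ^ 2) ^ 2 :=
        pow_le_pow_left₀ (sq_nonneg _) c1 2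
    _ = (∑ n ∈ range M, w n ^ 3) ^ 2 * (∑ n ∈ range M, w n * (Φ n) ^ 2) ^ 2 := by ring
    _ ≤ ((∑ n ∈ range M, w n ^ 2) * ∑ n ∈ range M, (w n ^ 2) ^ 2) *
        (A ^ 2 * (M * ∑ n ∈ range M, f n)) :=
        mul_le_mul c2 c3 (sq_nonneg _) (mul_nonneg (sum_nonneg fun n _ => sq_nonneg _)
          (sum_nonneg fun n _ => sq_nonneg _))
    _ = A ^ 2 * (∑ n ∈ range M, f n) ^ 2 * (M * ∑ n ∈ range M, (w n ^ 2) ^ 2) := by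
        rw [← hS]; ring

/-- PROOF. By `fourth_moment`, `(∑ f Φ) ^ 4 ≤ A ^ 2 C₁ S ^ 4 ≤ (A C₁ S) ^ 4` (`A, C₁ ≥ 1`). Use
`pow_le_pow_left_iff` / `abs_le_abs`-style monotonicity of the fourth power on non-negative reals. -/
theorem first_moment (M b : ℕ) (hb : 0 < b) (hbM : b ∣ M) (f Φ : ℕ → ℝ)
    (hf : ∀ k, 0 ≤ f k) (hΦ0 : ∀ k, 0 ≤ Φ k) (hΦ : Blk b Φ) (A C₁ : ℝ) (hA : 1 ≤ A)
    (hC : 1 ≤ C₁)
    (h : ∑ n ∈ range M, √(avg b f n) * (Φ n) ^ 2 ≤ A * √(M * ∑ n ∈ range M, f n))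
    (hQ : M * ∑ n ∈ range M, (avg b f n) ^ 2 ≤ C₁ * (∑ n ∈ range M, f n) ^ 2) :
    ∑ n ∈ range M, f n * Φ n ≤ A * C₁ * ∑ n ∈ range M, f n := by
  have h4 := fourth_moment M b hb hbM f Φ hf hΦ0 hΦ A (zero_le_one.trans hA) h
  have nS : 0 ≤ ∑ n ∈ range M, f n := sum_nonneg fun n _ => hf n
  have nL : 0 ≤ ∑ n ∈ range M, f n * Φ n := sum_nonneg fun n _ => mul_nonneg (hf n) (hΦ0 n)
  have hA0 : 0 ≤ A := zero_le_one.trans hA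
  have hC0 : 0 ≤ C₁ := zero_le_one.trans hC
  set S := ∑ n ∈ range M, f n with hSdef
  have h5 : (∑ n ∈ range M, f n * Φ n) ^ 4 ≤ (A * C₁ * S) ^ 4 := by
    have h6 : A ^ 2 ≤ A ^ 4 := pow_le_pow_right₀ hA (by norm_num)
    have h7 : C₁ ≤ C₁ ^ 4 := le_self_pow₀ hC (by norm_num)
    calc (∑ n ∈ range M, f n * Φ n) ^ 4
        ≤ A ^ 2 * S ^ 2 * (M * ∑ n ∈ range M, (avg b f n) ^ 2) := h4
      _ ≤ A ^ 2 * S ^ 2 * (C₁ * S ^ 2) :=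
          mul_le_mul_of_nonneg_left hQ (mul_nonneg (sq_nonneg _) (sq_nonneg _))
      _ = A ^ 2 * C₁ * S ^ 4 := by ring
      _ ≤ A ^ 4 * C₁ ^ 4 * S ^ 4 :=
          mul_le_mul_of_nonneg_right (mul_le_mul h6 h7 hC0 (pow_nonneg hA0 4))
            (pow_nonneg nS 4)
      _ = (A * C₁ * S) ^ 4 := by ring
  exact le_of_pow_le_pow_left₀ (by norm_num) (mul_nonneg (mul_nonneg hA0 hC0) nS) h5

end Pool.Agent.H.MP_711652_nt
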