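import Mathlib
import Pool.Agent.H.MP_711652_nt.GTB1
import Pool.Agent.H.MP_711652_nt.TailA3

set_option autoImplicit false

namespace Pool.Agent.H.MP_711652_nt

open Finset

open Classical in
/-- PROOF. `c = (1/2)^r / 16`, `N n = nb (BadG f b r) (kmax + 1 - r) n`, `Φ n = exp (c * N n / 2)`,
constant on `b`-blocks (`badG_blk`; `b ∣ b 2^(j+r)`, so `nb` is constant on `b`-blocks). By
`gap_super` the hypothesis of `first_moment` holds with `A = 4` (`Φ ^ 2 = exp (c N)`), so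
`∑ f Φ ≤ 4 C₁ S`. On the set `m ≤ N n`, `Φ n ≥ exp (c m / 2)`; divide. `c / 2 = (1/2)^r / 32`. -/
theorem gap_tail_abs (M b r kmax : ℕ) (hM : M = b * 2 ^ kmax) (hb : 0 < b) (hr : 1 ≤ r)
    (hrk : r ≤ kmax) (f : ℕ → ℝ) (hf : ∀ k, 0 ≤ f k) (C₁ : ℝ) (hC : 1 ≤ C₁)
    (hQ : M * ∑ n ∈ range M, (avg b f n) ^ 2 ≤ C₁ * (∑ n ∈ range M, f n) ^ 2) (m : ℕ) :
    ∑ n ∈ (range M).filter (fun n => m ≤ nb (BadG f b r) (kmax + 1 - r) n), f n ≤
      4 * C₁ * Real.exp (-((1 / 2 : ℝ) ^ r / 32 * m)) * ∑ n ∈ range M, f n := by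
  have hM0 : 0 < M := by rw [hM]; positivity
  have hbM : b ∣ M := by rw [hM]; exact Dvd.intro _ rfl
  have hblk : ∀ m' n : ℕ, m' / b = n / b →
      nb (BadG f b r) (kmax + 1 - r) m' = nb (BadG f b r) (kmax + 1 - r) n := by
    intro m' n h
    unfold nb
    congr 1
    apply filter_congr
    intro j _
    apply badG_blk
    rw [← Nat.div_div_eq_div_mul, h, Nat.div_div_eq_div_mul]
  have hΦ0 : ∀ k, 0 ≤ Real.exp ((1 / 2 : ℝ) ^ r / 32 * (nb (BadG f b r) (kmax + 1 - r) k : ℝ)) :=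
    fun k => (Real.exp_pos _).le
  have hΦb : Blk b (fun k =>
      Real.exp ((1 / 2 : ℝ) ^ r / 32 * (nb (BadG f b r) (kmax + 1 - r) k : ℝ))) := by
    intro m' n h
    change Real.exp _ = Real.exp _
    rw [hblk m' n h]
  have hsup := gap_super M b r kmax hM hb hr hrk f hf
  have hsq : ∀ n ∈ range M, √(avg b f n) *
      (Real.exp ((1 / 2 : ℝ) ^ r / 32 * (nb (BadG f b r) (kmax + 1 - r) n : ℝ))) ^ 2 =
      √(avg b f n) *
      Real.exp ((1 / 2 : ℝ) ^ r / 16 * (nb (BadG f b r) (kmax + 1 - r) n : ℝ)) := by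
    intro n _
    rw [← Real.exp_nat_mul]
    congr 2
    push_cast
    ring
  have hfm := first_moment M b hb hbM f
    (fun k => Real.exp ((1 / 2 : ℝ) ^ r / 32 * (nb (BadG f b r) (kmax + 1 - r) k : ℝ)))
    hf hΦ0 hΦb 4 C₁ (by norm_num) hC (by rw [sum_congr rfl hsq]; exact hsup) hQ
  have hterm : ∀ n ∈ (range M).filter (fun n => m ≤ nb (BadG f b r) (kmax + 1 - r) n), f n ≤
      Real.exp (-((1 / 2 : ℝ) ^ r / 32 * m)) *
      (f n * Real.exp ((1 / 2 : ℝ) ^ r / 32 * (nb (BadG f b r) (kmax + 1 - r) n : ℝ))) := by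
    intro n hn
    rw [mem_filter] at hn
    have h1 : (m : ℝ) ≤ (nb (BadG f b r) (kmax + 1 - r) n : ℝ) := by exact_mod_cast hn.2
    have h2 : 0 ≤ (1 / 2 : ℝ) ^ r / 32 := by positivity
    have h3 : (1 / 2 : ℝ) ^ r / 32 * m ≤
        (1 / 2 : ℝ) ^ r / 32 * (nb (BadG f b r) (kmax + 1 - r) n : ℝ) :=
      mul_le_mul_of_nonneg_left h1 h2
    have h4 : 1 ≤ Real.exp (-((1 / 2 : ℝ) ^ r / 32 * m)) *
        Real.exp ((1 / 2 : ℝ) ^ r / 32 * (nb (BadG f b r) (kmax + 1 - r) n : ℝ)) := by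
      rw [← Real.exp_add]
      apply Real.one_le_exp
      linarith only [h3]
    calc f n = f n * 1 := (mul_one _).symm
      _ ≤ f n * (Real.exp (-((1 / 2 : ℝ) ^ r / 32 * m)) *
          Real.exp ((1 / 2 : ℝ) ^ r / 32 * (nb (BadG f b r) (kmax + 1 - r) n : ℝ))) :=
          mul_le_mul_of_nonneg_left h4 (hf n)
      _ = _ := by ring
  calc ∑ n ∈ (range M).filter (fun n => m ≤ nb (BadG f b r) (kmax + 1 - r) n), f n
      ≤ ∑ n ∈ (range M).filter (fun n => m ≤ nb (BadG f b r) (kmax + 1 - r) n),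
        Real.exp (-((1 / 2 : ℝ) ^ r / 32 * m)) *
        (f n * Real.exp ((1 / 2 : ℝ) ^ r / 32 * (nb (BadG f b r) (kmax + 1 - r) n : ℝ))) :=
        sum_le_sum hterm
    _ ≤ ∑ n ∈ range M, Real.exp (-((1 / 2 : ℝ) ^ r / 32 * m)) *
        (f n * Real.exp ((1 / 2 : ℝ) ^ r / 32 * (nb (BadG f b r) (kmax + 1 - r) n : ℝ))) :=
        sum_le_sum_of_subset_of_nonneg (filter_subset _ _) fun n _ _ =>
          mul_nonneg (Real.exp_pos _).le (mul_nonneg (hf n) (Real.exp_pos _).le)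
    _ = Real.exp (-((1 / 2 : ℝ) ^ r / 32 * m)) * ∑ n ∈ range M,
        (f n * Real.exp ((1 / 2 : ℝ) ^ r / 32 * (nb (BadG f b r) (kmax + 1 - r) n : ℝ))) := by
        rw [mul_sum]
    _ ≤ Real.exp (-((1 / 2 : ℝ) ^ r / 32 * m)) * (4 * C₁ * ∑ n ∈ range M, f n) :=
        mul_le_mul_of_nonneg_left hfm (Real.exp_pos _).le
    _ = _ := by ring

end Pool.Agent.H.MP_711652_nt
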