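import Mathlib
import Pool.Agent.H.MP_711652_nt.TailDefs
import Pool.Agent.H.MP_711652_nt.EntC2

set_option autoImplicit false

namespace Pool.Agent.H.MP_711652_nt

open Finset

lemma tailC2_avg_pos (T a p : ℕ) (hT : 0 < T) (hp : p.Prime) : 0 < avg T (ps a) (p + a) := by
  unfold avg
  apply div_pos _ (by exact_mod_cast hT)
  have h1 : ps a ((p + a) / T * T + (p + a) % T) = 1 := by
    rw [Nat.div_add_mod']
    unfold ps
    have h2 : p + a - a = p := by omega
    rw [h2, if_pos ⟨by omega, hp⟩]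
  have h2 : ps a ((p + a) / T * T + (p + a) % T) ≤
      ∑ i ∈ range T, ps a ((p + a) / T * T + i) :=
    single_le_sum (f := fun i => ps a ((p + a) / T * T + i)) (fun i _ => entC2_ps_nonneg a _)
      (mem_range.2 (Nat.mod_lt _ hT))
  linarith

/-- PROOF. `two_grids` with `z = 2 R + L` gives a shift `a = 0` or `a = b A` for which
`n = p + a` is central: `R + L ≤ 2 R + L ≤ n % T` and `n % T + (2 R + L) < T`. Take `k = n` in
`BadB`. `0 < avg T (ps a) n` because `ps a n = 1` and `ps a ≥ 0` (`entC2_ps_nonneg`), and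
`¬ GoodAt ...` by `typical_of_good` (contrapositive). -/
lemma badB_of_not_typical (b t K A H R L T p : ℕ) (ε : ℝ) (hb : 0 < b) (hA : 3 * A + 1 = 2 ^ K)
    (ht : t ≤ K) (hT : T = b * 2 ^ t) (hz : 6 * (2 * R + L) + b < T) (hp : p.Prime)
    (h : ¬ TypicalS ε H R p) :
    BadB (ps 0) ε H R L T p ∨ BadB (ps (b * A)) ε H R L T (p + b * A) := by
  have hT0 : 0 < T := by omega
  rcases two_grids b t K A p (2 * R + L) T hb hA ht hT hz with ⟨g1, g2⟩ | ⟨g1, g2⟩
  · left
    have hpos := tailC2_avg_pos T 0 p hT0 hp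
    rw [add_zero] at hpos
    refine ⟨p, rfl, by omega, g2, hpos, ?_⟩
    intro hgood
    apply h
    apply typical_of_good 0 p H R T ε
    rw [add_zero]
    exact ⟨hpos, hgood⟩
  · right
    have hpos := tailC2_avg_pos T (b * A) p hT0 hp
    refine ⟨p + b * A, rfl, by omega, g2, hpos, ?_⟩
    intro hgood
    exact h (typical_of_good (b * A) p H R T ε ⟨hpos, hgood⟩)

open Classical in
/-- PROOF. If `p ≤ X` is prime and `m ≤ N p ≤ N0 p + Na (p + a)` then `(m + 1) / 2 ≤ N0 p` or
`(m + 1) / 2 ≤ Na (p + a)`. The primes of the first kind are counted by the first sum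
(`ps 0 p = 1`, `p < M`), those of the second kind by the second sum (`n = p + a < M`,
`ps a n = 1`, `p ↦ p + a` injective). -/
lemma card_two (X M a m : ℕ) (N N0 Na : ℕ → ℕ) (hXM : X + a < M)
    (h : ∀ p, p.Prime → p ≤ X → N p ≤ N0 p + Na (p + a)) :
    (((Icc 1 X).filter (fun p => p.Prime ∧ m ≤ N p)).card : ℝ) ≤
      ∑ n ∈ (range M).filter (fun n => (m + 1) / 2 ≤ N0 n), ps 0 n +
      ∑ n ∈ (range M).filter (fun n => (m + 1) / 2 ≤ Na n), ps a n := by
  set S := (Icc 1 X).filter (fun p => p.Prime ∧ m ≤ N p) with hS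
  have hmemS : ∀ p ∈ S, p ≤ X ∧ p.Prime ∧ m ≤ N p := by
    intro p hp
    rw [hS, mem_filter, mem_Icc] at hp
    exact ⟨hp.1.2, hp.2⟩
  have hcover : S ⊆ S.filter (fun p => (m + 1) / 2 ≤ N0 p) ∪
      S.filter (fun p => (m + 1) / 2 ≤ Na (p + a)) := by
    intro p hp
    obtain ⟨h1, h2, h3⟩ := hmemS p hp
    have h4 := h p h2 h1
    by_cases h5 : (m + 1) / 2 ≤ N0 p
    · exact mem_union_left _ (mem_filter.mpr ⟨hp, h5⟩)
    · exact mem_union_right _ (mem_filter.mpr ⟨hp, by omega⟩)
  have hpsp : ∀ p ∈ S, ∀ c, ps c (p + c) = 1 := by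
    intro p hp c
    unfold ps
    have h2 : p + c - c = p := by omega
    rw [h2, if_pos ⟨by omega, (hmemS p hp).2.1⟩]
  have hc : ∀ (c : ℕ) (Q : ℕ → Prop) [DecidablePred Q], c ≤ a →
      ((S.filter (fun p => Q (p + c))).card : ℝ) ≤ ∑ n ∈ (range M).filter Q, ps c n := by
    intro c Q _ hca
    have e1 : ((S.filter (fun p => Q (p + c))).card : ℝ) =
        ∑ n ∈ (S.filter (fun p => Q (p + c))).image (fun p => p + c), ps c n := by
      rw [sum_image (by intro p _ q _ h; simp only at h; omega), card_eq_sum_ones]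
      push_cast
      apply sum_congr rfl
      intro p hp
      rw [mem_filter] at hp
      exact (hpsp p hp.1 c).symm
    rw [e1]
    apply sum_le_sum_of_subset_of_nonneg
    · intro n hn
      rw [mem_image] at hn
      obtain ⟨p, hp, rfl⟩ := hn
      rw [mem_filter] at hp
      rw [mem_filter, mem_range]
      have := (hmemS p hp.1).1
      exact ⟨by omega, hp.2⟩
    · intro p _ _
      exact entC2_ps_nonneg _ p
  have h0 := hc 0 (fun n => (m + 1) / 2 ≤ N0 n) (Nat.zero_le _)
  have h1 := hc a (fun n => (m + 1) / 2 ≤ Na n) le_rfl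
  simp only [add_zero] at h0
  have hcard : (S.card : ℝ) ≤ ((S.filter (fun p => (m + 1) / 2 ≤ N0 p)).card : ℝ) +
      ((S.filter (fun p => (m + 1) / 2 ≤ Na (p + a))).card : ℝ) := by
    exact_mod_cast (card_le_card hcover).trans (card_union_le _ _)
  exact hcard.trans (add_le_add h0 h1)

end Pool.Agent.H.MP_711652_nt
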