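import Mathlib
import Pool.Agent.H.MP_711652_nt.EntD2

set_option autoImplicit false

namespace Pool.Agent.H.MP_711652_nt

open Finset

/-- The bounds for one shift. -/
lemma tailD1_one (c C : ℝ) (hc : 0 < c) (hC : 0 < C) (X b K a A' : ℕ) (hb : 0 < b) (hX : 0 < X)
    (ha : a = b * A') (haM : X + a < b * 2 ^ K) (hM : b * 2 ^ K < 16 * X)
    (hpi : c * X / b ≤ (Nat.primeCounting X : ℝ))
    (hpi16 : (Nat.primeCounting (16 * X) : ℝ) ≤ C * (16 * X) / b)
    (hsq : ∑ k ∈ range (2 ^ K), ((Fb b k : ℕ) : ℝ) ^ 2 ≤ C * (8 * X) / b) :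
    ∑ n ∈ range (b * 2 ^ K), ps a n ≤ 16 * C / c * Nat.primeCounting X ∧
      ((b * 2 ^ K : ℕ) : ℝ) * ∑ n ∈ range (b * 2 ^ K), (avg b (ps a) n) ^ 2 ≤
        128 * C / c ^ 2 * (∑ n ∈ range (b * 2 ^ K), ps a n) ^ 2 := by
  have hb0 : (0 : ℝ) < b := by exact_mod_cast hb
  have hX0 : (0 : ℝ) < X := by exact_mod_cast hX
  set M := b * 2 ^ K with hMdef
  have hM0 : 0 < M := by positivity
  have hMR : (M : ℝ) ≤ 16 * X := by exact_mod_cast hM.le
  have hM0R : (0 : ℝ) < M := by exact_mod_cast hM0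
  have hS1 : ∑ n ∈ range M, ps a n = Nat.primeCounting (M - a - 1) := sum_ps a M (by omega)
  have hSlow : (Nat.primeCounting X : ℝ) ≤ ∑ n ∈ range M, ps a n := by
    rw [hS1]
    exact_mod_cast Nat.monotone_primeCounting (by omega)
  have hSup : ∑ n ∈ range M, ps a n ≤ Nat.primeCounting (16 * X) := by
    rw [hS1]
    exact_mod_cast Nat.monotone_primeCounting (by omega)
  have hpi0 : 0 < c * X / b := by positivity
  set S := ∑ n ∈ range M, ps a n with hS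
  have hS0 : 0 < S := by linarith only [hpi0, hpi, hSlow]
  have hQ : ∑ n ∈ range M, (avg b (ps a) n) ^ 2 ≤ C * (8 * X) / b / b := by
    have h1 := sum_avg_ps b A' (2 ^ K) hb
    rw [← ha, mul_comm (2 ^ K) b] at h1
    refine h1.trans ?_
    gcongr
  set Q := ∑ n ∈ range M, (avg b (ps a) n) ^ 2 with hQdef
  have hQ0 : 0 ≤ Q := sum_nonneg fun _ _ => sq_nonneg _
  constructor
  · have h2 : S ≤ C * (16 * X) / b := hSup.trans hpi16
    have h3 : C * (16 * X) / b = 16 * C / c * (c * X / b) := by field_simp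
    have h4 : 16 * C / c * (c * X / b) ≤ 16 * C / c * Nat.primeCounting X := by gcongr
    linarith only [h2, h3, h4]
  · have hSc : c * X / b ≤ S := by linarith only [hpi, hSlow]
    have h2 : (c * X / b) ^ 2 ≤ S ^ 2 := by gcongr
    have h3 : (M : ℝ) * Q ≤ 16 * X * (C * (8 * X) / b / b) := by gcongr
    have h4 : 128 * C / c ^ 2 * (c * X / b) ^ 2 ≤ 128 * C / c ^ 2 * S ^ 2 := by gcongr
    have h6 : 16 * X * (C * (8 * X) / b / b) = 128 * C / c ^ 2 * (c * X / b) ^ 2 := by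
      field_simp; ring
    linarith only [h3, h4, h6]

/-- Moments of the shifted primes. PROOF. As for `total_entropy` (file `EntD2`), with the same
`b = ⌈log (8 X)⌉`, `K`, `A` (`b ≤ ⌈log X⌉ + 3` because `log 8 < 3`, `log X ≤ b`,
`entD2_choose` gives `b 2 ^ K < 16 X`); for `a = 0` and for `a = b A` the proof of `entD2_one`
shows `S = ∑ ps a ≤ (16 C / c) π X`, `S ≥ π X ≥ c X / b` and
`Q = ∑ (avg b (ps a)) ^ 2 ≤ C (8 X) / b ^ 2`, so `M Q ≤ 128 C X ^ 2 / b ^ 2 ≤ (128 C / c ^ 2) S ^ 2`. -/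
theorem total_moment : ∃ C : ℝ, 1 ≤ C ∧ ∃ X₀ : ℕ, ∀ X : ℕ, X₀ ≤ X → ∃ b K A : ℕ,
    2 ≤ b ∧ (b : ℝ) ≤ C * Real.log X ∧ Real.log X ≤ b ∧ b ≤ ⌈Real.log X⌉₊ + 3 ∧
    3 * A + 1 = 2 ^ K ∧ 4 * X ≤ b * 2 ^ K ∧ b * 2 ^ K < 16 * X ∧ X + b * A < b * 2 ^ K ∧
    ∀ a : ℕ, (a = 0 ∨ a = b * A) →
      ∑ n ∈ range (b * 2 ^ K), ps a n ≤ C * Nat.primeCounting X ∧
      ((b * 2 ^ K : ℕ) : ℝ) * ∑ n ∈ range (b * 2 ^ K), (avg b (ps a) n) ^ 2 ≤
        C * (∑ n ∈ range (b * 2 ^ K), ps a n) ^ 2 := by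
  obtain ⟨c, C, hc, hC, X₀, hX₀⟩ := basic_estimates
  have hD1 : 0 ≤ 16 * C / c := by positivity
  have hD2 : 0 ≤ 128 * C / c ^ 2 := by positivity
  refine ⟨5 + 16 * C / c + 128 * C / c ^ 2, by linarith only [hD1, hD2], X₀ + 3, ?_⟩
  intro X hX
  have hXpos : 0 < X := by omega
  have hX0 : (0 : ℝ) < X := by exact_mod_cast hXpos
  obtain ⟨-, -, hpi1, -, -⟩ := hX₀ X (by omega)
  obtain ⟨hb2, hb4, -, -, hsq⟩ := hX₀ (8 * X) (by omega)
  obtain ⟨-, -, -, hpi16, -⟩ := hX₀ (16 * X) (by omega)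
  set b := ⌈Real.log ((8 * X : ℕ) : ℝ)⌉₊ with hb
  set b1 := ⌈Real.log (X : ℝ)⌉₊ with hb1
  set b2 := ⌈Real.log ((16 * X : ℕ) : ℝ)⌉₊ with hb2'
  have hlog8 : Real.log (X : ℝ) ≤ Real.log ((8 * X : ℕ) : ℝ) := by
    apply Real.log_le_log hX0
    push_cast; linarith only [hX0]
  have hbb1 : b1 ≤ b := Nat.ceil_mono hlog8
  have hbb2 : b ≤ b2 := by
    apply Nat.ceil_mono
    apply Real.log_le_log (by push_cast; positivity)
    push_cast; linarith only [hX0]
  have hb0 : 0 < b := by omega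
  have hb0R : (0 : ℝ) < b := by exact_mod_cast hb0
  have hbX : b ≤ X := by
    have h1 : 8 * b ≤ b ^ 4 := by
      calc 8 * b ≤ b ^ 3 * b := by
            apply Nat.mul_le_mul_right
            calc 8 = 2 ^ 3 := by norm_num
              _ ≤ b ^ 3 := Nat.pow_le_pow_left hb2 3
        _ = b ^ 4 := by ring
    omega
  have hb1pos : 0 < b1 := by
    rw [hb1, Nat.ceil_pos]
    apply Real.log_pos
    exact_mod_cast (by omega : 1 < X)
  have hb1R : (0 : ℝ) < b1 := by exact_mod_cast hb1pos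
  obtain ⟨K, A, hA, hK1, hK2⟩ := entD2_choose b X hb0 hbX
  have hXA : X + b * A < b * 2 ^ K := by
    have h1 : 3 * (b * A) + b = b * 2 ^ K := by rw [← hA]; ring
    omega
  have hlogX : 1 ≤ Real.log X := by
    rw [← Real.log_exp 1]
    apply Real.log_le_log (Real.exp_pos _)
    have h1 := Real.exp_one_lt_d9
    have h2 : (3 : ℝ) ≤ X := by exact_mod_cast (by omega : 3 ≤ X)
    linarith only [h1, h2]
  have hlog8e : Real.log ((8 * X : ℕ) : ℝ) = 3 * Real.log 2 + Real.log X := by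
    push_cast
    rw [Real.log_mul (by norm_num) hX0.ne', show (8 : ℝ) = 2 ^ 3 by norm_num, Real.log_pow]
    norm_num
  have hlog2 := Real.log_two_lt_d9
  have hbC : (b : ℝ) ≤ (5 + 16 * C / c + 128 * C / c ^ 2) * Real.log X := by
    have h1 : (b : ℝ) < Real.log ((8 * X : ℕ) : ℝ) + 1 := by
      apply Nat.ceil_lt_add_one
      apply Real.log_nonneg
      exact_mod_cast (by omega : 1 ≤ 8 * X)
    have h4 : 0 ≤ 16 * C / c * Real.log X := mul_nonneg hD1 (by linarith only [hlogX])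
    have h5 : 0 ≤ 128 * C / c ^ 2 * Real.log X := mul_nonneg hD2 (by linarith only [hlogX])
    have h6 : (5 + 16 * C / c + 128 * C / c ^ 2) * Real.log X =
        5 * Real.log X + 16 * C / c * Real.log X + 128 * C / c ^ 2 * Real.log X := by ring
    rw [hlog8e] at h1
    rw [h6]
    linarith only [h1, hlog2, h4, h5, hlogX]
  have hb3 : b ≤ b1 + 3 := by
    rw [hb, Nat.ceil_le, hlog8e]
    have h1 : Real.log X ≤ (b1 : ℝ) := Nat.le_ceil _
    push_cast
    linarith only [h1, hlog2]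
  have hlogb : Real.log X ≤ (b : ℝ) := hlog8.trans (Nat.le_ceil _)
  have hpiX : c * X / b ≤ (Nat.primeCounting X : ℝ) := by
    refine le_trans ?_ hpi1
    have : (b1 : ℝ) ≤ b := by exact_mod_cast hbb1
    gcongr
  have hpi16' : (Nat.primeCounting (16 * X) : ℝ) ≤ C * (16 * X) / b := by
    refine hpi16.trans ?_
    push_cast
    have : (b : ℝ) ≤ b2 := by exact_mod_cast hbb2
    gcongr
  have hsq' : ∑ k ∈ range (2 ^ K), ((Fb b k : ℕ) : ℝ) ^ 2 ≤ C * (8 * X) / b := by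
    have h1 := hsq (2 ^ K) (by rw [mul_comm]; omega)
    push_cast at h1 ⊢
    exact h1
  refine ⟨b, K, A, hb2, hbC, hlogb, hb3, hA, hK1, hK2, hXA, ?_⟩
  intro a ha
  obtain ⟨A', hA', haM⟩ : ∃ A', a = b * A' ∧ X + a < b * 2 ^ K := by
    rcases ha with ha | ha
    · exact ⟨0, by simp [ha], by omega⟩
    · exact ⟨A, ha, by rw [ha]; exact hXA⟩
  obtain ⟨h1, h2⟩ := tailD1_one c C hc hC X b K a A' hb0 hXpos hA' haM hK2 hpiX hpi16' hsq'
  constructor
  · refine h1.trans ?_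
    have h3 : (0 : ℝ) ≤ Nat.primeCounting X := Nat.cast_nonneg _
    exact mul_le_mul_of_nonneg_right (by linarith only [hD2]) h3
  · refine h2.trans ?_
    exact mul_le_mul_of_nonneg_right (by linarith only [hD1]) (sq_nonneg _)

end Pool.Agent.H.MP_711652_nt
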