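import Mathlib
import Pool.Agent.H.MP_711652_nt.GTB2
import Pool.Agent.H.MP_711652_nt.GTC1
import Pool.Agent.H.MP_711652_nt.TailC2
import Pool.Agent.H.MP_711652_nt.TailD1

set_option autoImplicit false

namespace Pool.Agent.H.MP_711652_nt

open Finset

lemma gtc2_primes_card (X : ℕ) (P : ℕ → Prop) [DecidablePred P] :
    (((Icc 1 X).filter (fun p => p.Prime ∧ P p)).card : ℝ) ≤ Nat.primeCounting X := by
  have h1 : Nat.primeCounting X = ((range (X + 1)).filter Nat.Prime).card := by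
    rw [← Nat.count_eq_card_filter_range]
    rfl
  rw [h1]
  have h2 : ((Icc 1 X).filter (fun p => p.Prime ∧ P p)).card ≤
      ((range (X + 1)).filter Nat.Prime).card := by
    refine card_le_card fun p hp => ?_
    rw [mem_filter, mem_Icc] at hp
    rw [mem_filter, mem_range]
    exact ⟨by omega, hp.2.1⟩
  exact_mod_cast h2

open Classical in
/-- the scales `j` of a prime are smaller than `K` -/
lemma gtc2_scales_lt (X b K κ p B0 : ℕ) (hB : 1 ≤ B0) (hb2 : b ≤ 2 * B0)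
    (h4X : 4 * X ≤ b * 2 ^ K) :
    ((range X).filter (fun j => 2 ^ j * B0 ≤ X ∧ p ∈ badPrimes X κ (2 ^ j * B0))).card ≤ K := by
  calc ((range X).filter (fun j => 2 ^ j * B0 ≤ X ∧ p ∈ badPrimes X κ (2 ^ j * B0))).card
      ≤ (range K).card := by
        refine card_le_card fun j hj => ?_
        rw [mem_filter] at hj
        rw [mem_range]
        have h1 : 4 * (2 ^ j * B0) ≤ 2 * B0 * 2 ^ K :=
          (Nat.mul_le_mul_left 4 hj.2.1).trans (h4X.trans (Nat.mul_le_mul_right _ hb2))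
        have h2 : 2 ^ (j + 1) * (2 * B0) ≤ 2 ^ K * (2 * B0) := by
          calc 2 ^ (j + 1) * (2 * B0) = 4 * (2 ^ j * B0) := by rw [pow_succ]; ring
            _ ≤ 2 * B0 * 2 ^ K := h1
            _ = 2 ^ K * (2 * B0) := by ring
        have h3 : 2 ^ (j + 1) ≤ 2 ^ K := Nat.le_of_mul_le_mul_right h2 (by omega)
        have h4 : j + 1 ≤ K := (Nat.pow_le_pow_iff_right (by norm_num)).1 h3
        omega
    _ = K := card_range K

/-- numerical part: short `m` -/
lemma gtc2_small (C : ℝ) (κ r m : ℕ) (hC : 8192 ≤ C) (hκ : 1 ≤ κ) (hr : 2 ^ r ≤ 128 * κ)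
    (hm : m ≤ r + 2) : 1 ≤ C * Real.exp (-(m / (C * κ))) := by
  have h1 : r < 2 ^ r := Nat.lt_two_pow_self
  have h2 : m ≤ 130 * κ := by omega
  have hκ0 : (0 : ℝ) < κ := by exact_mod_cast hκ
  have hC0 : (0 : ℝ) < C := by linarith
  have h3 : (m : ℝ) / (C * κ) ≤ 1 := by
    rw [div_le_one (by positivity)]
    have h4 : (m : ℝ) ≤ 130 * κ := by exact_mod_cast h2
    have h5 : 8192 * (κ : ℝ) ≤ C * κ := mul_le_mul_of_nonneg_right hC hκ0.le
    linarith
  have h6 : Real.exp (-1) ≤ Real.exp (-(m / (C * κ))) := Real.exp_le_exp.2 (by linarith)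
  have h7 : (1 / 3 : ℝ) ≤ Real.exp (-1) := by
    rw [Real.exp_neg, ← one_div]
    refine one_div_le_one_div_of_le (Real.exp_pos 1) ?_
    linarith [Real.exp_one_lt_d9]
  calc (1 : ℝ) ≤ 8192 * (1 / 3) := by norm_num
    _ ≤ C * Real.exp (-(m / (C * κ))) := mul_le_mul hC (h7.trans h6) (by norm_num) hC0.le

/-- numerical part: the exponential -/
lemma gtc2_exp (κ r m q : ℕ) (hκ : 1 ≤ κ) (hr : 2 ^ r ≤ 128 * κ) (hr2 : 2 ≤ r)
    (hq : m ≤ 2 * q + (r + 2)) :
    Real.exp (-((1 / 2 : ℝ) ^ r / 32 * q)) ≤ 3 * Real.exp (-(m / (8192 * κ))) := by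
  have hκ0 : (0 : ℝ) < κ := by exact_mod_cast hκ
  obtain ⟨x, hx⟩ : ∃ x : ℝ, x = (1 / 2) ^ r := ⟨_, rfl⟩
  have hx0 : 0 < x := by rw [hx]; positivity
  have h1 : (1 : ℝ) ≤ x * (128 * κ) := by
    have h2 : ((2 ^ r : ℕ) : ℝ) ≤ ((128 * κ : ℕ) : ℝ) := by exact_mod_cast hr
    push_cast at h2
    have h3 : x * 2 ^ r = 1 := by
      rw [hx, ← mul_pow]
      norm_num
    calc (1 : ℝ) = x * 2 ^ r := h3.symm
      _ ≤ x * (128 * κ) := mul_le_mul_of_nonneg_left h2 hx0.le
  have h4 : x * (r + 2) ≤ 1 := by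
    have h5 : r + 2 ≤ 2 ^ r := by
      clear hr hq h1 hx
      induction r, hr2 using Nat.le_induction with
      | base => norm_num
      | succ k hk ih => rw [pow_succ]; omega
    have h6 : ((r : ℝ) + 2) ≤ 2 ^ r := by exact_mod_cast h5
    have h3 : x * 2 ^ r = 1 := by
      rw [hx, ← mul_pow]
      norm_num
    calc x * (r + 2) ≤ x * 2 ^ r := mul_le_mul_of_nonneg_left h6 hx0.le
      _ = 1 := h3
  have h7 : (m : ℝ) ≤ 2 * q + (r + 2) := by exact_mod_cast hq
  have h8 : (m : ℝ) / (8192 * κ) ≤ x / 64 * m := by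
    rw [div_le_iff₀ (by positivity)]
    have h9 : (m : ℝ) * 1 ≤ m * (x * (128 * κ)) :=
      mul_le_mul_of_nonneg_left h1 (Nat.cast_nonneg m)
    calc (m : ℝ) = m * 1 := (mul_one _).symm
      _ ≤ m * (x * (128 * κ)) := h9
      _ = x / 64 * m * (8192 * κ) := by ring
  have h10 : x / 64 * m ≤ x / 32 * q + 1 := by
    have h11 : x * m ≤ x * (2 * q + (r + 2)) := mul_le_mul_of_nonneg_left h7 hx0.le
    have h12 : x * (2 * q + (r + 2)) = 2 * (x * q) + x * (r + 2) := by ring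
    rw [h12] at h11
    have h13 : x / 64 * m = x * m / 64 := by ring
    have h14 : x / 32 * q = 2 * (x * q) / 64 := by ring
    rw [h13, h14]
    linarith
  have h15 : Real.exp (-(x / 32 * q)) ≤ Real.exp (1 + -(m / (8192 * κ))) :=
    Real.exp_le_exp.2 (by linarith)
  rw [← hx]
  refine h15.trans ?_
  rw [Real.exp_add]
  refine mul_le_mul_of_nonneg_right ?_ (Real.exp_pos _).le
  linarith [Real.exp_one_lt_d9]

open Classical in
/-- **Gap tail.** PROOF. Take `C₀, X₀` from `total_moment`, and for `X` large its `b, K, A`;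
`M = b 2^K`; `S_a = ∑ ps a ≤ C₀ π X`. `b ≥ ⌈log X⌉` as `log X ≤ b`, and
`b ≤ ⌈log X⌉ + 3 ≤ 2 ⌈log X⌉` for `log X ≥ 3`. Let `κ = K'` be the given number (called `κ`
below) and let `r` be minimal with `64 κ ≤ 2^r`, so `2^r ≤ 128 κ` and `r ≥ 6`.
Case 1: `r > K` or `m ≤ r + 2`: the claim is trivial if `C exp (-(m / (C κ))) ≥ 1` ; in the case
`m ≤ r + 2` we have `m / κ ≤ (r + 2) / κ ≤ 200` (as `r ≤ 2^r ≤ 128 κ`, `2 ≤ 2 κ`), fine for
`C ≥ 200 * e` (`C exp (-200 / C) ≥ 1`). In the case `r > K`: the set of scales `j` has at most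
`K` elements (`2^j B0 ≤ X` and `4 X ≤ b 2^K ≤ 2 B0 2^K` give `j < K`), so a prime with
`m ≤ card` forces `m ≤ K < r`, and then again `m ≤ r + 2` (if `m > K` the set of primes is empty).
Case 2: `r ≤ K`, `m > r + 2`. By `bad_scales_le` a prime counted on the left has
`m - (r + 2) ≤ N0 p + Na (p + b A)`; `card_two` (with `N p = N0 p + Na (p + a)`, `m := m - (r+2)`)
and `gap_tail_abs` twice (with exponent `((m - (r+2)) + 1) / 2 ≥ (m - (r + 2)) / 2`) give the bound
`2 * 4 C₀ * exp (-((1/2)^r / 64 * (m - (r + 2)))) * C₀ π X`. Since `(1/2)^r ≥ 1 / (128 κ)` and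
`(r + 2) * (1/2)^r ≤ 1`, the exponential is at most `e * exp (-(m / (8192 κ)))`. -/
theorem gap_tail : ∃ C : ℝ, 1 ≤ C ∧ ∃ X₀ : ℕ, ∀ X : ℕ, X₀ ≤ X → ∀ κ : ℕ, 1 ≤ κ → ∀ m : ℕ,
    (((Icc 1 X).filter (fun p => p.Prime ∧ m ≤ ((range X).filter (fun j =>
      2 ^ j * ⌈Real.log X⌉₊ ≤ X ∧ p ∈ badPrimes X κ (2 ^ j * ⌈Real.log X⌉₊))).card)).card : ℝ) ≤
      C * Real.exp (-(m / (C * κ))) * Nat.primeCounting X := by
  obtain ⟨C₀, hC₀, X₀, hX₀⟩ := total_moment
  have hC₀2 : 1 ≤ C₀ ^ 2 := one_le_pow₀ hC₀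
  have hCbig : 8192 ≤ 8192 * C₀ ^ 2 := by linarith
  refine ⟨8192 * C₀ ^ 2, by linarith, max X₀ 27, ?_⟩
  intro X hX κ hκ m
  have hX1 : X₀ ≤ X := (le_max_left _ _).trans hX
  have hX2 : 27 ≤ X := (le_max_right _ _).trans hX
  obtain ⟨b, K, A, hb2, -, hlogb, hbc, hA, h4X, -, hXbA, hmom⟩ := hX₀ X hX1
  have hb0 : 0 < b := by omega
  have hlog3 : (3 : ℝ) ≤ Real.log X := by
    rw [Real.le_log_iff_exp_le (by positivity)]
    have h1 : Real.exp 3 = Real.exp 1 ^ 3 := by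
      rw [← Real.exp_nat_mul]
      norm_num
    have h2 : Real.exp 1 ≤ 3 := by linarith [Real.exp_one_lt_d9]
    have h3 : Real.exp 1 ^ 3 ≤ 3 ^ 3 := pow_le_pow_left₀ (Real.exp_pos 1).le h2 3
    have h4 : (27 : ℝ) ≤ X := by exact_mod_cast hX2
    rw [h1]
    linarith
  obtain ⟨B0, hB0⟩ : ∃ B0 : ℕ, ⌈Real.log X⌉₊ = B0 := ⟨_, rfl⟩
  have hB3 : 3 ≤ B0 := by
    rw [← hB0]
    have h1 : (3 : ℝ) ≤ (⌈Real.log X⌉₊ : ℝ) := hlog3.trans (Nat.le_ceil _)
    exact_mod_cast h1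
  have hB0b : B0 ≤ b := by
    rw [← hB0]
    exact Nat.ceil_le.2 hlogb
  rw [hB0] at hbc
  have hb2B : b ≤ 2 * B0 := by omega
  obtain ⟨r, hr⟩ : ∃ r : ℕ, r = Nat.clog 2 (64 * κ) := ⟨_, rfl⟩
  have hr1 : 64 * κ ≤ 2 ^ r := by
    rw [hr]
    exact Nat.le_pow_clog (by norm_num) _
  have hr6 : 6 ≤ r := by
    by_contra hlt
    have h1 : 2 ^ r ≤ 2 ^ 5 := Nat.pow_le_pow_right (by norm_num) (by omega)
    have h2 : 2 ^ 5 = 32 := by norm_num
    omega
  have hr2 : 2 ^ r ≤ 128 * κ := by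
    have h1 : 2 ^ (r - 1) < 64 * κ := by
      rw [hr]
      exact Nat.pow_pred_clog_lt_self (by norm_num) (by omega)
    have h2 : 2 ^ r = 2 * 2 ^ (r - 1) := by
      rw [← pow_succ']
      congr 1
      omega
    omega
  have hπ0 : (0 : ℝ) ≤ Nat.primeCounting X := Nat.cast_nonneg _
  rw [hB0]
  by_cases hm : m ≤ r + 2
  · -- short `m`
    refine (gtc2_primes_card X _).trans ?_
    have h1 := gtc2_small (8192 * C₀ ^ 2) κ r m hCbig hκ hr2 hm
    calc (Nat.primeCounting X : ℝ) = 1 * Nat.primeCounting X := (one_mul _).symm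
      _ ≤ _ := mul_le_mul_of_nonneg_right h1 hπ0
  · have hm' : r + 2 < m := not_le.1 hm
    by_cases hrK : r ≤ K
    · -- the main case
      have hM0 : 0 < b * 2 ^ K := by positivity
      have h1 := card_two X (b * 2 ^ K) (b * A) (m - (r + 2))
        (fun p => ((range X).filter (fun j => 2 ^ j * B0 ≤ X ∧
          p ∈ badPrimes X κ (2 ^ j * B0))).card - (r + 2))
        (fun n => nb (BadG (ps 0) b r) (K + 1 - r) n)
        (fun n => nb (BadG (ps (b * A)) b r) (K + 1 - r) n) hXbA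
        (fun p hp hpX => by
          have h2 := bad_scales_le X b K A r κ p hb0 hA (by rw [hB0]; omega)
            (by rw [hB0]; exact hB0b) (by rw [hB0]; exact hb2B) h4X hκ hr1 hrK hpX hp
          rw [hB0] at h2
          exact Nat.sub_le_iff_le_add.2 h2)
      have hsub : (((Icc 1 X).filter (fun p => p.Prime ∧ m ≤ ((range X).filter (fun j =>
          2 ^ j * B0 ≤ X ∧ p ∈ badPrimes X κ (2 ^ j * B0))).card)).card : ℝ) ≤
          (((Icc 1 X).filter (fun p => p.Prime ∧ m - (r + 2) ≤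
            ((range X).filter (fun j => 2 ^ j * B0 ≤ X ∧
              p ∈ badPrimes X κ (2 ^ j * B0))).card - (r + 2))).card : ℝ) := by
        have h2 : ((Icc 1 X).filter (fun p => p.Prime ∧ m ≤ ((range X).filter (fun j =>
          2 ^ j * B0 ≤ X ∧ p ∈ badPrimes X κ (2 ^ j * B0))).card)).card ≤
          ((Icc 1 X).filter (fun p => p.Prime ∧ m - (r + 2) ≤
            ((range X).filter (fun j => 2 ^ j * B0 ≤ X ∧
              p ∈ badPrimes X κ (2 ^ j * B0))).card - (r + 2))).card := by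
          refine card_le_card fun p hp => ?_
          rw [mem_filter] at hp ⊢
          exact ⟨hp.1, hp.2.1, Nat.sub_le_sub_right hp.2.2 _⟩
        exact_mod_cast h2
      have key : ∀ a : ℕ, (a = 0 ∨ a = b * A) →
          ∑ n ∈ (range (b * 2 ^ K)).filter (fun n => (m - (r + 2) + 1) / 2 ≤
            nb (BadG (ps a) b r) (K + 1 - r) n), ps a n ≤
          4 * C₀ * (3 * Real.exp (-(m / (8192 * κ)))) * (C₀ * Nat.primeCounting X) := by
        intro a ha
        obtain ⟨hS, hQ⟩ := hmom a ha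
        have h2 := gap_tail_abs (b * 2 ^ K) b r K rfl hb0 (by omega) hrK (ps a)
          (fun k => by unfold ps; split_ifs <;> norm_num) C₀ hC₀ hQ ((m - (r + 2) + 1) / 2)
        refine h2.trans ?_
        have h3 := gtc2_exp κ r m ((m - (r + 2) + 1) / 2) hκ hr2 (by omega) (by omega)
        have h4 : 4 * C₀ * Real.exp (-((1 / 2 : ℝ) ^ r / 32 * ((m - (r + 2) + 1) / 2 : ℕ))) ≤
            4 * C₀ * (3 * Real.exp (-(m / (8192 * κ)))) :=
          mul_le_mul_of_nonneg_left h3 (by linarith)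
        have h5 : 0 ≤ ∑ n ∈ range (b * 2 ^ K), ps a n :=
          sum_nonneg fun k _ => by unfold ps; split_ifs <;> norm_num
        have h6 : 0 ≤ 4 * C₀ * (3 * Real.exp (-(m / (8192 * κ)))) := by positivity
        exact mul_le_mul h4 hS h5 h6
      refine (hsub.trans h1).trans ((add_le_add (key 0 (Or.inl rfl)) (key _ (Or.inr rfl))).trans ?_)
      have hκ0 : (0 : ℝ) < κ := by exact_mod_cast hκ
      have h7 : Real.exp (-(m / (8192 * κ))) ≤ Real.exp (-(m / (8192 * C₀ ^ 2 * κ))) := by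
        refine Real.exp_le_exp.2 (neg_le_neg ?_)
        refine div_le_div_of_nonneg_left (Nat.cast_nonneg m) (by positivity) ?_
        exact mul_le_mul_of_nonneg_right hCbig hκ0.le
      have h8 : 0 ≤ C₀ ^ 2 * (Nat.primeCounting X : ℝ) := by positivity
      have h9 : 0 ≤ Real.exp (-(m / (8192 * C₀ ^ 2 * κ))) := (Real.exp_pos _).le
      calc 4 * C₀ * (3 * Real.exp (-(m / (8192 * κ)))) * (C₀ * Nat.primeCounting X) +
            4 * C₀ * (3 * Real.exp (-(m / (8192 * κ)))) * (C₀ * Nat.primeCounting X)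
          = 24 * (C₀ ^ 2 * (Nat.primeCounting X : ℝ)) * Real.exp (-(m / (8192 * κ))) := by ring
        _ ≤ 24 * (C₀ ^ 2 * (Nat.primeCounting X : ℝ)) *
            Real.exp (-(m / (8192 * C₀ ^ 2 * κ))) :=
            mul_le_mul_of_nonneg_left h7 (by positivity)
        _ ≤ 8192 * (C₀ ^ 2 * (Nat.primeCounting X : ℝ)) *
            Real.exp (-(m / (8192 * C₀ ^ 2 * κ))) :=
            mul_le_mul_of_nonneg_right (mul_le_mul_of_nonneg_right (by norm_num) h8) h9
        _ = 8192 * C₀ ^ 2 * Real.exp (-(m / (8192 * C₀ ^ 2 * κ))) * Nat.primeCounting X := by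
            ring
    · -- no prime has so many scales
      have hempty : (Icc 1 X).filter (fun p => p.Prime ∧ m ≤ ((range X).filter (fun j =>
          2 ^ j * B0 ≤ X ∧ p ∈ badPrimes X κ (2 ^ j * B0))).card) = ∅ := by
        refine filter_eq_empty_iff.2 fun p _ hp => ?_
        have h2 := gtc2_scales_lt X b K κ p B0 (by omega) hb2B h4X
        have h3 := hp.2
        omega
      rw [hempty, card_empty, Nat.cast_zero]
      positivity

end Pool.Agent.H.MP_711652_nt
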