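import Mathlib

set_option autoImplicit false

namespace Pool.Agent.H.MP_711652_nt

open Finset

open Classical in
/-- The number of levels `j < i` whose cell containing the block `k` is bad. -/
noncomputable def tailN (bad : ℕ → ℕ → Prop) (i k : ℕ) : ℕ :=
  ((range i).filter (fun j => bad j (k / 2 ^ j))).card

open Classical in
lemma tailN_succ (bad : ℕ → ℕ → Prop) (i k : ℕ) :
    tailN bad (i + 1) k = tailN bad i k + if bad i (k / 2 ^ i) then 1 else 0 := by
  unfold tailN
  rw [range_add_one, filter_insert]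
  split_ifs with h
  · rw [card_insert_of_notMem]
    rw [mem_filter, mem_range]
    exact fun h' => absurd h'.1 (lt_irrefl i)
  · rw [add_zero]

open Classical in
/-- Telescoping of the exponential. -/
lemma tailN_pow (bad : ℕ → ℕ → Prop) (t : ℝ) (i k : ℕ) :
    (1 + t) ^ tailN bad i k =
      1 + t * ∑ j ∈ range i, (if bad j (k / 2 ^ j) then (1 + t) ^ tailN bad j k else 0) := by
  induction i with
  | zero => simp [tailN]
  | succ i ih =>
    rw [tailN_succ, sum_range_succ, mul_add, ← add_assoc, ← ih]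
    split_ifs with h
    · rw [pow_succ]
      ring
    · simp

/-- Regrouping of a dyadic interval into cells. -/
lemma dyadic_regroup (F : ℕ → ℝ) (i j C : ℕ) (hj : j ≤ i) :
    ∑ k ∈ Ico (C * 2 ^ i) ((C + 1) * 2 ^ i), F k =
      ∑ c ∈ Ico (C * 2 ^ (i - j)) ((C + 1) * 2 ^ (i - j)),
        ∑ k ∈ Ico (c * 2 ^ j) ((c + 1) * 2 ^ j), F k := by
  have h2 : 2 ^ i = 2 ^ (i - j) * 2 ^ j := by
    rw [← pow_add]
    congr 1
    omega
  have hpos : 0 < 2 ^ j := by positivity
  rw [← sum_fiberwise_of_maps_to (g := fun k => k / 2 ^ j)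
    (t := Ico (C * 2 ^ (i - j)) ((C + 1) * 2 ^ (i - j)))]
  · apply sum_congr rfl
    intro c hc
    rw [mem_Ico] at hc
    apply sum_congr _ (fun _ _ => rfl)
    ext k
    rw [mem_filter, mem_Ico, mem_Ico]
    constructor
    · rintro ⟨-, h⟩
      subst h
      refine ⟨Nat.div_mul_le_self k _, ?_⟩
      exact Nat.lt_mul_of_div_lt (Nat.lt_succ_self _) hpos
    · rintro ⟨h3, h4⟩
      refine ⟨⟨?_, ?_⟩, ?_⟩
      · calc C * 2 ^ i = (C * 2 ^ (i - j)) * 2 ^ j := by rw [h2]; ring
          _ ≤ c * 2 ^ j := Nat.mul_le_mul_right _ hc.1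
          _ ≤ k := h3
      · calc k < (c + 1) * 2 ^ j := h4
          _ ≤ ((C + 1) * 2 ^ (i - j)) * 2 ^ j := Nat.mul_le_mul_right _ hc.2
          _ = (C + 1) * 2 ^ i := by rw [h2]; ring
      · apply Nat.div_eq_of_lt_le
        · exact h3
        · exact h4
  · intro k hk
    rw [mem_Ico] at hk ⊢
    constructor
    · rw [Nat.le_div_iff_mul_le hpos]
      calc C * 2 ^ (i - j) * 2 ^ j = C * 2 ^ i := by rw [h2]; ring
        _ ≤ k := hk.1
    · rw [Nat.div_lt_iff_lt_mul hpos]
      calc k < (C + 1) * 2 ^ i := hk.2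
        _ = (C + 1) * 2 ^ (i - j) * 2 ^ j := by rw [h2]; ring

open Classical in
/-- **John–Nirenberg for dyadic Carleson families.** -/
theorem exp_moment (bad : ℕ → ℕ → Prop) (A : ℝ) (hA : 0 < A)
    (hcar : ∀ i C : ℕ, ∑ j ∈ range i, (2 : ℝ) ^ j *
      (((Ico (C * 2 ^ (i - j)) ((C + 1) * 2 ^ (i - j))).filter (bad j)).card : ℝ) ≤ A * 2 ^ i)
    (i C : ℕ) : ∑ k ∈ Ico (C * 2 ^ i) ((C + 1) * 2 ^ i), (1 + 1 / (2 * A)) ^ tailN bad i k ≤
      2 * 2 ^ i := by
  induction i using Nat.strong_induction_on generalizing C with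
  | _ i ih =>
    set t : ℝ := 1 / (2 * A) with ht
    have ht0 : 0 < t := by positivity
    have h1 : ∀ k ∈ Ico (C * 2 ^ i) ((C + 1) * 2 ^ i), (1 + t) ^ tailN bad i k =
        1 + t * ∑ j ∈ range i, (if bad j (k / 2 ^ j) then (1 + t) ^ tailN bad j k else 0) :=
      fun k _ => tailN_pow bad t i k
    rw [sum_congr rfl h1, sum_add_distrib, ← mul_sum, sum_comm]
    have h2 : ∑ k ∈ Ico (C * 2 ^ i) ((C + 1) * 2 ^ i), (1 : ℝ) = 2 ^ i := by
      rw [sum_const, Nat.card_Ico, nsmul_eq_mul, mul_one]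
      have : (C + 1) * 2 ^ i - C * 2 ^ i = 2 ^ i := by
        rw [Nat.add_mul, one_mul, Nat.add_sub_cancel_left]
      rw [this]
      push_cast
      rfl
    have h3 : ∀ j ∈ range i, ∑ k ∈ Ico (C * 2 ^ i) ((C + 1) * 2 ^ i),
        (if bad j (k / 2 ^ j) then (1 + t) ^ tailN bad j k else 0) ≤
        2 * ((2 : ℝ) ^ j *
      (((Ico (C * 2 ^ (i - j)) ((C + 1) * 2 ^ (i - j))).filter (bad j)).card : ℝ)) := by
      intro j hj
      rw [mem_range] at hj
      rw [dyadic_regroup _ i j C hj.le]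
      have h4 : ∀ c ∈ Ico (C * 2 ^ (i - j)) ((C + 1) * 2 ^ (i - j)),
          ∑ k ∈ Ico (c * 2 ^ j) ((c + 1) * 2 ^ j),
            (if bad j (k / 2 ^ j) then (1 + t) ^ tailN bad j k else 0) ≤
          if bad j c then 2 * (2 : ℝ) ^ j else 0 := by
        intro c _
        have h5 : ∀ k ∈ Ico (c * 2 ^ j) ((c + 1) * 2 ^ j),
            (if bad j (k / 2 ^ j) then (1 + t) ^ tailN bad j k else 0) =
            if bad j c then (1 + t) ^ tailN bad j k else 0 := by
          intro k hk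
          rw [mem_Ico] at hk
          have h6 : k / 2 ^ j = c := Nat.div_eq_of_lt_le hk.1 hk.2
          rw [h6]
        rw [sum_congr rfl h5]
        split_ifs with h
        · exact ih j hj c
        · simp
      refine (sum_le_sum h4).trans ?_
      rw [← sum_filter, sum_const, nsmul_eq_mul]
      apply le_of_eq
      ring
    have h4 := sum_le_sum h3
    rw [← mul_sum] at h4
    have h5 := hcar i C
    rw [h2]
    have h6 : t * (2 * (A * 2 ^ i)) = 2 ^ i := by
      rw [ht]
      field_simp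
    calc (2 : ℝ) ^ i + t * ∑ j ∈ range i, ∑ k ∈ Ico (C * 2 ^ i) ((C + 1) * 2 ^ i),
          (if bad j (k / 2 ^ j) then (1 + t) ^ tailN bad j k else 0)
        ≤ 2 ^ i + t * (2 * (A * 2 ^ i)) := by
          gcongr
          refine h4.trans ?_
          gcongr
      _ = 2 * 2 ^ i := by rw [h6]; ring

open Classical in
/-- The tail. -/
theorem tail_count (bad : ℕ → ℕ → Prop) (A : ℝ) (hA : 0 < A)
    (hcar : ∀ i C : ℕ, ∑ j ∈ range i, (2 : ℝ) ^ j *
      (((Ico (C * 2 ^ (i - j)) ((C + 1) * 2 ^ (i - j))).filter (bad j)).card : ℝ) ≤ A * 2 ^ i)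
    (i m : ℕ) : (((range (2 ^ i)).filter (fun k => m ≤ tailN bad i k)).card : ℝ) *
      (1 + 1 / (2 * A)) ^ m ≤ 2 * 2 ^ i := by
  have h1 := exp_moment bad A hA hcar i 0
  rw [zero_mul, zero_add, one_mul] at h1
  have hl : (1 : ℝ) ≤ 1 + 1 / (2 * A) := by
    have : 0 < 1 / (2 * A) := by positivity
    linarith
  refine le_trans ?_ h1
  rw [← nsmul_eq_mul, ← sum_const]
  calc ∑ k ∈ (range (2 ^ i)).filter (fun k => m ≤ tailN bad i k), (1 + 1 / (2 * A)) ^ m
      ≤ ∑ k ∈ (range (2 ^ i)).filter (fun k => m ≤ tailN bad i k),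
        (1 + 1 / (2 * A)) ^ tailN bad i k := by
        apply sum_le_sum
        intro k hk
        rw [mem_filter] at hk
        exact pow_le_pow_right₀ hl hk.2
    _ ≤ _ := by
        apply sum_le_sum_of_subset_of_nonneg
        · intro k hk
          rw [mem_filter, mem_range] at hk
          rw [mem_Ico]
          exact ⟨Nat.zero_le _, hk.1⟩
        · intro k _ _
          positivity

end Pool.Agent.H.MP_711652_nt
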