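import Mathlib
import Pool.Agent.H.MP_711652_nt.ScaleB

set_option autoImplicit false

namespace Pool.Agent.H.MP_711652_nt

open Finset

/-- The cell `c` of level `j` contains a point at distance at most `K * 2 ^ j * b` to the left of
the start of a gap longer than `2 ^ j * b`. -/
def cellR (K b j c : ℕ) : Prop := ∃ q, q.Prime ∧ PrimeFree q (2 ^ j * b) ∧
  ∃ n, n / (2 ^ j * b) = c ∧ n ≤ q ∧ q ≤ n + K * (2 ^ j * b)

/-- The cell `c` of level `j` contains a point at distance at most `K * 2 ^ j * b` to the right of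
the end of a gap longer than `2 ^ j * b`. -/
def cellL (K b j c : ℕ) : Prop := ∃ q, q.Prime ∧ 2 ^ j * b < q ∧
  PrimeFree (q - 1 - 2 ^ j * b) (2 ^ j * b) ∧
  ∃ n, n / (2 ^ j * b) = c ∧ q ≤ n ∧ n ≤ q + K * (2 ^ j * b)

def cellBad (K b j c : ℕ) : Prop := cellR K b j c ∨ cellL K b j c

lemma cell_pos (b i j C c n : ℕ) (hj : j < i)
    (hc : c ∈ Ico (C * 2 ^ (i - j)) ((C + 1) * 2 ^ (i - j))) (hn : n / (2 ^ j * b) = c)
    (hb : 0 < b) : C * (2 ^ i * b) ≤ n ∧ n < C * (2 ^ i * b) + 2 ^ i * b := by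
  have h2 : 2 ^ i = 2 ^ (i - j) * 2 ^ j := by
    rw [← pow_add]
    congr 1
    omega
  have hpos : 0 < 2 ^ j * b := by positivity
  rw [mem_Ico] at hc
  subst hn
  constructor
  · calc C * (2 ^ i * b) = C * 2 ^ (i - j) * (2 ^ j * b) := by rw [h2]; ring
      _ ≤ n / (2 ^ j * b) * (2 ^ j * b) := Nat.mul_le_mul_right _ hc.1
      _ ≤ n := Nat.div_mul_le_self _ _
  · calc n < (n / (2 ^ j * b) + 1) * (2 ^ j * b) := by
          exact Nat.lt_mul_of_div_lt (Nat.lt_succ_self _) hpos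
      _ ≤ ((C + 1) * 2 ^ (i - j)) * (2 ^ j * b) := Nat.mul_le_mul_right _ hc.2
      _ = C * (2 ^ i * b) + 2 ^ i * b := by rw [h2]; ring

lemma half_real (H : ℕ) : (H : ℝ) / 2 ≤ ((H - H / 2 : ℕ) : ℝ) := by
  have h1 : H ≤ 2 * (H - H / 2) := by omega
  have h2 : (H : ℝ) ≤ 2 * ((H - H / 2 : ℕ) : ℝ) := by exact_mod_cast h1
  linarith

open Classical in
lemma packR (K b i C : ℕ) (hb : 0 < b) :
    ∑ j ∈ (range i).filter (fun j => K * 2 ^ j ≤ 2 ^ i), (2 : ℝ) ^ j *
      (((Ico (C * 2 ^ (i - j)) ((C + 1) * 2 ^ (i - j))).filter (cellR K b j)).card : ℝ) ≤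
      6 * (K + 1) * 2 ^ i := by
  set J := (range i).filter (fun j => K * 2 ^ j ≤ 2 ^ i) with hJ
  set Hi := 2 ^ i * b with hHi
  set a := C * Hi with ha
  set Q : ℕ → Finset ℕ := fun j => (Icc a (a + 2 * Hi)).filter
    (fun q => q.Prime ∧ PrimeFree q (2 ^ j * b)) with hQ
  have hJj : ∀ j ∈ J, j < i ∧ K * (2 ^ j * b) ≤ Hi ∧ 2 ^ j * b ≤ Hi := by
    intro j hj
    rw [hJ, mem_filter, mem_range] at hj
    refine ⟨hj.1, ?_, ?_⟩
    · calc K * (2 ^ j * b) = K * 2 ^ j * b := by ring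
        _ ≤ 2 ^ i * b := Nat.mul_le_mul_right _ hj.2
    · exact Nat.mul_le_mul_right _ (Nat.pow_le_pow_right (by norm_num) hj.1.le)
  -- cells versus gap starts
  have h1 : ∀ j ∈ J, ((Ico (C * 2 ^ (i - j)) ((C + 1) * 2 ^ (i - j))).filter (cellR K b j)).card ≤
      (Q j).card * (K + 1) := by
    intro j hj
    obtain ⟨hji, hKj, -⟩ := hJj j hj
    have hpos : 0 < 2 ^ j * b := by positivity
    have hsub : (Ico (C * 2 ^ (i - j)) ((C + 1) * 2 ^ (i - j))).filter (cellR K b j) ⊆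
        (Q j).biUnion (fun q => Icc (q / (2 ^ j * b) - K) (q / (2 ^ j * b))) := by
      intro c hc
      rw [mem_filter] at hc
      obtain ⟨hc1, q, hq1, hq2, n, hn1, hn2, hn3⟩ := hc
      have hn45 := cell_pos b i j C c n hji hc1 hn1 hb
      have hn4 : a ≤ n := hn45.1
      have hn5 : n < a + Hi := hn45.2
      rw [mem_biUnion]
      refine ⟨q, ?_, ?_⟩
      · rw [hQ]
        simp only
        rw [mem_filter, mem_Icc]
        exact ⟨⟨by omega, by omega⟩, hq1, hq2⟩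
      · rw [mem_Icc]
        constructor
        · rw [Nat.sub_le_iff_le_add]
          calc q / (2 ^ j * b) ≤ (n + K * (2 ^ j * b)) / (2 ^ j * b) := Nat.div_le_div_right hn3
            _ = c + K := by rw [Nat.add_mul_div_right _ _ hpos, hn1]
        · rw [← hn1]
          exact Nat.div_le_div_right hn2
    refine (card_le_card hsub).trans ?_
    apply card_biUnion_le_card_mul
    intro q _
    rw [Nat.card_Icc]
    omega
  -- attached points
  set w : ℕ → ℝ := fun y => if a < y ∧ y ≤ a + 3 * Hi then 1 else 0 with hw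
  have hw0 : ∀ y, 0 ≤ w y := by
    intro y
    rw [hw]
    simp only
    split_ifs <;> norm_num
  have h2 := weight_right b (a + 3 * Hi) J Q w hw0 (by
    intro j hj q hq
    obtain ⟨-, -, h3⟩ := hJj j hj
    rw [hQ] at hq
    simp only at hq
    rw [mem_filter, mem_Icc] at hq
    exact ⟨hq.2.1, hq.2.2, by omega⟩)
  have h3 : ∀ j ∈ J, ((Q j).card : ℝ) * ((2 : ℝ) ^ j * b / 2) ≤
      ∑ q ∈ Q j, ∑ y ∈ Ioc (q + 2 ^ j * b / 2) (q + 2 ^ j * b), w y := by
    intro j hj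
    obtain ⟨-, -, h4⟩ := hJj j hj
    rw [← nsmul_eq_mul, ← sum_const]
    apply sum_le_sum
    intro q hq
    rw [hQ] at hq
    simp only at hq
    rw [mem_filter, mem_Icc] at hq
    have h5 : ∀ y ∈ Ioc (q + 2 ^ j * b / 2) (q + 2 ^ j * b), w y = 1 := by
      intro y hy
      rw [mem_Ioc] at hy
      rw [hw]
      simp only
      rw [if_pos]
      omega
    rw [sum_congr rfl h5, sum_const, Nat.card_Ioc, nsmul_eq_mul, mul_one]
    have h6 : q + 2 ^ j * b - (q + 2 ^ j * b / 2) = 2 ^ j * b - 2 ^ j * b / 2 := by omega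
    rw [h6]
    have h7 := half_real (2 ^ j * b)
    push_cast at h7 ⊢
    exact h7
  have h4 : ∑ y ∈ range (a + 3 * Hi + 1), w y ≤ 3 * Hi := by
    rw [hw]
    simp only
    rw [← sum_filter, sum_const, nsmul_eq_mul, mul_one]
    have h5 : (range (a + 3 * Hi + 1)).filter (fun y => a < y ∧ y ≤ a + 3 * Hi) ⊆
        Ioc a (a + 3 * Hi) := by
      intro y hy
      rw [mem_filter] at hy
      exact mem_Ioc.2 hy.2
    have h6 := card_le_card h5
    rw [Nat.card_Ioc, Nat.add_sub_cancel_left] at h6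
    exact_mod_cast h6
  have h5 : ∑ j ∈ J, ((Q j).card : ℝ) * ((2 : ℝ) ^ j * b / 2) ≤ 3 * Hi :=
    (sum_le_sum h3).trans (h2.trans h4)
  have hbr : (0 : ℝ) < b := by exact_mod_cast hb
  have h6 : ∑ j ∈ J, (2 : ℝ) ^ j * ((Q j).card : ℝ) ≤ 6 * 2 ^ i := by
    have h7 : (∑ j ∈ J, (2 : ℝ) ^ j * ((Q j).card : ℝ)) * (b / 2) =
        ∑ j ∈ J, ((Q j).card : ℝ) * ((2 : ℝ) ^ j * b / 2) := by
      rw [sum_mul]
      apply sum_congr rfl
      intro j _
      ring
    have h8 : (6 * (2 : ℝ) ^ i) * (b / 2) = 3 * (Hi : ℕ) := by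
      rw [hHi]
      push_cast
      ring
    have h9 : (∑ j ∈ J, (2 : ℝ) ^ j * ((Q j).card : ℝ)) * (b / 2) ≤ (6 * (2 : ℝ) ^ i) * (b / 2) := by
      rw [h7, h8]
      exact h5
    exact le_of_mul_le_mul_right h9 (by positivity)
  calc _ ≤ ∑ j ∈ J, (K + 1) * ((2 : ℝ) ^ j * ((Q j).card : ℝ)) := by
        apply sum_le_sum
        intro j hj
        have h7 : (((Ico (C * 2 ^ (i - j)) ((C + 1) * 2 ^ (i - j))).filter
            (cellR K b j)).card : ℝ) ≤ ((Q j).card : ℝ) * (K + 1) := by exact_mod_cast h1 j hj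
        calc _ ≤ (2 : ℝ) ^ j * (((Q j).card : ℝ) * (K + 1)) := by gcongr
          _ = _ := by ring
    _ = (K + 1) * ∑ j ∈ J, (2 : ℝ) ^ j * ((Q j).card : ℝ) := by rw [mul_sum]
    _ ≤ (K + 1) * (6 * 2 ^ i) := by gcongr
    _ = _ := by ring

open Classical in
lemma packL (K b i C : ℕ) (hb : 0 < b) :
    ∑ j ∈ (range i).filter (fun j => K * 2 ^ j ≤ 2 ^ i), (2 : ℝ) ^ j *
      (((Ico (C * 2 ^ (i - j)) ((C + 1) * 2 ^ (i - j))).filter (cellL K b j)).card : ℝ) ≤
      6 * (K + 1) * 2 ^ i := by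
  set J := (range i).filter (fun j => K * 2 ^ j ≤ 2 ^ i) with hJ
  set Hi := 2 ^ i * b with hHi
  set a := C * Hi with ha
  set Q : ℕ → Finset ℕ := fun j => (Icc (a - Hi) (a + Hi)).filter
    (fun q => q.Prime ∧ 2 ^ j * b < q ∧ PrimeFree (q - 1 - 2 ^ j * b) (2 ^ j * b)) with hQ
  have hJj : ∀ j ∈ J, j < i ∧ K * (2 ^ j * b) ≤ Hi ∧ 2 ^ j * b ≤ Hi := by
    intro j hj
    rw [hJ, mem_filter, mem_range] at hj
    refine ⟨hj.1, ?_, ?_⟩
    · calc K * (2 ^ j * b) = K * 2 ^ j * b := by ring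
        _ ≤ 2 ^ i * b := Nat.mul_le_mul_right _ hj.2
    · exact Nat.mul_le_mul_right _ (Nat.pow_le_pow_right (by norm_num) hj.1.le)
  have h1 : ∀ j ∈ J, ((Ico (C * 2 ^ (i - j)) ((C + 1) * 2 ^ (i - j))).filter (cellL K b j)).card ≤
      (Q j).card * (K + 1) := by
    intro j hj
    obtain ⟨hji, hKj, -⟩ := hJj j hj
    have hpos : 0 < 2 ^ j * b := by positivity
    have hsub : (Ico (C * 2 ^ (i - j)) ((C + 1) * 2 ^ (i - j))).filter (cellL K b j) ⊆
        (Q j).biUnion (fun q => Icc (q / (2 ^ j * b)) (q / (2 ^ j * b) + K)) := by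
      intro c hc
      rw [mem_filter] at hc
      obtain ⟨hc1, q, hq1, hq2, hq3, n, hn1, hn2, hn3⟩ := hc
      have hn45 := cell_pos b i j C c n hji hc1 hn1 hb
      have hn4 : a ≤ n := hn45.1
      have hn5 : n < a + Hi := hn45.2
      rw [mem_biUnion]
      refine ⟨q, ?_, ?_⟩
      · rw [hQ]
        simp only
        rw [mem_filter, mem_Icc]
        exact ⟨⟨by omega, by omega⟩, hq1, hq2, hq3⟩
      · rw [mem_Icc]
        constructor
        · rw [← hn1]
          exact Nat.div_le_div_right hn2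
        · calc c = n / (2 ^ j * b) := hn1.symm
            _ ≤ (q + K * (2 ^ j * b)) / (2 ^ j * b) := Nat.div_le_div_right hn3
            _ = _ := by rw [Nat.add_mul_div_right _ _ hpos]
    refine (card_le_card hsub).trans ?_
    apply card_biUnion_le_card_mul
    intro q _
    rw [Nat.card_Icc]
    omega
  set w : ℕ → ℝ := fun y => if a ≤ y + 2 * Hi ∧ y < a + Hi then 1 else 0 with hw
  have hw0 : ∀ y, 0 ≤ w y := by
    intro y
    rw [hw]
    simp only
    split_ifs <;> norm_num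
  have h2 := weight_left b (a + Hi) J Q w hw0 (by
    intro j hj q hq
    rw [hQ] at hq
    simp only at hq
    rw [mem_filter, mem_Icc] at hq
    exact ⟨hq.2.1, hq.2.2.1, hq.2.2.2, hq.1.2⟩)
  have h3 : ∀ j ∈ J, ((Q j).card : ℝ) * ((2 : ℝ) ^ j * b / 2) ≤
      ∑ q ∈ Q j, ∑ y ∈ Ico (q - 2 ^ j * b) (q - 2 ^ j * b / 2), w y := by
    intro j hj
    obtain ⟨-, -, h4⟩ := hJj j hj
    rw [← nsmul_eq_mul, ← sum_const]
    apply sum_le_sum
    intro q hq
    rw [hQ] at hq
    simp only at hq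
    rw [mem_filter, mem_Icc] at hq
    obtain ⟨⟨hq1, hq2⟩, -, hq3, -⟩ := hq
    have h5 : ∀ y ∈ Ico (q - 2 ^ j * b) (q - 2 ^ j * b / 2), w y = 1 := by
      intro y hy
      rw [mem_Ico] at hy
      rw [hw]
      simp only
      rw [if_pos]
      omega
    rw [sum_congr rfl h5, sum_const, Nat.card_Ico, nsmul_eq_mul, mul_one]
    have h6 : q - 2 ^ j * b / 2 - (q - 2 ^ j * b) = 2 ^ j * b - 2 ^ j * b / 2 := by omega
    rw [h6]
    have h7 := half_real (2 ^ j * b)
    push_cast at h7 ⊢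
    exact h7
  have h4 : ∑ y ∈ range (a + Hi + 1), w y ≤ 3 * Hi := by
    rw [hw]
    simp only
    rw [← sum_filter, sum_const, nsmul_eq_mul, mul_one]
    have h5 : (range (a + Hi + 1)).filter (fun y => a ≤ y + 2 * Hi ∧ y < a + Hi) ⊆
        Ico (a - 2 * Hi) (a + Hi) := by
      intro y hy
      rw [mem_filter] at hy
      rw [mem_Ico]
      omega
    have h6 := card_le_card h5
    rw [Nat.card_Ico] at h6
    have h7 : a + Hi - (a - 2 * Hi) ≤ 3 * Hi := by omega
    exact_mod_cast h6.trans h7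
  have h5 : ∑ j ∈ J, ((Q j).card : ℝ) * ((2 : ℝ) ^ j * b / 2) ≤ 3 * Hi :=
    (sum_le_sum h3).trans (h2.trans h4)
  have hbr : (0 : ℝ) < b := by exact_mod_cast hb
  have h6 : ∑ j ∈ J, (2 : ℝ) ^ j * ((Q j).card : ℝ) ≤ 6 * 2 ^ i := by
    have h7 : (∑ j ∈ J, (2 : ℝ) ^ j * ((Q j).card : ℝ)) * (b / 2) =
        ∑ j ∈ J, ((Q j).card : ℝ) * ((2 : ℝ) ^ j * b / 2) := by
      rw [sum_mul]
      apply sum_congr rfl
      intro j _
      ring
    have h8 : (6 * (2 : ℝ) ^ i) * (b / 2) = 3 * (Hi : ℕ) := by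
      rw [hHi]
      push_cast
      ring
    have h9 : (∑ j ∈ J, (2 : ℝ) ^ j * ((Q j).card : ℝ)) * (b / 2) ≤ (6 * (2 : ℝ) ^ i) * (b / 2) := by
      rw [h7, h8]
      exact h5
    exact le_of_mul_le_mul_right h9 (by positivity)
  calc _ ≤ ∑ j ∈ J, (K + 1) * ((2 : ℝ) ^ j * ((Q j).card : ℝ)) := by
        apply sum_le_sum
        intro j hj
        have h7 : (((Ico (C * 2 ^ (i - j)) ((C + 1) * 2 ^ (i - j))).filter
            (cellL K b j)).card : ℝ) ≤ ((Q j).card : ℝ) * (K + 1) := by exact_mod_cast h1 j hj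
        calc _ ≤ (2 : ℝ) ^ j * (((Q j).card : ℝ) * (K + 1)) := by gcongr
          _ = _ := by ring
    _ = (K + 1) * ∑ j ∈ J, (2 : ℝ) ^ j * ((Q j).card : ℝ) := by rw [mul_sum]
    _ ≤ (K + 1) * (6 * 2 ^ i) := by gcongr
    _ = _ := by ring

open Classical in
/-- **Carleson packing** of the bad cells. -/
theorem carleson (K b : ℕ) (hK : 1 ≤ K) (hb : 0 < b) (i C : ℕ) :
    ∑ j ∈ range i, (2 : ℝ) ^ j *
      (((Ico (C * 2 ^ (i - j)) ((C + 1) * 2 ^ (i - j))).filter (cellBad K b j)).card : ℝ) ≤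
      (25 * K) * 2 ^ i := by
  have hR := packR K b i C hb
  have hL := packL K b i C hb
  have hKr : (1 : ℝ) ≤ K := by exact_mod_cast hK
  rw [← sum_filter_add_sum_filter_not (range i) (fun j => K * 2 ^ j ≤ 2 ^ i)]
  have h1 : ∑ j ∈ (range i).filter (fun j => K * 2 ^ j ≤ 2 ^ i), (2 : ℝ) ^ j *
      (((Ico (C * 2 ^ (i - j)) ((C + 1) * 2 ^ (i - j))).filter (cellBad K b j)).card : ℝ) ≤
      6 * (K + 1) * 2 ^ i + 6 * (K + 1) * 2 ^ i := by
    refine le_trans ?_ (add_le_add hR hL)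
    rw [← sum_add_distrib]
    apply sum_le_sum
    intro j _
    rw [← mul_add]
    apply mul_le_mul_of_nonneg_left _ (by positivity)
    have h2 : (Ico (C * 2 ^ (i - j)) ((C + 1) * 2 ^ (i - j))).filter (cellBad K b j) ⊆
        (Ico (C * 2 ^ (i - j)) ((C + 1) * 2 ^ (i - j))).filter (cellR K b j) ∪
        (Ico (C * 2 ^ (i - j)) ((C + 1) * 2 ^ (i - j))).filter (cellL K b j) := by
      intro c hc
      rw [mem_filter] at hc
      rw [mem_union, mem_filter, mem_filter]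
      rcases hc.2 with h | h
      · exact Or.inl ⟨hc.1, h⟩
      · exact Or.inr ⟨hc.1, h⟩
    exact_mod_cast (card_le_card h2).trans (card_union_le _ _)
  have h2 : ∑ j ∈ (range i).filter (fun j => ¬ K * 2 ^ j ≤ 2 ^ i), (2 : ℝ) ^ j *
      (((Ico (C * 2 ^ (i - j)) ((C + 1) * 2 ^ (i - j))).filter (cellBad K b j)).card : ℝ) ≤
      K * 2 ^ i := by
    have h3 : ∀ j ∈ (range i).filter (fun j => ¬ K * 2 ^ j ≤ 2 ^ i), (2 : ℝ) ^ j *
      (((Ico (C * 2 ^ (i - j)) ((C + 1) * 2 ^ (i - j))).filter (cellBad K b j)).card : ℝ) ≤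
        2 ^ i := by
      intro j hj
      rw [mem_filter, mem_range] at hj
      have h4 : (((Ico (C * 2 ^ (i - j)) ((C + 1) * 2 ^ (i - j))).filter
          (cellBad K b j)).card : ℝ) ≤ 2 ^ (i - j) := by
        have h5 := card_filter_le (Ico (C * 2 ^ (i - j)) ((C + 1) * 2 ^ (i - j))) (cellBad K b j)
        have h6 : (Ico (C * 2 ^ (i - j)) ((C + 1) * 2 ^ (i - j))).card = 2 ^ (i - j) := by
          rw [Nat.card_Ico, Nat.add_mul, one_mul, Nat.add_sub_cancel_left]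
        rw [h6] at h5
        exact_mod_cast h5
      calc _ ≤ (2 : ℝ) ^ j * 2 ^ (i - j) := by gcongr
        _ = 2 ^ i := by
            rw [← pow_add]
            congr 1
            omega
    have h4 : ((range i).filter (fun j => ¬ K * 2 ^ j ≤ 2 ^ i)).card ≤ K := by
      have h5 : ((range i).filter (fun j => ¬ K * 2 ^ j ≤ 2 ^ i)).card ≤ (range K).card := by
        apply card_le_card_of_injOn (fun j => i - j)
        · intro j hj
          rw [mem_coe, mem_filter, mem_range] at hj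
          rw [mem_coe, mem_range]
          have h6 : 2 ^ i = 2 ^ (i - j) * 2 ^ j := by
            rw [← pow_add]
            congr 1
            omega
          have h7 : 2 ^ (i - j) * 2 ^ j < K * 2 ^ j := by
            rw [← h6]
            exact not_le.1 hj.2
          have h8 : 2 ^ (i - j) < K := lt_of_mul_lt_mul_right h7 (Nat.zero_le _)
          have h9 : i - j < 2 ^ (i - j) := Nat.lt_two_pow_self
          exact h9.trans h8
        · intro j hj j' hj' h
          rw [mem_coe, mem_filter, mem_range] at hj hj'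
          have g1 := hj.1
          have g2 := hj'.1
          simp only at h
          omega
      rwa [card_range] at h5
    calc _ ≤ ∑ j ∈ (range i).filter (fun j => ¬ K * 2 ^ j ≤ 2 ^ i), (2 : ℝ) ^ i :=
          sum_le_sum h3
      _ = (((range i).filter (fun j => ¬ K * 2 ^ j ≤ 2 ^ i)).card : ℝ) * 2 ^ i := by
          rw [sum_const, nsmul_eq_mul]
      _ ≤ _ := by
          have : (((range i).filter (fun j => ¬ K * 2 ^ j ≤ 2 ^ i)).card : ℝ) ≤ K := by
            exact_mod_cast h4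
          gcongr
  have h3 : (0 : ℝ) < 2 ^ i := by positivity
  have h4 : 6 * ((K : ℝ) + 1) * 2 ^ i + 6 * (K + 1) * 2 ^ i + K * 2 ^ i ≤ 25 * K * 2 ^ i := by
    nlinarith
  linarith

end Pool.Agent.H.MP_711652_nt
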