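import Mathlib
import Pool.Agent.H.MP_711652_nt.TailA
import Pool.Agent.H.MP_711652_nt.TailB

set_option autoImplicit false

namespace Pool.Agent.H.MP_711652_nt

open Finset

open Classical in
/-- the bad dyadic scales of `p` -/
noncomputable def badSc (X K p : ℕ) : Finset ℕ :=
  (range X).filter (fun j => 2 ^ j * ⌈Real.log X⌉₊ ≤ X ∧
    p ∈ badPrimes X K (2 ^ j * ⌈Real.log X⌉₊))

lemma one_add_ge_exp (t : ℝ) (ht0 : 0 ≤ t) (ht1 : t ≤ 1) : Real.exp (t / 2) ≤ 1 + t := by
  have h1 : 0 < 1 + t := by linarith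
  rw [← Real.le_log_iff_exp_le h1]
  have h2 := Real.one_sub_inv_le_log_of_pos h1
  refine le_trans ?_ h2
  have h3 : 1 - (1 + t)⁻¹ = t / (1 + t) := by
    field_simp
    ring
  rw [h3]
  exact div_le_div_of_nonneg_left ht0 h1 (by linarith)

open Classical in
/-- the large scales -/
lemma large_scales (X K b : ℕ) (hb : 0 < b) :
    ((range X).filter (fun j => 2 ^ j * b ≤ X ∧ ¬ K * (2 ^ j * b) ≤ X)).card ≤ K := by
  set J2 := (range X).filter (fun j => 2 ^ j * b ≤ X ∧ ¬ K * (2 ^ j * b) ≤ X) with hJ2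
  rcases J2.eq_empty_or_nonempty with he | hne
  · rw [he]; simp
  · obtain ⟨j0, hj0, hmin⟩ := J2.exists_min_image id hne
    have hsub : J2 ⊆ Ico j0 (j0 + K) := by
      intro j hj
      have hle : j0 ≤ j := hmin j hj
      rw [mem_Ico]
      refine ⟨hle, ?_⟩
      rw [hJ2, mem_filter] at hj hj0
      by_contra hge
      have h3 : K ≤ j - j0 := by omega
      have h4 : K < 2 ^ (j - j0) := lt_of_le_of_lt h3 Nat.lt_two_pow_self
      have h5 : 2 ^ j = 2 ^ (j - j0) * 2 ^ j0 := by
        rw [← pow_add]; congr 1; omega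
      have h6 : K * (2 ^ j0 * b) ≤ 2 ^ j * b := by
        rw [h5, mul_assoc]
        exact Nat.mul_le_mul_right _ h4.le
      exact hj0.2.2 (h6.trans hj.2.1)
    calc J2.card ≤ (Ico j0 (j0 + K)).card := card_le_card hsub
      _ = K := by simp

/-- bad primes lie in bad cells -/
lemma cellBad_of_bad (X K b j p : ℕ) (hb : 2 ≤ b) (hKH : K * (2 ^ j * b) ≤ X)
    (hp : p ∈ badPrimes X K (2 ^ j * b)) : cellBad K b j (p / b / 2 ^ j) := by
  classical
  have h2j : 1 ≤ 2 ^ j := Nat.one_le_two_pow
  have hH2 : 2 ≤ 2 ^ j * b := by nlinarith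
  have hdiv : p / (2 ^ j * b) = p / b / 2 ^ j := by
    rw [Nat.div_div_eq_div_mul, mul_comm]
  rcases bad_near X K (2 ^ j * b) p hH2 hKH hp with ⟨q, hq, h1, h2⟩ | ⟨q, hq, h1, h2⟩
  · left
    unfold Qr at hq
    rw [mem_filter] at hq
    exact ⟨q, hq.2.1, hq.2.2, p, hdiv, h1, h2⟩
  · right
    unfold Ql at hq
    rw [mem_filter] at hq
    exact ⟨q, hq.2.1, hq.2.2.1, hq.2.2.2, p, hdiv, h1, h2⟩

open Classical in
/-- **Exponential tail for the number of bad scales.** -/
theorem exp_tail : ∃ C c : ℝ, 0 < C ∧ 0 < c ∧ ∃ X₀ : ℕ, ∀ X : ℕ, X₀ ≤ X → ∀ K : ℕ, 1 ≤ K →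
    ∀ m : ℕ, (((Icc 1 X).filter (fun p => p.Prime ∧ m ≤ (badSc X K p).card)).card : ℝ) ≤
      C * Real.exp (-c * m / K) * Nat.primeCounting X := by
  obtain ⟨c, C, hc, hC, X₀, hX₀⟩ := basic_estimates
  refine ⟨(2 * Real.sqrt C / c + 1) * Real.exp (1 / 200), 1 / 200, by positivity, by norm_num,
    X₀, ?_⟩
  intro X hX K hK m
  obtain ⟨hb2, hb4, hpi, -, hsq⟩ := hX₀ X hX
  set b := ⌈Real.log X⌉₊ with hb
  have hb0' : 0 < b := by omega
  have hb0 : (0 : ℝ) < b := by exact_mod_cast hb0'
  have hbX : b ≤ X := by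
    have : b ≤ b ^ 4 := Nat.le_self_pow (by norm_num) b
    omega
  have hX0 : (0 : ℝ) < X := by exact_mod_cast (by omega : 0 < X)
  have hK0 : (1 : ℝ) ≤ K := by exact_mod_cast hK
  have hπ0 : (0 : ℝ) ≤ Nat.primeCounting X := Nat.cast_nonneg _
  set P := (Icc 1 X).filter (fun p => p.Prime ∧ m ≤ (badSc X K p).card) with hP
  rcases Nat.lt_or_ge m K with hmK | hmK
  · -- trivial range
    have h1 : (P.card : ℝ) ≤ Nat.primeCounting X := by
      rw [← primes_range_card]
      have : P ⊆ (range (X + 1)).filter Nat.Prime := by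
        intro p hp
        rw [hP, mem_filter, mem_Icc] at hp
        rw [mem_filter, mem_range]
        exact ⟨by omega, hp.2.1⟩
      exact_mod_cast card_le_card this
    have h2 : 1 ≤ (2 * Real.sqrt C / c + 1) * Real.exp (1 / 200) *
        Real.exp (-(1 / 200) * m / K) := by
      rw [mul_assoc, ← Real.exp_add]
      have h3 : 0 ≤ 1 / 200 + -(1 / 200) * (m : ℝ) / K := by
        have h4 : (m : ℝ) / K ≤ 1 := by
          rw [div_le_one (by linarith)]
          exact_mod_cast hmK.le
        have h5 : -(1 / 200) * (m : ℝ) / K = -(1 / 200) * (m / K) := by ring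
        rw [h5]
        linarith
      have h4 : 1 ≤ Real.exp (1 / 200 + -(1 / 200) * (m : ℝ) / K) := Real.one_le_exp h3
      have h5 : 0 ≤ 2 * Real.sqrt C / c := by positivity
      nlinarith
    calc (P.card : ℝ) ≤ 1 * Nat.primeCounting X := by linarith
      _ ≤ _ := by gcongr
  · obtain ⟨m', rfl⟩ : ∃ m', m = m' + K := ⟨m - K, by omega⟩
    -- the top level
    set i := Nat.log 2 (X / b) + 1 with hi
    have hXb : 1 ≤ X / b := Nat.div_pos hbX hb0'
    have hi1 : X / b < 2 ^ i := Nat.lt_pow_succ_log_self (by norm_num) _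
    have hi2 : 2 ^ i * b ≤ 2 * X := by
      have h1 : 2 ^ Nat.log 2 (X / b) ≤ X / b := Nat.pow_log_le_self 2 (by omega)
      calc 2 ^ i * b = 2 * (2 ^ Nat.log 2 (X / b) * b) := by rw [hi, pow_succ]; ring
        _ ≤ 2 * (X / b * b) := by gcongr
        _ ≤ 2 * X := Nat.mul_le_mul_left 2 (Nat.div_mul_le_self X b)
    have hlev : ∀ j, 2 ^ j * b ≤ X → j < i := by
      intro j hj
      have h1 : 2 ^ j ≤ X / b := (Nat.le_div_iff_mul_le hb0').2 hj
      have h2 : 2 ^ j < 2 ^ i := lt_of_le_of_lt h1 hi1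
      exact (Nat.pow_lt_pow_iff_right (by norm_num)).1 h2
    set A : ℝ := 25 * K with hA
    have hA0 : 0 < A := by positivity
    have htail := tail_count (cellBad K b) A hA0 (fun i C => carleson K b hK hb0' i C) i m'
    set S := (range (2 ^ i)).filter (fun k => m' ≤ tailN (cellBad K b) i k) with hS
    -- the primes of `P` lie in the blocks of `S`
    have hPS : ∀ p ∈ P, p / b ∈ S := by
      intro p hp
      rw [hP, mem_filter, mem_Icc] at hp
      obtain ⟨⟨hp1, hp2⟩, hp3, hp4⟩ := hp
      rw [hS, mem_filter, mem_range]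
      refine ⟨lt_of_le_of_lt (Nat.div_le_div_right hp2) hi1, ?_⟩
      have h1 : badSc X K p ⊆
          ((range i).filter (fun j => cellBad K b j (p / b / 2 ^ j))) ∪
          ((range X).filter (fun j => 2 ^ j * b ≤ X ∧ ¬ K * (2 ^ j * b) ≤ X)) := by
        intro j hj
        unfold badSc at hj
        rw [mem_filter] at hj
        obtain ⟨hj1, hj2, hj3⟩ := hj
        rw [← hb] at hj2 hj3
        rw [mem_union, mem_filter, mem_filter]
        by_cases h : K * (2 ^ j * b) ≤ X
        · left
          exact ⟨mem_range.2 (hlev j hj2), cellBad_of_bad X K b j p hb2 h hj3⟩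
        · right
          exact ⟨hj1, hj2, h⟩
      have h2 := (card_le_card h1).trans (card_union_le _ _)
      have h3 := large_scales X K b hb0'
      have h4 : tailN (cellBad K b) i (p / b) =
          ((range i).filter (fun j => cellBad K b j (p / b / 2 ^ j))).card := rfl
      rw [h4]
      omega
    have hCS := primes_in_blocks b (2 ^ i) hb0' P S (fun p hp => by
      rw [hP, mem_filter] at hp
      exact hp.2.1) hPS (filter_subset _ _)
    have hsq' := hsq (2 ^ i) hi2
    set t : ℝ := 1 / (2 * A) with ht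
    have ht0 : 0 < t := by positivity
    have ht1 : t ≤ 1 := by
      rw [ht, div_le_one (by positivity), hA]
      nlinarith
    have hexp : Real.exp (m' / (100 * K)) ≤ (1 + t) ^ m' := by
      have h1 := one_add_ge_exp t ht0.le ht1
      calc Real.exp (m' / (100 * K)) = Real.exp (t / 2) ^ m' := by
            rw [← Real.exp_nat_mul]
            congr 1
            rw [ht, hA]
            have hKne : (K : ℝ) ≠ 0 := by positivity
            field_simp
            try ring
        _ ≤ (1 + t) ^ m' := pow_le_pow_left₀ (Real.exp_pos _).le h1 _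
    have h2i : (2 : ℝ) ^ i ≤ 2 * X / b := by
      rw [le_div_iff₀ hb0]
      exact_mod_cast hi2
    have hScard : (S.card : ℝ) ≤ 4 * (X / b) * Real.exp (-(m' / (100 * K))) := by
      have h1 : (S.card : ℝ) * Real.exp (m' / (100 * K)) ≤ 4 * (X / b) := by
        calc (S.card : ℝ) * Real.exp (m' / (100 * K)) ≤ (S.card : ℝ) * (1 + t) ^ m' := by
              gcongr
          _ ≤ 2 * 2 ^ i := htail
          _ ≤ 2 * (2 * X / b) := by gcongr
          _ = _ := by ring
      rw [Real.exp_neg, ← div_eq_mul_inv, le_div_iff₀ (Real.exp_pos _)]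
      exact h1
    have hP2 : (P.card : ℝ) ^ 2 ≤ (2 * Real.sqrt C * (X / b) * Real.exp (-(m' / (200 * K)))) ^ 2 := by
      calc (P.card : ℝ) ^ 2 ≤ S.card * ∑ k ∈ range (2 ^ i), ((Fb b k : ℕ) : ℝ) ^ 2 := hCS
        _ ≤ (4 * (X / b) * Real.exp (-(m' / (100 * K)))) * (C * X / b) := by gcongr
        _ = (2 * Real.sqrt C * (X / b) * Real.exp (-(m' / (200 * K)))) ^ 2 := by
            have h1 : Real.exp (-((m' : ℝ) / (100 * K))) = Real.exp (-(m' / (200 * K))) ^ 2 := by
              rw [← Real.exp_nat_mul]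
              congr 1
              push_cast
              have hKne : (K : ℝ) ≠ 0 := by positivity
              field_simp
              try ring
            rw [h1, mul_pow, mul_pow, mul_pow, Real.sq_sqrt hC.le]
            ring
    have hP3 : (P.card : ℝ) ≤ 2 * Real.sqrt C * (X / b) * Real.exp (-(m' / (200 * K))) :=
      abs_le_of_sq_le_sq' hP2 (by positivity) |>.2
    have hXπ : (X : ℝ) / b ≤ Nat.primeCounting X / c := by
      rw [le_div_iff₀ hc]
      calc (X : ℝ) / b * c = c * X / b := by ring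
        _ ≤ _ := hpi
    have hfin : Real.exp (-((m' : ℝ) / (200 * K))) =
        Real.exp (1 / 200) * Real.exp (-(1 / 200) * ((m' + K : ℕ) : ℝ) / K) := by
      rw [← Real.exp_add]
      congr 1
      push_cast
      field_simp
      ring
    calc (P.card : ℝ) ≤ 2 * Real.sqrt C * (X / b) * Real.exp (-(m' / (200 * K))) := hP3
      _ ≤ 2 * Real.sqrt C * (Nat.primeCounting X / c) * Real.exp (-(m' / (200 * K))) := by gcongr
      _ = (2 * Real.sqrt C / c) * Real.exp (1 / 200) *
          Real.exp (-(1 / 200) * ((m' + K : ℕ) : ℝ) / K) * Nat.primeCounting X := by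
          rw [hfin]
          ring
      _ ≤ _ := by
          gcongr
          linarith

end Pool.Agent.H.MP_711652_nt
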