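import Mathlib
import Pool.Agent.H.MP_711652_nt.TailC

set_option autoImplicit false

namespace Pool.Agent.H.MP_711652_nt

open Finset

lemma it1_geom (x : ℝ) (hx0 : 0 ≤ x) (hx1 : x ≤ 1) (M : ℕ) :
    ∑ m ∈ range M, (1 - x) * x ^ (m + 1) ≤ 1 := by
  have h : ∀ M : ℕ, ∑ m ∈ range M, (1 - x) * x ^ (m + 1) = x - x ^ (M + 1) := by
    intro M
    induction M with
    | zero => simp
    | succ M ih => rw [sum_range_succ, ih]; ring
  rw [h]
  have h1 : 0 ≤ x ^ (M + 1) := pow_nonneg hx0 _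
  linarith

/-- From an exponential tail to an exponential moment. -/
lemma it1_moment {ι : Type} (S : Finset ι) (N : ι → ℕ) (C c P : ℝ) (hC : 0 ≤ C)
    (hc : 0 ≤ c) (hP : 0 ≤ P) (hcard : (S.card : ℝ) ≤ P)
    (h : ∀ m : ℕ, ((S.filter (fun i => m ≤ N i)).card : ℝ) ≤ C * Real.exp (-(2 * c * m)) * P) :
    ∑ i ∈ S, Real.exp (c * N i) ≤ (1 + C) * P := by
  classical
  obtain ⟨M, hM⟩ : ∃ M : ℕ, ∀ i ∈ S, N i ≤ M :=
    ⟨S.sup N, fun i hi => le_sup (f := N) hi⟩
  have h1 : ∀ n : ℕ, Real.exp (c * n) =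
      1 + ∑ m ∈ range n, (Real.exp (c * ((m + 1 : ℕ) : ℝ)) - Real.exp (c * (m : ℝ))) := by
    intro n
    rw [sum_range_sub (fun m : ℕ => Real.exp (c * (m : ℝ)))]
    simp
  have h2 : ∀ i ∈ S, Real.exp (c * N i) =
      1 + ∑ m ∈ range M, if m + 1 ≤ N i then
        (Real.exp (c * ((m + 1 : ℕ) : ℝ)) - Real.exp (c * (m : ℝ))) else 0 := by
    intro i hi
    rw [h1, ← sum_filter]
    congr 1
    apply sum_congr _ (fun _ _ => rfl)
    ext m
    rw [mem_filter, mem_range, mem_range]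
    have := hM i hi
    omega
  rw [sum_congr rfl h2, sum_add_distrib, sum_const, nsmul_eq_mul, mul_one, sum_comm]
  have h3 : ∀ m ∈ range M, ∑ i ∈ S, (if m + 1 ≤ N i then
        (Real.exp (c * ((m + 1 : ℕ) : ℝ)) - Real.exp (c * (m : ℝ))) else 0) ≤
      C * P * ((1 - Real.exp (-c)) * Real.exp (-c) ^ (m + 1)) := by
    intro m _
    rw [← sum_filter, sum_const, nsmul_eq_mul]
    have h4 : 0 ≤ Real.exp (c * ((m + 1 : ℕ) : ℝ)) - Real.exp (c * (m : ℝ)) := by
      apply sub_nonneg.2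
      apply Real.exp_le_exp.2
      apply mul_le_mul_of_nonneg_left _ hc
      push_cast
      linarith
    refine (mul_le_mul_of_nonneg_right (h (m + 1)) h4).trans (le_of_eq ?_)
    have e1 : Real.exp (c * (m : ℝ)) = Real.exp (c * ((m + 1 : ℕ) : ℝ)) * Real.exp (-c) := by
      rw [← Real.exp_add]
      congr 1
      push_cast
      ring
    have e2 : Real.exp (-(2 * c * ((m + 1 : ℕ) : ℝ))) * Real.exp (c * ((m + 1 : ℕ) : ℝ)) =
        Real.exp (-c) ^ (m + 1) := by
      rw [← Real.exp_add, ← Real.exp_nat_mul]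
      congr 1
      push_cast
      ring
    calc C * Real.exp (-(2 * c * ((m + 1 : ℕ) : ℝ))) * P *
          (Real.exp (c * ((m + 1 : ℕ) : ℝ)) - Real.exp (c * (m : ℝ)))
        = C * P * ((1 - Real.exp (-c)) *
          (Real.exp (-(2 * c * ((m + 1 : ℕ) : ℝ))) * Real.exp (c * ((m + 1 : ℕ) : ℝ)))) := by
          rw [e1]; ring
      _ = _ := by rw [e2]
  refine (add_le_add hcard (sum_le_sum h3)).trans ?_
  rw [← mul_sum]
  have h5 := it1_geom (Real.exp (-c)) (Real.exp_pos _).le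
    (Real.exp_le_one_iff.2 (by linarith)) M
  have h6 : 0 ≤ C * P := mul_nonneg hC hP
  have h7 := mul_le_mul_of_nonneg_left h5 h6
  linarith

/-- A form of Jensen's inequality. -/
lemma it1_jensen (n : ℕ) (w x : ℕ → ℝ) (hw : ∀ r, 0 ≤ w r) (hx : ∀ r, 0 ≤ x r)
    (h1 : ∑ r ∈ range n, w r ≤ 1) :
    Real.exp (∑ r ∈ range n, w r * x r) ≤ 1 + ∑ r ∈ range n, w r * Real.exp (x r) := by
  set s := ∑ r ∈ range n, w r * x r with hs
  set W := ∑ r ∈ range n, w r with hW
  have hW0 : 0 ≤ W := sum_nonneg fun r _ => hw r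
  have hs0 : 0 ≤ s := sum_nonneg fun r _ => mul_nonneg (hw r) (hx r)
  have h2 : ∀ r ∈ range n, w r * (Real.exp s * (1 + x r - s)) ≤ w r * Real.exp (x r) := by
    intro r _
    apply mul_le_mul_of_nonneg_left _ (hw r)
    have h3 := Real.add_one_le_exp (x r - s)
    have h4 : Real.exp (x r) = Real.exp s * Real.exp (x r - s) := by
      rw [← Real.exp_add]
      congr 1
      ring
    rw [h4]
    apply mul_le_mul_of_nonneg_left _ (Real.exp_pos _).le
    linarith
  have h3 := sum_le_sum h2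
  have h4 : ∑ r ∈ range n, w r * (Real.exp s * (1 + x r - s)) =
      Real.exp s * (W + s * (1 - W)) := by
    have h5 : ∀ r ∈ range n, w r * (Real.exp s * (1 + x r - s)) =
        Real.exp s * (1 - s) * w r + Real.exp s * (w r * x r) := fun r _ => by ring
    rw [sum_congr rfl h5, sum_add_distrib, ← mul_sum, ← mul_sum, ← hs, ← hW]
    ring
  rw [h4] at h3
  have h5 : Real.exp s * (1 - s) ≤ 1 := by
    have h6 := Real.add_one_le_exp (-s)
    have h7 : Real.exp s * Real.exp (-s) = 1 := by rw [← Real.exp_add]; simp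
    have h8 := mul_le_mul_of_nonneg_left h6 (Real.exp_pos s).le
    rw [h7] at h8
    linarith
  have h6 : Real.exp s * (1 - s) * (1 - W) ≤ 1 := by
    have h7 : 0 ≤ 1 - W := by linarith
    have h8 := mul_le_mul_of_nonneg_right h5 h7
    linarith
  nlinarith [h3, h6]

/-- The length of the longest prime-free interval `(y, y + g]` with `g ≤ 2 ^ j`,
`|y - p| ≤ 2 ^ j`. -/
noncomputable def mxGap (j p : ℕ) : ℕ :=
  sSup {g : ℕ | g ≤ 2 ^ j ∧ ∃ y : ℕ, |(y : ℝ) - p| ≤ 2 ^ j ∧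
    ∀ q : ℕ, y < q → q ≤ y + g → ¬ q.Prime}

lemma mxGap_mem (j p : ℕ) : mxGap j p ≤ 2 ^ j ∧ ∃ y : ℕ, |(y : ℝ) - p| ≤ 2 ^ j ∧
    ∀ q : ℕ, y < q → q ≤ y + mxGap j p → ¬ q.Prime := by
  have h := Nat.sSup_mem (s := {g : ℕ | g ≤ 2 ^ j ∧ ∃ y : ℕ, |(y : ℝ) - p| ≤ 2 ^ j ∧
    ∀ q : ℕ, y < q → q ≤ y + g → ¬ q.Prime})
    ⟨0, Nat.zero_le _, p, by simp, fun q h1 h2 => by omega⟩ ⟨2 ^ j, fun g hg => hg.1⟩
  exact h

/-- number of bad scales at window `K` -/
noncomputable def nBad (X K p : ℕ) : ℕ := (badSc X K p).card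

open Classical in
/-- The scales with a gap of relative size `> 2 ^ (- r - 1)`. -/
lemma it1_count (X p r : ℕ) (hX : 3 ≤ X) (hp : p.Prime) (hpX : p ≤ X) :
    ((range X).filter (fun j => (Real.log X ≤ 2 ^ j ∧ 2 ^ j ≤ X) ∧
      2 ^ j < 2 ^ (r + 1) * mxGap j p)).card ≤ nBad X (2 ^ (r + 2)) p + (r + 1) := by
  set b := ⌈Real.log X⌉₊ with hb
  have hlog : 0 < Real.log X := Real.log_pos (by exact_mod_cast (by omega : 1 < X))
  have hb0 : 0 < b := Nat.ceil_pos.2 hlog
  set J := (range X).filter (fun j => (Real.log X ≤ 2 ^ j ∧ 2 ^ j ≤ X) ∧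
      2 ^ j < 2 ^ (r + 1) * mxGap j p) with hJ
  have hsplit := card_filter_add_card_filter_not (s := J) (fun j => 2 ^ (r + 1) * b ≤ 2 ^ j)
  have hA : (J.filter (fun j => 2 ^ (r + 1) * b ≤ 2 ^ j)).card ≤ nBad X (2 ^ (r + 2)) p := by
    unfold nBad badSc
    rw [← hb]
    apply card_le_card_of_injOn (fun j => Nat.log 2 (2 ^ j / (2 ^ (r + 1) * b)))
    · intro j hj
      rw [mem_coe, mem_filter, hJ, mem_filter, mem_range] at hj
      obtain ⟨⟨hjX, ⟨-, h2X⟩, hg⟩, hbj⟩ := hj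
      have hd : 1 ≤ 2 ^ j / (2 ^ (r + 1) * b) := by
        rw [Nat.le_div_iff_mul_le (by positivity), one_mul]
        exact hbj
      obtain ⟨i, hi⟩ : ∃ i, i = Nat.log 2 (2 ^ j / (2 ^ (r + 1) * b)) := ⟨_, rfl⟩
      have h1 : 2 ^ i * (2 ^ (r + 1) * b) ≤ 2 ^ j := by
        have h3 : 2 ^ i ≤ 2 ^ j / (2 ^ (r + 1) * b) := by
          rw [hi]
          exact Nat.pow_log_le_self 2 (by omega)
        exact (Nat.le_div_iff_mul_le (by positivity)).1 h3
      have h2 : 2 ^ j < 2 ^ (i + 1) * (2 ^ (r + 1) * b) := by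
        have h3 : 2 ^ j / (2 ^ (r + 1) * b) < 2 ^ (i + 1) := by
          rw [hi]
          exact Nat.lt_pow_succ_log_self (by norm_num) _
        exact (Nat.div_lt_iff_lt_mul (by positivity)).1 h3
      have h3 : 2 ^ i * b ≤ 2 ^ j := by
        refine le_trans ?_ h1
        have : b ≤ 2 ^ (r + 1) * b := Nat.le_mul_of_pos_left _ (by positivity)
        exact Nat.mul_le_mul_left _ this
      have h2X' : 2 ^ j ≤ X := by exact_mod_cast h2X
      show Nat.log 2 (2 ^ j / (2 ^ (r + 1) * b)) ∈ _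
      rw [← hi, mem_coe, mem_filter, mem_range]
      refine ⟨?_, h3.trans h2X', ?_⟩
      · have h4 : i < 2 ^ i := Nat.lt_two_pow_self
        have h5 : 2 ^ i ≤ 2 ^ i * b := Nat.le_mul_of_pos_right _ hb0
        omega
      · obtain ⟨-, y, hy1, hy2⟩ := mxGap_mem j p
        have hfree : PrimeFree y (2 ^ i * b) := by
          intro q h4 h5
          apply hy2 q h4
          have h6 : 2 ^ (r + 1) * (2 ^ i * b) < 2 ^ (r + 1) * mxGap j p := by
            calc 2 ^ (r + 1) * (2 ^ i * b) = 2 ^ i * (2 ^ (r + 1) * b) := by ring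
              _ ≤ 2 ^ j := h1
              _ < _ := hg
          have h7 : 2 ^ i * b < mxGap j p := lt_of_mul_lt_mul_left h6 (Nat.zero_le _)
          omega
        have hK : 2 ^ j ≤ 2 ^ (r + 2) * (2 ^ i * b) := by
          refine h2.le.trans (le_of_eq ?_)
          ring
        unfold badPrimes
        rw [mem_filter, mem_Icc]
        rw [abs_le] at hy1
        refine ⟨⟨hp.pos, hpX⟩, hp, y, ?_, ?_, hfree⟩
        · have h4 : (p : ℝ) ≤ y + ((2 ^ j : ℕ) : ℝ) := by push_cast; linarith [hy1.1]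
          have h5 : p ≤ y + 2 ^ j := by exact_mod_cast h4
          omega
        · have h4 : (y : ℝ) ≤ p + ((2 ^ j : ℕ) : ℝ) := by push_cast; linarith [hy1.2]
          have h5 : y ≤ p + 2 ^ j := by exact_mod_cast h4
          omega
    · have key : ∀ j, 2 ^ (r + 1) * b ≤ 2 ^ j →
          2 ^ Nat.log 2 (2 ^ j / (2 ^ (r + 1) * b)) * (2 ^ (r + 1) * b) ≤ 2 ^ j ∧
          2 ^ j < 2 * (2 ^ Nat.log 2 (2 ^ j / (2 ^ (r + 1) * b)) * (2 ^ (r + 1) * b)) := by
        intro j hj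
        have hd : 1 ≤ 2 ^ j / (2 ^ (r + 1) * b) := by
          rw [Nat.le_div_iff_mul_le (by positivity), one_mul]
          exact hj
        constructor
        · exact (Nat.le_div_iff_mul_le (by positivity)).1 (Nat.pow_log_le_self 2 (by omega))
        · have h3 : 2 ^ j / (2 ^ (r + 1) * b) < 2 ^ (Nat.log 2 (2 ^ j / (2 ^ (r + 1) * b)) + 1) :=
            Nat.lt_pow_succ_log_self (by norm_num) _
          have h4 := (Nat.div_lt_iff_lt_mul (by positivity)).1 h3
          rw [pow_succ] at h4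
          linarith
      intro j1 hj1 j2 hj2 h12
      rw [mem_coe, mem_filter] at hj1 hj2
      simp only at h12
      obtain ⟨a1, a2⟩ := key j1 hj1.2
      obtain ⟨b1, b2⟩ := key j2 hj2.2
      rw [← h12] at b1 b2
      by_contra hne
      rcases Nat.lt_or_gt_of_ne hne with h | h
      · have h3 : 2 ^ (j1 + 1) ≤ 2 ^ j2 := Nat.pow_le_pow_right (by norm_num) h
        rw [pow_succ] at h3
        omega
      · have h3 : 2 ^ (j2 + 1) ≤ 2 ^ j1 := Nat.pow_le_pow_right (by norm_num) h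
        rw [pow_succ] at h3
        omega
  have hB : (J.filter (fun j => ¬ 2 ^ (r + 1) * b ≤ 2 ^ j)).card ≤ r + 1 := by
    rcases (J.filter (fun j => ¬ 2 ^ (r + 1) * b ≤ 2 ^ j)).eq_empty_or_nonempty with h0 | h0
    · rw [h0]; simp
    · obtain ⟨j0, hj0, hmin⟩ := exists_min_image _ id h0
      have hsub : J.filter (fun j => ¬ 2 ^ (r + 1) * b ≤ 2 ^ j) ⊆ Ico j0 (j0 + (r + 1)) := by
        intro j hj
        have hle : j0 ≤ j := hmin j hj
        rw [mem_filter, hJ, mem_filter] at hj hj0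
        rw [mem_Ico]
        refine ⟨hle, ?_⟩
        have h1 : b ≤ 2 ^ j0 := by
          rw [hb]
          apply Nat.ceil_le.2
          push_cast
          exact hj0.1.2.1.1
        by_contra h2
        rw [not_lt] at h2
        apply hj.2
        calc 2 ^ (r + 1) * b ≤ 2 ^ (r + 1) * 2 ^ j0 := Nat.mul_le_mul_left _ h1
          _ = 2 ^ (j0 + (r + 1)) := by rw [← pow_add]; congr 1; omega
          _ ≤ 2 ^ j := Nat.pow_le_pow_right (by norm_num) h2
      calc _ ≤ (Ico j0 (j0 + (r + 1))).card := card_le_card hsub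
        _ = r + 1 := by simp
  omega

end Pool.Agent.H.MP_711652_nt
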