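import Mathlib
import Pool.Agent.H.MP_711652_nt.IT1

set_option autoImplicit false

namespace Pool.Agent.H.MP_711652_nt

open Finset

/-- The weights. -/
lemma it2_zero (φ : ℝ → ℝ) (hφ : Monotone φ) (h0 : 0 ≤ φ 0)
    (h : ∀ n : ℕ, ∑ r ∈ range n, (2 : ℝ) ^ r * φ ((1 / 2) ^ r) ≤ 1) : φ 0 = 0 := by
  apply le_antisymm _ h0
  by_contra hc
  rw [not_le] at hc
  obtain ⟨n, hn⟩ := exists_nat_gt (1 / φ 0)
  have h1 : (n : ℝ) * φ 0 ≤ 1 := by
    refine le_trans ?_ (h n)
    calc (n : ℝ) * φ 0 = ∑ r ∈ range n, φ 0 := by rw [sum_const, card_range, nsmul_eq_mul]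
      _ ≤ _ := by
        apply sum_le_sum
        intro r _
        have h2 : φ 0 ≤ φ ((1 / 2) ^ r) := hφ (by positivity)
        have h3 : (1 : ℝ) ≤ 2 ^ r := one_le_pow₀ (by norm_num)
        nlinarith
  rw [div_lt_iff₀ hc] at hn
  linarith

/-- Pointwise bound of one summand. -/
lemma it2_point (φ : ℝ → ℝ) (hφ : Monotone φ) (h0 : φ 0 = 0) (j g n : ℕ) (hg : g ≤ 2 ^ j)
    (hj : j < n) : φ ((g : ℝ) / 2 ^ j) ≤
      ∑ r ∈ range n, φ ((1 / 2) ^ r) * (if 2 ^ j < 2 ^ (r + 1) * g then 1 else 0) := by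
  have hpos : ∀ r : ℕ, 0 ≤ φ ((1 / 2) ^ r) := fun r => by
    rw [← h0]
    exact hφ (by positivity)
  have hterm : ∀ r ∈ range n, 0 ≤ φ ((1 / 2) ^ r) *
      (if 2 ^ j < 2 ^ (r + 1) * g then (1 : ℝ) else 0) := by
    intro r _
    apply mul_nonneg (hpos r)
    split_ifs <;> norm_num
  rcases Nat.eq_zero_or_pos g with h | h
  · subst h
    rw [Nat.cast_zero, zero_div, h0]
    exact sum_nonneg hterm
  · obtain ⟨i, hi⟩ : ∃ i, i = Nat.clog 2 g := ⟨_, rfl⟩
    have hgi : g ≤ 2 ^ i := by rw [hi]; exact Nat.le_pow_clog (by norm_num) _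
    have hij : i ≤ j := by
      rw [hi]
      exact (Nat.clog_le_iff_le_pow (by norm_num)).2 hg
    have hlow : 2 ^ i < 2 * g := by
      rcases Nat.eq_zero_or_pos i with h1 | h1
      · rw [h1]; omega
      · have h2 : 2 ^ (i - 1) < g := by
          by_contra hc
          rw [not_lt] at hc
          have h3 := (Nat.clog_le_iff_le_pow (b := 2) (by norm_num)).2 hc
          omega
        have h3 : 2 ^ i = 2 * 2 ^ (i - 1) := by rw [← pow_succ']; congr 1; omega
        omega
    have hr : j - i ∈ range n := mem_range.2 (by omega)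
    refine le_trans ?_ (single_le_sum hterm hr)
    have h5 : 2 ^ j = 2 ^ (j - i) * 2 ^ i := by rw [← pow_add]; congr 1; omega
    have h6 : 2 ^ j < 2 ^ (j - i + 1) * g := by
      rw [h5, pow_succ, mul_assoc]
      exact Nat.mul_lt_mul_of_pos_left hlow (by positivity)
    rw [if_pos h6, mul_one]
    apply hφ
    rw [div_le_iff₀ (by positivity)]
    have h7 : (2 : ℝ) ^ j = 2 ^ (j - i) * 2 ^ i := by exact_mod_cast h5
    rw [h7, ← mul_assoc, ← mul_pow]
    norm_num
    exact_mod_cast hgi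

open Classical in
/-- **Integral test for the gaps around a prime, over all scales.** -/
theorem integral_test : ∃ C c : ℝ, 0 < C ∧ 0 < c ∧ ∃ X₀ : ℕ, ∀ X : ℕ, X₀ ≤ X →
    ∀ φ : ℝ → ℝ, Monotone φ → 0 ≤ φ 0 →
    (∀ n : ℕ, ∑ r ∈ range n, (2 : ℝ) ^ r * φ ((1 / 2) ^ r) ≤ 1) →
    ∑ p ∈ (Icc 1 X).filter Nat.Prime, Real.exp (c *
      ∑ j ∈ (range X).filter (fun j => Real.log X ≤ 2 ^ j ∧ 2 ^ j ≤ X),
        φ ((mxGap j p : ℝ) / 2 ^ j)) ≤ C * Nat.primeCounting X := by
  obtain ⟨C, c, hC0, hc0, X₀, hX₀⟩ := exp_tail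
  refine ⟨Real.exp c * (2 + C), c / 8, by positivity, by positivity, max X₀ 3, ?_⟩
  intro X hX φ hφ h00 hsum
  have hX1 : X₀ ≤ X := le_trans (le_max_left _ _) hX
  have hX3 : 3 ≤ X := le_trans (le_max_right _ _) hX
  have h0 := it2_zero φ hφ h00 hsum
  have hpos : ∀ r : ℕ, 0 ≤ φ ((1 / 2) ^ r) := fun r => by
    rw [← h0]
    exact hφ (by positivity)
  set P := (Icc 1 X).filter Nat.Prime with hP
  have hPcard : (P.card : ℝ) ≤ Nat.primeCounting X := by
    rw [← primes_range_card, Nat.cast_le]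
    apply card_le_card
    intro p hp
    rw [hP, mem_filter, mem_Icc] at hp
    rw [mem_filter, mem_range]
    exact ⟨by omega, hp.2⟩
  set J := (range X).filter (fun j => Real.log X ≤ 2 ^ j ∧ 2 ^ j ≤ X) with hJ
  set w : ℕ → ℝ := fun r => (2 : ℝ) ^ r * φ ((1 / 2) ^ r) with hw
  have hw0 : ∀ r, 0 ≤ w r := fun r => mul_nonneg (by positivity) (hpos r)
  have hw1 : ∑ r ∈ range X, w r ≤ 1 := hsum X
  -- exponential moments for one window
  have hmom : ∀ r : ℕ, ∑ p ∈ P, Real.exp (c / (2 * 2 ^ (r + 2)) * nBad X (2 ^ (r + 2)) p) ≤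
      (1 + C) * Nat.primeCounting X := by
    intro r
    have hK : (0 : ℝ) < 2 ^ (r + 2) := by positivity
    apply it1_moment P (fun p => nBad X (2 ^ (r + 2)) p) C _ _ hC0.le (by positivity)
      (Nat.cast_nonneg _) hPcard
    intro m
    have h1 := hX₀ X hX1 (2 ^ (r + 2)) Nat.one_le_two_pow m
    have h2 : P.filter (fun p => m ≤ nBad X (2 ^ (r + 2)) p) =
        (Icc 1 X).filter (fun p => p.Prime ∧ m ≤ (badSc X (2 ^ (r + 2)) p).card) := by
      rw [hP, filter_filter]
      rfl
    rw [h2]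
    refine h1.trans (le_of_eq ?_)
    congr 3
    push_cast
    field_simp
  -- pointwise bound
  have hpt : ∀ p ∈ P, ∑ j ∈ J, φ ((mxGap j p : ℝ) / 2 ^ j) ≤
      4 * ∑ r ∈ range X, w r * (nBad X (2 ^ (r + 2)) p / 2 ^ (r + 2)) + 1 := by
    intro p hp
    rw [hP, mem_filter, mem_Icc] at hp
    calc ∑ j ∈ J, φ ((mxGap j p : ℝ) / 2 ^ j)
        ≤ ∑ j ∈ J, ∑ r ∈ range X, φ ((1 / 2) ^ r) *
          (if 2 ^ j < 2 ^ (r + 1) * mxGap j p then (1 : ℝ) else 0) := by
          apply sum_le_sum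
          intro j hj
          rw [hJ, mem_filter, mem_range] at hj
          exact it2_point φ hφ h0 j _ X (mxGap_mem j p).1 hj.1
      _ = ∑ r ∈ range X, φ ((1 / 2) ^ r) *
          ((J.filter (fun j => 2 ^ j < 2 ^ (r + 1) * mxGap j p)).card : ℝ) := by
          rw [sum_comm]
          apply sum_congr rfl
          intro r _
          rw [← mul_sum, sum_boole]
      _ ≤ ∑ r ∈ range X, φ ((1 / 2) ^ r) * ((nBad X (2 ^ (r + 2)) p : ℝ) + (r + 1)) := by
          apply sum_le_sum
          intro r _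
          apply mul_le_mul_of_nonneg_left _ (hpos r)
          have h1 := it1_count X p r hX3 hp.2 hp.1.2
          rw [hJ, filter_filter]
          exact_mod_cast h1
      _ ≤ ∑ r ∈ range X, (4 * (w r * (nBad X (2 ^ (r + 2)) p / 2 ^ (r + 2))) + w r) := by
          apply sum_le_sum
          intro r _
          have h1 : ((r : ℝ) + 1) ≤ 2 ^ r := by
            have h2 : r + 1 ≤ 2 ^ r := Nat.lt_two_pow_self
            exact_mod_cast h2
          have h2 := mul_le_mul_of_nonneg_left h1 (hpos r)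
          have h3 : 4 * (w r * ((nBad X (2 ^ (r + 2)) p : ℝ) / 2 ^ (r + 2))) =
              φ ((1 / 2) ^ r) * (nBad X (2 ^ (r + 2)) p : ℝ) := by
            rw [hw]
            simp only
            generalize (nBad X (2 ^ (r + 2)) p : ℝ) = z
            rw [pow_add (2 : ℝ) r 2]
            field_simp
            norm_num
          rw [h3, mul_add]
          have h4 : w r = φ ((1 / 2) ^ r) * 2 ^ r := by rw [hw]; ring
          rw [h4]
          linarith
      _ ≤ 4 * ∑ r ∈ range X, w r * (nBad X (2 ^ (r + 2)) p / 2 ^ (r + 2)) + 1 := by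
          rw [sum_add_distrib, mul_sum]
          linarith
  calc ∑ p ∈ P, Real.exp (c / 8 * ∑ j ∈ J, φ ((mxGap j p : ℝ) / 2 ^ j))
      ≤ ∑ p ∈ P, Real.exp c * (1 + ∑ r ∈ range X, w r *
          Real.exp (c / (2 * 2 ^ (r + 2)) * nBad X (2 ^ (r + 2)) p)) := by
        apply sum_le_sum
        intro p hp
        have h1 := it1_jensen X w (fun r => c / (2 * 2 ^ (r + 2)) * nBad X (2 ^ (r + 2)) p)
          hw0 (fun r => by positivity) hw1
        refine le_trans ?_ (mul_le_mul_of_nonneg_left h1 (Real.exp_pos c).le)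
        rw [← Real.exp_add]
        apply Real.exp_le_exp.2
        have h2 := mul_le_mul_of_nonneg_left (hpt p hp)
          (show (0 : ℝ) ≤ c / 8 by positivity)
        refine h2.trans ?_
        have h3 : c / 8 * (4 * ∑ r ∈ range X, w r *
            ((nBad X (2 ^ (r + 2)) p : ℝ) / 2 ^ (r + 2)) + 1) =
            c / 8 + ∑ r ∈ range X, w r *
              (c / (2 * 2 ^ (r + 2)) * nBad X (2 ^ (r + 2)) p) := by
          rw [mul_add, mul_one, add_comm, mul_sum, mul_sum]
          congr 1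
          apply sum_congr rfl
          intro r _
          field_simp
          ring
        rw [h3]
        linarith
    _ = Real.exp c * (P.card + ∑ r ∈ range X, w r * ∑ p ∈ P,
          Real.exp (c / (2 * 2 ^ (r + 2)) * nBad X (2 ^ (r + 2)) p)) := by
        rw [← mul_sum, sum_add_distrib, sum_const, nsmul_eq_mul, mul_one, sum_comm]
        congr 2
        apply sum_congr rfl
        intro r _
        rw [mul_sum]
    _ ≤ Real.exp c * (Nat.primeCounting X + ∑ r ∈ range X, w r *
          ((1 + C) * Nat.primeCounting X)) := by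
        apply mul_le_mul_of_nonneg_left _ (Real.exp_pos c).le
        apply add_le_add hPcard
        apply sum_le_sum
        intro r _
        exact mul_le_mul_of_nonneg_left (hmom r) (hw0 r)
    _ ≤ Real.exp c * (2 + C) * Nat.primeCounting X := by
        rw [← sum_mul]
        have h1 : 0 ≤ (1 + C) * (Nat.primeCounting X : ℝ) := by positivity
        have h2 := mul_le_mul_of_nonneg_right hw1 h1
        have h3 : (Nat.primeCounting X : ℝ) + (∑ r ∈ range X, w r) *
            ((1 + C) * Nat.primeCounting X) ≤ (2 + C) * Nat.primeCounting X := by linarith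
        calc _ ≤ Real.exp c * ((2 + C) * Nat.primeCounting X) :=
              mul_le_mul_of_nonneg_left h3 (Real.exp_pos c).le
          _ = _ := by ring

end Pool.Agent.H.MP_711652_nt
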