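import Mathlib
import Pool.Agent.H.MP_711652_nt.TailA2
import Pool.Agent.H.MP_711652_nt.TailA3
import Pool.Agent.H.MP_711652_nt.TailB1

set_option autoImplicit false

namespace Pool.Agent.H.MP_711652_nt

open Finset

/-- PROOF. `Real.exp_bound'`-free proof: `exp (-(x / 2)) ≥ 1 - x / 2` so
`exp (x / 2) ≤ 1 / (1 - x / 2)` and `1 ≤ (1 + x) * (1 - x / 2)` for `0 ≤ x ≤ 1`. -/
lemma exp_half_le (x : ℝ) (hx : 0 ≤ x) (hx1 : x ≤ 1) : Real.exp (x / 2) ≤ 1 + x := by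
  have h1 : 1 - x / 2 ≤ Real.exp (-(x / 2)) := by
    have := Real.add_one_le_exp (-(x / 2))
    linarith only [this]
  have h2 : Real.exp (x / 2) * Real.exp (-(x / 2)) = 1 := by
    rw [← Real.exp_add, add_neg_cancel, Real.exp_zero]
  have h3 : 0 < Real.exp (x / 2) := Real.exp_pos _
  have h4 : Real.exp (x / 2) * (1 - x / 2) ≤ 1 := by
    exact (mul_le_mul_of_nonneg_left h1 h3.le).trans_eq h2
  have h5 : 1 ≤ (1 + x) * (1 - x / 2) := by nlinarith only [hx, hx1]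
  have h6 : 0 < 1 - x / 2 := by linarith only [hx1]
  exact le_of_mul_le_mul_right (h4.trans h5) h6

open Classical in
/-- **Abstract exponential tail.** PROOF. `x = 1 / (4 κ) ≤ 1`, `E n = ∑_{i < J} en (s i) (T i) f n`
(`≥ 0`, constant on `b`-blocks since `b ∣ s i ∣ T i`), `S = ∑ f`, `A = {n < M : m ≤ nb B J n}`.
(a) `first_moment` with `Φ = exp (E / 4)`, `Φ ^ 2 = exp (E / 2)`, `A = 1` and `sqrt_total`:
`∑ f exp (E / 4) ≤ C₁ S`. (b) `bad_super` with `R = M`, `W = 1`, `x κ = 1 / 4`: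
`(1 + x) ^ m * ∑_A f exp (-E / 4) ≤ ∑ f (1 + x) ^ nb exp (-E / 4) ≤ S`.
(c) Cauchy-Schwarz: `(∑_A f) ^ 2 ≤ (∑_A f exp (-E / 4)) (∑_A f exp (E / 4))`
(`f = (√f exp (-E / 8)) (√f exp (E / 8))`). So `(1 + x) ^ m (∑_A f) ^ 2 ≤ C₁ S ^ 2`, and
`(1 + x) ^ m ≥ exp (x / 2) ^ m = exp (m / (8 κ))` by `exp_half_le`; hence
`(∑_A f) ^ 2 ≤ C₁ exp (-(m / (8 κ))) S ^ 2 ≤ (C₁ exp (-(m / (16 κ))) S) ^ 2`. -/
theorem tail_abs (M b J : ℕ) (s T : ℕ → ℕ) (hM : 0 < M) (hb : 0 < b) (hbM : b ∣ M) (f : ℕ → ℝ)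
    (hf : ∀ k, 0 ≤ f k) (h1 : ∀ i, i < J → 0 < s i ∧ b ∣ s i ∧ s i ∣ T i)
    (h2 : ∀ i j, i < j → j < J → T i ∣ s j) (h3 : ∀ i, i < J → T i ∣ M)
    (B : ℕ → ℕ → Prop) (κ C₁ : ℝ) (hκ : 1 ≤ κ) (hC : 1 ≤ C₁)
    (hQ : M * ∑ n ∈ range M, (avg b f n) ^ 2 ≤ C₁ * (∑ n ∈ range M, f n) ^ 2)
    (hB1 : ∀ i, i < J → ∀ m n, m / s i = n / s i → (B i m ↔ B i n))
    (hB2 : ∀ i, i < J → ∀ n, avg (T i) (fun k => if B i k then f k else 0) n ≤
      κ * (en (s i) (T i) f n * avg (T i) f n)) (m : ℕ) :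
    ∑ n ∈ (range M).filter (fun n => m ≤ nb B J n), f n ≤
      C₁ * Real.exp (-(m / (16 * κ))) * ∑ n ∈ range M, f n := by
  have hκ0 : 0 < κ := by linarith only [hκ]
  set E : ℕ → ℝ := fun n => ∑ i ∈ range J, en (s i) (T i) f n with hE
  set S := ∑ n ∈ range M, f n with hS
  set A := (range M).filter (fun n => m ≤ nb B J n) with hA
  have hS0 : 0 ≤ S := sum_nonneg fun n _ => hf n
  have hSA0 : 0 ≤ ∑ n ∈ A, f n := sum_nonneg fun n _ => hf n
  -- (a)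
  have hEb : Blk b E := by
    intro p q hpq
    refine sum_congr rfl fun i hi => ?_
    rw [mem_range] at hi
    have hb1 : b ∣ T i := (h1 i hi).2.1.trans (h1 i hi).2.2
    exact blk_of_dvd hb1 (blk_en (s i) (T i) f) p q hpq
  have ha : ∑ n ∈ range M, f n * Real.exp (E n / 4) ≤ 1 * C₁ * S := by
    refine first_moment M b hb hbM f (fun n => Real.exp (E n / 4)) hf
      (fun k => (Real.exp_pos _).le) (fun p q hpq => by change Real.exp (E p / 4) = Real.exp (E q / 4); rw [hEb p q hpq]) 1 C₁ le_rfl hC ?_ hQ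
    rw [one_mul]
    have h := sqrt_total M b J s T hM hb f hf h1 h2 h3 hbM
    refine le_trans (le_of_eq (sum_congr rfl fun n _ => ?_)) h
    congr 1
    rw [← Real.exp_nat_mul]
    congr 1
    push_cast
    ring
  rw [one_mul] at ha
  -- (b)
  set x : ℝ := 1 / (4 * κ) with hx
  have hx0 : 0 ≤ x := by positivity
  have hx1 : x ≤ 1 := by
    rw [hx, div_le_one (by positivity)]
    linarith only [hκ]
  have hxκ : x * κ = 1 / 4 := by
    rw [hx]
    field_simp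
  have hb' : ∑ n ∈ range M, f n * ((1 + x) ^ (nb B J n) * Real.exp (-(E n / 4))) ≤ S := by
    have h := bad_super M s T hM f hf B x κ hx0 hκ0.le J M (fun i hi => ⟨(h1 i hi).1, (h1 i hi).2.2⟩)
      h2 h3 (dvd_refl M) hB1 hB2 (fun _ => 1) (fun _ => zero_le_one) (fun _ _ _ => rfl)
    simp only [mul_one] at h
    refine le_trans (le_of_eq (sum_congr rfl fun n _ => ?_)) h
    congr 3
    rw [hxκ]
    ring
  have hbA : (1 + x) ^ m * ∑ n ∈ A, f n * Real.exp (-(E n / 4)) ≤ S := by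
    refine le_trans ?_ hb'
    rw [mul_sum]
    refine le_trans (sum_le_sum fun n hn => ?_)
      (sum_le_sum_of_subset_of_nonneg (filter_subset (fun n => m ≤ nb B J n) (range M))
        (fun n _ _ => mul_nonneg (hf n) (by positivity)))
    rw [hA, mem_filter] at hn
    have h4 : (1 + x) ^ m ≤ (1 + x) ^ (nb B J n) :=
      pow_le_pow_right₀ (by linarith only [hx0]) hn.2
    have h5 : 0 ≤ f n * Real.exp (-(E n / 4)) := mul_nonneg (hf n) (Real.exp_pos _).le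
    calc (1 + x) ^ m * (f n * Real.exp (-(E n / 4))) ≤
        (1 + x) ^ (nb B J n) * (f n * Real.exp (-(E n / 4))) := mul_le_mul_of_nonneg_right h4 h5
      _ = _ := by ring
  -- (c)
  have hc : (∑ n ∈ A, f n) ^ 2 ≤ (∑ n ∈ A, f n * Real.exp (-(E n / 4))) *
      ∑ n ∈ A, f n * Real.exp (E n / 4) := by
    refine sum_sq_le_sum_mul_sum_of_sq_le_mul A
      (fun n _ => mul_nonneg (hf n) (Real.exp_pos _).le)
      (fun n _ => mul_nonneg (hf n) (Real.exp_pos _).le) fun n _ => ?_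
    have h6 : Real.exp (-(E n / 4)) * Real.exp (E n / 4) = 1 := by
      rw [← Real.exp_add, neg_add_cancel, Real.exp_zero]
    refine le_of_eq ?_
    calc f n ^ 2 = f n * f n * (Real.exp (-(E n / 4)) * Real.exp (E n / 4)) := by rw [h6]; ring
      _ = _ := by ring
  have haA : ∑ n ∈ A, f n * Real.exp (E n / 4) ≤ C₁ * S :=
    le_trans (sum_le_sum_of_subset_of_nonneg (filter_subset _ _)
      (fun n _ _ => mul_nonneg (hf n) (Real.exp_pos _).le)) ha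
  have hpos1 : 0 ≤ ∑ n ∈ A, f n * Real.exp (-(E n / 4)) :=
    sum_nonneg fun n _ => mul_nonneg (hf n) (Real.exp_pos _).le
  have hCS : 0 ≤ C₁ * S := mul_nonneg (by linarith only [hC]) hS0
  have hd : (1 + x) ^ m * (∑ n ∈ A, f n) ^ 2 ≤ S * (C₁ * S) := by
    have h7 : (0 : ℝ) ≤ (1 + x) ^ m := by positivity
    calc (1 + x) ^ m * (∑ n ∈ A, f n) ^ 2 ≤
        (1 + x) ^ m * ((∑ n ∈ A, f n * Real.exp (-(E n / 4))) *
          ∑ n ∈ A, f n * Real.exp (E n / 4)) := mul_le_mul_of_nonneg_left hc h7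
      _ = ((1 + x) ^ m * ∑ n ∈ A, f n * Real.exp (-(E n / 4))) *
          ∑ n ∈ A, f n * Real.exp (E n / 4) := by ring
      _ ≤ ((1 + x) ^ m * ∑ n ∈ A, f n * Real.exp (-(E n / 4))) * (C₁ * S) :=
          mul_le_mul_of_nonneg_left haA (mul_nonneg h7 hpos1)
      _ ≤ S * (C₁ * S) := mul_le_mul_of_nonneg_right hbA hCS
  have he : Real.exp (m / (8 * κ)) ≤ (1 + x) ^ m := by
    have h8 := pow_le_pow_left₀ (Real.exp_pos _).le (exp_half_le x hx0 hx1) m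
    rw [← Real.exp_nat_mul] at h8
    have h9 : (m : ℝ) * (x / 2) = m / (8 * κ) := by
      rw [hx]
      field_simp
      ring
    rwa [h9] at h8
  set Y := Real.exp (-(m / (16 * κ))) with hY
  have hY0 : 0 < Y := Real.exp_pos _
  have hYY : Y ^ 2 * Real.exp (m / (8 * κ)) = 1 := by
    rw [hY, ← Real.exp_nat_mul, ← Real.exp_add, Real.exp_eq_one_iff]
    push_cast
    field_simp
    ring
  have hf1 : (∑ n ∈ A, f n) ^ 2 ≤ (C₁ * Y * S) ^ 2 := by
    have h10 : Real.exp (m / (8 * κ)) * (∑ n ∈ A, f n) ^ 2 ≤ S * (C₁ * S) :=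
      (mul_le_mul_of_nonneg_right he (sq_nonneg _)).trans hd
    have h11 : (∑ n ∈ A, f n) ^ 2 = Y ^ 2 * (Real.exp (m / (8 * κ)) * (∑ n ∈ A, f n) ^ 2) := by
      rw [← mul_assoc, hYY, one_mul]
    rw [h11]
    have h12 : S * (C₁ * S) ≤ C₁ ^ 2 * S ^ 2 := by
      have h13 : C₁ * S ^ 2 ≤ C₁ ^ 2 * S ^ 2 := by
        refine mul_le_mul_of_nonneg_right ?_ (sq_nonneg S)
        nlinarith only [hC]
      calc S * (C₁ * S) = C₁ * S ^ 2 := by ring
        _ ≤ _ := h13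
    calc Y ^ 2 * (Real.exp (m / (8 * κ)) * (∑ n ∈ A, f n) ^ 2) ≤ Y ^ 2 * (C₁ ^ 2 * S ^ 2) :=
          mul_le_mul_of_nonneg_left (h10.trans h12) (sq_nonneg Y)
      _ = _ := by ring
  have hfin : 0 ≤ C₁ * Y * S := mul_nonneg (mul_nonneg (by linarith only [hC]) hY0.le) hS0
  exact (sq_le_sq₀ hSA0 hfin).1 hf1

end Pool.Agent.H.MP_711652_nt
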