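import Mathlib
import Pool.Agent.H.MP_711652_nt.TailA1
import Pool.Agent.H.MP_711652_nt.EntB5

set_option autoImplicit false

namespace Pool.Agent.H.MP_711652_nt

open Finset

lemma badB_blk (f : ℕ → ℝ) (ε : ℝ) (H R L T m n : ℕ) (h : m / L = n / L) :
    BadB f ε H R L T m ↔ BadB f ε H R L T n := by
  unfold BadB
  rw [h]

open Classical in
/-- Local lemma, saturated form. PROOF. This is what the proof of `block_atypical` (file `EntB4`)
shows: copy it. There `A` is the set of central bad points, and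
`A' = {k ∈ Q : ∃ n ∈ A, k / L = n / L}` satisfies `∑_{A'} f ≤ 20000 / ε ^ 3 * ∑_Q (...) ^ 2`
(its last calculation, without the first step). -/
lemma block_atypical_sat (f : ℕ → ℝ) (hf : ∀ k, 0 ≤ f k) (L T a H R : ℕ) (ε : ℝ) (hL : 0 < L)
    (hT : 0 < T) (hLT : L ∣ T) (hTa : T ∣ a)
    (hε : 0 < ε) (hε1 : ε ≤ 1) (h6 : 6 * (L : ℝ) ≤ ε * H) (hμ : 0 < avg T f a) :
    ∑ k ∈ (Ico a (a + T)).filter (fun k => ∃ n ∈ Ico a (a + T), k / L = n / L ∧
      a + (R + L) ≤ n ∧ n + (2 * R + L) < a + T ∧ ¬ GoodAt f ε (avg T f a) H R n), f k ≤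
      20000 / ε ^ 3 * ∑ n ∈ Ico a (a + T), (√(avg L f n) - √(avg T f a)) ^ 2 := by
  set μ := avg T f a with hμdef
  set A := (Ico a (a + T)).filter (fun n => a + (R + L) ≤ n ∧ n + (2 * R + L) < a + T ∧
      ¬ GoodAt f ε μ H R n) with hA
  set A' := (Ico a (a + T)).filter (fun k => ∃ n ∈ A, k / L = n / L) with hA'
  set G := ∑ n ∈ Ico a (a + T), (√(avg L f n) - √μ) ^ 2 with hG
  have hEq : (Ico a (a + T)).filter (fun k => ∃ n ∈ Ico a (a + T), k / L = n / L ∧
      a + (R + L) ≤ n ∧ n + (2 * R + L) < a + T ∧ ¬ GoodAt f ε μ H R n) = A' := by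
    rw [hA']
    apply filter_congr
    intro k _
    constructor
    · rintro ⟨n, h1, h2, h3⟩
      exact ⟨n, by rw [hA, mem_filter]; exact ⟨h1, h3⟩, h2⟩
    · rintro ⟨n, h1, h2⟩
      rw [hA, mem_filter] at h1
      exact ⟨n, h1.1, h2, h1.2⟩
  rw [hEq]
  obtain ⟨u, hu⟩ := hLT.trans hTa
  obtain ⟨v, hv⟩ := hLT
  have hA'r : A' ⊆ range ((u + v) * L) := by
    intro k hk
    rw [hA', mem_filter, mem_Ico] at hk
    rw [mem_range]
    have : (u + v) * L = a + T := by rw [hu, hv]; ring
    omega
  have hsum1 : ∑ n ∈ A', f n = ∑ n ∈ A', avg L f n := by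
    have h1 := sum_avg_mul (u + v) L hL f (fun k => if k ∈ A' then 1 else 0) (by
      intro q i hi
      have h2 : q * L + i ∈ A' ↔ q * L ∈ A' := by
        have h3 : (q * L + i) / L = q := div_block hi
        have h4 : (q * L) / L = q := Nat.mul_div_cancel _ hL
        have h5 : (q * L + i ∈ Ico a (a + T)) ↔ (q * L ∈ Ico a (a + T)) := by
          rw [mem_Ico, mem_Ico, hu, hv]
          constructor
          · rintro ⟨h6, h7⟩
            refine ⟨?_, by omega⟩
            have h8 : u < q + 1 := by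
              by_contra hc
              rw [not_lt] at hc
              have : (q + 1) * L ≤ u * L := Nat.mul_le_mul_right L hc
              rw [add_mul, one_mul] at this
              rw [mul_comm L u] at h6
              omega
            have : u * L ≤ q * L := Nat.mul_le_mul_right L (by omega)
            rw [mul_comm L u]
            exact this
          · rintro ⟨h6, h7⟩
            refine ⟨by omega, ?_⟩
            have h8 : q < u + v := by
              by_contra hc
              rw [not_lt] at hc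
              have : (u + v) * L ≤ q * L := Nat.mul_le_mul_right L hc
              rw [add_mul, mul_comm u, mul_comm v] at this
              omega
            have : (q + 1) * L ≤ (u + v) * L := Nat.mul_le_mul_right L (by omega)
            rw [add_mul, one_mul, add_mul, mul_comm u, mul_comm v] at this
            omega
        rw [hA', mem_filter, mem_filter, h5, h3, h4]
      simp only [h2])
    have h2 : ∀ F : ℕ → ℝ, ∑ k ∈ range ((u + v) * L), F k * (if k ∈ A' then (1 : ℝ) else 0) =
        ∑ k ∈ A', F k := by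
      intro F
      rw [← sum_filter_add_sum_filter_not (range ((u + v) * L)) (fun k => k ∈ A')]
      have h3 : (range ((u + v) * L)).filter (fun k => k ∈ A') = A' := by
        ext k
        rw [mem_filter]
        exact ⟨fun h => h.2, fun h => ⟨hA'r h, h⟩⟩
      rw [h3]
      have h4 : ∑ k ∈ (range ((u + v) * L)).filter (fun k => k ∉ A'),
          F k * (if k ∈ A' then (1 : ℝ) else 0) = 0 := by
        apply sum_eq_zero
        intro k hk
        rw [mem_filter] at hk
        rw [if_neg hk.2, mul_zero]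
      rw [h4, add_zero]
      apply sum_congr rfl
      intro k hk
      rw [if_pos hk, mul_one]
    rw [h2, h2] at h1
    exact h1.symm
  have hμ0 : 0 ≤ μ := hμ.le
  have hpt : ∀ k, avg L f k ≤ 2 * (√(avg L f k) - √μ) ^ 2 + 2 * μ := by
    intro k
    have e1 : avg L f k = √(avg L f k) ^ 2 := (Real.sq_sqrt (avg_nonneg L f hf k)).symm
    have e2 : μ = √μ ^ 2 := (Real.sq_sqrt hμ0).symm
    nlinarith [sq_nonneg (√(avg L f k) - 2 * √μ)]
  have hsum2 : ∑ n ∈ A', avg L f n ≤ 2 * G + 2 * (μ * A'.card) := by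
    calc ∑ n ∈ A', avg L f n ≤ ∑ n ∈ A', (2 * (√(avg L f n) - √μ) ^ 2 + 2 * μ) :=
          sum_le_sum fun k _ => hpt k
      _ = 2 * ∑ n ∈ A', (√(avg L f n) - √μ) ^ 2 + 2 * (μ * A'.card) := by
          rw [sum_add_distrib, ← mul_sum, sum_const, nsmul_eq_mul]; ring
      _ ≤ 2 * G + 2 * (μ * A'.card) := by
          have : ∑ n ∈ A', (√(avg L f n) - √μ) ^ 2 ≤ G :=
            sum_le_sum_of_subset_of_nonneg (filter_subset _ _) fun _ _ _ => sq_nonneg _
          linarith
  have hDr : Dev f L T a H R ε ⊆ range (a + T) := filter_subset _ _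
  have hA'sub : A' ⊆ (range (a + T)).filter (fun k => ∃ ρ : ℕ, ε / 2 * (2 * ρ + 1) <
      (((Dev f L T a H R ε).filter (fun j => k - ρ ≤ j ∧ j ≤ k + ρ)).card : ℝ)) := by
    intro k hk
    rw [hA', mem_filter, mem_Ico] at hk
    obtain ⟨hkQ, n, hn, hkn⟩ := hk
    rw [hA, mem_filter] at hn
    rw [mem_filter, mem_range]
    exact ⟨hkQ.2, bad_dense f hf L T a H R n k ε hL hε hε1 h6 hμ hn.2.1 hn.2.2.1 hn.2.2.2 hkn⟩
  have hd1 := dense_card (Dev f L T a H R ε) (a + T) hDr ε hε
  have hd2 : ε / 2 * (A'.card : ℝ) ≤ 4 * (Dev f L T a H R ε).card := by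
    refine le_trans (mul_le_mul_of_nonneg_left ?_ (by positivity)) hd1
    exact_mod_cast card_le_card hA'sub
  have hd3 := dev_card f L T a H R ε hL hε hμ
  rw [← hμdef, ← hG] at hd3
  have hd4 : μ * (A'.card : ℝ) ≤ 9600 / ε ^ 3 * G := by
    have h1 : (A'.card : ℝ) ≤ 8 / ε * (Dev f L T a H R ε).card := by
      have : (A'.card : ℝ) = 2 / ε * (ε / 2 * A'.card) := by field_simp
      rw [this]
      calc 2 / ε * (ε / 2 * (A'.card : ℝ)) ≤ 2 / ε * (4 * (Dev f L T a H R ε).card) :=
            mul_le_mul_of_nonneg_left hd2 (by positivity)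
        _ = 8 / ε * (Dev f L T a H R ε).card := by ring
    have h2 : μ * ((Dev f L T a H R ε).card : ℝ) ≤ 1200 / ε ^ 2 * G := by
      have : μ * ((Dev f L T a H R ε).card : ℝ) =
          300 / ε ^ 2 * (ε ^ 2 / 300 * μ * (Dev f L T a H R ε).card) := by field_simp
      rw [this]
      calc 300 / ε ^ 2 * (ε ^ 2 / 300 * μ * ((Dev f L T a H R ε).card : ℝ)) ≤
            300 / ε ^ 2 * (4 * G) := mul_le_mul_of_nonneg_left hd3 (by positivity)
        _ = 1200 / ε ^ 2 * G := by ring
    calc μ * (A'.card : ℝ) ≤ μ * (8 / ε * (Dev f L T a H R ε).card) :=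
          mul_le_mul_of_nonneg_left h1 hμ0
      _ = 8 / ε * (μ * (Dev f L T a H R ε).card) := by ring
      _ ≤ 8 / ε * (1200 / ε ^ 2 * G) := mul_le_mul_of_nonneg_left h2 (by positivity)
      _ = 9600 / ε ^ 3 * G := by field_simp; ring
  have hG0 : 0 ≤ G := sum_nonneg fun _ _ => sq_nonneg _
  have hε3 : 1 ≤ 1 / ε ^ 3 := by
    rw [le_div_iff₀ (by positivity), one_mul]
    exact pow_le_one₀ hε.le hε1
  calc ∑ n ∈ A', f n = ∑ n ∈ A', avg L f n := hsum1
    _ ≤ 2 * G + 2 * (μ * A'.card) := hsum2
    _ ≤ 2 * G + 2 * (9600 / ε ^ 3 * G) := by linarith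
    _ ≤ 20000 / ε ^ 3 * G := by
        have h1 : 9600 / ε ^ 3 = 9600 * (1 / ε ^ 3) := by ring
        have h2 : 20000 / ε ^ 3 = 20000 * (1 / ε ^ 3) := by ring
        rw [h1, h2]
        nlinarith

open Classical in
/-- PROOF. `a = n / T * T`, so the block of `n` is `Ico a (a + T)` and `avg T f` equals
`avg T f n = avg T f a` on it (`avg_block`, `blk_avg`). If `avg T f n = 0` then `f = 0` on the block
(`entB5_zero`) and both sides are `0`. Otherwise `en L T f n * avg T f n` is
`avg T ((√(avg L f) - √(avg T f)) ^ 2) n`, and for `k` in the block `BadB f ε H R L T k` means that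
there is a central bad point `n'` with `n' / L = k / L`, which then lies in the same `T`-block
(`L ∣ T`), `n' % T = n' - a`, `avg T f n' = avg T f a`. So the claim is `block_atypical_sat`
divided by `T`. -/
lemma bad_avg (f : ℕ → ℝ) (hf : ∀ k, 0 ≤ f k) (L T H R : ℕ) (ε : ℝ) (hL : 0 < L)
    (hT : 0 < T) (hLT : L ∣ T) (hε : 0 < ε) (hε1 : ε ≤ 1) (h6 : 6 * (L : ℝ) ≤ ε * H) (n : ℕ) :
    avg T (fun k => if BadB f ε H R L T k then f k else 0) n ≤
      20000 / ε ^ 3 * (en L T f n * avg T f n) := by
  set q := n / T with hq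
  have hnq : n = q * T + n % T := by
    rw [hq, Nat.mul_comm]; exact (Nat.div_add_mod n T).symm
  have hvn : avg T f n = avg T f (q * T) := by
    conv_lhs => rw [hnq]
    exact entB5_avg_const hT (Nat.mod_lt n hT) f
  have hT' : (0 : ℝ) < T := by exact_mod_cast hT
  by_cases h0 : avg T f (q * T) = 0
  · have hz := entB5_zero hT f hf h0
    have h1 : avg T (fun k => if BadB f ε H R L T k then f k else 0) n = 0 := by
      unfold avg
      rw [← hq, sum_eq_zero, zero_div]
      intro i hi
      simp only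
      rw [hz i hi, ite_self]
    rw [h1, hvn, h0, mul_zero, mul_zero]
  · have hpos : 0 < avg T f (q * T) := lt_of_le_of_ne (avg_nonneg T f hf _) (Ne.symm h0)
    have hmain := block_atypical_sat f hf L T (q * T) H R ε hL hT hLT (Dvd.intro_left q rfl) hε hε1
      h6 hpos
    have h1 : en L T f n * avg T f n =
        (∑ k ∈ Ico (q * T) (q * T + T), (√(avg L f k) - √(avg T f (q * T))) ^ 2) / T := by
      unfold en
      rw [div_mul_cancel₀ _ (by rw [hvn]; exact h0)]
      rw [sum_Ico_eq_sum_range, Nat.add_sub_cancel_left]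
      have h2 : avg T (fun k => (√(avg L f k) - √(avg T f k)) ^ 2) n =
          (∑ i ∈ range T, (√(avg L f (q * T + i)) - √(avg T f (q * T + i))) ^ 2) / T := rfl
      rw [h2]
      congr 1
      refine sum_congr rfl fun i hi => ?_
      rw [entB5_avg_const hT (mem_range.1 hi)]
    have h2 : avg T (fun k => if BadB f ε H R L T k then f k else 0) n =
        (∑ i ∈ range T, if BadB f ε H R L T (q * T + i) then f (q * T + i) else 0) / T := rfl
    rw [h1, h2, ← mul_div_assoc]
    refine div_le_div_of_nonneg_right (le_trans ?_ hmain) hT'.le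
    rw [sum_filter, sum_Ico_eq_sum_range, Nat.add_sub_cancel_left]
    refine sum_le_sum fun i hi => ?_
    have hi' := mem_range.1 hi
    by_cases hc : BadB f ε H R L T (q * T + i)
    · rw [if_pos hc, if_pos]
      obtain ⟨k, hk, hk1, hk2, hk3, hk4⟩ := hc
      obtain ⟨v, hv⟩ := hLT
      have hkT : k / T = q := by
        rw [hv, ← Nat.div_div_eq_div_mul, hk, Nat.div_div_eq_div_mul, ← hv, div_block hi']
      have hkq : k = q * T + k % T := by
        rw [← hkT, Nat.mul_comm]; exact (Nat.div_add_mod k T).symm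
      have hmod := Nat.mod_lt k hT
      have hvk : avg T f k = avg T f (q * T) := by
        conv_lhs => rw [hkq]
        exact entB5_avg_const hT hmod f
      rw [hvk] at hk4
      refine ⟨k, ?_, hk.symm, by omega, by omega, hk4⟩
      rw [mem_Ico]
      omega
    · rw [if_neg hc]
      split_ifs
      · exact hf _
      · exact le_rfl

end Pool.Agent.H.MP_711652_nt
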