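import Mathlib
import Pool.Agent.H.MP_711652_nt.MaxExpoA
import Pool.Agent.H.MP_711652_nt.DimC

set_option autoImplicit false

namespace Pool.Agent.H.MP_711652_nt

open Finset

open Classical in
/-- `p` is locally regular between `a` and `b`, uniformly in the length of the intervals. -/
def LRs (ε a b : ℝ) (p : ℕ) : Prop :=
  ∃ μ : ℝ, 0 < μ ∧ ∀ r : ℕ, a ≤ r → (r : ℝ) ≤ b →
    (((Icc (p - r) (p + r)).filter (fun y => ∃ h : ℕ, a ≤ h ∧ (h : ℝ) ≤ b ∧
      ε * (μ * h) < |(cnt y h : ℝ) - μ * h|)).card : ℝ) ≤ ε * (2 * r + 1)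

/-- The primes which are not locally regular at the exponent `α`. -/
def QS (ε γ α : ℝ) (p : ℕ) : Prop := p.Prime ∧ ¬ LRs ε
  ((Real.log p) ^ α * Real.exp (-(Real.log (Real.log p)) ^ γ))
  ((Real.log p) ^ α * Real.exp ((Real.log (Real.log p)) ^ γ)) p

/-- Finite sets of reals with mutual distances at least `δ`. -/
def Sep (δ : ℝ) (A : Finset ℝ) : Prop := ∀ α ∈ A, ∀ β ∈ A, α ≠ β → δ ≤ |α - β|

/-- Weighted sum over the levels `n` with `2 ^ i ≤ log n < 2 ^ (i + 1)`. -/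
noncomputable def bw (w : ℕ → ℝ → ℝ) (n₁ i : ℕ) (α : ℝ) : ℝ := ∑ n ∈ blk n₁ i, w n α / n

open Classical in
/-- Weight of the level `n`: (normalised) number of `p` in `(2 ^ (n - 1), 2 ^ n]` with `Q α p`. -/
noncomputable def wt (Q : ℝ → ℕ → Prop) (n : ℕ) (α : ℝ) : ℝ :=
  n * (((Ioc (2 ^ (n - 1)) (2 ^ n)).filter (Q α)).card : ℝ) / 2 ^ n

end Pool.Agent.H.MP_711652_nt
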