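import Mathlib
import Pool.Agent.H.MP_711652_nt.RateDefs

set_option autoImplicit false

namespace Pool.Agent.H.MP_711652_nt

open Finset

/-- Points of different cells of the same parity are at distance at least `δ`. -/
lemma cells_sep_aux {δ α β : ℝ} (hδ : 0 < δ) {m m' : ℤ} (hα : ⌊α / δ⌋ = m) (hβ : ⌊β / δ⌋ = m')
    (h : m + 2 ≤ m') : δ ≤ |α - β| := by
  have h1 : α < (m + 1) * δ := by
    have := Int.lt_floor_add_one (α / δ)
    rw [hα, div_lt_iff₀ hδ] at this
    exact this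
  have h2 : (m' : ℝ) * δ ≤ β := by
    have := Int.floor_le (β / δ)
    rw [hβ, le_div_iff₀ hδ] at this
    exact this
  have h3 : (m : ℝ) + 2 ≤ m' := by exact_mod_cast h
  have h4 : ((m : ℝ) + 2) * δ ≤ m' * δ := mul_le_mul_of_nonneg_right h3 hδ.le
  rw [abs_sub_comm]
  refine le_trans ?_ (le_abs_self _)
  linarith

/-- A set without large `δ`-separated subsets meets few grid cells. PROOF. Let
`C = {⌊α / δ⌋ : α ∈ Bad} ⊆ ℤ`. For every finite `F ⊆ C` split `F` into its even and its odd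
members, choose for each member `m` a point `α m ∈ Bad` with `⌊α m / δ⌋ = m`. For `m < m'` of the
same parity `m' ≥ m + 2`, so `α m' ≥ m' δ ≥ (m + 2) δ` and `α m < (m + 1) δ`: distance `≥ δ`. So
each part has at most `N` members (apply `h` to the image, `α` is injective) and `F.card ≤ 2 N`.
Hence `C` is finite and `G = C.toFinset` works. -/
lemma cells_of_sep (δ N : ℝ) (hδ : 0 < δ) (Bad : Set ℝ)
    (h : ∀ A : Finset ℝ, (∀ α ∈ A, α ∈ Bad) → Sep δ A → (A.card : ℝ) ≤ N) :
    ∃ G : Finset ℤ, (G.card : ℝ) ≤ 2 * N ∧ ∀ α ∈ Bad, ⌊α / δ⌋ ∈ G := by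
  classical
  set C : Set ℤ := {m | ∃ α ∈ Bad, ⌊α / δ⌋ = m} with hC
  have hch : ∀ m : ℤ, ∃ α : ℝ, m ∈ C → α ∈ Bad ∧ ⌊α / δ⌋ = m := by
    intro m
    by_cases hm : m ∈ C
    · obtain ⟨α, h1, h2⟩ := hm
      exact ⟨α, fun _ => ⟨h1, h2⟩⟩
    · exact ⟨0, fun hc => absurd hc hm⟩
  choose f hf using hch
  have hpart : ∀ P : Finset ℤ, (∀ m ∈ P, m ∈ C) →
      (∀ m ∈ P, ∀ m' ∈ P, m < m' → m + 2 ≤ m') → (P.card : ℝ) ≤ N := by
    intro P hPC hP2
    have hinj : Set.InjOn f (P : Set ℤ) := by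
      intro m hm m' hm' e
      rw [← (hf m (hPC m hm)).2, ← (hf m' (hPC m' hm')).2, e]
    rw [← card_image_of_injOn hinj]
    refine h _ ?_ ?_
    · intro α hα
      obtain ⟨m, hm, rfl⟩ := mem_image.1 hα
      exact (hf m (hPC m hm)).1
    · intro α hα β hβ hne
      obtain ⟨m, hm, rfl⟩ := mem_image.1 hα
      obtain ⟨m', hm', rfl⟩ := mem_image.1 hβ
      rcases lt_trichotomy m m' with h1 | h1 | h1
      · exact cells_sep_aux hδ (hf m (hPC m hm)).2 (hf m' (hPC m' hm')).2 (hP2 m hm m' hm' h1)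
      · exact absurd (by rw [h1]) hne
      · rw [abs_sub_comm]
        exact cells_sep_aux hδ (hf m' (hPC m' hm')).2 (hf m (hPC m hm)).2 (hP2 m' hm' m hm h1)
  have hfin : ∀ F : Finset ℤ, (∀ m ∈ F, m ∈ C) → (F.card : ℝ) ≤ 2 * N := by
    intro F hF
    have h1 : ((F.filter fun m => m % 2 = 0).card : ℝ) ≤ N := by
      refine hpart _ (fun m hm => hF m (mem_filter.1 hm).1) ?_
      intro m hm m' hm' hlt
      have := (mem_filter.1 hm).2
      have := (mem_filter.1 hm').2
      omega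
    have h2 : ((F.filter fun m => ¬ m % 2 = 0).card : ℝ) ≤ N := by
      refine hpart _ (fun m hm => hF m (mem_filter.1 hm).1) ?_
      intro m hm m' hm' hlt
      have := (mem_filter.1 hm).2
      have := (mem_filter.1 hm').2
      omega
    have h3 : F.card = (F.filter fun m => m % 2 = 0).card + (F.filter fun m => ¬ m % 2 = 0).card :=
      (card_filter_add_card_filter_not (s := F) (fun m => m % 2 = 0)).symm
    rw [h3]
    push_cast
    linarith
  have hCfin : C.Finite := by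
    by_contra hinf
    obtain ⟨F, hF, hcard⟩ := (show C.Infinite from hinf).exists_subset_card_eq (⌈2 * N⌉₊ + 1)
    have h1 := hfin F (fun m hm => hF hm)
    rw [hcard] at h1
    have h2 := Nat.le_ceil (2 * N)
    push_cast at h1
    linarith
  refine ⟨hCfin.toFinset, hfin _ fun m hm => hCfin.mem_toFinset.1 hm, fun α hα => ?_⟩
  rw [Set.Finite.mem_toFinset]
  exact ⟨α, hα, rfl⟩

end Pool.Agent.H.MP_711652_nt
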