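import Mathlib
import Pool.Agent.H.MP_711652_nt.RateA1
import Pool.Agent.H.MP_711652_nt.DimB

set_option autoImplicit false

namespace Pool.Agent.H.MP_711652_nt

open Finset MeasureTheory Filter Topology
open scoped ENNReal NNReal

/-- PROOF. Let `Bad = {α ∈ S : 2 ^ ((1 - β) i) < bw w n₁ i α}` and `A ⊆ Bad` finite and
`δ`-separated. `A.card * 2 ^ ((1 - β) i) ≤ ∑_{α ∈ A} bw w n₁ i α = ∑_{n ∈ blk n₁ i}
(∑_{α ∈ A} w n α) / n ≤ B * ∑_{n ∈ blk} 1 / n ≤ B * 3 * 2 ^ i` (`sum_blk_le`, `mem_blk`), so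
`A.card ≤ 3 B 2 ^ (β i)`. Apply `cells_of_sep`. -/
lemma block_cells (S : Set ℝ) (w : ℕ → ℝ → ℝ) (n₁ i : ℕ) (δ B β : ℝ) (hδ : 0 < δ)
    (hB : 0 ≤ B)
    (hpack : ∀ n : ℕ, n₁ ≤ n → (2 : ℝ) ^ i ≤ Real.log n → Real.log n < 2 ^ (i + 1) →
      ∀ A : Finset ℝ, (∀ α ∈ A, α ∈ S) → Sep δ A → ∑ α ∈ A, w n α ≤ B) :
    ∃ G : Finset ℤ, (G.card : ℝ) ≤ 6 * B * (2 : ℝ) ^ (β * i) ∧
      ∀ α ∈ S, (2 : ℝ) ^ ((1 - β) * i) < bw w n₁ i α → ⌊α / δ⌋ ∈ G := by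
  obtain ⟨G, hG1, hG2⟩ := cells_of_sep δ (3 * B * (2 : ℝ) ^ (β * i)) hδ
    {α : ℝ | α ∈ S ∧ (2 : ℝ) ^ ((1 - β) * i) < bw w n₁ i α} (by
    intro A hA hsep
    have hP : (0 : ℝ) < (2 : ℝ) ^ ((1 - β) * i) := Real.rpow_pos_of_pos (by norm_num) _
    have hPQ : (2 : ℝ) ^ ((1 - β) * i) * (2 : ℝ) ^ (β * i) = (2 : ℝ) ^ i := by
      rw [← Real.rpow_add (by norm_num), ← Real.rpow_natCast]
      congr 1
      ring
    have h1 : (A.card : ℝ) * (2 : ℝ) ^ ((1 - β) * i) ≤ ∑ α ∈ A, bw w n₁ i α := by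
      rw [← nsmul_eq_mul, ← sum_const]
      exact sum_le_sum fun α hα => (hA α hα).2.le
    have h2 : ∑ α ∈ A, bw w n₁ i α = ∑ n ∈ blk n₁ i, (∑ α ∈ A, w n α) / n := by
      unfold bw
      rw [sum_comm]
      exact sum_congr rfl fun n _ => (sum_div _ _ _).symm
    have h3 : ∑ n ∈ blk n₁ i, (∑ α ∈ A, w n α) / n ≤ ∑ n ∈ blk n₁ i, B * (1 / (n : ℝ)) := by
      apply sum_le_sum
      intro n hn
      rw [mem_blk] at hn
      have := hpack n hn.1 hn.2.1 hn.2.2 A (fun α hα => (hA α hα).1) hsep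
      rw [div_eq_mul_one_div]
      exact mul_le_mul_of_nonneg_right this (by positivity)
    rw [← mul_sum] at h3
    have h4 : B * ∑ n ∈ blk n₁ i, 1 / (n : ℝ) ≤ B * (3 * 2 ^ i) :=
      mul_le_mul_of_nonneg_left (sum_blk_le n₁ i) hB
    have h5 : (A.card : ℝ) * (2 : ℝ) ^ ((1 - β) * i) ≤
        (3 * B * (2 : ℝ) ^ (β * i)) * (2 : ℝ) ^ ((1 - β) * i) := by
      calc (A.card : ℝ) * (2 : ℝ) ^ ((1 - β) * i) ≤ B * (3 * 2 ^ i) := by linarith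
        _ = (3 * B * (2 : ℝ) ^ (β * i)) * (2 : ℝ) ^ ((1 - β) * i) := by rw [← hPQ]; ring
    exact le_of_mul_le_mul_right h5 hP)
  refine ⟨G, ?_, ?_⟩
  · calc (G.card : ℝ) ≤ 2 * (3 * B * (2 : ℝ) ^ (β * i)) := hG1
      _ = 6 * B * (2 : ℝ) ^ (β * i) := by ring
  · intro α hα hb
    exact hG2 α ⟨hα, hb⟩

/-- **Dimension bound with a rate.** PROOF. Take for every `i` the finite set of cells of
`block_cells` (with `δ i`, `B i`) and apply `limsup_cells` (file `DimB`); the required series is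
at most `∑ 6 B i 2 ^ (β i) (δ i) ^ s`, finite in `ℝ≥0∞` by `hsum`
(`ENNReal.ofReal_rpow_of_pos`, `ENNReal.ofReal_mul`, `Summable.tsum_ofReal_ne_top` or
`ENNReal.ofReal_tsum_of_nonneg`, compare the proof of `dim_generic`). -/
theorem rate_dim (S : Set ℝ) (w : ℕ → ℝ → ℝ) (n₁ : ℕ) (δ B : ℕ → ℝ)
    (hδ : ∀ i, 0 < δ i) (hanti : Antitone δ) (hδ0 : Tendsto δ atTop (𝓝 0)) (hB : ∀ i, 0 ≤ B i)
    (hpack : ∀ i n : ℕ, n₁ ≤ n → (2 : ℝ) ^ i ≤ Real.log n → Real.log n < 2 ^ (i + 1) →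
      ∀ A : Finset ℝ, (∀ α ∈ A, α ∈ S) → Sep (δ i) A → ∑ α ∈ A, w n α ≤ B i)
    (β : ℝ) (s : ℝ≥0) (hs : 0 < s)
    (hsum : Summable (fun i : ℕ => B i * (2 : ℝ) ^ (β * i) * (δ i) ^ (s : ℝ))) :
    dimH {α : ℝ | α ∈ S ∧ ∃ᶠ i : ℕ in atTop, (2 : ℝ) ^ ((1 - β) * i) < bw w n₁ i α} ≤ s := by
  choose G hG1 hG2 using fun i : ℕ => block_cells S w n₁ i (δ i) (B i) β (hδ i) (hB i) (hpack i)
  apply limsup_cells δ hδ hanti hδ0 G s hs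
  · have hle : ∀ i, ((G i).card : ℝ≥0∞) * ENNReal.ofReal (δ i) ^ (s : ℝ) ≤
        ENNReal.ofReal (6 * (B i * (2 : ℝ) ^ (β * i) * (δ i) ^ (s : ℝ))) := by
      intro i
      have h2 : ((G i).card : ℝ≥0∞) = ENNReal.ofReal ((G i).card : ℝ) := by
        rw [ENNReal.ofReal_natCast]
      rw [h2, ENNReal.ofReal_rpow_of_pos (hδ i), ← ENNReal.ofReal_mul (Nat.cast_nonneg _)]
      apply ENNReal.ofReal_le_ofReal
      have h3 : 0 ≤ (δ i) ^ (s : ℝ) := Real.rpow_nonneg (hδ i).le _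
      calc ((G i).card : ℝ) * (δ i) ^ (s : ℝ) ≤
          (6 * B i * (2 : ℝ) ^ (β * i)) * (δ i) ^ (s : ℝ) :=
            mul_le_mul_of_nonneg_right (hG1 i) h3
        _ = _ := by ring
    apply ne_top_of_le_ne_top _ (ENNReal.tsum_le_tsum hle)
    rw [← ENNReal.ofReal_tsum_of_nonneg _ (hsum.mul_left _)]
    · exact ENNReal.ofReal_ne_top
    · intro i
      have h3 : 0 ≤ (δ i) ^ (s : ℝ) := Real.rpow_nonneg (hδ i).le _
      have := hB i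
      positivity
  · intro α hα
    exact hα.2.mono fun i hi => hG2 i α hα.1 hi

end Pool.Agent.H.MP_711652_nt
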