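import Mathlib
import Pool.Agent.H.MP_711652_nt.RateDefs

set_option autoImplicit false

namespace Pool.Agent.H.MP_711652_nt

open Finset Filter Topology

/-- the levels up to `N` are covered by the small levels and the blocks up to `log N` -/
lemma rate_cover (n₁ i₀ I N R : ℕ) (hn₁ : n₁ ≤ R) (hR : ⌈Real.exp (2 ^ i₀)⌉₊ ≤ R)
    (hI2 : Real.log N < 2 ^ (I + 1)) :
    Icc 1 N ⊆ range R ∪ ((Icc i₀ I).biUnion (fun i => blk n₁ i)) := by
  intro n hn
  rw [mem_Icc] at hn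
  rw [mem_union, mem_range, mem_biUnion]
  by_cases hnR : n < R
  · left; exact hnR
  · right
    push Not at hnR
    have hnR' : ((⌈Real.exp (2 ^ i₀)⌉₊ : ℕ) : ℝ) ≤ n := by exact_mod_cast hR.trans hnR
    have h1 : Real.exp (2 ^ i₀) ≤ n := (Nat.le_ceil _).trans hnR'
    have hn0 : (0 : ℝ) < n := lt_of_lt_of_le (Real.exp_pos _) h1
    have h2 : (2 : ℝ) ^ i₀ ≤ Real.log n := by
      rw [Real.le_log_iff_exp_le hn0]
      exact h1
    have h3 : (1 : ℝ) ≤ Real.log n := (one_le_pow₀ (by norm_num)).trans h2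
    obtain ⟨i, hi1, hi2⟩ := exists_nat_pow_near h3 (by norm_num : (1 : ℝ) < 2)
    have h4 : Real.log n ≤ Real.log N := Real.log_le_log hn0 (by exact_mod_cast hn.2)
    refine ⟨i, ?_, ?_⟩
    · rw [mem_Icc]
      constructor
      · have h5 : (2 : ℝ) ^ i₀ < 2 ^ (i + 1) := lt_of_le_of_lt h2 hi2
        have := (pow_lt_pow_iff_right₀ (by norm_num : (1 : ℝ) < 2)).1 h5
        omega
      · have h5 : (2 : ℝ) ^ i < 2 ^ (I + 1) := lt_of_le_of_lt (hi1.trans h4) hI2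
        have := (pow_lt_pow_iff_right₀ (by norm_num : (1 : ℝ) < 2)).1 h5
        omega
    · rw [mem_blk]
      exact ⟨hn₁.trans hnR, hi1, hi2⟩

lemma rate_sum_union (n₁ i₀ I N R : ℕ) (a : ℕ → ℝ) (ha0 : ∀ n, 0 ≤ a n)
    (hcover : Icc 1 N ⊆ range R ∪ ((Icc i₀ I).biUnion (fun i => blk n₁ i))) :
    ∑ n ∈ Icc 1 N, a n ≤ ∑ n ∈ range R, a n + ∑ i ∈ Icc i₀ I, ∑ n ∈ blk n₁ i, a n := by
  refine (sum_le_sum_of_subset_of_nonneg hcover (fun n _ _ => ha0 n)).trans ?_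
  have h2 := sum_union_inter (s₁ := range R) (s₂ := (Icc i₀ I).biUnion (fun i => blk n₁ i))
    (f := a)
  have h3 : 0 ≤ ∑ n ∈ range R ∩ (Icc i₀ I).biUnion (fun i => blk n₁ i), a n :=
    sum_nonneg fun n _ => ha0 n
  have h4 : ∑ n ∈ (Icc i₀ I).biUnion (fun i => blk n₁ i), a n ≤
      ∑ i ∈ Icc i₀ I, ∑ n ∈ blk n₁ i, a n := by
    rw [← sum_biUnion]
    intro i _ i' _ hii
    rw [Function.onFun, disjoint_left]
    intro n hn hn'
    rw [mem_blk] at hn hn'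
    apply hii
    have h5 : (2 : ℝ) ^ i < 2 ^ (i' + 1) := lt_of_le_of_lt hn.2.1 hn'.2.2
    have h6 : (2 : ℝ) ^ i' < 2 ^ (i + 1) := lt_of_le_of_lt hn'.2.1 hn.2.2
    have := (pow_lt_pow_iff_right₀ (by norm_num : (1 : ℝ) < 2)).1 h5
    have := (pow_lt_pow_iff_right₀ (by norm_num : (1 : ℝ) < 2)).1 h6
    omega
  linarith

/-- From the blocks to all levels. PROOF. Let `i₀` be such that the bound holds for `i ≥ i₀` and
let `n₂` be the least number with `n₂ ≥ n₁`, `log n₂ ≥ 2 ^ i₀` (so `n₂ ≥ 2`). The levels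
`n < n₂` contribute at most the constant `D₁ = ∑_{n < n₂} W / n`. For `n₂ ≤ n ≤ N` let `i` be the
integer with `2 ^ i ≤ log n < 2 ^ (i + 1)` (`i ≥ i₀`, `exists_nat_pow_near`), so `n ∈ blk n₁ i` and
`2 ^ i ≤ log N`. Let `I` be the largest `i` with `2 ^ i ≤ log N` (`log N ≥ 1`). Then the rest is at
most `∑_{i ≤ I} 2 ^ ((1 - β) i) ≤ 2 ^ ((1 - β) I) / (1 - 2 ^ (-(1 - β))) ≤
(log N) ^ (1 - β) / (1 - 2 ^ (-(1 - β)))`; and `D₁ ≤ D₁ * (log N) ^ (1 - β)` as `log N ≥ 1`. -/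
lemma rate_sum (w : ℕ → ℝ → ℝ) (α W : ℝ) (hw0 : ∀ n, 0 ≤ w n α) (hW : ∀ n, w n α ≤ W)
    (n₁ : ℕ) (β : ℝ) (hβ : β < 1)
    (h : ∀ᶠ i : ℕ in atTop, bw w n₁ i α ≤ (2 : ℝ) ^ ((1 - β) * i)) :
    ∃ D : ℝ, 0 ≤ D ∧ ∀ N : ℕ, 3 ≤ N →
      ∑ n ∈ Icc 1 N, w n α / n ≤ D * (Real.log N) ^ (1 - β) := by
  obtain ⟨i₀, hi₀⟩ := eventually_atTop.1 h
  set R := max n₁ ⌈Real.exp (2 ^ i₀)⌉₊ with hR
  set D₁ := ∑ n ∈ range R, W / (n : ℝ) with hD₁
  set q : ℝ := (2 : ℝ) ^ (1 - β) with hq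
  have hβ' : 0 < 1 - β := by linarith
  have hq1 : 1 < q := by
    rw [hq]
    exact Real.one_lt_rpow (by norm_num) hβ'
  have hW0 : 0 ≤ W := (hw0 0).trans (hW 0)
  have hD₁0 : 0 ≤ D₁ := sum_nonneg fun n _ => div_nonneg hW0 (Nat.cast_nonneg n)
  have hqq : 0 ≤ q / (q - 1) := div_nonneg (by linarith) (by linarith)
  refine ⟨D₁ + q / (q - 1), by linarith, ?_⟩
  intro N hN
  have hN' : (3 : ℝ) ≤ N := by exact_mod_cast hN
  have hlogN : 1 ≤ Real.log N := by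
    rw [Real.le_log_iff_exp_le (by linarith)]
    have := Real.exp_one_lt_d9
    linarith
  obtain ⟨I, hI1, hI2⟩ := exists_nat_pow_near hlogN (by norm_num : (1 : ℝ) < 2)
  have hcover := rate_cover n₁ i₀ I N R (le_max_left _ _) (le_max_right _ _) hI2
  have ha0 : ∀ n, 0 ≤ w n α / n := fun n => div_nonneg (hw0 n) (Nat.cast_nonneg n)
  have h1 := rate_sum_union n₁ i₀ I N R (fun n => w n α / n) ha0 hcover
  have h2 : ∑ n ∈ range R, w n α / n ≤ D₁ := by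
    apply sum_le_sum
    intro n _
    exact div_le_div_of_nonneg_right (hW n) (Nat.cast_nonneg n)
  have h3 : ∀ i ∈ Icc i₀ I, ∑ n ∈ blk n₁ i, w n α / n ≤ q ^ i := by
    intro i hi
    rw [mem_Icc] at hi
    have h4 := hi₀ i hi.1
    unfold bw at h4
    refine h4.trans_eq ?_
    rw [hq, Real.rpow_mul (by norm_num), Real.rpow_natCast]
  have hL0 : 0 ≤ Real.log N := by linarith
  have hLp : 1 ≤ (Real.log N) ^ (1 - β) := Real.one_le_rpow hlogN hβ'.le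
  have h4 : q ^ I ≤ (Real.log N) ^ (1 - β) := by
    have h5 : q ^ I = ((2 : ℝ) ^ I) ^ (1 - β) := by
      rw [hq, ← Real.rpow_natCast, ← Real.rpow_mul (by norm_num), mul_comm,
        Real.rpow_mul (by norm_num), Real.rpow_natCast]
    rw [h5]
    exact Real.rpow_le_rpow (by positivity) hI1 hβ'.le
  have h5 : ∑ i ∈ Icc i₀ I, q ^ i ≤ q / (q - 1) * (Real.log N) ^ (1 - β) := by
    have h6 : ∑ i ∈ Icc i₀ I, q ^ i ≤ ∑ i ∈ range (I + 1), q ^ i := by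
      apply sum_le_sum_of_subset_of_nonneg
      · intro i hi
        rw [mem_Icc] at hi
        rw [mem_range]
        omega
      · intro i _ _
        positivity
    rw [geom_sum_eq hq1.ne'] at h6
    refine h6.trans ?_
    have h7 : (q ^ (I + 1) - 1) / (q - 1) ≤ q / (q - 1) * q ^ I := by
      rw [pow_succ, div_mul_eq_mul_div]
      apply div_le_div_of_nonneg_right _ (by linarith)
      nlinarith
    refine h7.trans ?_
    exact mul_le_mul_of_nonneg_left h4 hqq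
  calc ∑ n ∈ Icc 1 N, w n α / n ≤ D₁ + ∑ i ∈ Icc i₀ I, q ^ i := by
        refine h1.trans ?_
        exact add_le_add h2 (sum_le_sum h3)
    _ ≤ D₁ * (Real.log N) ^ (1 - β) + q / (q - 1) * (Real.log N) ^ (1 - β) := by
        apply add_le_add _ h5
        nlinarith
    _ = _ := by ring

end Pool.Agent.H.MP_711652_nt
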