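import Mathlib
import Pool.Agent.H.MP_711652_nt.RateDefs

set_option autoImplicit false

namespace Pool.Agent.H.MP_711652_nt

open Finset Filter Topology

/-- A finite set of reals is separated by a positive distance. -/
theorem rateA4_sep (A : Finset ℝ) : ∃ d : ℝ, 0 < d ∧ ∀ α ∈ A, ∀ β ∈ A, α ≠ β → d ≤ |α - β| := by
  classical
  by_cases h : A.offDiag.Nonempty
  · obtain ⟨q, hq, hq2⟩ := Finset.exists_min_image A.offDiag (fun q => |q.1 - q.2|) h
    rw [Finset.mem_offDiag] at hq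
    refine ⟨|q.1 - q.2|, abs_pos.2 (sub_ne_zero.2 hq.2.2), fun α hα β hβ hne => ?_⟩
    exact hq2 (α, β) (Finset.mem_offDiag.2 ⟨hα, hβ, hne⟩)
  · refine ⟨1, one_pos, fun α hα β hβ hne => ?_⟩
    exact absurd ⟨(α, β), Finset.mem_offDiag.2 ⟨hα, hβ, hne⟩⟩ h

/-- The harmonic sum. -/
theorem rateA4_harm (N : ℕ) : ∑ n ∈ Icc 1 N, (1 : ℝ) / n ≤ 1 + Real.log N := by
  have h := harmonic_le_one_add_log N
  have h2 : ((harmonic N : ℚ) : ℝ) = ∑ n ∈ Icc 1 N, (1 : ℝ) / n := by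
    rw [harmonic_eq_sum_Icc]
    push_cast
    exact Finset.sum_congr rfl fun n _ => by rw [one_div]
  rwa [h2] at h

/-- Only finitely many exponents are bad on all levels. -/
theorem rate_finite (S : Set ℝ) (w : ℕ → ℝ → ℝ) (W : ℝ) (hw : ∀ n α, 0 ≤ w n α)
    (hW : ∀ n α, w n α ≤ W) (n₁ : ℕ) (δ : ℕ → ℝ) (hδ0 : Tendsto δ atTop (𝓝 0)) (B : ℝ)
    (hB : 0 ≤ B)
    (hpack : ∀ n : ℕ, n₁ ≤ n → ∀ A : Finset ℝ, (∀ α ∈ A, α ∈ S) → Sep (δ n) A →
      ∑ α ∈ A, w n α ≤ B) (τ : ℝ) (hτ : 0 < τ) :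
    {α : ℝ | α ∈ S ∧ ∀ᶠ N : ℕ in atTop, τ * Real.log N ≤ ∑ n ∈ Icc 1 N, w n α / n}.Finite := by
  by_contra hinf
  obtain ⟨m, hm⟩ := exists_nat_gt (B / τ)
  rw [div_lt_iff₀ hτ] at hm
  obtain ⟨A, hA, hAc⟩ := Set.Infinite.exists_subset_card_eq hinf m
  have hAS : ∀ α ∈ A, α ∈ S := fun α hα => (hA hα).1
  have hW0 : 0 ≤ W := (hw 0 0).trans (hW 0 0)
  obtain ⟨d, hd, hsep⟩ := rateA4_sep A
  obtain ⟨n₂, hn₂⟩ := eventually_atTop.1 (hδ0.eventually_lt_const hd)
  have hev : ∀ᶠ N : ℕ in atTop, ∀ α ∈ A, τ * Real.log N ≤ ∑ n ∈ Icc 1 N, w n α / n :=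
    (Finset.eventually_all A).2 fun α hα => (hA hα).2
  have hlog : Tendsto (fun N : ℕ => Real.log N) atTop atTop :=
    Real.tendsto_log_atTop.comp tendsto_natCast_atTop_atTop
  set D : ℝ := (max n₁ n₂ : ℕ) * (m * W) with hD
  have hpos : 0 < m * τ - B := by linarith
  obtain ⟨N, hN1, hN2⟩ := (hev.and (hlog.eventually_gt_atTop ((D + B) / (m * τ - B)))).exists
  rw [div_lt_iff₀ hpos] at hN2
  have hterm : ∀ n ∈ Icc 1 N, ∑ α ∈ A, w n α / n
      ≤ B * (1 / n) + (if n < max n₁ n₂ then m * W else 0) := by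
    intro n hn
    have hn1 : (1 : ℝ) ≤ n := by exact_mod_cast (mem_Icc.1 hn).1
    rw [← Finset.sum_div]
    split_ifs with hlt
    · have h1 : ∑ α ∈ A, w n α ≤ m * W := by
        calc ∑ α ∈ A, w n α ≤ ∑ _α ∈ A, W := Finset.sum_le_sum fun α _ => hW n α
          _ = m * W := by rw [Finset.sum_const, hAc, nsmul_eq_mul]
      have h2 : (∑ α ∈ A, w n α) / n ≤ ∑ α ∈ A, w n α :=
        div_le_self (Finset.sum_nonneg fun α _ => hw n α) hn1
      have h3 : 0 ≤ B * (1 / (n : ℝ)) := by positivity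
      linarith
    · push Not at hlt
      have h1 : n₁ ≤ n := (le_max_left _ _).trans hlt
      have h2 : n₂ ≤ n := (le_max_right _ _).trans hlt
      have h3 : Sep (δ n) A := fun α hα β hβ hne => (hn₂ n h2).le.trans (hsep α hα β hβ hne)
      have h4 := hpack n h1 A hAS h3
      rw [add_zero, mul_one_div]
      exact div_le_div_of_nonneg_right h4 (by positivity)
  have hsum : m * (τ * Real.log N) ≤ B * (1 + Real.log N) + D := by
    calc m * (τ * Real.log N) = ∑ _α ∈ A, τ * Real.log N := by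
          rw [Finset.sum_const, hAc, nsmul_eq_mul]
      _ ≤ ∑ α ∈ A, ∑ n ∈ Icc 1 N, w n α / n := Finset.sum_le_sum hN1
      _ = ∑ n ∈ Icc 1 N, ∑ α ∈ A, w n α / n := Finset.sum_comm
      _ ≤ ∑ n ∈ Icc 1 N, (B * (1 / n) + (if n < max n₁ n₂ then m * W else 0)) :=
          Finset.sum_le_sum hterm
      _ = B * ∑ n ∈ Icc 1 N, (1 : ℝ) / n
            + ∑ n ∈ Icc 1 N, (if n < max n₁ n₂ then (m : ℝ) * W else 0) := by
          rw [Finset.sum_add_distrib, ← Finset.mul_sum]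
      _ ≤ B * (1 + Real.log N) + D := by
          refine add_le_add (mul_le_mul_of_nonneg_left (rateA4_harm N) hB) ?_
          rw [← Finset.sum_filter, Finset.sum_const, nsmul_eq_mul, hD]
          refine mul_le_mul_of_nonneg_right ?_ (by positivity)
          have h5 : ((Icc 1 N).filter fun n => n < max n₁ n₂).card ≤ max n₁ n₂ := by
            calc ((Icc 1 N).filter fun n => n < max n₁ n₂).card
                ≤ (range (max n₁ n₂)).card := by
                  refine card_le_card fun n hn => ?_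
                  exact mem_range.2 (mem_filter.1 hn).2
              _ = max n₁ n₂ := card_range _
          exact_mod_cast h5
  nlinarith

end Pool.Agent.H.MP_711652_nt
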