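import Mathlib
import Pool.Agent.H.MP_711652_nt.RateDefs
import Pool.Agent.H.MP_711652_nt.EntD3

set_option autoImplicit false

namespace Pool.Agent.H.MP_711652_nt

open Finset

/-- PROOF. The same `μ`; `a ≤ h`, `h ≤ b` give `H ≤ h ≤ R`. -/
lemma LRs_of_typicalS (ε a b : ℝ) (H R p : ℕ) (ha : (H : ℝ) ≤ a) (hb : b ≤ R)
    (h : TypicalS ε H R p) : LRs ε a b p := by
  classical
  obtain ⟨μ, hμ, h1⟩ := h
  refine ⟨μ, hμ, fun r hr hrb => ?_⟩
  refine le_trans ?_ (h1 r (by exact_mod_cast ha.trans hr) (by exact_mod_cast hrb.trans hb))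
  have h2 : ∀ s t : Finset ℕ, s ⊆ t → (s.card : ℝ) ≤ t.card := fun s t hst => by
    exact_mod_cast card_le_card hst
  apply h2
  intro y hy
  rw [mem_filter] at hy ⊢
  obtain ⟨hy1, k, hk1, hk2, hk3⟩ := hy
  exact ⟨hy1, k, by exact_mod_cast ha.trans hk1, by exact_mod_cast hk2.trans hb, hk3⟩

/-- The two ends of the range at the exponent `α`, level `n`. -/
noncomputable def Hα (γ : ℝ) (n : ℕ) (α : ℝ) : ℕ :=
  ⌊(((n : ℝ) - 1) * Real.log 2) ^ α * Real.exp (-(Real.log n) ^ γ)⌋₊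
noncomputable def Rα (γ : ℝ) (n : ℕ) (α : ℝ) : ℕ := ⌈(n : ℝ) ^ α * Real.exp ((Real.log n) ^ γ)⌉₊

lemma RateB1_l (n : ℕ) (hn : 16 ≤ n) :
    (n : ℝ) / 4 ≤ ((n : ℝ) - 1) * Real.log 2 ∧ ((n : ℝ) - 1) * Real.log 2 ≤ n := by
  have hl2 : (0.69 : ℝ) < Real.log 2 := by
    have := Real.log_two_gt_d9
    linarith
  have hl2' : Real.log 2 < 0.7 := by
    have := Real.log_two_lt_d9
    linarith
  have hn' : (16 : ℝ) ≤ n := by exact_mod_cast hn
  constructor <;> nlinarith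

lemma RateB1_H_lower (γ α : ℝ) (n : ℕ) (T : ℝ) (hT : 0 < T) (hn : 16 ≤ n)
    (h : Real.log (T + 1) ≤ α * Real.log (((n : ℝ) - 1) * Real.log 2) - (Real.log n) ^ γ) :
    T ≤ Hα γ n α := by
  obtain ⟨h1, h2⟩ := RateB1_l n hn
  have hn' : (16 : ℝ) ≤ n := by exact_mod_cast hn
  set l := ((n : ℝ) - 1) * Real.log 2 with hl
  have hl0 : 0 < l := by linarith
  have h3 : T + 1 ≤ l ^ α * Real.exp (-(Real.log n) ^ γ) := by
    rw [← Real.log_le_log_iff (by positivity) (by positivity),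
      Real.log_mul (by positivity) (by positivity), Real.log_rpow hl0, Real.log_exp]
    linarith
  have h4 : l ^ α * Real.exp (-(Real.log n) ^ γ) < Hα γ n α + 1 := Nat.lt_floor_add_one _
  linarith

lemma RateB1_R_upper (γ α : ℝ) (n : ℕ) (hn : 1 ≤ n) (hα : 0 ≤ α) :
    (Rα γ n α : ℝ) ≤ 2 * ((n : ℝ) ^ α * Real.exp ((Real.log n) ^ γ)) := by
  have hn' : (1 : ℝ) ≤ n := by exact_mod_cast hn
  have h0 : 0 ≤ (Real.log n) ^ γ := Real.rpow_nonneg (Real.log_natCast_nonneg n) γ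
  have h1 : (1 : ℝ) ≤ Real.exp ((Real.log n) ^ γ) := Real.one_le_exp h0
  have h2 : (1 : ℝ) ≤ (n : ℝ) ^ α := Real.one_le_rpow hn' hα
  have h3 : (1 : ℝ) ≤ (n : ℝ) ^ α * Real.exp ((Real.log n) ^ γ) := by nlinarith
  have h4 : (Rα γ n α : ℝ) < (n : ℝ) ^ α * Real.exp ((Real.log n) ^ γ) + 1 :=
    Nat.ceil_lt_add_one (by positivity)
  linarith

/-- Numerical estimates for the ranges. PROOF. Let `u = log n`, `lam = (n - 1) log 2 ≥ n / 4`
(`n ≥ 16`), all `α ∈ [1 + η, A]`.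
(1) `lam ^ α e^{-u^γ} ≥ (n / 4) ^ (1 + η) e^{-u^γ}`; its logarithm is
`≥ (1 + η) u - (1 + η) log 4 - u ^ γ`, and `ev_rpow γ (η / 2) K'` (file `ExpoB`) gives
`u ^ γ + K' ≤ (η / 2) u` for large `n`, so `lam ^ α e^{-u^γ} ≥ n * n ^ (η / 2) * 4^{-(1+η)}.. ≥
(C / ε + 1) n`; the floor loses `1`; and `log (2 ^ n) ≤ n`.
(2) `n ^ α e^{u^γ} ≥ lam ^ α e^{-u^γ}` as `n ≥ lam ≥ 1`.
(3) if `α + 3 u ^ (γ - 1) ≤ β` then `log` of `lam ^ β e^{-u^γ}` minus `log` of `n ^ α e^{u^γ}` is at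
least `(β - α) u - A log 4 - 2 u ^ γ ≥ 3 u ^ γ - 2 u ^ γ - A log 4 = u ^ γ - A log 4`, larger than
`log (4 C / ε)` for large `n`; floor and ceiling cost a factor `2` each (both numbers are `≥ 1`).
(4) `C * Rα ≤ 2 C n ^ A e^{u^γ} ≤ 2 C n ^ (A + 1) ≤ 2 ^ n`. -/
lemma range_numerics (γ ε η C : ℝ) (A : ℕ) (hγ : 0 < γ) (hγ1 : γ < 1) (hε : 0 < ε)
    (hη : 0 < η) (hC : 1 ≤ C) : ∃ n₀ : ℕ, ∀ n : ℕ, n₀ ≤ n →
      (∀ α : ℝ, 1 + η ≤ α → α ≤ A → C * Real.log ((2 ^ n : ℕ) : ℝ) ≤ ε * Hα γ n α ∧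
        Hα γ n α ≤ Rα γ n α ∧ C * Rα γ n α ≤ ((2 ^ n : ℕ) : ℝ)) ∧
      (∀ α β : ℝ, 1 + η ≤ α → β ≤ A → α + 3 * (Real.log n) ^ (γ - 1) ≤ β →
        C * Rα γ n α ≤ ε * Hα γ n β) := by
  have hC0 : 0 < C := by linarith
  have e1 := ev_rpow γ η (Real.log (C / ε + 1) + (1 + η) * Real.log 4) hγ1 hη
  have e2 := ev_rpow γ 1 0 hγ1 one_pos
  have e3 : ∀ᶠ n : ℕ in Filter.atTop, Real.log (2 * C / ε + 1) + A * Real.log 4 ≤
      (Real.log n) ^ γ :=
    ((tendsto_rpow_atTop hγ).comp tendsto_log_nat).eventually_ge_atTop _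
  have e6 : ∀ᶠ n : ℕ in Filter.atTop, (n : ℝ) ^ (A + 1) / 2 ^ n < 1 / (2 * C) :=
    (tendsto_pow_const_div_const_pow_of_one_lt (A + 1) (by norm_num : (1 : ℝ) < 2)).eventually
      (gt_mem_nhds (by positivity))
  have e7 := Filter.eventually_ge_atTop (α := ℕ) 16
  obtain ⟨n₀, hn₀⟩ := Filter.eventually_atTop.1 (e1.and (e2.and (e3.and (e6.and e7))))
  refine ⟨n₀, fun n hn => ?_⟩
  obtain ⟨f1, f2, f3, f6, hn16⟩ := hn₀ n hn
  clear e1 e2 e3 e6 e7 hn₀
  obtain ⟨hl1, hl2⟩ := RateB1_l n hn16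
  have hnr : (16 : ℝ) ≤ n := by exact_mod_cast hn16
  have hn0 : (0 : ℝ) < n := by linarith
  set l := ((n : ℝ) - 1) * Real.log 2 with hl
  set u := Real.log n with hu
  have hl0 : 0 < l := by linarith
  have hu0 : 0 < u := Real.log_pos (by linarith)
  have hlog4 : 0 < Real.log 4 := Real.log_pos (by norm_num)
  have hul : u - Real.log 4 ≤ Real.log l := by
    rw [hu, ← Real.log_div (by linarith) (by norm_num)]
    exact Real.log_le_log (by linarith) hl1
  have hu4 : 0 ≤ u - Real.log 4 := by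
    rw [hu, ← Real.log_div (by linarith) (by norm_num)]
    exact Real.log_nonneg (by linarith)
  have huγ : 0 ≤ u ^ γ := Real.rpow_nonneg hu0.le γ
  refine ⟨fun α hα hαA => ⟨?_, ?_, ?_⟩, fun α β hα hβA hαβ => ?_⟩
  · -- lower end
    have h1 : C * n / ε ≤ Hα γ n α := by
      refine RateB1_H_lower γ α n _ (by positivity) hn16 ?_
      have h2 : C * n / ε + 1 ≤ (C / ε + 1) * n := by
        have : C * n / ε = C / ε * n := by ring
        rw [this]
        nlinarith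
      have h3 : Real.log (C * n / ε + 1) ≤ Real.log (C / ε + 1) + u := by
        rw [hu, ← Real.log_mul (by positivity) (by positivity)]
        exact Real.log_le_log (by positivity) h2
      have h4 : (1 + η) * (u - Real.log 4) ≤ α * Real.log l := by
        calc (1 + η) * (u - Real.log 4) ≤ α * (u - Real.log 4) := by gcongr
          _ ≤ _ := by
            have : 0 ≤ α := by linarith
            gcongr
      linarith
    have h2 : Real.log ((2 ^ n : ℕ) : ℝ) ≤ n := by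
      push_cast
      rw [Real.log_pow]
      have : Real.log 2 < 0.7 := by
        have := Real.log_two_lt_d9
        linarith
      nlinarith
    rw [div_le_iff₀ hε] at h1
    nlinarith
  · -- the ends are in the right order
    have h1 : (Hα γ n α : ℝ) ≤ l ^ α * Real.exp (-u ^ γ) := Nat.floor_le (by positivity)
    have h2 : (n : ℝ) ^ α * Real.exp (u ^ γ) ≤ Rα γ n α := Nat.le_ceil _
    have h3 : l ^ α * Real.exp (-u ^ γ) ≤ (n : ℝ) ^ α * Real.exp (u ^ γ) := by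
      have h4 : l ^ α ≤ (n : ℝ) ^ α := Real.rpow_le_rpow hl0.le hl2 (by linarith)
      have h5 : Real.exp (-u ^ γ) ≤ Real.exp (u ^ γ) := Real.exp_le_exp.2 (by linarith)
      exact mul_le_mul h4 h5 (Real.exp_pos _).le (by positivity)
    exact_mod_cast h1.trans (h3.trans h2)
  · -- upper end
    have h1 := RateB1_R_upper γ α n (by omega) (by linarith)
    have h2 : Real.exp (u ^ γ) ≤ n := by
      have h3 : u ^ γ ≤ Real.log n := by linarith
      calc Real.exp (u ^ γ) ≤ Real.exp (Real.log n) := Real.exp_le_exp.2 h3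
        _ = n := Real.exp_log hn0
    have h3 : (n : ℝ) ^ α ≤ (n : ℝ) ^ A := by
      rw [← Real.rpow_natCast]
      exact Real.rpow_le_rpow_of_exponent_le (by linarith) hαA
    rw [div_lt_iff₀ (by positivity)] at f6
    have h4 : (n : ℝ) ^ α * Real.exp (u ^ γ) ≤ (n : ℝ) ^ (A + 1) := by
      rw [pow_succ]
      exact mul_le_mul h3 h2 (Real.exp_pos _).le (by positivity)
    have h5 : (n : ℝ) ^ (A + 1) * (2 * C) < 2 ^ n := by
      have : 1 / (2 * C) * 2 ^ n * (2 * C) = 2 ^ n := by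
        field_simp
      have h6 := mul_lt_mul_of_pos_right f6 (by positivity : (0 : ℝ) < 2 * C)
      rwa [this] at h6
    push_cast
    calc C * (Rα γ n α : ℝ) ≤ C * (2 * ((n : ℝ) ^ α * Real.exp (u ^ γ))) := by gcongr
      _ ≤ C * (2 * (n : ℝ) ^ (A + 1)) := by gcongr
      _ ≤ 2 ^ n := by linarith
  · -- separation
    have h1 := RateB1_R_upper γ α n (by omega) (by linarith)
    set V := (n : ℝ) ^ α * Real.exp (u ^ γ) with hV
    have hV1 : 1 ≤ V := by
      have h2 : (1 : ℝ) ≤ Real.exp (u ^ γ) := Real.one_le_exp huγ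
      have h3 : (1 : ℝ) ≤ (n : ℝ) ^ α := Real.one_le_rpow (by linarith) (by linarith)
      rw [hV]
      nlinarith
    have h2 : 2 * C / ε * V ≤ Hα γ n β := by
      refine RateB1_H_lower γ β n _ (by positivity) hn16 ?_
      have h3 : 2 * C / ε * V + 1 ≤ (2 * C / ε + 1) * V := by nlinarith
      have h4 : Real.log V = α * u + u ^ γ := by
        rw [hV, Real.log_mul (by positivity) (by positivity), Real.log_rpow hn0, Real.log_exp]
      have h5 : Real.log (2 * C / ε * V + 1) ≤ Real.log (2 * C / ε + 1) + (α * u + u ^ γ) := by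
        rw [← h4, ← Real.log_mul (by positivity) (by positivity)]
        exact Real.log_le_log (by positivity) h3
      have h6 : u ^ (γ - 1) * u = u ^ γ := by
        rw [← Real.rpow_add_one hu0.ne']
        congr 1
        ring
      have h7 : 0 ≤ u ^ (γ - 1) := Real.rpow_nonneg hu0.le _
      have hβ0 : 0 ≤ β := by linarith
      have h8 : β * (u - Real.log 4) ≤ β * Real.log l := by gcongr
      have h9 : β * Real.log 4 ≤ A * Real.log 4 := by gcongr
      have h10 : (α + 3 * u ^ (γ - 1)) * u ≤ β * u := by gcongr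
      have h11 : (α + 3 * u ^ (γ - 1)) * u = α * u + 3 * u ^ γ := by
        rw [← h6]; ring
      rw [h11] at h10
      have h12 : β * (u - Real.log 4) = β * u - β * Real.log 4 := by ring
      linarith
    have h3 : 2 * C / ε * V = 2 * C * V / ε := by ring
    rw [h3, div_le_iff₀ hε] at h2
    calc C * (Rα γ n α : ℝ) ≤ C * (2 * V) := by gcongr
      _ = 2 * C * V := by ring
      _ ≤ ε * Hα γ n β := by linarith

/-- PROOF. For `p ∈ (2 ^ (n - 1), 2 ^ n]`: `(n - 1) log 2 ≤ log p ≤ n log 2 ≤ n` and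
`log log p ≤ log n`, `log log p ≥ 0`; so `Hα γ n α ≤ (log p) ^ α exp (-(log log p) ^ γ)` and
`(log p) ^ α exp ((log log p) ^ γ) ≤ Rα γ n α`. Contrapositive of `LRs_of_typicalS`. -/
lemma not_typical_of_QS (γ ε α : ℝ) (hγ : 0 < γ) (hα : 0 < α) (n p : ℕ) (hn : 16 ≤ n)
    (h1 : 2 ^ (n - 1) < p) (h2 : p ≤ 2 ^ n) (h : QS ε γ α p) :
    p.Prime ∧ ¬ TypicalS ε (Hα γ n α) (Rα γ n α) p := by
  refine ⟨h.1, fun ht => h.2 ?_⟩
  obtain ⟨hl1, hl2⟩ := RateB1_l n hn
  obtain ⟨hb1, hb2⟩ := log_bounds n p hn h1 h2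
  have hnr : (16 : ℝ) ≤ n := by exact_mod_cast hn
  have hlL : ((n : ℝ) - 1) * Real.log 2 ≤ Real.log p := by
    have h3 : Real.log ((2 : ℝ) ^ (n - 1)) ≤ Real.log p := by
      apply Real.log_le_log (by positivity)
      exact_mod_cast h1.le
    rw [Real.log_pow] at h3
    have h4 : ((n - 1 : ℕ) : ℝ) = n - 1 := by
      rw [Nat.cast_sub (by omega)]; norm_num
    rwa [h4] at h3
  have hL0 : 0 < Real.log p := by linarith
  have hLL : 0 ≤ Real.log (Real.log p) := Real.log_nonneg (by linarith)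
  have hLu : Real.log (Real.log p) ≤ Real.log n := Real.log_le_log hL0 hb2
  have hpow : (Real.log (Real.log p)) ^ γ ≤ (Real.log n) ^ γ := Real.rpow_le_rpow hLL hLu hγ.le
  refine LRs_of_typicalS ε _ _ (Hα γ n α) (Rα γ n α) p ?_ ?_ ht
  · have h3 : (Hα γ n α : ℝ) ≤ (((n : ℝ) - 1) * Real.log 2) ^ α * Real.exp (-(Real.log n) ^ γ) :=
      Nat.floor_le (mul_nonneg (Real.rpow_nonneg (by linarith) _) (Real.exp_pos _).le)
    refine h3.trans (mul_le_mul ?_ ?_ (Real.exp_pos _).le (Real.rpow_nonneg hL0.le _))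
    · exact Real.rpow_le_rpow (by linarith) hlL hα.le
    · exact Real.exp_le_exp.2 (by linarith)
  · have h3 : (n : ℝ) ^ α * Real.exp ((Real.log n) ^ γ) ≤ Rα γ n α := Nat.le_ceil _
    refine le_trans (mul_le_mul ?_ ?_ (Real.exp_pos _).le (Real.rpow_nonneg (by linarith) _)) h3
    · exact Real.rpow_le_rpow hL0.le hb2 hα.le
    · exact Real.exp_le_exp.2 hpow

end Pool.Agent.H.MP_711652_nt
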