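import Mathlib
import Pool.Agent.H.MP_711652_nt.RateB1

set_option autoImplicit false

namespace Pool.Agent.H.MP_711652_nt

open Finset

open Classical in
/-- **Packing of separated exponents (regularity).** PROOF. `C, X₀` from `entropy_packing`, `n₀`
from `range_numerics`, `B = C / ε ^ 3`. Let `X = 2 ^ n`. Enumerate `S` increasingly,
`α 0 < ... < α (J - 1)` (`S.orderEmbOfFin rfl`, extended to `ℕ` by a default value), so
`α i + 3 (log n) ^ (γ - 1) ≤ α (i + 1)`. Apply `entropy_packing` with `H i = Hα γ n (α i)`,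
`R i = Rα γ n (α i)` and bound the block sets by `not_typical_of_QS`
(`(Ioc (2 ^ (n - 1)) (2 ^ n)).filter (QS ε γ α) ⊆ (Icc 1 X).filter (p.Prime ∧ ¬ TypicalS ...)`). -/
theorem reg_packing (γ ε η : ℝ) (A : ℕ) (hγ : 0 < γ) (hγ1 : γ < 1) (hε : 0 < ε) (hε1 : ε ≤ 1)
    (hη : 0 < η) : ∃ B : ℝ, 0 ≤ B ∧ ∃ n₀ : ℕ, ∀ n : ℕ, n₀ ≤ n → ∀ S : Finset ℝ,
      (∀ α ∈ S, 1 + η ≤ α ∧ α ≤ A) → Sep (3 * (Real.log n) ^ (γ - 1)) S →
      ∑ α ∈ S, (((Ioc (2 ^ (n - 1)) (2 ^ n)).filter (QS ε γ α)).card : ℝ) ≤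
        B * Nat.primeCounting (2 ^ n) := by
  obtain ⟨C, hC, X₀, hX₀⟩ := entropy_packing
  obtain ⟨n₀, hn₀⟩ := range_numerics γ ε η C A hγ hγ1 hε hη hC
  refine ⟨C / ε ^ 3, by positivity, max (max n₀ X₀) 16, ?_⟩
  intro n hn S hS hSep
  have hn1 : n₀ ≤ n := le_trans (le_trans (le_max_left _ _) (le_max_left _ _)) hn
  have hn2 : X₀ ≤ n := le_trans (le_trans (le_max_right _ _) (le_max_left _ _)) hn
  have hn3 : 16 ≤ n := le_trans (le_max_right _ _) hn
  obtain ⟨g1, g2⟩ := hn₀ n hn1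
  set J := S.card with hJ
  set e := S.orderEmbOfFin (rfl : S.card = J) with he
  set α : ℕ → ℝ := fun i => if h : i < J then e ⟨i, h⟩ else 0 with hα
  have hαS : ∀ i, i < J → α i ∈ S := by
    intro i hi
    rw [hα]
    simp only [hi, dif_pos]
    exact S.orderEmbOfFin_mem _ _
  have hαlt : ∀ i, i + 1 < J → α i < α (i + 1) := by
    intro i hi
    have hi' : i < J := by omega
    rw [hα]
    simp only [hi, hi', dif_pos]
    apply e.strictMono
    rw [Fin.lt_def]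
    exact Nat.lt_succ_self i
  have hsum : ∑ a ∈ S, (((Ioc (2 ^ (n - 1)) (2 ^ n)).filter (QS ε γ a)).card : ℝ) =
      ∑ i ∈ range J, (((Ioc (2 ^ (n - 1)) (2 ^ n)).filter (QS ε γ (α i))).card : ℝ) := by
    rw [Finset.sum_range, ← Finset.sum_coe_sort S,
      ← Equiv.sum_comp (S.orderIsoOfFin (rfl : S.card = J)).toEquiv]
    apply Finset.sum_congr rfl
    intro i _
    have h1 : α (i : ℕ) = ((S.orderIsoOfFin (rfl : S.card = J)) i : ℝ) := by
      have hi2 : (i : ℕ) < J := i.2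
      rw [hα]
      simp only [hi2, dif_pos]
      rfl
    rw [h1]
    rfl
  rw [hsum]
  have hXn : X₀ ≤ 2 ^ n := hn2.trans (Nat.lt_two_pow_self).le
  have hmain := hX₀ (2 ^ n) hXn ε hε hε1 J (fun i => Hα γ n (α i)) (fun i => Rα γ n (α i)) ?_ ?_ ?_ ?_
  · refine le_trans ?_ hmain
    apply Finset.sum_le_sum
    intro i hi
    rw [mem_range] at hi
    have hα0 : 0 < α i := by
      have := (hS _ (hαS i hi)).1
      linarith
    have hsub : (Ioc (2 ^ (n - 1)) (2 ^ n)).filter (QS ε γ (α i)) ⊆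
        (Icc 1 (2 ^ n)).filter (fun p => p.Prime ∧ ¬ TypicalS ε (Hα γ n (α i)) (Rα γ n (α i)) p) := by
      intro p hp
      rw [mem_filter, mem_Ioc] at hp
      obtain ⟨⟨h1, h2⟩, h3⟩ := hp
      have h4 := not_typical_of_QS γ ε (α i) hγ hα0 n p hn3 h1 h2 h3
      have h5 : 0 < 2 ^ (n - 1) := by positivity
      rw [mem_filter, mem_Icc]
      exact ⟨⟨by omega, h2⟩, h4⟩
    exact_mod_cast card_le_card hsub
  · intro i hi
    obtain ⟨a1, a2⟩ := hS _ (hαS i hi)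
    exact (g1 (α i) a1 a2).1
  · intro i hi
    obtain ⟨a1, a2⟩ := hS _ (hαS i hi)
    exact (g1 (α i) a1 a2).2.1
  · intro i hi
    obtain ⟨a1, a2⟩ := hS _ (hαS i (by omega))
    obtain ⟨b1, b2⟩ := hS _ (hαS (i + 1) hi)
    refine g2 (α i) (α (i + 1)) a1 b2 ?_
    have h1 := hαlt i hi
    have h2 := hSep (α i) (hαS i (by omega)) (α (i + 1)) (hαS (i + 1) hi) h1.ne
    rw [abs_of_neg (by linarith)] at h2
    linarith
  · intro i hi
    obtain ⟨a1, a2⟩ := hS _ (hαS i hi)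
    exact (g1 (α i) a1 a2).2.2

end Pool.Agent.H.MP_711652_nt
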