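import Mathlib
import Pool.Agent.H.MP_711652_nt.RateDefs

set_option autoImplicit false

namespace Pool.Agent.H.MP_711652_nt

open Finset

/-- The index of the dyadic scale of the exponent `α` at the level `n`. -/
noncomputable def gpIdx (n : ℕ) (α : ℝ) : ℕ :=
  ⌊Real.logb 2 ((((n : ℝ) - 1) * Real.log 2) ^ α / ⌈Real.log ((2 ^ n : ℕ) : ℝ)⌉₊)⌋₊

open Classical in
/-- The inclusion in the proof of `level_gap`, for a single exponent. -/
lemma gap_core (K κ η : ℝ) (A : ℕ) (hK : 0 < K) (hκ : 0 ≤ κ) (hη : 0 < η) :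
    ∃ n₀ : ℕ, ∀ n : ℕ, n₀ ≤ n → 16 ≤ n ∧ ∃ Kn : ℕ, 1 ≤ Kn ∧
      (Kn : ℝ) ≤ (4 * K + 2) * (Real.log n) ^ κ ∧ ∀ α : ℝ, 1 + η ≤ α → α ≤ A →
      0 ≤ Real.logb 2 ((((n : ℝ) - 1) * Real.log 2) ^ α / ⌈Real.log ((2 ^ n : ℕ) : ℝ)⌉₊) ∧
      2 ^ gpIdx n α * ⌈Real.log ((2 ^ n : ℕ) : ℝ)⌉₊ ≤ 2 ^ n ∧ gpIdx n α < 2 ^ n ∧
      (Ioc (2 ^ (n - 1)) (2 ^ n)).filter (QN K κ α) ⊆
        badPrimes (2 ^ n) Kn (2 ^ gpIdx n α * ⌈Real.log ((2 ^ n : ℕ) : ℝ)⌉₊) := by
  have hl2a : (0.69 : ℝ) < Real.log 2 := by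
    have := Real.log_two_gt_d9
    linarith
  have hl2b : Real.log 2 < 0.7 := by
    have := Real.log_two_lt_d9
    linarith
  have hl2 : 0 < Real.log 2 := by linarith
  have e1 : ∀ᶠ n : ℕ in Filter.atTop, 4 ≤ η * Real.log n :=
    (tendsto_log_nat.const_mul_atTop hη).eventually_ge_atTop 4
  have e2 : ∀ᶠ n : ℕ in Filter.atTop, (n : ℝ) ^ (A + 3) / 2 ^ n < 1 :=
    (tendsto_pow_const_div_const_pow_of_one_lt (A + 3) (by norm_num : (1 : ℝ) < 2)).eventually
      (gt_mem_nhds (by positivity))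
  have e3 := Filter.eventually_ge_atTop (α := ℕ) (max 16 (2 * A + 2))
  obtain ⟨n₀, hn₀⟩ := Filter.eventually_atTop.1 (e1.and (e2.and e3))
  refine ⟨n₀, ?_⟩
  intro n hn
  obtain ⟨f1, f2, f3⟩ := hn₀ n hn
  have hn16 : 16 ≤ n := le_trans (le_max_left _ _) f3
  have hnA : 2 * A + 2 ≤ n := le_trans (le_max_right _ _) f3
  have hnr : (16 : ℝ) ≤ n := by exact_mod_cast hn16
  have hnAr : 2 * (A : ℝ) + 2 ≤ n := by exact_mod_cast hnA
  set b := ⌈Real.log ((2 ^ n : ℕ) : ℝ)⌉₊ with hb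
  set lam := ((n : ℝ) - 1) * Real.log 2 with hlam
  have hlog2n : Real.log ((2 ^ n : ℕ) : ℝ) = n * Real.log 2 := by
    push_cast
    rw [Real.log_pow]
  have hb1 : (n : ℝ) * Real.log 2 ≤ b := by
    rw [← hlog2n]
    exact Nat.le_ceil _
  have hb2 : (b : ℝ) ≤ n := by
    have := Nat.ceil_lt_add_one (a := Real.log ((2 ^ n : ℕ) : ℝ)) (by rw [hlog2n]; positivity)
    rw [← hb, hlog2n] at this
    have h1 : (n : ℝ) * Real.log 2 ≤ n * 0.7 := by gcongr
    linarith
  have hb0 : (0 : ℝ) < b := lt_of_lt_of_le (by positivity) hb1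
  have hb0' : 0 < b := by exact_mod_cast hb0
  have hlamlow : ((n : ℝ) - 1) * 0.69 ≤ lam := by
    rw [hlam]
    apply mul_le_mul_of_nonneg_left hl2a.le
    linarith
  have hlam1 : (1 : ℝ) < lam := by linarith
  have hlam0 : 0 < lam := by linarith
  have hlogn1 : (1 : ℝ) ≤ Real.log n := by
    rw [Real.le_log_iff_exp_le (by linarith)]
    have := Real.exp_one_lt_d9
    linarith
  set Kn := ⌈4 * K * (Real.log n) ^ κ⌉₊ + 1 with hKn
  have hlogκ : 1 ≤ (Real.log n) ^ κ := Real.one_le_rpow hlogn1 hκ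
  have hKn1 : (Kn : ℝ) ≤ (4 * K + 2) * (Real.log n) ^ κ := by
    rw [hKn]
    push_cast
    have := Nat.ceil_lt_add_one (a := 4 * K * (Real.log n) ^ κ) (by positivity)
    have h1 : (4 * K + 2) * (Real.log n) ^ κ = 4 * K * (Real.log n) ^ κ + 2 * (Real.log n) ^ κ := by
      ring
    linarith
  have hKn2 : 4 * K * (Real.log n) ^ κ ≤ Kn := by
    rw [hKn]
    push_cast
    have := Nat.le_ceil (4 * K * (Real.log n) ^ κ)
    linarith
  refine ⟨hn16, Kn, by omega, hKn1, ?_⟩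
  intro α hα1 hα2
  have hα0 : 0 < α := by linarith
  have hlamb : 1 ≤ lam ^ α / b := by
    rw [le_div_iff₀ hb0, one_mul]
    refine hb2.trans ?_
    -- `n ≤ lam ^ (1 + η)`
    have h1 : lam ^ (1 + η) ≤ lam ^ α := Real.rpow_le_rpow_of_exponent_le hlam1.le hα1
    refine le_trans ?_ h1
    rw [Real.rpow_add hlam0, Real.rpow_one]
    have h2 : (n : ℝ) ≤ 2 * lam := by linarith
    have h3 : (2 : ℝ) ≤ lam ^ η := by
      have h4 : Real.exp 1 ≤ lam ^ η := by
        rw [← Real.log_le_log_iff (Real.exp_pos _) (by positivity), Real.log_exp,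
          Real.log_rpow hlam0]
        have h5 : Real.log n / 2 ≤ Real.log lam := by
          have h6 : Real.log n ≤ Real.log (lam ^ 2) := by
            apply Real.log_le_log (by linarith)
            have h7 : (n : ℝ) / 2 ≤ lam := by linarith
            have h8 : (n : ℝ) / 2 * (n / 2) ≤ lam * lam := by gcongr
            have h9 : (n : ℝ) * 4 ≤ n * n := by gcongr; linarith
            have h10 : lam ^ 2 = lam * lam := by ring
            rw [h10]
            linarith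
          rw [Real.log_pow] at h6
          push_cast at h6
          linarith
        have h6 := mul_le_mul_of_nonneg_left h5 hη.le
        linarith
      have := Real.exp_one_gt_d9
      linarith
    calc (n : ℝ) ≤ 2 * lam := h2
      _ = lam * 2 := by ring
      _ ≤ _ := by gcongr
  have hlogb0 : 0 ≤ Real.logb 2 (lam ^ α / b) := Real.logb_nonneg (by norm_num) hlamb
  have hjd : gpIdx n α = ⌊Real.logb 2 (lam ^ α / b)⌋₊ := rfl
  rw [hjd]
  set j := ⌊Real.logb 2 (lam ^ α / b)⌋₊ with hj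
  have hj1 : (j : ℝ) ≤ Real.logb 2 (lam ^ α / b) := Nat.floor_le hlogb0
  have hj2 : Real.logb 2 (lam ^ α / b) < j + 1 := Nat.lt_floor_add_one _
  have hH1 : (2 : ℝ) ^ j * b ≤ lam ^ α := by
    rw [← le_div_iff₀ hb0]
    rw [Real.le_logb_iff_rpow_le (by norm_num) (by positivity), Real.rpow_natCast] at hj1
    exact hj1
  have hH2 : lam ^ α ≤ 2 * (2 ^ j * b) := by
    rw [Real.logb_lt_iff_lt_rpow (by norm_num) (by positivity), div_lt_iff₀ hb0] at hj2
    have h1 : (2 : ℝ) ^ ((j : ℝ) + 1) = 2 * 2 ^ j := by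
      rw [Real.rpow_add (by norm_num), Real.rpow_natCast, Real.rpow_one]
      ring
    rw [h1] at hj2
    linarith
  have hHX : 2 ^ j * b ≤ 2 ^ n := by
    have h1 : (2 : ℝ) ^ j * b ≤ 2 ^ n := by
      refine hH1.trans ?_
      have h2 : lam ≤ n := by
        have h3 : lam ≤ ((n : ℝ) - 1) * 1 := by
          rw [hlam]
          apply mul_le_mul_of_nonneg_left _ (by linarith)
          linarith
        linarith
      have h3 : lam ^ α ≤ (n : ℝ) ^ A := by
        calc lam ^ α ≤ (n : ℝ) ^ α := Real.rpow_le_rpow hlam0.le h2 hα0.le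
          _ ≤ (n : ℝ) ^ (A : ℝ) := Real.rpow_le_rpow_of_exponent_le (by linarith) hα2
          _ = _ := Real.rpow_natCast _ _
      have h4 : (n : ℝ) ^ (A + 3) ≤ 2 ^ n := by
        rw [div_lt_one (by positivity)] at f2
        exact f2.le
      have h5 : (n : ℝ) ^ A ≤ (n : ℝ) ^ (A + 3) := pow_le_pow_right₀ (by linarith) (by omega)
      linarith
    exact_mod_cast h1
  have hjX : j < 2 ^ n := by
    have h1 : j < 2 ^ j := Nat.lt_two_pow_self
    have h2 : 2 ^ j ≤ 2 ^ j * b := Nat.le_mul_of_pos_right _ hb0'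
    omega
  have hsub : (Ioc (2 ^ (n - 1)) (2 ^ n)).filter (QN K κ α) ⊆ badPrimes (2 ^ n) Kn (2 ^ j * b) := by
    intro p hp
    rw [mem_filter, mem_Ioc] at hp
    obtain ⟨⟨hp1, hp2⟩, hpp, y, hy1, hy2⟩ := hp
    have hp0 : (0 : ℝ) < p := by exact_mod_cast hpp.pos
    have hlp1 : lam ≤ Real.log p := by
      have h3 : Real.log ((2 : ℝ) ^ (n - 1)) ≤ Real.log p := by
        apply Real.log_le_log (by positivity)
        exact_mod_cast hp1.le
      rw [Real.log_pow] at h3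
      have h4 : ((n - 1 : ℕ) : ℝ) = n - 1 := by
        rw [Nat.cast_sub (by omega)]; norm_num
      rw [h4] at h3
      exact h3
    have hlp2 : Real.log p ≤ n * Real.log 2 := by
      have h3 : Real.log p ≤ Real.log ((2 : ℝ) ^ n) := by
        apply Real.log_le_log hp0
        exact_mod_cast hp2
      rwa [Real.log_pow] at h3
    have hlp0 : 0 < Real.log p := by linarith
    have hlp3 : Real.log p ≤ n := by
      have h1 : (n : ℝ) * Real.log 2 ≤ n * 1 := by gcongr; linarith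
      linarith
    have hllp : Real.log (Real.log p) ≤ Real.log n := Real.log_le_log hlp0 hlp3
    have hllp0 : 0 ≤ Real.log (Real.log p) := Real.log_nonneg (by linarith)
    have hH3 : ((2 ^ j * b : ℕ) : ℝ) ≤ (Real.log p) ^ α := by
      push_cast
      exact hH1.trans (Real.rpow_le_rpow hlam0.le hlp1 hα0.le)
    have hdist : |(y : ℝ) - p| ≤ Kn * ((2 ^ j * b : ℕ) : ℝ) := by
      have h1 : (Real.log p) ^ α ≤ 4 * (2 ^ j * b) := by
        calc (Real.log p) ^ α ≤ ((n : ℝ) * Real.log 2) ^ α :=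
              Real.rpow_le_rpow hlp0.le hlp2 hα0.le
          _ ≤ 2 * lam ^ α := pow_ratio n A α hn16 (by linarith) hα0.le hα2
          _ ≤ _ := by linarith
      have h2 : (Real.log (Real.log p)) ^ κ ≤ (Real.log n) ^ κ := Real.rpow_le_rpow hllp0 hllp hκ
      have h3 : 0 ≤ (Real.log (Real.log p)) ^ κ := Real.rpow_nonneg hllp0 κ
      calc |(y : ℝ) - p| ≤ K * (Real.log (Real.log p)) ^ κ * (Real.log p) ^ α := hy1
        _ ≤ K * (Real.log n) ^ κ * (4 * (2 ^ j * b)) := by gcongr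
        _ = (4 * K * (Real.log n) ^ κ) * (2 ^ j * b) := by ring
        _ ≤ Kn * (2 ^ j * b) := by gcongr
        _ = _ := by push_cast; ring
    rw [abs_le] at hdist
    unfold badPrimes
    rw [mem_filter, mem_Icc]
    refine ⟨⟨hpp.pos, hp2⟩, hpp, y, ?_, ?_, ?_⟩
    · have h1 : (p : ℝ) ≤ y + Kn * ((2 ^ j * b : ℕ) : ℝ) := by linarith [hdist.1]
      exact_mod_cast h1
    · have h1 : (y : ℝ) ≤ p + Kn * ((2 ^ j * b : ℕ) : ℝ) := by linarith [hdist.2]
      exact_mod_cast h1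
    · intro r hr1 hr2
      apply hy2 r hr1
      have h1 : (r : ℝ) ≤ y + ((2 ^ j * b : ℕ) : ℝ) := by exact_mod_cast hr2
      linarith
  exact ⟨hlogb0, hHX, hjX, hsub⟩

lemma gpIdx_ne (n : ℕ) (α β : ℝ) (hn : 16 ≤ n) (hαβ : 2 / Real.log n ≤ β - α)
    (h0 : 0 ≤ Real.logb 2
      ((((n : ℝ) - 1) * Real.log 2) ^ α / ⌈Real.log ((2 ^ n : ℕ) : ℝ)⌉₊)) :
    gpIdx n α < gpIdx n β := by
  have hnr : (16 : ℝ) ≤ n := by exact_mod_cast hn
  have hl2a : (0.69 : ℝ) < Real.log 2 := by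
    have := Real.log_two_gt_d9
    linarith
  have hl2b : Real.log 2 < 0.7 := by
    have := Real.log_two_lt_d9
    linarith
  have hl2 : 0 < Real.log 2 := by linarith
  have hlog2n : Real.log ((2 ^ n : ℕ) : ℝ) = n * Real.log 2 := by
    push_cast
    rw [Real.log_pow]
  unfold gpIdx
  set b := ⌈Real.log ((2 ^ n : ℕ) : ℝ)⌉₊ with hb
  set lam := ((n : ℝ) - 1) * Real.log 2 with hlam
  have hb1 : (n : ℝ) * Real.log 2 ≤ b := by
    rw [← hlog2n]
    exact Nat.le_ceil _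
  have hb0 : (0 : ℝ) < b := lt_of_lt_of_le (by positivity) hb1
  have hlamlow : ((n : ℝ) - 1) * 0.69 ≤ lam := by
    rw [hlam]
    apply mul_le_mul_of_nonneg_left hl2a.le
    linarith
  have hlam0 : 0 < lam := by linarith
  have hlogn1 : (1 : ℝ) ≤ Real.log n := by
    rw [Real.le_log_iff_exp_le (by linarith)]
    have := Real.exp_one_lt_d9
    linarith
  have h5 : Real.log n / 2 ≤ Real.log lam := by
    have h6 : Real.log n ≤ Real.log (lam ^ 2) := by
      apply Real.log_le_log (by linarith)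
      have h7 : (n : ℝ) / 2 ≤ lam := by linarith
      have h8 : (n : ℝ) / 2 * (n / 2) ≤ lam * lam := by gcongr
      have h9 : (n : ℝ) * 4 ≤ n * n := by gcongr; linarith
      have h10 : lam ^ 2 = lam * lam := by ring
      rw [h10]
      linarith
    rw [Real.log_pow] at h6
    push_cast at h6
    linarith
  have hkey : ∀ x : ℝ, Real.logb 2 (lam ^ x / b) =
      (x * Real.log lam - Real.log b) / Real.log 2 := by
    intro x
    unfold Real.logb
    rw [Real.log_div (by positivity) hb0.ne', Real.log_rpow hlam0]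
  have hdiff : Real.logb 2 (lam ^ α / b) + 1 ≤ Real.logb 2 (lam ^ β / b) := by
    rw [hkey, hkey]
    have h1 : (1 : ℝ) ≤ (β - α) * Real.log lam := by
      have h2 : 2 / Real.log n * (Real.log n / 2) ≤ (β - α) * Real.log lam := by
        have h3 : 0 < 2 / Real.log n := by positivity
        have h4 : 0 ≤ Real.log n / 2 := by positivity
        exact mul_le_mul hαβ h5 h4 (h3.le.trans hαβ)
      have h3 : 2 / Real.log n * (Real.log n / 2) = 1 := by
        field_simp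
      linarith
    rw [div_add_one hl2.ne', div_le_div_iff_of_pos_right hl2]
    have h2 : (β - α) * Real.log lam = β * Real.log lam - α * Real.log lam := by ring
    linarith
  have hfl : ⌊Real.logb 2 (lam ^ α / b)⌋₊ + 1 = ⌊Real.logb 2 (lam ^ α / b) + 1⌋₊ := by
    rw [Nat.floor_add_one h0]
  have h9 : ⌊Real.logb 2 (lam ^ α / b) + 1⌋₊ ≤ ⌊Real.logb 2 (lam ^ β / b)⌋₊ :=
    Nat.floor_le_floor hdiff
  omega

open Classical in
/-- **Packing of separated exponents (gaps).** PROOF. All the work is in the proof of `level_gap`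
(file `MaxExpoA`; copy it): with `X = 2 ^ n`, `b = ⌈log X⌉`, `lam = (n - 1) log 2`,
`Kn = ⌈4 K (log n) ^ κ⌉ + 1`, for every `α ∈ [1 + η, A]` the index
`j α = ⌊logb 2 (lam ^ α / b)⌋₊` satisfies `2 ^ (j α) b ≤ X`, `j α < X` and
`(Ioc (2 ^ (n - 1)) (2 ^ n)).filter (QN K κ α) ⊆ badPrimes X Kn (2 ^ (j α) * b)`.
For distinct `α < β` in `S`: `logb 2 (lam ^ β / b) - logb 2 (lam ^ α / b) =
(β - α) log lam / log 2 ≥ 1` because `log lam ≥ (log n) / 2` and `β - α ≥ 2 / log n`; so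
`α ↦ j α` is injective on `S` and the sum is at most `∑_{j} (badPrimes X Kn (2 ^ j b)).card ≤
C Kn π(X)` (`sum_bad`, file `ScaleC`), with `Kn ≤ (4 K + 2) (log n) ^ κ`. -/
theorem gap_packing (K κ η : ℝ) (A : ℕ) (hK : 0 < K) (hκ : 0 ≤ κ) (hη : 0 < η) :
    ∃ B : ℝ, 0 ≤ B ∧ ∃ n₀ : ℕ, ∀ n : ℕ, n₀ ≤ n → ∀ S : Finset ℝ,
      (∀ α ∈ S, 1 + η ≤ α ∧ α ≤ A) → Sep (2 / Real.log n) S →
      ∑ α ∈ S, (((Ioc (2 ^ (n - 1)) (2 ^ n)).filter (QN K κ α)).card : ℝ) ≤
        B * (Real.log n) ^ κ * Nat.primeCounting (2 ^ n) := by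
  obtain ⟨n₁, h₁⟩ := gap_core K κ η A hK hκ hη
  obtain ⟨C, hC, X₀, hX₀⟩ := sum_bad
  refine ⟨C * (4 * K + 2), by positivity, max n₁ X₀, ?_⟩
  intro n hn S hS hsep
  obtain ⟨hn16, Kn, hKn1, hKn2, hcore⟩ := h₁ n (le_trans (le_max_left _ _) hn)
  have hnX : X₀ ≤ 2 ^ n := (le_trans (le_max_right _ _) hn).trans (Nat.lt_two_pow_self).le
  have hsb := hX₀ (2 ^ n) hnX Kn hKn1
  have hinj : Set.InjOn (gpIdx n) (S : Set ℝ) := by
    intro α hα β hβ hab
    by_contra hne
    have hsp := hsep α hα β hβ hne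
    rcases lt_or_gt_of_ne hne with h | h
    · rw [abs_of_neg (by linarith)] at hsp
      have h3 := gpIdx_ne n α β hn16 (by linarith) (hcore α (hS α hα).1 (hS α hα).2).1
      omega
    · rw [abs_of_pos (by linarith)] at hsp
      have h3 := gpIdx_ne n β α hn16 (by linarith) (hcore β (hS β hβ).1 (hS β hβ).2).1
      omega
  calc ∑ α ∈ S, (((Ioc (2 ^ (n - 1)) (2 ^ n)).filter (QN K κ α)).card : ℝ)
      ≤ ∑ α ∈ S, ((badPrimes (2 ^ n) Kn
          (2 ^ gpIdx n α * ⌈Real.log ((2 ^ n : ℕ) : ℝ)⌉₊)).card : ℝ) := by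
        apply sum_le_sum
        intro α hα
        exact_mod_cast card_le_card (hcore α (hS α hα).1 (hS α hα).2).2.2.2
    _ = ∑ j ∈ S.image (gpIdx n), ((badPrimes (2 ^ n) Kn
          (2 ^ j * ⌈Real.log ((2 ^ n : ℕ) : ℝ)⌉₊)).card : ℝ) := by
        rw [sum_image hinj]
    _ ≤ ∑ j ∈ (range (2 ^ n)).filter (fun j => 2 ^ j * ⌈Real.log ((2 ^ n : ℕ) : ℝ)⌉₊ ≤ 2 ^ n),
          ((badPrimes (2 ^ n) Kn (2 ^ j * ⌈Real.log ((2 ^ n : ℕ) : ℝ)⌉₊)).card : ℝ) := by
        apply sum_le_sum_of_subset_of_nonneg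
        · intro j hj
          rw [mem_image] at hj
          obtain ⟨α, hα, rfl⟩ := hj
          obtain ⟨-, g2, g3, -⟩ := hcore α (hS α hα).1 (hS α hα).2
          rw [mem_filter, mem_range]
          exact ⟨g3, g2⟩
        · intro j _ _
          exact Nat.cast_nonneg _
    _ ≤ C * Kn * Nat.primeCounting (2 ^ n) := hsb
    _ ≤ C * ((4 * K + 2) * (Real.log n) ^ κ) * Nat.primeCounting (2 ^ n) := by gcongr
    _ = _ := by ring

end Pool.Agent.H.MP_711652_nt
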