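import Mathlib
import Pool.Agent.H.MP_711652_nt.RateDefs
import Pool.Agent.H.MP_711652_nt.ExpoD

set_option autoImplicit false

namespace Pool.Agent.H.MP_711652_nt

open Finset Filter Topology

lemma wt_nonneg (Q : ℝ → ℕ → Prop) (n : ℕ) (α : ℝ) : 0 ≤ wt Q n α := by
  unfold wt
  positivity

/-- PROOF. `π(2 ^ n) ≤ C₂ 2 ^ n / n` for large `n` from `basic_estimates` at `X = 2 ^ n`
(`⌈log X⌉ ≥ n log 2 ≥ n / 2`), finitely many `n` are absorbed in the constant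
(`n * π(2 ^ n) / 2 ^ n ≤ n`). -/
lemma pi_pow_le : ∃ W : ℝ, 0 ≤ W ∧ ∀ n : ℕ,
    (n : ℝ) * Nat.primeCounting (2 ^ n) / 2 ^ n ≤ W := by
  obtain ⟨c, C, hc, hC, X₀, hX₀⟩ := basic_estimates
  refine ⟨2 * C + 2 * X₀, by positivity, ?_⟩
  intro n
  have h2n : (0 : ℝ) < 2 ^ n := by positivity
  have hX0 : (0 : ℝ) ≤ X₀ := Nat.cast_nonneg _
  by_cases hn : X₀ ≤ 2 ^ n
  · obtain ⟨h1, _, _, h4, _⟩ := hX₀ (2 ^ n) hn
    rcases Nat.eq_zero_or_pos n with rfl | hnpos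
    · simp only [Nat.cast_zero, zero_mul, zero_div]
      positivity
    have hnp : (0 : ℝ) < n := by exact_mod_cast hnpos
    have h5 : (n : ℝ) / 2 ≤ (⌈Real.log ((2 ^ n : ℕ) : ℝ)⌉₊ : ℝ) := by
      refine le_trans ?_ (Nat.le_ceil _)
      push_cast
      rw [Real.log_pow]
      have := Real.log_two_gt_d9
      nlinarith
    have h6 : (0 : ℝ) < (⌈Real.log ((2 ^ n : ℕ) : ℝ)⌉₊ : ℝ) := lt_of_lt_of_le (by positivity) h5
    rw [div_le_iff₀ h2n]
    have h7 : ((2 ^ n : ℕ) : ℝ) = 2 ^ n := by push_cast; rfl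
    have h8 : (n : ℝ) * Nat.primeCounting (2 ^ n) ≤ n * (C * ((2 ^ n : ℕ) : ℝ) /
        (⌈Real.log ((2 ^ n : ℕ) : ℝ)⌉₊ : ℝ)) := mul_le_mul_of_nonneg_left h4 hnp.le
    refine h8.trans ?_
    have h9 : C * ((2 ^ n : ℕ) : ℝ) / (⌈Real.log ((2 ^ n : ℕ) : ℝ)⌉₊ : ℝ) ≤
        C * ((2 ^ n : ℕ) : ℝ) / (n / 2) :=
      div_le_div_of_nonneg_left (by positivity) (by positivity) h5
    refine (mul_le_mul_of_nonneg_left h9 hnp.le).trans ?_
    rw [h7]
    have h10 : (n : ℝ) * (C * 2 ^ n / (n / 2)) = 2 * C * 2 ^ n := by field_simp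
    rw [h10]
    nlinarith
  · have h1 : n < X₀ := (Nat.lt_two_pow_self).trans (not_le.1 hn)
    have h2 : (Nat.primeCounting (2 ^ n) : ℝ) ≤ 2 * 2 ^ n := by
      have h3 : Nat.primeCounting (2 ^ n) ≤ 2 ^ n + 1 := Nat.count_le _
      have h4 : 1 ≤ 2 ^ n := Nat.one_le_two_pow
      have h5 : Nat.primeCounting (2 ^ n) ≤ 2 * 2 ^ n := by omega
      exact_mod_cast h5
    rw [div_le_iff₀ h2n]
    have h3 : (n : ℝ) ≤ X₀ := by exact_mod_cast h1.le
    have h4 : (0 : ℝ) ≤ n := Nat.cast_nonneg _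
    calc (n : ℝ) * Nat.primeCounting (2 ^ n) ≤ X₀ * (2 * 2 ^ n) := by gcongr
      _ ≤ (2 * C + 2 * X₀) * 2 ^ n := by nlinarith

/-- PROOF. `card_block_prime` (file `ExpoD`) and `pi_pow_le`. -/
lemma wt_le : ∃ W : ℝ, 0 ≤ W ∧ ∀ (Q : ℝ → ℕ → Prop), (∀ α p, Q α p → p.Prime) →
    ∀ (n : ℕ) (α : ℝ), wt Q n α ≤ W := by
  obtain ⟨W, hW, hW2⟩ := pi_pow_le
  refine ⟨W, hW, ?_⟩
  intro Q hQ n α
  classical
  refine le_trans ?_ (hW2 n)
  unfold wt
  have h1 := card_block_prime (Q α) (hQ α) n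
  have h2 : (((Ioc (2 ^ (n - 1)) (2 ^ n)).filter (Q α)).card : ℝ) ≤
      (Nat.primeCounting (2 ^ n) : ℝ) := by
    have h3 : ((Ioc (2 ^ (n - 1)) (2 ^ n)).filter (Q α)).card ≤ Nat.primeCounting (2 ^ n) := by
      convert h1
    exact_mod_cast h3
  have h4 : (0 : ℝ) ≤ n := Nat.cast_nonneg _
  have h5 : (0 : ℝ) < 2 ^ n := by positivity
  rw [div_le_div_iff_of_pos_right h5]
  exact mul_le_mul_of_nonneg_left h2 h4

open Classical in
/-- PROOF. `dyadic_sum` and `block_sum_le` (file `ExpoD`) with `B` equal to the cardinality: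
`2 * card / 2 ^ n = 2 * (wt Q n α / n)` for `n ≥ 1`. -/
lemma prime_sum_le (Q : ℝ → ℕ → Prop) (hQ : ∀ α p, Q α p → p.Prime) (α : ℝ) (x N : ℕ)
    (hx : x ≤ 2 ^ N) :
    ∑ p ∈ (Icc 1 x).filter (Q α), 1 / (p : ℝ) ≤ 2 * ∑ n ∈ Icc 1 N, wt Q n α / n := by
  have h1 := dyadic_sum (Q α) (fun p hp => (hQ α p hp).two_le) x N hx
  refine h1.trans ?_
  rw [mul_sum]
  apply sum_le_sum
  intro n hn
  rw [mem_Icc] at hn
  refine (block_sum_le (Q α) n hn.1 _ le_rfl).trans (le_of_eq ?_)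
  unfold wt
  have h2 : (n : ℝ) ≠ 0 := by
    have := hn.1
    positivity
  have h3 : (2 : ℝ) ^ n ≠ 0 := by positivity
  field_simp

open Classical in
/-- From the levels to the primes, with a rate. PROOF. For `x ≥ 2` let `N = max 3 (clog 2 x)`:
`x ≤ 2 ^ N` and `2 ^ (clog 2 x) < 2 x`, so for large `x`, `N log 2 ≤ log (2 x) ≤ 2 log x`,
`log N ≤ log log x + 2 ≤ 2 log log x`. So the sum is at most `2 D (2 log log x) ^ (1 - β)`
(`prime_sum_le`), and the expression is at most `4 D (log log x) ^ (β₀ - β) → 0`. It is `≥ 0`. -/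
lemma rate_primes (Q : ℝ → ℕ → Prop) (hQ : ∀ α p, Q α p → p.Prime) (α D β β₀ : ℝ) (hD : 0 ≤ D)
    (hβ : β < 1) (hββ : β₀ < β)
    (h : ∀ N : ℕ, 3 ≤ N → ∑ n ∈ Icc 1 N, wt Q n α / n ≤ D * (Real.log N) ^ (1 - β)) :
    Tendsto (fun x : ℕ => (∑ p ∈ (Icc 1 x).filter (Q α), 1 / (p : ℝ)) /
      Real.log (Real.log x) * (Real.log (Real.log x)) ^ β₀) atTop (𝓝 0) := by
  have hnn : ∀ x : ℕ, 0 ≤ ∑ p ∈ (Icc 1 x).filter (Q α), 1 / (p : ℝ) :=
    fun x => sum_nonneg fun _ _ => by positivity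
  have hLL : Tendsto (fun x : ℕ => Real.log (Real.log x)) atTop atTop := tendsto_loglog_nat
  have hlim : Tendsto (fun x : ℕ => 2 * D * 2 ^ (1 - β) *
      (Real.log (Real.log x)) ^ (-(β - β₀))) atTop (𝓝 0) := by
    have h1 := (tendsto_rpow_neg_atTop (sub_pos.2 hββ)).comp hLL
    have h2 := h1.const_mul (2 * D * 2 ^ (1 - β))
    rw [mul_zero] at h2
    exact h2
  refine squeeze_zero' ?_ ?_ hlim
  · filter_upwards [hLL.eventually_ge_atTop 1] with x hx
    have := hnn x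
    positivity
  · filter_upwards [hLL.eventually_ge_atTop 1, tendsto_log_nat.eventually_ge_atTop 3] with x hx hx3
    set L := Real.log (Real.log x) with hL
    set N := max 3 (Nat.clog 2 x) with hN
    have hL0 : 0 < L := by linarith
    have hxpos : (0 : ℝ) < x := by
      rcases Nat.eq_zero_or_pos x with rfl | h
      · simp at hx3
        linarith
      · exact_mod_cast h
    have hx1 : 1 < x := by
      by_contra hcon
      have h1 : (x : ℝ) ≤ 1 := by exact_mod_cast not_lt.1 hcon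
      have h2 := Real.log_nonpos hxpos.le h1
      linarith
    have h1 : x ≤ 2 ^ N := (Nat.le_pow_clog (by norm_num) x).trans
      (Nat.pow_le_pow_right (by norm_num) (le_max_right _ _))
    have h2 := (prime_sum_le Q hQ α x N h1).trans
      (mul_le_mul_of_nonneg_left (h N (le_max_left _ _)) (by norm_num))
    have hclog : (Nat.clog 2 x : ℝ) ≤ 2 * Real.log x + 1 := by
      have h3 : 2 ^ (Nat.clog 2 x - 1) < x := by
        have := Nat.pow_pred_clog_lt_self (b := 2) (by norm_num) hx1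
        simpa using this
      have h4 : ((2 : ℝ) ^ (Nat.clog 2 x - 1)) < x := by exact_mod_cast h3
      have h5 := Real.log_lt_log (by positivity) h4
      rw [Real.log_pow] at h5
      have h6 := Real.log_two_gt_d9
      have h7 : (Nat.clog 2 x : ℝ) ≤ ((Nat.clog 2 x - 1 : ℕ) : ℝ) + 1 := by
        have : Nat.clog 2 x ≤ (Nat.clog 2 x - 1) + 1 := by omega
        exact_mod_cast this
      have h8 : (0 : ℝ) ≤ ((Nat.clog 2 x - 1 : ℕ) : ℝ) := Nat.cast_nonneg _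
      nlinarith
    have hNle : (N : ℝ) ≤ (Real.log x) ^ 2 := by
      rw [hN]
      push_cast
      apply max_le
      · nlinarith
      · nlinarith
    have hN3 : (3 : ℝ) ≤ N := by exact_mod_cast le_max_left 3 (Nat.clog 2 x)
    have hlogN : Real.log N ≤ 2 * L := by
      have h3 := Real.log_le_log (by linarith) hNle
      rw [Real.log_pow] at h3
      exact_mod_cast h3
    have hlogN0 : 0 ≤ Real.log N := Real.log_nonneg (by linarith)
    have h3 : (Real.log N) ^ (1 - β) ≤ (2 * L) ^ (1 - β) :=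
      Real.rpow_le_rpow hlogN0 hlogN (by linarith)
    rw [Real.mul_rpow (by norm_num) hL0.le] at h3
    have h4 : ∑ p ∈ (Icc 1 x).filter (Q α), 1 / (p : ℝ) ≤ 2 * D * 2 ^ (1 - β) * L ^ (1 - β) := by
      refine h2.trans ?_
      calc 2 * (D * Real.log N ^ (1 - β)) ≤ 2 * (D * (2 ^ (1 - β) * L ^ (1 - β))) := by gcongr
        _ = 2 * D * 2 ^ (1 - β) * L ^ (1 - β) := by ring
    have h5 : (∑ p ∈ (Icc 1 x).filter (Q α), 1 / (p : ℝ)) / L * L ^ β₀ ≤
        (2 * D * 2 ^ (1 - β) * L ^ (1 - β)) / L * L ^ β₀ := by gcongr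
    refine h5.trans (le_of_eq ?_)
    have h6 : L ^ (-(β - β₀)) = L ^ (1 - β) / L * L ^ β₀ := by
      have h7 : -(β - β₀) = (1 - β) - 1 + β₀ := by ring
      rw [h7, Real.rpow_add hL0, Real.rpow_sub hL0, Real.rpow_one]
    rw [h6]
    ring

open Classical in
/-- Frequently version. PROOF. For such an `N`, take `x = 2 ^ N`: the sum is at most
`2 τ log N` by `prime_sum_le`, and `log log x = log (N log 2) ≥ (log N) / 2` for large `N`. -/
lemma freq_primes (Q : ℝ → ℕ → Prop) (hQ : ∀ α p, Q α p → p.Prime) (α τ : ℝ) (hτ : 0 < τ)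
    (h : ∃ᶠ N : ℕ in atTop, ∑ n ∈ Icc 1 N, wt Q n α / n < τ * Real.log N) :
    ∃ᶠ x : ℕ in atTop, (∑ p ∈ (Icc 1 x).filter (Q α), 1 / (p : ℝ)) /
      Real.log (Real.log x) < 5 * τ := by
  have hpow : Tendsto (fun N : ℕ => 2 ^ N) atTop atTop :=
    tendsto_pow_atTop_atTop_of_one_lt (by norm_num)
  refine hpow.frequently ?_
  refine (h.and_eventually (eventually_ge_atTop 4)).mono ?_
  rintro N ⟨hN, hN4⟩
  have h1 := prime_sum_le Q hQ α (2 ^ N) N le_rfl
  have hN4' : (4 : ℝ) ≤ N := by exact_mod_cast hN4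
  have hlogN : 0 < Real.log N := Real.log_pos (by linarith)
  have hlog : Real.log (((2 ^ N : ℕ)) : ℝ) = N * Real.log 2 := by
    push_cast
    rw [Real.log_pow]
  have h2 : Real.log N / 2 ≤ Real.log (Real.log (((2 ^ N : ℕ)) : ℝ)) := by
    rw [hlog]
    have h3 : Real.log N / 2 = Real.log (Real.sqrt N) := by
      rw [Real.log_sqrt (by linarith)]
    rw [h3]
    apply Real.log_le_log (Real.sqrt_pos.2 (by linarith))
    have h4 := Real.log_two_gt_d9
    have h5 : Real.sqrt N ≤ N / 2 := by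
      rw [Real.sqrt_le_left (by linarith)]
      nlinarith
    nlinarith
  have h6 : 0 < Real.log (Real.log (((2 ^ N : ℕ)) : ℝ)) := lt_of_lt_of_le (by linarith) h2
  rw [div_lt_iff₀ h6]
  calc ∑ p ∈ (Icc 1 (2 ^ N)).filter (Q α), 1 / (p : ℝ) ≤ 2 * ∑ n ∈ Icc 1 N, wt Q n α / n := h1
    _ < 2 * (τ * Real.log N) := by linarith
    _ ≤ 5 * τ * (Real.log N / 2) := by nlinarith [mul_pos hτ hlogN]
    _ ≤ 5 * τ * Real.log (Real.log (((2 ^ N : ℕ)) : ℝ)) := by gcongr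

end Pool.Agent.H.MP_711652_nt
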