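import Mathlib
import Pool.Agent.H.MP_711652_nt.RateDefs

set_option autoImplicit false

namespace Pool.Agent.H.MP_711652_nt

open Finset Filter Topology

/-- PROOF. Monotonicity of the quantifiers, same `μ` (`μ * h ≥ 0`). -/
lemma LRs_mono (ε ε' a a' b b' : ℝ) (p : ℕ) (hε : ε' ≤ ε) (ha : a' ≤ a) (hb : b ≤ b')
    (h : LRs ε' a' b' p) : LRs ε a b p := by
  classical
  obtain ⟨μ, hμ, h⟩ := h
  refine ⟨μ, hμ, fun r h1 h2 => ?_⟩
  have h3 := h r (ha.trans h1) (h2.trans hb)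
  have hr : (0 : ℝ) ≤ 2 * r + 1 := by positivity
  refine le_trans ?_ (h3.trans (mul_le_mul_of_nonneg_right hε hr))
  norm_cast
  apply Finset.card_le_card
  intro y hy
  rw [mem_filter] at hy ⊢
  obtain ⟨hy1, k, k1, k2, k3⟩ := hy
  refine ⟨hy1, k, ha.trans k1, k2.trans hb, lt_of_le_of_lt ?_ k3⟩
  exact mul_le_mul_of_nonneg_right hε (by positivity)

/-- PROOF. `LRs_mono`; for `log log p ≥ 1` and `γ ≤ γ'`: `(log log p) ^ γ ≤ (log log p) ^ γ'`.
Take `p₀` with `log log p ≥ 1` for `p ≥ p₀` (`tendsto_loglog_nat`, file `ExpoD`). -/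
lemma QS_mono (ε ε' γ γ' : ℝ) (hε : ε' ≤ ε) (hγ : γ ≤ γ') : ∃ p₀ : ℕ, ∀ p : ℕ, p₀ ≤ p →
    ∀ α : ℝ, QS ε γ α p → QS ε' γ' α p := by
  obtain ⟨p₀, hp₀⟩ := eventually_atTop.1 (tendsto_loglog_nat.eventually_ge_atTop 1)
  refine ⟨p₀, fun p hp α h => ⟨h.1, fun hh => h.2 ?_⟩⟩
  have h1 : 1 ≤ Real.log (Real.log p) := hp₀ p hp
  have h2 : (Real.log (Real.log p)) ^ γ ≤ (Real.log (Real.log p)) ^ γ' :=
    Real.rpow_le_rpow_of_exponent_le h1 hγ
  have h3 : 0 ≤ (Real.log p) ^ α := Real.rpow_nonneg (Real.log_natCast_nonneg p) _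
  refine LRs_mono ε ε' _ _ _ _ p hε ?_ ?_ hh
  · exact mul_le_mul_of_nonneg_left (Real.exp_le_exp.2 (neg_le_neg h2)) h3
  · exact mul_le_mul_of_nonneg_left (Real.exp_le_exp.2 h2) h3

/-- PROOF. For `log log p ≥ 1`: `K (log log p) ^ κ ≤ K' (log log p) ^ κ'` (`K ≤ K'`, `0 ≤ K'`). -/
lemma QN_mono (K K' κ κ' : ℝ) (hK : K ≤ K') (hK' : 0 ≤ K') (hκ : κ ≤ κ') : ∃ p₀ : ℕ, ∀ p : ℕ,
    p₀ ≤ p → ∀ α : ℝ, QN K κ α p → QN K' κ' α p := by
  obtain ⟨p₀, hp₀⟩ := eventually_atTop.1 (tendsto_loglog_nat.eventually_ge_atTop 1)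
  refine ⟨p₀, fun p hp α h => ?_⟩
  obtain ⟨hpr, y, hy, hq⟩ := h
  refine ⟨hpr, y, hy.trans ?_, hq⟩
  have h1 : 1 ≤ Real.log (Real.log p) := hp₀ p hp
  have h2 : (Real.log (Real.log p)) ^ κ ≤ (Real.log (Real.log p)) ^ κ' :=
    Real.rpow_le_rpow_of_exponent_le h1 hκ
  have h3 : 0 ≤ (Real.log p) ^ α := Real.rpow_nonneg (Real.log_natCast_nonneg p) _
  have h4 : 0 ≤ (Real.log (Real.log p)) ^ κ := Real.rpow_nonneg (by linarith) _
  refine mul_le_mul_of_nonneg_right ?_ h3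
  exact (mul_le_mul_of_nonneg_right hK h4).trans (mul_le_mul_of_nonneg_left h2 hK')

open Classical in
/-- The comparison of the sums. -/
lemma rateC2_sum_le (Q Q' : ℕ → Prop) (p₀ : ℕ) (h : ∀ p, p₀ ≤ p → Q p → Q' p) (x : ℕ) :
    ∑ p ∈ (Icc 1 x).filter Q, 1 / (p : ℝ) ≤
      ∑ p ∈ (Icc 1 x).filter Q', 1 / (p : ℝ) + ∑ p ∈ Icc 1 p₀, 1 / (p : ℝ) := by
  have h1 : (Icc 1 x).filter Q ⊆ (Icc 1 x).filter Q' ∪ Icc 1 p₀ := by
    intro p hp
    rw [mem_filter, mem_Icc] at hp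
    rw [mem_union, mem_filter, mem_Icc, mem_Icc]
    by_cases hp0 : p₀ ≤ p
    · exact Or.inl ⟨hp.1, h p hp0 hp.2⟩
    · exact Or.inr ⟨hp.1.1, (not_le.1 hp0).le⟩
  calc _ ≤ ∑ p ∈ (Icc 1 x).filter Q' ∪ Icc 1 p₀, 1 / (p : ℝ) :=
        Finset.sum_le_sum_of_subset_of_nonneg h1 (fun p _ _ => by positivity)
    _ ≤ _ := by
        rw [← Finset.sum_union_inter]
        exact le_add_of_nonneg_right (Finset.sum_nonneg fun p _ => by positivity)

open Classical in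
/-- Changing finitely many primes does not matter. PROOF. The first sum is at most the second plus
`D = ∑_{p < p₀} 1 / p`, and `D / log log x * (log log x) ^ β → 0` as `β < 1`; squeeze. -/
lemma tendsto_compare (Q Q' : ℕ → Prop) (p₀ : ℕ) (h : ∀ p, p₀ ≤ p → Q p → Q' p) (β : ℝ)
    (hβ : β < 1)
    (h' : Tendsto (fun x : ℕ => (∑ p ∈ (Icc 1 x).filter Q', 1 / (p : ℝ)) /
      Real.log (Real.log x) * (Real.log (Real.log x)) ^ β) atTop (𝓝 0)) :
    Tendsto (fun x : ℕ => (∑ p ∈ (Icc 1 x).filter Q, 1 / (p : ℝ)) /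
      Real.log (Real.log x) * (Real.log (Real.log x)) ^ β) atTop (𝓝 0) := by
  set D : ℝ := ∑ p ∈ Icc 1 p₀, 1 / (p : ℝ) with hD
  have hle := fun x => rateC2_sum_le Q Q' p₀ h x
  have e0 : Tendsto (fun x : ℕ => D * (Real.log (Real.log x)) ^ (-(1 - β))) atTop (𝓝 0) := by
    have h1 := ((tendsto_rpow_neg_atTop (sub_pos.2 hβ)).comp tendsto_loglog_nat).const_mul D
    rw [mul_zero] at h1
    exact h1
  have e1 := h'.add e0
  rw [add_zero] at e1
  refine squeeze_zero' ?_ ?_ e1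
  · filter_upwards [tendsto_loglog_nat.eventually_ge_atTop 1] with x hx
    have h0 : 0 ≤ Real.log (Real.log x) := by linarith
    refine mul_nonneg (div_nonneg (Finset.sum_nonneg fun p _ => by positivity) h0)
      (Real.rpow_nonneg h0 _)
  · filter_upwards [tendsto_loglog_nat.eventually_ge_atTop 1] with x hx
    have h0 : 0 < Real.log (Real.log x) := by linarith
    have h2 : (Real.log (Real.log x)) ^ (-(1 - β)) =
        1 / Real.log (Real.log x) * (Real.log (Real.log x)) ^ β := by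
      rw [show -(1 - β) = β - 1 by ring, Real.rpow_sub_one h0.ne']
      ring
    rw [h2]
    have h3 : 0 ≤ (Real.log (Real.log x)) ^ β := Real.rpow_nonneg h0.le _
    calc _ ≤ (∑ p ∈ (Icc 1 x).filter Q', 1 / (p : ℝ) + D) / Real.log (Real.log x) *
          (Real.log (Real.log x)) ^ β := by
          refine mul_le_mul_of_nonneg_right ?_ h3
          exact div_le_div_of_nonneg_right (hle x) h0.le
      _ = _ := by ring

open Classical in
/-- PROOF. As before: the first sum is at most the second plus the constant `D`, and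
`D / log log x < τ` eventually. -/
lemma freq_compare (Q Q' : ℕ → Prop) (p₀ : ℕ) (h : ∀ p, p₀ ≤ p → Q p → Q' p) (τ : ℝ)
    (hτ : 0 < τ)
    (h' : ∃ᶠ x : ℕ in atTop, (∑ p ∈ (Icc 1 x).filter Q', 1 / (p : ℝ)) /
      Real.log (Real.log x) < τ) :
    ∃ᶠ x : ℕ in atTop, (∑ p ∈ (Icc 1 x).filter Q, 1 / (p : ℝ)) /
      Real.log (Real.log x) < 2 * τ := by
  set D : ℝ := ∑ p ∈ Icc 1 p₀, 1 / (p : ℝ) with hD
  have hle := fun x => rateC2_sum_le Q Q' p₀ h x
  have e1 := tendsto_loglog_nat.eventually_ge_atTop (max 1 (2 * D / τ))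
  refine (h'.and_eventually e1).mono ?_
  rintro x ⟨h1, h2⟩
  have h3 : 1 ≤ Real.log (Real.log x) := le_trans (le_max_left _ _) h2
  have h4 : 2 * D / τ ≤ Real.log (Real.log x) := le_trans (le_max_right _ _) h2
  have h0 : 0 < Real.log (Real.log x) := by linarith
  rw [div_lt_iff₀ h0] at h1 ⊢
  rw [div_le_iff₀ hτ] at h4
  have h5 := hle x
  have h6 : 0 < Real.log (Real.log x) * τ := mul_pos h0 hτ
  nlinarith

end Pool.Agent.H.MP_711652_nt
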