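import Mathlib
import Pool.Agent.H.MP_711652_nt.RateA2
import Pool.Agent.H.MP_711652_nt.RateA3
import Pool.Agent.H.MP_711652_nt.RateB2
import Pool.Agent.H.MP_711652_nt.RateC1
import Pool.Agent.H.MP_711652_nt.RateC2

set_option autoImplicit false

namespace Pool.Agent.H.MP_711652_nt

open Finset MeasureTheory Filter Topology
open scoped ENNReal NNReal

open Classical in
/-- One choice of the parameters. PROOF. `S = [1 + η, A]`, `w = wt (QS ε γ)`,
`δ i = 3 * (2 ^ i) ^ (γ - 1)` (antitone, tends to `0`), `B i = B'` constant: for `n` in the block,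
`(log n) ^ (γ - 1) ≤ (2 ^ i) ^ (γ - 1)`, so `Sep (δ i) T` implies `Sep (3 (log n) ^ (γ - 1)) T`, and
`reg_packing` with `pi_pow_le` gives `∑_{α ∈ T} wt ≤ B W`. `rate_dim` applies because
`2 ^ (β i) * (2 ^ (i (γ - 1))) ^ s` is geometric with exponent `β - s (1 - γ) < 0`. For `α` outside
the set of `rate_dim`, use `rate_sum` (`wt_le`) and `rate_primes`. -/
lemma reg_one (s γ ε η β : ℝ) (A : ℕ) (hs : 0 < s) (hγ : 0 < γ) (hγ1 : γ < 1)
    (hε : 0 < ε) (hε1 : ε ≤ 1) (hη : 0 < η) (hβ : β < s * (1 - γ)) (hs1 : s ≤ 1) :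
    ∃ E : Set ℝ, dimH E ≤ ENNReal.ofReal s ∧ ∀ α : ℝ, 1 + η ≤ α → α ≤ A → α ∉ E →
      ∀ β₀ : ℝ, β₀ < β → Tendsto (fun x : ℕ => (∑ p ∈ (Icc 1 x).filter (QS ε γ α), 1 / (p : ℝ)) /
        Real.log (Real.log x) * (Real.log (Real.log x)) ^ β₀) atTop (𝓝 0) := by
  obtain ⟨B0, hB0, n₀, hpk⟩ := reg_packing γ ε η A hγ hγ1 hε hε1 hη
  obtain ⟨W, hW0, hW⟩ := pi_pow_le
  obtain ⟨W', hW'0, hW'⟩ := wt_le
  have hQ : ∀ α p, QS ε γ α p → p.Prime := fun α p h => h.1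
  have hβ1 : β < 1 := by nlinarith
  set S : Set ℝ := {α : ℝ | 1 + η ≤ α ∧ α ≤ A} with hS
  set w := wt (QS ε γ) with hw
  set q : ℝ := (2 : ℝ) ^ (γ - 1) with hq
  have hq0 : 0 < q := by positivity
  have hq1 : q < 1 := Real.rpow_lt_one_of_one_lt_of_neg (by norm_num) (by linarith)
  set δ : ℕ → ℝ := fun i => 3 * q ^ i with hδ
  set B : ℕ → ℝ := fun _ => B0 * W with hB
  have h2i : ∀ i : ℕ, (0 : ℝ) < 2 ^ i := fun i => by positivity
  have hδpos : ∀ i, 0 < δ i := fun i => by simp only [hδ]; positivity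
  have hqi : ∀ i : ℕ, ((2 : ℝ) ^ i) ^ (γ - 1) = q ^ i := by
    intro i
    rw [hq, ← Real.rpow_natCast (2 : ℝ) i, ← Real.rpow_natCast ((2 : ℝ) ^ (γ - 1)) i,
      ← Real.rpow_mul (by norm_num), ← Real.rpow_mul (by norm_num), mul_comm]
  have hanti : Antitone δ := by
    intro i j hij
    simp only [hδ]
    have := pow_le_pow_of_le_one hq0.le hq1.le hij
    linarith
  have hδ0 : Tendsto δ atTop (𝓝 0) := by
    have h1 : Tendsto (fun i : ℕ => 3 * q ^ i) atTop (𝓝 (3 * 0)) :=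
      (tendsto_pow_atTop_nhds_zero_of_lt_one hq0.le hq1).const_mul 3
    rw [mul_zero] at h1
    exact h1
  have hBnn : ∀ i, 0 ≤ B i := fun i => by
    simp only [hB]; positivity
  have hpack : ∀ i n : ℕ, n₀ ≤ n → (2 : ℝ) ^ i ≤ Real.log n → Real.log n < 2 ^ (i + 1) →
      ∀ T : Finset ℝ, (∀ α ∈ T, α ∈ S) → Sep (δ i) T → ∑ α ∈ T, w n α ≤ B i := by
    intro i n hn h1 h2 T hT hsep
    have hlog : 0 < Real.log n := lt_of_lt_of_le (h2i i) h1
    have hsep' : Sep (3 * (Real.log n) ^ (γ - 1)) T := by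
      intro a ha b hb hab
      refine le_trans ?_ (hsep a ha b hb hab)
      simp only [hδ]
      have h3 : (Real.log n) ^ (γ - 1) ≤ ((2 : ℝ) ^ i) ^ (γ - 1) :=
        Real.rpow_le_rpow_of_nonpos (h2i i) h1 (by linarith)
      rw [hqi] at h3
      linarith
    have h3 := hpk n hn T (fun α hα => hT α hα) hsep'
    have h4 : ∑ α ∈ T, w n α = (n / 2 ^ n : ℝ) *
        ∑ α ∈ T, (((Ioc (2 ^ (n - 1)) (2 ^ n)).filter (QS ε γ α)).card : ℝ) := by
      rw [mul_sum]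
      apply sum_congr rfl
      intro α _
      simp only [hw, wt]
      ring
    rw [h4]
    calc (n / 2 ^ n : ℝ) * ∑ α ∈ T, (((Ioc (2 ^ (n - 1)) (2 ^ n)).filter (QS ε γ α)).card : ℝ)
        ≤ (n / 2 ^ n : ℝ) * (B0 * Nat.primeCounting (2 ^ n)) := by
          apply mul_le_mul_of_nonneg_left h3 (by positivity)
      _ = B0 * ((n : ℝ) * Nat.primeCounting (2 ^ n) / 2 ^ n) := by ring
      _ ≤ B0 * W := by
          have h6 := hW n
          gcongr
      _ = B i := rfl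
  have hsum : Summable (fun i : ℕ => B i * (2 : ℝ) ^ (β * i) *
      (δ i) ^ ((Real.toNNReal s : ℝ≥0) : ℝ)) := by
    rw [Real.coe_toNNReal s hs.le]
    have hgeo : Summable (fun i : ℕ => (B0 * W * 3 ^ s) *
        ((2 : ℝ) ^ (β - s * (1 - γ))) ^ i) := by
      apply Summable.mul_left
      apply summable_geometric_of_lt_one (by positivity)
      exact Real.rpow_lt_one_of_one_lt_of_neg (by norm_num) (by linarith)
    refine hgeo.congr fun i => ?_
    have e2 : (δ i) ^ s = 3 ^ s * (2 : ℝ) ^ (-s * (1 - γ) * i) := by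
      simp only [hδ]
      rw [Real.mul_rpow (by norm_num) (by positivity)]
      congr 1
      rw [← Real.rpow_natCast q i, hq, ← Real.rpow_mul (by positivity), ← Real.rpow_mul (by norm_num)]
      congr 1; ring
    have e3 : ((2 : ℝ) ^ (β - s * (1 - γ))) ^ i = (2 : ℝ) ^ (β * i) *
        (2 : ℝ) ^ (-s * (1 - γ) * i) := by
      rw [← Real.rpow_natCast ((2 : ℝ) ^ (β - s * (1 - γ))) i, ← Real.rpow_mul (by norm_num),
        ← Real.rpow_add (by norm_num)]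
      congr 1; ring
    simp only [hB]
    rw [e2, e3]
    ring
  have hdim := rate_dim S w n₀ δ B hδpos hanti hδ0 hBnn hpack β (Real.toNNReal s)
    (Real.toNNReal_pos.2 hs) hsum
  refine ⟨{α : ℝ | α ∈ S ∧ ∃ᶠ i : ℕ in atTop, (2 : ℝ) ^ ((1 - β) * i) < bw w n₀ i α}, hdim, ?_⟩
  intro α h1 h2 hE β₀ hβ₀
  have hev : ∀ᶠ i : ℕ in atTop, bw w n₀ i α ≤ (2 : ℝ) ^ ((1 - β) * i) := by
    rw [Set.mem_ofPred_eq, not_and] at hE
    have h3 := hE ⟨h1, h2⟩
    rw [not_frequently] at h3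
    filter_upwards [h3] with i hi
    exact not_lt.1 hi
  obtain ⟨D, hD0, hD⟩ := rate_sum w α W' (fun n => wt_nonneg _ n α)
    (fun n => hW' _ hQ n α) n₀ β hβ1 hev
  exact rate_primes (QS ε γ) hQ α D β β₀ hD0 hβ1 hβ₀ hD

open Classical in
/-- All parameters. PROOF. Let `E` be the union over `(m, i, j) : ℕ × ℕ × ℕ` of the sets of
`reg_one` with `γ = i / m`, `ε = η = 1 / m`, `A = m`, `β = j / m` (the empty set when the
hypotheses fail); `dimH_iUnion`. Given `α > 1`, `ε`, `γ`, `β`, choose `m` large and `i, j` with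
`γ < i / m < 1`, `0 < i`, `β < j / m < s (1 - i / m)`, `1 / m ≤ ε`, `1 + 1 / m ≤ α ≤ m`
(possible as `β < s (1 - γ)`: first a rational-free choice `γ < γ' < 1`, `β < s (1 - γ')`, then `m`
so large that grid points fit; e.g. `i = ⌊γ m⌋ + 1`, `j = ⌊β m⌋ + 1`). `QS_mono` and
`tendsto_compare` (`β < 1`). -/
theorem reg_exponents (s : ℝ) (hs : 0 < s) (hs1 : s ≤ 1) : ∃ E : Set ℝ,
    dimH E ≤ ENNReal.ofReal s ∧ ∀ α : ℝ, 1 < α → α ∉ E → ∀ ε γ β : ℝ, 0 < ε → 0 ≤ γ → γ < 1 →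
      0 ≤ β → β < s * (1 - γ) →
      Tendsto (fun x : ℕ => (∑ p ∈ (Icc 1 x).filter (QS ε γ α), 1 / (p : ℝ)) /
        Real.log (Real.log x) * (Real.log (Real.log x)) ^ β) atTop (𝓝 0) := by
  have hex : ∀ t : ℕ × ℕ × ℕ, ∃ F : Set ℝ, dimH F ≤ ENNReal.ofReal s ∧
      (0 < t.1 → 0 < t.2.1 → (t.2.1 : ℝ) / t.1 < 1 →
        (t.2.2 : ℝ) / t.1 < s * (1 - (t.2.1 : ℝ) / t.1) →
        ∀ α : ℝ, 1 + 1 / (t.1 : ℝ) ≤ α → α ≤ t.1 → α ∉ F →
      ∀ β₀ : ℝ, β₀ < (t.2.2 : ℝ) / t.1 → Tendsto (fun x : ℕ =>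
        (∑ p ∈ (Icc 1 x).filter (QS (1 / (t.1 : ℝ)) ((t.2.1 : ℝ) / t.1) α), 1 / (p : ℝ)) /
        Real.log (Real.log x) * (Real.log (Real.log x)) ^ β₀) atTop (𝓝 0)) := by
    rintro ⟨m, i, j⟩
    by_cases h : 0 < m ∧ 0 < i ∧ (i : ℝ) / m < 1 ∧ (j : ℝ) / m < s * (1 - (i : ℝ) / m)
    · obtain ⟨h1, h2, h3, h4⟩ := h
      have hm : (0 : ℝ) < m := by exact_mod_cast h1
      have hi : (0 : ℝ) < i := by exact_mod_cast h2
      have hm1 : (1 : ℝ) / m ≤ 1 := by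
        rw [div_le_one hm]
        exact_mod_cast h1
      obtain ⟨F, hF1, hF2⟩ := reg_one s ((i : ℝ) / m) (1 / m) (1 / m) ((j : ℝ) / m) m hs
        (by positivity) h3 (by positivity) hm1 (by positivity) h4 hs1
      exact ⟨F, hF1, fun _ _ _ _ => hF2⟩
    · refine ⟨∅, by simp, ?_⟩
      intro h1 h2 h3 h4
      exact absurd ⟨h1, h2, h3, h4⟩ h
  choose F hF1 hF2 using hex
  refine ⟨⋃ t, F t, ?_, ?_⟩
  · rw [dimH_iUnion]
    exact iSup_le hF1
  · intro α hα hαE ε γ β hε hγ hγ1 hβ hγβ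
    obtain ⟨m, hm⟩ := exists_nat_gt (max (max (1 / ε) α) (max (1 / (α - 1)) (2 / (s * (1 - γ) - β))))
    have hmK : 1 / ε < m := lt_of_le_of_lt ((le_max_left _ _).trans (le_max_left _ _)) hm
    have hmα : α < m := lt_of_le_of_lt ((le_max_right _ _).trans (le_max_left _ _)) hm
    have hm1 : 1 / (α - 1) < m := lt_of_le_of_lt ((le_max_left _ _).trans (le_max_right _ _)) hm
    have hm2 : 2 / (s * (1 - γ) - β) < m :=
      lt_of_le_of_lt ((le_max_right _ _).trans (le_max_right _ _)) hm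
    have hm0 : (0 : ℝ) < m := by linarith
    have hmn : 0 < m := by exact_mod_cast hm0
    set i := ⌊γ * m⌋₊ + 1 with hi
    set j := ⌊β * m⌋₊ + 1 with hj
    have hi1 : γ < (i : ℝ) / m := by
      rw [lt_div_iff₀ hm0, hi]
      push_cast
      exact Nat.lt_floor_add_one _
    have hj1 : β < (j : ℝ) / m := by
      rw [lt_div_iff₀ hm0, hj]
      push_cast
      exact Nat.lt_floor_add_one _
    have hi2 : (i : ℝ) / m ≤ γ + 1 / m := by
      rw [div_le_iff₀ hm0, add_mul, div_mul_cancel₀ _ hm0.ne', hi]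
      push_cast
      have := Nat.floor_le (show 0 ≤ γ * m by positivity)
      linarith
    have hj2 : (j : ℝ) / m ≤ β + 1 / m := by
      rw [div_le_iff₀ hm0, add_mul, div_mul_cancel₀ _ hm0.ne', hj]
      push_cast
      have := Nat.floor_le (show 0 ≤ β * m by positivity)
      linarith
    have h1m : 0 < 1 / (m : ℝ) := by positivity
    have h2m : 2 * (1 / (m : ℝ)) < s * (1 - γ) - β := by
      have h0 : 0 < s * (1 - γ) - β := by linarith
      rw [div_lt_iff₀ h0] at hm2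
      rw [mul_one_div, div_lt_iff₀ hm0]
      linarith
    have hs3 : s * (1 - γ) ≤ 1 - γ := by nlinarith
    have hlt1 : (i : ℝ) / m < 1 := by linarith
    have hsum : (j : ℝ) / m < s * (1 - (i : ℝ) / m) := by
      have h3 : s * (1 - γ) - 1 / m ≤ s * (1 - (i : ℝ) / m) := by
        have h4 : s * ((i : ℝ) / m) ≤ s * (γ + 1 / m) := mul_le_mul_of_nonneg_left hi2 hs.le
        have h5 : s * (1 / (m : ℝ)) ≤ 1 / m := by nlinarith
        linarith
      linarith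
    have hα1 : 1 + 1 / (m : ℝ) ≤ α := by
      have h0 : 0 < α - 1 := by linarith
      rw [div_lt_iff₀ h0] at hm1
      have : 1 / (m : ℝ) ≤ α - 1 := by
        rw [div_le_iff₀ hm0]; linarith
      linarith
    have hε1 : 1 / (m : ℝ) ≤ ε := by
      rw [div_lt_iff₀ hε] at hmK
      rw [div_le_iff₀ hm0]
      linarith
    have hnot : α ∉ F (m, i, j) := fun h => hαE (Set.mem_iUnion.2 ⟨_, h⟩)
    have hten := hF2 (m, i, j) hmn (Nat.succ_pos _) hlt1 hsum α hα1 hmα.le hnot β hj1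
    obtain ⟨p₀, hp₀⟩ := QS_mono ε (1 / m) γ ((i : ℝ) / m) hε1 hi1.le
    exact tendsto_compare (QS ε γ α) (QS (1 / m) ((i : ℝ) / m) α) p₀ (fun p hp h => hp₀ p hp α h) β
      (by linarith) hten

end Pool.Agent.H.MP_711652_nt
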