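import Mathlib
import Pool.Agent.H.MP_711652_nt.RateA2
import Pool.Agent.H.MP_711652_nt.RateA3
import Pool.Agent.H.MP_711652_nt.RateB3
import Pool.Agent.H.MP_711652_nt.RateC1
import Pool.Agent.H.MP_711652_nt.RateC2

set_option autoImplicit false

namespace Pool.Agent.H.MP_711652_nt

open Finset MeasureTheory Filter Topology
open scoped ENNReal NNReal

open Classical in
/-- One choice of the parameters. PROOF. `S = [1 + η, A]`, `w = wt (QN K κ)`, `δ i = 2 / 2 ^ i`,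
`B i = B' * 2 ^ (κ * (i + 1))`: for `n` in the block, `2 / log n ≤ δ i` and
`(log n) ^ κ ≤ (2 ^ (i + 1)) ^ κ`; `gap_packing` with `pi_pow_le`. `rate_dim` applies because
`2 ^ (κ i) * 2 ^ (β i) * (2 ^ (-i)) ^ s` is geometric with exponent `κ + β - s < 0`. For `α`
outside the set of `rate_dim`, use `rate_sum` (`wt_le`) and `rate_primes`. -/
lemma gap_one (s K κ η β : ℝ) (A : ℕ) (hs : 0 < s) (hs1 : s ≤ 1) (hK : 0 < K) (hκ : 0 ≤ κ)
    (hη : 0 < η) (hβ : κ + β < s) :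
    ∃ E : Set ℝ, dimH E ≤ ENNReal.ofReal s ∧ ∀ α : ℝ, 1 + η ≤ α → α ≤ A → α ∉ E →
      ∀ β₀ : ℝ, β₀ < β → Tendsto (fun x : ℕ => (∑ p ∈ (Icc 1 x).filter (QN K κ α), 1 / (p : ℝ)) /
        Real.log (Real.log x) * (Real.log (Real.log x)) ^ β₀) atTop (𝓝 0) := by
  obtain ⟨B0, hB0, n₀, hpk⟩ := gap_packing K κ η A hK hκ hη
  obtain ⟨W, hW0, hW⟩ := pi_pow_le
  obtain ⟨W', hW'0, hW'⟩ := wt_le
  have hQ : ∀ α p, QN K κ α p → p.Prime := fun α p h => h.1
  have hβ1 : β < 1 := by linarith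
  set S : Set ℝ := {α : ℝ | 1 + η ≤ α ∧ α ≤ A} with hS
  set w := wt (QN K κ) with hw
  set δ : ℕ → ℝ := fun i => 2 / 2 ^ i with hδ
  set B : ℕ → ℝ := fun i => B0 * W * ((2 : ℝ) ^ (i + 1)) ^ κ with hB
  have h2i : ∀ i : ℕ, (0 : ℝ) < 2 ^ i := fun i => by positivity
  have hδpos : ∀ i, 0 < δ i := fun i => div_pos (by norm_num) (h2i i)
  have hδeq : ∀ i, δ i = 2 * ((1 / 2 : ℝ)) ^ i := by
    intro i
    simp only [hδ]
    rw [div_pow, one_pow]; ring
  have hanti : Antitone δ := by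
    intro i j hij
    simp only [hδ]
    apply div_le_div_of_nonneg_left (by norm_num) (h2i i)
    exact pow_le_pow_right₀ (by norm_num) hij
  have hδ0 : Tendsto δ atTop (𝓝 0) := by
    have h1 : Tendsto (fun i : ℕ => 2 * ((1 / 2 : ℝ)) ^ i) atTop (𝓝 (2 * 0)) :=
      (tendsto_pow_atTop_nhds_zero_of_lt_one (by norm_num) (by norm_num)).const_mul 2
    rw [mul_zero] at h1
    exact h1.congr fun i => (hδeq i).symm
  have hBnn : ∀ i, 0 ≤ B i := fun i => by
    simp only [hB]; positivity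
  have hpack : ∀ i n : ℕ, n₀ ≤ n → (2 : ℝ) ^ i ≤ Real.log n → Real.log n < 2 ^ (i + 1) →
      ∀ T : Finset ℝ, (∀ α ∈ T, α ∈ S) → Sep (δ i) T → ∑ α ∈ T, w n α ≤ B i := by
    intro i n hn h1 h2 T hT hsep
    have hlog : 0 < Real.log n := lt_of_lt_of_le (h2i i) h1
    have hsep' : Sep (2 / Real.log n) T := by
      intro a ha b hb hab
      refine le_trans ?_ (hsep a ha b hb hab)
      simp only [hδ]
      exact div_le_div_of_nonneg_left (by norm_num) (h2i i) h1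
    have h3 := hpk n hn T (fun α hα => hT α hα) hsep'
    have h4 : ∑ α ∈ T, w n α = (n / 2 ^ n : ℝ) *
        ∑ α ∈ T, (((Ioc (2 ^ (n - 1)) (2 ^ n)).filter (QN K κ α)).card : ℝ) := by
      rw [mul_sum]
      apply sum_congr rfl
      intro α _
      simp only [hw, wt]
      ring
    rw [h4]
    calc (n / 2 ^ n : ℝ) * ∑ α ∈ T, (((Ioc (2 ^ (n - 1)) (2 ^ n)).filter (QN K κ α)).card : ℝ)
        ≤ (n / 2 ^ n : ℝ) * (B0 * (Real.log n) ^ κ * Nat.primeCounting (2 ^ n)) := by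
          apply mul_le_mul_of_nonneg_left h3 (by positivity)
      _ = B0 * (Real.log n) ^ κ * ((n : ℝ) * Nat.primeCounting (2 ^ n) / 2 ^ n) := by ring
      _ ≤ B0 * ((2 : ℝ) ^ (i + 1)) ^ κ * W := by
          have h5 : (Real.log n) ^ κ ≤ ((2 : ℝ) ^ (i + 1)) ^ κ :=
            Real.rpow_le_rpow hlog.le h2.le hκ
          have h6 := hW n
          gcongr
      _ = B i := by simp only [hB]; ring
  have hsum : Summable (fun i : ℕ => B i * (2 : ℝ) ^ (β * i) * (δ i) ^ ((Real.toNNReal s : ℝ≥0) : ℝ)) := by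
    rw [Real.coe_toNNReal s hs.le]
    have hgeo : Summable (fun i : ℕ => (B0 * W * 2 ^ κ * 2 ^ s) * ((2 : ℝ) ^ (κ + β - s)) ^ i) := by
      apply Summable.mul_left
      apply summable_geometric_of_lt_one (by positivity)
      exact Real.rpow_lt_one_of_one_lt_of_neg (by norm_num) (by linarith)
    refine hgeo.congr fun i => ?_
    have e1 : ((2 : ℝ) ^ (i + 1)) ^ κ = 2 ^ κ * (2 : ℝ) ^ (κ * i) := by
      rw [← Real.rpow_natCast (2 : ℝ) (i + 1), ← Real.rpow_mul (by norm_num),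
        ← Real.rpow_add (by norm_num)]
      congr 1
      push_cast; ring
    have e2 : (δ i) ^ s = 2 ^ s * (2 : ℝ) ^ (-s * i) := by
      simp only [hδ]
      rw [Real.div_rpow (by norm_num) (h2i i).le, div_eq_mul_inv]
      congr 1
      rw [← Real.rpow_natCast (2 : ℝ) i, ← Real.rpow_mul (by norm_num), ← Real.rpow_neg (by norm_num)]
      congr 1; ring
    have e3 : ((2 : ℝ) ^ (κ + β - s)) ^ i = (2 : ℝ) ^ (κ * i) * (2 : ℝ) ^ (β * i) *
        (2 : ℝ) ^ (-s * i) := by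
      rw [← Real.rpow_natCast ((2 : ℝ) ^ (κ + β - s)) i, ← Real.rpow_mul (by norm_num),
        ← Real.rpow_add (by norm_num), ← Real.rpow_add (by norm_num)]
      congr 1; ring
    simp only [hB]
    rw [e1, e2, e3]
    ring
  have hdim := rate_dim S w n₀ δ B hδpos hanti hδ0 hBnn hpack β (Real.toNNReal s)
    (Real.toNNReal_pos.2 hs) hsum
  refine ⟨{α : ℝ | α ∈ S ∧ ∃ᶠ i : ℕ in atTop, (2 : ℝ) ^ ((1 - β) * i) < bw w n₀ i α}, hdim, ?_⟩
  intro α h1 h2 hE β₀ hβ₀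
  have hev : ∀ᶠ i : ℕ in atTop, bw w n₀ i α ≤ (2 : ℝ) ^ ((1 - β) * i) := by
    rw [Set.mem_ofPred_eq, not_and] at hE
    have h3 := hE ⟨h1, h2⟩
    rw [not_frequently] at h3
    filter_upwards [h3] with i hi
    exact not_lt.1 hi
  obtain ⟨D, hD0, hD⟩ := rate_sum w α W' (fun n => wt_nonneg _ n α)
    (fun n => hW' _ hQ n α) n₀ β hβ1 hev
  exact rate_primes (QN K κ) hQ α D β β₀ hD0 hβ1 hβ₀ hD

open Classical in
/-- All parameters. PROOF. Let `E` be the union over `(m, i, j) : ℕ × ℕ × ℕ` of the sets of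
`gap_one` with `κ = i / m`, `K = m`, `η = 1 / m`, `A = m`, `β = j / m` (the empty set when the
hypotheses fail); `dimH_iUnion`. Given `α > 1`, `K`, `κ`, `β`, choose `m` large, `i = ⌊κ m⌋ + 1`,
`j = ⌊β m⌋ + 1`, so that `(i + j) / m < s`, `K ≤ m`, `1 + 1 / m ≤ α ≤ m`. `QN_mono` and
`tendsto_compare` (`β < 1`). -/
theorem gap_exponents (s : ℝ) (hs : 0 < s) (hs1 : s ≤ 1) : ∃ E : Set ℝ,
    dimH E ≤ ENNReal.ofReal s ∧ ∀ α : ℝ, 1 < α → α ∉ E → ∀ K κ β : ℝ, 0 ≤ κ → 0 ≤ β →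
      κ + β < s →
      Tendsto (fun x : ℕ => (∑ p ∈ (Icc 1 x).filter (QN K κ α), 1 / (p : ℝ)) /
        Real.log (Real.log x) * (Real.log (Real.log x)) ^ β) atTop (𝓝 0) := by
  have hex : ∀ t : ℕ × ℕ × ℕ, ∃ F : Set ℝ, dimH F ≤ ENNReal.ofReal s ∧
      (0 < t.1 → (t.2.1 : ℝ) / t.1 + (t.2.2 : ℝ) / t.1 < s →
        ∀ α : ℝ, 1 + 1 / (t.1 : ℝ) ≤ α → α ≤ t.1 → α ∉ F →
      ∀ β₀ : ℝ, β₀ < (t.2.2 : ℝ) / t.1 → Tendsto (fun x : ℕ =>
        (∑ p ∈ (Icc 1 x).filter (QN t.1 ((t.2.1 : ℝ) / t.1) α), 1 / (p : ℝ)) /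
        Real.log (Real.log x) * (Real.log (Real.log x)) ^ β₀) atTop (𝓝 0)) := by
    rintro ⟨m, i, j⟩
    by_cases h : 0 < m ∧ (i : ℝ) / m + (j : ℝ) / m < s
    · obtain ⟨h1, h2⟩ := h
      have hm : (0 : ℝ) < m := by exact_mod_cast h1
      obtain ⟨F, hF1, hF2⟩ := gap_one s m ((i : ℝ) / m) (1 / m) ((j : ℝ) / m) m hs hs1 hm
        (by positivity) (by positivity) h2
      exact ⟨F, hF1, fun _ _ => hF2⟩
    · refine ⟨∅, by simp, ?_⟩
      intro h1 h2
      exact absurd ⟨h1, h2⟩ h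
  choose F hF1 hF2 using hex
  refine ⟨⋃ t, F t, ?_, ?_⟩
  · rw [dimH_iUnion]
    exact iSup_le hF1
  · intro α hα hαE K κ β hκ hβ hκβ
    obtain ⟨m, hm⟩ := exists_nat_gt (max (max K α) (max (1 / (α - 1)) (2 / (s - κ - β))))
    have hmK : K < m := lt_of_le_of_lt ((le_max_left _ _).trans (le_max_left _ _)) hm
    have hmα : α < m := lt_of_le_of_lt ((le_max_right _ _).trans (le_max_left _ _)) hm
    have hm1 : 1 / (α - 1) < m := lt_of_le_of_lt ((le_max_left _ _).trans (le_max_right _ _)) hm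
    have hm2 : 2 / (s - κ - β) < m := lt_of_le_of_lt ((le_max_right _ _).trans (le_max_right _ _)) hm
    have hm0 : (0 : ℝ) < m := by linarith
    have hmn : 0 < m := by exact_mod_cast hm0
    set i := ⌊κ * m⌋₊ + 1 with hi
    set j := ⌊β * m⌋₊ + 1 with hj
    have hi1 : κ < (i : ℝ) / m := by
      rw [lt_div_iff₀ hm0, hi]
      push_cast
      exact Nat.lt_floor_add_one _
    have hj1 : β < (j : ℝ) / m := by
      rw [lt_div_iff₀ hm0, hj]
      push_cast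
      exact Nat.lt_floor_add_one _
    have hi2 : (i : ℝ) / m ≤ κ + 1 / m := by
      rw [div_le_iff₀ hm0, add_mul, div_mul_cancel₀ _ hm0.ne', hi]
      push_cast
      have := Nat.floor_le (show 0 ≤ κ * m by positivity)
      linarith
    have hj2 : (j : ℝ) / m ≤ β + 1 / m := by
      rw [div_le_iff₀ hm0, add_mul, div_mul_cancel₀ _ hm0.ne', hj]
      push_cast
      have := Nat.floor_le (show 0 ≤ β * m by positivity)
      linarith
    have hsum : (i : ℝ) / m + (j : ℝ) / m < s := by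
      have h1 : 2 / (m : ℝ) < s - κ - β := by
        have h0 : 0 < s - κ - β := by linarith
        rw [div_lt_iff₀ h0] at hm2
        rw [div_lt_iff₀ hm0]
        linarith
      have h2 : 2 / (m : ℝ) = 1 / m + 1 / m := by ring
      linarith
    have hα1 : 1 + 1 / (m : ℝ) ≤ α := by
      have h0 : 0 < α - 1 := by linarith
      rw [div_lt_iff₀ h0] at hm1
      have : 1 / (m : ℝ) ≤ α - 1 := by
        rw [div_le_iff₀ hm0]; linarith
      linarith
    have hnot : α ∉ F (m, i, j) := fun h => hαE (Set.mem_iUnion.2 ⟨_, h⟩)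
    have hten := hF2 (m, i, j) hmn hsum α hα1 hmα.le hnot β hj1
    obtain ⟨p₀, hp₀⟩ := QN_mono K m κ ((i : ℝ) / m) hmK.le hm0.le hi1.le
    exact tendsto_compare (QN K κ α) (QN m ((i : ℝ) / m) α) p₀ (fun p hp h => hp₀ p hp α h) β
      (by linarith) hten

end Pool.Agent.H.MP_711652_nt
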