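import Mathlib
import Pool.Agent.H.MP_711652_nt.RateA4
import Pool.Agent.H.MP_711652_nt.RateB2
import Pool.Agent.H.MP_711652_nt.RateB3
import Pool.Agent.H.MP_711652_nt.RateC1
import Pool.Agent.H.MP_711652_nt.RateC2

set_option autoImplicit false

namespace Pool.Agent.H.MP_711652_nt

open Finset MeasureTheory Filter Topology
open scoped ENNReal NNReal

/-- Not locally regular, or near a long prime-free interval. -/
def QV (ε γ K κ α : ℝ) (p : ℕ) : Prop := QS ε γ α p ∨ QN K κ α p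

lemma QV_prime (ε γ K κ α : ℝ) (p : ℕ) (h : QV ε γ K κ α p) : p.Prime := by
  rcases h with h | h
  · exact h.1
  · exact h.1

open Classical in
lemma card_QV_le (ε γ K κ α : ℝ) (s : Finset ℕ) :
    ((s.filter (QV ε γ K κ α)).card : ℝ) ≤
      ((s.filter (QS ε γ α)).card : ℝ) + ((s.filter (QN K κ α)).card : ℝ) := by
  have h : s.filter (QV ε γ K κ α) ⊆ s.filter (QS ε γ α) ∪ s.filter (QN K κ α) := by
    intro p hp
    rw [Finset.mem_filter] at hp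
    rw [Finset.mem_union, Finset.mem_filter, Finset.mem_filter]
    rcases hp.2 with h | h
    · exact Or.inl ⟨hp.1, h⟩
    · exact Or.inr ⟨hp.1, h⟩
  have h2 := (Finset.card_le_card h).trans (Finset.card_union_le _ _)
  exact_mod_cast h2

lemma delta_tendsto (γ : ℝ) (hγ1 : γ < 1) :
    Tendsto (fun n : ℕ => 3 * (Real.log n) ^ (γ - 1) + 2 / Real.log n) atTop (𝓝 0) := by
  have hlog : Tendsto (fun n : ℕ => Real.log (n : ℝ)) atTop atTop :=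
    Real.tendsto_log_atTop.comp tendsto_natCast_atTop_atTop
  have h1 : Tendsto (fun n : ℕ => (Real.log (n : ℝ)) ^ (γ - 1)) atTop (𝓝 0) := by
    have h := (tendsto_rpow_neg_atTop (y := 1 - γ) (by linarith)).comp hlog
    refine h.congr ?_
    intro n
    simp only [Function.comp]
    rw [neg_sub]
  have h2 : Tendsto (fun n : ℕ => 2 / Real.log (n : ℝ)) atTop (𝓝 0) :=
    hlog.const_div_atTop 2
  have h3 := (h1.const_mul 3).add h2
  simpa using h3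

lemma Sep_mono (δ δ' : ℝ) (A : Finset ℝ) (h : δ' ≤ δ) (hA : Sep δ A) : Sep δ' A :=
  fun α hα β hβ hαβ => h.trans (hA α hα β hβ hαβ)

open Classical in
lemma pack_QV (γ ε η K : ℝ) (A : ℕ) (hγ : 0 < γ) (hγ1 : γ < 1) (hε : 0 < ε) (hε1 : ε ≤ 1)
    (hη : 0 < η) (hK : 0 < K) : ∃ B : ℝ, 0 ≤ B ∧ ∃ n₁ : ℕ, ∀ n : ℕ, n₁ ≤ n →
      ∀ F : Finset ℝ, (∀ α ∈ F, α ∈ {α : ℝ | 1 + η ≤ α ∧ α ≤ A}) →
      Sep (3 * (Real.log n) ^ (γ - 1) + 2 / Real.log n) F →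
      ∑ α ∈ F, wt (QV ε γ K 0) n α ≤ B := by
  obtain ⟨B1, hB1, n1, h1⟩ := reg_packing γ ε η A hγ hγ1 hε hε1 hη
  obtain ⟨B2, hB2, n2, h2⟩ := gap_packing K 0 η A hK le_rfl hη
  obtain ⟨W, hW, hpi⟩ := pi_pow_le
  refine ⟨(B1 + B2) * W, by positivity, max 2 (max n1 n2), ?_⟩
  intro n hn F hF hsep
  have hn2 : 2 ≤ n := le_trans (le_max_left _ _) hn
  have hn1 : n1 ≤ n := le_trans ((le_max_left _ _).trans (le_max_right _ _)) hn
  have hn3 : n2 ≤ n := le_trans ((le_max_right _ _).trans (le_max_right _ _)) hn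
  have hlog : 0 < Real.log n := by
    apply Real.log_pos
    have : (2 : ℝ) ≤ n := by exact_mod_cast hn2
    linarith
  have ha : 0 ≤ 3 * (Real.log n) ^ (γ - 1) := by positivity
  have hb : 0 ≤ 2 / Real.log n := by positivity
  have h1' := h1 n hn1 F hF (Sep_mono _ _ F (by linarith) hsep)
  have h2' := h2 n hn3 F hF (Sep_mono _ _ F (by linarith) hsep)
  rw [Real.rpow_zero, mul_one] at h2'
  have hpi' := hpi n
  have hpow : (0 : ℝ) < 2 ^ n := by positivity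
  have hsum : ∑ α ∈ F, (((Ioc (2 ^ (n - 1)) (2 ^ n)).filter (QV ε γ K 0 α)).card : ℝ) ≤
      (B1 + B2) * Nat.primeCounting (2 ^ n) := by
    calc ∑ α ∈ F, (((Ioc (2 ^ (n - 1)) (2 ^ n)).filter (QV ε γ K 0 α)).card : ℝ)
        ≤ ∑ α ∈ F, ((((Ioc (2 ^ (n - 1)) (2 ^ n)).filter (QS ε γ α)).card : ℝ) +
            (((Ioc (2 ^ (n - 1)) (2 ^ n)).filter (QN K 0 α)).card : ℝ)) :=
          Finset.sum_le_sum fun α _ => card_QV_le ε γ K 0 α _
      _ = ∑ α ∈ F, (((Ioc (2 ^ (n - 1)) (2 ^ n)).filter (QS ε γ α)).card : ℝ) +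
            ∑ α ∈ F, (((Ioc (2 ^ (n - 1)) (2 ^ n)).filter (QN K 0 α)).card : ℝ) :=
          Finset.sum_add_distrib
      _ ≤ B1 * Nat.primeCounting (2 ^ n) + B2 * Nat.primeCounting (2 ^ n) := add_le_add h1' h2'
      _ = (B1 + B2) * Nat.primeCounting (2 ^ n) := by ring
  calc ∑ α ∈ F, wt (QV ε γ K 0) n α
      = n / 2 ^ n *
          ∑ α ∈ F, (((Ioc (2 ^ (n - 1)) (2 ^ n)).filter (QV ε γ K 0 α)).card : ℝ) := by
        rw [Finset.mul_sum]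
        refine Finset.sum_congr rfl fun α _ => ?_
        unfold wt
        ring
    _ ≤ n / 2 ^ n * ((B1 + B2) * Nat.primeCounting (2 ^ n)) :=
        mul_le_mul_of_nonneg_left hsum (by positivity)
    _ = (B1 + B2) * (n * Nat.primeCounting (2 ^ n) / 2 ^ n) := by ring
    _ ≤ (B1 + B2) * W := mul_le_mul_of_nonneg_left hpi' (by positivity)

open Classical in
/-- One choice of the parameters: `rate_finite` for `τ = 1 / (k + 1)` and `freq_primes`. -/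
lemma freq_one (γ ε η K : ℝ) (A : ℕ) (hγ : 0 < γ) (hγ1 : γ < 1) (hε : 0 < ε) (hε1 : ε ≤ 1)
    (hη : 0 < η) (hK : 0 < K) :
    ∃ P : Set ℝ, P.Countable ∧ ∀ α : ℝ, 1 + η ≤ α → α ≤ A → α ∉ P → ∀ τ : ℝ, 0 < τ →
      ∃ᶠ x : ℕ in atTop, (∑ p ∈ (Icc 1 x).filter (QV ε γ K 0 α), 1 / (p : ℝ)) /
        Real.log (Real.log x) < τ := by
  obtain ⟨B, hB, n₁, hpack⟩ := pack_QV γ ε η K A hγ hγ1 hε hε1 hη hK
  obtain ⟨W, hW, hWw⟩ := wt_le
  have hfin : ∀ k : ℕ, {α : ℝ | α ∈ {α : ℝ | 1 + η ≤ α ∧ α ≤ A} ∧ ∀ᶠ N : ℕ in atTop,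
      (1 / ((k : ℝ) + 1)) * Real.log N ≤
        ∑ n ∈ Icc 1 N, wt (QV ε γ K 0) n α / n}.Finite := by
    intro k
    exact rate_finite {α : ℝ | 1 + η ≤ α ∧ α ≤ A} (wt (QV ε γ K 0)) W
      (fun n α => wt_nonneg _ n α)
      (fun n α => hWw (QV ε γ K 0) (fun α p h => QV_prime ε γ K 0 α p h) n α) n₁
      (fun n : ℕ => 3 * (Real.log n) ^ (γ - 1) + 2 / Real.log n) (delta_tendsto γ hγ1) B hB
      hpack (1 / ((k : ℝ) + 1)) (by positivity)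
  refine ⟨⋃ k : ℕ, {α : ℝ | α ∈ {α : ℝ | 1 + η ≤ α ∧ α ≤ A} ∧ ∀ᶠ N : ℕ in atTop,
      (1 / ((k : ℝ) + 1)) * Real.log N ≤ ∑ n ∈ Icc 1 N, wt (QV ε γ K 0) n α / n},
    Set.countable_iUnion fun k => (hfin k).countable, ?_⟩
  intro α hα1 hα2 hαP τ hτ
  obtain ⟨k, hk⟩ := exists_nat_one_div_lt (show (0 : ℝ) < τ / 5 by positivity)
  have hαk : ¬ (∀ᶠ N : ℕ in atTop,
      (1 / ((k : ℝ) + 1)) * Real.log N ≤ ∑ n ∈ Icc 1 N, wt (QV ε γ K 0) n α / n) := by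
    intro h
    exact hαP (Set.mem_iUnion.2 ⟨k, ⟨hα1, hα2⟩, h⟩)
  rw [Filter.not_eventually] at hαk
  have hfr : ∃ᶠ N : ℕ in atTop, ∑ n ∈ Icc 1 N, wt (QV ε γ K 0) n α / n <
      (1 / ((k : ℝ) + 1)) * Real.log N := hαk.mono fun N hN => not_le.1 hN
  have h := freq_primes (QV ε γ K 0) (fun α p h => QV_prime ε γ K 0 α p h) α
    (1 / ((k : ℝ) + 1)) (by positivity) hfr
  refine h.mono fun x hx => hx.trans ?_
  linarith

open Classical in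
/-- All parameters: union over `(m, i)` of the sets of `freq_one` with `γ = i / m`,
`ε = η = 1 / m`, `K = A = m`. -/
theorem freq_exponents : ∃ P : Set ℝ, P.Countable ∧ ∀ α : ℝ, 1 < α → α ∉ P →
    ∀ ε γ K : ℝ, 0 < ε → 0 ≤ γ → γ < 1 → ∀ τ : ℝ, 0 < τ →
      ∃ᶠ x : ℕ in atTop, (∑ p ∈ (Icc 1 x).filter (QV ε γ K 0 α), 1 / (p : ℝ)) /
        Real.log (Real.log x) < τ := by
  have key : ∀ mi : ℕ × ℕ, ∃ P : Set ℝ, P.Countable ∧ (0 < mi.2 → mi.2 < mi.1 →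
      ∀ α : ℝ, 1 + 1 / (mi.1 : ℝ) ≤ α → α ≤ mi.1 → α ∉ P → ∀ τ : ℝ, 0 < τ →
      ∃ᶠ x : ℕ in atTop, (∑ p ∈ (Icc 1 x).filter
        (QV (1 / (mi.1 : ℝ)) ((mi.2 : ℝ) / mi.1) mi.1 0 α), 1 / (p : ℝ)) /
        Real.log (Real.log x) < τ) := by
    intro mi
    by_cases h : 0 < mi.2 ∧ mi.2 < mi.1
    · have hm : (0 : ℝ) < mi.1 := by exact_mod_cast h.1.trans h.2
      have hm1 : (1 : ℝ) ≤ mi.1 := by exact_mod_cast h.1.trans h.2
      have hi : (0 : ℝ) < mi.2 := by exact_mod_cast h.1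
      have him : (mi.2 : ℝ) < mi.1 := by exact_mod_cast h.2
      obtain ⟨P, hP, hP2⟩ := freq_one ((mi.2 : ℝ) / mi.1) (1 / (mi.1 : ℝ)) (1 / (mi.1 : ℝ))
        mi.1 mi.1 (by positivity) ((div_lt_one hm).2 him) (by positivity)
        ((div_le_one hm).2 hm1) (by positivity) hm
      exact ⟨P, hP, fun _ _ => hP2⟩
    · exact ⟨∅, Set.countable_empty, fun h1 h2 => absurd ⟨h1, h2⟩ h⟩
  choose P hPc hP using key
  refine ⟨⋃ mi : ℕ × ℕ, P mi, Set.countable_iUnion fun mi => hPc mi, ?_⟩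
  intro α hα hαP ε γ K hε hγ hγ1 τ hτ
  obtain ⟨m, hm⟩ := exists_nat_gt
    (max (max (1 / ε) (1 / (α - 1))) (max (max α K) (1 / (1 - γ))))
  have hmε : 1 / ε < m := lt_of_le_of_lt ((le_max_left _ _).trans (le_max_left _ _)) hm
  have hmα1 : 1 / (α - 1) < m := lt_of_le_of_lt ((le_max_right _ _).trans (le_max_left _ _)) hm
  have hmα : α < m := lt_of_le_of_lt
    ((le_max_left _ _).trans ((le_max_left _ _).trans (le_max_right _ _))) hm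
  have hmK : K < m := lt_of_le_of_lt
    ((le_max_right _ _).trans ((le_max_left _ _).trans (le_max_right _ _))) hm
  have hmγ : 1 / (1 - γ) < m := lt_of_le_of_lt ((le_max_right _ _).trans (le_max_right _ _)) hm
  have hm0 : (0 : ℝ) < m := by linarith
  have hα1 : 0 < α - 1 := by linarith
  have hγ2 : 0 < 1 - γ := by linarith
  have e1 : 1 / (m : ℝ) ≤ ε := by
    rw [div_le_iff₀ hm0]
    rw [div_lt_iff₀ hε] at hmε
    nlinarith
  have e2 : 1 + 1 / (m : ℝ) ≤ α := by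
    have : 1 / (m : ℝ) ≤ α - 1 := by
      rw [div_le_iff₀ hm0]
      rw [div_lt_iff₀ hα1] at hmα1
      nlinarith
    linarith
  have e3 : 1 < (m : ℝ) * (1 - γ) := by
    rwa [div_lt_iff₀ hγ2] at hmγ
  have hγm : 0 ≤ γ * m := by positivity
  have i1 : γ * m < (⌊γ * m⌋₊ : ℝ) + 1 := Nat.lt_floor_add_one _
  have i2 : (⌊γ * m⌋₊ : ℝ) ≤ γ * m := Nat.floor_le hγm
  have i3 : ⌊γ * m⌋₊ + 1 < m := by
    have : ((⌊γ * m⌋₊ + 1 : ℕ) : ℝ) < (m : ℝ) := by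
      push_cast
      nlinarith
    exact_mod_cast this
  have i4 : γ ≤ ((⌊γ * m⌋₊ + 1 : ℕ) : ℝ) / m := by
    rw [le_div_iff₀ hm0]
    push_cast
    exact i1.le
  have hαP' : α ∉ P (m, ⌊γ * m⌋₊ + 1) := fun h => hαP (Set.mem_iUnion.2 ⟨_, h⟩)
  have hmain := hP (m, ⌊γ * m⌋₊ + 1) (Nat.succ_pos _) i3 α e2 hmα.le hαP' (τ / 2)
    (by positivity)
  obtain ⟨p1, hp1⟩ := QS_mono ε (1 / (m : ℝ)) γ (((⌊γ * m⌋₊ + 1 : ℕ) : ℝ) / m) e1 i4
  obtain ⟨p2, hp2⟩ := QN_mono K m 0 0 hmK.le hm0.le le_rfl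
  have hcmp : ∀ p : ℕ, max p1 p2 ≤ p → QV ε γ K 0 α p →
      QV (1 / (m : ℝ)) (((⌊γ * m⌋₊ + 1 : ℕ) : ℝ) / m) m 0 α p := by
    intro p hp h
    rcases h with h | h
    · exact Or.inl (hp1 p ((le_max_left _ _).trans hp) α h)
    · exact Or.inr (hp2 p ((le_max_right _ _).trans hp) α h)
  have hfin := freq_compare (QV ε γ K 0 α)
    (QV (1 / (m : ℝ)) (((⌊γ * m⌋₊ + 1 : ℕ) : ℝ) / m) m 0 α) (max p1 p2) hcmp (τ / 2)
    (by positivity) hmain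
  refine hfin.mono fun x hx => hx.trans_le ?_
  linarith

end Pool.Agent.H.MP_711652_nt
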