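import Mathlib
import Pool.Agent.H.MP_711652_nt.RateD1
import Pool.Agent.H.MP_711652_nt.RateD2
import Pool.Agent.H.MP_711652_nt.RateD3

set_option autoImplicit false

namespace Pool.Agent.H.MP_711652_nt

open Finset MeasureTheory Filter Topology
open scoped ENNReal NNReal

open Classical in
/-- **The exponent theorem.** PROOF. `E s` = union of the sets of `reg_exponents s`,
`gap_exponents s` and the countable set `P` of `freq_exponents` (dimension `0`,
`Set.Countable.dimH_zero`); `dimH_union`. The sum for `QV` is at most the sum for `QS` plus the sum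
for `QN`; squeeze between `0` and the sum of the two limits. -/
theorem exponent_theorem : ∃ P : Set ℝ, P.Countable ∧ ∃ E : ℝ → Set ℝ,
    (∀ s : ℝ, 0 < s → s ≤ 1 → P ⊆ E s ∧ dimH (E s) ≤ ENNReal.ofReal s) ∧
    ∀ α : ℝ, 1 < α → ∀ ε γ K : ℝ, 0 < ε → 0 ≤ γ → γ < 1 →
      (∀ s κ β : ℝ, 0 < s → s ≤ 1 → α ∉ E s → 0 ≤ κ → 0 ≤ β → κ + β < s → β < s * (1 - γ) →
        Tendsto (fun x : ℕ => (∑ p ∈ (Icc 1 x).filter (QV ε γ K κ α), 1 / (p : ℝ)) /
          Real.log (Real.log x) * (Real.log (Real.log x)) ^ β) atTop (𝓝 0)) ∧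
      (α ∉ P → ∀ τ : ℝ, 0 < τ → ∃ᶠ x : ℕ in atTop,
        (∑ p ∈ (Icc 1 x).filter (QV ε γ K 0 α), 1 / (p : ℝ)) / Real.log (Real.log x) < τ) := by
  obtain ⟨P, hP, hPf⟩ := freq_exponents
  have hex : ∀ s : ℝ, ∃ F : Set ℝ, (0 < s → s ≤ 1 → dimH F ≤ ENNReal.ofReal s ∧
      (∀ α : ℝ, 1 < α → α ∉ F → ∀ ε γ β : ℝ, 0 < ε → 0 ≤ γ → γ < 1 →
      0 ≤ β → β < s * (1 - γ) →
      Tendsto (fun x : ℕ => (∑ p ∈ (Icc 1 x).filter (QS ε γ α), 1 / (p : ℝ)) /
        Real.log (Real.log x) * (Real.log (Real.log x)) ^ β) atTop (𝓝 0)) ∧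
      (∀ α : ℝ, 1 < α → α ∉ F → ∀ K κ β : ℝ, 0 ≤ κ → 0 ≤ β →
      κ + β < s →
      Tendsto (fun x : ℕ => (∑ p ∈ (Icc 1 x).filter (QN K κ α), 1 / (p : ℝ)) /
        Real.log (Real.log x) * (Real.log (Real.log x)) ^ β) atTop (𝓝 0))) := by
    intro s
    by_cases h : 0 < s ∧ s ≤ 1
    · obtain ⟨E1, a1, a2⟩ := reg_exponents s h.1 h.2
      obtain ⟨E2, b1, b2⟩ := gap_exponents s h.1 h.2
      refine ⟨E1 ∪ E2, fun _ _ => ⟨?_, ?_, ?_⟩⟩
      · rw [dimH_union]
        exact max_le a1 b1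
      · intro α hα hαE
        exact a2 α hα (fun h => hαE (Or.inl h))
      · intro α hα hαE
        exact b2 α hα (fun h => hαE (Or.inr h))
    · exact ⟨∅, fun h1 h2 => absurd ⟨h1, h2⟩ h⟩
  choose F hF using hex
  refine ⟨P, hP, fun s => F s ∪ P, ?_, ?_⟩
  · intro s hs hs1
    refine ⟨Set.subset_union_right, ?_⟩
    rw [dimH_union, hP.dimH_zero]
    exact max_le (hF s hs hs1).1 bot_le
  · intro α hα ε γ K hε hγ hγ1
    refine ⟨?_, fun hαP τ hτ => hPf α hα hαP ε γ K hε hγ hγ1 τ hτ⟩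
    intro s κ β hs hs1 hαE hκ hβ hκβ hβγ
    have hαF : α ∉ F s := fun h => hαE (Or.inl h)
    obtain ⟨_, h1, h2⟩ := hF s hs hs1
    have t1 := h1 α hα hαF ε γ β hε hγ hγ1 hβ hβγ
    have t2 := h2 α hα hαF K κ β hκ hβ hκβ
    have t3 := t1.add t2
    rw [add_zero] at t3
    have hll : ∀ᶠ x : ℕ in atTop, 0 < Real.log (Real.log x) := tendsto_loglog_nat.eventually_gt_atTop 0
    refine squeeze_zero' ?_ ?_ t3
    · filter_upwards [hll] with x hx
      have h3 : 0 ≤ ∑ p ∈ (Icc 1 x).filter (QV ε γ K κ α), 1 / (p : ℝ) :=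
        sum_nonneg fun p _ => by positivity
      have h4 : 0 ≤ (Real.log (Real.log x)) ^ β := Real.rpow_nonneg hx.le _
      exact mul_nonneg (div_nonneg h3 hx.le) h4
    · filter_upwards [hll] with x hx
      have h4 : 0 ≤ (Real.log (Real.log x)) ^ β := Real.rpow_nonneg hx.le _
      have h3 : ∑ p ∈ (Icc 1 x).filter (QV ε γ K κ α), 1 / (p : ℝ) ≤
          ∑ p ∈ (Icc 1 x).filter (QS ε γ α), 1 / (p : ℝ) +
            ∑ p ∈ (Icc 1 x).filter (QN K κ α), 1 / (p : ℝ) := by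
        rw [sum_filter, sum_filter, sum_filter, ← sum_add_distrib]
        apply sum_le_sum
        intro p _
        have hp : (0 : ℝ) ≤ 1 / (p : ℝ) := by positivity
        by_cases c1 : QS ε γ α p
        · have c0 : QV ε γ K κ α p := Or.inl c1
          rw [if_pos c0, if_pos c1]
          split_ifs <;> linarith
        · by_cases c2 : QN K κ α p
          · have c0 : QV ε γ K κ α p := Or.inr c2
            rw [if_pos c0, if_neg c1, if_pos c2]
            linarith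
          · have c0 : ¬ QV ε γ K κ α p := fun h => h.elim c1 c2
            rw [if_neg c0, if_neg c1, if_neg c2]
            linarith
      rw [← add_mul, ← add_div]
      gcongr

end Pool.Agent.H.MP_711652_nt
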