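import Mathlib
import Pool.Agent.H.MP_711652_nt.TailC

set_option autoImplicit false

namespace Pool.Agent.H.MP_711652_nt

open Finset MeasureTheory
open scoped ENNReal

/-- The exponents `α ≥ 1` with `(log p) ^ α ≤ p` such that some interval `(y, y + (log p) ^ α]`
with `|y - p| ≤ K (log p) ^ α` contains no prime. -/
def badExp (K p : ℕ) : Set ℝ := {α | 1 ≤ α ∧ (Real.log p) ^ α ≤ p ∧ ∃ y : ℕ,
  |(y : ℝ) - p| ≤ K * (Real.log p) ^ α ∧
  ∀ q : ℕ, y < q → (q : ℝ) ≤ y + (Real.log p) ^ α → ¬ q.Prime}

lemma log_four_gt : (1.38 : ℝ) < Real.log 4 := by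
  have h := Real.log_two_gt_d9
  have h2 : Real.log 4 = 2 * Real.log 2 := by
    rw [show (4 : ℝ) = 2 ^ 2 by norm_num, Real.log_pow]
    norm_num
  linarith

/-- The measure of the bad exponents is controlled by the number of bad scales. -/
lemma badExp_volume (X K p : ℕ) (hK : 1 ≤ K) (hX : Real.exp 16 ≤ X) (hpp : p.Prime) (hp : p ≤ X) (hpX : X < p ^ 2)
    (δ : ℝ) (hδ : 0 < δ) (hvol : ENNReal.ofReal δ ≤ volume (badExp K p)) :
    δ * (Real.log (Real.log X) - Real.log 2) - 2 ≤ ((badSc X (2 * K) p).card : ℝ) := by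
  classical
  set b := ⌈Real.log X⌉₊ with hb
  set ℓ := Real.log p with hℓ
  have hX0 : (0 : ℝ) < X := lt_of_lt_of_le (Real.exp_pos _) hX
  have hlX : 16 ≤ Real.log X := by
    rw [Real.le_log_iff_exp_le hX0]
    exact hX
  have hp0 : (0 : ℝ) < p := by
    rcases Nat.eq_zero_or_pos p with h | h
    · subst h
      simp at hpX
    · exact_mod_cast h
  have hℓ2 : Real.log X ≤ 2 * ℓ := by
    have h1 : Real.log X ≤ Real.log ((p : ℝ) ^ 2) := by
      apply Real.log_le_log hX0
      exact_mod_cast hpX.le
    rw [Real.log_pow] at h1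
    exact_mod_cast h1
  have hℓX : ℓ ≤ Real.log X := Real.log_le_log hp0 (by exact_mod_cast hp)
  have hℓ8 : 8 ≤ ℓ := by linarith
  have hℓ0 : 0 < ℓ := by linarith
  have hb1 : Real.log X ≤ b := Nat.le_ceil _
  have hb2 : (b : ℝ) ≤ 3 * ℓ := by
    have := Nat.ceil_lt_add_one (a := Real.log X) (by linarith)
    rw [← hb] at this
    linarith
  have hb0 : (0 : ℝ) < b := by linarith
  have hb0' : 0 < b := by exact_mod_cast hb0
  set ll := Real.log ℓ with hll
  have hll0 : 1 ≤ ll := by
    rw [hll, Real.le_log_iff_exp_le hℓ0]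
    have := Real.exp_one_lt_d9
    linarith
  have hllpos : 0 < ll := by linarith
  have hlogb : Real.log b ≤ ll + 2 := by
    have h1 : Real.log b ≤ Real.log (3 * ℓ) := Real.log_le_log hb0 hb2
    rw [Real.log_mul (by norm_num) hℓ0.ne'] at h1
    have h2 : Real.log 3 ≤ 2 := by
      rw [Real.log_le_iff_le_exp (by norm_num)]
      have := Real.add_one_le_exp (2 : ℝ)
      linarith
    linarith
  set S := badSc X (2 * K) p with hS
  have hl2 : 0 < Real.log 2 := Real.log_pos (by norm_num)
  have hcover : badExp K p ⊆ Set.Icc 1 (1 + 2 / ll) ∪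
      ⋃ j ∈ S, Set.Icc (Real.log ((2 : ℝ) ^ j * b) / ll)
        (Real.log ((2 : ℝ) ^ j * b) / ll + Real.log 2 / ll) := by
    rintro α ⟨hα1, hα2, y, hy1, hy2⟩
    have hα0 : 0 < α := by linarith
    set H := ℓ ^ α with hH
    have hH0 : 0 < H := Real.rpow_pos_of_pos hℓ0 α
    have hlogH : Real.log H = α * ll := Real.log_rpow hℓ0 α
    rcases lt_or_ge H b with h | h
    · left
      refine ⟨hα1, ?_⟩
      have h1 : Real.log H ≤ Real.log b := Real.log_le_log hH0 h.le
      rw [hlogH] at h1
      have h2 : α * ll ≤ (1 + 2 / ll) * ll := by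
        rw [add_mul, one_mul, div_mul_cancel₀ _ hllpos.ne']
        linarith
      exact le_of_mul_le_mul_right h2 hllpos
    · right
      have hq : 1 ≤ H / b := by
        rw [le_div_iff₀ hb0, one_mul]
        exact h
      set j := ⌊Real.logb 2 (H / b)⌋₊ with hj
      have hj1 : (j : ℝ) ≤ Real.logb 2 (H / b) :=
        Nat.floor_le (Real.logb_nonneg (by norm_num) hq)
      have hj2 : Real.logb 2 (H / b) < j + 1 := Nat.lt_floor_add_one _
      have hH1 : (2 : ℝ) ^ j * b ≤ H := by
        rw [← le_div_iff₀ hb0]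
        rw [Real.le_logb_iff_rpow_le (by norm_num) (by positivity), Real.rpow_natCast] at hj1
        exact hj1
      have hH2 : H < 2 * (2 ^ j * b) := by
        rw [Real.logb_lt_iff_lt_rpow (by norm_num) (by positivity), div_lt_iff₀ hb0] at hj2
        have h1 : (2 : ℝ) ^ ((j : ℝ) + 1) = 2 * 2 ^ j := by
          rw [Real.rpow_add (by norm_num), Real.rpow_natCast, Real.rpow_one]
          ring
        rw [h1] at hj2
        linarith
      have hHX : 2 ^ j * b ≤ X := by
        have h1 : (2 : ℝ) ^ j * b ≤ p := hH1.trans hα2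
        have h2 : 2 ^ j * b ≤ p := by exact_mod_cast h1
        exact h2.trans hp
      have hjS : j ∈ S := by
        rw [hS]
        unfold badSc
        rw [mem_filter, mem_range]
        refine ⟨?_, hHX, ?_⟩
        · have h1 : j < 2 ^ j := Nat.lt_two_pow_self
          have h2 : 2 ^ j ≤ 2 ^ j * b := Nat.le_mul_of_pos_right _ hb0'
          omega
        · rw [← hb]
          have hdist : |(y : ℝ) - p| ≤ ((2 * K * (2 ^ j * b) : ℕ) : ℝ) := by
            refine hy1.trans ?_
            push_cast
            have hK0 : (0 : ℝ) ≤ K := Nat.cast_nonneg _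
            nlinarith
          rw [abs_le] at hdist
          unfold badPrimes
          rw [mem_filter, mem_Icc]
          refine ⟨⟨hpp.pos, hp⟩, hpp, y, ?_, ?_, ?_⟩
          · have h1 : (p : ℝ) ≤ y + ((2 * K * (2 ^ j * b) : ℕ) : ℝ) := by linarith [hdist.1]
            exact_mod_cast h1
          · have h1 : (y : ℝ) ≤ p + ((2 * K * (2 ^ j * b) : ℕ) : ℝ) := by linarith [hdist.2]
            exact_mod_cast h1
          · intro r hr1 hr2
            apply hy2 r hr1
            have h1 : (r : ℝ) ≤ y + ((2 ^ j * b : ℕ) : ℝ) := by exact_mod_cast hr2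
            push_cast at h1
            linarith
      rw [Set.mem_iUnion₂]
      refine ⟨j, hjS, ?_⟩
      have h2b : (0 : ℝ) < 2 ^ j * b := by positivity
      constructor
      · rw [div_le_iff₀ hllpos, ← hlogH]
        exact Real.log_le_log h2b hH1
      · rw [← add_div, le_div_iff₀ hllpos, ← hlogH, ← Real.log_mul h2b.ne' (by norm_num)]
        apply Real.log_le_log hH0
        linarith
  have hmeas : volume (badExp K p) ≤ ENNReal.ofReal (2 / ll + S.card * (Real.log 2 / ll)) := by
    refine (measure_mono hcover).trans ((measure_union_le _ _).trans ?_)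
    have h1 : volume (Set.Icc (1 : ℝ) (1 + 2 / ll)) = ENNReal.ofReal (2 / ll) := by
      rw [Real.volume_Icc]
      congr 1
      ring
    have h2 : volume (⋃ j ∈ S, Set.Icc (Real.log ((2 : ℝ) ^ j * b) / ll)
        (Real.log ((2 : ℝ) ^ j * b) / ll + Real.log 2 / ll)) ≤
        S.card * ENNReal.ofReal (Real.log 2 / ll) := by
      refine (measure_biUnion_finset_le _ _).trans ?_
      rw [← nsmul_eq_mul, ← sum_const]
      apply sum_le_sum
      intro j _
      rw [Real.volume_Icc]
      apply ENNReal.ofReal_le_ofReal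
      linarith
    rw [h1, ENNReal.ofReal_add (by positivity) (by positivity),
      ENNReal.ofReal_mul (Nat.cast_nonneg _), ENNReal.ofReal_natCast]
    gcongr
  have hfin : δ ≤ 2 / ll + S.card * (Real.log 2 / ll) := by
    have h1 := hvol.trans hmeas
    rwa [ENNReal.ofReal_le_ofReal_iff (by positivity)] at h1
  have h1 : δ * ll ≤ 2 + S.card * Real.log 2 := by
    have h2 := mul_le_mul_of_nonneg_right hfin hllpos.le
    have h3 : (2 / ll + S.card * (Real.log 2 / ll)) * ll = 2 + S.card * Real.log 2 := by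
      field_simp
    linarith
  have h2 : Real.log (Real.log X) - Real.log 2 ≤ ll := by
    rw [← Real.log_div (by linarith) (by norm_num)]
    apply Real.log_le_log (by linarith)
    linarith
  have h3 : Real.log 2 ≤ 1 := by
    have := Real.log_two_lt_d9
    linarith
  have h4 : (S.card : ℝ) * Real.log 2 ≤ S.card := by
    have : (0 : ℝ) ≤ S.card := Nat.cast_nonneg _
    nlinarith
  have h5 : δ * (Real.log (Real.log X) - Real.log 2) ≤ δ * ll := by gcongr
  linarith

end Pool.Agent.H.MP_711652_nt
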