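import Mathlib
import Pool.Agent.H.MP_711652_nt.TailB2
import Pool.Agent.H.MP_711652_nt.TailC1
import Pool.Agent.H.MP_711652_nt.TailC2
import Pool.Agent.H.MP_711652_nt.TailD1
import Pool.Agent.H.MP_711652_nt.EntD3

set_option autoImplicit false

namespace Pool.Agent.H.MP_711652_nt

open Finset

open Classical in
/-- **Exponential scale packing.** PROOF. `C₀, X₀, b, K, A` from `total_moment`, `M = b 2^K`,
`C` large (e.g. `C = 640000 + 6 C₀ + 2 C₀ ^ 2`). Exactly as in the proof of `entropy_packing`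
(file `EntD3`, copy the beginning) choose `l i`, `t i` with `6 b 2^(l i) ≤ ε (H i) < 12 b 2^(l i)`,
`14 R i < b 2^(t i) ≤ 28 R i`; so `l i ≤ t i ≤ K`, `t i ≤ l (i + 1)`, hence `t i ≤ l j` for
`i < j < J` (induction, `l j ≤ t j`). Put `s i = b 2^(l i)`, `T i = b 2^(t i)` (for `i ≥ J`
anything), `κ = 20000 / ε ^ 3 ≥ 1`, `B a i n = BadB (ps a) ε (H i) (R i) (s i) (T i) n`.
`tail_abs` (with `badB_blk`, `bad_avg`) for `f = ps 0` and `f = ps (b A)` bounds the two sums of
`card_two` with `N p = #{i < J : ¬ TypicalS}`, `N0 = nb (B 0) J`, `Na = nb (B (b A)) J`,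
`a = b A`, where `N p ≤ N0 p + Na (p + a)` by `badB_of_not_typical` (`filter` over `i` of an `Or`,
`card_union_le`). So the count is at most `2 C₀ exp (-(((m + 1) / 2 : ℕ) / (16 κ))) * C₀ π X` and
`((m + 1) / 2 : ℕ) ≥ m / 2`, `16 κ * 2 = 640000 / ε ^ 3`. -/
theorem scale_tail : ∃ C : ℝ, 1 ≤ C ∧ ∃ X₀ : ℕ, ∀ X : ℕ, X₀ ≤ X → ∀ ε : ℝ, 0 < ε → ε ≤ 1 →
    ∀ (J : ℕ) (H R : ℕ → ℕ),
    (∀ i, i < J → C * Real.log X ≤ ε * H i) →
    (∀ i, i < J → H i ≤ R i) →
    (∀ i, i + 1 < J → C * R i ≤ ε * H (i + 1)) →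
    (∀ i, i < J → C * R i ≤ X) →
    ∀ m : ℕ, (((Icc 1 X).filter (fun p => p.Prime ∧
      m ≤ ((range J).filter (fun i => ¬ TypicalS ε (H i) (R i) p)).card)).card : ℝ) ≤
      C * Real.exp (-(ε ^ 3 * m / C)) * Nat.primeCounting X := by
  obtain ⟨C₀, hC₀, X₀, hX₀⟩ := total_moment
  have hC₀2 : 0 ≤ C₀ ^ 2 := sq_nonneg _
  refine ⟨640000 + 6 * C₀ + 2 * C₀ ^ 2, by linarith only [hC₀, hC₀2], max X₀ 2, ?_⟩
  intro X hX ε hε hε1 J H R hH hHR hRH hRX m
  set C : ℝ := 640000 + 6 * C₀ + 2 * C₀ ^ 2 with hC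
  obtain ⟨b, K, A, hb2, hbC, -, -, hA, h4X, -, hXA, hmom⟩ := hX₀ X (le_trans (le_max_left _ _) hX)
  have hX2 : 2 ≤ X := le_trans (le_max_right _ _) hX
  have hb0 : 0 < b := by omega
  have hbr : (0 : ℝ) < b := by exact_mod_cast hb0
  set L := Real.log X with hL
  have hLpos : 0 < L := Real.log_pos (by exact_mod_cast (by omega : 1 < X))
  have hXr : (0 : ℝ) < X := by exact_mod_cast (by omega : 0 < X)
  set M := b * 2 ^ K with hM
  have hM0 : 0 < M := by positivity
  have hH6 : ∀ i, i < J → 6 * (b : ℝ) ≤ ε * H i := by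
    intro i hi
    have h1 := hH i hi
    have h2 : 6 * C₀ * L ≤ C * L := by
      apply mul_le_mul_of_nonneg_right _ hLpos.le
      rw [hC]; linarith only [hC₀, hC₀2]
    linarith
  have hεH : ∀ i, ε * (H i : ℝ) ≤ H i := by
    intro i
    have h2 : ε * (H i : ℝ) ≤ 1 * H i := by gcongr
    linarith
  have hHRr : ∀ i, i < J → (H i : ℝ) ≤ R i := fun i hi => by exact_mod_cast hHR i hi
  have hexl : ∀ i, ∃ n : ℕ, i < J →
      (2 : ℝ) ^ n ≤ ε * H i / (6 * b) ∧ ε * H i / (6 * b) < 2 * 2 ^ n := by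
    intro i
    by_cases hi : i < J
    · have h1 : 1 ≤ ε * H i / (6 * b) := by
        rw [le_div_iff₀ (by positivity), one_mul]
        exact hH6 i hi
      obtain ⟨n, hn⟩ := dyadic_near _ h1
      exact ⟨n, fun _ => hn⟩
    · exact ⟨0, fun h => absurd h hi⟩
  have hext : ∀ i, ∃ n : ℕ, i < J →
      (2 : ℝ) ^ n ≤ 28 * (R i : ℝ) / b ∧ 28 * (R i : ℝ) / b < 2 * 2 ^ n := by
    intro i
    by_cases hi : i < J
    · have h1 : 1 ≤ 28 * (R i : ℝ) / b := by
        rw [le_div_iff₀ (by positivity), one_mul]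
        have h2 := hH6 i hi
        have h3 := hεH i
        have h4 := hHRr i hi
        linarith
      obtain ⟨n, hn⟩ := dyadic_near _ h1
      exact ⟨n, fun _ => hn⟩
    · exact ⟨0, fun h => absurd h hi⟩
  choose l hl using hexl
  choose t ht using hext
  have hl1 : ∀ i, i < J → 6 * ((b : ℝ) * 2 ^ l i) ≤ ε * H i := by
    intro i hi
    have h1 := (hl i hi).1
    rw [le_div_iff₀ (by positivity)] at h1
    linarith
  have hl2 : ∀ i, i < J → ε * H i < 12 * ((b : ℝ) * 2 ^ l i) := by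
    intro i hi
    have h1 := (hl i hi).2
    rw [div_lt_iff₀ (by positivity)] at h1
    linarith
  have ht1 : ∀ i, i < J → (b : ℝ) * 2 ^ t i ≤ 28 * R i := by
    intro i hi
    have h1 := (ht i hi).1
    rw [le_div_iff₀ (by positivity)] at h1
    linarith
  have ht2 : ∀ i, i < J → 14 * (R i : ℝ) < (b : ℝ) * 2 ^ t i := by
    intro i hi
    have h1 := (ht i hi).2
    rw [div_lt_iff₀ (by positivity)] at h1
    linarith
  have hpow : ∀ m n : ℕ, (b : ℝ) * 2 ^ m < (b : ℝ) * 2 ^ n → m ≤ n := by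
    intro m n h
    have h2 : (2 : ℝ) ^ m < 2 ^ n := lt_of_mul_lt_mul_left h hbr.le
    exact ((pow_lt_pow_iff_right₀ (by norm_num : (1 : ℝ) < 2)).1 h2).le
  have hlt : ∀ i, i < J → l i ≤ t i := by
    intro i hi
    apply hpow
    have h1 := hl1 i hi
    have h2 := ht2 i hi
    have h3 := hεH i
    have h4 := hHRr i hi
    have h5 : (0 : ℝ) ≤ R i := Nat.cast_nonneg _
    linarith
  have htl : ∀ i, i + 1 < J → t i ≤ l (i + 1) := by
    intro i hi
    apply hpow
    have h1 := ht1 i (by omega)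
    have h2 := hl2 (i + 1) hi
    have h3 := hRH i hi
    have h5 : (0 : ℝ) ≤ R i := Nat.cast_nonneg _
    have h6 : 400 * (R i : ℝ) ≤ C * R i := by
      apply mul_le_mul_of_nonneg_right _ h5
      rw [hC]; linarith only [hC₀, hC₀2]
    have h7 : 0 < (b : ℝ) * 2 ^ l (i + 1) := by positivity
    linarith
  have htK : ∀ i, i < J → t i ≤ K := by
    intro i hi
    apply hpow
    have h1 := ht1 i hi
    have h3 := hRX i hi
    have h5 : (0 : ℝ) ≤ R i := Nat.cast_nonneg _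
    have h6 : 400 * (R i : ℝ) ≤ C * R i := by
      apply mul_le_mul_of_nonneg_right _ h5
      rw [hC]; linarith only [hC₀, hC₀2]
    have h7 : 4 * (X : ℝ) ≤ (b : ℝ) * 2 ^ K := by exact_mod_cast h4X
    linarith
  have htlj : ∀ j, j < J → ∀ i, i < j → t i ≤ l j := by
    intro j
    induction j with
    | zero => intro _ i hi; omega
    | succ j ih =>
      intro hj i hi
      rcases Nat.lt_succ_iff_lt_or_eq.1 hi with h | h
      · exact (ih (by omega) i h).trans ((hlt j (by omega)).trans (htl j hj))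
      · rw [h]; exact htl j hj
  have hps : ∀ a k, 0 ≤ ps a k := by
    intro a k
    unfold ps
    split_ifs <;> norm_num
  have hεp : 0 < ε ^ 3 := by positivity
  have hε31 : ε ^ 3 ≤ 1 := pow_le_one₀ hε.le hε1
  set κ : ℝ := 20000 / ε ^ 3 with hκ
  have hκ1 : 1 ≤ κ := by
    rw [hκ, le_div_iff₀ hεp]
    linarith only [hε31]
  set m' : ℕ := (m + 1) / 2 with hm'
  have htail : ∀ a : ℕ, (a = 0 ∨ a = b * A) →
      ∑ n ∈ (range M).filter (fun n => m' ≤ nb (fun i n => BadB (ps a) ε (H i) (R i) (b * 2 ^ l i)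
        (b * 2 ^ t i) n) J n), ps a n ≤
      C₀ * Real.exp (-(m' / (16 * κ))) * (C₀ * Nat.primeCounting X) := by
    intro a ha
    obtain ⟨hS, hQ⟩ := hmom a ha
    have h := tail_abs M b J (fun i => b * 2 ^ l i) (fun i => b * 2 ^ t i) hM0 hb0
      (Dvd.intro _ rfl) (ps a) (hps a)
      (fun i hi => ⟨by positivity, Dvd.intro _ rfl,
        Nat.mul_dvd_mul_left b (pow_dvd_pow 2 (hlt i hi))⟩)
      (fun i j hij hj => Nat.mul_dvd_mul_left b (pow_dvd_pow 2 (htlj j hj i hij)))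
      (fun i hi => Nat.mul_dvd_mul_left b (pow_dvd_pow 2 (htK i hi)))
      (fun i n => BadB (ps a) ε (H i) (R i) (b * 2 ^ l i) (b * 2 ^ t i) n) κ C₀ hκ1 hC₀ hQ
      (fun i _ k n hkn => badB_blk (ps a) ε (H i) (R i) (b * 2 ^ l i) (b * 2 ^ t i) k n hkn)
      (fun i hi n => bad_avg (ps a) (hps a) (b * 2 ^ l i) (b * 2 ^ t i) (H i) (R i) ε
        (by positivity) (by positivity) (Nat.mul_dvd_mul_left b (pow_dvd_pow 2 (hlt i hi))) hε hε1
        (by push_cast; exact hl1 i hi) n) m'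
    refine h.trans ?_
    have h2 : 0 ≤ C₀ * Real.exp (-(m' / (16 * κ))) := by positivity
    exact mul_le_mul_of_nonneg_left hS h2
  have hcount := card_two X M (b * A) m
    (fun p => ((range J).filter (fun i => ¬ TypicalS ε (H i) (R i) p)).card)
    (fun n => nb (fun i n => BadB (ps 0) ε (H i) (R i) (b * 2 ^ l i) (b * 2 ^ t i) n) J n)
    (fun n => nb (fun i n => BadB (ps (b * A)) ε (H i) (R i) (b * 2 ^ l i) (b * 2 ^ t i) n) J n)
    hXA (by
      intro p hp _
      unfold nb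
      refine le_trans (card_le_card ?_) (card_union_le _ _)
      intro i hi
      rw [mem_filter] at hi
      have hiJ := mem_range.1 hi.1
      rw [mem_union, mem_filter, mem_filter]
      have h1 := hl1 i hiJ
      have h2 := ht2 i hiJ
      have h3 := hεH i
      have h4 := hHRr i hiJ
      have h5 := hH6 i hiJ
      have h8 : (6 * (2 * (R i : ℝ) + b * 2 ^ l i) + b) < b * 2 ^ t i := by
        linarith only [h1, h2, h3, h4, h5]
      have h9 : 6 * (2 * R i + b * 2 ^ l i) + b < b * 2 ^ t i := by exact_mod_cast h8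
      rcases badB_of_not_typical b (t i) K A (H i) (R i) (b * 2 ^ l i) (b * 2 ^ t i) p ε hb0 hA
        (htK i hiJ) rfl h9 hp hi.2 with h | h
      · exact Or.inl ⟨hi.1, h⟩
      · exact Or.inr ⟨hi.1, h⟩)
  have h0 := htail 0 (Or.inl rfl)
  have ha := htail (b * A) (Or.inr rfl)
  have hexp : Real.exp (-(m' / (16 * κ))) ≤ Real.exp (-(ε ^ 3 * m / C)) := by
    apply Real.exp_le_exp.2
    apply neg_le_neg
    have hm2 : (m : ℝ) / 2 ≤ m' := by
      have h1 : m ≤ 2 * m' := by omega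
      have h2 : (m : ℝ) ≤ 2 * m' := by exact_mod_cast h1
      linarith only [h2]
    have hm0 : (0 : ℝ) ≤ m := Nat.cast_nonneg _
    have e1 : (m' : ℝ) / (16 * κ) = ε ^ 3 * m' / 320000 := by
      rw [hκ]
      field_simp
      ring
    rw [e1]
    have h3 : ε ^ 3 * (m : ℝ) / C ≤ ε ^ 3 * m / 640000 := by
      apply div_le_div_of_nonneg_left (by positivity) (by norm_num)
      rw [hC]; linarith only [hC₀, hC₀2]
    have h4 : ε ^ 3 * ((m : ℝ) / 2) ≤ ε ^ 3 * m' := mul_le_mul_of_nonneg_left hm2 hεp.le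
    have h5 : ε ^ 3 * (m : ℝ) / 640000 ≤ ε ^ 3 * m' / 320000 := by linarith only [h4]
    exact h3.trans h5
  have hπ0 : (0 : ℝ) ≤ Nat.primeCounting X := Nat.cast_nonneg _
  set ex := Real.exp (-(ε ^ 3 * m / C)) with hex
  have hex0 : 0 ≤ ex := (Real.exp_pos _).le
  have hfin : C₀ * Real.exp (-(m' / (16 * κ))) * (C₀ * Nat.primeCounting X) ≤
      C₀ ^ 2 * (ex * Nat.primeCounting X) := by
    have h1 : Real.exp (-(m' / (16 * κ))) * Nat.primeCounting X ≤ ex * Nat.primeCounting X :=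
      mul_le_mul_of_nonneg_right hexp hπ0
    have h2 := mul_le_mul_of_nonneg_left h1 hC₀2
    linarith only [h2]
  have hep0 : 0 ≤ ex * Nat.primeCounting X := mul_nonneg hex0 hπ0
  have hC2 : 2 * C₀ ^ 2 ≤ C := by rw [hC]; linarith only [hC₀]
  have h6 : 2 * C₀ ^ 2 * (ex * Nat.primeCounting X) ≤ C * (ex * Nat.primeCounting X) :=
    mul_le_mul_of_nonneg_right hC2 hep0
  have h7 : C * ex * Nat.primeCounting X = C * (ex * Nat.primeCounting X) := by ring
  rw [h7]
  refine hcount.trans ?_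
  linarith only [h0, ha, hfin, h6]

end Pool.Agent.H.MP_711652_nt
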