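import Mathlib
import Pool.Agent.H.MP_711652_nt.TailD

set_option autoImplicit false

namespace Pool.Agent.H.MP_711652_nt

open Finset MeasureTheory
open scoped ENNReal

open Classical in
/-- **Exponent form of the tail.** -/
theorem exp_tail_exponents : ∃ C c : ℝ, 0 < C ∧ 0 < c ∧ ∃ X₀ : ℕ, ∀ X : ℕ, X₀ ≤ X → ∀ K : ℕ,
    1 ≤ K → ∀ δ : ℝ, 0 < δ →
    (((Icc 1 X).filter (fun p => p.Prime ∧ X < p ^ 2 ∧
      ENNReal.ofReal δ ≤ volume (badExp K p))).card : ℝ) ≤
      C * (Real.log X) ^ (-c * δ / K) * Nat.primeCounting X := by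
  obtain ⟨C, c, hC, hc, X₀, hX₀⟩ := exp_tail
  refine ⟨C * Real.exp c, c / 4, by positivity, by positivity, max X₀ ⌈Real.exp 16⌉₊, ?_⟩
  intro X hX K hK δ hδ
  have hX1 : X₀ ≤ X := le_trans (le_max_left _ _) hX
  have hX2 : Real.exp 16 ≤ X := by
    have h1 : ⌈Real.exp 16⌉₊ ≤ X := le_trans (le_max_right _ _) hX
    exact (Nat.le_ceil _).trans (by exact_mod_cast h1)
  have hX0 : (0 : ℝ) < X := lt_of_lt_of_le (Real.exp_pos _) hX2
  have hlX : 16 ≤ Real.log X := by
    rw [Real.le_log_iff_exp_le hX0]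
    exact hX2
  have hK0 : (1 : ℝ) ≤ K := by exact_mod_cast hK
  set L := Real.log (Real.log X) with hL
  have hL2 : Real.log 2 ≤ L / 2 := by
    have h1 : Real.log 4 ≤ L := Real.log_le_log (by norm_num) (by linarith)
    have h2 : Real.log 4 = 2 * Real.log 2 := by
      rw [show (4 : ℝ) = 2 ^ 2 by norm_num, Real.log_pow]
      norm_num
    linarith
  set m := ⌈δ * (L - Real.log 2) - 2⌉₊ with hm
  have hsub : (Icc 1 X).filter (fun p => p.Prime ∧ X < p ^ 2 ∧
      ENNReal.ofReal δ ≤ volume (badExp K p)) ⊆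
      (Icc 1 X).filter (fun p => p.Prime ∧ m ≤ (badSc X (2 * K) p).card) := by
    intro p hp
    rw [mem_filter] at hp ⊢
    obtain ⟨hp1, hp2, hp3, hp4⟩ := hp
    refine ⟨hp1, hp2, ?_⟩
    rw [mem_Icc] at hp1
    have h1 := badExp_volume X K p hK hX2 hp2 hp1.2 hp3 δ hδ hp4
    rw [hm]
    exact Nat.ceil_le.2 h1
  have h1 := hX₀ X hX1 (2 * K) (by omega) m
  have h2 : (((Icc 1 X).filter (fun p => p.Prime ∧ X < p ^ 2 ∧
      ENNReal.ofReal δ ≤ volume (badExp K p))).card : ℝ) ≤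
      C * Real.exp (-c * m / (2 * K : ℕ)) * Nat.primeCounting X := by
    refine le_trans ?_ h1
    exact_mod_cast card_le_card hsub
  refine h2.trans ?_
  have hm1 : δ * L / 2 - 2 ≤ m := by
    have h3 : δ * (L - Real.log 2) - 2 ≤ m := Nat.le_ceil _
    have h4 : δ * (L / 2) ≤ δ * (L - Real.log 2) := by
      apply mul_le_mul_of_nonneg_left _ hδ.le
      linarith
    linarith
  have h3 : Real.exp (-c * m / (2 * K : ℕ)) ≤
      Real.exp c * (Real.log X) ^ (-(c / 4) * δ / K) := by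
    rw [Real.rpow_def_of_pos (by linarith), ← hL, ← Real.exp_add]
    apply Real.exp_le_exp.2
    push_cast
    rw [div_le_iff₀ (by positivity)]
    have h4 : (c + L * (-(c / 4) * δ / K)) * (2 * K) = 2 * c * K - c * (δ * L / 2) := by
      field_simp
      ring
    rw [h4]
    have h5 : c * (δ * L / 2 - 2) ≤ c * m := by gcongr
    have h6 : c * 1 ≤ c * K := by gcongr
    nlinarith
  calc C * Real.exp (-c * m / (2 * K : ℕ)) * Nat.primeCounting X
      ≤ C * (Real.exp c * (Real.log X) ^ (-(c / 4) * δ / K)) * Nat.primeCounting X := by gcongr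
    _ = _ := by ring

end Pool.Agent.H.MP_711652_nt
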